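import Pool.Agent.H85.DC.TauM

/-!
# MP_6873ef_an: curvature quantities of the foliation, hypothesis (E). Definitions only (helper85).
`cr` is the bilinear cross product (`TauM`).
-/

open MeasureTheory
open scoped ContDiff BigOperators ComplexConjugate Matrix

namespace Pool.Agent.H85.DC

/-- `K_y² = |Dη_y(v_y) ∧ η_y|² / |η_y|⁴` with `v_y = conj(η_y)/|η_y|`. -/
noncomputable def K2 (F : Fin 3 → MvPolynomial (Fin 3) ℂ) (y : V) : ℝ :=
  N (cr (fderiv ℂ (eta F) y (fun j => conj (eta F y j))) (eta F y)) / N (eta F y) ^ 3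

/-- `II_y² = |Dη_y(w_y) ∧ η_y|² / |η_y|⁴`, `w_y` the unit tangent vector. -/
noncomputable def II2 (F : Fin 3 → MvPolynomial (Fin 3) ℂ) (y : V) : ℝ :=
  N (cr (fderiv ℂ (eta F) y (wv F y)) (eta F y)) / N (eta F y) ^ 2

/-- Hypothesis (E): logarithmic growth of the energy of `K` at the singular set. -/
def EnergyE (F : Fin 3 → MvPolynomial (Fin 3) ℂ) (μ : Measure V) : Prop :=
  ∃ C : ℝ, ∀ r : ℝ, 0 < r → r < 1 →
    ∫⁻ y in {y | r ≤ N (eta F y)}, ENNReal.ofReal (K2 F y) ∂μ ≤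
      ENNReal.ofReal (C * (1 + Real.log (1 / r)))

/-- Zero Lelong numbers at every point off the singular set. -/
def ZeroLelongAll (F : Fin 3 → MvPolynomial (Fin 3) ℂ) (μ : Measure V) : Prop :=
  ∀ y : V, N y = 1 → eta F y ≠ 0 →
    Filter.Tendsto (fun s : ℝ => (μ {y' | tau y y' < s ^ 2}).toReal / s ^ 2)
      (nhdsWithin 0 (Set.Ioi 0)) (nhds 0)

end Pool.Agent.H85.DC
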