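import Mathlib

/-!
# MP_6873ef_an: directed currents on `ℙ²`. Definitions (helper85).

Everything lives on `V = ℂ³`: functions, covector fields and `(1,1)`-forms of `ℙ²` are homogeneous
functions on `V \ {0}`; directed currents are measures on the unit sphere.
-/

open MeasureTheory
open scoped ContDiff BigOperators ComplexConjugate Matrix

namespace Pool.Agent.H85.DC

/-- `ℂ³`. -/
abbrev V : Type := Fin 3 → ℂ

/-- The squared Euclidean norm `∑ |x_j|²`. -/
noncomputable def N (x : V) : ℝ := ∑ j, Complex.normSq (x j)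

/-- The Hermitian product `∑ x_j conj(y_j)`. -/
noncomputable def ip (x y : V) : ℂ := ∑ j, x j * conj (y j)

/-- `τ(x, y) = 1 - |⟨x, y⟩|² / (N x N y)`: the square of the sine of the angle of the complex lines
`ℂ x`, `ℂ y` (Fubini-Study). -/
noncomputable def tau (x y : V) : ℝ := 1 - Complex.normSq (ip x y) / (N x * N y)

/-- Wirtinger derivative `∂f/∂x_j`. -/
noncomputable def dz (j : Fin 3) (f : V → ℂ) (x : V) : ℂ :=
  (fderiv ℝ f x (Pi.single j 1) - Complex.I * fderiv ℝ f x (Pi.single j Complex.I)) / 2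

/-- Wirtinger derivative `∂f/∂x̄_j`. -/
noncomputable def dzb (j : Fin 3) (f : V → ℂ) (x : V) : ℂ :=
  (fderiv ℝ f x (Pi.single j 1) + Complex.I * fderiv ℝ f x (Pi.single j Complex.I)) / 2

/-- Smooth functions on `ℙ²`: smooth functions on `V \ {0}`, constant on complex lines. -/
structure IsFun (u : V → ℂ) : Prop where
  smooth : ContDiffOn ℝ ∞ u {0}ᶜ
  hom : ∀ (l : ℂ) (x : V), l ≠ 0 → u (l • x) = u x

/-- Smooth `(1,0)`-forms on `ℙ²`: `ζ(l x) = l⁻¹ ζ(x)`, `∑ x_j ζ_j(x) = 0`. -/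
structure IsCov (ζ : V → V) : Prop where
  smooth : ContDiffOn ℝ ∞ ζ {0}ᶜ
  hom : ∀ (l : ℂ) (x : V), l ≠ 0 → ζ (l • x) = l⁻¹ • ζ x
  kill : ∀ x : V, x ≠ 0 → ∑ j, x j * ζ x j = 0

/-- The matrix `∂_j ∂̄_k u`, i.e. the form `∂∂̄u`. -/
noncomputable def L (u : V → ℂ) (x : V) : Matrix (Fin 3) (Fin 3) ℂ :=
  fun j k => dz j (dzb k u) x

/-- The matrix `∂̄_k ζ_j`, i.e. the form `∂̄ζ` (up to sign). -/
noncomputable def db (ζ : V → V) (x : V) : Matrix (Fin 3) (Fin 3) ℂ :=
  fun j k => dzb k (fun y => ζ y j) x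

/-- The value at `y` of the homogeneous vector field with components `F_j`. -/
noncomputable def Zf (F : Fin 3 → MvPolynomial (Fin 3) ℂ) (y : V) : V :=
  fun j => MvPolynomial.eval y (F j)

/-- The cross product `y × Z(y)`: it vanishes exactly at the singular points of the foliation. -/
noncomputable def eta (F : Fin 3 → MvPolynomial (Fin 3) ℂ) (y : V) : V :=
  ![y 1 * Zf F y 2 - y 2 * Zf F y 1, y 2 * Zf F y 0 - y 0 * Zf F y 2,
    y 0 * Zf F y 1 - y 1 * Zf F y 0]

/-- `A_y(w, w) = ∑ A_jk w_j conj(w_k)` for the unit vector `w` which is orthogonal to `y` and tangent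
to the foliation at the unit vector `y` (written with `Z(y)` instead of `w`; `A` kills `y`). -/
noncomputable def pr (F : Fin 3 → MvPolynomial (Fin 3) ℂ) (A : V → Matrix (Fin 3) (Fin 3) ℂ)
    (y : V) : ℂ :=
  (∑ j, ∑ k, A y j k * Zf F y j * conj (Zf F y k)) / (N (eta F y) : ℂ)

/-- A positive current of mass one directed by the foliation `F`: a probability measure on the unit
sphere which does not charge the singular set (its trace measure); it acts on a `(1,1)`-form `A` by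
`∫ pr F A y dμ(y)`. -/
structure IsCur (F : Fin 3 → MvPolynomial (Fin 3) ℂ) (μ : Measure V) : Prop where
  prob : μ Set.univ = 1
  sphere : ∀ᵐ y ∂μ, N y = 1
  sing : ∀ᵐ y ∂μ, eta F y ≠ 0

/-- The directed current of `μ` is `ddᶜ`-closed. -/
def DdcClosed (F : Fin 3 → MvPolynomial (Fin 3) ℂ) (μ : Measure V) : Prop :=
  ∀ u : V → ℂ, IsFun u → ∫ y, pr F (L u) y ∂μ = 0

/-- The directed current of `μ` is closed. -/
def CurClosed (F : Fin 3 → MvPolynomial (Fin 3) ℂ) (μ : Measure V) : Prop :=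
  ∀ ζ : V → V, IsCov ζ → ∫ y, pr F (db ζ) y ∂μ = 0

/-- Finite energy on compact sets off the singular set. -/
def FinEnergy (F : Fin 3 → MvPolynomial (Fin 3) ℂ) (μ : Measure V) : Prop :=
  ∀ r : ℝ, 0 < r → ∫⁻ y in {y | r ≤ N (eta F y)}, ∫⁻ y' in {y' | r ≤ N (eta F y')},
    (ENNReal.ofReal (tau y y'))⁻¹ ∂μ ∂μ < ⊤

/-- Hölder regularity off the singular set, with polynomial loss at the singular set. -/
def HolderOff (F : Fin 3 → MvPolynomial (Fin 3) ℂ) (μ : Measure V) : Prop :=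
  ∃ (C : ℝ) (m : ℕ) (κ : ℝ), 0 < κ ∧ ∀ (y : V) (s : ℝ), N y = 1 → eta F y ≠ 0 → 0 < s → s < 1 →
    (μ {y' | tau y y' < s ^ 2}).toReal ≤ C * (N (eta F y))⁻¹ ^ m * s ^ (2 + κ)

/-- The Lelong number vanishes at almost every point. -/
def ZeroLelong (μ : Measure V) : Prop :=
  ∀ᵐ y ∂μ, Filter.Tendsto (fun s : ℝ => (μ {y' | tau y y' < s ^ 2}).toReal / s ^ 2)
    (nhdsWithin 0 (Set.Ioi 0)) (nhds 0)

end Pool.Agent.H85.DC
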