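import Pool.Agent.H85.DC.Frm

/-!
# Row HomC: bounds and integrability of homogeneous functions

`chom_bound`: `f` is continuous on the compact set `{x : N x = 1}`, let `B` bound `‖f‖` there, `C = B^2`.
For `x ≠ 0`, `x = l • y` with `l = √(N x)` real positive, `N y = 1`:
`‖f x‖ = |l|^(a+b) ‖f y‖`, so `‖f x‖^2 ≤ C * (N x)^(a+b)`.

`integrable_N_rpow`: for `s > -3` the function `(N x)^s e^{-c N x}` (`c > 0`) is integrable on `V`
(real dimension 6).  Compare with the sup norm: `‖x‖^2 ≤ N x ≤ 3 ‖x‖^2`.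
So `(N x)^s e^{-c N x} ≤ 3^|s| ‖x‖^(2s) e^{-c‖x‖^2}`, and use Mathlib's
`MeasureTheory.integrable_fun_norm_addHaar` (`finrank ℝ V = 6`): need `r^5 r^(2s) e^{-c r^2}` integrable on
`(0,∞)` (`integrableOn_rpow_mul_exp_neg_mul_sq`, exponent `5 + 2 s > -1`).  Measurability: continuous off `0`.

`chom_integrable`: `‖f x‖ wt x ≤ √C (N x)^((a+b)/2) e^{-N x}`, exponent `(a+b)/2 ≥ -5/2 > -3`. Measurability:
continuous on the open set `{0}ᶜ` of full measure (`ContinuousOn.aestronglyMeasurable`, `volume {0} = 0`).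
-/

open MeasureTheory
open scoped ContDiff BigOperators ComplexConjugate Matrix

namespace Pool.Agent.H85.DC

theorem HomC_sq (z : ℂ) : ‖z‖ ^ 2 = Complex.normSq z := (Complex.normSq_eq_norm_sq z).symm

theorem HomC_nonneg (x : V) : 0 ≤ N x := Finset.sum_nonneg fun _ _ => Complex.normSq_nonneg _

theorem HomC_pos {x : V} (hx : x ≠ 0) : 0 < N x := by
  refine lt_of_le_of_ne (HomC_nonneg x) fun h => hx ?_
  have h2 := (Finset.sum_eq_zero_iff_of_nonneg (fun j _ => Complex.normSq_nonneg (x j))).1 h.symm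
  funext j
  exact Complex.normSq_eq_zero.1 (h2 j (Finset.mem_univ j))

theorem HomC_smul (l : ℂ) (x : V) : N (l • x) = Complex.normSq l * N x := by
  unfold N
  rw [Finset.mul_sum]
  refine Finset.sum_congr rfl fun j _ => ?_
  rw [Pi.smul_apply, smul_eq_mul, Complex.normSq_mul]

theorem HomC_le (x : V) : ‖x‖ ^ 2 ≤ N x := by
  have h1 : ‖x‖ ≤ Real.sqrt (N x) := by
    rw [pi_norm_le_iff_of_nonneg (Real.sqrt_nonneg _)]
    intro j
    apply Real.le_sqrt_of_sq_le
    rw [HomC_sq]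
    exact Finset.single_le_sum (f := fun j => Complex.normSq (x j))
      (fun j _ => Complex.normSq_nonneg _) (Finset.mem_univ j)
  calc ‖x‖ ^ 2 ≤ Real.sqrt (N x) ^ 2 := pow_le_pow_left₀ (norm_nonneg _) h1 2
    _ = N x := Real.sq_sqrt (HomC_nonneg x)

theorem HomC_cont : Continuous N := by
  unfold N
  exact continuous_finset_sum _ fun j _ => Complex.continuous_normSq.comp (continuous_apply j)

theorem HomC_compact : IsCompact {x : V | N x = 1} := by
  refine Metric.isCompact_of_isClosed_isBounded (isClosed_eq HomC_cont continuous_const) ?_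
  refine (Metric.isBounded_closedBall (x := (0 : V)) (r := 1)).subset ?_
  intro x hx
  have hx' : N x = 1 := hx
  rw [mem_closedBall_zero_iff]
  have h1 := HomC_le x
  rw [hx'] at h1
  have h2 := norm_nonneg x
  nlinarith

theorem HomC_sphere {x : V} (hx : x ≠ 0) :
    ∃ y : V, N y = 1 ∧ x = ((Real.sqrt (N x) : ℝ) : ℂ) • y := by
  have hN := HomC_pos hx
  have hs : 0 < Real.sqrt (N x) := Real.sqrt_pos.2 hN
  have hsc : ((Real.sqrt (N x) : ℝ) : ℂ) ≠ 0 := by exact_mod_cast hs.ne'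
  refine ⟨((Real.sqrt (N x) : ℝ) : ℂ)⁻¹ • x, ?_, ?_⟩
  · rw [HomC_smul, Complex.normSq_inv, Complex.normSq_ofReal, Real.mul_self_sqrt hN.le]
    field_simp
  · rw [smul_smul, mul_inv_cancel₀ hsc, one_smul]

theorem chom_bound {a b : ℤ} {f : V → ℂ} (hf : CHom a b f) :
    ∃ C : ℝ, 0 ≤ C ∧ ∀ x : V, x ≠ 0 → ‖f x‖ ^ 2 ≤ C * (N x) ^ (a + b) := by
  have hsub : {x : V | N x = 1} ⊆ {0}ᶜ := by
    intro x hx h0
    have hx' : N x = 1 := hx
    have h0' : x = 0 := h0
    rw [h0'] at hx'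
    have : N (0 : V) = 0 := by simp [N]
    rw [this] at hx'
    exact zero_ne_one hx'
  obtain ⟨B, hB⟩ := HomC_compact.exists_bound_of_continuousOn (hf.cont.mono hsub)
  refine ⟨B ^ 2, sq_nonneg B, fun x hx => ?_⟩
  obtain ⟨y, hy, hxy⟩ := HomC_sphere hx
  have hN := HomC_pos hx
  have hs : 0 < Real.sqrt (N x) := Real.sqrt_pos.2 hN
  have hsc : ((Real.sqrt (N x) : ℝ) : ℂ) ≠ 0 := by exact_mod_cast hs.ne'
  have h1 := hf.hom ((Real.sqrt (N x) : ℝ) : ℂ) y hsc
  rw [← hxy] at h1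
  have h2 : ‖f x‖ = Real.sqrt (N x) ^ a * Real.sqrt (N x) ^ b * ‖f y‖ := by
    rw [h1, norm_mul, norm_mul, norm_zpow, norm_zpow, Complex.conj_ofReal, Complex.norm_real,
      Real.norm_of_nonneg hs.le]
  have h3 : (Real.sqrt (N x) ^ a * Real.sqrt (N x) ^ b) ^ 2 = (N x) ^ (a + b) := by
    rw [← zpow_add₀ hs.ne', ← zpow_natCast, ← zpow_mul, mul_comm (a + b), zpow_mul, zpow_natCast,
      Real.sq_sqrt hN.le]
  have h4 : ‖f y‖ ^ 2 ≤ B ^ 2 := pow_le_pow_left₀ (norm_nonneg _) (hB y hy) 2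
  rw [h2, mul_pow, h3, mul_comm]
  exact mul_le_mul_of_nonneg_right h4 (zpow_nonneg hN.le _)

theorem norm_sq_le_N (x : V) : ‖x‖ ^ 2 ≤ N x := HomC_le x

theorem N_le_norm_sq (x : V) : N x ≤ 3 * ‖x‖ ^ 2 := by
  have h1 : ∀ j ∈ (Finset.univ : Finset (Fin 3)), Complex.normSq (x j) ≤ ‖x‖ ^ 2 := by
    intro j _
    rw [← HomC_sq]
    exact pow_le_pow_left₀ (norm_nonneg _) (norm_le_pi_norm x j) 2
  calc N x ≤ ∑ _j : Fin 3, ‖x‖ ^ 2 := Finset.sum_le_sum h1
    _ = 3 * ‖x‖ ^ 2 := by simp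

theorem continuous_N : Continuous N := HomC_cont

theorem HomC_ae_ne : ∀ᵐ x ∂(volume : Measure V), x ≠ 0 := by
  have h : (volume : Measure V) {(0 : V)} = 0 := measure_singleton _
  exact measure_eq_zero_iff_ae_notMem.mp h

theorem HomC_rpow_le {x : V} (hx : x ≠ 0) (s : ℝ) :
    (N x) ^ s ≤ 3 ^ |s| * ‖x‖ ^ (2 * s) := by
  have hn : 0 < ‖x‖ := norm_pos_iff.2 hx
  have h3 : ‖x‖ ^ (2 * s) = (‖x‖ ^ 2) ^ s := by
    rw [Real.rpow_mul hn.le, Real.rpow_two]
  rw [h3]
  rcases le_or_gt 0 s with hs | hs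
  · rw [abs_of_nonneg hs, ← Real.mul_rpow (by norm_num) (by positivity)]
    exact Real.rpow_le_rpow (HomC_nonneg x) (N_le_norm_sq x) hs
  · have h1 : (N x) ^ s ≤ (‖x‖ ^ 2) ^ s :=
      Real.rpow_le_rpow_of_nonpos (by positivity) (HomC_le x) hs.le
    have h2 : (1 : ℝ) ≤ 3 ^ |s| := Real.one_le_rpow (by norm_num) (abs_nonneg s)
    have h4 : 0 ≤ (‖x‖ ^ 2) ^ s := Real.rpow_nonneg (by positivity) s
    nlinarith

theorem integrable_N_rpow {s c : ℝ} (hs : -3 < s) (hc : 0 < c) :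
    Integrable (fun x : V => (N x) ^ s * Real.exp (-c * N x)) := by
  have hdim : Module.finrank ℝ V = 6 := by
    rw [Module.finrank_pi_fintype]
    simp [Complex.finrank_real_complex]
  have hg : Integrable (fun x : V => ‖x‖ ^ (2 * s) * Real.exp (-c * ‖x‖ ^ 2)) := by
    have h1 := (integrable_fun_norm_addHaar (volume : Measure V)
      (f := fun r : ℝ => r ^ (2 * s) * Real.exp (-c * r ^ 2))).2 ?_
    · exact h1
    · have h2 := integrableOn_rpow_mul_exp_neg_mul_sq hc (s := 5 + 2 * s) (by linarith)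
      refine h2.congr_fun ?_ measurableSet_Ioi
      intro r hr
      have hr' : (0 : ℝ) < r := hr
      show r ^ (5 + 2 * s) * Real.exp (-c * r ^ 2) =
        r ^ (Module.finrank ℝ V - 1) • (r ^ (2 * s) * Real.exp (-c * r ^ 2))
      rw [hdim, smul_eq_mul, Real.rpow_add hr']
      have h3 : r ^ (5 : ℝ) = r ^ (6 - 1) := by
        rw [show (5 : ℝ) = ((5 : ℕ) : ℝ) by norm_num, Real.rpow_natCast]
      rw [h3]
      ring
  refine (hg.const_mul (3 ^ |s|)).mono' ?_ ?_
  · have h1 : Measurable (fun x : V => (N x) ^ s) := HomC_cont.measurable.pow_const s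
    have h2 : Measurable (fun x : V => Real.exp (-c * N x)) :=
      Real.measurable_exp.comp (HomC_cont.measurable.const_mul (-c))
    exact (h1.mul h2).aestronglyMeasurable
  · filter_upwards [HomC_ae_ne] with x hx
    have hN := HomC_pos hx
    rw [Real.norm_of_nonneg (mul_nonneg (Real.rpow_nonneg hN.le s) (Real.exp_nonneg _)), ← mul_assoc]
    refine mul_le_mul (HomC_rpow_le hx s) ?_ (Real.exp_nonneg _)
      (mul_nonneg (Real.rpow_nonneg (by norm_num) _) (Real.rpow_nonneg (norm_nonneg _) _))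
    apply Real.exp_le_exp.2
    have := HomC_le x
    nlinarith

theorem HomC_meas {f : V → ℂ} (hf : ContinuousOn f {0}ᶜ) :
    AEStronglyMeasurable f (volume : Measure V) := by
  have h1 : AEStronglyMeasurable f ((volume : Measure V).restrict {0}ᶜ) :=
    hf.aestronglyMeasurable (measurableSet_singleton (0 : V)).compl
  have h2 : (volume : Measure V).restrict {0}ᶜ = volume := by
    apply Measure.restrict_eq_self_of_ae_mem
    filter_upwards [HomC_ae_ne] with x hx
    exact hx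
  rwa [h2] at h1

theorem chom_integrable {a b : ℤ} {f : V → ℂ} (hf : CHom a b f) (h : -5 ≤ a + b) :
    Integrable (fun x : V => f x * (wt x : ℂ)) := by
  obtain ⟨C, hC, hb⟩ := chom_bound hf
  have hs : (-3 : ℝ) < ((a + b : ℤ) : ℝ) / 2 := by
    have : (-5 : ℝ) ≤ ((a + b : ℤ) : ℝ) := by exact_mod_cast h
    linarith
  refine ((integrable_N_rpow hs one_pos).const_mul (Real.sqrt C)).mono' ?_ ?_
  · have h2 : Continuous (fun x : V => (wt x : ℂ)) := by
      unfold wt
      exact Complex.continuous_ofReal.comp (Real.continuous_exp.comp HomC_cont.neg)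
    exact (HomC_meas hf.cont).mul h2.aestronglyMeasurable
  · filter_upwards [HomC_ae_ne] with x hx
    have hN := HomC_pos hx
    have h1 : ‖f x‖ ≤ Real.sqrt C * (N x) ^ (((a + b : ℤ) : ℝ) / 2) := by
      have h2 : ((N x) ^ (((a + b : ℤ) : ℝ) / 2)) ^ 2 = (N x) ^ (a + b) := by
        rw [← Real.rpow_natCast, ← Real.rpow_mul hN.le, ← Real.rpow_intCast]
        congr 1
        push_cast
        ring
      have h3 : 0 ≤ Real.sqrt C * (N x) ^ (((a + b : ℤ) : ℝ) / 2) :=
        mul_nonneg (Real.sqrt_nonneg _) (Real.rpow_nonneg hN.le _)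
      apply le_of_sq_le_sq _ h3
      rw [mul_pow, h2, Real.sq_sqrt hC]
      exact hb x hx
    have h4 : wt x = Real.exp (-1 * N x) := by
      unfold wt
      rw [neg_one_mul]
    rw [norm_mul, Complex.norm_real, h4, Real.norm_of_nonneg (Real.exp_nonneg _), ← mul_assoc]
    exact mul_le_mul_of_nonneg_right h1 (Real.exp_nonneg _)

/-- The same with a bounded measurable factor. -/
theorem chom_integrable_bdd {a b : ℤ} {f : V → ℂ} (hf : CHom a b f) (h : -5 ≤ a + b) {φ : V → ℂ}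
    (hφ : AEStronglyMeasurable φ (volume : Measure V)) {B : ℝ} (hB : ∀ x, ‖φ x‖ ≤ B) :
    Integrable (fun x : V => φ x * f x * (wt x : ℂ)) := by
  have h1 := (chom_integrable hf h).bdd_mul hφ (c := B) (Filter.Eventually.of_forall hB)
  refine h1.congr (Filter.Eventually.of_forall fun x => ?_)
  show φ x * (f x * (wt x : ℂ)) = φ x * f x * (wt x : ℂ)
  ring

theorem compact_sphere : IsCompact {x : V | N x = 1} := HomC_compact

theorem exists_smul_sphere {x : V} (hx : x ≠ 0) :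
    ∃ y : V, N y = 1 ∧ x = ((Real.sqrt (N x) : ℝ) : ℂ) • y := HomC_sphere hx

end Pool.Agent.H85.DC
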