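import Pool.Agent.H85.DC.HomA
import Pool.Agent.H85.DC.HomC

/-!
# Row Scl: change of variables for functions of degree `-4`

Let `h : CHom (-2) (-2)`, `det M ≠ 0`. Put `G x = N (M⁻¹ x)`, a continuous positive function on `V \ {0}`,
`G (l x) = |l|^2 G x`, `c N ≤ G ≤ C N`.
Step 1 (linear change of variables `x = M y`, real Jacobian `|det M|^2`, `LinearMap.det_restrictScalars`,
`Algebra.norm_complex_apply`; e.g. `MeasureTheory.Measure.addHaar_preimage_linearMap` /
`integral_comp…` or `map_linearMap_addHaar_eq_smul_addHaar`):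
`∫ h (M y) |det M|^2 (N y / N (M y)) e^{-N y} dy = ∫ h x (G x / N x) e^{-G x} dx`.
Step 2 `∫ h (G/N) e^{-G} dx = ∫ h e^{-N} dx`. Polar coordinates: for `g : V → ℂ`,
`∫ g = ∫_{ω} ∫_0^∞ r^5 g(r ω) dr dσ(ω)` with `σ = (volume).toSphere` on the unit sphere of the (sup) norm
(`MeasureTheory.Measure.measurePreserving_homeomorphUnitSphereProd`, `volumeIoiPow`). For `g = h (G/N) e^{-G}`:
`h(rω) = r^{-4} h ω`, `G(rω) = r^2 G ω`, inner integral `h ω (G ω/N ω) ∫_0^∞ r e^{-r^2 G ω} dr = h ω /(2 N ω)`, which does not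
depend on `G`; the same with `G = N`. Alternative without polar coordinates: `∫_0^∞ N e^{-tN} dt = 1`, Fubini, scaling
`x ↦ x/√t` (`dx → t^{-3} dx`), giving `∫ h (G/N) e^{-G} = ∫_0^∞ ∫ h G e^{-G - tN} = ∫_0^∞ t^{-2} ∫ h G e^{-G/t - N}
= ∫ h e^{-N}`, since `∫_0^∞ t^{-2} e^{-G/t} dt = 1/G` (all absolutely convergent since `|h| ≤ C N^{-2}`,
`integrable_N_rpow`).
-/

open MeasureTheory
open scoped ContDiff BigOperators ComplexConjugate Matrix

namespace Pool.Agent.H85.DC

theorem mulVec_ne {M : M3} (hM : M.det ≠ 0) {y : V} (hy : y ≠ 0) : M.mulVec y ≠ 0 := by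
  intro h
  exact hy (Matrix.eq_zero_of_mulVec_eq_zero hM h)

theorem Scl_finrank : Module.finrank ℝ V = 6 := by
  show Module.finrank ℝ (Fin 3 → ℂ) = 6
  rw [Module.finrank_pi_fintype]
  simp

theorem Scl_polar {g : V → ℂ} (hg : Integrable g) :
    ∫ x, g x = ∫ q : Metric.sphere (0 : V) 1,
      (∫ r in Set.Ioi (0 : ℝ), ((r ^ 5 : ℝ) : ℂ) * g (r • (q : V)))
        ∂((volume : Measure V).toSphere) := by
  have mp := (volume : Measure V).measurePreserving_homeomorphUnitSphereProd
  have emb : MeasurableEmbedding (homeomorphUnitSphereProd V) := Homeomorph.measurableEmbedding _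
  rw [Scl_finrank] at mp
  have hpt : ∀ x : ({0}ᶜ : Set V), g (((homeomorphUnitSphereProd V x).2 : ℝ) •
      ((homeomorphUnitSphereProd V x).1 : V)) = g x := by
    intro x
    congr 1
    rw [homeomorphUnitSphereProd_apply_snd_coe, homeomorphUnitSphereProd_apply_fst_coe]
    have hx : ‖(x : V)‖ ≠ 0 := norm_ne_zero_iff.2 x.2
    rw [smul_smul, mul_inv_cancel₀ hx, one_smul]
  have s1 : ∫ x, g x = ∫ x : ({0}ᶜ : Set V), g x.1 ∂((volume : Measure V).comap (↑)) := by
    rw [integral_subtype_comap (measurableSet_singleton _).compl g,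
      restrict_compl_singleton]
  have s2 : ∫ x : ({0}ᶜ : Set V), g x.1 ∂((volume : Measure V).comap (↑)) =
      ∫ p : Metric.sphere (0 : V) 1 × Set.Ioi (0 : ℝ), g ((p.2 : ℝ) • (p.1 : V))
        ∂((volume : Measure V).toSphere.prod (Measure.volumeIoiPow 5)) := by
    have := mp.integral_comp emb
      (fun p : Metric.sphere (0 : V) 1 × Set.Ioi (0 : ℝ) => g ((p.2 : ℝ) • (p.1 : V)))
    rw [← this]
    exact integral_congr_ae (Filter.Eventually.of_forall fun x => (hpt x).symm)
  have hi : Integrable (fun p : Metric.sphere (0 : V) 1 × Set.Ioi (0 : ℝ) =>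
      g ((p.2 : ℝ) • (p.1 : V)))
        ((volume : Measure V).toSphere.prod (Measure.volumeIoiPow 5)) := by
    rw [← mp.integrable_comp_emb emb]
    have h1 : Integrable (fun x : ({0}ᶜ : Set V) => g x.1) ((volume : Measure V).comap (↑)) :=
      (integrableOn_iff_comap_subtypeVal (measurableSet_singleton _).compl).1 hg.integrableOn
    exact h1.congr (Filter.Eventually.of_forall fun x => (hpt x).symm)
  rw [s1, s2, integral_prod _ hi]
  refine integral_congr_ae (Filter.Eventually.of_forall fun q => ?_)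
  simp only
  rw [Measure.volumeIoiPow, integral_withDensity_eq_integral_toReal_smul
    (by fun_prop) (Filter.Eventually.of_forall fun _ => ENNReal.ofReal_lt_top)]
  rw [← integral_subtype_comap measurableSet_Ioi
    (fun r : ℝ => ((r ^ 5 : ℝ) : ℂ) * g (r • (q : V)))]
  refine integral_congr_ae (Filter.Eventually.of_forall fun r => ?_)
  have hr : 0 < (r : ℝ) := r.2
  simp only
  rw [ENNReal.toReal_ofReal (by positivity), Complex.real_smul]

theorem Scl_half {h : V → ℂ} (hh : CHom (-2) (-2) h) {G : V → ℝ}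
    (hG : ∀ (r : ℝ) (x : V), 0 < r → G (r • x) = r ^ 2 * G x) (hp : ∀ x, x ≠ 0 → 0 < G x)
    (hi : Integrable (fun x => h x * ((G x / N x : ℝ) : ℂ) * ((Real.exp (-G x) : ℝ) : ℂ))) :
    ∫ x, h x * ((G x / N x : ℝ) : ℂ) * ((Real.exp (-G x) : ℝ) : ℂ) =
      ∫ q : Metric.sphere (0 : V) 1, h q * ((2 * N (q : V) : ℝ) : ℂ)⁻¹
        ∂((volume : Measure V).toSphere) := by
  rw [Scl_polar hi]
  refine integral_congr_ae (Filter.Eventually.of_forall fun q => ?_)
  simp only
  have hq : (q : V) ≠ 0 := by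
    intro h0
    have h1 := q.2
    rw [mem_sphere_zero_iff_norm, h0, norm_zero] at h1
    exact zero_ne_one h1
  have hGp := hp _ hq
  have hNp := N_pos hq
  have e : ∀ r ∈ Set.Ioi (0 : ℝ), ((r ^ 5 : ℝ) : ℂ) * (h (r • (q : V)) *
      ((G (r • (q : V)) / N (r • (q : V)) : ℝ) : ℂ) *
      ((Real.exp (-G (r • (q : V))) : ℝ) : ℂ)) =
      (h q * ((G q / N (q : V) : ℝ) : ℂ)) *
        ((r : ℂ) * Complex.exp (-(G q : ℂ) * (r : ℂ) ^ 2)) := by
    intro r hr
    have hr0 : 0 < r := hr
    have hrc : (r : ℂ) ≠ 0 := Complex.ofReal_ne_zero.2 hr0.ne'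
    have e1 : r • (q : V) = (r : ℂ) • (q : V) := by
      ext j
      simp
    have e2 : h (r • (q : V)) = ((r : ℂ) ^ 4)⁻¹ * h q := by
      rw [e1, hh.hom _ _ hrc, Complex.conj_ofReal]
      congr 1
      rw [← zpow_add₀ hrc]
      norm_num
    have e3 : N (r • (q : V)) = r ^ 2 * N (q : V) := by
      rw [e1, N_smul, Complex.normSq_ofReal]
      ring
    have e4 : G (r • (q : V)) / N (r • (q : V)) = G q / N (q : V) := by
      rw [hG r _ hr0, e3]
      field_simp
    rw [e4, e2, hG r _ hr0, Complex.ofReal_exp]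
    push_cast
    have e5 : -((r : ℂ) ^ 2 * (G q : ℂ)) = -(G q : ℂ) * (r : ℂ) ^ 2 := by ring
    rw [e5]
    field_simp
  rw [setIntegral_congr_fun measurableSet_Ioi e, integral_const_mul,
    integral_mul_cexp_neg_mul_sq (b := (G q : ℂ)) (by simpa using hGp)]
  have c1 : (G q : ℂ) ≠ 0 := Complex.ofReal_ne_zero.2 hGp.ne'
  have c2 : (N (q : V) : ℂ) ≠ 0 := Complex.ofReal_ne_zero.2 hNp.ne'
  push_cast
  field_simp

theorem Scl_N_mulVec (A : M3) (x : V) : N (A.mulVec x) ≤ hs A * N x := by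
  unfold N hs
  rw [Finset.sum_mul]
  refine Finset.sum_le_sum fun j _ => ?_
  have h1 : Complex.normSq (A.mulVec x j) = ‖∑ k, A j k * x k‖ ^ 2 := by
    rw [Complex.normSq_eq_norm_sq]
    rfl
  rw [h1]
  have h2 : ‖∑ k, A j k * x k‖ ≤ ∑ k, ‖A j k‖ * ‖x k‖ := by
    refine (norm_sum_le _ _).trans (le_of_eq ?_)
    exact Finset.sum_congr rfl fun k _ => norm_mul _ _
  have h3 : (∑ k, ‖A j k‖ * ‖x k‖) ^ 2 ≤ (∑ k, ‖A j k‖ ^ 2) * ∑ k, ‖x k‖ ^ 2 :=
    Finset.sum_mul_sq_le_sq_mul_sq _ _ _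
  have h4 : ‖∑ k, A j k * x k‖ ^ 2 ≤ (∑ k, ‖A j k‖ * ‖x k‖) ^ 2 := by
    gcongr
  simp_rw [Complex.normSq_eq_norm_sq]
  exact h4.trans h3

theorem scl {h : V → ℂ} (hh : CHom (-2) (-2) h) {M : M3} (hM : M.det ≠ 0) :
    ∫ y, h (M.mulVec y) * ((Complex.normSq M.det * (N y / N (M.mulVec y)) : ℝ) : ℂ) * (wt y : ℂ) =
      ∫ x, h x * (wt x : ℂ) := by
  have hMu : IsUnit M.det := isUnit_iff_ne_zero.2 hM
  -- the linear map
  let f : V →ₗ[ℝ] V := (Matrix.toLin' M).restrictScalars ℝ
  have hf : ∀ y, f y = M.mulVec y := fun y => rfl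
  have hdet : LinearMap.det f = Complex.normSq M.det := by
    show LinearMap.det ((Matrix.toLin' M).restrictScalars ℝ) = _
    rw [LinearMap.det_restrictScalars, LinearMap.det_toLin', Algebra.norm_complex_apply]
  have hd0 : 0 < Complex.normSq M.det := Complex.normSq_pos.2 hM
  have hdet0 : LinearMap.det f ≠ 0 := by
    rw [hdet]
    exact hd0.ne'
  have hmap := Measure.map_linearMap_addHaar_eq_smul_addHaar (volume : Measure V) hdet0
  rw [hdet, abs_of_pos (inv_pos.2 hd0)] at hmap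
  have hinv1 : ∀ y : V, M⁻¹.mulVec (M.mulVec y) = y := by
    intro y
    rw [Matrix.mulVec_mulVec, Matrix.nonsing_inv_mul M hMu, Matrix.one_mulVec]
  have hinv2 : ∀ y : V, M.mulVec (M⁻¹.mulVec y) = y := by
    intro y
    rw [Matrix.mulVec_mulVec, Matrix.mul_nonsing_inv M hMu, Matrix.one_mulVec]
  have hfc : Continuous f := LinearMap.continuous_of_finiteDimensional _
  let g : V →ₗ[ℝ] V := (Matrix.toLin' M⁻¹).restrictScalars ℝ
  have hgc : Continuous g := LinearMap.continuous_of_finiteDimensional _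
  let e : V ≃ₜ V :=
    { toFun := f
      invFun := g
      left_inv := hinv1
      right_inv := hinv2
      continuous_toFun := hfc
      continuous_invFun := hgc }
  have hemb : MeasurableEmbedding f := e.measurableEmbedding
  let G : V → ℝ := fun x => N (M⁻¹.mulVec x)
  have hM1 : (M⁻¹).det ≠ 0 := by
    rw [Matrix.det_nonsing_inv]
    simpa using hM
  have hG : ∀ (r : ℝ) (x : V), 0 < r → G (r • x) = r ^ 2 * G x := by
    intro r x _
    have e1 : r • x = (r : ℂ) • x := by
      ext j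
      simp
    show N (M⁻¹.mulVec (r • x)) = _
    rw [e1, Matrix.mulVec_smul, N_smul, Complex.normSq_ofReal]
    show r * r * G x = _
    ring
  have hp : ∀ x, x ≠ 0 → 0 < G x := fun x hx => N_pos (mulVec_ne hM1 hx)
  let F : V → ℂ := fun x => h x * ((G x / N x : ℝ) : ℂ) * ((Real.exp (-G x) : ℝ) : ℂ)
  have hFf : ∀ y, F (f y) = ((N y / N (M.mulVec y) : ℝ) : ℂ) * h (M.mulVec y) * (wt y : ℂ) := by
    intro y
    show h (M.mulVec y) * ((N (M⁻¹.mulVec (M.mulVec y)) / N (M.mulVec y) : ℝ) : ℂ) *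
      ((Real.exp (-N (M⁻¹.mulVec (M.mulVec y))) : ℝ) : ℂ) = _
    rw [hinv1]
    unfold wt
    ring
  have hch : CHom (-2) (-2) (fun y => h (M.mulVec y)) := by
    refine ⟨?_, ?_⟩
    · refine hh.cont.comp (hfc.continuousOn (s := {0}ᶜ)) ?_
      intro y hy
      exact mulVec_ne hM hy
    · intro l x hl
      show h (M.mulVec (l • x)) = _
      rw [Matrix.mulVec_smul, hh.hom l _ hl]
  have hintf : Integrable (fun y => F (f y)) := by
    have hFf' : (fun y => F (f y)) =
      fun y => ((N y / N (M.mulVec y) : ℝ) : ℂ) * h (M.mulVec y) * (wt y : ℂ) := funext hFf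
    rw [hFf']
    refine chom_integrable_bdd hch (by norm_num) (B := hs M⁻¹) ?_ ?_
    · refine Measurable.aestronglyMeasurable ?_
      exact Complex.measurable_ofReal.comp
        (continuous_N.measurable.div (continuous_N.comp hfc).measurable)
    · intro y
      rw [Complex.norm_real, Real.norm_of_nonneg (div_nonneg (N_nonneg _) (N_nonneg _))]
      have hs0 : 0 ≤ hs M⁻¹ := Finset.sum_nonneg fun _ _ => Finset.sum_nonneg fun _ _ =>
        Complex.normSq_nonneg _
      refine div_le_of_le_mul₀ (N_nonneg _) hs0 ?_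
      have := Scl_N_mulVec M⁻¹ (M.mulVec y)
      rwa [hinv1] at this
  have hd1 : ENNReal.ofReal (Complex.normSq M.det)⁻¹ ≠ 0 := by
    rw [Ne, ENNReal.ofReal_eq_zero, not_le]
    positivity
  have hintF : Integrable F := by
    have h1 : Integrable F (Measure.map f volume) := (hemb.integrable_map_iff).2 hintf
    rw [hmap] at h1
    exact (integrable_smul_measure hd1 ENNReal.ofReal_ne_top).1 h1
  have hchange : ∫ y, F (f y) = (Complex.normSq M.det)⁻¹ • ∫ x, F x := by
    rw [← hemb.integral_map, hmap, integral_smul_measure, ENNReal.toReal_ofReal (by positivity)]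
  have hL : ∫ y, h (M.mulVec y) * ((Complex.normSq M.det * (N y / N (M.mulVec y)) : ℝ) : ℂ) *
      (wt y : ℂ) = ∫ x, F x := by
    have e1 : ∀ y, h (M.mulVec y) * ((Complex.normSq M.det * (N y / N (M.mulVec y)) : ℝ) : ℂ) *
      (wt y : ℂ) = (Complex.normSq M.det : ℂ) * F (f y) := by
      intro y
      rw [hFf]
      push_cast
      ring
    simp_rw [e1]
    rw [integral_const_mul, hchange, Complex.real_smul, ← mul_assoc, ← Complex.ofReal_mul,
      mul_inv_cancel₀ hd0.ne']
    simp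
  have hintN : Integrable (fun x => h x * ((N x / N x : ℝ) : ℂ) * ((Real.exp (-N x) : ℝ) : ℂ)) := by
    refine (chom_integrable hh (by norm_num)).congr ?_
    have h0 : ∀ᵐ x : V, x ≠ 0 := by
      rw [ae_iff]
      simp
    filter_upwards [h0] with x hx
    rw [div_self (N_pos hx).ne']
    simp [wt]
  have hR : ∫ x, h x * (wt x : ℂ) =
      ∫ x, h x * ((N x / N x : ℝ) : ℂ) * ((Real.exp (-N x) : ℝ) : ℂ) := by
    refine integral_congr_ae ?_
    have h0 : ∀ᵐ x : V, x ≠ 0 := by
      rw [ae_iff]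
      simp
    filter_upwards [h0] with x hx
    rw [div_self (N_pos hx).ne']
    simp [wt]
  rw [hL, hR]
  have r1 := Scl_half hh hG hp hintF
  have r2 := Scl_half hh (G := N) (fun r x _ => by
    have e1 : r • x = (r : ℂ) • x := by
      ext j
      simp
    rw [e1, N_smul, Complex.normSq_ofReal]
    ring) (fun x hx => N_pos hx) hintN
  exact r1.trans r2.symm

end Pool.Agent.H85.DC
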