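import Pool.Agent.H85.DC.Adj
import Pool.Agent.H85.DC.Scl

/-!
# Row Inv: invariance under linear maps

`pull M A y = Mᵀ * A (M.mulVec y) * M.map conj`.
`form_pull`: continuity: `y ↦ M y` maps `{0}ᶜ` to itself continuously (`mulVec_ne`); homogeneity: `M (l • y) = l • M y`;
`∑_j y_j (Mᵀ A M̄)_jk = ((M y)^T A M̄)_k = 0`, similarly on the right.
`pull_L`: for `f` smooth off `0` and `M y ≠ 0`: `dz j (dzb k (f ∘ M)) y`; near `y`, `dzb k (f ∘ M) = ∑_b (dzb b f ∘ M) conj (M b k)`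
(`dzb_comp_mulVec` at points near `y`, where `M z ≠ 0`; equality near `y` passes to derivatives: `Filter.EventuallyEq.fderiv_eq`), then
`dz_comp_mulVec`: `= ∑_{a,b} M a j * dz a (dzb b f) (M y) * conj (M b k)`.
`isFun_comp`: composition with a linear map preserving `{0}ᶜ`.
`qq_pull`: `ee_pull_pt` and `scl` with `h x = ee (A x) (B x)` (`ee_chom`).
`pull_inv`: `pull M (pull M⁻¹ A) y = A y`.
`inH_pull`: `qq (L u) (pull M A) = qq (pull M (L (u ∘ M⁻¹))) (pull M A)` (`pull_L`: `pull M (L (u ∘ M⁻¹)) y = L u y` for `y ≠ 0`)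
`= qq (L (u ∘ M⁻¹)) A = 0`.
`mass_pull`: for `A ∈ H`: `qq Wm (pull M A) = qq Wm A`. Let `w x = log (N (M⁻¹ x)/N x)` (real conic). `Wm = L (log N)` off `0`
(`dzb k (log N) = x_k / N`, `Wm_eq`, `dzb_comp_real`), so `pull M⁻¹ Wm = L (log N ∘ M⁻¹) = Wm + L w` off `0` (`pull_L`, `f = log N`
cast to `ℂ`), hence `qq Wm (pull M A) = qq (pull M (pull M⁻¹ Wm)) (pull M A) = qq (pull M⁻¹ Wm) A = qq Wm A + qq (L w) A = qq Wm A`.
`nn_pull`: real part of `qq_pull`.
-/

open MeasureTheory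
open scoped ContDiff BigOperators ComplexConjugate Matrix

namespace Pool.Agent.H85.DC

theorem Inv_apply (M : M3) (A : V → M3) (y : V) (j k : Fin 3) :
    pull M A y j k = ∑ b, (∑ a, M a j * A (M.mulVec y) a b) * conj (M b k) := by
  unfold pull
  rw [Matrix.mul_apply]
  refine Finset.sum_congr rfl fun b _ => ?_
  rw [Matrix.mul_apply, Matrix.map_apply]
  rfl

theorem Inv_cont (M : M3) : Continuous (fun y : V => M.mulVec y) :=
  Continuous.matrix_mulVec continuous_const continuous_id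

theorem Inv_mulVec_smul (M : M3) (l : ℂ) (x : V) : M.mulVec (l • x) = l • M.mulVec x :=
  Matrix.mulVec_smul M l x

theorem Inv_conj_mulVec (M : M3) (y : V) :
    (M.map conj).mulVec (fun k => conj (y k)) = fun k => conj (M.mulVec y k) := by
  funext j
  show ∑ k, conj (M j k) * conj (y k) = conj (∑ k, M j k * y k)
  rw [map_sum]
  refine Finset.sum_congr rfl fun k _ => ?_
  rw [map_mul]

theorem form_pull {A : V → M3} (hA : IsForm A) {M : M3} (hM : M.det ≠ 0) : IsForm (pull M A) := by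
  have hmaps : Set.MapsTo (fun y : V => M.mulVec y) {0}ᶜ {0}ᶜ := fun y hy => mulVec_ne hM hy
  refine ⟨?_, ?_, ?_, ?_⟩
  · have h1 : ContinuousOn (fun y : V => A (M.mulVec y)) {0}ᶜ :=
      hA.cont.comp (Inv_cont M).continuousOn hmaps
    exact (continuousOn_const.mul h1).mul continuousOn_const
  · intro l x hl
    unfold pull
    rw [Inv_mulVec_smul, hA.hom l _ hl, Matrix.mul_smul, Matrix.smul_mul]
  · intro x hx k
    have h1 : Matrix.vecMul (M.mulVec x) (A (M.mulVec x)) = 0 := by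
      funext b
      exact hA.killl (M.mulVec x) (mulVec_ne hM hx) b
    have h2 : Matrix.vecMul x (pull M A x) = 0 := by
      unfold pull
      rw [Matrix.mul_assoc, ← Matrix.vecMul_vecMul, Matrix.vecMul_transpose, ← Matrix.vecMul_vecMul,
        h1, Matrix.zero_vecMul]
    exact congrFun h2 k
  · intro x hx j
    have h1 : (A (M.mulVec x)).mulVec (fun k => conj (M.mulVec x k)) = 0 := by
      funext b
      exact hA.killr (M.mulVec x) (mulVec_ne hM hx) b
    have h2 : (pull M A x).mulVec (fun k => conj (x k)) = 0 := by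
      unfold pull
      rw [← Matrix.mulVec_mulVec, ← Matrix.mulVec_mulVec, Inv_conj_mulVec, h1, Matrix.mulVec_zero]
    exact congrFun h2 j

theorem Inv_ct (M : M3) : (M.map conj)ᴴ = Mᵀ := by
  ext j k
  rw [Matrix.conjTranspose_apply, Matrix.map_apply, Matrix.transpose_apply]
  exact Complex.conj_conj _

theorem herm_pull {A : V → M3} (hA : IsHerm A) {M : M3} (hM : M.det ≠ 0) : IsHerm (pull M A) := by
  intro x hx
  have h1 := Matrix.isHermitian_conjTranspose_mul_mul (M.map conj) (hA _ (mulVec_ne hM hx))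
  rw [Inv_ct] at h1
  exact h1

theorem Inv_ev (j : Fin 3) {f g : V → ℂ} {x : V} (h : f =ᶠ[nhds x] g) : dz j f x = dz j g x := by
  unfold dz
  rw [h.fderiv_eq]

theorem Inv_dzb_diff {f : V → ℂ} (hf : ContDiffOn ℝ ∞ f {0}ᶜ) (b : Fin 3) {x : V} (hx : x ≠ 0) :
    DifferentiableAt ℝ (dzb b f) x := by
  have hD := HomB_diff hf hx
  have h1 : ∀ w : V, DifferentiableAt ℝ (fun y => fderiv ℝ f y w) x := fun w =>
    hD.clm_apply (differentiableAt_const w)
  rw [HomB_dzb_fun]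
  have h2 := (h1 (Pi.single b 1)).fun_add ((h1 (Pi.single b Complex.I)).const_mul Complex.I)
  have h3 := h2.mul_const ((2 : ℂ)⁻¹)
  simpa only [div_eq_mul_inv] using h3

theorem Inv_diff {f : V → ℂ} (hf : ContDiffOn ℝ ∞ f {0}ᶜ) {x : V} (hx : x ≠ 0) :
    DifferentiableAt ℝ f x :=
  (hf.contDiffAt (isOpen_compl_singleton.mem_nhds hx)).differentiableAt (by simp)

theorem Inv_diff_comp (M : M3) {f : V → ℂ} {x : V} (hf : DifferentiableAt ℝ f (M.mulVec x)) :
    DifferentiableAt ℝ (fun y => f (M.mulVec y)) x := by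
  obtain ⟨T, hT⟩ : ∃ T : V →L[ℝ] V, ∀ y, T y = M.mulVec y :=
    ⟨((Matrix.mulVecLin M).restrictScalars ℝ).toContinuousLinearMap, fun y => rfl⟩
  have h0 : (fun y => f (M.mulVec y)) = f ∘ T := by
    funext y
    simp only [Function.comp_apply, hT]
  rw [← hT] at hf
  rw [h0]
  exact hf.comp x T.differentiableAt

theorem pull_L {f : V → ℂ} (hf : ContDiffOn ℝ ∞ f {0}ᶜ) (M : M3) {y : V} (hy : M.mulVec y ≠ 0) :
    pull M (L f) y = L (fun z => f (M.mulVec z)) y := by
  ext j k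
  rw [Inv_apply]
  have h1 : dzb k (fun z => f (M.mulVec z)) =ᶠ[nhds y]
      fun z => ∑ b ∈ (Finset.univ : Finset (Fin 3)), conj (M b k) * dzb b f (M.mulVec z) := by
    have hop : IsOpen {z : V | M.mulVec z ≠ 0} :=
      isOpen_ne.preimage (Inv_cont M)
    filter_upwards [hop.mem_nhds hy] with z hz
    rw [dzb_comp_mulVec M k (Inv_diff hf hz)]
    exact Finset.sum_congr rfl fun b _ => mul_comm _ _
  have hd : ∀ b, DifferentiableAt ℝ (fun z => dzb b f (M.mulVec z)) y := fun b =>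
    Inv_diff_comp M (Inv_dzb_diff hf b hy)
  have h2 : L (fun z => f (M.mulVec z)) y j k =
      ∑ b, conj (M b k) * ∑ a, dz a (dzb b f) (M.mulVec y) * M a j := by
    show dz j (dzb k (fun z => f (M.mulVec z))) y = _
    rw [Inv_ev j h1, dz_sum j _ (fun b z => conj (M b k) * dzb b f (M.mulVec z))
      (fun b _ => (hd b).const_mul _)]
    refine Finset.sum_congr rfl fun b _ => ?_
    rw [dz_const_mul j _ (hd b), dz_comp_mulVec M j (Inv_dzb_diff hf b hy)]
  rw [h2]
  refine Finset.sum_congr rfl fun b _ => ?_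
  rw [mul_comm]
  congr 1
  refine Finset.sum_congr rfl fun a _ => ?_
  rw [mul_comm]
  rfl

theorem Inv_smooth_comp {f : V → ℂ} (hf : ContDiffOn ℝ ∞ f {0}ᶜ) {M : M3} (hM : M.det ≠ 0) :
    ContDiffOn ℝ ∞ (fun z => f (M.mulVec z)) {0}ᶜ := by
  obtain ⟨T, hT⟩ : ∃ T : V →L[ℝ] V, ∀ y, T y = M.mulVec y :=
    ⟨((Matrix.mulVecLin M).restrictScalars ℝ).toContinuousLinearMap, fun y => rfl⟩
  have h0 : (fun y => f (M.mulVec y)) = f ∘ T := by
    funext y
    simp only [Function.comp_apply, hT]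
  rw [h0]
  refine hf.comp T.contDiff.contDiffOn ?_
  intro y hy
  show T y ∈ ({0}ᶜ : Set V)
  rw [hT]
  exact mulVec_ne hM hy

theorem isFun_comp {u : V → ℂ} (hu : IsFun u) {M : M3} (hM : M.det ≠ 0) :
    IsFun (fun z => u (M.mulVec z)) := by
  refine ⟨Inv_smooth_comp hu.smooth hM, fun l x hl => ?_⟩
  show u (M.mulVec (l • x)) = u (M.mulVec x)
  rw [Inv_mulVec_smul, hu.hom l _ hl]

theorem Inv_ae_ne : ∀ᵐ x ∂(volume : Measure V), x ≠ 0 := by
  have h : (volume : Measure V) {(0 : V)} = 0 := measure_singleton _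
  exact measure_eq_zero_iff_ae_notMem.mp h

theorem qq_pull {A B : V → M3} (hA : IsForm A) (hB : IsForm B) {M : M3} (hM : M.det ≠ 0) :
    qq (pull M A) (pull M B) = qq A B := by
  unfold qq
  rw [← scl (ee_chom hA hB) hM]
  apply integral_congr_ae
  filter_upwards [Inv_ae_ne] with y hy
  have hx := mulVec_ne hM hy
  have h1 := ee_pull_pt M (y := y) rfl hx (hA.killl _ hx) (hA.killr _ hx) (hB.killl _ hx)
    (hB.killr _ hx)
  show ee (Mᵀ * A (M.mulVec y) * M.map conj) (Mᵀ * B (M.mulVec y) * M.map conj) * (wt y : ℂ) = _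
  rw [h1]
  ring

theorem nn_pull {A B : V → M3} (hA : IsForm A) (hB : IsForm B) {M : M3} (hM : M.det ≠ 0) :
    nn (pull M A) (pull M B) = nn A B := by
  unfold nn
  rw [qq_pull hA hB hM]

theorem Inv_det {M : M3} (hM : M.det ≠ 0) : (M⁻¹).det ≠ 0 := by
  intro h0
  have h1 := Matrix.det_nonsing_inv_mul_det M (isUnit_iff_ne_zero.2 hM)
  rw [h0, zero_mul] at h1
  exact zero_ne_one h1

theorem Inv_left {M : M3} (hM : M.det ≠ 0) (z : V) : (M⁻¹).mulVec (M.mulVec z) = z := by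
  rw [Matrix.mulVec_mulVec, Matrix.nonsing_inv_mul M (isUnit_iff_ne_zero.2 hM), Matrix.one_mulVec]

theorem inH_pull {A : V → M3} (hA : InH A) {M : M3} (hM : M.det ≠ 0) : InH (pull M A) := by
  refine ⟨form_pull hA.form hM, herm_pull hA.herm hM, fun u hu => ?_⟩
  have hu' := isFun_comp hu (Inv_det hM)
  have h1 : ∀ y : V, y ≠ 0 → L u y = pull M (L (fun z => u ((M⁻¹).mulVec z))) y := by
    intro y hy
    rw [pull_L hu'.smooth M (mulVec_ne hM hy)]
    have h2 : (fun z => u ((M⁻¹).mulVec (M.mulVec z))) = u := by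
      funext z
      rw [Inv_left hM]
    rw [h2]
  rw [qq_congr h1 (fun x _ => rfl : ∀ x : V, x ≠ 0 → pull M A x = pull M A x),
    qq_pull (form_L hu') hA.form hM]
  exact hA.ddc _ hu'

theorem Inv_N_smooth : ContDiff ℝ ∞ N := by
  have h : N = fun x : V => ∑ j, ((x j).re * (x j).re + (x j).im * (x j).im) := by
    funext x
    unfold N
    exact Finset.sum_congr rfl fun j _ => Complex.normSq_apply _
  rw [h]
  refine ContDiff.sum fun j _ => ?_
  have h1 : ContDiff ℝ ∞ (fun x : V => (x j).re) :=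
    Complex.reCLM.contDiff.comp (contDiff_apply ℝ ℂ j)
  have h2 : ContDiff ℝ ∞ (fun x : V => (x j).im) :=
    Complex.imCLM.contDiff.comp (contDiff_apply ℝ ℂ j)
  exact (h1.mul h1).add (h2.mul h2)

/-- the function `log N` -/
noncomputable def Inv_lg (y : V) : ℂ := ((Real.log (N y) : ℝ) : ℂ)

theorem Inv_lg_smooth : ContDiffOn ℝ ∞ Inv_lg {0}ᶜ := by
  have h1 : ContDiffOn ℝ ∞ (fun y => Real.log (N y)) {0}ᶜ :=
    Inv_N_smooth.contDiffOn.log fun y hy => (N_pos hy).ne'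
  exact Complex.ofRealCLM.contDiff.comp_contDiffOn h1

theorem Inv_dzb_lg (k : Fin 3) {y : V} (hy : y ≠ 0) : dzb k Inv_lg y = y k / (N y : ℂ) := by
  have h1 : HasDerivAt Real.log (N y)⁻¹ (N y) := Real.hasDerivAt_log (N_pos hy).ne'
  have h2 : DifferentiableAt ℝ N y := Inv_N_smooth.contDiffAt.differentiableAt (by simp)
  have h3 := dzb_comp_real k h1 h2
  have h4 : dzb k Inv_lg y = (((N y)⁻¹ : ℝ) : ℂ) * dzb k (fun z => ((N z : ℝ) : ℂ)) y := h3
  rw [h4, dzb_N, Complex.ofReal_inv]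
  ring

theorem Inv_L_lg {x : V} (hx : x ≠ 0) : L Inv_lg x = Wm x := by
  ext j k
  rw [Wm_eq hx]
  exact dz_congr j hx fun y hy => Inv_dzb_lg k hy

theorem Inv_L_congr {f g : V → ℂ} {x : V} (hx : x ≠ 0) (h : ∀ y : V, y ≠ 0 → f y = g y) :
    L f x = L g x := by
  ext j k
  exact dz_congr j hx fun y hy => dzb_congr k hy h

theorem Inv_L_add {f g : V → ℂ} (hf : ContDiffOn ℝ ∞ f {0}ᶜ) (hg : ContDiffOn ℝ ∞ g {0}ᶜ) {x : V}
    (hx : x ≠ 0) : L (fun y => f y + g y) x = L f x + L g x := by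
  ext j k
  show dz j (dzb k (fun y => f y + g y)) x = dz j (dzb k f) x + dz j (dzb k g) x
  rw [← dz_add j (Inv_dzb_diff hf k hx) (Inv_dzb_diff hg k hx)]
  exact dz_congr j hx fun y hy => dzb_add k (Inv_diff hf hy) (Inv_diff hg hy)

/-- the function `log (N (M x) / N x)` -/
noncomputable def Inv_w (M : M3) (y : V) : ℂ := ((Real.log (N (M.mulVec y) / N y) : ℝ) : ℂ)

theorem Inv_w_fun {M : M3} (hM : M.det ≠ 0) : IsFun (Inv_w M) := by
  refine ⟨?_, fun l x hl => ?_⟩
  · have h0 : ContDiffOn ℝ ∞ (fun y : V => N (M.mulVec y)) {0}ᶜ := by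
      obtain ⟨T, hT⟩ : ∃ T : V →L[ℝ] V, ∀ y, T y = M.mulVec y :=
        ⟨((Matrix.mulVecLin M).restrictScalars ℝ).toContinuousLinearMap, fun y => rfl⟩
      have h1 : (fun y => N (M.mulVec y)) = N ∘ T := by
        funext y
        simp only [Function.comp_apply, hT]
      rw [h1]
      exact (Inv_N_smooth.comp T.contDiff).contDiffOn
    have h1 : ContDiffOn ℝ ∞ (fun y => Real.log (N (M.mulVec y) / N y)) {0}ᶜ := by
      refine (h0.div Inv_N_smooth.contDiffOn fun y hy => (N_pos hy).ne').log fun y hy => ?_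
      exact div_ne_zero (N_pos (mulVec_ne hM hy)).ne' (N_pos hy).ne'
    exact Complex.ofRealCLM.contDiff.comp_contDiffOn h1
  · unfold Inv_w
    rw [Inv_mulVec_smul, N_smul, N_smul, mul_div_mul_left]
    exact (Complex.normSq_pos.2 hl).ne'

theorem Inv_Wm_pull {M : M3} (hM : M.det ≠ 0) {x : V} (hx : x ≠ 0) :
    pull M Wm x = Wm x + L (Inv_w M) x := by
  have hMx := mulVec_ne hM hx
  have h1 : pull M Wm x = pull M (L Inv_lg) x := by
    unfold pull
    rw [Inv_L_lg hMx]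
  have h2 : ∀ y : V, y ≠ 0 → Inv_lg (M.mulVec y) = Inv_lg y + Inv_w M y := by
    intro y hy
    unfold Inv_lg Inv_w
    rw [Real.log_div (N_pos (mulVec_ne hM hy)).ne' (N_pos hy).ne']
    push_cast
    ring
  rw [h1, pull_L Inv_lg_smooth M hMx, Inv_L_congr hx h2,
    Inv_L_add Inv_lg_smooth (Inv_w_fun hM).smooth hx, Inv_L_lg hx]

theorem Inv_pull_inv {M : M3} (hM : M.det ≠ 0) (A : V → M3) (y : V) :
    pull M (pull M⁻¹ A) y = A y := by
  have hu : IsUnit M.det := isUnit_iff_ne_zero.2 hM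
  have h1 : Mᵀ * (M⁻¹)ᵀ = 1 := by
    rw [← Matrix.transpose_mul, Matrix.nonsing_inv_mul M hu, Matrix.transpose_one]
  have h2 : (M⁻¹).map conj * M.map conj = 1 := by
    rw [← Matrix.map_mul, Matrix.nonsing_inv_mul M hu]
    exact Matrix.map_one _ (map_zero _) (map_one _)
  unfold pull
  rw [Inv_left hM]
  calc Mᵀ * ((M⁻¹)ᵀ * A y * (M⁻¹).map conj) * M.map conj
      = (Mᵀ * (M⁻¹)ᵀ) * A y * ((M⁻¹).map conj * M.map conj) := by
        simp only [Matrix.mul_assoc]
    _ = A y := by rw [h1, h2, Matrix.one_mul, Matrix.mul_one]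

theorem mass_pull {A : V → M3} (hA : InH A) {M : M3} (hM : M.det ≠ 0) :
    qq Wm (pull M A) = qq Wm A := by
  have hM' := Inv_det hM
  have hw := Inv_w_fun hM'
  have h1 : qq Wm (pull M A) = qq (pull M (pull M⁻¹ Wm)) (pull M A) :=
    qq_congr (fun x _ => (Inv_pull_inv hM Wm x).symm) (fun x _ => rfl)
  rw [h1, qq_pull (form_pull form_Wm hM') hA.form hM]
  have h2 : qq (pull M⁻¹ Wm) A = qq (fun x => Wm x + L (Inv_w M⁻¹) x) A :=
    qq_congr (fun x hx => Inv_Wm_pull hM' hx) (fun x _ => rfl)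
  rw [h2, qq_add_left form_Wm (form_L hw) hA.form, hA.ddc _ hw, add_zero]

theorem inH0_pull {A : V → M3} (hA : InH0 A) {M : M3} (hM : M.det ≠ 0) : InH0 (pull M A) :=
  ⟨inH_pull hA.toInH hM, (mass_pull hA.toInH hM).trans hA.mass⟩

end Pool.Agent.H85.DC
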