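import Pool.Agent.H85.DC.FinC

/-!
# Row FinD: the global estimate

`c0` from `exists_prof`. Let `k = #P`, `C* = (51 + c0)(k + 1)` (constant independent of `A0`). Given `A0`, `δ`, `β > 0`.
Let `β' = β/(8 (k + 1))`. Choose `ρ` so small that: `ρ ≤ ρ0` of `near_p`, `ρ ≤ ρ1` of `small_A0`, `small_AA` (for `β'`), `ρ ≤ 1/2`, and `16 ρ^2 < tau p p'` for all `p ≠ p'` in `P` (then the supports of `cutF φ ρ p` are disjoint: if
`tau x p < ρ^2`, `tau x p' < ρ^2` then `√tau(p,p') < 2ρ`). Let `r, C` be given by `near_p`, `η = β'/(C + 1)`; `Adm` with `ρ, r, η` and `small_A0` give `ε0`. For `ε < ε0`: `s1` from `Adm`, `φ` a profile.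
`nn DD DD = -∫ Re ee DD DD wt` (`qq` real part) `= ∑_p (-∫ F_p Re ee DD DD wt) - ∫ (1 - ∑_p F_p) Re ee DD DD wt`.
`1 - ∑ F_p ∈ [0,1]` (disjoint supports) and it vanishes where some `tau x p < r0 := ρ^2 e^{-(6 s1+1)}/2` (`cutF_one`; `r0 < 1/2`). `-Re ee DD DD = - Re ee S S - Re ee S' S' + 2 Re ee S S' ≤ 2 Re ee S S'`, `Re ee S S' ≥ 0` (`ee_pos`, `pos_sm`,
`herm_sm`; `S = sm F μ ε`, `S' = sm F μ' ε`). So the last term is `≤ 2 Loss F μ μ' P r0 ε ≤ 2η`. The first terms: `near_p` with `κ = β'/(51 + c0)`: each `≤ (51+c0) nn X X + β' + C η + 2β' + β'`.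
Total `≤ (51 + c0) k nn X X + 5 k β' + 2 η ≤ C* δ + β` when `nn X X ≤ δ`, using `nn X X ≥ 0` (`hodge`).
-/

open MeasureTheory
open scoped ContDiff BigOperators ComplexConjugate Matrix

namespace Pool.Agent.H85.DC

theorem FinD_ne_zero {F : Fin 3 → MvPolynomial (Fin 3) ℂ} {P : Finset V} (hP : SingPts F P)
    {p : V} (hp : p ∈ P) : p ≠ 0 := by
  intro h
  have := hP.unit p hp
  rw [h] at this
  simp [N] at this

theorem FinD_sep {F : Fin 3 → MvPolynomial (Fin 3) ℂ} {P : Finset V} (hP : SingPts F P) :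
    ∃ d : ℝ, 0 < d ∧ ∀ p ∈ P, ∀ p' ∈ P, p ≠ p' → d ≤ tau p p' := by
  classical
  by_cases h : P.offDiag.Nonempty
  · obtain ⟨q, hq, hmin⟩ := Finset.exists_min_image P.offDiag (fun q => tau q.1 q.2) h
    rw [Finset.mem_offDiag] at hq
    refine ⟨tau q.1 q.2, hP.sep _ hq.1 _ hq.2.1 hq.2.2, fun p hp p' hp' hne => ?_⟩
    exact hmin (p, p') (Finset.mem_offDiag.mpr ⟨hp, hp', hne⟩)
  · refine ⟨1, one_pos, fun p hp p' hp' hne => ?_⟩
    exact absurd ⟨(p, p'), Finset.mem_offDiag.mpr ⟨hp, hp', hne⟩⟩ h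

theorem FinD_disj {F : Fin 3 → MvPolynomial (Fin 3) ℂ} {P : Finset V} (hP : SingPts F P)
    {c0 s1 : ℝ} {φ : ℝ → ℝ} (hφ : Prof c0 s1 φ) {ρ : ℝ} (hρ : 0 < ρ)
    (hd : ∀ p ∈ P, ∀ p' ∈ P, p ≠ p' → 4 * ρ ^ 2 ≤ tau p p') {x : V} (hx : x ≠ 0)
    {p p' : V} (hp : p ∈ P) (hp' : p' ∈ P) (hne : p ≠ p') (h : cutF φ ρ p x ≠ 0) :
    cutF φ ρ p' x = 0 := by
  by_contra h'
  have h1 : tau x p < ρ ^ 2 := by
    by_contra hn
    exact h (cutF_zero hφ hρ (not_lt.mp hn))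
  have h2 : tau x p' < ρ ^ 2 := by
    by_contra hn
    exact h' (cutF_zero hφ hρ (not_lt.mp hn))
  have h3 := tau_two (FinD_ne_zero hP hp) hx (FinD_ne_zero hP hp')
  have h4 := hd p hp p' hp' hne
  rw [tau_symm p x] at h3
  linarith

theorem FinD_part {F : Fin 3 → MvPolynomial (Fin 3) ℂ} {P : Finset V} (hP : SingPts F P)
    {c0 s1 : ℝ} {φ : ℝ → ℝ} (hφ : Prof c0 s1 φ) {ρ : ℝ} (hρ : 0 < ρ)
    (hd : ∀ p ∈ P, ∀ p' ∈ P, p ≠ p' → 4 * ρ ^ 2 ≤ tau p p') {x : V} (hx : x ≠ 0) :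
    0 ≤ 1 - ∑ p ∈ P, (cutF φ ρ p x).re ∧ 1 - ∑ p ∈ P, (cutF φ ρ p x).re ≤ 1 := by
  have hnn : 0 ≤ ∑ p ∈ P, (cutF φ ρ p x).re := Finset.sum_nonneg fun p _ => (cutF_mem hφ ρ p x).1
  refine ⟨?_, by linarith⟩
  by_cases h : ∃ p ∈ P, cutF φ ρ p x ≠ 0
  · obtain ⟨p, hp, hpx⟩ := h
    have : ∑ p ∈ P, (cutF φ ρ p x).re = (cutF φ ρ p x).re := by
      apply Finset.sum_eq_single_of_mem p hp
      intro p' hp' hne
      rw [FinD_disj hP hφ hρ hd hx hp hp' hne.symm hpx]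
      rfl
    rw [this]
    linarith [(cutF_mem hφ ρ p x).2]
  · push Not at h
    have : ∑ p ∈ P, (cutF φ ρ p x).re = 0 := by
      apply Finset.sum_eq_zero
      intro p hp
      rw [h p hp]
      rfl
    rw [this]
    norm_num

theorem FinD_part_zero {F : Fin 3 → MvPolynomial (Fin 3) ℂ} {P : Finset V} (hP : SingPts F P)
    {c0 s1 : ℝ} {φ : ℝ → ℝ} (hφ : Prof c0 s1 φ) (hs1 : 1 ≤ s1) {ρ : ℝ} (hρ : 0 < ρ)
    (hρ' : ρ ≤ 1 / 2) (hd : ∀ p ∈ P, ∀ p' ∈ P, p ≠ p' → 4 * ρ ^ 2 ≤ tau p p') {x : V}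
    (hx : x ≠ 0) {p : V} (hp : p ∈ P) (ht : tau x p < ρ ^ 2 * Real.exp (-(6 * s1 + 1)) / 2) :
    1 - ∑ p ∈ P, (cutF φ ρ p x).re = 0 := by
  have h2 : tau x p < 1 / 2 := by
    have h3 : Real.exp (-(6 * s1 + 1)) ≤ 1 := Real.exp_le_one_iff.mpr (by linarith)
    have h4 : 0 < Real.exp (-(6 * s1 + 1)) := Real.exp_pos _
    have h5 : ρ ^ 2 ≤ 1 := by nlinarith
    have h6 : ρ ^ 2 * Real.exp (-(6 * s1 + 1)) ≤ 1 * 1 :=
      mul_le_mul h5 h3 h4.le (by norm_num)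
    linarith
  have h1 := cutF_one hφ hρ ht h2
  have hne : cutF φ ρ p x ≠ 0 := by rw [h1]; exact one_ne_zero
  have : ∑ p ∈ P, (cutF φ ρ p x).re = (cutF φ ρ p x).re := by
    apply Finset.sum_eq_single_of_mem p hp
    intro p' hp' hne'
    rw [FinD_disj hP hφ hρ hd hx hp hp' hne'.symm hne]
    rfl
  rw [this, h1]
  simp

theorem FinD_re {f : V → ℂ} (hf : Integrable (fun x => f x * (wt x : ℂ))) :
    Integrable (fun x => (f x).re * wt x) ∧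
      (∫ x, f x * (wt x : ℂ)).re = ∫ x, (f x).re * wt x := by
  have h1 : (fun x => (f x).re * wt x) = fun x => RCLike.re (f x * (wt x : ℂ)) := by
    funext x
    exact (Complex.re_mul_ofReal _ _).symm
  rw [h1]
  exact ⟨hf.re, (integral_re hf).symm⟩

theorem FinD_cut_int {c0 s1 : ℝ} {φ : ℝ → ℝ} (hφ : Prof c0 s1 φ) {ρ : ℝ} (hρ : 0 < ρ) {p : V}
    (hp : N p = 1) {A B : V → M3} (hA : IsForm A) (hB : IsForm B) :
    Integrable (fun x => (cutF φ ρ p x).re * (ee (A x) (B x)).re * wt x) := by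
  have h1 : IsForm (fun x => cutF φ ρ p x • A x) :=
    form_smul_fun hA (isFun_iff.mp (isFun_cutF hφ hρ hp)).chom
  have h2 := (FinD_re (ee_int h1 hB)).1
  refine h2.congr (Filter.Eventually.of_forall fun x => ?_)
  show (ee (cutF φ ρ p x • A x) (B x)).re * wt x = (cutF φ ρ p x).re * (ee (A x) (B x)).re * wt x
  have him : (cutF φ ρ p x).im = 0 := Complex.conj_eq_iff_im.mp (isRe_cutF φ ρ p x)
  rw [ee_smul_left, Complex.mul_re, him, zero_mul, sub_zero]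

theorem FinD_ae_ne : ∀ᵐ x ∂(volume : Measure V), x ≠ 0 := by
  have h : (volume : Measure V) {(0 : V)} = 0 := measure_singleton _
  exact measure_eq_zero_iff_ae_notMem.mp h

theorem FinD_meas1 (p : V) (r : ℝ) : MeasurableSet {x : V | r ≤ tau x p} := by
  have h4 : Measurable (fun x : V => ((x, p) : V × V)) := measurable_id.prodMk measurable_const
  have h3 : Measurable ((fun q : V × V => tau q.1 q.2) ∘ (fun x : V => ((x, p) : V × V))) :=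
    measurable_tau.comp h4
  have h5 : {x : V | r ≤ tau x p} =
      ((fun q : V × V => tau q.1 q.2) ∘ (fun x : V => ((x, p) : V × V))) ⁻¹' Set.Ici r := rfl
  rw [h5]
  exact h3 measurableSet_Ici

theorem FinD_meas (P : Finset V) (r : ℝ) :
    MeasurableSet {x : V | x ≠ 0 ∧ ∀ p ∈ P, r ≤ tau x p} := by
  have h1 : MeasurableSet {x : V | x ≠ 0} := (measurableSet_singleton (0 : V)).compl
  have h2 : {x : V | x ≠ 0 ∧ ∀ p ∈ P, r ≤ tau x p} =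
      {x : V | x ≠ 0} ∩ ⋂ p ∈ P, {x : V | r ≤ tau x p} := by
    ext x
    simp only [Set.mem_ofPred_eq, Set.mem_inter_iff, Set.mem_iInter]
  rw [h2]
  exact h1.inter (Finset.measurableSet_biInter P fun p _ => FinD_meas1 p r)

theorem FinD_pt {F : Fin 3 → MvPolynomial (Fin 3) ℂ} {μ μ' : Measure V} (hμ : IsCur F μ)
    (hμ' : IsCur F μ') {ε : ℝ} (hε : 0 < ε) (h1 : ε ≤ 1) {x : V} (hx : x ≠ 0) :
    0 ≤ (ee (sm F μ ε x) (sm F μ' ε x)).re ∧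
      -(ee (DD F μ μ' ε x) (DD F μ μ' ε x)).re ≤ 2 * (ee (sm F μ ε x) (sm F μ' ε x)).re := by
  set S := sm F μ ε x with hS
  set S' := sm F μ' ε x with hS'
  have a1 : 0 ≤ (ee S S).re := ee_pos (herm_sm hμ hε h1 x hx) (pos_sm hμ hε h1 hx)
    (herm_sm hμ hε h1 x hx) (pos_sm hμ hε h1 hx)
  have a2 : 0 ≤ (ee S' S').re := ee_pos (herm_sm hμ' hε h1 x hx) (pos_sm hμ' hε h1 hx)
    (herm_sm hμ' hε h1 x hx) (pos_sm hμ' hε h1 hx)
  have a3 : 0 ≤ (ee S S').re := ee_pos (herm_sm hμ hε h1 x hx) (pos_sm hμ hε h1 hx)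
    (herm_sm hμ' hε h1 x hx) (pos_sm hμ' hε h1 hx)
  refine ⟨a3, ?_⟩
  have e1 : DD F μ μ' ε x = S + (-1 : ℂ) • S' := by
    show S - S' = S + (-1 : ℂ) • S'
    rw [neg_one_smul, sub_eq_add_neg]
  have e2 : ee (DD F μ μ' ε x) (DD F μ μ' ε x) = ee S S + ee S' S' - 2 * ee S S' := by
    rw [e1, ee_add_left, ee_smul_left, ee_comm S (S + (-1 : ℂ) • S'),
      ee_comm S' (S + (-1 : ℂ) • S'), ee_add_left, ee_smul_left, ee_add_left, ee_smul_left,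
      ee_comm S' S]
    ring
  rw [e2]
  simp only [Complex.sub_re, Complex.add_re, Complex.mul_re, Complex.re_ofNat, Complex.im_ofNat,
    zero_mul, sub_zero]
  linarith

theorem FinD_split {F : Fin 3 → MvPolynomial (Fin 3) ℂ} {P : Finset V} (hP : SingPts F P)
    {μ μ' : Measure V} (hμ : IsCur F μ) (hμ' : IsCur F μ')
    {c0 s1 : ℝ} {φ : ℝ → ℝ} (hφ : Prof c0 s1 φ) (hs1 : 1 ≤ s1) {ρ : ℝ} (hρ : 0 < ρ)
    (hρ' : ρ ≤ 1 / 2) (hd : ∀ p ∈ P, ∀ p' ∈ P, p ≠ p' → 4 * ρ ^ 2 ≤ tau p p')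
    {ε : ℝ} (hε : 0 < ε) (h1 : ε ≤ 1) :
    nn (DD F μ μ' ε) (DD F μ μ' ε) ≤
      (∑ p ∈ P, -(∫ x, (cutF φ ρ p x).re * (ee (DD F μ μ' ε x) (DD F μ μ' ε x)).re * wt x)) +
        2 * Loss F μ μ' P (ρ ^ 2 * Real.exp (-(6 * s1 + 1)) / 2) ε := by
  have hD : IsForm (DD F μ μ' ε) := form_sub (form_sm hμ hε h1) (form_sm hμ' hε h1)
  set D := DD F μ μ' ε with hDdef
  set r0 := ρ ^ 2 * Real.exp (-(6 * s1 + 1)) / 2 with hr0
  obtain ⟨iR, eR⟩ := FinD_re (ee_int hD hD)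
  have iF : ∀ p ∈ P, Integrable (fun x => (cutF φ ρ p x).re * (ee (D x) (D x)).re * wt x) :=
    fun p hp => FinD_cut_int hφ hρ (hP.unit p hp) hD hD
  have iS : Integrable (fun x => ∑ p ∈ P, (cutF φ ρ p x).re * (ee (D x) (D x)).re * wt x) :=
    integrable_finsetSum P iF
  obtain ⟨iL, _⟩ := FinD_re (ee_int (form_sm hμ hε h1) (form_sm hμ' hε h1))
  have hm := FinD_meas P r0
  have key1 : ∫ x, -((ee (D x) (D x)).re * wt x -
      ∑ p ∈ P, (cutF φ ρ p x).re * (ee (D x) (D x)).re * wt x) ≤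
      ∫ x, Set.indicator {x : V | x ≠ 0 ∧ ∀ p ∈ P, r0 ≤ tau x p}
        (fun x => 2 * ((ee (sm F μ ε x) (sm F μ' ε x)).re * wt x)) x := by
    apply integral_mono_ae (iR.sub iS).neg ((iL.const_mul 2).indicator hm)
    filter_upwards [FinD_ae_ne] with x hx
    have hw : 0 < wt x := Real.exp_pos _
    obtain ⟨b1, b2⟩ := FinD_pt hμ hμ' hε h1 hx
    obtain ⟨g1, g2⟩ := FinD_part hP hφ hρ hd hx
    have hfac : -((ee (D x) (D x)).re * wt x -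
        ∑ p ∈ P, (cutF φ ρ p x).re * (ee (D x) (D x)).re * wt x) =
        (1 - ∑ p ∈ P, (cutF φ ρ p x).re) * (-(ee (D x) (D x)).re) * wt x := by
      rw [sub_mul, sub_mul, Finset.sum_mul, Finset.sum_mul, one_mul]
      rw [neg_sub, sub_eq_add_neg, add_comm, neg_mul]
      congr 1
      rw [← Finset.sum_neg_distrib]
      apply Finset.sum_congr rfl
      intro p _
      ring
    show -((ee (D x) (D x)).re * wt x -
        ∑ p ∈ P, (cutF φ ρ p x).re * (ee (D x) (D x)).re * wt x) ≤ _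
    rw [hfac]
    by_cases hxm : x ∈ {x : V | x ≠ 0 ∧ ∀ p ∈ P, r0 ≤ tau x p}
    · rw [Set.indicator_of_mem hxm]
      have c1 : (1 - ∑ p ∈ P, (cutF φ ρ p x).re) * (-(ee (D x) (D x)).re) ≤
          2 * (ee (sm F μ ε x) (sm F μ' ε x)).re := by
        have c2 : (1 - ∑ p ∈ P, (cutF φ ρ p x).re) * (-(ee (D x) (D x)).re) ≤
            (1 - ∑ p ∈ P, (cutF φ ρ p x).re) * (2 * (ee (sm F μ ε x) (sm F μ' ε x)).re) :=
          mul_le_mul_of_nonneg_left b2 g1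
        have c3 : (1 - ∑ p ∈ P, (cutF φ ρ p x).re) * (2 * (ee (sm F μ ε x) (sm F μ' ε x)).re) ≤
            1 * (2 * (ee (sm F μ ε x) (sm F μ' ε x)).re) :=
          mul_le_mul_of_nonneg_right g2 (by linarith)
        linarith
      have c4 := mul_le_mul_of_nonneg_right c1 hw.le
      linarith
    · rw [Set.indicator_of_notMem hxm]
      have : ∃ p ∈ P, tau x p < r0 := by
        by_contra hn
        push Not at hn
        exact hxm ⟨hx, hn⟩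
      obtain ⟨p, hp, hpt⟩ := this
      rw [FinD_part_zero hP hφ hs1 hρ hρ' hd hx hp hpt]
      simp
  have e1 : ∫ x, -((ee (D x) (D x)).re * wt x -
      ∑ p ∈ P, (cutF φ ρ p x).re * (ee (D x) (D x)).re * wt x) =
      -(∫ x, (ee (D x) (D x)).re * wt x) +
        ∑ p ∈ P, ∫ x, (cutF φ ρ p x).re * (ee (D x) (D x)).re * wt x := by
    rw [integral_neg, integral_sub iR iS, integral_finsetSum P iF]
    ring
  have e2 : ∫ x, Set.indicator {x : V | x ≠ 0 ∧ ∀ p ∈ P, r0 ≤ tau x p}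
        (fun x => 2 * ((ee (sm F μ ε x) (sm F μ' ε x)).re * wt x)) x =
      2 * Loss F μ μ' P r0 ε := by
    rw [integral_indicator hm, integral_const_mul]
    rfl
  rw [e1, e2] at key1
  have e3 : nn D D = -(∫ x, (ee (D x) (D x)).re * wt x) := by
    unfold nn qq
    rw [eR]
  rw [e3, Finset.sum_neg_distrib]
  linarith

/-- The pointwise form of the global estimate: admissibility is only used at the given `ε`. -/
theorem key_pt {F : Fin 3 → MvPolynomial (Fin 3) ℂ} {P : Finset V} (hP : SingPts F P)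
    {μ μ' : Measure V} (hμ : IsCur F μ) (hμ' : IsCur F μ') (hd : DdcClosed F μ)
    (hd' : DdcClosed F μ') :
    ∃ C : ℝ, 0 < C ∧ ∀ A0 : V → M3, InH0 A0 → ∀ δ β : ℝ, 0 < δ → 0 < β →
      ∃ ρ r η ε0 : ℝ, 0 < ρ ∧ ρ ≤ 1 / 2 ∧ 0 < r ∧ 0 < η ∧ 0 < ε0 ∧ ε0 ≤ 1 ∧
        ∀ ε : ℝ, 0 < ε → ε < ε0 →
          (∃ s1 : ℝ, 1 ≤ s1 ∧ (1 + En (μ + μ') P r ε) / s1 ≤ η ∧
            Loss F μ μ' P (ρ ^ 2 * Real.exp (-(6 * s1 + 1)) / 2) ε ≤ η) →
          nn (fun x => DD F μ μ' ε x - A0 x) (fun x => DD F μ μ' ε x - A0 x) ≤ δ →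
            nn (DD F μ μ' ε) (DD F μ μ' ε) ≤ C * δ + β := by
  obtain ⟨c0, hc0, hprof⟩ := exists_prof
  have hk0 : (0 : ℝ) ≤ (P.card : ℝ) := Nat.cast_nonneg _
  refine ⟨(51 + c0) * ((P.card : ℝ) + 1), by positivity, ?_⟩
  intro A0 hA δ β hδ hβ
  set k : ℝ := (P.card : ℝ) with hk
  set β' : ℝ := β / (8 * (k + 1)) with hβ'
  have hβ0 : 0 < β' := by rw [hβ']; positivity
  have hββ : 8 * (k + 1) * β' = β := by rw [hβ']; field_simp
  obtain ⟨ρ0, hρ0, hnear⟩ := near_p hP hμ hμ' hd hd' hA hc0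
  obtain ⟨ρ1, hρ1, hsA⟩ := small_A0 hP hμ hμ' hA.form hβ0
  obtain ⟨ρ2, hρ2, hsAA⟩ := small_AA hA.form hP.unit hβ0
  obtain ⟨d, hd0, hsep⟩ := FinD_sep hP
  obtain ⟨ρ, hρ, hr0, hr1, hr2, hr3, hr4⟩ : ∃ ρ : ℝ, 0 < ρ ∧ ρ ≤ ρ0 ∧ ρ ≤ ρ1 ∧ ρ ≤ ρ2 ∧
      ρ ≤ 1 / 2 ∧ 2 * ρ ≤ d := by
    refine ⟨min (min ρ0 ρ1) (min ρ2 (min (1 / 2) (d / 2))), ?_, ?_, ?_, ?_, ?_, ?_⟩
    · exact lt_min (lt_min hρ0 hρ1) (lt_min hρ2 (lt_min (by norm_num) (by linarith)))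
    · exact (min_le_left _ _).trans (min_le_left _ _)
    · exact (min_le_left _ _).trans (min_le_right _ _)
    · exact (min_le_right _ _).trans (min_le_left _ _)
    · exact (min_le_right _ _).trans ((min_le_right _ _).trans (min_le_left _ _))
    · have : min (min ρ0 ρ1) (min ρ2 (min (1 / 2) (d / 2))) ≤ d / 2 :=
        (min_le_right _ _).trans ((min_le_right _ _).trans (min_le_right _ _))
      linarith
  have hdd : ∀ p ∈ P, ∀ p' ∈ P, p ≠ p' → 4 * ρ ^ 2 ≤ tau p p' := by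
    intro p hp p' hp' hne
    have h1 := hsep p hp p' hp' hne
    have h2 : 4 * ρ ^ 2 ≤ d := by nlinarith
    linarith
  obtain ⟨r, C, hr, hC, hest⟩ := hnear ρ hρ hr0
  set η : ℝ := β' / (C + 1) with hη
  have hη0 : 0 < η := by rw [hη]; positivity
  have hη1 : η * (C + 1) = β' := by rw [hη]; field_simp
  have hηC : C * η ≤ β' := by nlinarith
  have hηβ : η ≤ β' := by nlinarith
  obtain ⟨εb, hεb, hsmall⟩ := hsA ρ hρ hr1
  refine ⟨ρ, r, η, min 1 εb, hρ, hr3, hr, hη0, lt_min one_pos hεb, min_le_left _ _, ?_⟩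
  intro ε hε hlt hAdm hX
  have hε1 : ε ≤ 1 := (hlt.trans_le (min_le_left _ _)).le
  have hεb' : ε < εb := hlt.trans_le (min_le_right _ _)
  obtain ⟨s1, hs1, hEn, hLoss⟩ := hAdm
  obtain ⟨φ, hφ⟩ := hprof s1 hs1
  have hsplit := FinD_split hP hμ hμ' hφ hs1 hρ hr3 hdd hε hε1
  have hc51 : 0 < 51 + c0 := by linarith
  have hterm : ∀ p ∈ P,
      -(∫ x, (cutF φ ρ p x).re * (ee (DD F μ μ' ε x) (DD F μ μ' ε x)).re * wt x) ≤
        (51 + c0) * δ + 5 * β' := by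
    intro p hp
    have h1 := hest ε s1 φ p hε hε1 hs1 hφ hp (β' / (51 + c0)) (by positivity)
    have h2 := hsmall ε hε hεb' p hp
    have h3 := hsAA ρ hρ hr2 p hp
    have h4 : C * ((1 + En (μ + μ') P r ε) / s1) ≤ C * η := mul_le_mul_of_nonneg_left hEn hC.le
    have h5 : (51 + c0) * (nn (fun x => DD F μ μ' ε x - A0 x) (fun x => DD F μ μ' ε x - A0 x) +
        β' / (51 + c0)) ≤ (51 + c0) * δ + β' := by
      rw [mul_add, mul_div_cancel₀ _ hc51.ne']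
      have := mul_le_mul_of_nonneg_left hX hc51.le
      linarith
    linarith
  have hsum : (∑ p ∈ P,
      -(∫ x, (cutF φ ρ p x).re * (ee (DD F μ μ' ε x) (DD F μ μ' ε x)).re * wt x)) ≤
        k * ((51 + c0) * δ + 5 * β') := by
    have h1 := Finset.sum_le_sum hterm
    rw [Finset.sum_const, nsmul_eq_mul] at h1
    exact h1
  have hfin1 : k * ((51 + c0) * δ + 5 * β') + 2 * η ≤ (51 + c0) * (k + 1) * δ + β := by
    have h1 : 0 < (51 + c0) * δ := by positivity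
    have h2 : 0 ≤ k * β' := by positivity
    nlinarith
  linarith

theorem key {F : Fin 3 → MvPolynomial (Fin 3) ℂ} {P : Finset V} (hP : SingPts F P)
    {μ μ' : Measure V} (hμ : IsCur F μ) (hμ' : IsCur F μ') (hd : DdcClosed F μ)
    (hd' : DdcClosed F μ') (hadm : Adm F μ μ' P) :
    ∃ C : ℝ, 0 < C ∧ ∀ A0 : V → M3, InH0 A0 → ∀ δ β : ℝ, 0 < δ → 0 < β →
      ∃ ε0 : ℝ, 0 < ε0 ∧ ε0 ≤ 1 ∧ ∀ ε : ℝ, 0 < ε → ε < ε0 →
        nn (fun x => DD F μ μ' ε x - A0 x) (fun x => DD F μ μ' ε x - A0 x) ≤ δ →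
          nn (DD F μ μ' ε) (DD F μ μ' ε) ≤ C * δ + β := by
  obtain ⟨C, hC, h⟩ := key_pt hP hμ hμ' hd hd'
  refine ⟨C, hC, fun A0 hA δ β hδ hβ => ?_⟩
  obtain ⟨ρ, r, η, ε1, hρ, hρ', hr, hη, hε1, hε1', hest⟩ := h A0 hA δ β hδ hβ
  obtain ⟨εa, hεa, hAdm⟩ := hadm ρ r η hρ hρ' hr hη
  refine ⟨min ε1 εa, lt_min hε1 hεa, (min_le_left _ _).trans hε1', fun ε hε hlt hX => ?_⟩
  exact hest ε hε (hlt.trans_le (min_le_left _ _))
    (hAdm ε hε (hlt.trans_le (min_le_right _ _))) hX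

end Pool.Agent.H85.DC
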