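import Pool.Agent.H85.DC.Wv

/-!
# Row Sng: normalising the finite singular set

From `hsing`: finitely many vectors `P0` such that every zero `y` of `eta F` is a multiple of one of them. Keep the `q ∈ P0` with `q ≠ 0` and `eta F q = 0`, normalise `q ↦ (√(N q))⁻¹ • q`
(still a zero: `eta_hom`), and choose one representative of each class of proportional vectors (e.g. induction on the finset: insert `q` only if `tau q p > 0` for all `p` already
present; `tau_eq_zero`: if `tau q p = 0` then `q` is a multiple of `p`). Then: unit; `tau p p' > 0` for different ones; a nonzero zero `y` of `eta F`: `y = c • q`, `q ∈ P0`, `c ≠ 0`, `q ≠ 0`, and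
`eta F q = 0` by `eta_hom` with `l = c⁻¹`; `q` is a multiple of a chosen `p`. Conversely if `y = c • p ≠ 0` then `eta F y = c^(d+1) • eta F p = 0`.
-/

open MeasureTheory
open scoped ContDiff BigOperators ComplexConjugate Matrix

namespace Pool.Agent.H85.DC

theorem Sng_N_one_ne {x : V} (h : N x = 1) : x ≠ 0 := by
  rintro rfl
  have h0 : N (0 : V) = 0 := by simp [N]
  rw [h0] at h
  exact zero_ne_one h

/-- Choose one representative of each class of proportional unit vectors. -/
theorem Sng_pick (T : Finset V) : (∀ q ∈ T, N q = 1) → ∃ P : Finset V, P ⊆ T ∧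
    (∀ p ∈ P, ∀ p' ∈ P, p ≠ p' → 0 < tau p p') ∧ ∀ q ∈ T, ∃ p ∈ P, ∃ c : ℂ, q = c • p := by
  classical
  induction T using Finset.induction_on with
  | empty =>
    intro _
    exact ⟨∅, Finset.Subset.refl _, by simp, by simp⟩
  | insert a T haT ih =>
    intro hT
    obtain ⟨P, hPT, hsep, hcov⟩ := ih fun q hq => hT q (Finset.mem_insert_of_mem hq)
    have ha : N a = 1 := hT a (Finset.mem_insert_self a T)
    by_cases h : ∃ p ∈ P, tau a p = 0
    · obtain ⟨p, hp, hap⟩ := h
      refine ⟨P, hPT.trans (Finset.subset_insert a T), hsep, fun q hq => ?_⟩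
      rcases Finset.mem_insert.1 hq with rfl | hq
      · have hp1 : N p = 1 := hT p (Finset.mem_insert_of_mem (hPT hp))
        obtain ⟨c, hc⟩ := tau_eq_zero (Sng_N_one_ne ha) (Sng_N_one_ne hp1) hap
        exact ⟨p, hp, c, hc⟩
      · exact hcov q hq
    · push Not at h
      have hpos : ∀ p ∈ P, 0 < tau a p := fun p hp => lt_of_le_of_ne (tau_nonneg a p) (h p hp).symm
      refine ⟨insert a P, Finset.insert_subset_insert a hPT, ?_, ?_⟩
      · intro p hp p' hp' hne
        rcases Finset.mem_insert.1 hp with h1 | h1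
        · rcases Finset.mem_insert.1 hp' with h2 | h2
          · exact absurd (h1.trans h2.symm) hne
          · rw [h1]
            exact hpos p' h2
        · rcases Finset.mem_insert.1 hp' with h2 | h2
          · rw [h2, tau_symm]
            exact hpos p h1
          · exact hsep p h1 p' h2 hne
      · intro q hq
        rcases Finset.mem_insert.1 hq with rfl | hq
        · exact ⟨q, Finset.mem_insert_self q P, 1, (one_smul ℂ q).symm⟩
        · obtain ⟨p, hp, c, hc⟩ := hcov q hq
          exact ⟨p, Finset.mem_insert_of_mem hp, c, hc⟩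

theorem exists_singPts {F : Fin 3 → MvPolynomial (Fin 3) ℂ} {d : ℕ}
    (hF : ∀ j, (F j).IsHomogeneous d)
    (hsing : ∃ P : Finset V, ∀ y : V, eta F y = 0 → ∃ p ∈ P, ∃ c : ℂ, y = c • p) :
    ∃ P : Finset V, SingPts F P := by
  classical
  obtain ⟨P0, hP0⟩ := hsing
  set S : Finset V := P0.filter fun q => q ≠ 0 ∧ eta F q = 0 with hS
  set nrm : V → V := fun q => ((Real.sqrt (N q) : ℂ)⁻¹) • q with hnrm
  have hpos : ∀ q : V, q ≠ 0 → 0 < N q := fun q hq => TauM_N_pos hq
  have hs0 : ∀ q : V, q ≠ 0 → ((Real.sqrt (N q) : ℝ) : ℂ) ≠ 0 := by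
    intro q hq
    exact_mod_cast (Real.sqrt_pos.2 (hpos q hq)).ne'
  have hunit : ∀ q : V, q ≠ 0 → N (nrm q) = 1 := by
    intro q hq
    rw [hnrm]
    simp only
    rw [TauM_N_smul, map_inv₀, Complex.normSq_ofReal, Real.mul_self_sqrt (hpos q hq).le]
    exact inv_mul_cancel₀ (hpos q hq).ne'
  have hT : ∀ q ∈ S.image nrm, N q = 1 := by
    intro q hq
    obtain ⟨r, hr, rfl⟩ := Finset.mem_image.1 hq
    exact hunit r (Finset.mem_filter.1 hr).2.1
  obtain ⟨P, hPT, hsep, hcov⟩ := Sng_pick (S.image nrm) hT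
  have heta : ∀ p ∈ P, eta F p = 0 := by
    intro p hp
    obtain ⟨r, hr, rfl⟩ := Finset.mem_image.1 (hPT hp)
    rw [hnrm]
    simp only
    rw [eta_hom hF, (Finset.mem_filter.1 hr).2.2, smul_zero]
  refine ⟨P, fun p hp => hT p (hPT hp), hsep, fun y hy => ⟨fun h => ?_, ?_⟩⟩
  · obtain ⟨q, hq, c, rfl⟩ := hP0 y h
    have hc : c ≠ 0 := by
      rintro rfl
      exact hy (zero_smul ℂ q)
    have hq0 : q ≠ 0 := by
      rintro rfl
      exact hy (smul_zero c)
    have hq1 : eta F q = 0 := by
      have h1 := eta_hom hF c q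
      rw [h] at h1
      exact (smul_eq_zero.1 h1.symm).resolve_left (pow_ne_zero _ hc)
    have hqS : nrm q ∈ S.image nrm :=
      Finset.mem_image_of_mem nrm (Finset.mem_filter.2 ⟨hq, hq0, hq1⟩)
    obtain ⟨p, hp, b, hb⟩ := hcov _ hqS
    refine ⟨p, hp, c * ((Real.sqrt (N q) : ℂ) * b), ?_⟩
    have h2 : q = (Real.sqrt (N q) : ℂ) • nrm q := by
      rw [hnrm]
      simp only
      rw [smul_smul, mul_inv_cancel₀ (hs0 q hq0), one_smul]
    rw [mul_smul, mul_smul, ← hb, ← h2]
  · rintro ⟨p, hp, c, rfl⟩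
    rw [eta_hom hF, heta p hp, smul_zero]

end Pool.Agent.H85.DC
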