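import Pool.Agent.H85.DC.FinA
import Pool.Agent.H85.DC.FinD
import Pool.Agent.H85.DC.Sng

/-!
# MP_6873ef_an: the final assembly from weak admissibility (helper85)
-/

open MeasureTheory
open scoped ContDiff BigOperators ComplexConjugate Matrix

namespace Pool.Agent.H85.DC

/-- Weak admissibility: the estimates hold for arbitrarily small `ε`. -/
def AdmW (F : Fin 3 → MvPolynomial (Fin 3) ℂ) (μ μ' : Measure V) (P : Finset V) : Prop :=
  ∀ ρ r η ε0 : ℝ, 0 < ρ → ρ ≤ 1 / 2 → 0 < r → 0 < η → 0 < ε0 → ∃ ε : ℝ, 0 < ε ∧ ε < ε0 ∧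
    ∃ s1 : ℝ, 1 ≤ s1 ∧ (1 + En (μ + μ') P r ε) / s1 ≤ η ∧
      Loss F μ μ' P (ρ ^ 2 * Real.exp (-(6 * s1 + 1)) / 2) ε ≤ η

theorem admW_symm {F : Fin 3 → MvPolynomial (Fin 3) ℂ} {μ μ' : Measure V} {P : Finset V}
    (h : AdmW F μ μ' P) : AdmW F μ' μ P := by
  intro ρ r η ε0 h1 h2 h3 h4 h5
  obtain ⟨ε, h6, h7, s1, h8, h9, h10⟩ := h ρ r η ε0 h1 h2 h3 h4 h5
  refine ⟨ε, h6, h7, s1, h8, ?_, ?_⟩
  · rwa [add_comm μ' μ]
  · rwa [loss_symm]

theorem nn_sub_sq' {A B : V → M3} (hA : InH0 A) (hB : InH0 B) :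
    nn (fun x => A x - B x) (fun x => A x - B x) = nn A A - 2 * nn A B + nn B B := by
  rw [nn_sub_left hA.form hB.form (form_sub hA.form hB.form)]
  rw [nn_comm A, nn_comm B, nn_sub_left hA.form hB.form hA.form,
    nn_sub_left hA.form hB.form hB.form, nn_comm B A]
  ring

theorem opt_zeroW {F : Fin 3 → MvPolynomial (Fin 3) ℂ} {P : Finset V} (hP : SingPts F P)
    {μ μ' : Measure V} (hμ : IsCur F μ) (hμ' : IsCur F μ') (hd : DdcClosed F μ)
    (hd' : DdcClosed F μ') (hadm : AdmW F μ μ' P) :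
    ∀ A : V → M3, InH0 A → (Dl F μ μ' A).re = 0 := by
  obtain ⟨K, hK0, hK, hopt⟩ := near_opt hμ hμ' hd hd'
  obtain ⟨C, hC, hkey⟩ := key_pt hP hμ hμ' hd hd'
  have main : ∀ δ : ℝ, 0 < δ → K ≤ (2 * C + 3) * δ := by
    intro δ hδ
    obtain ⟨A0, hA0, hD, hnA⟩ := hopt δ hδ
    obtain ⟨ρ, r, η, ε0, hρ, hρ', hr, hη, hε0, hε01, hk⟩ :=
      hkey A0 hA0 (2 * δ) δ (by linarith) hδ
    have ht := dl_tendsto (F := F) hμ hμ' hA0.form
    have hev : ∀ᶠ ε : ℝ in nhdsWithin 0 (Set.Ioi 0),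
        (Dl F μ μ' (av ε A0)).re < -nn A0 A0 + δ / 2 := by
      apply ht.eventually_lt_const
      rw [hD]
      linarith
    obtain ⟨u, hu, hu2⟩ := (mem_nhdsGT_iff_exists_Ioo_subset).1 hev
    obtain ⟨ε, hεpos, hεlt, hs⟩ := hadm ρ r η (min ε0 u) hρ hρ' hr hη (lt_min hε0 hu)
    have hε1 : (Dl F μ μ' (av ε A0)).re < -nn A0 A0 + δ / 2 :=
      hu2 ⟨hεpos, lt_of_lt_of_le hεlt (min_le_right _ _)⟩
    have hε2 : ε < ε0 := lt_of_lt_of_le hεlt (min_le_left _ _)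
    have hεle : ε ≤ 1 := le_trans hε2.le hε01
    have hDH := inH0_D hμ hμ' hd hd' hεpos hεle
    have hX := nn_sub_sq' hDH hA0
    have hself := dl_self hμ hμ' hd hd' hK0 hK hεpos hεle
    have hDA := nn_DD hμ hμ' hA0.form hεpos hεle
    have hpos := hodge (inH0_sub hDH hA0)
    have h1 : nn (fun x => DD F μ μ' ε x - A0 x) (fun x => DD F μ μ' ε x - A0 x) ≤ 2 * δ := by
      rw [hX, hDA]
      linarith
    have h2 := hk ε hεpos hε2 hs h1
    rw [hX, hDA] at hpos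
    nlinarith
  have hK00 : K ≤ 0 := by
    by_contra hcon
    push Not at hcon
    have h := main (K / (2 * (2 * C + 3))) (by positivity)
    have h3 : (2 * C + 3) * (K / (2 * (2 * C + 3))) = K / 2 := by
      field_simp
    rw [h3] at h
    linarith
  intro A hA
  have h := hK A hA
  have hKz : K = 0 := le_antisymm hK00 hK0
  rw [hKz, zero_mul] at h
  have : (Dl F μ μ' A).re ^ 2 = 0 := le_antisymm h (sq_nonneg _)
  exact pow_eq_zero_iff (two_ne_zero) |>.1 this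

/-- Weak admissibility implies that the difference of the currents is closed. -/
theorem closed_of_admW {F : Fin 3 → MvPolynomial (Fin 3) ℂ} {P : Finset V} (hP : SingPts F P)
    {μS μT : Measure V} (hS : IsCur F μS) (hT : IsCur F μT) (dS : DdcClosed F μS)
    (dT : DdcClosed F μT) (h : AdmW F μS μT P) :
    (∀ ζ : V → V, IsCov ζ → ∫ y, pr F (db ζ) y ∂μS = ∫ y, pr F (db ζ) y ∂μT) ∧
      (CurClosed F μT → CurClosed F μS) := by
  have h0 := opt_zeroW hP hS hT dS dT h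
  have h1 : ∀ ζ : V → V, IsCov ζ → ∫ y, pr F (db ζ) y ∂μS = ∫ y, pr F (db ζ) y ∂μT :=
    fun ζ hζ => closed_of_zero hS hT h0 hζ
  refine ⟨h1, fun hc ζ hζ => ?_⟩
  rw [h1 ζ hζ]
  exact hc ζ hζ

end Pool.Agent.H85.DC
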