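import Pool.Agent.H85.DC.Wv

/-!
# Row Mb: mass bound for balls

Fix `y` with `N y = 1` and `s > 0`. `u x = log (tau x y + s^2)` (cast to `ℂ`) is a real conic function (`tau` smooth off `0`: `tau = (N x - |ip x y|^2)/N x`, polynomial over `N`).
Put `G x = N x - |ip x y|^2 + s^2 N x`, a Hermitian form in `x`, positive for `x ≠ 0`; `u = log G - log N` off `0`.
`L (log N) = Wm`, `L (log G) x j k = (h_jk G - g_j conj(g_k))/G^2` with `h_jk = dz_j dzb_k G = (1 + s^2) δ_jk - conj(y_j) y_k`, `g_j = dz j G x = ∑_k h_jk conj(x_k)`.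
For a vector `w`: `quad (L (log G) x) w = (G(w) G(x) - |G(w,x)|^2)/G(x)^2`, `G(w,x) = ∑ h_jk w_j conj(x_k) = (1+s^2) ip w x - ip w y * conj (ip x y)`, `G(w) = (1+s^2) N w - |ip w y|^2`.
For an orthonormal pair `(x, w)`: `G(x) = τ + s^2`, `G(w) = 1 - |ip w y|^2 + s^2`, `G(w,x) = - ip w y conj(ip x y)`. So
`G(w)G(x) - |G(w,x)|^2 = (1 - |ip w y|^2 + s^2)(τ + s^2) - |ip w y|^2 (1 - τ)`. With `a = |ip w y|^2 ≤ τ` (Bessel: `|ip x y|^2 + |ip w y|^2 ≤ 1`, `bessel`), it is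
`= τ - a τ + s^2(1 - a) + s^2 τ + s^4 - a + aτ = (τ - a) + s^2 (1 - a + τ) + s^4 ≥ s^2`. (`lower`)
So `quad (L (log G) x) w ≥ s^2/(τ + s^2)^2 ≥ 0`, and `≥ 1/(4 s^2)` when `τ < s^2`.
`DdcClosed` with `u`: `0 = ∫ pr F (L u) dμ = ∫ pr F (L (log G)) dμ - ∫ pr F Wm dμ`, `pr F Wm = 1` a.e. (`pr_Wm`), so `∫ pr F (L log G) dμ = 1` and
`pr F (L log G) x = quad (…) (wv F x) ≥ (1/(4 s^2)) 1_{τ(x,y) < s^2}` a.e. (`pr_eq`: apply it to the form `L u` and to `Wm`; `L (log G) = L u + Wm` is a form). Hence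
`μ {tau x y < s^2} ≤ 4 s^2`.
-/

open MeasureTheory
open scoped ContDiff BigOperators ComplexConjugate Matrix

namespace Pool.Agent.H85.DC

noncomputable def Mb_G (s : ℝ) (y x : V) : ℝ := (1 + s ^ 2) * N x - Complex.normSq (ip x y)

noncomputable def Mb_u (s : ℝ) (y x : V) : ℂ := ((Real.log (tau x y + s ^ 2) : ℝ) : ℂ)

theorem Mb_N (x : V) : (N x : ℂ) = ∑ j, x j * conj (x j) := by
  simp only [N, Complex.ofReal_sum, Complex.mul_conj]

theorem Mb_ip_hom (y : V) : Hom 1 0 (fun x => ip x y) := by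
  have h := hom_sum (a := 1) (b := 0) (Finset.univ : Finset (Fin 3)) (fun j x => conj (y j) * x j)
    (fun j _ => hom_const_mul _ (hom_coord j))
  have e : (fun x : V => ∑ i ∈ (Finset.univ : Finset (Fin 3)), conj (y i) * x i) =
      fun x => ip x y := by
    funext x
    exact Finset.sum_congr rfl fun j _ => mul_comm _ _
  rw [e] at h
  exact h

theorem Mb_Gc (s : ℝ) (y x : V) : ((Mb_G s y x : ℝ) : ℂ) =
    ((1 + s ^ 2 : ℝ) : ℂ) * (N x : ℂ) + (-1) * (ip x y * conj (ip x y)) := by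
  unfold Mb_G
  rw [Complex.ofReal_sub, Complex.ofReal_mul, ← Complex.mul_conj]
  ring

theorem Mb_hom_G (s : ℝ) (y : V) : Hom 1 1 (fun x => ((Mb_G s y x : ℝ) : ℂ)) := by
  have h1 := hom_const_mul ((1 + s ^ 2 : ℝ) : ℂ) hom_N
  have h2 : Hom 1 1 (fun x => ip x y * conj (ip x y)) := by
    have := hom_mul (Mb_ip_hom y) (hom_conj (Mb_ip_hom y))
    simpa using this
  have h3 := hom_add h1 (hom_const_mul (-1) h2)
  have e : (fun x : V => ((Mb_G s y x : ℝ) : ℂ)) = fun x =>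
      ((1 + s ^ 2 : ℝ) : ℂ) * (N x : ℂ) + (-1) * (ip x y * conj (ip x y)) := by
    funext x
    exact Mb_Gc s y x
  rw [e]
  exact h3

theorem Mb_G_pos {s : ℝ} (hs : 0 < s) {y : V} (hy : N y = 1) {x : V} (hx : x ≠ 0) :
    0 < Mb_G s y x := by
  have h1 := cs_ip x y
  rw [hy, mul_one] at h1
  have h2 := N_pos hx
  unfold Mb_G
  have h3 : 0 < s ^ 2 * N x := by positivity
  nlinarith

theorem Mb_tau {s : ℝ} {y : V} (hy : N y = 1) {x : V} (hx : x ≠ 0) :
    tau x y + s ^ 2 = Mb_G s y x / N x := by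
  have h2 := N_pos hx
  unfold tau Mb_G
  rw [hy, mul_one]
  field_simp
  ring

theorem Mb_dz_ip (y : V) (j : Fin 3) (x : V) : dz j (fun x => ip x y) x = conj (y j) := by
  have e : (fun x : V => ip x y) = fun x => ∑ i ∈ (Finset.univ : Finset (Fin 3)), conj (y i) * x i := by
    funext x
    exact Finset.sum_congr rfl fun j _ => mul_comm _ _
  have hd : ∀ i : Fin 3, DifferentiableAt ℝ (fun z : V => z i) x := fun i => by fun_prop
  rw [e, dz_sum j _ (fun i x => conj (y i) * x i) (fun i _ => (hd i).const_mul _)]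
  simp only [dz_const_mul j _ (hd _), dz_coord]
  simp

theorem Mb_dzb_ip (y : V) (j : Fin 3) (x : V) : dzb j (fun x => ip x y) x = 0 := by
  have e : (fun x : V => ip x y) = fun x => ∑ i ∈ (Finset.univ : Finset (Fin 3)), conj (y i) * x i := by
    funext x
    exact Finset.sum_congr rfl fun j _ => mul_comm _ _
  have hd : ∀ i : Fin 3, DifferentiableAt ℝ (fun z : V => z i) x := fun i => by fun_prop
  rw [e, dzb_sum j _ (fun i x => conj (y i) * x i) (fun i _ => (hd i).const_mul _)]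
  simp only [dzb_const_mul j _ (hd _), dzb_coord]
  simp

theorem Mb_dz_cip (y : V) (j : Fin 3) (x : V) : dz j (fun x => conj (ip x y)) x = 0 := by
  rw [← conj_dzb, Mb_dzb_ip, map_zero]

theorem Mb_dzb_cip (y : V) (j : Fin 3) (x : V) : dzb j (fun x => conj (ip x y)) x = y j := by
  rw [← conj_dz, Mb_dz_ip, Complex.conj_conj]

theorem Mb_dz_G (s : ℝ) (y : V) (j : Fin 3) {x : V} (hx : x ≠ 0) :
    dz j (fun x => ((Mb_G s y x : ℝ) : ℂ)) x =
      ((1 + s ^ 2 : ℝ) : ℂ) * conj (x j) - conj (y j) * conj (ip x y) := by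
  have hd1 := hom_N.diffAt hx
  have hd2 := (Mb_ip_hom y).diffAt hx
  have hd3 := (hom_conj (Mb_ip_hom y)).diffAt hx
  have e : (fun x : V => ((Mb_G s y x : ℝ) : ℂ)) = fun x =>
      ((1 + s ^ 2 : ℝ) : ℂ) * (N x : ℂ) + (-1) * (ip x y * conj (ip x y)) := by
    funext x
    exact Mb_Gc s y x
  have hd23 : DifferentiableAt ℝ (fun x => ip x y * conj (ip x y)) x := hd2.mul hd3
  rw [e, dz_add j (hd1.const_mul _) (hd23.const_mul _), dz_const_mul j _ hd1,
    dz_const_mul j (-1) hd23, dz_mul j hd2 hd3, dz_N, Mb_dz_ip, Mb_dz_cip]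
  ring

theorem Mb_dzb_G (s : ℝ) (y : V) (j : Fin 3) {x : V} (hx : x ≠ 0) :
    dzb j (fun x => ((Mb_G s y x : ℝ) : ℂ)) x =
      ((1 + s ^ 2 : ℝ) : ℂ) * x j + (-1) * (y j * ip x y) := by
  have hd1 := hom_N.diffAt hx
  have hd2 := (Mb_ip_hom y).diffAt hx
  have hd3 := (hom_conj (Mb_ip_hom y)).diffAt hx
  have e : (fun x : V => ((Mb_G s y x : ℝ) : ℂ)) = fun x =>
      ((1 + s ^ 2 : ℝ) : ℂ) * (N x : ℂ) + (-1) * (ip x y * conj (ip x y)) := by
    funext x
    exact Mb_Gc s y x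
  have hd23 : DifferentiableAt ℝ (fun x => ip x y * conj (ip x y)) x := hd2.mul hd3
  rw [e, dzb_add j (hd1.const_mul _) (hd23.const_mul _), dzb_const_mul j _ hd1,
    dzb_const_mul j (-1) hd23, dzb_mul j hd2 hd3, dzb_N, Mb_dzb_ip, Mb_dzb_cip]
  ring

theorem Mb_real_diff {f : V → ℝ} {x : V} (h : DifferentiableAt ℝ (fun x => ((f x : ℝ) : ℂ)) x) :
    DifferentiableAt ℝ f x := by
  have h1 : DifferentiableAt ℝ (fun x => (((f x : ℝ) : ℂ)).re) x :=
    Complex.reCLM.differentiableAt.comp x h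
  simpa using h1

theorem Mb_isFun {s : ℝ} (hs : 0 < s) {y : V} (hy : N y = 1) : IsFun (Mb_u s y) := by
  constructor
  · have h1 : ContDiffOn ℝ ∞ (fun x : V => Mb_G s y x) {0}ᶜ := by
      have := Complex.reCLM.contDiff.comp_contDiffOn (Mb_hom_G s y).smooth
      simpa [Function.comp_def] using this
    have h2 : ContDiffOn ℝ ∞ (fun x : V => N x) {0}ᶜ := by
      have := Complex.reCLM.contDiff.comp_contDiffOn hom_N.smooth
      simpa [Function.comp_def] using this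
    have h3 : ContDiffOn ℝ ∞ (fun x : V => Real.log (Mb_G s y x / N x)) {0}ᶜ := by
      apply ContDiffOn.log
      · exact h1.div h2 (fun x hx => (N_pos hx).ne')
      · intro x hx
        exact (div_pos (Mb_G_pos hs hy hx) (N_pos hx)).ne'
    have h4 : ContDiffOn ℝ ∞ (fun x : V => ((Real.log (Mb_G s y x / N x) : ℝ) : ℂ)) {0}ᶜ :=
      Complex.ofRealCLM.contDiff.comp_contDiffOn h3
    refine h4.congr fun x hx => ?_
    unfold Mb_u
    rw [Mb_tau hy hx]
  · intro l x hl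
    unfold Mb_u
    rw [tau_smul_left hl]

/-- the first derivatives -/
theorem Mb_dzb_u {s : ℝ} (hs : 0 < s) {y : V} (hy : N y = 1) (k : Fin 3) {x : V} (hx : x ≠ 0) :
    dzb k (Mb_u s y) x =
      (((1 + s ^ 2 : ℝ) : ℂ) * x k + (-1) * (y k * ip x y)) * ((Mb_G s y x : ℝ) : ℂ)⁻¹ +
        (-1) * (x k * (N x : ℂ)⁻¹) := by
  have hG := Mb_G_pos hs hy hx
  have hN := N_pos hx
  have hdG : DifferentiableAt ℝ (Mb_G s y) x := Mb_real_diff ((Mb_hom_G s y).diffAt hx)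
  have hdN : DifferentiableAt ℝ N x := Mb_real_diff (hom_N.diffAt hx)
  have e : ∀ z : V, z ≠ 0 → Mb_u s y z =
      ((Real.log (Mb_G s y z) : ℝ) : ℂ) + (-1) * ((Real.log (N z) : ℝ) : ℂ) := by
    intro z hz
    unfold Mb_u
    rw [Mb_tau hy hz, Real.log_div (Mb_G_pos hs hy hz).ne' (N_pos hz).ne']
    push_cast
    ring
  have d1 : DifferentiableAt ℝ (fun z : V => ((Real.log (Mb_G s y z) : ℝ) : ℂ)) x :=
    Complex.ofRealCLM.differentiableAt.comp x (hdG.log hG.ne')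
  have d2 : DifferentiableAt ℝ (fun z : V => ((Real.log (N z) : ℝ) : ℂ)) x :=
    Complex.ofRealCLM.differentiableAt.comp x (hdN.log hN.ne')
  rw [dzb_congr k hx e, dzb_add k d1 (d2.const_mul _), dzb_const_mul k (-1) d2,
    dzb_comp_real k (Real.hasDerivAt_log hG.ne') hdG, dzb_comp_real k (Real.hasDerivAt_log hN.ne') hdN,
    dzb_N, Mb_dzb_G s y k hx]
  push_cast
  ring

theorem Mb_L {s : ℝ} (hs : 0 < s) {y : V} (hy : N y = 1) {x : V} (hx : x ≠ 0) (j k : Fin 3) :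
    L (Mb_u s y) x j k =
      (((1 + s ^ 2 : ℝ) : ℂ) * (if j = k then 1 else 0) - y k * conj (y j)) *
        ((Mb_G s y x : ℝ) : ℂ)⁻¹ -
      (((1 + s ^ 2 : ℝ) : ℂ) * conj (x j) - conj (y j) * conj (ip x y)) *
        (((1 + s ^ 2 : ℝ) : ℂ) * x k - y k * ip x y) / ((Mb_G s y x : ℝ) : ℂ) ^ 2 - Wm x j k := by
  have hG := Mb_G_pos hs hy hx
  have hN := N_pos hx
  have hGc : ((Mb_G s y x : ℝ) : ℂ) ≠ 0 := by exact_mod_cast hG.ne'
  have hNc : ((N x : ℝ) : ℂ) ≠ 0 := by exact_mod_cast hN.ne'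
  have dk := (hom_coord k).diffAt hx
  have dip := (Mb_ip_hom y).diffAt hx
  have dG := (Mb_hom_G s y).diffAt hx
  have dN := hom_N.diffAt hx
  have dGi : DifferentiableAt ℝ (fun z : V => ((Mb_G s y z : ℝ) : ℂ)⁻¹) x := dG.inv hGc
  have dNi : DifferentiableAt ℝ (fun z : V => ((N z : ℝ) : ℂ)⁻¹) x := dN.inv hNc
  have d1 : DifferentiableAt ℝ (fun z : V => ((1 + s ^ 2 : ℝ) : ℂ) * z k + (-1) * (y k * ip z y)) x :=
    (dk.const_mul _).add ((dip.const_mul _).const_mul _)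
  have d2 : DifferentiableAt ℝ (fun z : V => (((1 + s ^ 2 : ℝ) : ℂ) * z k + (-1) * (y k * ip z y)) *
      ((Mb_G s y z : ℝ) : ℂ)⁻¹) x := d1.mul dGi
  have d3 : DifferentiableAt ℝ (fun z : V => z k * ((N z : ℝ) : ℂ)⁻¹) x := dk.mul dNi
  have d4 : DifferentiableAt ℝ (fun z : V => y k * ip z y) x := dip.const_mul _
  show dz j (dzb k (Mb_u s y)) x = _
  rw [dz_congr j hx (g := fun x =>
      (((1 + s ^ 2 : ℝ) : ℂ) * x k + (-1) * (y k * ip x y)) * ((Mb_G s y x : ℝ) : ℂ)⁻¹ +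
        (-1) * (x k * (N x : ℂ)⁻¹)) (fun z hz => Mb_dzb_u hs hy k hz),
    dz_add j d2 (d3.const_mul _), dz_mul j d1 dGi,
    dz_add j (dk.const_mul _) (d4.const_mul _), dz_const_mul j _ dk,
    dz_const_mul j (-1) d4, dz_const_mul j (y k) dip, Mb_dz_ip, dz_coord,
    dz_inv j dG hGc, Mb_dz_G s y j hx, dz_const_mul j (-1) d3, dz_mul j dk dNi, dz_coord,
    dz_inv j dN hNc, dz_N]
  unfold Wm
  field_simp
  ring

theorem Mb_quad {s : ℝ} (hs : 0 < s) {y : V} (hy : N y = 1) {x w : V} (hx : N x = 1)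
    (hw : N w = 1) (hxw : ip w x = 0) :
    quad (L (Mb_u s y) x) w + quad (Wm x) w =
      (((1 + s ^ 2) * (1 + s ^ 2 - Complex.normSq (ip w y) - Complex.normSq (ip x y)) /
        (tau x y + s ^ 2) ^ 2 : ℝ) : ℂ) := by
  have hx0 : x ≠ 0 := by
    rintro rfl
    simp [N] at hx
  have hG := Mb_G_pos hs hy hx0
  have hGt : tau x y + s ^ 2 = Mb_G s y x := by
    rw [Mb_tau hy hx0, hx, div_one]
  have hGc : ((Mb_G s y x : ℝ) : ℂ) ≠ 0 := by exact_mod_cast hG.ne'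
  have h1 : quad (L (Mb_u s y) x) w + quad (Wm x) w =
      (((1 + s ^ 2 : ℝ) : ℂ) * (∑ j, w j * conj (w j)) - ip w y * conj (ip w y)) *
        ((Mb_G s y x : ℝ) : ℂ)⁻¹ -
      (((1 + s ^ 2 : ℝ) : ℂ) * ip w x - ip w y * conj (ip x y)) *
        (((1 + s ^ 2 : ℝ) : ℂ) * conj (ip w x) - conj (ip w y) * ip x y) /
          ((Mb_G s y x : ℝ) : ℂ) ^ 2 := by
    unfold quad
    simp only [Mb_L hs hy hx0]
    rw [← Finset.sum_add_distrib]
    simp only [← Finset.sum_add_distrib]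
    simp only [ip, Fin.sum_univ_three]
    simp
    ring
  rw [h1, hxw, ← Mb_N, hw, hGt]
  have hGv : ((Mb_G s y x : ℝ) : ℂ) = ((1 + s ^ 2 : ℝ) : ℂ) + (-1) * (ip x y * conj (ip x y)) := by
    rw [Mb_Gc, hx]
    simp
  have hmc : ∀ z : ℂ, ((Complex.normSq z : ℝ) : ℂ) = z * conj z := fun z => (Complex.mul_conj z).symm
  rw [Complex.ofReal_div, Complex.ofReal_pow, eq_div_iff (pow_ne_zero 2 hGc)]
  have h2 : ∀ (a b c d : ℂ), ((a * 1 - c * d) * ((Mb_G s y x : ℝ) : ℂ)⁻¹ - b / ((Mb_G s y x : ℝ) : ℂ) ^ 2) *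
      ((Mb_G s y x : ℝ) : ℂ) ^ 2 = (a - c * d) * ((Mb_G s y x : ℝ) : ℂ) - b := by
    intro a b c d
    field_simp
  rw [Complex.ofReal_one, h2, hGv]
  rw [map_zero]
  push_cast
  rw [hmc, hmc]
  ring

theorem mass_bound {F : Fin 3 → MvPolynomial (Fin 3) ℂ} {μ : Measure V} (hμ : IsCur F μ)
    (hd : DdcClosed F μ) {y : V} (hy : N y = 1) {s : ℝ} (hs : 0 < s) :
    (μ {x | tau x y < s ^ 2}).toReal ≤ 4 * s ^ 2 := by
  have hprob : IsProbabilityMeasure μ := ⟨hμ.prob⟩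
  have hfun := Mb_isFun hs hy
  have hint : Integrable (pr F (L (Mb_u s y))) μ := pr_int (form_L hfun) hμ
  have hzero := hd _ hfun
  have hs2 : 0 < s ^ 2 := by positivity
  -- the pointwise identity
  have hpt : ∀ᵐ x ∂μ, ∃ a b : ℝ, 0 ≤ a ∧ a + b ≤ 1 ∧ tau x y = 1 - b ∧
      (pr F (L (Mb_u s y)) x).re + 1 = (1 + s ^ 2) * (1 + s ^ 2 - a - b) / (tau x y + s ^ 2) ^ 2 := by
    filter_upwards [hμ.sphere, hμ.sing] with x hx hsing
    have hw := wv_unit hx hsing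
    have ho := wv_orth (F := F) hx
    have hb := bessel hx hw ho (y := y)
    have hq := Mb_quad hs hy hx hw ho
    rw [hy] at hb
    refine ⟨Complex.normSq (ip (wv F x) y), Complex.normSq (ip x y), Complex.normSq_nonneg _,
      by linarith, by unfold tau; rw [hx, hy]; simp, ?_⟩
    rw [← pr_eq (form_L hfun) hx, ← pr_eq form_Wm hx, pr_Wm hx hsing] at hq
    have := congrArg Complex.re hq
    rw [Complex.add_re, Complex.one_re, Complex.ofReal_re] at this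
    exact this
  have hf0 : 0 ≤ᵐ[μ] fun x => (pr F (L (Mb_u s y)) x).re + 1 := by
    filter_upwards [hpt] with x hx
    obtain ⟨a, b, ha, hab, ht, he⟩ := hx
    simp only [Pi.zero_apply]
    rw [he]
    have : 0 ≤ 1 + s ^ 2 - a - b := by linarith
    positivity
  have hre : Integrable (fun x => (pr F (L (Mb_u s y)) x).re) μ := hint.re
  have hfi : Integrable (fun x => (pr F (L (Mb_u s y)) x).re + 1) μ :=
    hre.add (integrable_const 1)
  have hI : ∫ x, ((pr F (L (Mb_u s y)) x).re + 1) ∂μ = 1 := by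
    rw [integral_add hre (integrable_const 1)]
    have h1 : ∫ x, (pr F (L (Mb_u s y)) x).re ∂μ = 0 := by
      have := integral_re hint
      simp only [RCLike.re_to_complex] at this
      rw [this, hzero, Complex.zero_re]
    rw [h1]
    simp
  have hM := mul_meas_ge_le_integral_of_nonneg hf0 hfi (1 / (4 * s ^ 2))
  rw [hI] at hM
  have hsub : μ {x | tau x y < s ^ 2} ≤
      μ {x | 1 / (4 * s ^ 2) ≤ (pr F (L (Mb_u s y)) x).re + 1} := by
    apply measure_mono_ae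
    filter_upwards [hpt] with x hx hxt
    obtain ⟨a, b, ha, hab, ht, he⟩ := hx
    have hxt' : tau x y < s ^ 2 := hxt
    show 1 / (4 * s ^ 2) ≤ (pr F (L (Mb_u s y)) x).re + 1
    rw [he]
    have ht0 := tau_nonneg x y
    have h3 : 0 < tau x y + s ^ 2 := by positivity
    rw [div_le_div_iff₀ (by positivity) (by positivity), one_mul]
    have h4 : (tau x y + s ^ 2) ^ 2 ≤ (2 * s ^ 2) ^ 2 := by
      apply pow_le_pow_left₀ h3.le
      linarith
    have h5 : s ^ 2 ≤ (1 + s ^ 2) * (1 + s ^ 2 - a - b) := by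
      have : s ^ 2 ≤ 1 + s ^ 2 - a - b := by linarith
      nlinarith
    calc (tau x y + s ^ 2) ^ 2 ≤ (2 * s ^ 2) ^ 2 := h4
      _ = s ^ 2 * (4 * s ^ 2) := by ring
      _ ≤ _ := mul_le_mul_of_nonneg_right h5 (by positivity)
  have h6 : (μ {x | tau x y < s ^ 2}).toReal ≤
      μ.real {x | 1 / (4 * s ^ 2) ≤ (pr F (L (Mb_u s y)) x).re + 1} := by
    unfold Measure.real
    exact ENNReal.toReal_mono (measure_ne_top _ _) hsub
  refine h6.trans ?_
  have h7 : 1 / (4 * s ^ 2) * μ.real {x | 1 / (4 * s ^ 2) ≤ (pr F (L (Mb_u s y)) x).re + 1} ≤ 1 := hM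
  rw [div_mul_eq_mul_div, one_mul, div_le_one (by positivity)] at h7
  exact h7

end Pool.Agent.H85.DC
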