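import Pool.Agent.H85.DC.HFac

/-!
# Row Adj: the wedge product of pulled back matrices

`e2 A = (1/2) (tr A)^2 - (1/2) tr (A*A)`, so `ee A B = e2 (A+B) - e2 A - e2 B`; and `e2 A = (adjugate A).trace`
(`3 × 3`, expand with `Matrix.adjugate_fin_three` or `Matrix.trace_fin_three`, `ring`).
`adj_kill`: if `∑_j x_j A_jk = 0` for all `k` and `∑_k A_jk conj(x_k) = 0` for all `j`, then
`N x • adjugate A = (adjugate A).trace • (conj(x_j) x_k)_{jk}`.
Proof. Put `C = adjugate A`, `C_kj` = the `(j,k)` cofactor. From `∑_j x_j A_j• = 0` (rows of `A`):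
`x_i C_kj = x_j C_ki` for all `i, j, k` (each is a `2 × 2` determinant identity: e.g. the rows `A_0, A_1, A_2`, `x_0 A_0 + x_1 A_1 + x_2 A_2 = 0`
gives `x_0 (A_0 × A_2) + x_1 (A_1 × A_2) = 0`; prove with `adjugate_fin_three` and `linear_combination` of the three linear
relations, coefficients = entries of `A`). From the columns: `conj(x_l) C_kj = conj(x_k) C_lj`. Hence
`x_i conj(x_i) C_kj = x_j conj(x_i) C_ki = x_j conj(x_k) C_ii`, sum over `i`: `N x * C_kj = conj(x_k) x_j * tr C`.
`ee_pull_pt`: let `My = x ≠ 0` and let `A, B` kill `x` on both sides. `e2 (Mᵀ A M̄) = tr (adj M̄ * adj A * adj Mᵀ)`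
(`Matrix.adjugate_mul_distrib`), and `N x * adj A = e2 A * conj(x) x^T`, so
`N x * e2 (Mᵀ A M̄) = e2 A * tr ((adj M̄ x̄) (x^T adj Mᵀ))`; `adj M̄ x̄ = adj M̄ M̄ ȳ = det M̄ ȳ`, `x^T adj Mᵀ = (adj M x)^T = det M y^T`;
so `N x * e2 (Mᵀ A M̄) = e2 A * |det M|^2 * N y`. Polarise (`A`, `B`, `A + B` all kill `x`).
-/

open MeasureTheory
open scoped ContDiff BigOperators ComplexConjugate Matrix

namespace Pool.Agent.H85.DC

/-- The cross product. -/
noncomputable def Adj_cr (a b : V) : V :=
  ![a 1 * b 2 - a 2 * b 1, a 2 * b 0 - a 0 * b 2, a 0 * b 1 - a 1 * b 0]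

theorem Adj_cr_prop {x a b : V} (ha : ∑ j, x j * a j = 0) (hb : ∑ j, x j * b j = 0) (i j : Fin 3) :
    x i * Adj_cr a b j = x j * Adj_cr a b i := by
  rw [Fin.sum_univ_three] at ha hb
  have e01 : x 0 * (a 2 * b 0 - a 0 * b 2) = x 1 * (a 1 * b 2 - a 2 * b 1) := by
    linear_combination a 2 * hb - b 2 * ha
  have e12 : x 1 * (a 0 * b 1 - a 1 * b 0) = x 2 * (a 2 * b 0 - a 0 * b 2) := by
    linear_combination a 0 * hb - b 0 * ha
  have e20 : x 2 * (a 1 * b 2 - a 2 * b 1) = x 0 * (a 0 * b 1 - a 1 * b 0) := by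
    linear_combination a 1 * hb - b 1 * ha
  unfold Adj_cr
  fin_cases i <;> fin_cases j <;>
    simp only [Fin.zero_eta, Fin.mk_one, Fin.reduceFinMk, Matrix.cons_val_zero,
      Matrix.cons_val_one, Matrix.cons_val] <;>
    first
      | exact e01
      | exact e01.symm
      | exact e12
      | exact e12.symm
      | exact e20
      | exact e20.symm

theorem Adj_col {A : M3} {x : V} (hA : ∀ k, ∑ j, x j * A j k = 0) (i j k : Fin 3) :
    x i * Matrix.adjugate A k j = x j * Matrix.adjugate A k i := by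
  have h0 : ∀ j, Matrix.adjugate A 0 j = Adj_cr (fun j => A j 1) (fun j => A j 2) j := by
    intro j
    rw [Matrix.adjugate_fin_three]
    unfold Adj_cr
    fin_cases j <;> simp <;> ring
  have h1 : ∀ j, Matrix.adjugate A 1 j = Adj_cr (fun j => A j 2) (fun j => A j 0) j := by
    intro j
    rw [Matrix.adjugate_fin_three]
    unfold Adj_cr
    fin_cases j <;> simp <;> ring
  have h2 : ∀ j, Matrix.adjugate A 2 j = Adj_cr (fun j => A j 0) (fun j => A j 1) j := by
    intro j
    rw [Matrix.adjugate_fin_three]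
    unfold Adj_cr
    fin_cases j <;> simp <;> ring
  fin_cases k
  · show x i * Matrix.adjugate A 0 j = x j * Matrix.adjugate A 0 i
    rw [h0, h0]
    exact Adj_cr_prop (hA 1) (hA 2) i j
  · show x i * Matrix.adjugate A 1 j = x j * Matrix.adjugate A 1 i
    rw [h1, h1]
    exact Adj_cr_prop (hA 2) (hA 0) i j
  · show x i * Matrix.adjugate A 2 j = x j * Matrix.adjugate A 2 i
    rw [h2, h2]
    exact Adj_cr_prop (hA 0) (hA 1) i j

theorem Adj_row {A : M3} {x : V} (hA : ∀ j, ∑ k, A j k * x k = 0) (i j k : Fin 3) :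
    x i * Matrix.adjugate A k j = x k * Matrix.adjugate A i j := by
  have h := Adj_col (A := Aᵀ) (x := x) (fun k => by
    rw [← hA k]
    exact Finset.sum_congr rfl fun j _ => mul_comm _ _) i k j
  rw [← Matrix.adjugate_transpose] at h
  exact h

theorem Adj_kill {A : M3} {x : V} (hA : ∀ k, ∑ j, x j * A j k = 0)
    (hA' : ∀ j, ∑ k, A j k * conj (x k) = 0) :
    (N x : ℂ) • Matrix.adjugate A =
      (Matrix.adjugate A).trace • Matrix.vecMulVec (fun k => conj (x k)) x := by
  ext k j
  rw [Matrix.smul_apply, Matrix.smul_apply, Matrix.vecMulVec_apply, smul_eq_mul, smul_eq_mul,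
    HomA_N, Matrix.trace, Finset.sum_mul, Finset.sum_mul]
  refine Finset.sum_congr rfl fun i _ => ?_
  have h1 := Adj_col hA i j k
  have h2 := Adj_row (x := fun k => conj (x k)) hA' i i k
  simp only [Matrix.diag_apply]
  linear_combination conj (x i) * h1 + x j * h2

theorem Adj_ee (A B : M3) :
    ee A B = (Matrix.adjugate (A + B)).trace - (Matrix.adjugate A).trace -
      (Matrix.adjugate B).trace := by
  unfold ee
  rw [Matrix.adjugate_fin_three, Matrix.adjugate_fin_three, Matrix.adjugate_fin_three,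
    Matrix.trace_fin_three_of, Matrix.trace_fin_three_of, Matrix.trace_fin_three_of,
    Matrix.trace_fin_three, Matrix.trace_fin_three, Matrix.trace_fin_three]
  simp only [Matrix.mul_apply, Fin.sum_univ_three, Matrix.add_apply]
  ring

theorem Adj_e2 (M : M3) {x y : V} (hy : M.mulVec y = x) {A : M3}
    (hA : ∀ k, ∑ j, x j * A j k = 0) (hA' : ∀ j, ∑ k, A j k * conj (x k) = 0) :
    (N x : ℂ) * (Matrix.adjugate (Mᵀ * A * M.map conj)).trace =
      ((Complex.normSq M.det * N y : ℝ) : ℂ) * (Matrix.adjugate A).trace := by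
  have h1 : (N x : ℂ) • Matrix.adjugate (Mᵀ * A * M.map conj) =
      (Matrix.adjugate A).trace • Matrix.vecMulVec
        ((Matrix.adjugate (M.map conj)).mulVec (fun k => conj (x k)))
        ((Matrix.adjugate M).mulVec x) := by
    rw [Matrix.adjugate_mul_distrib, Matrix.adjugate_mul_distrib, ← Matrix.mul_smul,
      ← Matrix.smul_mul, Adj_kill hA hA', Matrix.smul_mul, Matrix.mul_smul,
      Matrix.vecMulVec_mul, Matrix.mul_vecMulVec, ← Matrix.adjugate_transpose,
      Matrix.vecMul_transpose]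
  have h2 : (Matrix.adjugate M).mulVec x = M.det • y := by
    rw [← hy, Matrix.mulVec_mulVec, Matrix.adjugate_mul, Matrix.smul_mulVec, Matrix.one_mulVec]
  have h3 : (fun k => conj (x k)) = (M.map conj).mulVec (fun k => conj (y k)) := by
    funext k
    rw [← hy]
    simp [Matrix.mulVec, dotProduct]
  have h4 : (M.map conj).det = conj M.det := by
    have := (RingHom.map_det (starRingEnd ℂ) M).symm
    exact this
  have h5 : (Matrix.adjugate (M.map conj)).mulVec (fun k => conj (x k)) =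
      conj M.det • (fun k => conj (y k)) := by
    rw [h3, Matrix.mulVec_mulVec, Matrix.adjugate_mul, Matrix.smul_mulVec, Matrix.one_mulVec, h4]
  rw [h2, h5] at h1
  have h6 := congrArg Matrix.trace h1
  rw [Matrix.trace_smul, Matrix.trace_smul, smul_eq_mul, smul_eq_mul, Matrix.trace_vecMulVec] at h6
  rw [h6]
  push_cast
  rw [← Complex.mul_conj, HomA_N, mul_comm]
  congr 1
  simp only [dotProduct, Pi.smul_apply, smul_eq_mul]
  rw [Finset.mul_sum]
  refine Finset.sum_congr rfl fun i _ => ?_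
  ring

theorem ee_pull_pt (M : M3) {x y : V} (hy : M.mulVec y = x) (hx : x ≠ 0) {A B : M3}
    (hA : ∀ k, ∑ j, x j * A j k = 0) (hA' : ∀ j, ∑ k, A j k * conj (x k) = 0)
    (hB : ∀ k, ∑ j, x j * B j k = 0) (hB' : ∀ j, ∑ k, B j k * conj (x k) = 0) :
    ee (Mᵀ * A * M.map conj) (Mᵀ * B * M.map conj) =
      ((Complex.normSq M.det * (N y / N x) : ℝ) : ℂ) * ee A B := by
  have hAB : ∀ k, ∑ j, x j * (A + B) j k = 0 := by
    intro k
    have h : ∑ j, x j * (A + B) j k = ∑ j, x j * A j k + ∑ j, x j * B j k := by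
      rw [← Finset.sum_add_distrib]
      refine Finset.sum_congr rfl fun j _ => ?_
      rw [Matrix.add_apply, mul_add]
    rw [h, hA, hB, add_zero]
  have hAB' : ∀ j, ∑ k, (A + B) j k * conj (x k) = 0 := by
    intro j
    have h : ∑ k, (A + B) j k * conj (x k) = ∑ k, A j k * conj (x k) + ∑ k, B j k * conj (x k) := by
      rw [← Finset.sum_add_distrib]
      refine Finset.sum_congr rfl fun k _ => ?_
      rw [Matrix.add_apply, add_mul]
    rw [h, hA', hB', add_zero]
  have e1 := Adj_e2 M hy hA hA'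
  have e2 := Adj_e2 M hy hB hB'
  have e3 := Adj_e2 M hy hAB hAB'
  have hN : (N x : ℂ) ≠ 0 := by exact_mod_cast (N_pos hx).ne'
  have h7 : Mᵀ * (A + B) * M.map conj = Mᵀ * A * M.map conj + Mᵀ * B * M.map conj := by
    rw [Matrix.mul_add, Matrix.add_mul]
  rw [h7] at e3
  have h8 : ((Complex.normSq M.det * (N y / N x) : ℝ) : ℂ) =
      ((Complex.normSq M.det * N y : ℝ) : ℂ) / (N x : ℂ) := by
    push_cast
    ring
  rw [h8, Adj_ee, Adj_ee, div_mul_eq_mul_div, eq_div_iff hN]
  linear_combination e3 - e1 - e2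

end Pool.Agent.H85.DC
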