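import Pool.Agent.H85.DC.LosA

/-!
# Row AdmI: admissibility from finite energy

`Adm F μ μ' P`: for all `ρ, r, η > 0` (`ρ ≤ 1/2`) there is `ε0` such that for `ε < ε0` there is `s1 ≥ 1` with `(1 + En (μ+μ') P r ε)/s1 ≤ η` and `Loss F μ μ' P (ρ^2 e^{-(6 s1+1)}/2) ε ≤ η`.

Assume `FinEnergy F (μ + μ')`, `m = μ + μ'`.
(1) `En m P r ε ≤ B(r)` for all `ε > 0`: wlog `r ≤ 1` (if `r > 1` and `P` nonempty, `Kr P r = ∅` since `tau ≤ 1`; if `P` is empty, `Kr P r` does not depend on `r`); `Kr P r ⊆ {y | c r^M ≤ N (eta F y)}` (`nullst_Kr`), `(tau + ε^2)⁻¹ ≤ tau⁻¹`, so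
`En ≤ (∫⁻_{A} ∫⁻_{A} (ofReal tau)⁻¹ dm dm).toReal < ∞`, `A = {y | c r^M ≤ N (eta F y)}`.
Given `ρ, r, η`: `s1 := max 1 ((1 + B(r))/η)`, fixed; `r0 := ρ^2 e^{-(6 s1+1)}/2` fixed.
(2) `Loss F μ μ' P r0 ε → 0` as `ε → 0`: by `loss_bound` it suffices that `ε^{-2} Tr μ μ' P (r0/4) ε → 0` (`ε^{-8} e^{-r0/(4ε^2)} → 0`). For `y ∈ Kr P (r0/4)`:
- if `y' ∉ Kr P (r0/16)` (`y'` unit): some `p` has `tau y' p < r0/16`, so `√tau(y,y') ≥ √r0/2 - √r0/4`, `tau y y' ≥ r0/16`: the integrand is `≤ e^{-r0/(128ε^2)}`, times `ε^{-2}` `→ 0`.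
- if `y' ∈ Kr P (r0/16)`: both in `A' = {N (eta F ·) ≥ c (r0/16)^M}`. `ε^{-2} e^{-τ/(8ε^2)} ≤ 8/τ` for `τ > 0` (`t e^{-t} ≤ 1`), and `→ 0` pointwise for `τ > 0`; the set `τ(y,y') = 0` has measure zero in
`A' × A'` for `m × m` (where `(ofReal τ)⁻¹ = ⊤`; finite energy), dominated convergence (`tendsto_lintegral_of_dominated…` or for Bochner integrals on the product `μ.prod μ'` restricted to `A' ×ˢ A'`), dominating function
`8/τ`, integrable by `FinEnergy` (`μ, μ' ≤ m`; `lintegral` of a product measure, measurability `measurable_tau`).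
-/

open MeasureTheory
open scoped ContDiff BigOperators ComplexConjugate Matrix

namespace Pool.Agent.H85.DC

/-- Admissible pairs of currents. -/
def Adm (F : Fin 3 → MvPolynomial (Fin 3) ℂ) (μ μ' : Measure V) (P : Finset V) : Prop :=
  ∀ ρ r η : ℝ, 0 < ρ → ρ ≤ 1 / 2 → 0 < r → 0 < η → ∃ ε0 : ℝ, 0 < ε0 ∧ ∀ ε : ℝ, 0 < ε → ε < ε0 →
    ∃ s1 : ℝ, 1 ≤ s1 ∧ (1 + En (μ + μ') P r ε) / s1 ≤ η ∧
      Loss F μ μ' P (ρ ^ 2 * Real.exp (-(6 * s1 + 1)) / 2) ε ≤ η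

theorem adm_symm {F : Fin 3 → MvPolynomial (Fin 3) ℂ} {μ μ' : Measure V} {P : Finset V}
    (h : Adm F μ μ' P) : Adm F μ' μ P := by
  intro ρ r η h1 h2 h3 h4
  obtain ⟨ε0, h5, h6⟩ := h ρ r η h1 h2 h3 h4
  refine ⟨ε0, h5, fun ε h7 h8 => ?_⟩
  obtain ⟨s1, h9, h10, h11⟩ := h6 ε h7 h8
  refine ⟨s1, h9, ?_, ?_⟩
  · rw [add_comm μ' μ]
    exact h10
  · rw [loss_symm]
    exact h11

theorem AdmI_le {μ : Measure V} {f : V → ℝ} (hf : ∀ y, 0 ≤ f y) :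
    ENNReal.ofReal (∫ y, f y ∂μ) ≤ ∫⁻ y, ENNReal.ofReal (f y) ∂μ := by
  have h1 : ENNReal.ofReal (∫ y, f y ∂μ) = ‖∫ y, f y ∂μ‖ₑ := by
    rw [Real.enorm_of_nonneg (integral_nonneg hf)]
  rw [h1]
  refine (enorm_integral_le_lintegral_enorm _).trans (lintegral_mono fun y => ?_)
  rw [Real.enorm_of_nonneg (hf y)]

theorem AdmI_En {F : Fin 3 → MvPolynomial (Fin 3) ℂ} {P : Finset V} (hP : SingPts F P)
    {m : Measure V} (h : FinEnergy F m) {r : ℝ} (hr : 0 < r) :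
    ∃ B : ℝ, 0 ≤ B ∧ ∀ ε : ℝ, 0 < ε → En m P r ε ≤ B := by
  obtain ⟨c, M, hc, hK⟩ := nullst_Kr hP
  have hr' : 0 < min r 1 := lt_min hr one_pos
  have hfin := h (c * (min r 1) ^ M) (by positivity)
  have hsub : Kr P r ⊆ {y | c * (min r 1) ^ M ≤ N (eta F y)} := fun y hy =>
    hK (min r 1) hr' (min_le_right _ _) y ⟨hy.1, fun p hp => (min_le_left _ _).trans (hy.2 p hp)⟩
  refine ⟨_, ENNReal.toReal_nonneg, fun ε hε => (ENNReal.ofReal_le_iff_le_toReal hfin.ne).1 ?_⟩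
  have hnn : ∀ y y' : V, 0 ≤ (tau y y' + ε ^ 2)⁻¹ := fun y y' => by
    have := tau_nonneg y y'
    positivity
  unfold En
  refine (AdmI_le fun y => integral_nonneg fun y' => hnn y y').trans ?_
  refine lintegral_mono' (Measure.restrict_mono hsub le_rfl) fun y => ?_
  refine (AdmI_le fun y' => hnn y y').trans ?_
  refine lintegral_mono' (Measure.restrict_mono hsub le_rfl) fun y' => ?_
  have ht := tau_nonneg y y'
  rw [ENNReal.ofReal_inv_of_pos (by positivity)]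
  exact ENNReal.inv_le_inv.2 (ENNReal.ofReal_le_ofReal (by nlinarith [sq_nonneg ε]))

theorem AdmI_lim (n : ℕ) {c : ℝ} (hc : 0 < c) :
    Filter.Tendsto (fun ε : ℝ => (ε⁻¹) ^ (2 * n) * Real.exp (-c / ε ^ 2)) (nhdsWithin 0 (Set.Ioi 0))
      (nhds 0) := by
  have h1 : Filter.Tendsto (fun ε : ℝ => c * (ε⁻¹) ^ 2) (nhdsWithin 0 (Set.Ioi 0)) Filter.atTop :=
    Filter.Tendsto.const_mul_atTop hc
      ((Filter.tendsto_pow_atTop two_ne_zero).comp tendsto_inv_nhdsGT_zero)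
  have h2 := ((Real.tendsto_pow_mul_exp_neg_atTop_nhds_zero n).comp h1).const_mul ((c⁻¹) ^ n)
  rw [mul_zero] at h2
  refine h2.congr fun ε => ?_
  have h3 : -(c * (ε⁻¹) ^ 2) = -c / ε ^ 2 := by
    rw [inv_pow]
    ring
  show (c⁻¹) ^ n * ((c * (ε⁻¹) ^ 2) ^ n * Real.exp (-(c * (ε⁻¹) ^ 2))) = _
  rw [h3, mul_pow, ← mul_assoc, ← mul_assoc, ← mul_pow, inv_mul_cancel₀ hc.ne', one_pow, one_mul,
    ← pow_mul]

theorem AdmI_dom {ε t : ℝ} (hε : 0 < ε) (ht : 0 ≤ t) :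
    ENNReal.ofReal ((ε⁻¹) ^ 2 * Real.exp (-t / (8 * ε ^ 2))) ≤ 8 * (ENNReal.ofReal t)⁻¹ := by
  rcases ht.lt_or_eq with h | h
  · have h1 : (8 : ENNReal) * (ENNReal.ofReal t)⁻¹ = ENNReal.ofReal (8 * t⁻¹) := by
      rw [ENNReal.ofReal_mul (by norm_num), ENNReal.ofReal_inv_of_pos h]
      norm_num
    rw [h1]
    apply ENNReal.ofReal_le_ofReal
    have h2 := Real.add_one_le_exp (t / (8 * ε ^ 2))
    have h3 : -t / (8 * ε ^ 2) = -(t / (8 * ε ^ 2)) := by ring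
    rw [h3, Real.exp_neg]
    have h4 : 0 < t / (8 * ε ^ 2) := by positivity
    have h5 : (Real.exp (t / (8 * ε ^ 2)))⁻¹ ≤ (t / (8 * ε ^ 2))⁻¹ := inv_anti₀ h4 (by linarith)
    calc (ε⁻¹) ^ 2 * (Real.exp (t / (8 * ε ^ 2)))⁻¹ ≤ (ε⁻¹) ^ 2 * (t / (8 * ε ^ 2))⁻¹ :=
          mul_le_mul_of_nonneg_left h5 (by positivity)
      _ = 8 * t⁻¹ := by
          field_simp
  · rw [← h, ENNReal.ofReal_zero, ENNReal.inv_zero, ENNReal.mul_top (by norm_num)]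
    exact le_top

theorem AdmI_tri {x y z : V} (hx : x ≠ 0) (hy : y ≠ 0) (hz : z ≠ 0) {a : ℝ} (ha0 : 0 ≤ a)
    (ha : a ≤ tau x z) (h : tau y z ≤ a / 4) : a / 4 ≤ tau x y := by
  have h1 := tau_metric hx hy hz
  have h2 : Real.sqrt a ≤ Real.sqrt (tau x z) := Real.sqrt_le_sqrt ha
  have h3 : (Real.sqrt a) ^ 2 = a := Real.sq_sqrt ha0
  have h4 : Real.sqrt (tau y z) ≤ Real.sqrt a / 2 := by
    rw [Real.sqrt_le_left (by positivity)]
    rw [div_pow, h3]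
    linarith
  have h5 : Real.sqrt a / 2 ≤ Real.sqrt (tau x y) := by linarith
  have h6 : (Real.sqrt a / 2) ^ 2 ≤ (Real.sqrt (tau x y)) ^ 2 :=
    pow_le_pow_left₀ (by positivity) h5 2
  rw [Real.sq_sqrt (tau_nonneg x y), div_pow, h3] at h6
  linarith

theorem AdmI_ne {y : V} (h : N y = 1) : y ≠ 0 := by
  rintro rfl
  simp [N] at h

/-- the main integral tends to zero -/
theorem AdmI_J {F : Fin 3 → MvPolynomial (Fin 3) ℂ} {m : Measure V} [IsFiniteMeasure m]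
    (h : FinEnergy F m) {a : ℝ} (ha : 0 < a) :
    Filter.Tendsto (fun ε : ℝ => ∫⁻ y in {y | a ≤ N (eta F y)}, ∫⁻ y' in {y' | a ≤ N (eta F y')},
      ENNReal.ofReal ((ε⁻¹) ^ 2 * Real.exp (-(tau y y') / (8 * ε ^ 2))) ∂m ∂m)
      (nhdsWithin 0 (Set.Ioi 0)) (nhds 0) := by
  set A : Set V := {y | a ≤ N (eta F y)} with hA
  have hmeas : ∀ ε : ℝ, Measurable fun q : V × V =>
      ENNReal.ofReal ((ε⁻¹) ^ 2 * Real.exp (-(tau q.1 q.2) / (8 * ε ^ 2))) := by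
    intro ε
    exact (((measurable_tau.neg.div_const _).exp).const_mul _).ennreal_ofReal
  have hbm : Measurable fun q : V × V => (ENNReal.ofReal (tau q.1 q.2))⁻¹ :=
    measurable_tau.ennreal_ofReal.inv
  have h1 : ∀ ε : ℝ, ∫⁻ y in A, ∫⁻ y' in A,
      ENNReal.ofReal ((ε⁻¹) ^ 2 * Real.exp (-(tau y y') / (8 * ε ^ 2))) ∂m ∂m =
      ∫⁻ q, ENNReal.ofReal ((ε⁻¹) ^ 2 * Real.exp (-(tau q.1 q.2) / (8 * ε ^ 2))) ∂((m.restrict A).prod (m.restrict A)) := by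
    intro ε
    rw [lintegral_prod _ (hmeas ε).aemeasurable]
  have hfin : ∫⁻ q, (ENNReal.ofReal (tau q.1 q.2))⁻¹ ∂((m.restrict A).prod (m.restrict A)) < ⊤ := by
    rw [lintegral_prod _ hbm.aemeasurable]
    exact h a ha
  simp only [h1]
  have h2 := tendsto_lintegral_filter_of_dominated_convergence (μ := (m.restrict A).prod (m.restrict A))
    (l := nhdsWithin (0 : ℝ) (Set.Ioi 0))
    (F := fun ε (q : V × V) =>
      ENNReal.ofReal ((ε⁻¹) ^ 2 * Real.exp (-(tau q.1 q.2) / (8 * ε ^ 2)))) (f := fun _ => 0)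
    (fun q => 8 * (ENNReal.ofReal (tau q.1 q.2))⁻¹)
    (Filter.Eventually.of_forall fun ε => hmeas ε) ?_ ?_ ?_
  · simpa using h2
  · filter_upwards [self_mem_nhdsWithin] with ε hε
    exact Filter.Eventually.of_forall fun q => AdmI_dom hε (tau_nonneg _ _)
  · rw [lintegral_const_mul _ hbm]
    exact ENNReal.mul_ne_top (by norm_num) hfin.ne
  · filter_upwards [ae_lt_top hbm hfin.ne] with q hq
    have hq0 : 0 < tau q.1 q.2 := by
      rcases (tau_nonneg q.1 q.2).lt_or_eq with h3 | h3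
      · exact h3
      · rw [← h3, ENNReal.ofReal_zero, ENNReal.inv_zero] at hq
        exact absurd hq (lt_irrefl _)
    have h4 := AdmI_lim 1 (c := tau q.1 q.2 / 8) (by positivity)
    have h5 := (ENNReal.continuous_ofReal.tendsto 0).comp h4
    rw [ENNReal.ofReal_zero] at h5
    refine h5.congr fun ε => ?_
    show ENNReal.ofReal ((ε⁻¹) ^ (2 * 1) * Real.exp (-(tau q.1 q.2 / 8) / ε ^ 2)) = _
    congr 2
    congr 1
    rw [neg_div, neg_div, div_div]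

theorem AdmI_T {F : Fin 3 → MvPolynomial (Fin 3) ℂ} {P : Finset V} (hP : SingPts F P)
    {μ μ' : Measure V} (hμ : IsCur F μ) (hμ' : IsCur F μ') (h : FinEnergy F (μ + μ')) {r : ℝ}
    (hr : 0 < r) (hr1 : r ≤ 1) {δ : ℝ} (hδ : 0 < δ) :
    ∀ᶠ ε in nhdsWithin (0 : ℝ) (Set.Ioi 0), (ε⁻¹) ^ 2 * Tr μ μ' P r ε < δ := by
  haveI : IsProbabilityMeasure μ := ⟨hμ.prob⟩
  haveI : IsProbabilityMeasure μ' := ⟨hμ'.prob⟩
  obtain ⟨c, M, hc, hK⟩ := nullst_Kr hP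
  have ha : 0 < c * (r / 4) ^ M := by positivity
  have hJ := AdmI_J h ha
  have hE := AdmI_lim 1 (c := r / 32) (by positivity)
  have hE' := (ENNReal.continuous_ofReal.tendsto 0).comp hE
  rw [ENNReal.ofReal_zero] at hE'
  have hsum := hJ.add hE'
  rw [add_zero] at hsum
  have hlt := hsum.eventually_lt_const (ENNReal.ofReal_pos.2 hδ)
  filter_upwards [hlt, self_mem_nhdsWithin] with ε h1 hε
  have hε0 : 0 < ε := hε
  rw [← ENNReal.ofReal_lt_ofReal_iff hδ]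
  refine lt_of_le_of_lt ?_ h1
  have hnn : ∀ y y' : V, 0 ≤ (ε⁻¹) ^ 2 * Real.exp (-(tau y y') / (8 * ε ^ 2)) := fun y y' => by
    positivity
  have hTr : (ε⁻¹) ^ 2 * Tr μ μ' P r ε =
      ∫ y in Kr P r, ∫ y', (ε⁻¹) ^ 2 * Real.exp (-(tau y y') / (8 * ε ^ 2)) ∂μ' ∂μ := by
    unfold Tr
    rw [← integral_const_mul]
    simp only [integral_const_mul]
  rw [hTr]
  refine (AdmI_le fun y => integral_nonneg fun y' => hnn y y').trans ?_
  have hsub1 : Kr P r ⊆ {y | c * (r / 4) ^ M ≤ N (eta F y)} := fun y hy =>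
    hK (r / 4) (by positivity) (by linarith) y ⟨hy.1, fun p hp => by
      have := hy.2 p hp
      linarith⟩
  have hsub2 : Kr P (r / 4) ⊆ {y | c * (r / 4) ^ M ≤ N (eta F y)} := fun y hy =>
    hK (r / 4) (by positivity) (by linarith) y hy
  have hm1 : μ.restrict (Kr P r) ≤ (μ + μ').restrict {y | c * (r / 4) ^ M ≤ N (eta F y)} :=
    Measure.restrict_mono hsub1 (Measure.le_add_right le_rfl)
  have hm2 : μ'.restrict (Kr P (r / 4)) ≤ (μ + μ').restrict {y | c * (r / 4) ^ M ≤ N (eta F y)} :=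
    Measure.restrict_mono hsub2 (Measure.le_add_left le_rfl)
  have hin : ∀ y ∈ Kr P r, ENNReal.ofReal
      (∫ y', (ε⁻¹) ^ 2 * Real.exp (-(tau y y') / (8 * ε ^ 2)) ∂μ') ≤
      (∫⁻ y' in {y | c * (r / 4) ^ M ≤ N (eta F y)},
        ENNReal.ofReal ((ε⁻¹) ^ 2 * Real.exp (-(tau y y') / (8 * ε ^ 2))) ∂(μ + μ')) +
      ENNReal.ofReal ((ε⁻¹) ^ (2 * 1) * Real.exp (-(r / 32) / ε ^ 2)) := by
    intro y hy
    refine (AdmI_le fun y' => hnn y y').trans ?_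
    rw [← lintegral_add_compl _ (Kr_meas P (r / 4))]
    refine add_le_add (lintegral_mono' hm2 fun y' => le_rfl) ?_
    have hb : ∀ᵐ y' ∂μ', y' ∈ (Kr P (r / 4))ᶜ →
        ENNReal.ofReal ((ε⁻¹) ^ 2 * Real.exp (-(tau y y') / (8 * ε ^ 2))) ≤
        ENNReal.ofReal ((ε⁻¹) ^ (2 * 1) * Real.exp (-(r / 32) / ε ^ 2)) := by
      filter_upwards [hμ'.sphere] with y' hy' hnot
      obtain ⟨p, hp, hlt'⟩ : ∃ p ∈ P, tau y' p < r / 4 := by
        by_contra hcon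
        push Not at hcon
        exact hnot ⟨hy', hcon⟩
      have h2 := AdmI_tri (AdmI_ne hy.1) (AdmI_ne hy') (AdmI_ne (hP.unit p hp)) hr.le (hy.2 p hp)
        hlt'.le
      apply ENNReal.ofReal_le_ofReal
      rw [mul_one]
      refine mul_le_mul_of_nonneg_left ?_ (by positivity)
      rw [Real.exp_le_exp, div_le_div_iff₀ (by positivity) (by positivity)]
      have h3 : 0 < ε ^ 2 := by positivity
      nlinarith
    refine (setLIntegral_mono_ae' (Kr_meas P (r / 4)).compl hb).trans ?_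
    rw [setLIntegral_const]
    calc ENNReal.ofReal ((ε⁻¹) ^ (2 * 1) * Real.exp (-(r / 32) / ε ^ 2)) * μ' (Kr P (r / 4))ᶜ
        ≤ ENNReal.ofReal ((ε⁻¹) ^ (2 * 1) * Real.exp (-(r / 32) / ε ^ 2)) * 1 := by
          gcongr
          exact prob_le_one
      _ = _ := mul_one _
  calc ∫⁻ y in Kr P r, ENNReal.ofReal
          (∫ y', (ε⁻¹) ^ 2 * Real.exp (-(tau y y') / (8 * ε ^ 2)) ∂μ') ∂μ
      ≤ ∫⁻ y in Kr P r, ((∫⁻ y' in {y | c * (r / 4) ^ M ≤ N (eta F y)},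
        ENNReal.ofReal ((ε⁻¹) ^ 2 * Real.exp (-(tau y y') / (8 * ε ^ 2))) ∂(μ + μ')) +
        ENNReal.ofReal ((ε⁻¹) ^ (2 * 1) * Real.exp (-(r / 32) / ε ^ 2))) ∂μ :=
        setLIntegral_mono' (Kr_meas P r) hin
    _ = (∫⁻ y in Kr P r, (∫⁻ y' in {y | c * (r / 4) ^ M ≤ N (eta F y)},
        ENNReal.ofReal ((ε⁻¹) ^ 2 * Real.exp (-(tau y y') / (8 * ε ^ 2))) ∂(μ + μ')) ∂μ) +
        ∫⁻ _y in Kr P r, ENNReal.ofReal ((ε⁻¹) ^ (2 * 1) * Real.exp (-(r / 32) / ε ^ 2)) ∂μ :=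
        lintegral_add_right _ measurable_const
    _ ≤ _ := by
        refine add_le_add (lintegral_mono' hm1 fun y => le_rfl) ?_
        rw [setLIntegral_const]
        calc ENNReal.ofReal ((ε⁻¹) ^ (2 * 1) * Real.exp (-(r / 32) / ε ^ 2)) * μ (Kr P r)
            ≤ ENNReal.ofReal ((ε⁻¹) ^ (2 * 1) * Real.exp (-(r / 32) / ε ^ 2)) * 1 := by
              gcongr
              exact prob_le_one
          _ = _ := mul_one _

theorem adm_fin {F : Fin 3 → MvPolynomial (Fin 3) ℂ} {d : ℕ}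
    (hF : ∀ j, (F j).IsHomogeneous d) {P : Finset V} (hP : SingPts F P) {μ μ' : Measure V}
    (hμ : IsCur F μ) (hμ' : IsCur F μ') (h : FinEnergy F (μ + μ')) : Adm F μ μ' P := by
  intro ρ r η hρ hρ' hr hη
  obtain ⟨B, hB0, hB⟩ := AdmI_En hP h hr
  obtain ⟨C, m, hC, hL⟩ := loss_bound hF hP
  set s1 := max 1 ((1 + B) / η) with hs1
  have h1 : 1 ≤ s1 := le_max_left _ _
  have h2 : (1 + B) / η ≤ s1 := le_max_right _ _
  set r0 := ρ ^ 2 * Real.exp (-(6 * s1 + 1)) / 2 with hr0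
  have hr0p : 0 < r0 := by positivity
  have hr01 : r0 ≤ 1 := by
    have e1 : Real.exp (-(6 * s1 + 1)) ≤ 1 := Real.exp_le_one_iff.2 (by linarith)
    have e2 : ρ ^ 2 ≤ 1 := by nlinarith
    have e3 : ρ ^ 2 * Real.exp (-(6 * s1 + 1)) ≤ 1 :=
      mul_le_one₀ e2 (Real.exp_pos _).le e1
    rw [hr0]
    linarith
  set K := C * (r0⁻¹) ^ m + C with hK
  have hK0 : 0 < K := by positivity
  have hT := AdmI_T hP hμ hμ' h (r := r0 / 4) (by positivity) (by linarith) (div_pos hη hK0)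
  have hE := (AdmI_lim 4 (c := r0 / 4) (by positivity)).eventually_lt_const (div_pos hη hK0)
  have hone : ∀ᶠ ε in nhdsWithin (0 : ℝ) (Set.Ioi 0), ε < 1 :=
    (eventually_nhdsWithin_of_eventually_nhds (eventually_lt_nhds one_pos))
  have hall := (hT.and hE).and hone
  obtain ⟨ε0, hε0, hsub⟩ := mem_nhdsGT_iff_exists_Ioo_subset.1 hall
  refine ⟨ε0, hε0, fun ε hε hεlt => ⟨s1, h1, ?_, ?_⟩⟩
  · have h3 := hB ε hε
    rw [div_le_iff₀ (by linarith)]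
    rw [div_le_iff₀ hη] at h2
    linarith
  · obtain ⟨⟨h3, h4⟩, h5⟩ := hsub ⟨hε, hεlt⟩
    have h5' : ε < 1 := h5
    refine (hL μ μ' hμ hμ' ε r0 hε h5'.le hr0p hr01).trans ?_
    have h6 : C * (r0⁻¹) ^ m * (ε⁻¹) ^ 2 * Tr μ μ' P (r0 / 4) ε ≤ C * (r0⁻¹) ^ m * (η / K) := by
      rw [mul_assoc]
      exact mul_le_mul_of_nonneg_left h3.le (by positivity)
    have h7 : C * (ε⁻¹) ^ 8 * Real.exp (-r0 / (4 * ε ^ 2)) ≤ C * (η / K) := by
      rw [mul_assoc]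
      refine mul_le_mul_of_nonneg_left ?_ hC.le
      have e1 : -r0 / (4 * ε ^ 2) = -(r0 / 4) / ε ^ 2 := by
        clear_value r0
        ring
      rw [e1]
      exact h4.le
    have h8 : C * (r0⁻¹) ^ m * (η / K) + C * (η / K) = η := by
      rw [← add_mul, ← hK]
      field_simp
    linarith

end Pool.Agent.H85.DC
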