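import Pool.Agent.H85.DC.Wv

/-!
# Row Nst: Łojasiewicz inequality from the Nullstellensatz

The components of `eta F y` are the values at `y` of polynomials `e_0, e_1, e_2 ∈ ℂ[X_0,X_1,X_2]` (`e_0 = X_1 F_2 - X_2 F_1`, …). For `p ∈ P` and `c : Fin 3` let
`l_{p,c} = ` the linear polynomial with value `cr y p c` at `y`. For every map `c : P → Fin 3` the polynomial `g_c = ∏_{p ∈ P} l_{p, c p}` vanishes at every common zero of the `e_i`: if
`eta F y = 0` and `y ≠ 0` then `y = a • p` for some `p ∈ P` (`SingPts.zero`), so `cr y p = 0`; if `y = 0`, all `l_{p,c}` vanish there (when `P` is nonempty). If `P` is empty then the only common zero is `0`, and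
`g = 1` does not vanish there: in that case use compactness directly: `N (eta F y)` is continuous and positive on the compact unit sphere. (Or multiply all `g_c` by each coordinate `X_i`.)
Hilbert's Nullstellensatz (`MvPolynomial.vanishingIdeal_zeroLocus_eq_radical`): `g_c^M ∈ (e_0,e_1,e_2)` for some `M`, the same for all (finitely many) `c` (take the maximum). So
`g_c(y)^M = ∑ h_i(y) e_i(y)`, hence `|g_c(y)|^{2M} ≤ C N (eta F y)` for `N y = 1` (`h_i` bounded on the sphere). Sum over `c`: `∏_{p} N (cr y p) = ∑_c |g_c(y)|^2` (`Finset.prod_univ_sum`), so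
`(∏_p N (cr y p))^M ≤ (#c)^M max_c |g_c|^{2M} ≤ C' N (eta F y)`, and `N (cr y p) = tau y p` for unit vectors (`tau_cross'`).
-/

open MeasureTheory
open scoped ContDiff BigOperators ComplexConjugate Matrix

namespace Pool.Agent.H85.DC

/-- the polynomials of `eta` -/
noncomputable def Nst_e (F : Fin 3 → MvPolynomial (Fin 3) ℂ) : Fin 3 → MvPolynomial (Fin 3) ℂ :=
  ![MvPolynomial.X 1 * F 2 - MvPolynomial.X 2 * F 1, MvPolynomial.X 2 * F 0 - MvPolynomial.X 0 * F 2,
    MvPolynomial.X 0 * F 1 - MvPolynomial.X 1 * F 0]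

theorem Nst_eval_e (F : Fin 3 → MvPolynomial (Fin 3) ℂ) (y : V) (j : Fin 3) :
    MvPolynomial.eval y (Nst_e F j) = eta F y j := by
  fin_cases j <;> simp [Nst_e, eta, Zf]

/-- the linear forms of the cross product -/
noncomputable def Nst_l (p : V) : Fin 3 → MvPolynomial (Fin 3) ℂ :=
  ![MvPolynomial.X 1 * MvPolynomial.C (p 2) - MvPolynomial.X 2 * MvPolynomial.C (p 1),
    MvPolynomial.X 2 * MvPolynomial.C (p 0) - MvPolynomial.X 0 * MvPolynomial.C (p 2),
    MvPolynomial.X 0 * MvPolynomial.C (p 1) - MvPolynomial.X 1 * MvPolynomial.C (p 0)]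

theorem Nst_eval_l (p y : V) (j : Fin 3) : MvPolynomial.eval y (Nst_l p j) = cr y p j := by
  fin_cases j <;> simp [Nst_l, cr]

/-- the products -/
noncomputable def Nst_g (P : Finset V) (a : Fin 3 × (P → Fin 3)) : MvPolynomial (Fin 3) ℂ :=
  MvPolynomial.X a.1 * ∏ p : P, Nst_l p.1 (a.2 p)

theorem Nst_eval_g (P : Finset V) (a : Fin 3 × (P → Fin 3)) (y : V) :
    MvPolynomial.eval y (Nst_g P a) = y a.1 * ∏ p : P, cr y p.1 (a.2 p) := by
  rw [Nst_g, map_mul, MvPolynomial.eval_X, map_prod]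
  simp only [Nst_eval_l]

theorem Nst_unit_ne {x : V} (h : N x = 1) : x ≠ 0 := by
  rintro rfl
  simp [N] at h

theorem Nst_rad {F : Fin 3 → MvPolynomial (Fin 3) ℂ} {P : Finset V} (hP : SingPts F P)
    (a : Fin 3 × (P → Fin 3)) : Nst_g P a ∈ (Ideal.span (Set.range (Nst_e F))).radical := by
  rw [← MvPolynomial.vanishingIdeal_zeroLocus_eq_radical (K := ℂ),
    MvPolynomial.mem_vanishingIdeal_iff]
  intro y hy
  have h1 : ∀ j, eta F y j = 0 := by
    intro j
    have h2 := hy (Nst_e F j) (Ideal.subset_span ⟨j, rfl⟩)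
    rw [← Nst_eval_e, ← MvPolynomial.coe_aeval_eq_eval]
    exact h2
  have h3 : MvPolynomial.eval y (Nst_g P a) = 0 := by
    rw [Nst_eval_g]
    by_cases hy0 : y = 0
    · rw [hy0]
      simp
    · obtain ⟨p, hp, c, rfl⟩ := (hP.zero y hy0).1 (funext h1)
      refine mul_eq_zero_of_right _ (Finset.prod_eq_zero (Finset.mem_univ (⟨p, hp⟩ : P)) ?_)
      rw [cr_smul_left, cr_self, smul_zero]
      rfl
  rw [← MvPolynomial.coe_aeval_eq_eval] at h3
  exact h3

theorem Nst_normSq_add (a b : ℂ) :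
    Complex.normSq (a + b) ≤ 2 * Complex.normSq a + 2 * Complex.normSq b := by
  have h := Complex.normSq_nonneg (a - b)
  rw [Complex.normSq_apply] at *
  simp only [Complex.normSq_apply, Complex.add_re, Complex.add_im, Complex.sub_re,
    Complex.sub_im] at *
  linarith

theorem Nst_coord (v : V) (i : Fin 3) : Complex.normSq (v i) ≤ N v :=
  Finset.single_le_sum (f := fun j => Complex.normSq (v j)) (fun _ _ => Complex.normSq_nonneg _)
    (Finset.mem_univ i)

theorem Nst_max (v : V) : ∃ i, N v ≤ 3 * Complex.normSq (v i) := by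
  obtain ⟨i, hi⟩ := Finite.exists_max (fun i => Complex.normSq (v i))
  refine ⟨i, ?_⟩
  have h := Finset.sum_le_card_nsmul (Finset.univ : Finset (Fin 3))
    (fun j => Complex.normSq (v j)) _ (fun j _ => hi j)
  rw [Finset.card_univ, Fintype.card_fin, nsmul_eq_mul] at h
  exact_mod_cast h

theorem Nst_bound {F : Fin 3 → MvPolynomial (Fin 3) ℂ} {f : MvPolynomial (Fin 3) ℂ}
    (hf : f ∈ Ideal.span (Set.range (Nst_e F))) :
    ∃ C : ℝ, 0 ≤ C ∧ ∀ y : V, N y = 1 →
      Complex.normSq (MvPolynomial.eval y f) ≤ C * N (eta F y) := by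
  refine Submodule.span_induction ?_ ?_ ?_ ?_ hf
  · rintro _ ⟨j, rfl⟩
    refine ⟨1, zero_le_one, fun y _ => ?_⟩
    rw [Nst_eval_e, one_mul]
    exact Nst_coord _ j
  · refine ⟨0, le_rfl, fun y _ => ?_⟩
    simp
  · rintro x z _ _ ⟨C, hC, h1⟩ ⟨D, hD, h2⟩
    refine ⟨2 * C + 2 * D, by positivity, fun y hy => ?_⟩
    rw [map_add]
    have h3 := Nst_normSq_add (MvPolynomial.eval y x) (MvPolynomial.eval y z)
    have h4 := h1 y hy
    have h5 := h2 y hy
    linarith
  · rintro h x _ ⟨C, hC, h1⟩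
    have hc : Continuous (fun y : V => Complex.normSq (MvPolynomial.eval y h)) :=
      Complex.continuous_normSq.comp (MvPolynomial.continuous_eval h)
    obtain ⟨B, hB⟩ := compact_sphere.exists_bound_of_continuousOn hc.continuousOn
    refine ⟨|B| * C, by positivity, fun y hy => ?_⟩
    rw [smul_eq_mul, map_mul, map_mul]
    have h2 := hB y hy
    rw [Real.norm_eq_abs, abs_of_nonneg (Complex.normSq_nonneg _)] at h2
    have h3 := h1 y hy
    calc Complex.normSq (MvPolynomial.eval y h) * Complex.normSq (MvPolynomial.eval y x)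
        ≤ |B| * (C * N (eta F y)) :=
          mul_le_mul (h2.trans (le_abs_self B)) h3 (Complex.normSq_nonneg _) (abs_nonneg B)
      _ = |B| * C * N (eta F y) := by ring

theorem Nst_lower {F : Fin 3 → MvPolynomial (Fin 3) ℂ} {P : Finset V} (hP : SingPts F P) {y : V}
    (hy : N y = 1) : ∃ a : Fin 3 × (P → Fin 3), ∏ p ∈ P, tau y p ≤
      3 ^ (P.card + 1) * Complex.normSq (MvPolynomial.eval y (Nst_g P a)) := by
  obtain ⟨i, hi⟩ := Nst_max y
  choose c hc using fun p : P => Nst_max (cr y p.1)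
  refine ⟨(i, c), ?_⟩
  have h1 : ∀ p : P, tau y p.1 = N (cr y p.1) := by
    intro p
    rw [tau_cross' (Nst_unit_ne hy) (Nst_unit_ne (hP.unit p.1 p.2)), hy, hP.unit p.1 p.2,
      one_mul, one_mul]
  rw [← Finset.prod_coe_sort, Nst_eval_g, map_mul, map_prod]
  have h2 : ∏ p : P, tau y p.1 ≤ ∏ p : P, 3 * Complex.normSq (cr y p.1 (c p)) := by
    refine Finset.prod_le_prod (fun p _ => tau_nonneg _ _) (fun p _ => ?_)
    rw [h1 p]
    exact hc p
  rw [Finset.prod_mul_distrib, Finset.prod_const, Finset.card_univ, Fintype.card_coe] at h2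
  refine h2.trans ?_
  rw [hy] at hi
  have h3 : 0 ≤ ∏ p : P, Complex.normSq (cr y p.1 (c p)) :=
    Finset.prod_nonneg fun p _ => Complex.normSq_nonneg _
  have h4 : 0 ≤ (3 : ℝ) ^ P.card * ∏ p : P, Complex.normSq (cr y p.1 (c p)) := by positivity
  calc (3 : ℝ) ^ P.card * ∏ p : P, Complex.normSq (cr y p.1 (c p))
      = 1 * ((3 : ℝ) ^ P.card * ∏ p : P, Complex.normSq (cr y p.1 (c p))) := by rw [one_mul]
    _ ≤ 3 * Complex.normSq (y i) * ((3 : ℝ) ^ P.card * ∏ p : P, Complex.normSq (cr y p.1 (c p))) :=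
        mul_le_mul_of_nonneg_right hi h4
    _ = 3 ^ (P.card + 1) * (Complex.normSq (y i) * ∏ p : P, Complex.normSq (cr y p.1 (c p))) := by
        rw [pow_succ]
        ring

theorem nullst {F : Fin 3 → MvPolynomial (Fin 3) ℂ} {P : Finset V} (hP : SingPts F P) :
    ∃ (c : ℝ) (m : ℕ), 0 < c ∧ ∀ y : V, N y = 1 → c * (∏ p ∈ P, tau y p) ^ m ≤ N (eta F y) := by
  obtain ⟨M, hM⟩ := (Ideal.span (Set.range (Nst_e F))).exists_radical_pow_le_of_fg
    (Ideal.fg_of_isNoetherianRing _)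
  have h1 : ∀ a : Fin 3 × (P → Fin 3), Nst_g P a ^ M ∈ Ideal.span (Set.range (Nst_e F)) :=
    fun a => hM (Ideal.pow_mem_pow (Nst_rad hP a) M)
  choose C hC0 hC using fun a => Nst_bound (h1 a)
  obtain ⟨D, hD, hCD⟩ : ∃ D : ℝ, 0 < D ∧ ∀ a, C a ≤ D := by
    refine ⟨∑ a, C a + 1, ?_, fun a => ?_⟩
    · have := Finset.sum_nonneg fun a (_ : a ∈ Finset.univ) => hC0 a
      linarith
    · have := Finset.single_le_sum (f := C) (fun a _ => hC0 a) (Finset.mem_univ a)
      linarith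
  refine ⟨((3 ^ (P.card + 1)) ^ M * D)⁻¹, M, by positivity, fun y hy => ?_⟩
  obtain ⟨a, ha⟩ := Nst_lower hP hy
  have h2 : 0 ≤ ∏ p ∈ P, tau y p := Finset.prod_nonneg fun p _ => tau_nonneg _ _
  have h3 := pow_le_pow_left₀ h2 ha M
  rw [mul_pow, ← map_pow, ← map_pow] at h3
  have h4 := hC a y hy
  have h5 : 0 ≤ N (eta F y) := Finset.sum_nonneg fun _ _ => Complex.normSq_nonneg _
  have h6 : C a * N (eta F y) ≤ D * N (eta F y) := mul_le_mul_of_nonneg_right (hCD a) h5
  rw [inv_mul_le_iff₀ (by positivity)]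
  calc (∏ p ∈ P, tau y p) ^ M
      ≤ (3 ^ (P.card + 1)) ^ M * Complex.normSq (MvPolynomial.eval y (Nst_g P a ^ M)) := h3
    _ ≤ (3 ^ (P.card + 1)) ^ M * (D * N (eta F y)) :=
        mul_le_mul_of_nonneg_left (h4.trans h6) (by positivity)
    _ = (3 ^ (P.card + 1)) ^ M * D * N (eta F y) := by ring

/-- Lower bound on `Kr P r`. -/
theorem nullst_Kr {F : Fin 3 → MvPolynomial (Fin 3) ℂ} {P : Finset V} (hP : SingPts F P) :
    ∃ (c : ℝ) (m : ℕ), 0 < c ∧ ∀ (r : ℝ), 0 < r → r ≤ 1 → ∀ y ∈ Kr P r, c * r ^ m ≤ N (eta F y) := by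
  obtain ⟨c, m, hc, h⟩ := nullst hP
  refine ⟨c, P.card * m, hc, fun r hr _ y hy => ?_⟩
  refine le_trans ?_ (h y hy.1)
  refine mul_le_mul_of_nonneg_left ?_ hc.le
  rw [pow_mul]
  refine pow_le_pow_left₀ (by positivity) ?_ m
  rw [← Finset.prod_const]
  exact Finset.prod_le_prod (fun _ _ => hr.le) (fun p hp => hy.2 p hp)

theorem Nst_pair_meas (p : V) : Measurable (fun y : V => (y, p)) :=
  measurable_id.prodMk measurable_const

theorem Nst_comp_meas (p : V) :
    Measurable ((fun q : V × V => tau q.1 q.2) ∘ (fun y : V => (y, p))) :=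
  measurable_tau.comp (Nst_pair_meas p)

theorem Nst_comp_eq (p : V) :
    ((fun q : V × V => tau q.1 q.2) ∘ (fun y : V => (y, p))) = fun y : V => tau y p := rfl

theorem Nst_tau_meas (p : V) : Measurable (fun y : V => tau y p) :=
  Nst_comp_eq p ▸ Nst_comp_meas p

theorem Nst_inter_meas (P : Finset V) (r : ℝ) : MeasurableSet (⋂ p ∈ P, {y : V | r ≤ tau y p}) :=
  Finset.measurableSet_biInter P fun p _ => measurableSet_le measurable_const (Nst_tau_meas p)

theorem Nst_Kr_eq (P : Finset V) (r : ℝ) :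
    Kr P r = {y | N y = 1} ∩ ⋂ p ∈ P, {y | r ≤ tau y p} := by
  ext y
  simp [Kr]

theorem Kr_meas (P : Finset V) (r : ℝ) : MeasurableSet (Kr P r) := by
  rw [Nst_Kr_eq]
  exact (isClosed_eq continuous_N continuous_const).measurableSet.inter (Nst_inter_meas P r)

/-- Every unit vector off the singular set lies in some `Kr P r`. -/
theorem mem_Kr {F : Fin 3 → MvPolynomial (Fin 3) ℂ} {P : Finset V} (hP : SingPts F P) {y : V}
    (hy : N y = 1) (h : eta F y ≠ 0) : ∃ r : ℝ, 0 < r ∧ y ∈ Kr P r := by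
  have h1 : ∀ p ∈ P, 0 < tau y p := by
    intro p hp
    refine lt_of_le_of_ne (tau_nonneg _ _) fun h2 => h ?_
    obtain ⟨c, hc⟩ := tau_eq_zero (Nst_unit_ne hy) (Nst_unit_ne (hP.unit p hp)) h2.symm
    exact (hP.zero y (Nst_unit_ne hy)).2 ⟨p, hp, c, hc⟩
  rcases P.eq_empty_or_nonempty with hE | hE
  · refine ⟨1, one_pos, hy, fun p hp => ?_⟩
    rw [hE] at hp
    exact absurd hp (Finset.notMem_empty p)
  · obtain ⟨p, hp, h2⟩ := Finset.exists_min_image P (fun p => tau y p) hE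
    exact ⟨tau y p, h1 p hp, hy, h2⟩

end Pool.Agent.H85.DC
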