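import Pool.Agent.H85.DC.Mb
import Pool.Agent.H85.DC.Nst

/-!
# Row EnC: the truncated energy is `o(log 1/ε)`

`μ` is Hölder off Sing (`HolderOff F μ`, constants `C, k, κ`), `μ'` has zero Lelong number a.e.; both satisfy the mass bound `μ {tau x y < s^2} ≤ 4 s^2` for unit `y` (`mass_bound`). Fix `r > 0`, wlog `r ≤ 1`.
Layer cake with `λ`: `∫ (tau + ε²)⁻¹ dn ≤ ∫_0^{ε^{-2}} n{tau < 1/λ} dλ`. For `μ` the integrand is at most `C' λ^{-1-κ/2}` for `λ > 1`,
for `μ'` it is at most `4/λ`, and at most `δ/λ` for large `λ`; dominated convergence.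
-/

open MeasureTheory Set Filter
open scoped ContDiff BigOperators ComplexConjugate Matrix ENNReal Topology

namespace Pool.Agent.H85.DC

theorem EnC_meas1 (y : V) : Measurable (fun y' : V => tau y y') := by
  have h0 : Measurable (fun y' : V => ((y, y') : V × V)) := measurable_const.prodMk measurable_id
  have h1 := measurable_tau.comp h0
  exact h1

theorem EnC_meas2 (ε : ℝ) : Measurable (fun q : V × V => (tau q.1 q.2 + ε ^ 2)⁻¹) := by
  exact (measurable_tau.add_const _).inv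

theorem EnC_meas (y : V) (ε : ℝ) : Measurable (fun y' : V => (tau y y' + ε ^ 2)⁻¹) := by
  have h1 := EnC_meas1 y
  exact (h1.add_const _).inv

theorem EnC_pos (y y' : V) {ε : ℝ} (hε : 0 < ε) : 0 < tau y y' + ε ^ 2 := by
  have := tau_nonneg y y'
  positivity

theorem EnC_le (y y' : V) {ε : ℝ} (hε : 0 < ε) : (tau y y' + ε ^ 2)⁻¹ ≤ (ε ^ 2)⁻¹ := by
  have := tau_nonneg y y'
  gcongr
  linarith

theorem EnC_layer (n : Measure V) (y : V) {ε : ℝ} (hε : 0 < ε) :
    ∫⁻ y', ENNReal.ofReal ((tau y y' + ε ^ 2)⁻¹) ∂n ≤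
      ∫⁻ l in Ioo (0 : ℝ) ((ε ^ 2)⁻¹), n {y' | tau y y' < l⁻¹} := by
  rw [lintegral_eq_lintegral_meas_lt n (Eventually.of_forall fun y' =>
    (inv_pos.2 (EnC_pos y y' hε)).le) (EnC_meas y ε).aemeasurable]
  rw [← lintegral_indicator measurableSet_Ioi, ← lintegral_indicator measurableSet_Ioo]
  refine lintegral_mono fun l => ?_
  by_cases hl : l ∈ Ioo (0 : ℝ) ((ε ^ 2)⁻¹)
  · rw [indicator_of_mem hl, indicator_of_mem (show l ∈ Ioi (0 : ℝ) from hl.1)]
    refine measure_mono fun y' hy' => ?_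
    simp only [mem_ofPred_eq] at hy' ⊢
    have h2 : tau y y' + ε ^ 2 < l⁻¹ := (lt_inv_comm₀ hl.1 (EnC_pos y y' hε)).1 hy'
    have : 0 < ε ^ 2 := by positivity
    linarith
  · by_cases hl0 : l ∈ Ioi (0 : ℝ)
    · have h3 : {a | l < (tau y a + ε ^ 2)⁻¹} = ∅ := by
        ext a
        simp only [mem_ofPred_eq, mem_empty_iff_false, iff_false, not_lt]
        have h4 : (ε ^ 2)⁻¹ ≤ l := by
          by_contra h5
          exact hl ⟨hl0, not_le.1 h5⟩
        exact (EnC_le y a hε).trans h4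
      rw [indicator_of_mem hl0, h3]
      simp
    · rw [indicator_of_notMem hl0]
      exact zero_le

theorem EnC_pot2 (n : Measure V) (hn : n univ = 1) (y : V) {ε Λ δ : ℝ} (hε : 0 < ε) (hε1 : ε < 1)
    (hΛ : 1 ≤ Λ) (hδ : 0 ≤ δ)
    (h : ∀ l : ℝ, Λ < l → n {y' | tau y y' < l⁻¹} ≤ ENNReal.ofReal (δ * l⁻¹)) :
    ∫⁻ y', ENNReal.ofReal ((tau y y' + ε ^ 2)⁻¹) ∂n ≤
      ENNReal.ofReal (Λ + 2 * δ * Real.log (1 / ε)) := by
  set c : ℝ := (ε ^ 2)⁻¹ with hc
  have hc1 : 1 ≤ c := by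
    rw [hc]
    apply (one_le_inv₀ (by positivity)).2
    nlinarith
  have hint : ∫⁻ l in Ioc (1 : ℝ) c, ENNReal.ofReal (δ * l⁻¹) =
      ENNReal.ofReal (2 * δ * Real.log (1 / ε)) := by
    have hii : IntegrableOn (fun l : ℝ => δ * l⁻¹) (Ioc 1 c) := by
      have h1 : IntervalIntegrable (fun l : ℝ => l⁻¹) volume 1 c := by
        apply intervalIntegral.intervalIntegrable_inv
        · intro x hx
          rw [uIcc_of_le hc1] at hx
          linarith [hx.1]
        · exact continuousOn_id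
      have h2 := (intervalIntegrable_iff_integrableOn_Ioc_of_le hc1).1 h1
      exact h2.const_mul δ
    rw [← ofReal_integral_eq_lintegral_ofReal hii]
    · congr 1
      rw [integral_const_mul, ← intervalIntegral.integral_of_le hc1, integral_inv_of_pos one_pos
        (by linarith), div_one, hc, Real.log_inv, Real.log_pow, one_div, Real.log_inv]
      push_cast
      ring
    · refine (ae_restrict_iff' measurableSet_Ioc).2 (Eventually.of_forall fun l hl => ?_)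
      have : 0 < l := by linarith [hl.1]
      positivity
  calc ∫⁻ y', ENNReal.ofReal ((tau y y' + ε ^ 2)⁻¹) ∂n
      ≤ ∫⁻ l in Ioo (0 : ℝ) c, n {y' | tau y y' < l⁻¹} := EnC_layer n y hε
    _ ≤ ∫⁻ l, ((Ioc (0 : ℝ) Λ).indicator (fun _ => (1 : ℝ≥0∞)) l +
          (Ioc (1 : ℝ) c).indicator (fun l => ENNReal.ofReal (δ * l⁻¹)) l) := by
        rw [← lintegral_indicator measurableSet_Ioo]
        refine lintegral_mono fun l => ?_
        by_cases hl : l ∈ Ioo (0 : ℝ) c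
        · rw [indicator_of_mem hl]
          by_cases hl2 : l ≤ Λ
          · rw [indicator_of_mem (show l ∈ Ioc (0 : ℝ) Λ from ⟨hl.1, hl2⟩)]
            refine le_trans ?_ (le_add_of_nonneg_right (zero_le))
            rw [← hn]
            exact measure_mono (subset_univ _)
          · rw [indicator_of_mem (show l ∈ Ioc (1 : ℝ) c from
              ⟨lt_of_le_of_lt hΛ (not_le.1 hl2), hl.2.le⟩)]
            exact (h l (not_le.1 hl2)).trans (le_add_of_nonneg_left (zero_le))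
        · rw [indicator_of_notMem hl]
          exact zero_le
    _ = ENNReal.ofReal Λ + ENNReal.ofReal (2 * δ * Real.log (1 / ε)) := by
        rw [lintegral_add_left (measurable_const.indicator measurableSet_Ioc),
          lintegral_indicator measurableSet_Ioc, lintegral_indicator measurableSet_Ioc, hint]
        simp
    _ = ENNReal.ofReal (Λ + 2 * δ * Real.log (1 / ε)) := by
        rw [ENNReal.ofReal_add (by linarith)]
        have : 0 ≤ Real.log (1 / ε) := Real.log_nonneg (by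
          rw [one_div]
          exact (one_le_inv₀ hε).2 hε1.le)
        positivity

theorem EnC_pot1 (n : Measure V) (hn : n univ = 1) (y : V) {ε C κ : ℝ} (hε : 0 < ε)
    (hκ : 0 < κ) (hC : 0 ≤ C)
    (h : ∀ l : ℝ, 1 < l → n {y' | tau y y' < l⁻¹} ≤ ENNReal.ofReal (C * l ^ (-(1 + κ / 2)))) :
    ∫⁻ y', ENNReal.ofReal ((tau y y' + ε ^ 2)⁻¹) ∂n ≤ ENNReal.ofReal (1 + C * (2 / κ)) := by
  have hlt : -(1 + κ / 2) < -1 := by linarith [half_pos hκ]
  have hint : ∫⁻ l in Ioi (1 : ℝ), ENNReal.ofReal (C * l ^ (-(1 + κ / 2))) =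
      ENNReal.ofReal (C * (2 / κ)) := by
    have hii : IntegrableOn (fun l : ℝ => C * l ^ (-(1 + κ / 2))) (Ioi 1) :=
      (integrableOn_Ioi_rpow_of_lt hlt one_pos).const_mul C
    rw [← ofReal_integral_eq_lintegral_ofReal hii]
    · congr 1
      rw [integral_const_mul, integral_Ioi_rpow_of_lt hlt one_pos, Real.one_rpow, show -(1 + κ / 2) + 1 = -(κ / 2) by ring, neg_div_neg_eq]
      congr 1
      field_simp
    · refine (ae_restrict_iff' measurableSet_Ioi).2 (Eventually.of_forall fun l hl => ?_)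
      have : (0 : ℝ) < l := lt_trans one_pos hl
      positivity
  calc ∫⁻ y', ENNReal.ofReal ((tau y y' + ε ^ 2)⁻¹) ∂n
      ≤ ∫⁻ l in Ioo (0 : ℝ) ((ε ^ 2)⁻¹), n {y' | tau y y' < l⁻¹} := EnC_layer n y hε
    _ ≤ ∫⁻ l, ((Ioc (0 : ℝ) 1).indicator (fun _ => (1 : ℝ≥0∞)) l +
          (Ioi (1 : ℝ)).indicator (fun l => ENNReal.ofReal (C * l ^ (-(1 + κ / 2)))) l) := by
        rw [← lintegral_indicator measurableSet_Ioo]
        refine lintegral_mono fun l => ?_
        by_cases hl : l ∈ Ioo (0 : ℝ) ((ε ^ 2)⁻¹)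
        · rw [indicator_of_mem hl]
          by_cases hl2 : l ≤ 1
          · rw [indicator_of_mem (show l ∈ Ioc (0 : ℝ) 1 from ⟨hl.1, hl2⟩)]
            refine le_trans ?_ (le_add_of_nonneg_right (zero_le))
            rw [← hn]
            exact measure_mono (subset_univ _)
          · rw [indicator_of_mem (show l ∈ Ioi (1 : ℝ) from not_le.1 hl2)]
            exact (h l (not_le.1 hl2)).trans (le_add_of_nonneg_left (zero_le))
        · rw [indicator_of_notMem hl]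
          exact zero_le
    _ = ENNReal.ofReal 1 + ENNReal.ofReal (C * (2 / κ)) := by
        rw [lintegral_add_left (measurable_const.indicator measurableSet_Ioc),
          lintegral_indicator measurableSet_Ioc, lintegral_indicator measurableSet_Ioi, hint]
        simp
    _ = ENNReal.ofReal (1 + C * (2 / κ)) := by
        rw [ENNReal.ofReal_add one_pos.le (by positivity)]

theorem EnC_int_le {n : Measure V} (K : Set V) {y : V} {ε b : ℝ} (hε : 0 < ε) (hb : 0 ≤ b)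
    (h : ∫⁻ y', ENNReal.ofReal ((tau y y' + ε ^ 2)⁻¹) ∂n ≤ ENNReal.ofReal b) :
    ∫ y' in K, (tau y y' + ε ^ 2)⁻¹ ∂n ≤ b := by
  rw [integral_eq_lintegral_of_nonneg_ae (Eventually.of_forall fun y' =>
    (inv_pos.2 (EnC_pos y y' hε)).le) (EnC_meas y ε).aestronglyMeasurable]
  refine ENNReal.toReal_le_of_le_ofReal hb (le_trans ?_ h)
  exact setLIntegral_le_lintegral _ _

theorem EnC_int (n : Measure V) [IsFiniteMeasure n] (y : V) {ε : ℝ} (hε : 0 < ε) :
    Integrable (fun y' => (tau y y' + ε ^ 2)⁻¹) n := by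
  refine Integrable.mono' (integrable_const ((ε ^ 2)⁻¹)) (EnC_meas y ε).aestronglyMeasurable
    (Eventually.of_forall fun y' => ?_)
  rw [Real.norm_of_nonneg (inv_pos.2 (EnC_pos y y' hε)).le]
  exact EnC_le y y' hε

theorem EnC_int2 (n n' : Measure V) [IsFiniteMeasure n] [IsFiniteMeasure n'] {ε : ℝ} (hε : 0 < ε) :
    Integrable (fun q : V × V => (tau q.1 q.2 + ε ^ 2)⁻¹) (n.prod n') := by
  refine Integrable.mono' (integrable_const ((ε ^ 2)⁻¹)) (EnC_meas2 ε).aestronglyMeasurable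
    (Eventually.of_forall fun y' => ?_)
  rw [Real.norm_of_nonneg (inv_pos.2 (EnC_pos _ _ hε)).le]
  exact EnC_le _ _ hε

theorem EnC_inner_int (n n' : Measure V) [IsFiniteMeasure n] [IsFiniteMeasure n'] {ε : ℝ}
    (hε : 0 < ε) : Integrable (fun y => ∫ y', (tau y y' + ε ^ 2)⁻¹ ∂n') n :=
  (EnC_int2 n n' hε).integral_prod_left

theorem EnC_tend (n : Measure V) (hn : n univ = 1) (y : V) (K : Set V)
    (hl : Tendsto (fun s : ℝ => (n {y' | tau y y' < s ^ 2}).toReal / s ^ 2) (𝓝[>] 0) (𝓝 0)) :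
    Tendsto (fun ε : ℝ => (∫ y' in K, (tau y y' + ε ^ 2)⁻¹ ∂n) / Real.log (1 / ε)) (𝓝[>] 0)
      (𝓝 0) := by
  have hfin : IsFiniteMeasure n := ⟨by rw [hn]; exact ENNReal.one_lt_top⟩
  have hlog : Tendsto (fun ε : ℝ => Real.log (1 / ε)) (𝓝[>] 0) atTop := by
    have := Real.tendsto_log_nhdsGT_zero
    have h2 : (fun ε : ℝ => Real.log (1 / ε)) = fun ε => -Real.log ε := by
      ext ε
      rw [one_div, Real.log_inv]
    rw [h2]
    exact tendsto_neg_atBot_atTop.comp this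
  rw [Metric.tendsto_nhds]
  intro e he
  obtain ⟨s0, hs0, hs⟩ : ∃ s0 > (0 : ℝ), ∀ s : ℝ, 0 < s → s < s0 →
      (n {y' | tau y y' < s ^ 2}).toReal / s ^ 2 < e / 8 := by
    have h1 := (Metric.tendsto_nhds.1 hl) (e / 8) (by positivity)
    rw [eventually_nhdsWithin_iff, Metric.eventually_nhds_iff] at h1
    obtain ⟨s0, hs0, h2⟩ := h1
    refine ⟨s0, hs0, fun s hs1 hs2 => ?_⟩
    have h3 := h2 (y := s) (by rw [Real.dist_eq, sub_zero, abs_of_pos hs1]; exact hs2) hs1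
    rw [Real.dist_eq, sub_zero] at h3
    exact lt_of_le_of_lt (le_abs_self _) h3
  set Λ : ℝ := max 1 ((s0 ^ 2)⁻¹) with hΛ
  have key : ∀ l : ℝ, Λ < l → n {y' | tau y y' < l⁻¹} ≤ ENNReal.ofReal (e / 8 * l⁻¹) := by
    intro l hl
    have hl1 : 1 < l := lt_of_le_of_lt (le_max_left _ _) hl
    have hl0 : 0 < l := by linarith
    have hl2 : (s0 ^ 2)⁻¹ < l := lt_of_le_of_lt (le_max_right _ _) hl
    have hsq : ((Real.sqrt l)⁻¹) ^ 2 = l⁻¹ := by
      rw [inv_pow, Real.sq_sqrt hl0.le]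
    have hs1 : 0 < (Real.sqrt l)⁻¹ := inv_pos.2 (Real.sqrt_pos.2 hl0)
    have hs2 : (Real.sqrt l)⁻¹ < s0 := by
      apply lt_of_pow_lt_pow_left₀ 2 hs0.le
      rw [hsq]
      exact (inv_lt_comm₀ (by positivity) hl0).1 hl2
    have h3 := hs _ hs1 hs2
    rw [hsq] at h3
    rw [← ENNReal.ofReal_toReal (measure_ne_top n {y' | tau y y' < l⁻¹})]
    apply ENNReal.ofReal_le_ofReal
    rw [div_lt_iff₀ (by positivity)] at h3
    exact h3.le
  have e1 : ∀ᶠ ε : ℝ in 𝓝[>] 0, 2 * Λ / e < Real.log (1 / ε) := hlog.eventually_gt_atTop _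
  have e2 : ∀ᶠ ε : ℝ in 𝓝[>] 0, 0 < Real.log (1 / ε) := hlog.eventually_gt_atTop _
  have e3 : ∀ᶠ ε : ℝ in 𝓝[>] 0, ε ∈ Ioo (0 : ℝ) 1 := Ioo_mem_nhdsGT one_pos
  filter_upwards [e1, e2, e3] with ε h1 h2 h3
  have h4 := EnC_int_le K h3.1 (b := Λ + 2 * (e / 8) * Real.log (1 / ε))
    (by have := le_max_left 1 ((s0 ^ 2)⁻¹); positivity)
    (EnC_pot2 n hn y h3.1 h3.2 (le_max_left _ _) (by positivity) key)
  have h5 : 0 ≤ ∫ y' in K, (tau y y' + ε ^ 2)⁻¹ ∂n :=
    integral_nonneg fun y' => (inv_pos.2 (EnC_pos y y' h3.1)).le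
  rw [Real.dist_eq, sub_zero, abs_of_nonneg (by positivity), div_lt_iff₀ h2]
  rw [div_lt_iff₀ he] at h1
  nlinarith

theorem EnC_bd (n : Measure V) (hn : n univ = 1) {y : V} (K : Set V)
    (hm : ∀ s : ℝ, 0 < s → (n {x | tau y x < s ^ 2}).toReal ≤ 4 * s ^ 2)
    {ε : ℝ} (hε : 0 < ε) (hε1 : ε < 1) :
    ∫ y' in K, (tau y y' + ε ^ 2)⁻¹ ∂n ≤ 1 + 8 * Real.log (1 / ε) := by
  have hfin : IsFiniteMeasure n := ⟨by rw [hn]; exact ENNReal.one_lt_top⟩
  have h0 : 0 ≤ Real.log (1 / ε) := Real.log_nonneg (by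
          rw [one_div]
          exact (one_le_inv₀ hε).2 hε1.le)
  have h4 := EnC_int_le (n := n) (y := y) K hε (b := 1 + 2 * 4 * Real.log (1 / ε)) (by positivity)
    (EnC_pot2 n hn y hε hε1 le_rfl (by norm_num) fun l hl => by
      have hl0 : 0 < l := by linarith
      have hsq : ((Real.sqrt l)⁻¹) ^ 2 = l⁻¹ := by
        rw [inv_pow, Real.sq_sqrt hl0.le]
      have hs1 : 0 < (Real.sqrt l)⁻¹ := inv_pos.2 (Real.sqrt_pos.2 hl0)
      have h3 := hm _ hs1
      rw [hsq] at h3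
      rw [← ENNReal.ofReal_toReal (measure_ne_top n {y' | tau y y' < l⁻¹})]
      exact ENNReal.ofReal_le_ofReal h3)
  linarith

theorem en_small {F : Fin 3 → MvPolynomial (Fin 3) ℂ} {P : Finset V} (hP : SingPts F P)
    {μ μ' : Measure V} (hμ : IsCur F μ) (hμ' : IsCur F μ')
    (hm : ∀ (y : V) (s : ℝ), N y = 1 → 0 < s → (μ' {x | tau x y < s ^ 2}).toReal ≤ 4 * s ^ 2)
    (hh : HolderOff F μ) (hl : ZeroLelong μ') {r η : ℝ} (hr : 0 < r) (hη : 0 < η) :
    ∃ ε0 : ℝ, 0 < ε0 ∧ ∀ ε : ℝ, 0 < ε → ε < ε0 → En (μ + μ') P r ε ≤ η * Real.log (1 / ε) := by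
  have hf : IsFiniteMeasure μ := ⟨by rw [hμ.prob]; exact ENNReal.one_lt_top⟩
  have hf' : IsFiniteMeasure μ' := ⟨by rw [hμ'.prob]; exact ENNReal.one_lt_top⟩
  obtain ⟨c, M, hc, hK⟩ := nullst_Kr hP
  obtain ⟨C, m, κ, hκ, hC⟩ := hh
  set r' : ℝ := min r 1 with hr'
  have hr'0 : 0 < r' := lt_min hr one_pos
  set C' : ℝ := |C| * ((c * r' ^ M)⁻¹) ^ m with hC'
  have hC'0 : 0 ≤ C' := by positivity
  set B0 : ℝ := 1 + C' * (2 / κ) with hB0
  have hB0' : 0 ≤ B0 := by positivity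
  -- the potential of `μ` is bounded on `Kr`
  have hA : ∀ y ∈ Kr P r, ∀ ε : ℝ, 0 < ε → ∫ y' in Kr P r, (tau y y' + ε ^ 2)⁻¹ ∂μ ≤ B0 := by
    intro y hy ε hε
    apply EnC_int_le _ hε hB0'
    apply EnC_pot1 μ hμ.prob y hε hκ hC'0
    intro l hl
    have hl0 : 0 < l := by linarith
    have hy' : y ∈ Kr P r' := ⟨hy.1, fun p hp => (min_le_left _ _).trans (hy.2 p hp)⟩
    have hN := hK r' hr'0 (min_le_right _ _) y hy'
    have hpos : 0 < c * r' ^ M := by positivity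
    have heta : eta F y ≠ 0 := by
      intro h0
      rw [h0] at hN
      have : N (0 : V) = 0 := by simp [N]
      linarith
    have hsq : ((Real.sqrt l)⁻¹) ^ 2 = l⁻¹ := by
      rw [inv_pow, Real.sq_sqrt hl0.le]
    have hs1 : 0 < (Real.sqrt l)⁻¹ := inv_pos.2 (Real.sqrt_pos.2 hl0)
    have hs2 : (Real.sqrt l)⁻¹ < 1 := by
      apply inv_lt_one_of_one_lt₀
      rw [Real.lt_sqrt one_pos.le]
      simpa using hl
    have h3 := hC y _ hy.1 heta hs1 hs2
    rw [hsq] at h3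
    rw [← ENNReal.ofReal_toReal (measure_ne_top μ {y' | tau y y' < l⁻¹})]
    apply ENNReal.ofReal_le_ofReal
    have h4 : ((Real.sqrt l)⁻¹) ^ (2 + κ) = l ^ (-(1 + κ / 2)) := by
      rw [Real.inv_rpow (Real.sqrt_nonneg l), Real.sqrt_eq_rpow, ← Real.rpow_mul hl0.le,
        ← Real.rpow_neg hl0.le]
      congr 1
      ring
    rw [h4] at h3
    refine h3.trans ?_
    rw [hC']
    have h5 : (0 : ℝ) ≤ l ^ (-(1 + κ / 2)) := by positivity
    have hNn : 0 ≤ N (eta F y) := hpos.le.trans hN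
    have h6 : ((N (eta F y))⁻¹) ^ m ≤ ((c * r' ^ M)⁻¹) ^ m := by gcongr
    have h7 : C ≤ |C| := le_abs_self C
    have h8 : 0 ≤ ((N (eta F y))⁻¹) ^ m := by positivity
    calc C * (N (eta F y))⁻¹ ^ m * l ^ (-(1 + κ / 2))
        ≤ |C| * (N (eta F y))⁻¹ ^ m * l ^ (-(1 + κ / 2)) := by
          apply mul_le_mul_of_nonneg_right _ h5
          exact mul_le_mul_of_nonneg_right h7 h8
      _ ≤ |C| * ((c * r' ^ M)⁻¹) ^ m * l ^ (-(1 + κ / 2)) := by
          apply mul_le_mul_of_nonneg_right _ h5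
          exact mul_le_mul_of_nonneg_left h6 (abs_nonneg C)
  -- the potential of `μ'`
  have hB : Tendsto (fun ε : ℝ => ∫ y in Kr P r,
      ((∫ y' in Kr P r, (tau y y' + ε ^ 2)⁻¹ ∂μ') / Real.log (1 / ε)) ∂μ') (𝓝[>] 0)
      (𝓝 (∫ y in Kr P r, (0 : ℝ) ∂μ')) := by
    have e3 : ∀ᶠ ε : ℝ in 𝓝[>] 0, ε ∈ Ioo (0 : ℝ) (Real.exp (-1)) :=
      Ioo_mem_nhdsGT (Real.exp_pos _)
    apply tendsto_integral_filter_of_dominated_convergence (fun _ => (9 : ℝ))
    · filter_upwards [e3] with ε hε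
      exact ((EnC_inner_int (μ'.restrict (Kr P r)) (μ'.restrict (Kr P r))
        hε.1).div_const _).aestronglyMeasurable
    · filter_upwards [e3] with ε hε
      have hlog1 : 1 ≤ Real.log (1 / ε) := by
        rw [one_div, Real.log_inv]
        have := Real.log_lt_log hε.1 hε.2
        rw [Real.log_exp] at this
        linarith
      have hε1 : ε < 1 := hε.2.trans (by
        rw [Real.exp_lt_one_iff]; norm_num)
      refine (ae_restrict_iff' (Kr_meas P r)).2 (Eventually.of_forall fun y hy => ?_)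
      have h5 : 0 ≤ ∫ y' in Kr P r, (tau y y' + ε ^ 2)⁻¹ ∂μ' :=
        integral_nonneg fun y' => (inv_pos.2 (EnC_pos y y' hε.1)).le
      rw [Real.norm_of_nonneg (by positivity), div_le_iff₀ (by linarith)]
      have h6 := EnC_bd μ' hμ'.prob (y := y) (Kr P r) (fun s hs => by
        have h7 := hm y s hy.1 hs
        have h8 : {x | tau y x < s ^ 2} = {x | tau x y < s ^ 2} := by
          ext x; simp only [mem_ofPred_eq, tau_symm y x]
        rw [h8]; exact h7) hε.1 hε1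
      linarith
    · exact integrable_const _
    · refine ae_restrict_of_ae ?_
      filter_upwards [hl] with y hy
      exact EnC_tend μ' hμ'.prob y (Kr P r) hy
  simp only [integral_zero] at hB
  have hlog : Tendsto (fun ε : ℝ => Real.log (1 / ε)) (𝓝[>] 0) atTop := by
    have := Real.tendsto_log_nhdsGT_zero
    have h2 : (fun ε : ℝ => Real.log (1 / ε)) = fun ε => -Real.log ε := by
      ext ε
      rw [one_div, Real.log_inv]
    rw [h2]
    exact tendsto_neg_atBot_atTop.comp this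
  have e1 : ∀ᶠ ε : ℝ in 𝓝[>] 0, 6 * B0 / η < Real.log (1 / ε) := hlog.eventually_gt_atTop _
  have e2 : ∀ᶠ ε : ℝ in 𝓝[>] 0, 0 < Real.log (1 / ε) := hlog.eventually_gt_atTop _
  have e4 := (Metric.tendsto_nhds.1 hB) (η / 2) (by positivity)
  have e5 := (e1.and e2).and e4
  rw [eventually_nhdsWithin_iff, Metric.eventually_nhds_iff] at e5
  obtain ⟨ε0, hε0, h⟩ := e5
  refine ⟨ε0, hε0, fun ε hε hεε => ?_⟩
  obtain ⟨⟨h1, h2⟩, h3⟩ := h (y := ε) (by rw [Real.dist_eq, sub_zero, abs_of_pos hε]; exact hεε) hε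
  rw [Real.dist_eq, sub_zero, integral_div] at h3
  have h3' := lt_of_le_of_lt (le_abs_self _) h3
  rw [div_lt_iff₀ h2] at h3'
  have hfK : IsFiniteMeasure (μ.restrict (Kr P r)) := inferInstance
  have hμK : μ.real (Kr P r) ≤ 1 := by
    have := measureReal_mono (μ := μ) (subset_univ (Kr P r))
    rw [measureReal_def, measureReal_def, hμ.prob] at this
    simpa [measureReal_def] using this
  have hμK' : μ'.real (Kr P r) ≤ 1 := by
    have := measureReal_mono (μ := μ') (subset_univ (Kr P r))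
    rw [measureReal_def, measureReal_def, hμ'.prob] at this
    simpa [measureReal_def] using this
  -- three bounded parts
  have hAint : ∀ n : Measure V, IsFiniteMeasure n → n.real (Kr P r) ≤ 1 →
      ∫ y in Kr P r, ∫ y' in Kr P r, (tau y y' + ε ^ 2)⁻¹ ∂μ ∂n ≤ B0 := by
    intro n hn hn1
    calc ∫ y in Kr P r, ∫ y' in Kr P r, (tau y y' + ε ^ 2)⁻¹ ∂μ ∂n
        ≤ ∫ y in Kr P r, B0 ∂n := by
          refine setIntegral_mono_on (EnC_inner_int _ _ hε) (integrable_const _) (Kr_meas P r) ?_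
          intro y hy
          exact hA y hy ε hε
      _ = n.real (Kr P r) * B0 := by
          rw [setIntegral_const, smul_eq_mul]
      _ ≤ 1 * B0 := by gcongr
      _ = B0 := one_mul _
  have hswap : ∫ y in Kr P r, ∫ y' in Kr P r, (tau y y' + ε ^ 2)⁻¹ ∂μ' ∂μ =
      ∫ y in Kr P r, ∫ y' in Kr P r, (tau y y' + ε ^ 2)⁻¹ ∂μ ∂μ' := by
    rw [integral_integral_swap (f := fun y y' => (tau y y' + ε ^ 2)⁻¹)
      (EnC_int2 (μ.restrict (Kr P r)) (μ'.restrict (Kr P r)) hε)]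
    have hsy : ∀ y y' : V, (tau y' y + ε ^ 2)⁻¹ = (tau y y' + ε ^ 2)⁻¹ := fun y y' => by
      rw [tau_symm y' y]
    simp_rw [hsy]
  have hsplit : En (μ + μ') P r ε =
      (∫ y in Kr P r, ∫ y' in Kr P r, (tau y y' + ε ^ 2)⁻¹ ∂μ ∂μ +
       ∫ y in Kr P r, ∫ y' in Kr P r, (tau y y' + ε ^ 2)⁻¹ ∂μ' ∂μ) +
      (∫ y in Kr P r, ∫ y' in Kr P r, (tau y y' + ε ^ 2)⁻¹ ∂μ ∂μ' +
       ∫ y in Kr P r, ∫ y' in Kr P r, (tau y y' + ε ^ 2)⁻¹ ∂μ' ∂μ') := by
    have hin : ∀ y, ∫ y' in Kr P r, (tau y y' + ε ^ 2)⁻¹ ∂(μ + μ') =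
        ∫ y' in Kr P r, (tau y y' + ε ^ 2)⁻¹ ∂μ + ∫ y' in Kr P r, (tau y y' + ε ^ 2)⁻¹ ∂μ' := by
      intro y
      rw [Measure.restrict_add, integral_add_measure (EnC_int _ y hε) (EnC_int _ y hε)]
    rw [En]
    simp_rw [hin]
    have hI : ∀ n : Measure V, IsFiniteMeasure n →
        Integrable (fun y => ∫ y' in Kr P r, (tau y y' + ε ^ 2)⁻¹ ∂μ +
          ∫ y' in Kr P r, (tau y y' + ε ^ 2)⁻¹ ∂μ') (n.restrict (Kr P r)) := fun n hn =>
      (EnC_inner_int (n.restrict (Kr P r)) (μ.restrict (Kr P r)) hε).add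
        (EnC_inner_int (n.restrict (Kr P r)) (μ'.restrict (Kr P r)) hε)
    have h1 := hI μ hf
    have h2 := hI μ' hf'
    rw [Measure.restrict_add, integral_add_measure h1 h2,
      integral_add (EnC_inner_int _ _ hε) (EnC_inner_int _ _ hε),
      integral_add (EnC_inner_int _ _ hε) (EnC_inner_int _ _ hε)]
  have ha := hAint μ hf hμK
  have hb := hAint μ' hf' hμK'
  rw [hsplit, hswap]
  rw [div_lt_iff₀ hη] at h1
  nlinarith

end Pool.Agent.H85.DC
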