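import Pool.Agent.H85.DC.AdmI
import Pool.Agent.H85.DC.EnC

/-!
# Row AdmJ: admissibility in the Hölder case

`μ` Hölder off Sing: `μ {y' | tau y y' < s^2} ≤ C (N (eta F y))⁻¹^k s^(2+κ)` for unit `y` off the zeros of `eta F`, `0 < s < 1`; wlog `C ≥ 1`, `κ ≤ 1` (for `s < 1` the bound for `κ` implies it for smaller `κ`).
Let `C1, m` be the constants of `loss_bound`, `c, M` those of `nullst_Kr`.
(1) Bound of `Tr μ μ' P r ε` for `0 < r ≤ 1`: `Tr = ∫_{y ∈ Kr P r} ∫_{y'} e^{-tau/(8ε^2)} dμ'(y') dμ(y) = ∫_{y'} ∫_{y ∈ Kr P r} … dμ(y) dμ'(y')` (Fubini). For `y'` unit: if `y' ∉ Kr P (r/4)` then `tau y y' ≥ r/4` for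
`y ∈ Kr P r` (`√r - √r/2`), integrand `≤ e^{-r/(32ε^2)}`. If `y' ∈ Kr P (r/4)` (and `eta F y' ≠ 0`): with `s = ε^{1-b}`, `b = κ/(2(2+κ))`, `(1-b)(2+κ) = 2 + κ/2`:
`∫ e^{-tau/(8ε^2)} dμ ≤ μ{tau y' y < s^2} + e^{-s^2/(8ε^2)} ≤ C (c (r/4)^M)^{-k} ε^{2+κ/2} + e^{-ε^{-2b}/8}`.
So `Tr ≤ C' r^{-Mk} ε^{2+κ/2} + e^{-ε^{-2b}/8} + e^{-r/(32ε^2)}`.
(2) Let `q := max 1 (m + M k)`, `a := κ/(48 q)`-ish: `s1 := max 1 (a log(1/ε))`, for small `ε` equal to `a log (1/ε)`. `r0 := ρ^2 e^{-(6 s1 + 1)}/2 = (ρ^2/(2e)) ε^{6a}`. With `6 a q ≤ κ/8`: `r0^{-q} ≤ C_ρ ε^{-κ/8}`, and `r0/ε^2 ≥ c_ρ ε^{-1}`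
(`6a ≤ 1`). By `loss_bound` with `r = r0/4`: `Loss ≤ C1 r0^{-m} ε^{-2} (C' (r0/4)^{-Mk} ε^{2+κ/2} + e^{-ε^{-2b}/8} + e^{-r0/(128ε^2)}) + C1 ε^{-8} e^{-r0/(4ε^2)} → 0` as `ε → 0`
(first term `≤ C_ρ ε^{κ/2 - κ/4}`, the others are polynomial in `1/ε` times `exp(-c ε^{-2b})` or `exp(-c ε^{-1})`).
(3) `(1 + En)/s1 ≤ (1 + η' log(1/ε))/(a log(1/ε)) → ≤ η` with `η' = aη/2` (`en_small`).
-/

open MeasureTheory
open scoped ContDiff BigOperators ComplexConjugate Matrix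

namespace Pool.Agent.H85.DC

theorem AdmJ_meas (y' : V) : Measurable (fun y => tau y' y) := by
  have h0 : Measurable (fun y : V => (y', y)) := measurable_const.prodMk measurable_id
  have h := Measurable.comp measurable_tau h0
  exact h

theorem AdmJ_meas' (y' : V) : Measurable (fun y => tau y y') := by
  have h0 : Measurable (fun y : V => (y, y')) := measurable_id.prodMk measurable_const
  have h := Measurable.comp measurable_tau h0
  exact h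

theorem AdmJ_unit {y : V} (h : N y = 1) : y ≠ 0 := by
  rintro rfl
  simp [N] at h

theorem AdmJ_exp_le (y y' : V) {ε : ℝ} (hε : 0 < ε) :
    Real.exp (-(tau y y') / (8 * ε ^ 2)) ≤ 1 := by
  rw [Real.exp_le_one_iff, neg_div, neg_nonpos]
  exact div_nonneg (tau_nonneg _ _) (by positivity)

theorem AdmJ_exp_mono {t a ε : ℝ} (hε : 0 < ε) (h : a ≤ t) :
    Real.exp (-t / (8 * ε ^ 2)) ≤ Real.exp (-a / (8 * ε ^ 2)) := by
  apply Real.exp_le_exp.2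
  exact div_le_div_of_nonneg_right (by linarith) (by positivity)

theorem AdmJ_int {μ : Measure V} [IsFiniteMeasure μ] (y' : V) {ε : ℝ} (hε : 0 < ε) :
    Integrable (fun y => Real.exp (-(tau y y') / (8 * ε ^ 2))) μ := by
  apply Integrable.of_bound (C := 1)
  · exact (Real.measurable_exp.comp ((AdmJ_meas' y').neg.div_const _)).aestronglyMeasurable
  · refine Filter.Eventually.of_forall fun y => ?_
    rw [Real.norm_of_nonneg (Real.exp_pos _).le]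
    exact AdmJ_exp_le _ _ hε

theorem AdmJ_inner {μ : Measure V} [IsProbabilityMeasure μ] (y' : V) {s ε : ℝ}
    (hε : 0 < ε) (A : Set V) :
    ∫ y in A, Real.exp (-(tau y y') / (8 * ε ^ 2)) ∂μ ≤
      (μ {y | tau y' y < s ^ 2}).toReal + Real.exp (-(s ^ 2) / (8 * ε ^ 2)) := by
  have hms : MeasurableSet {y | tau y' y < s ^ 2} := measurableSet_lt (AdmJ_meas y') measurable_const
  have h1 : ∫ y in A, Real.exp (-(tau y y') / (8 * ε ^ 2)) ∂μ ≤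
      ∫ y, Real.exp (-(tau y y') / (8 * ε ^ 2)) ∂μ :=
    setIntegral_le_integral (AdmJ_int y' hε) (Filter.Eventually.of_forall fun y => (Real.exp_pos _).le)
  have hi : Integrable (Set.indicator {y | tau y' y < s ^ 2} (1 : V → ℝ)) μ :=
    (integrable_const (1 : ℝ)).indicator hms
  have h2 : ∫ y, Real.exp (-(tau y y') / (8 * ε ^ 2)) ∂μ ≤
      ∫ y, (Set.indicator {y | tau y' y < s ^ 2} (1 : V → ℝ) y + Real.exp (-(s ^ 2) / (8 * ε ^ 2))) ∂μ := by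
    apply integral_mono (AdmJ_int y' hε) (hi.add (integrable_const _))
    intro y
    show Real.exp (-(tau y y') / (8 * ε ^ 2)) ≤
      Set.indicator {y | tau y' y < s ^ 2} (1 : V → ℝ) y + Real.exp (-(s ^ 2) / (8 * ε ^ 2))
    by_cases h : tau y' y < s ^ 2
    · have e : Set.indicator {y | tau y' y < s ^ 2} (1 : V → ℝ) y = 1 :=
        Set.indicator_of_mem (s := {y | tau y' y < s ^ 2}) h _
      rw [e]
      have := AdmJ_exp_le y y' hε
      have := Real.exp_pos (-(s ^ 2) / (8 * ε ^ 2))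
      linarith
    · have e : Set.indicator {y | tau y' y < s ^ 2} (1 : V → ℝ) y = 0 :=
        Set.indicator_of_notMem (s := {y | tau y' y < s ^ 2}) h _
      rw [e, zero_add]
      apply AdmJ_exp_mono hε
      rw [tau_symm y y']
      exact not_lt.1 h
  refine (h1.trans h2).trans (le_of_eq ?_)
  rw [integral_add hi (integrable_const _), integral_indicator_one hms, integral_const]
  simp [Measure.real]

theorem AdmJ_far {y y' p : V} {r : ℝ} (hr : 0 < r) (hy : y ≠ 0) (hy' : y' ≠ 0) (hp : p ≠ 0)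
    (h1 : r ≤ tau y p) (h2 : tau y' p < r / 4) : r / 4 ≤ tau y y' := by
  have a1 := Real.sqrt_le_sqrt h1
  have a2 := Real.sqrt_le_sqrt h2.le
  have a3 := tau_metric hy hy' hp
  have a4 : Real.sqrt (r / 4) = Real.sqrt r / 2 := by
    rw [show r / 4 = r / 2 ^ 2 by ring, Real.sqrt_div' _ (by norm_num), Real.sqrt_sq (by norm_num)]
  have a5 : Real.sqrt r / 2 ≤ Real.sqrt (tau y y') := by linarith
  have a6 := Real.sq_sqrt hr.le
  have a7 := Real.sq_sqrt (tau_nonneg y y')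
  have a8 := Real.sqrt_nonneg r
  nlinarith

theorem AdmJ_near {μ : Measure V} [IsProbabilityMeasure μ] {P : Finset V} (hP : ∀ p ∈ P, N p = 1)
    {y' : V} (hy' : N y' = 1) {r ε : ℝ} (hr : 0 < r) (hε : 0 < ε) (h : y' ∉ Kr P (r / 4)) :
    ∫ y in Kr P r, Real.exp (-(tau y y') / (8 * ε ^ 2)) ∂μ ≤ Real.exp (-r / (32 * ε ^ 2)) := by
  obtain ⟨p, hp, hp2⟩ : ∃ p ∈ P, tau y' p < r / 4 := by
    by_contra hcon
    push Not at hcon
    exact h ⟨hy', hcon⟩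
  have hp0 := AdmJ_unit (hP p hp)
  have hb : ∀ y ∈ Kr P r, ‖Real.exp (-(tau y y') / (8 * ε ^ 2))‖ ≤ Real.exp (-r / (32 * ε ^ 2)) := by
    intro y hy
    rw [Real.norm_of_nonneg (Real.exp_pos _).le]
    have h1 := AdmJ_far hr (AdmJ_unit hy.1) (AdmJ_unit hy') hp0 (hy.2 p hp) hp2
    refine (AdmJ_exp_mono hε h1).trans (le_of_eq ?_)
    congr 1
    field_simp
    ring
  have h2 := norm_setIntegral_le_of_norm_le_const (measure_lt_top μ (Kr P r)) hb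
  have h3 : μ.real (Kr P r) ≤ 1 := measureReal_le_one
  have h4 := le_trans (le_abs_self _) h2
  have h5 := mul_le_mul_of_nonneg_left h3 (Real.exp_pos (-r / (32 * ε ^ 2))).le
  linarith

theorem tr_holder {F : Fin 3 → MvPolynomial (Fin 3) ℂ} {P : Finset V} (hP : SingPts F P)
    {μ μ' : Measure V} (hμ : IsCur F μ) (hμ' : IsCur F μ') (hh : HolderOff F μ) :
    ∃ (C : ℝ) (q : ℕ) (κ b : ℝ), 0 < C ∧ 0 < κ ∧ κ ≤ 1 ∧ 0 < b ∧ ∀ r ε : ℝ, 0 < r → r ≤ 1 → 0 < ε → ε < 1 →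
      Tr μ μ' P r ε ≤ C * (r⁻¹) ^ q * ε ^ (2 + κ / 2) + Real.exp (-ε ^ (-2 * b) / 8) +
        Real.exp (-r / (32 * ε ^ 2)) := by
  have : IsProbabilityMeasure μ := ⟨hμ.prob⟩
  have : IsProbabilityMeasure μ' := ⟨hμ'.prob⟩
  obtain ⟨C0, k, κ0, hκ0, hH⟩ := hh
  obtain ⟨c, M, hc, hN⟩ := nullst_Kr hP
  obtain ⟨κ, hκ⟩ : ∃ κ, κ = min κ0 1 := ⟨_, rfl⟩
  have hκpos : 0 < κ := by rw [hκ]; exact lt_min hκ0 one_pos
  have hκ1 : κ ≤ 1 := by rw [hκ]; exact min_le_right _ _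
  have hκκ0 : κ ≤ κ0 := by rw [hκ]; exact min_le_left _ _
  obtain ⟨b, hb⟩ : ∃ b, b = κ / (2 * (2 + κ)) := ⟨_, rfl⟩
  have hbpos : 0 < b := by rw [hb]; positivity
  have hb1 : b < 1 := by
    rw [hb, div_lt_one (by positivity)]; linarith
  have hexp : (1 - b) * (2 + κ) = 2 + κ / 2 := by
    rw [hb]; field_simp; ring
  obtain ⟨C1, hC1⟩ : ∃ C1 : ℝ, C1 = max 1 C0 := ⟨_, rfl⟩
  have hC1pos : 0 < C1 := by rw [hC1]; exact lt_of_lt_of_le one_pos (le_max_left _ _)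
  have hC01 : C0 ≤ C1 := by rw [hC1]; exact le_max_right _ _
  refine ⟨C1 * (c⁻¹) ^ k * 4 ^ (M * k), M * k, κ, b, by positivity, hκpos, hκ1, hbpos, ?_⟩
  intro r ε hr hr1 hε hε1
  obtain ⟨B, hB⟩ : ∃ B : ℝ, B = C1 * (c⁻¹) ^ k * 4 ^ (M * k) * (r⁻¹) ^ (M * k) * ε ^ (2 + κ / 2) +
    Real.exp (-ε ^ (-2 * b) / 8) + Real.exp (-r / (32 * ε ^ 2)) := ⟨_, rfl⟩
  rw [← hB]
  have hT1 : 0 ≤ C1 * (c⁻¹) ^ k * 4 ^ (M * k) * (r⁻¹) ^ (M * k) * ε ^ (2 + κ / 2) := by positivity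
  have hT2 := (Real.exp_pos (-ε ^ (-2 * b) / 8)).le
  have hT3 := (Real.exp_pos (-r / (32 * ε ^ 2))).le
  obtain ⟨s, hs⟩ : ∃ s : ℝ, s = ε ^ (1 - b) := ⟨_, rfl⟩
  have hs0 : 0 < s := by rw [hs]; exact Real.rpow_pos_of_pos hε _
  have hs1 : s < 1 := by rw [hs]; exact Real.rpow_lt_one hε.le hε1 (by linarith)
  have hs2 : s ^ 2 = ε ^ (-2 * b) * ε ^ 2 := by
    rw [hs, ← Real.rpow_natCast, ← Real.rpow_mul hε.le, ← Real.rpow_natCast ε 2, ← Real.rpow_add hε]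
    congr 1
    push_cast
    ring
  have hs3 : -(s ^ 2) / (8 * ε ^ 2) = -ε ^ (-2 * b) / 8 := by
    rw [hs2]; field_simp
  -- the inner bound
  have hin : ∀ y' : V, N y' = 1 → eta F y' ≠ 0 →
      ∫ y in Kr P r, Real.exp (-(tau y y') / (8 * ε ^ 2)) ∂μ ≤ B := by
    intro y' hy' hey'
    by_cases hK : y' ∈ Kr P (r / 4)
    · have h1 := AdmJ_inner (μ := μ) y' (s := s) hε (Kr P r)
      have h2 := hH y' s hy' hey' hs0 hs1
      have h3 := hN (r / 4) (by positivity) (by linarith) y' hK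
      have hcr : 0 < c * (r / 4) ^ M := by positivity
      have h4 : (N (eta F y'))⁻¹ ^ k ≤ (c * (r / 4) ^ M)⁻¹ ^ k := by
        apply pow_le_pow_left₀ (inv_nonneg.2 (hcr.le.trans h3))
        exact inv_anti₀ hcr h3
      have h5 : s ^ (2 + κ0) ≤ s ^ (2 + κ) :=
        Real.rpow_le_rpow_of_exponent_ge hs0 hs1.le (by linarith)
      have h6 : s ^ (2 + κ) = ε ^ (2 + κ / 2) := by
        rw [hs, ← Real.rpow_mul hε.le, hexp]
      have h7 : (c * (r / 4) ^ M)⁻¹ ^ k = (c⁻¹) ^ k * 4 ^ (M * k) * (r⁻¹) ^ (M * k) := by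
        rw [mul_inv, mul_pow, ← inv_pow, ← pow_mul, inv_div, div_eq_mul_inv, mul_pow, mul_assoc]
      have h8 : (μ {y | tau y' y < s ^ 2}).toReal ≤
          C1 * (c⁻¹) ^ k * 4 ^ (M * k) * (r⁻¹) ^ (M * k) * ε ^ (2 + κ / 2) := by
        calc (μ {y | tau y' y < s ^ 2}).toReal ≤ C0 * (N (eta F y'))⁻¹ ^ k * s ^ (2 + κ0) := h2
          _ ≤ C1 * (N (eta F y'))⁻¹ ^ k * s ^ (2 + κ0) := by
              apply mul_le_mul_of_nonneg_right _ (Real.rpow_nonneg hs0.le _)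
              exact mul_le_mul_of_nonneg_right hC01 (pow_nonneg (inv_nonneg.2 (hcr.le.trans h3)) _)
          _ ≤ C1 * (c * (r / 4) ^ M)⁻¹ ^ k * s ^ (2 + κ) := by
              apply mul_le_mul _ h5 (Real.rpow_nonneg hs0.le _) (by positivity)
              exact mul_le_mul_of_nonneg_left h4 hC1pos.le
          _ = C1 * (c⁻¹) ^ k * 4 ^ (M * k) * (r⁻¹) ^ (M * k) * ε ^ (2 + κ / 2) := by
              rw [h7, h6]; ring
      rw [hs3] at h1
      rw [hB]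
      linarith
    · have h1 := AdmJ_near (μ := μ) hP.unit hy' hr hε hK
      rw [hB]
      linarith
  -- Fubini
  have hswap : Tr μ μ' P r ε =
      ∫ y', ∫ y in Kr P r, Real.exp (-(tau y y') / (8 * ε ^ 2)) ∂μ ∂μ' := by
    unfold Tr
    apply integral_integral_swap
    apply Integrable.of_bound (C := 1)
    · exact (Real.measurable_exp.comp ((measurable_tau.neg).div_const _)).aestronglyMeasurable
    · refine Filter.Eventually.of_forall fun q => ?_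
      show ‖Real.exp (-(tau q.1 q.2) / (8 * ε ^ 2))‖ ≤ 1
      rw [Real.norm_of_nonneg (Real.exp_pos _).le]
      exact AdmJ_exp_le _ _ hε
  rw [hswap]
  have hfin : ∫ y', ∫ y in Kr P r, Real.exp (-(tau y y') / (8 * ε ^ 2)) ∂μ ∂μ' ≤ ∫ _y' : V, B ∂μ' := by
    apply integral_mono_of_nonneg
    · exact Filter.Eventually.of_forall fun y' => integral_nonneg fun y => (Real.exp_pos _).le
    · exact integrable_const _
    · filter_upwards [hμ'.sphere, hμ'.sing] with y' h1 h2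
      exact hin y' h1 h2
  refine hfin.trans (le_of_eq ?_)
  simp

theorem AdmJ_lim (n : ℝ) {β c : ℝ} (hβ : 0 < β) (hc : 0 < c) :
    Filter.Tendsto (fun t : ℝ => t ^ n * Real.exp (-(c * t ^ β))) Filter.atTop (nhds 0) := by
  have h1 := (tendsto_rpow_mul_exp_neg_mul_atTop_nhds_zero (n / β) c hc).comp (tendsto_rpow_atTop hβ)
  refine h1.congr' ?_
  filter_upwards [Filter.eventually_gt_atTop 0] with t ht
  simp only [Function.comp_apply]
  rw [← Real.rpow_mul ht.le, mul_div_cancel₀ _ hβ.ne', neg_mul]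

/-- the sum of the four error terms -/
noncomputable def AdmJ_E (C1 C2 c0 a b κ : ℝ) (m q : ℕ) (t : ℝ) : ℝ :=
  C1 * (c0⁻¹ * t ^ (6 * a)) ^ m * t ^ 2 *
    (C2 * (4 * c0⁻¹ * t ^ (6 * a)) ^ q * t ^ (-(2 + κ / 2)) + Real.exp (-(1 / 8 * t ^ (2 * b))) +
      Real.exp (-(c0 / 128 * t ^ (2 - 6 * a)))) + C1 * t ^ 8 * Real.exp (-(c0 / 4 * t ^ (2 - 6 * a)))

theorem AdmJ_E_lim {C1 C2 c0 a b κ : ℝ} {m q : ℕ} (hc0 : 0 < c0) (hb : 0 < b)
    (ha2 : 6 * a < 2) (hκ : 6 * a * (m + q) < κ / 2) :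
    Filter.Tendsto (AdmJ_E C1 C2 c0 a b κ m q) Filter.atTop (nhds 0) := by
  have l1 : Filter.Tendsto (fun t : ℝ => t ^ (-(κ / 2 - 6 * a * (m + q)))) Filter.atTop (nhds 0) :=
    tendsto_rpow_neg_atTop (by linarith)
  have l2 := AdmJ_lim (6 * a * m + 2) (by linarith : 0 < 2 * b) (by norm_num : (0 : ℝ) < 1 / 8)
  have l3 := AdmJ_lim (6 * a * m + 2) (by linarith : 0 < 2 - 6 * a) (by positivity : 0 < c0 / 128)
  have l4 := AdmJ_lim 8 (by linarith : 0 < 2 - 6 * a) (by positivity : 0 < c0 / 4)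
  have l := (((l1.const_mul (C1 * c0⁻¹ ^ m * C2 * (4 * c0⁻¹) ^ q)).add
    (l2.const_mul (C1 * c0⁻¹ ^ m))).add (l3.const_mul (C1 * c0⁻¹ ^ m))).add (l4.const_mul C1)
  simp only [mul_zero, add_zero] at l
  refine l.congr' ?_
  filter_upwards [Filter.eventually_gt_atTop 0] with t ht
  unfold AdmJ_E
  have e1 : (t ^ (6 * a)) ^ m = t ^ (6 * a * m) := by
    rw [← Real.rpow_natCast, ← Real.rpow_mul ht.le]
  have e2 : (t ^ (6 * a)) ^ q = t ^ (6 * a * q) := by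
    rw [← Real.rpow_natCast, ← Real.rpow_mul ht.le]
  have e3 : t ^ (6 * a * m + 2) = t ^ (6 * a * m) * t ^ 2 := by
    rw [Real.rpow_add ht]
    congr 1
    exact_mod_cast Real.rpow_natCast t 2
  have e4 : t ^ (-(κ / 2 - 6 * a * (m + q))) =
      t ^ (6 * a * m) * t ^ 2 * t ^ (6 * a * q) * t ^ (-(2 + κ / 2)) := by
    have e5 : t ^ 2 = t ^ (2 : ℝ) := by exact_mod_cast (Real.rpow_natCast t 2).symm
    rw [e5, ← Real.rpow_add ht, ← Real.rpow_add ht, ← Real.rpow_add ht]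
    congr 1
    ring
  have e6 : t ^ (8 : ℝ) = t ^ 8 := by exact_mod_cast Real.rpow_natCast t 8
  have e7 : (c0⁻¹ * t ^ (6 * a)) ^ m = c0⁻¹ ^ m * t ^ (6 * a * m) := by rw [mul_pow, e1]
  have e8 : (4 * c0⁻¹ * t ^ (6 * a)) ^ q = (4 * c0⁻¹) ^ q * t ^ (6 * a * q) := by rw [mul_pow _ (t ^ (6 * a)), e2]
  rw [e3, e4, e6, e7, e8]
  ring

theorem adm_holder {F : Fin 3 → MvPolynomial (Fin 3) ℂ} {d : ℕ}
    (hF : ∀ j, (F j).IsHomogeneous d) {P : Finset V} (hP : SingPts F P) {μ μ' : Measure V}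
    (hμ : IsCur F μ) (hμ' : IsCur F μ')
    (hm : ∀ (y : V) (s : ℝ), N y = 1 → 0 < s → (μ' {x | tau x y < s ^ 2}).toReal ≤ 4 * s ^ 2)
    (hh : HolderOff F μ) (hl : ZeroLelong μ') : Adm F μ μ' P := by
  intro ρ r η hρ hρ2 hr hη
  obtain ⟨C2, q, κ, b, hC2, hκ, hκ1, hb, hTr⟩ := tr_holder hP hμ hμ' hh
  obtain ⟨C1, m, hC1, hLoss⟩ := loss_bound hF hP
  obtain ⟨a, ha⟩ : ∃ a : ℝ, a = κ / (24 * (m + q + 1)) := ⟨_, rfl⟩
  have hmq : (0 : ℝ) < (m : ℝ) + q + 1 := by positivity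
  have hapos : 0 < a := by rw [ha]; positivity
  have ha1 : 6 * a * (m + q + 1) = κ / 4 := by
    rw [ha]; field_simp; ring
  have hm0 : (0 : ℝ) ≤ (m : ℝ) := Nat.cast_nonneg _
  have hq0 : (0 : ℝ) ≤ (q : ℝ) := Nat.cast_nonneg _
  have ha2 : 6 * a < 2 := by nlinarith
  have ha3 : 6 * a * (m + q) < κ / 2 := by nlinarith
  obtain ⟨c0, hc0⟩ : ∃ c0 : ℝ, c0 = ρ ^ 2 * Real.exp (-1) / 2 := ⟨_, rfl⟩
  have hc0pos : 0 < c0 := by rw [hc0]; positivity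
  have hc01 : c0 ≤ 1 := by
    have h1 : Real.exp (-1) ≤ 1 := Real.exp_le_one_iff.2 (by norm_num)
    have h2 : ρ ^ 2 ≤ 1 := by nlinarith
    have h3 := Real.exp_pos (-1)
    rw [hc0]
    nlinarith [mul_le_mul h2 h1 h3.le zero_le_one]
  obtain ⟨ε1, hε1, hEn⟩ := en_small hP hμ hμ' hm hh hl hr (by positivity : 0 < a * η / 2)
  have hlogt := Real.tendsto_log_atTop
  have ev1 : ∀ᶠ t : ℝ in Filter.atTop, AdmJ_E C1 C2 c0 a b κ m q t ≤ η := by
    have := (AdmJ_E_lim (C1 := C1) (C2 := C2) hc0pos hb ha2 ha3).eventually_lt_const hη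
    filter_upwards [this] with t ht
    exact ht.le
  have ev2 : ∀ᶠ t : ℝ in Filter.atTop, 1 / a ≤ Real.log t := hlogt.eventually_ge_atTop _
  have ev3 : ∀ᶠ t : ℝ in Filter.atTop, 1 / (a * η / 2) ≤ Real.log t := hlogt.eventually_ge_atTop _
  obtain ⟨T, hT⟩ := Filter.eventually_atTop.1 ((ev1.and ev2).and (ev3.and
    (Filter.eventually_gt_atTop (1 : ℝ))))
  obtain ⟨T', hT'⟩ : ∃ T' : ℝ, T' = max T 1 := ⟨_, rfl⟩
  have hT'1 : 1 ≤ T' := by rw [hT']; exact le_max_right _ _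
  have hT'T : T ≤ T' := by rw [hT']; exact le_max_left _ _
  refine ⟨min ε1 (1 / T'), lt_min hε1 (by positivity), fun ε hε hεlt => ?_⟩
  have hεε1 : ε < ε1 := lt_of_lt_of_le hεlt (min_le_left _ _)
  have hεT : ε < 1 / T' := lt_of_lt_of_le hεlt (min_le_right _ _)
  obtain ⟨t, ht⟩ : ∃ t : ℝ, t = 1 / ε := ⟨_, rfl⟩
  have hεt : ε = t⁻¹ := by rw [ht, one_div, inv_inv]
  have htT : T' ≤ t := by
    rw [ht, le_div_iff₀ hε]
    rw [lt_div_iff₀ (by linarith)] at hεT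
    linarith
  obtain ⟨⟨g1, g2⟩, g3, g4⟩ := hT t (hT'T.trans htT)
  have ht0 : 0 < t := by linarith
  have hε1' : ε < 1 := by
    rw [hεt]
    exact inv_lt_one_of_one_lt₀ g4
  have hs1 : 1 ≤ a * Real.log t := by
    rw [div_le_iff₀ hapos] at g2
    linarith
  refine ⟨a * Real.log t, hs1, ?_, ?_⟩
  · rw [div_le_iff₀ (by linarith)]
    have h1 := hEn ε hε hεε1
    rw [← ht] at h1
    rw [div_le_iff₀ (by positivity)] at g3
    linarith
  · obtain ⟨r0, hr0⟩ : ∃ r0 : ℝ, r0 = ρ ^ 2 * Real.exp (-(6 * (a * Real.log t) + 1)) / 2 := ⟨_, rfl⟩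
    rw [← hr0]
    have hr0t : r0 = c0 * (t ^ (6 * a))⁻¹ := by
      rw [hr0, hc0, ← Real.rpow_neg ht0.le, Real.rpow_def_of_pos ht0,
        show -(6 * (a * Real.log t) + 1) = -1 + Real.log t * -(6 * a) by ring, Real.exp_add]
      ring
    have hta : 0 < t ^ (6 * a) := Real.rpow_pos_of_pos ht0 _
    have hta1 : 1 ≤ t ^ (6 * a) := Real.one_le_rpow g4.le (by positivity)
    have hr0pos : 0 < r0 := by rw [hr0t]; positivity
    have hr01 : r0 ≤ 1 := by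
      rw [hr0t]
      calc c0 * (t ^ (6 * a))⁻¹ ≤ 1 * 1 :=
            mul_le_mul hc01 (inv_le_one_of_one_le₀ hta1) (by positivity) zero_le_one
        _ = 1 := one_mul 1
    have h1 := hLoss μ μ' hμ hμ' ε r0 hε hε1'.le hr0pos hr01
    have h2 := hTr (r0 / 4) ε (by positivity) (by linarith) hε hε1'
    have h3 : C1 * (r0⁻¹) ^ m * (ε⁻¹) ^ 2 * Tr μ μ' P (r0 / 4) ε ≤
        C1 * (r0⁻¹) ^ m * (ε⁻¹) ^ 2 * (C2 * ((r0 / 4)⁻¹) ^ q * ε ^ (2 + κ / 2) +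
          Real.exp (-ε ^ (-2 * b) / 8) + Real.exp (-(r0 / 4) / (32 * ε ^ 2))) :=
      mul_le_mul_of_nonneg_left h2 (by positivity)
    refine le_trans (h1.trans (add_le_add_left h3 _)) ?_
    refine le_trans (le_of_eq ?_) g1
    have e1 : r0⁻¹ = c0⁻¹ * t ^ (6 * a) := by rw [hr0t, mul_inv, inv_inv]
    have e2 : (r0 / 4)⁻¹ = 4 * c0⁻¹ * t ^ (6 * a) := by
      rw [inv_div, div_eq_mul_inv, e1]; ring
    have e3 : ε⁻¹ = t := by rw [hεt, inv_inv]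
    have e4 : ε ^ (2 + κ / 2) = t ^ (-(2 + κ / 2)) := by
      rw [hεt, Real.inv_rpow ht0.le, Real.rpow_neg ht0.le]
    have e5 : ε ^ (-2 * b) = t ^ (2 * b) := by
      rw [hεt, Real.inv_rpow ht0.le, ← Real.rpow_neg ht0.le]
      congr 1
      ring
    have e6 : t ^ (2 - 6 * a) = t ^ 2 * (t ^ (6 * a))⁻¹ := by
      rw [Real.rpow_sub ht0, div_eq_mul_inv]
      congr 1
      exact_mod_cast Real.rpow_natCast t 2
    have e7 : -(r0 / 4) / (32 * ε ^ 2) = -(c0 / 128 * t ^ (2 - 6 * a)) := by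
      rw [e6, hr0t, hεt]
      field_simp
      ring
    have e8 : -r0 / (4 * ε ^ 2) = -(c0 / 4 * t ^ (2 - 6 * a)) := by
      rw [e6, hr0t, hεt]
      field_simp
    have e9 : -t ^ (2 * b) / 8 = -(1 / 8 * t ^ (2 * b)) := by ring
    unfold AdmJ_E
    rw [e1, e2, e3, e4, e5, e7, e8, e9]

end Pool.Agent.H85.DC
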