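import Pool.Agent.H85.DC.SmB

/-!
# Row SmF: the wedge product of two smoothed currents

`ee_smKK`: with `w' = perp x w`, `v' = perp x v` (orthogonal to `x`), brackets `X_w = (N w' + ε^2) Π - K(w')`, `K(a) = conj(a) a^T`, `Π = 1 - conj(x)x^T/N`.
`ee Π Π = 2`, `ee Π K(a) = N a` for `a ⊥ x`, `ee K(a) K(b) = N a N b - |ip a b|^2` (`ee_rank1`). So
`ee X_w X_v = 2 (N w' + ε^2)(N v' + ε^2) - (N w' + ε^2) N v' - (N v' + ε^2) N w' + N w' N v' - |ip w' v'|^2
= (N w' N v' - |ip w' v'|^2) + ε^2 (N w' + N v') + 2 ε^4`.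
`ee_smsm`: `ee` is bilinear: `ee (sm x) (sm' x) = ∫∫ ee (smK … y …) (smK … y' …) dμ' dμ` (finite sums of products of integrals; `integral_mul_left` etc.,
all integrands bounded for fixed `x`).
-/

open MeasureTheory
open scoped ContDiff BigOperators ComplexConjugate Matrix

namespace Pool.Agent.H85.DC

/-- `|a ∧ b|²`. -/
noncomputable def wed (a b : V) : ℝ := N a * N b - Complex.normSq (ip a b)

theorem SmF_ee (A B : M3) : ee A B = ∑ j, ∑ k, (A j j * B k k - A j k * B k j) := by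
  unfold ee
  simp only [Matrix.trace, Matrix.diag, Matrix.mul_apply, Finset.sum_mul_sum,
    Finset.sum_sub_distrib]

theorem SmF_comm (A B : M3) : ee A B = ee B A := by
  unfold ee
  rw [Matrix.trace_mul_comm, mul_comm]

theorem SmF_lin {μ : Measure V} (A : M3) {B : V → M3}
    (hB : ∀ j k, Integrable (fun y => B y j k) μ) :
    ∫ y, ee A (B y) ∂μ = ee A (fun j k => ∫ y, B y j k ∂μ) := by
  simp only [SmF_ee]
  have h1 : ∀ j k : Fin 3, Integrable (fun y => A j j * B y k k - A j k * B y k j) μ := fun j k =>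
    ((hB k k).const_mul _).sub ((hB k j).const_mul _)
  rw [integral_finsetSum _ fun j _ => integrable_finsetSum _ fun k _ => h1 j k]
  refine Finset.sum_congr rfl fun j _ => ?_
  rw [integral_finsetSum _ fun k _ => h1 j k]
  refine Finset.sum_congr rfl fun k _ => ?_
  rw [integral_sub ((hB k k).const_mul _) ((hB k j).const_mul _), integral_const_mul,
    integral_const_mul]

theorem ee_smKK {ε : ℝ} (y w y' v : V) {x : V} (hx : x ≠ 0) :
    ee (smK ε y w x) (smK ε y' v x) =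
      ((kk ε (tau x y) * kk ε (tau x y') / (N x) ^ 2 *
        (wed (perp x w) (perp x v) + ε ^ 2 * (N (perp x w) + N (perp x v)) + 2 * ε ^ 4) : ℝ) : ℂ) := by
  rw [ee_smK y w hx (fun k => SmA_killl y' v hx k) (fun j => SmA_killr y' v hx j),
    SmA_quad y' v hx w, smK_tr y' v hx]
  have h2 : ip w (perp x v) = ip (perp x w) (perp x v) := by
    have h3 : ip x (perp x v) = 0 := by
      rw [← SmA_ip_conj, perp_orth hx, map_zero]
    rw [show perp x w = w - (ip w x / (N x : ℂ)) • x from rfl, SmA_ip_sub w, SmA_ip_smul, h3]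
    ring
  rw [h2]
  unfold wed
  push_cast
  ring

theorem ee_smsm {F : Fin 3 → MvPolynomial (Fin 3) ℂ} {μ μ' : Measure V} (hμ : IsCur F μ)
    (hμ' : IsCur F μ') {ε : ℝ} (hε : 0 < ε) (h1 : ε ≤ 1) {x : V} (hx : x ≠ 0) :
    ee (sm F μ ε x) (sm F μ' ε x) =
      ((∫ y, ∫ y', kk ε (tau x y) * kk ε (tau x y') / (N x) ^ 2 *
        (wed (perp x (wv F y)) (perp x (wv F y')) +
          ε ^ 2 * (N (perp x (wv F y)) + N (perp x (wv F y'))) + 2 * ε ^ 4) ∂μ' ∂μ : ℝ) : ℂ) := by
  have hA : ∀ j k, Integrable (fun y : V => smK ε y (wv F y) x j k) μ := fun j k =>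
    SmA_int hμ hε h1 hx j k
  have hA' : ∀ j k, Integrable (fun y : V => smK ε y (wv F y) x j k) μ' := fun j k =>
    SmA_int hμ' hε h1 hx j k
  have e1 : ee (sm F μ ε x) (sm F μ' ε x) =
      ∫ y, ee (smK ε y (wv F y) x) (sm F μ' ε x) ∂μ := by
    have h := SmF_lin (sm F μ' ε x) hA
    rw [SmF_comm]
    rw [show (fun y => ee (smK ε y (wv F y) x) (sm F μ' ε x)) =
      fun y => ee (sm F μ' ε x) (smK ε y (wv F y) x) from funext fun y => SmF_comm _ _]
    exact h.symm
  have e2 : ∀ y, ee (smK ε y (wv F y) x) (sm F μ' ε x) =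
      ∫ y', ee (smK ε y (wv F y) x) (smK ε y' (wv F y') x) ∂μ' := fun y =>
    (SmF_lin (smK ε y (wv F y) x) hA').symm
  rw [e1]
  simp only [e2, ee_smKK _ _ _ _ hx]
  simp only [integral_complex_ofReal]

end Pool.Agent.H85.DC
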