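import Pool.Agent.H85.DC.Wv
import Pool.Agent.H85.DC.SmF

/-!
# Row Dir: regularity of the direction field

`wed a b = N a N b - |ip a b|^2 = N (cr a b)` (`tau_cross`).
(1) `x` unit, `w, v` arbitrary, `w' = perp x w`, `v' = perp x v`. `cr x w = cr x w'`, and for vectors `w', v'` orthogonal to `x`:
`wed w' v' = N (cr (cr x w) (cr x v))`: `(x × w) × (x × v) = det(x,w,v) x` (bilinear identity `cr (cr a b) (cr a c) = (a · cr b c) a`), so the right side is `|det(x,w,v)|^2 = |det (x,w',v')|^2`, and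
`|det(x,w',v')|^2 = N (cr w' v')` when `N x = 1`, `w', v' ⊥ x` (`cr w' v'` is a multiple of `conj x`, as it is orthogonal (bilinearly) to `w'`, `v'`; or verify with `tau_cross` applied to
`A = cr x w'`, `B = cr x v'`: `N A = N w'`, `N B = N v'`, `|ip A B| = |ip w' v'|` since `ip (cr x a) (cr x b) = N x ip a b - ip a x ip x b` (Binet–Cauchy)). Best: prove Binet–Cauchy
`ip (cr x a) (cr x b) = (N x) ip a b - ip a x * conj (ip b x)` by expansion, get `N (cr x w) = N w'`, `ip (cr x w)(cr x v) = ip w' v'`, so `wed w' v' = wed (cr x w) (cr x v) = N (cr (cr x w) (cr x v))`.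
(2) `n_y := cr y (wv F y) = (√N(eta))⁻¹ eta F y`, a unit vector (`wv_cr`). Unit `x, y, y'`, `l, l'` phases with `N (x - l y) ≤ 2 tau x y`, `N (x - l' y') ≤ 2 tau x y'` (`tau_phase`). Put `A = cr x w_y`, `B = cr x w_{y'}`,
`N A ≤ 1`, `N B ≤ 1` (`N (cr a b) ≤ N a N b`). `A - l n_y = cr (x - l y) w_y`, norm² `≤ 2 tau x y`; same for `B`.
`cr A B = cr (A - l n_y) B + cr (l n_y) (B - l' n_{y'}) + l l' cr n_y n_{y'}`, so `N (cr A B) ≤ 3 (2 tau x y + 2 tau x y' + N (cr n_y n_{y'}))`.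
(3) `N (cr n_y n_{y'})`: phase `k` with `N (y - k y') ≤ 2 tau y y'`; `eta F (k y') = k^(d+1) eta F y'` (`eta_hom`), so `N (cr n_y n_{y'}) = N (cr (eta y) (eta (k y')))/(N(eta y) N(eta y')) = N (cr (eta y - eta (k y')) (eta (k y')))/…
≤ N (eta y - eta (k y'))/N (eta y) ≤ C N (y - k y')/N (eta y) ≤ 2 C tau y y'/N (eta y)` (`eta_lip`).
(4) General `x ≠ 0`: `perp (l x) w = perp x w` and `tau (l x) y = tau x y`: reduce to unit `x`.
-/

open MeasureTheory
open scoped ContDiff BigOperators ComplexConjugate Matrix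

namespace Pool.Agent.H85.DC

theorem binet (x a b : V) : ip (cr x a) (cr x b) = (N x : ℂ) * ip a b - ip a x * conj (ip b x) := by
  rw [← TauM_ip_self x]
  unfold ip cr
  simp only [Fin.sum_univ_three, Matrix.cons_val_zero, Matrix.cons_val_one, Matrix.cons_val,
    map_add, map_sub, map_mul, Complex.conj_conj]
  ring

theorem wed_le {a b : V} : wed a b ≤ N a * N b := by
  unfold wed
  have := Complex.normSq_nonneg (ip a b)
  linarith

theorem wed_nonneg (a b : V) : 0 ≤ wed a b := by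
  unfold wed
  have := cs_ip a b
  linarith

private theorem Dir_wed (a b : V) : wed a b = N (cr a b) := by
  unfold wed
  rw [tau_cross]

private theorem Dir_cr_le (a b : V) : N (cr a b) ≤ N a * N b := by
  rw [← Dir_wed]; exact wed_le

private theorem Dir_ip_sub (a b x : V) (s t : ℂ) :
    ip (a - s • x) (b - t • x) = ip a b - conj t * ip a x - s * conj (ip b x) +
      s * conj t * (N x : ℂ) := by
  rw [← TauM_ip_self x]
  simp only [ip, Fin.sum_univ_three, Pi.sub_apply, Pi.smul_apply, smul_eq_mul, map_add, map_sub,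
    map_mul, Complex.conj_conj]
  ring

private theorem Dir_perp {x : V} (hx : N x = 1) (w v : V) :
    ip (perp x w) (perp x v) = ip (cr x w) (cr x v) := by
  unfold perp
  rw [Dir_ip_sub, binet, hx, Complex.ofReal_one, div_one, div_one]
  ring

private theorem Dir_perpN {x : V} (hx : N x = 1) (w : V) : N (perp x w) = N (cr x w) := by
  have h := Dir_perp hx w w
  rw [TauM_ip_self, TauM_ip_self] at h
  exact_mod_cast h

private theorem Dir_key {x : V} (hx : N x = 1) (w v : V) :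
    wed (perp x w) (perp x v) = N (cr (cr x w) (cr x v)) := by
  rw [← Dir_wed]
  unfold wed
  rw [Dir_perp hx, Dir_perpN hx, Dir_perpN hx]

private theorem Dir_perp_smul {l : ℂ} (hl : l ≠ 0) {x : V} (hx : x ≠ 0) (w : V) :
    perp (l • x) w = perp x w := by
  unfold perp
  have h1 : (Complex.normSq l : ℂ) = l * conj l := (Complex.mul_conj l).symm
  have h2 : (N x : ℂ) ≠ 0 := by exact_mod_cast (TauM_N_pos hx).ne'
  have h3 : conj l ≠ 0 := (map_ne_zero _).2 hl
  rw [TauM_ip_smul_right, TauM_N_smul, Complex.ofReal_mul, h1, smul_smul]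
  congr 2
  field_simp

private theorem Dir_s {t : ℝ} (ht : 0 < t) : Complex.normSq (((Real.sqrt t)⁻¹ : ℂ)) = t⁻¹ := by
  rw [map_inv₀, Complex.normSq_ofReal, Real.mul_self_sqrt ht.le]

private theorem Dir_eta {F : Fin 3 → MvPolynomial (Fin 3) ℂ} {d : ℕ}
    (hF : ∀ j, (F j).IsHomogeneous d) {C : ℝ} (hC0 : 0 < C)
    (hC : ∀ y y' : V, N y = 1 → N y' = 1 → N (eta F y - eta F y') ≤ C * N (y - y')) {y y' : V}
    (hy : N y = 1) (hy' : N y' = 1) (h : eta F y ≠ 0) (h' : eta F y' ≠ 0) :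
    N (cr (cr y (wv F y)) (cr y' (wv F y'))) ≤ 2 * C * (tau y y' / N (eta F y)) := by
  obtain ⟨k, hk, hky⟩ := tau_phase hy hy'
  have p1 := TauM_N_pos h
  have p2 := TauM_N_pos h'
  have hky' : N (k • y') = 1 := by rw [TauM_N_smul, hk, hy', one_mul]
  have e1 : N (cr (eta F y) (eta F y')) = N (cr (eta F y) (eta F (k • y'))) := by
    rw [eta_hom hF, cr_smul_right, TauM_N_smul, map_pow, hk, one_pow, one_mul]
  have e2 : cr (eta F y) (eta F (k • y')) = cr (eta F y - eta F (k • y')) (eta F (k • y')) := by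
    rw [cr_sub_left, cr_self, sub_zero]
  have e3 : N (eta F (k • y')) = N (eta F y') := by
    rw [eta_hom hF, TauM_N_smul, map_pow, hk, one_pow, one_mul]
  have e4 : N (cr (eta F y) (eta F y')) ≤ 2 * C * tau y y' * N (eta F y') := by
    rw [e1, e2]
    refine (Dir_cr_le _ _).trans ?_
    rw [e3]
    refine mul_le_mul_of_nonneg_right ?_ p2.le
    have h1 := hC y (k • y') hy hky'
    nlinarith
  rw [wv_cr, wv_cr, cr_smul_left, cr_smul_right, TauM_N_smul, TauM_N_smul, Dir_s p1, Dir_s p2]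
  calc (N (eta F y))⁻¹ * ((N (eta F y'))⁻¹ * N (cr (eta F y) (eta F y')))
      ≤ (N (eta F y))⁻¹ * ((N (eta F y'))⁻¹ * (2 * C * tau y y' * N (eta F y'))) := by
        gcongr
    _ = 2 * C * (tau y y' / N (eta F y)) := by
        field_simp

private theorem Dir_unit {F : Fin 3 → MvPolynomial (Fin 3) ℂ} {d : ℕ}
    (hF : ∀ j, (F j).IsHomogeneous d) {C : ℝ} (hC0 : 0 < C)
    (hC : ∀ y y' : V, N y = 1 → N y' = 1 → N (eta F y - eta F y') ≤ C * N (y - y')) {x y y' : V}
    (hx : N x = 1) (hy : N y = 1) (hy' : N y' = 1) (h : eta F y ≠ 0) (h' : eta F y' ≠ 0) :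
    wed (perp x (wv F y)) (perp x (wv F y')) ≤
        (8 + 4 * C) * (tau x y + tau x y' + tau y y' / N (eta F y)) := by
  obtain ⟨l, hl, hly⟩ := tau_phase hx hy
  obtain ⟨l', hl', hly'⟩ := tau_phase hx hy'
  have w1 := wv_unit hy h
  have v1 := wv_unit hy' h'
  rw [Dir_key hx]
  obtain ⟨w, hw⟩ : ∃ w, w = wv F y := ⟨_, rfl⟩
  obtain ⟨v, hv⟩ : ∃ v, v = wv F y' := ⟨_, rfl⟩
  have h3 := Dir_eta hF hC0 hC hy hy' h h'
  rw [← hw, ← hv] at h3 ⊢
  rw [← hw] at w1
  rw [← hv] at v1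
  have e : cr (cr x w) (cr x v) = (cr (cr (x - l • y) w) (cr x v) +
      cr (l • cr y w) (cr (x - l' • y') v)) + cr (l • cr y w) (l' • cr y' v) := by
    have a1 : cr (x - l • y) w = cr x w - l • cr y w := by rw [cr_sub_left, cr_smul_left]
    have a2 : cr (x - l' • y') v = cr x v - l' • cr y' v := by rw [cr_sub_left, cr_smul_left]
    rw [a1, a2, cr_sub_left, cr_sub_right]
    abel
  have n1 : N (cr (cr (x - l • y) w) (cr x v)) ≤ 2 * tau x y := by
    have b1 := Dir_cr_le (x - l • y) w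
    have b2 := Dir_cr_le x v
    have b3 := Dir_cr_le (cr (x - l • y) w) (cr x v)
    rw [w1, mul_one] at b1
    rw [hx, v1, mul_one] at b2
    have b4 := TauM_N_nonneg (cr (x - l • y) w)
    have b5 := TauM_N_nonneg (cr x v)
    nlinarith
  have n2 : N (cr (l • cr y w) (cr (x - l' • y') v)) ≤ 2 * tau x y' := by
    have b1 := Dir_cr_le (x - l' • y') v
    have b2 := Dir_cr_le y w
    have b3 := Dir_cr_le (l • cr y w) (cr (x - l' • y') v)
    rw [TauM_N_smul, hl, one_mul] at b3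
    rw [v1, mul_one] at b1
    rw [hy, w1, mul_one] at b2
    have b4 := TauM_N_nonneg (cr (x - l' • y') v)
    have b5 := TauM_N_nonneg (cr y w)
    nlinarith
  have n3 : N (cr (l • cr y w) (l' • cr y' v)) ≤ 2 * C * (tau y y' / N (eta F y)) := by
    rw [cr_smul_left, cr_smul_right, TauM_N_smul, TauM_N_smul, hl, hl', one_mul, one_mul]
    exact h3
  have m1 := N_add_le (cr (cr (x - l • y) w) (cr x v)) (cr (l • cr y w) (cr (x - l' • y') v))
  have m2 := N_add_le (cr (cr (x - l • y) w) (cr x v) +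
      cr (l • cr y w) (cr (x - l' • y') v)) (cr (l • cr y w) (l' • cr y' v))
  rw [e]
  have t1 := tau_nonneg x y
  have t2 := tau_nonneg x y'
  have t3 : 0 ≤ tau y y' / N (eta F y) := div_nonneg (tau_nonneg y y') (TauM_N_nonneg _)
  nlinarith [mul_nonneg hC0.le t1, mul_nonneg hC0.le t2, mul_nonneg hC0.le t3]

theorem dir {F : Fin 3 → MvPolynomial (Fin 3) ℂ} {d : ℕ} (hF : ∀ j, (F j).IsHomogeneous d) :
    ∃ C : ℝ, 0 < C ∧ ∀ x y y' : V, x ≠ 0 → N y = 1 → N y' = 1 → eta F y ≠ 0 → eta F y' ≠ 0 →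
      wed (perp x (wv F y)) (perp x (wv F y')) ≤
        C * (tau x y + tau x y' + tau y y' / N (eta F y)) := by
  obtain ⟨C, hC0, hC⟩ := eta_lip F
  refine ⟨8 + 4 * C, by positivity, ?_⟩
  intro x y y' hx hy hy' h h'
  have hN := TauM_N_pos hx
  have hl : (((Real.sqrt (N x))⁻¹ : ℝ) : ℂ) ≠ 0 := by
    have : 0 < Real.sqrt (N x) := Real.sqrt_pos.2 hN
    exact_mod_cast (inv_pos.2 this).ne'
  have hu : N ((((Real.sqrt (N x))⁻¹ : ℝ) : ℂ) • x) = 1 := by
    rw [TauM_N_smul, Complex.normSq_ofReal, ← mul_inv, Real.mul_self_sqrt hN.le]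
    exact inv_mul_cancel₀ hN.ne'
  have key := Dir_unit hF hC0 hC hu hy hy' h h'
  rwa [Dir_perp_smul hl hx, Dir_perp_smul hl hx, tau_smul_left hl, tau_smul_left hl] at key

end Pool.Agent.H85.DC
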