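import Pool.Agent.H85.DC.Frm

/-!
# Row TauM: the distance `√τ`

`tau x y = 1 - |⟨x,y⟩|^2/(N x N y)`, `ip x y = ∑ x_j conj(y_j)`, `vv = 1 - tau`.
`0 ≤ tau` is Cauchy-Schwarz, `tau ≤ 1` clear (`N ≥ 0`, division by `0` is `0`).
`tau_metric`: for `x, y, z` nonzero, `√tau(x,z) ≤ √tau(x,y) + √tau(y,z)`. Proof: by scaling (`tau_smul_left`) wlog
unit vectors. For unit `a, b`: `tau(a,b) = min over c ∈ ℂ of N (a - c b)` attained at `c = ip a b`:
`N (a - c b) = 1 - 2 Re (conj c ip a b) + |c|^2 ≥ 1 - |ip a b|^2`. Put `c = ip x y`, `d = ip y z`: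
`x - c d z = (x - c y) + c (y - d z)`, so `√tau(x,z) ≤ √N(x - c d z) ≤ √N (x - c y) + |c| √N(y - d z)
≤ √tau(x,y) + √tau(y,z)` (`|c| ≤ 1`; `√N` satisfies the triangle inequality: it is the Euclidean norm, e.g. via
`EuclideanSpace ℂ (Fin 3)` or by hand from Cauchy-Schwarz `|ip a b|^2 ≤ N a N b`).
`tau_cross`: with the bilinear cross product, `N (cr x y) = N x N y - |ip x y|^2` (Lagrange; expand in
coordinates, real and imaginary parts or `Complex.normSq_eq_conj_mul_self` and `ring`).
`tau_phase`: for unit `x, y` there is `l`, `|l| = 1`, with `N (x - l y) ≤ 2 tau x y`: `l = ip x y/|ip x y|` (or `1` when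
`ip x y = 0`), `N (x - l y) = 2 - 2 |ip x y| ≤ 2 (1 - |ip x y|^2)`.
`tau_two`: `(√a + √b)^2 ≤ 2a + 2b`.
Continuity of `tau` at nonzero vectors, measurability in both variables: `ip`, `N` are continuous; `Measurable`
division.
-/

open MeasureTheory
open scoped ContDiff BigOperators ComplexConjugate Matrix

namespace Pool.Agent.H85.DC

/-- The (bilinear) cross product. -/
noncomputable def cr (x y : V) : V :=
  ![x 1 * y 2 - x 2 * y 1, x 2 * y 0 - x 0 * y 2, x 0 * y 1 - x 1 * y 0]

/-! ### Auxiliary identities -/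

theorem TauM_N_nonneg (x : V) : 0 ≤ N x := by
  unfold N
  exact Finset.sum_nonneg fun j _ => Complex.normSq_nonneg _

theorem TauM_N_pos {x : V} (hx : x ≠ 0) : 0 < N x := by
  rcases (TauM_N_nonneg x).lt_or_eq with h | h
  · exact h
  · exfalso
    apply hx
    have h2 : ∑ j, Complex.normSq (x j) = 0 := h.symm
    rw [Finset.sum_eq_zero_iff_of_nonneg (fun j _ => Complex.normSq_nonneg _)] at h2
    funext j
    exact Complex.normSq_eq_zero.mp (h2 j (Finset.mem_univ j))

theorem TauM_N_eq_zero {x : V} (h : N x = 0) : x = 0 := by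
  by_contra hx
  exact absurd h (TauM_N_pos hx).ne'

theorem TauM_N_zero : N (0 : V) = 0 := by simp [N]

theorem TauM_N_smul (l : ℂ) (x : V) : N (l • x) = Complex.normSq l * N x := by
  unfold N
  rw [Finset.mul_sum]
  refine Finset.sum_congr rfl fun j _ => ?_
  rw [Pi.smul_apply, smul_eq_mul, Complex.normSq_mul]

theorem TauM_ip_smul_left (l : ℂ) (x y : V) : ip (l • x) y = l * ip x y := by
  unfold ip
  rw [Finset.mul_sum]
  refine Finset.sum_congr rfl fun j _ => ?_
  rw [Pi.smul_apply, smul_eq_mul]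
  ring

theorem TauM_ip_smul_right (l : ℂ) (x y : V) : ip x (l • y) = conj l * ip x y := by
  unfold ip
  rw [Finset.mul_sum]
  refine Finset.sum_congr rfl fun j _ => ?_
  rw [Pi.smul_apply, smul_eq_mul, map_mul]
  ring

theorem TauM_ip_conj (x y : V) : conj (ip x y) = ip y x := by
  unfold ip
  rw [map_sum]
  refine Finset.sum_congr rfl fun j _ => ?_
  rw [map_mul, Complex.conj_conj]
  ring

theorem TauM_normSq_ip_comm (x y : V) : Complex.normSq (ip x y) = Complex.normSq (ip y x) := by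
  rw [← TauM_ip_conj x y, Complex.normSq_conj]

theorem TauM_ip_self (x : V) : ip x x = (N x : ℂ) := by
  unfold ip N
  push_cast
  refine Finset.sum_congr rfl fun j _ => ?_
  rw [Complex.mul_conj]

theorem TauM_ip_sub_right (x y z : V) : ip x (y - z) = ip x y - ip x z := by
  unfold ip
  rw [← Finset.sum_sub_distrib]
  refine Finset.sum_congr rfl fun j _ => ?_
  rw [Pi.sub_apply, map_sub]
  ring

/-- Expansion of the square of the norm of `x + c y`. -/
theorem TauM_N_add (x y : V) : N (x + y) = N x + 2 * (ip x y).re + N y := by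
  have h : ((N (x + y) : ℝ) : ℂ) = (N x : ℂ) + (ip x y + conj (ip x y)) + (N y : ℂ) := by
    rw [TauM_ip_conj, ← TauM_ip_self, ← TauM_ip_self, ← TauM_ip_self]
    unfold ip
    rw [← Finset.sum_add_distrib, ← Finset.sum_add_distrib, ← Finset.sum_add_distrib]
    refine Finset.sum_congr rfl fun j _ => ?_
    rw [Pi.add_apply, map_add]
    ring
  rw [Complex.add_conj] at h
  exact_mod_cast h

theorem TauM_N_sub_smul (x y : V) (c : ℂ) :
    N (x - c • y) = N x - 2 * (conj c * ip x y).re + Complex.normSq c * N y := by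
  have h := TauM_N_add x (-(c • y))
  rw [← sub_eq_add_neg] at h
  rw [h, ← neg_smul, TauM_N_smul, TauM_ip_smul_right, Complex.normSq_neg, map_neg, neg_mul,
    Complex.neg_re]
  ring

theorem tau_cross (x y : V) : N (cr x y) = N x * N y - Complex.normSq (ip x y) := by
  have h : ((N (cr x y) : ℝ) : ℂ) = (N x : ℂ) * (N y : ℂ) - (Complex.normSq (ip x y) : ℂ) := by
    rw [← TauM_ip_self, ← TauM_ip_self, ← TauM_ip_self, ← Complex.mul_conj]
    unfold ip cr
    simp only [Fin.sum_univ_three, Matrix.cons_val_zero, Matrix.cons_val_one, Matrix.cons_val,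
      map_add, map_sub, map_mul, Complex.conj_conj]
    ring
  exact_mod_cast h

theorem cs_ip (x y : V) : Complex.normSq (ip x y) ≤ N x * N y := by
  have h := tau_cross x y
  have h2 := TauM_N_nonneg (cr x y)
  linarith

theorem tau_nonneg (x y : V) : 0 ≤ tau x y := by
  unfold tau
  have h := cs_ip x y
  have h1 := mul_nonneg (TauM_N_nonneg x) (TauM_N_nonneg y)
  have h2 := div_le_one_of_le₀ h h1
  linarith

theorem tau_le_one (x y : V) : tau x y ≤ 1 := by
  unfold tau
  have h1 := mul_nonneg (TauM_N_nonneg x) (TauM_N_nonneg y)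
  have h2 := div_nonneg (Complex.normSq_nonneg (ip x y)) h1
  linarith

theorem tau_symm (x y : V) : tau x y = tau y x := by
  unfold tau
  rw [TauM_normSq_ip_comm x y, mul_comm (N x)]

theorem tau_smul_left {l : ℂ} (hl : l ≠ 0) (x y : V) : tau (l • x) y = tau x y := by
  unfold tau
  have h : Complex.normSq l ≠ 0 := fun h => hl (Complex.normSq_eq_zero.mp h)
  rw [TauM_ip_smul_left, TauM_N_smul, Complex.normSq_mul, mul_assoc, mul_div_mul_left _ _ h]

theorem tau_smul_right {l : ℂ} (hl : l ≠ 0) (x y : V) : tau x (l • y) = tau x y := by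
  rw [tau_symm, tau_smul_left hl, tau_symm]

theorem tau_self {x : V} (hx : x ≠ 0) : tau x x = 0 := by
  unfold tau
  rw [TauM_ip_self, Complex.normSq_ofReal, div_self, sub_self]
  have := TauM_N_pos hx
  positivity

/-- `N (x - c y) ≥ N x τ(x, y)` for every `c`. -/
theorem TauM_min {x y : V} (hx : x ≠ 0) (hy : y ≠ 0) (c : ℂ) :
    N x * tau x y ≤ N (x - c • y) := by
  have hNx := TauM_N_pos hx
  have hNy := TauM_N_pos hy
  rw [TauM_N_sub_smul]
  have h1 : N x * tau x y = N x - Complex.normSq (ip x y) / N y := by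
    unfold tau
    field_simp
  rw [h1]
  have h2 : (conj c * ip x y).re ≤ ‖c‖ * ‖ip x y‖ := by
    refine (Complex.re_le_norm _).trans ?_
    rw [norm_mul, Complex.norm_conj]
  have h3 : Complex.normSq c = ‖c‖ ^ 2 := Complex.normSq_eq_norm_sq c
  have h4 : Complex.normSq (ip x y) = ‖ip x y‖ ^ 2 := Complex.normSq_eq_norm_sq _
  rw [h3, h4]
  have h5 : 0 ≤ (‖c‖ * N y - ‖ip x y‖) ^ 2 / N y := by positivity
  have h6 : (‖c‖ * N y - ‖ip x y‖) ^ 2 / N y
      = ‖c‖ ^ 2 * N y - 2 * (‖c‖ * ‖ip x y‖) + ‖ip x y‖ ^ 2 / N y := by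
    field_simp
    ring
  linarith

/-- Equality for `c = ip x y / N y`. -/
theorem TauM_eq {x y : V} (hx : x ≠ 0) (hy : y ≠ 0) :
    N (x - (ip x y / (N y : ℂ)) • y) = N x * tau x y := by
  have hNx := TauM_N_pos hx
  have hNy := TauM_N_pos hy
  have hNx' : (N x : ℂ) ≠ 0 := by exact_mod_cast hNx.ne'
  have hNy' : (N y : ℂ) ≠ 0 := by exact_mod_cast hNy.ne'
  rw [TauM_N_sub_smul]
  have h1 : conj (ip x y / (N y : ℂ)) * ip x y
      = ((Complex.normSq (ip x y) / N y : ℝ) : ℂ) := by
    rw [map_div₀, Complex.conj_ofReal]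
    push_cast
    rw [← Complex.mul_conj]
    ring
  rw [h1, Complex.ofReal_re, map_div₀, Complex.normSq_ofReal]
  unfold tau
  field_simp
  ring

theorem sqrtN_triangle (x y : V) : Real.sqrt (N (x + y)) ≤ Real.sqrt (N x) + Real.sqrt (N y) := by
  have hx := TauM_N_nonneg x
  have hy := TauM_N_nonneg y
  rw [Real.sqrt_le_left (by positivity), TauM_N_add, add_sq, Real.sq_sqrt hx, Real.sq_sqrt hy]
  have h1 : (ip x y).re ≤ Real.sqrt (N x) * Real.sqrt (N y) := by
    rw [← Real.sqrt_mul hx]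
    refine (Complex.re_le_norm _).trans ?_
    apply Real.le_sqrt_of_sq_le
    rw [← Complex.normSq_eq_norm_sq]
    exact cs_ip x y
  linarith

theorem tau_metric {x y z : V} (hx : x ≠ 0) (hy : y ≠ 0) (hz : z ≠ 0) :
    Real.sqrt (tau x z) ≤ Real.sqrt (tau x y) + Real.sqrt (tau y z) := by
  have hNx := TauM_N_pos hx
  have hNy := TauM_N_pos hy
  set c : ℂ := ip x y / (N y : ℂ) with hc
  set d : ℂ := ip y z / (N z : ℂ) with hd
  have h1 : Real.sqrt (N x) * Real.sqrt (tau x z) ≤ Real.sqrt (N (x - (c * d) • z)) := by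
    rw [← Real.sqrt_mul hNx.le]
    exact Real.sqrt_le_sqrt (TauM_min hx hz _)
  have h2 : x - (c * d) • z = (x - c • y) + c • (y - d • z) := by
    rw [smul_sub, smul_smul]
    abel
  have h3 : Real.sqrt (N (x - c • y)) = Real.sqrt (N x) * Real.sqrt (tau x y) := by
    rw [← Real.sqrt_mul hNx.le, hc, TauM_eq hx hy]
  have h4 : Real.sqrt (N (c • (y - d • z))) ≤ Real.sqrt (N x) * Real.sqrt (tau y z) := by
    rw [← Real.sqrt_mul hNx.le]
    apply Real.sqrt_le_sqrt
    rw [TauM_N_smul, hd, TauM_eq hy hz, ← mul_assoc]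
    apply mul_le_mul_of_nonneg_right _ (tau_nonneg y z)
    rw [hc, map_div₀, Complex.normSq_ofReal]
    have h5 := cs_ip x y
    have h6 : Complex.normSq (ip x y) / (N y * N y) * N y = Complex.normSq (ip x y) / N y := by
      field_simp
    rw [h6, div_le_iff₀ hNy]
    exact h5
  have h5 := sqrtN_triangle (x - c • y) (c • (y - d • z))
  rw [← h2] at h5
  have h6 : Real.sqrt (N x) * Real.sqrt (tau x z)
      ≤ Real.sqrt (N x) * (Real.sqrt (tau x y) + Real.sqrt (tau y z)) := by
    rw [mul_add]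
    linarith
  exact le_of_mul_le_mul_left h6 (Real.sqrt_pos.mpr hNx)

theorem tau_two {x y z : V} (hx : x ≠ 0) (hy : y ≠ 0) (hz : z ≠ 0) :
    tau x z ≤ 2 * tau x y + 2 * tau y z := by
  have h := tau_metric hx hy hz
  have h1 := Real.sq_sqrt (tau_nonneg x z)
  have h2 := Real.sq_sqrt (tau_nonneg x y)
  have h3 := Real.sq_sqrt (tau_nonneg y z)
  have h4 := Real.sqrt_nonneg (tau x z)
  have h5 := Real.sqrt_nonneg (tau x y)
  have h6 := Real.sqrt_nonneg (tau y z)
  have h7 : Real.sqrt (tau x z) ^ 2 ≤ (Real.sqrt (tau x y) + Real.sqrt (tau y z)) ^ 2 :=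
    pow_le_pow_left₀ h4 h 2
  nlinarith [sq_nonneg (Real.sqrt (tau x y) - Real.sqrt (tau y z))]

theorem tau_cross' {x y : V} (hx : x ≠ 0) (hy : y ≠ 0) : N (cr x y) = N x * N y * tau x y := by
  have hNx := TauM_N_pos hx
  have hNy := TauM_N_pos hy
  rw [tau_cross]
  unfold tau
  field_simp

theorem tau_phase {x y : V} (hx : N x = 1) (hy : N y = 1) :
    ∃ l : ℂ, Complex.normSq l = 1 ∧ N (x - l • y) ≤ 2 * tau x y := by
  have h1 : tau x y = 1 - Complex.normSq (ip x y) := by
    unfold tau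
    rw [hx, hy]
    ring
  rw [h1]
  by_cases hc : ip x y = 0
  · refine ⟨1, Complex.normSq_one, ?_⟩
    rw [TauM_N_sub_smul, hc, hx, hy]
    simp
    norm_num
  · have hn : 0 < ‖ip x y‖ := norm_pos_iff.mpr hc
    have hn' : ((‖ip x y‖ : ℝ) : ℂ) ≠ 0 := by exact_mod_cast hn.ne'
    have h2 : Complex.normSq (ip x y) = ‖ip x y‖ ^ 2 := Complex.normSq_eq_norm_sq _
    have h3 : Complex.normSq (ip x y / ((‖ip x y‖ : ℝ) : ℂ)) = 1 := by
      rw [map_div₀, Complex.normSq_ofReal, h2]
      field_simp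
    refine ⟨ip x y / ((‖ip x y‖ : ℝ) : ℂ), h3, ?_⟩
    rw [TauM_N_sub_smul, h3, hx, hy]
    have h4 : conj (ip x y / ((‖ip x y‖ : ℝ) : ℂ)) * ip x y = ((‖ip x y‖ : ℝ) : ℂ) := by
      rw [map_div₀, Complex.conj_ofReal, div_mul_eq_mul_div, mul_comm, Complex.mul_conj, h2]
      push_cast
      field_simp
    rw [h4, Complex.ofReal_re, h2]
    have h5 := cs_ip x y
    rw [hx, hy, h2] at h5
    have h6 : ‖ip x y‖ ≤ 1 := by nlinarith
    nlinarith

theorem tau_eq_zero {x y : V} (hx : x ≠ 0) (hy : y ≠ 0) (h : tau x y = 0) : ∃ c : ℂ, x = c • y := by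
  refine ⟨ip x y / (N y : ℂ), ?_⟩
  have h1 := TauM_eq hx hy
  rw [h, mul_zero] at h1
  exact sub_eq_zero.mp (TauM_N_eq_zero h1)

theorem N_add_le (x y : V) : N (x + y) ≤ 2 * N x + 2 * N y := by
  have h := sqrtN_triangle x y
  have h1 := Real.sq_sqrt (TauM_N_nonneg (x + y))
  have h2 := Real.sq_sqrt (TauM_N_nonneg x)
  have h3 := Real.sq_sqrt (TauM_N_nonneg y)
  have h4 := Real.sqrt_nonneg (N (x + y))
  have h5 := Real.sqrt_nonneg (N x)
  have h6 := Real.sqrt_nonneg (N y)
  have h7 : Real.sqrt (N (x + y)) ^ 2 ≤ (Real.sqrt (N x) + Real.sqrt (N y)) ^ 2 :=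
    pow_le_pow_left₀ h4 h 2
  nlinarith [sq_nonneg (Real.sqrt (N x) - Real.sqrt (N y))]

theorem TauM_continuous_N : Continuous N := by
  unfold N
  refine continuous_finsetSum _ fun j _ => ?_
  exact Complex.continuous_normSq.comp (continuous_apply j)

theorem TauM_continuous_ip : Continuous (fun q : V × V => ip q.1 q.2) := by
  unfold ip
  refine continuous_finsetSum _ fun j _ => ?_
  exact ((continuous_apply j).comp continuous_fst).mul
    (Complex.continuous_conj.comp ((continuous_apply j).comp continuous_snd))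

theorem measurable_tau : Measurable (fun q : V × V => tau q.1 q.2) := by
  unfold tau
  refine measurable_const.sub ?_
  refine Measurable.div ?_ ?_
  · exact (Complex.continuous_normSq.comp TauM_continuous_ip).measurable
  · exact ((TauM_continuous_N.comp continuous_fst).mul
      (TauM_continuous_N.comp continuous_snd)).measurable

theorem continuousOn_tau (y : V) : ContinuousOn (fun x => tau x y) {0}ᶜ := by
  by_cases hy : y = 0
  · have h : (fun x : V => tau x y) = fun _ => 1 := by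
      funext x
      unfold tau
      rw [hy, TauM_N_zero, mul_zero, div_zero, sub_zero]
    rw [h]
    exact continuousOn_const
  · unfold tau
    refine continuousOn_const.sub ?_
    refine ContinuousOn.div ?_ ?_ ?_
    · exact (Complex.continuous_normSq.comp (TauM_continuous_ip.comp
        (continuous_id.prodMk continuous_const))).continuousOn
    · exact (TauM_continuous_N.mul continuous_const).continuousOn
    · intro x hx
      exact mul_ne_zero (TauM_N_pos hx).ne' (TauM_N_pos hy).ne'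

/-- An orthonormal pair completes to the whole space: Bessel. -/
theorem bessel {x w y : V} (hx : N x = 1) (hw : N w = 1) (hxw : ip w x = 0) :
    Complex.normSq (ip x y) + Complex.normSq (ip w y) ≤ N y := by
  have h1 := TauM_N_sub_smul y x (ip y x)
  have h2 : conj (ip y x) * ip y x = ((Complex.normSq (ip x y) : ℝ) : ℂ) := by
    rw [mul_comm, Complex.mul_conj, TauM_normSq_ip_comm]
  rw [h2, Complex.ofReal_re, hx, TauM_normSq_ip_comm y x] at h1
  have h3 := cs_ip w (y - ip y x • x)
  rw [TauM_ip_sub_right, TauM_ip_smul_right, hxw, mul_zero, sub_zero, hw, one_mul, h1] at h3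
  linarith

end Pool.Agent.H85.DC
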