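import Pool.Agent.H85.DC.NuA
import Pool.Agent.H85.DC.TauM

/-!
# Row NuB: the distribution of `τ(x, ·)` under `nuP`

Claim: for `x ≠ 0` the image of `nuP` under `tau x ·` is the measure `π^3 s ds` on `[0,1]`.
Proof. Both are finite measures carried by `[0,1]`. For every `n`,
`∫ (1 - s)^n d(image) = ∫ vv^n dν = π^3/((n+1)(n+2)) = π^3 ∫_0^1 (1-s)^n s ds` (`moment`; `tau = 1 - vv`;
`∫_0^1 (1-s)^n s ds = ∫_0^1 v^n (1-v) dv = 1/(n+1) - 1/(n+2)`). By linearity the integrals of all polynomials in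
`1 - s`, i.e. all polynomials, agree; by Weierstrass (`polynomialFunctions.topologicalClosure` or
`exists_polynomial_near_of_continuousOn`) the integrals of all bounded continuous functions agree (finite measures,
uniform approximation on `[0,1]`, which carries both), so the measures agree
(`MeasureTheory.ext_of_forall_integral_eq_of_IsFiniteMeasure`). Then `lintegral_map`.
The three consequences: `∫_{τ<b} τ^{-3/2} = π^3 ∫_0^b s^{-1/2} ds`, `∫_{τ ≥ b} τ^{-3} = π^3 ∫_b^1 s^{-2} ds ≤ π^3/b`,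
`∫ exp(-τ/a) = π^3 ∫ s e^{-s/a} ds ≤ π^3 a^2`, `nuP {τ < s} ≤ π^3 s^2`. All are stated with `lintegral`, so no
integrability is needed; compute the one-dimensional integrals with `ofReal_integral_eq_lintegral_ofReal`.
-/

open MeasureTheory
open scoped ContDiff BigOperators ComplexConjugate Matrix

namespace Pool.Agent.H85.DC

private theorem NuB_pow_int {μ : Measure ℝ} [IsFiniteMeasure μ] (hμ : μ (Set.Icc 0 1)ᶜ = 0) (n : ℕ) :
    Integrable (fun s : ℝ => (1 - s) ^ n) μ := by
  refine Integrable.of_bound (by fun_prop) 1 ?_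
  have h1 : ∀ᵐ s ∂μ, s ∈ Set.Icc (0 : ℝ) 1 := by
    rw [ae_iff]
    exact hμ
  filter_upwards [h1] with s hs
  rw [Real.norm_eq_abs, abs_of_nonneg (pow_nonneg (by linarith [hs.2]) n)]
  exact pow_le_one₀ (by linarith [hs.2]) (by linarith [hs.1])

private theorem NuB_ext {μ ν : Measure ℝ} [IsFiniteMeasure μ] [IsFiniteMeasure ν]
    (hμ : μ (Set.Icc 0 1)ᶜ = 0) (hν : ν (Set.Icc 0 1)ᶜ = 0)
    (h : ∀ n : ℕ, ∫ s, (1 - s) ^ n ∂μ = ∫ s, (1 - s) ^ n ∂ν) : μ = ν := by
  refine ext_of_forall_integral_eq_of_IsFiniteMeasure fun f => ?_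
  have hmon : ∀ q : Polynomial ℝ, ∫ s, q.eval (1 - s) ∂μ = ∫ s, q.eval (1 - s) ∂ν := by
    intro q
    have h1 : ∀ s : ℝ, q.eval (1 - s) =
        ∑ i ∈ Finset.range (q.natDegree + 1), q.coeff i * (1 - s) ^ i := fun s =>
      Polynomial.eval_eq_sum_range _
    simp only [h1]
    rw [integral_finsetSum _ fun i _ => (NuB_pow_int hμ i).const_mul _,
      integral_finsetSum _ fun i _ => (NuB_pow_int hν i).const_mul _]
    refine Finset.sum_congr rfl fun i _ => ?_
    rw [integral_const_mul, integral_const_mul, h]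
  have hqint : ∀ (μ : Measure ℝ) [IsFiniteMeasure μ] (_ : μ (Set.Icc 0 1)ᶜ = 0)
      (q : Polynomial ℝ), Integrable (fun s : ℝ => q.eval (1 - s)) μ := by
    intro μ _ hμ q
    have h1 : ∀ s : ℝ, q.eval (1 - s) =
        ∑ i ∈ Finset.range (q.natDegree + 1), q.coeff i * (1 - s) ^ i := fun s =>
      Polynomial.eval_eq_sum_range _
    simp only [h1]
    exact integrable_finsetSum _ fun i _ => (NuB_pow_int hμ i).const_mul _
  have hclose : ∀ (μ : Measure ℝ) [IsFiniteMeasure μ] (_ : μ (Set.Icc 0 1)ᶜ = 0)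
      (q : Polynomial ℝ) (e : ℝ), (∀ s ∈ Set.Icc (0 : ℝ) 1, |q.eval (1 - s) - f s| < e) →
      |∫ s, q.eval (1 - s) ∂μ - ∫ s, f s ∂μ| ≤ e * μ.real Set.univ := by
    intro μ _ hμ q e he
    rw [← integral_sub (hqint μ hμ q) (f.integrable μ), ← Real.norm_eq_abs]
    refine norm_integral_le_of_norm_le_const ?_
    have h1 : ∀ᵐ s ∂μ, s ∈ Set.Icc (0 : ℝ) 1 := by
      rw [ae_iff]
      exact hμ
    filter_upwards [h1] with s hs
    rw [Real.norm_eq_abs]
    exact (he s hs).le
  by_contra hne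
  have hpos : 0 < |∫ s, f s ∂μ - ∫ s, f s ∂ν| := abs_pos.2 (sub_ne_zero.2 hne)
  obtain ⟨C, hC⟩ : ∃ C : ℝ, C = μ.real Set.univ + ν.real Set.univ + 1 := ⟨_, rfl⟩
  have hCpos : 0 < C := by
    have := measureReal_nonneg (μ := μ) (s := Set.univ)
    have := measureReal_nonneg (μ := ν) (s := Set.univ)
    linarith
  obtain ⟨e, he⟩ : ∃ e : ℝ, e = |∫ s, f s ∂μ - ∫ s, f s ∂ν| / (2 * C) := ⟨_, rfl⟩
  have hepos : 0 < e := by rw [he]; positivity
  obtain ⟨q, hq⟩ := exists_polynomial_near_of_continuousOn 0 1 (fun v => f (1 - v))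
    (f.continuous.comp (continuous_const.sub continuous_id)).continuousOn e hepos
  have hq' : ∀ s ∈ Set.Icc (0 : ℝ) 1, |q.eval (1 - s) - f s| < e := by
    intro s hs
    have h1 := hq (1 - s) ⟨by linarith [hs.2], by linarith [hs.1]⟩
    rwa [sub_sub_cancel] at h1
  have h1 := hclose μ hμ q e hq'
  have h2 := hclose ν hν q e hq'
  rw [hmon q] at h1
  have h3 : |∫ s, f s ∂μ - ∫ s, f s ∂ν| ≤ e * C := by
    have h4 : ∫ s, f s ∂μ - ∫ s, f s ∂ν = (∫ s, q.eval (1 - s) ∂ν - ∫ s, f s ∂ν) -
      (∫ s, q.eval (1 - s) ∂ν - ∫ s, f s ∂μ) := by ring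
    rw [h4]
    refine (abs_sub _ _).trans ?_
    rw [hC]
    nlinarith [h1, h2, hepos]
  have h5 : e * C = |∫ s, f s ∂μ - ∫ s, f s ∂ν| / 2 := by
    rw [he]
    field_simp
  rw [h5] at h3
  linarith

private theorem NuB_tau_meas (x : V) : Measurable (fun y => tau x y) := by
  have h : Measurable (fun y : V => (x, y)) := measurable_prodMk_left
  have h2 := measurable_tau.comp h
  exact h2

private theorem NuB_int (n : ℕ) : ∫ s in Set.Icc (0 : ℝ) 1, (1 - s) ^ n * s =
    1 / (((n : ℝ) + 1) * ((n : ℝ) + 2)) := by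
  rw [integral_Icc_eq_integral_Ioc, ← intervalIntegral.integral_of_le zero_le_one]
  have h1 := intervalIntegral.integral_comp_sub_left (a := 0) (b := 1)
    (fun v : ℝ => v ^ n * (1 - v)) 1
  simp only [sub_sub_cancel, sub_self, sub_zero] at h1
  rw [h1]
  have h2 : ∀ v : ℝ, v ^ n * (1 - v) = v ^ n - v ^ (n + 1) := fun v => by ring
  simp only [h2]
  rw [intervalIntegral.integral_sub (by simp) (by simp), integral_pow, integral_pow]
  have h3 : (n : ℝ) + 1 ≠ 0 := by positivity
  have h4 : (n : ℝ) + 2 ≠ 0 := by positivity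
  have h5 : (((n + 1 : ℕ) : ℝ)) + 1 = (n : ℝ) + 2 := by push_cast; ring
  rw [h5]
  simp only [one_pow]
  rw [zero_pow (by omega), zero_pow (by omega)]
  field_simp
  ring

private theorem NuB_map {x : V} (hx : x ≠ 0) : nuP.map (tau x) =
    (volume.restrict (Set.Icc (0 : ℝ) 1)).withDensity
      (fun s => ENNReal.ofReal (Real.pi ^ 3 * s)) := by
  have hm := NuB_tau_meas x
  have hf1 : IsFiniteMeasure (nuP.map (tau x)) := inferInstance
  have hint : Integrable (fun s : ℝ => Real.pi ^ 3 * s) (volume.restrict (Set.Icc (0 : ℝ) 1)) := by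
    have : IntegrableOn (fun s : ℝ => Real.pi ^ 3 * s) (Set.Icc (0 : ℝ) 1) :=
      (continuous_const.mul continuous_id).continuousOn.integrableOn_Icc
    exact this
  have hf2 : IsFiniteMeasure ((volume.restrict (Set.Icc (0 : ℝ) 1)).withDensity
      (fun s => ENNReal.ofReal (Real.pi ^ 3 * s))) := isFiniteMeasure_withDensity_ofReal hint.2
  refine NuB_ext ?_ ?_ fun n => ?_
  · rw [Measure.map_apply hm measurableSet_Icc.compl]
    have h1 : tau x ⁻¹' (Set.Icc 0 1)ᶜ = ∅ := by
      ext y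
      simp only [Set.mem_preimage, Set.mem_compl_iff, Set.mem_empty_iff_false, iff_false, not_not]
      exact ⟨tau_nonneg x y, tau_le_one x y⟩
    rw [h1, measure_empty]
  · apply withDensity_absolutelyContinuous
    rw [Measure.restrict_apply measurableSet_Icc.compl, Set.compl_inter_self, measure_empty]
  · rw [integral_map hm.aemeasurable (by fun_prop),
      integral_withDensity_eq_integral_toReal_smul (by fun_prop)
        (Filter.Eventually.of_forall fun _ => ENNReal.ofReal_lt_top)]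
    have h1 : ∀ y, (1 - tau x y) ^ n = vv x y ^ n := by
      intro y
      rw [tau, sub_sub_cancel]
      rfl
    rw [integral_congr_ae (Filter.Eventually.of_forall h1), moment n hx]
    have h2 : ∫ s in Set.Icc (0 : ℝ) 1, (ENNReal.ofReal (Real.pi ^ 3 * s)).toReal • (1 - s) ^ n =
        ∫ s in Set.Icc (0 : ℝ) 1, Real.pi ^ 3 * ((1 - s) ^ n * s) := by
      refine setIntegral_congr_fun measurableSet_Icc fun s hs => ?_
      show (ENNReal.ofReal (Real.pi ^ 3 * s)).toReal • (1 - s) ^ n = Real.pi ^ 3 * ((1 - s) ^ n * s)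
      rw [ENNReal.toReal_ofReal (mul_nonneg (by positivity) hs.1), smul_eq_mul]
      ring
    rw [h2, integral_const_mul, NuB_int]
    ring

theorem nu_tau {x : V} (hx : x ≠ 0) {g : ℝ → ENNReal} (hg : Measurable g) :
    ∫⁻ y, g (tau x y) ∂nuP =
      ENNReal.ofReal (Real.pi ^ 3) * ∫⁻ s in Set.Icc (0 : ℝ) 1, g s * ENNReal.ofReal s := by
  have h1 := lintegral_map (μ := nuP) hg (NuB_tau_meas x)
  rw [← h1, NuB_map hx, lintegral_withDensity_eq_lintegral_mul _ (by fun_prop) hg,
    ← lintegral_const_mul _ (by fun_prop)]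
  refine setLIntegral_congr_fun measurableSet_Icc fun s hs => ?_
  simp only [Pi.mul_apply]
  rw [ENNReal.ofReal_mul (by positivity)]
  ring

theorem nu_small {x : V} (hx : x ≠ 0) {s : ℝ} (hs : 0 ≤ s) :
    nuP {y | tau x y < s} ≤ ENNReal.ofReal (Real.pi ^ 3 * s ^ 2) := by
  have hms : MeasurableSet {y | tau x y < s} := measurableSet_lt (NuB_tau_meas x) measurable_const
  have h1 : nuP {y | tau x y < s} =
      ∫⁻ y, (Set.Iio s).indicator (fun _ => (1 : ENNReal)) (tau x y) ∂nuP := by
    have h2 : (fun y => (Set.Iio s).indicator (fun _ => (1 : ENNReal)) (tau x y)) =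
        {y | tau x y < s}.indicator (fun _ => (1 : ENNReal)) := by
      funext y
      by_cases h : tau x y < s
      · rw [Set.indicator_of_mem (show tau x y ∈ Set.Iio s from h),
          Set.indicator_of_mem (show y ∈ {y | tau x y < s} from h)]
      · rw [Set.indicator_of_notMem (show tau x y ∉ Set.Iio s from h),
          Set.indicator_of_notMem (show y ∉ {y | tau x y < s} from h)]
    rw [h2, lintegral_indicator hms, setLIntegral_one]
  rw [h1, nu_tau hx (measurable_const.indicator measurableSet_Iio), ENNReal.ofReal_mul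
    (by positivity)]
  refine mul_le_mul_right ?_ _
  have h3 : ∫⁻ s' in Set.Icc (0 : ℝ) 1, (Set.Iio s).indicator (fun _ => (1 : ENNReal)) s' *
      ENNReal.ofReal s' ≤ ∫⁻ s' in Set.Icc (0 : ℝ) s, ENNReal.ofReal s := by
    rw [← lintegral_indicator measurableSet_Icc, ← lintegral_indicator measurableSet_Icc]
    refine lintegral_mono fun s' => ?_
    by_cases h4 : s' ∈ Set.Icc (0 : ℝ) 1
    · rw [Set.indicator_of_mem h4]
      by_cases h5 : s' < s
      · rw [Set.indicator_of_mem (show s' ∈ Set.Iio s from h5), one_mul,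
          Set.indicator_of_mem (show s' ∈ Set.Icc (0 : ℝ) s from ⟨h4.1, h5.le⟩)]
        exact ENNReal.ofReal_le_ofReal h5.le
      · rw [Set.indicator_of_notMem (show s' ∉ Set.Iio s from h5), zero_mul]
        exact zero_le
    · rw [Set.indicator_of_notMem h4]
      exact zero_le
  refine h3.trans ?_
  rw [setLIntegral_const, Real.volume_Icc, sub_zero, ← ENNReal.ofReal_mul hs, sq]

theorem nu_sing {x : V} (hx : x ≠ 0) {b : ℝ} (hb : 0 ≤ b) :
    ∫⁻ y in {y | tau x y < b}, ENNReal.ofReal ((tau x y) ^ (-(3 / 2) : ℝ)) ∂nuP ≤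
      ENNReal.ofReal (2 * Real.pi ^ 3 * Real.sqrt b) := by
  have hms : MeasurableSet {y | tau x y < b} := measurableSet_lt (NuB_tau_meas x) measurable_const
  have hg : Measurable ((Set.Iio b).indicator fun s : ℝ => ENNReal.ofReal (s ^ (-(3 / 2) : ℝ))) := by
    refine Measurable.indicator ?_ measurableSet_Iio
    exact (measurable_id.pow_const _).ennreal_ofReal
  have h1 : ∫⁻ y in {y | tau x y < b}, ENNReal.ofReal ((tau x y) ^ (-(3 / 2) : ℝ)) ∂nuP =
      ∫⁻ y, (Set.Iio b).indicator (fun s : ℝ => ENNReal.ofReal (s ^ (-(3 / 2) : ℝ)))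
        (tau x y) ∂nuP := by
    rw [← lintegral_indicator hms]
    refine lintegral_congr fun y => ?_
    by_cases h : tau x y < b
    · rw [Set.indicator_of_mem (show tau x y ∈ Set.Iio b from h),
        Set.indicator_of_mem (show y ∈ {y | tau x y < b} from h)]
    · rw [Set.indicator_of_notMem (show tau x y ∉ Set.Iio b from h),
        Set.indicator_of_notMem (show y ∉ {y | tau x y < b} from h)]
  rw [h1, nu_tau hx hg]
  have h2 : ∫⁻ s in Set.Icc (0 : ℝ) 1, (Set.Iio b).indicator
      (fun s : ℝ => ENNReal.ofReal (s ^ (-(3 / 2) : ℝ))) s * ENNReal.ofReal s ≤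
      ∫⁻ s in Set.Ioc (0 : ℝ) b, ENNReal.ofReal (s ^ (-(1 / 2) : ℝ)) := by
    rw [← lintegral_indicator measurableSet_Icc, ← lintegral_indicator measurableSet_Ioc]
    refine lintegral_mono fun s => ?_
    by_cases h4 : s ∈ Set.Icc (0 : ℝ) 1
    · rw [Set.indicator_of_mem h4]
      by_cases h5 : s < b
      · rw [Set.indicator_of_mem (show s ∈ Set.Iio b from h5)]
        rcases h4.1.eq_or_lt with h6 | h6
        · rw [← h6, ENNReal.ofReal_zero, mul_zero]
          exact zero_le
        · rw [Set.indicator_of_mem (show s ∈ Set.Ioc (0 : ℝ) b from ⟨h6, h5.le⟩),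
            ← ENNReal.ofReal_mul (Real.rpow_nonneg h6.le _)]
          refine le_of_eq ?_
          congr 1
          have h7 : s ^ (-(3 / 2) : ℝ) * s = s ^ (-(3 / 2) : ℝ) * s ^ (1 : ℝ) := by
            rw [Real.rpow_one]
          rw [h7, ← Real.rpow_add h6]
          norm_num
      · rw [Set.indicator_of_notMem (show s ∉ Set.Iio b from h5), zero_mul]
        exact zero_le
    · rw [Set.indicator_of_notMem h4]
      exact zero_le
  have h3 : ∫⁻ s in Set.Ioc (0 : ℝ) b, ENNReal.ofReal (s ^ (-(1 / 2) : ℝ)) =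
      ENNReal.ofReal (2 * Real.sqrt b) := by
    have hi := intervalIntegral.intervalIntegrable_rpow' (a := 0) (b := b) (r := -(1 / 2))
      (by norm_num)
    rw [intervalIntegrable_iff_integrableOn_Ioc_of_le hb] at hi
    rw [← ofReal_integral_eq_lintegral_ofReal hi (by
      rw [Filter.EventuallyLE, ae_restrict_iff' measurableSet_Ioc]
      exact Filter.Eventually.of_forall fun s hs => Real.rpow_nonneg hs.1.le _),
      ← intervalIntegral.integral_of_le hb, integral_rpow (Or.inl (by norm_num))]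
    congr 1
    have h8 : (-(1 / 2) : ℝ) + 1 = 1 / 2 := by norm_num
    rw [h8, Real.zero_rpow (by norm_num), sub_zero, ← Real.sqrt_eq_rpow]
    ring
  calc _ ≤ ENNReal.ofReal (Real.pi ^ 3) * ENNReal.ofReal (2 * Real.sqrt b) := by
        refine mul_le_mul_right ?_ _
        rw [← h3]
        exact h2
    _ = ENNReal.ofReal (2 * Real.pi ^ 3 * Real.sqrt b) := by
        rw [← ENNReal.ofReal_mul (by positivity)]
        congr 1
        ring

theorem nu_far {x : V} (hx : x ≠ 0) {b : ℝ} (hb : 0 < b) :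
    ∫⁻ y in {y | b ≤ tau x y}, ENNReal.ofReal ((tau x y) ^ (-3 : ℝ)) ∂nuP ≤
      ENNReal.ofReal (Real.pi ^ 3 / b) := by
  have hms : MeasurableSet {y | b ≤ tau x y} := measurableSet_le measurable_const (NuB_tau_meas x)
  have hg : Measurable ((Set.Ici b).indicator fun s : ℝ => ENNReal.ofReal (s ^ (-3 : ℝ))) := by
    refine Measurable.indicator ?_ measurableSet_Ici
    exact (measurable_id.pow_const _).ennreal_ofReal
  have h1 : ∫⁻ y in {y | b ≤ tau x y}, ENNReal.ofReal ((tau x y) ^ (-3 : ℝ)) ∂nuP =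
      ∫⁻ y, (Set.Ici b).indicator (fun s : ℝ => ENNReal.ofReal (s ^ (-3 : ℝ)))
        (tau x y) ∂nuP := by
    rw [← lintegral_indicator hms]
    refine lintegral_congr fun y => ?_
    by_cases h : b ≤ tau x y
    · rw [Set.indicator_of_mem (show tau x y ∈ Set.Ici b from h),
        Set.indicator_of_mem (show y ∈ {y | b ≤ tau x y} from h)]
    · rw [Set.indicator_of_notMem (show tau x y ∉ Set.Ici b from h),
        Set.indicator_of_notMem (show y ∉ {y | b ≤ tau x y} from h)]
  rw [h1, nu_tau hx hg]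
  have h2 : ∫⁻ s in Set.Icc (0 : ℝ) 1, (Set.Ici b).indicator
      (fun s : ℝ => ENNReal.ofReal (s ^ (-3 : ℝ))) s * ENNReal.ofReal s ≤
      ∫⁻ s in Set.Ici b, ENNReal.ofReal (s ^ (-2 : ℝ)) := by
    rw [← lintegral_indicator measurableSet_Icc, ← lintegral_indicator measurableSet_Ici]
    refine lintegral_mono fun s => ?_
    by_cases h4 : s ∈ Set.Icc (0 : ℝ) 1
    · rw [Set.indicator_of_mem h4]
      by_cases h5 : b ≤ s
      · have h6 : 0 < s := lt_of_lt_of_le hb h5
        rw [Set.indicator_of_mem (show s ∈ Set.Ici b from h5),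
          Set.indicator_of_mem (show s ∈ Set.Ici b from h5),
          ← ENNReal.ofReal_mul (Real.rpow_nonneg h6.le _)]
        refine le_of_eq ?_
        congr 1
        have h7 : s ^ (-3 : ℝ) * s = s ^ (-3 : ℝ) * s ^ (1 : ℝ) := by
          rw [Real.rpow_one]
        rw [h7, ← Real.rpow_add h6]
        norm_num
      · rw [Set.indicator_of_notMem (show s ∉ Set.Ici b from h5), zero_mul]
        exact zero_le
    · rw [Set.indicator_of_notMem h4]
      exact zero_le
  have h3 : ∫⁻ s in Set.Ici b, ENNReal.ofReal (s ^ (-2 : ℝ)) = ENNReal.ofReal (1 / b) := by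
    rw [setLIntegral_congr Ioi_ae_eq_Ici.symm]
    have hi := integrableOn_Ioi_rpow_of_lt (a := -2) (by norm_num) hb
    rw [← ofReal_integral_eq_lintegral_ofReal hi (by
      rw [Filter.EventuallyLE, ae_restrict_iff' measurableSet_Ioi]
      exact Filter.Eventually.of_forall fun s hs => Real.rpow_nonneg (hb.trans hs).le _),
      integral_Ioi_rpow_of_lt (by norm_num) hb]
    congr 1
    have h8 : (-2 : ℝ) + 1 = -1 := by norm_num
    rw [h8, Real.rpow_neg_one]
    field_simp
  calc _ ≤ ENNReal.ofReal (Real.pi ^ 3) * ENNReal.ofReal (1 / b) := by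
        refine mul_le_mul_right ?_ _
        rw [← h3]
        exact h2
    _ = ENNReal.ofReal (Real.pi ^ 3 / b) := by
        rw [← ENNReal.ofReal_mul (by positivity)]
        congr 1
        ring

theorem nu_exp {x : V} (hx : x ≠ 0) {a : ℝ} (ha : 0 < a) :
    ∫⁻ y, ENNReal.ofReal (Real.exp (-(tau x y) / a)) ∂nuP ≤ ENNReal.ofReal (Real.pi ^ 3 * a ^ 2) := by
  have hg : Measurable fun s : ℝ => ENNReal.ofReal (Real.exp (-s / a)) := by fun_prop
  have h1 := nu_tau hx hg
  rw [h1]
  have h2 : ∫⁻ s in Set.Icc (0 : ℝ) 1, ENNReal.ofReal (Real.exp (-s / a)) * ENNReal.ofReal s ≤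
      ∫⁻ s in Set.Ioi (0 : ℝ), ENNReal.ofReal (s ^ ((2 : ℝ) - 1) * Real.exp (-(1 / a * s))) := by
    rw [← lintegral_indicator measurableSet_Icc, ← lintegral_indicator measurableSet_Ioi]
    refine lintegral_mono fun s => ?_
    by_cases h4 : s ∈ Set.Icc (0 : ℝ) 1
    · rw [Set.indicator_of_mem h4]
      rcases h4.1.eq_or_lt with h6 | h6
      · rw [← h6, ENNReal.ofReal_zero, mul_zero]
        exact zero_le
      · rw [Set.indicator_of_mem (show s ∈ Set.Ioi (0 : ℝ) from h6),
          ← ENNReal.ofReal_mul (Real.exp_pos _).le]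
        refine le_of_eq ?_
        congr 1
        have h7 : (2 : ℝ) - 1 = 1 := by norm_num
        have h8 : -(1 / a * s) = -s / a := by ring
        rw [h7, Real.rpow_one, h8, mul_comm]
    · rw [Set.indicator_of_notMem h4]
      exact zero_le
  have h3 : ∫⁻ s in Set.Ioi (0 : ℝ), ENNReal.ofReal (s ^ ((2 : ℝ) - 1) *
      Real.exp (-(1 / a * s))) = ENNReal.ofReal (a ^ 2) := by
    have ha' : 0 < 1 / a := by positivity
    have hv := Real.integral_rpow_mul_exp_neg_mul_Ioi (a := 2) (r := 1 / a) (by norm_num) ha'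
    rw [Real.Gamma_two, mul_one, one_div_one_div] at hv
    have h9 : a ^ (2 : ℝ) = a ^ 2 := Real.rpow_two a
    rw [h9] at hv
    have hi : IntegrableOn (fun s : ℝ => s ^ ((2 : ℝ) - 1) * Real.exp (-(1 / a * s)))
        (Set.Ioi 0) := by
      by_contra hcon
      have h10 := integral_undef hcon
      rw [hv] at h10
      have : 0 < a ^ 2 := by positivity
      linarith
    rw [← ofReal_integral_eq_lintegral_ofReal hi (by
      rw [Filter.EventuallyLE, ae_restrict_iff' measurableSet_Ioi]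
      exact Filter.Eventually.of_forall fun s (hs : 0 < s) =>
        mul_nonneg (Real.rpow_nonneg hs.le _) (Real.exp_pos _).le), hv]
  calc _ ≤ ENNReal.ofReal (Real.pi ^ 3) * ENNReal.ofReal (a ^ 2) := by
        refine mul_le_mul_right ?_ _
        rw [← h3]
        exact h2
    _ = ENNReal.ofReal (Real.pi ^ 3 * a ^ 2) := by
        rw [← ENNReal.ofReal_mul (by positivity)]

/-- `τ(x, ·) > 0` almost everywhere. -/
theorem nu_tau_pos {x : V} (hx : x ≠ 0) : ∀ᵐ y ∂nuP, 0 < tau x y := by
  rw [ae_iff]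
  have h0 : {y : V | ¬ 0 < tau x y} = {y | tau x y ≤ 0} := by
    ext y
    exact not_lt
  have hms : MeasurableSet {y | tau x y ≤ 0} := measurableSet_le (NuB_tau_meas x) measurable_const
  have h1 : nuP {y | tau x y ≤ 0} =
      ∫⁻ y, (Set.Iic (0 : ℝ)).indicator (fun _ => (1 : ENNReal)) (tau x y) ∂nuP := by
    have h2 : (fun y => (Set.Iic (0 : ℝ)).indicator (fun _ => (1 : ENNReal)) (tau x y)) =
        {y | tau x y ≤ 0}.indicator (fun _ => (1 : ENNReal)) := by
      funext y
      by_cases h : tau x y ≤ 0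
      · rw [Set.indicator_of_mem (show tau x y ∈ Set.Iic (0 : ℝ) from h),
          Set.indicator_of_mem (show y ∈ {y | tau x y ≤ 0} from h)]
      · rw [Set.indicator_of_notMem (show tau x y ∉ Set.Iic (0 : ℝ) from h),
          Set.indicator_of_notMem (show y ∉ {y | tau x y ≤ 0} from h)]
    rw [h2, lintegral_indicator hms, setLIntegral_one]
  rw [h0, h1, nu_tau hx (measurable_const.indicator measurableSet_Iic)]
  have h3 : ∀ s : ℝ, (Set.Iic (0 : ℝ)).indicator (fun _ => (1 : ENNReal)) s * ENNReal.ofReal s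
      = 0 := by
    intro s
    by_cases h : s ≤ 0
    · rw [ENNReal.ofReal_of_nonpos h, mul_zero]
    · rw [Set.indicator_of_notMem (show s ∉ Set.Iic (0 : ℝ) from h), zero_mul]
  simp only [h3, lintegral_zero, mul_zero]

end Pool.Agent.H85.DC
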