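import Pool.Agent.H85.DC.GrA
import Pool.Agent.H85.DC.NuB

/-!
# Row GrC: the trace of the Green potential approximates `f`; gradient bound

`green_approx`. `f : V → ℝ` continuous off `0`, `f (l • x) = f x` (`l ≠ 0`), `∫ f dν = 0`. By `trL_green`,
`N tr L (green n f)(x) = (π^3)⁻¹ (n+1)(n+2) ∫ vv x y^n f y dν(y)`, and by `moment`
`(π^3)⁻¹ (n+1)(n+2) ∫ vv^n dν = 1`. So the difference with `f x` is `(π^3)⁻¹ (n+1)(n+2) ∫ vv^n (f y - f x) dν(y)`.
Uniform continuity: for `κ > 0` there is `s ∈ (0,1)` with `|f y - f x| ≤ κ/2` when `tau x y < s`, `x, y ≠ 0`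
(if not: unit `x_i, y_i` with `tau → 0`, `|f - f| > κ/2`; by `tau_phase` we may multiply `y_i` by a phase so that
`N (x_i - y_i) → 0`; compactness of the unit sphere and continuity of `f` give a contradiction; or uniform continuity of
`f` on the compact sphere, `IsCompact.uniformContinuousOn_of_continuous`).
Split: `tau < s`: contributes at most `κ/2`; `tau ≥ s`: `vv^n ≤ (1-s)^n`, contributes at most
`(π^3)⁻¹ (n+1)(n+2) (1-s)^n * 2B * π^3/2`, `→ 0` (`B` = bound of `|f|`), independent of `x`.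

`gr_green`: `gr (green n f) x ≤ 4 (π^3)⁻² (N x)⁻¹ (∫ τ^{-3/2} |f| dν)^2`. From `dz_green`,
`dz j (green n f) x = -(π^3)⁻¹ ∫ S(y) dz j vv f dν`, `S = ∑_{k<n} (k+2) vv^k ≤ ∑_{k≥0} (k+2)(1-τ)^k = 1/τ^2 + 1/τ ≤ 2/τ^2`
(finite partial sums of `∑ (k+1) r^k = 1/(1-r)^2`; for `τ > 0`, which holds a.e.: `nu_tau_pos`); so the vector
`(dz j)_j` has Euclidean norm at most `(π^3)⁻¹ ∫ S |∂v| |f| dν`, `|∂v| = (v(1-v)/N)^{1/2} ≤ τ^{1/2} N^{-1/2}`
(`grad_v`). (Norm of an integral at most the integral of the norm, in `EuclideanSpace ℂ (Fin 3)`, or: for unit `w`,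
`|∑ w_j dz_j| ≤ …`, or Minkowski by hand.) The integral `∫ τ^{-3/2}|f|` converges (`nu_sing`, `f` bounded).
-/

open MeasureTheory
open scoped ContDiff BigOperators ComplexConjugate Matrix

namespace Pool.Agent.H85.DC

theorem GrC_normSq_le (x : V) (j : Fin 3) : Complex.normSq (x j) ≤ N x := by
  unfold N
  exact Finset.single_le_sum (f := fun j => Complex.normSq (x j))
    (fun i _ => Complex.normSq_nonneg _) (Finset.mem_univ j)

theorem GrC_norm_lt {x : V} {δ : ℝ} (hδ : 0 < δ) (h : N x < δ ^ 2) : ‖x‖ < δ := by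
  rw [pi_norm_lt_iff hδ]
  intro j
  have h1 : ‖x j‖ ^ 2 < δ ^ 2 := by
    rw [← Complex.normSq_eq_norm_sq]
    exact lt_of_le_of_lt (GrC_normSq_le x j) h
  exact lt_of_pow_lt_pow_left₀ 2 hδ.le h1

theorem GrC_cont_N : Continuous N := by
  unfold N
  refine continuous_finsetSum _ (fun j _ => ?_)
  exact Complex.continuous_normSq.comp (continuous_apply j)

theorem GrC_compact : IsCompact {x : V | N x = 1} := by
  refine Metric.isCompact_of_isClosed_isBounded (isClosed_eq GrC_cont_N continuous_const) ?_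
  refine (Metric.isBounded_ball (x := (0 : V)) (r := 2)).subset ?_
  intro x hx
  rw [mem_ball_zero_iff]
  apply GrC_norm_lt (by norm_num)
  rw [Set.mem_ofPred_eq] at hx
  rw [hx]
  norm_num

/-- normalisation -/
theorem GrC_unit {x : V} (hx : x ≠ 0) :
    ∃ l : ℂ, l ≠ 0 ∧ N (l • x) = 1 := by
  have hN := N_pos hx
  refine ⟨((Real.sqrt (N x))⁻¹ : ℝ), ?_, ?_⟩
  · have : (Real.sqrt (N x))⁻¹ ≠ 0 := inv_ne_zero (Real.sqrt_pos.2 hN).ne'
    exact_mod_cast this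
  · rw [N_smul, Complex.normSq_ofReal]
    have h1 : Real.sqrt (N x) * Real.sqrt (N x) = N x := Real.mul_self_sqrt hN.le
    have h2 : (Real.sqrt (N x))⁻¹ * (Real.sqrt (N x))⁻¹ = (N x)⁻¹ := by
      rw [← mul_inv, h1]
    rw [h2]
    exact inv_mul_cancel₀ hN.ne'

theorem GrC_sphere_ne {x : V} (h : N x = 1) : x ≠ 0 := by
  intro h0
  rw [h0] at h
  unfold N at h
  simp at h

theorem unif_cont {f : V → ℝ} (hf : ContinuousOn f {0}ᶜ)
    (hh : ∀ (l : ℂ) (x : V), l ≠ 0 → f (l • x) = f x) {κ : ℝ} (hκ : 0 < κ) :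
    ∃ s : ℝ, 0 < s ∧ ∀ x y : V, x ≠ 0 → y ≠ 0 → tau x y < s → |f x - f y| ≤ κ := by
  have hsub : {x : V | N x = 1} ⊆ {0}ᶜ := fun x hx => GrC_sphere_ne hx
  have huc := GrC_compact.uniformContinuousOn_of_continuous (hf.mono hsub)
  rw [Metric.uniformContinuousOn_iff] at huc
  obtain ⟨δ, hδ, hδ2⟩ := huc κ hκ
  refine ⟨δ ^ 2 / 2, by positivity, ?_⟩
  intro x y hx hy hxy
  obtain ⟨a, ha, hxa⟩ := GrC_unit hx
  obtain ⟨b, hb, hyb⟩ := GrC_unit hy
  obtain ⟨l, hl, hl2⟩ := tau_phase hxa hyb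
  rw [tau_smul_left ha, tau_smul_right hb] at hl2
  have hl0 : l ≠ 0 := by
    intro h0
    rw [h0] at hl
    simp at hl
  have h1 : N (l • b • y) = 1 := by rw [N_smul, hl, hyb, one_mul]
  have h2 : dist (a • x) (l • b • y) < δ := by
    rw [dist_eq_norm]
    apply GrC_norm_lt hδ
    linarith
  have h3 := hδ2 (a • x) hxa (l • b • y) h1 h2
  rw [hh a x ha, hh l (b • y) hl0, hh b y hb, Real.dist_eq] at h3
  exact h3.le

theorem GrC_bdd {f : V → ℝ} (hf : ContinuousOn f {0}ᶜ)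
    (hh : ∀ (l : ℂ) (x : V), l ≠ 0 → f (l • x) = f x) :
    ∃ B : ℝ, 0 ≤ B ∧ ∀ x : V, x ≠ 0 → |f x| ≤ B := by
  have hsub : {x : V | N x = 1} ⊆ {0}ᶜ := fun x hx => GrC_sphere_ne hx
  obtain ⟨B, hB⟩ := GrC_compact.exists_bound_of_continuousOn (hf.mono hsub)
  refine ⟨|B|, abs_nonneg _, ?_⟩
  intro x hx
  obtain ⟨a, ha, hxa⟩ := GrC_unit hx
  have h1 := hB (a • x) hxa
  rw [hh a x ha, Real.norm_eq_abs] at h1
  exact h1.trans (le_abs_self B)

theorem GrC_ae_ne : ∀ᵐ y ∂nuP, y ≠ (0 : V) := by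
  apply nuP_ac.ae_le
  exact compl_mem_ae_iff.2 (measure_singleton (0 : V))

theorem GrC_aesm {f : V → ℝ} (hf : ContinuousOn f {0}ᶜ) :
    AEStronglyMeasurable f (volume : Measure V) := by
  have h1 := hf.aestronglyMeasurable (μ := (volume : Measure V)) (measurableSet_singleton (0 : V)).compl
  have h2 : (volume : Measure V).restrict {0}ᶜ = volume := by
    apply Measure.restrict_eq_self_of_ae_mem
    exact compl_mem_ae_iff.2 (measure_singleton (0 : V))
  rwa [h2] at h1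

theorem GrC_meas_tau (x : V) : Measurable (fun y => tau x y) := by
  have h : Measurable (fun y : V => ((x, y) : V × V)) := measurable_prodMk_left
  have h2 := measurable_tau.comp h
  exact h2

theorem GrC_meas_vv (x : V) : Measurable (fun y => vv x y) := by
  have : (fun y => vv x y) = fun y => 1 - tau x y := by
    funext y
    exact vv_eq x y
  rw [this]
  exact measurable_const.sub (GrC_meas_tau x)

theorem GrC_tendsto (B r : ℝ) (hB : 0 ≤ B) (hr0 : 0 ≤ r) (hr1 : r < 1) {κ : ℝ} (hκ : 0 < κ) :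
    ∃ n : ℕ, ((n : ℝ) + 1) * ((n : ℝ) + 2) * B * r ^ n ≤ κ := by
  have h1 : Filter.Tendsto (fun n : ℕ => (n : ℝ) ^ 2 * r ^ n) Filter.atTop (nhds 0) :=
    tendsto_pow_const_mul_const_pow_of_abs_lt_one 2 (by rw [abs_of_nonneg hr0]; exact hr1)
  have h2 : Filter.Tendsto (fun n : ℕ => 6 * B * ((n : ℝ) ^ 2 * r ^ n)) Filter.atTop (nhds 0) := by
    have := h1.const_mul (6 * B)
    rwa [mul_zero] at this
  have h3 : ∀ᶠ n : ℕ in Filter.atTop, 6 * B * ((n : ℝ) ^ 2 * r ^ n) < κ :=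
    h2.eventually (gt_mem_nhds hκ)
  obtain ⟨n, hn1, hn2⟩ := (h3.and (Filter.eventually_ge_atTop 1)).exists
  refine ⟨n, ?_⟩
  have hn : (1 : ℝ) ≤ n := by exact_mod_cast hn2
  have h4 : ((n : ℝ) + 1) * ((n : ℝ) + 2) ≤ 6 * (n : ℝ) ^ 2 := by nlinarith
  have h5 : 0 ≤ B * r ^ n := by positivity
  nlinarith [mul_le_mul_of_nonneg_right h4 h5]

theorem green_approx {f : V → ℝ} (hf : ContinuousOn f {0}ᶜ)
    (hh : ∀ (l : ℂ) (x : V), l ≠ 0 → f (l • x) = f x) (h0 : ∫ y, f y ∂nuP = 0)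
    {κ : ℝ} (hκ : 0 < κ) :
    ∃ n : ℕ, ∀ x : V, x ≠ 0 →
      ‖(N x : ℂ) * (L (green n f) x).trace - (f x : ℂ)‖ ≤ κ := by
  obtain ⟨B, hB0, hB⟩ := GrC_bdd hf hh
  have hm := GrC_aesm hf
  obtain ⟨s0, hs0, hs⟩ := unif_cont hf hh (half_pos hκ)
  obtain ⟨s, hsd⟩ : ∃ s : ℝ, s = min s0 (1 / 2) := ⟨_, rfl⟩
  have hs1 : 0 < s := by rw [hsd]; exact lt_min hs0 (by norm_num)
  have hs2 : s ≤ 1 / 2 := by rw [hsd]; exact min_le_right _ _
  have hs3 : s ≤ s0 := by rw [hsd]; exact min_le_left _ _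
  obtain ⟨n, hn⟩ := GrC_tendsto B (1 - s) hB0 (by linarith) (by linarith) (half_pos hκ)
  refine ⟨n, fun x hx => ?_⟩
  rw [trL_green n hm hB hx, ← Complex.ofReal_sub, Complex.norm_real, Real.norm_eq_abs]
  obtain ⟨c, hc⟩ : ∃ c : ℝ, c = (Real.pi ^ 3)⁻¹ * (((n : ℝ) + 1) * ((n : ℝ) + 2)) := ⟨_, rfl⟩
  have hc0 : 0 ≤ c := by rw [hc]; positivity
  have hpi : (0 : ℝ) < Real.pi ^ 3 := by positivity
  have hfi : Integrable f nuP := integrable_nuP hm hB
  have hvi : Integrable (fun y => vv x y ^ n) nuP := by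
    refine Integrable.of_bound ((GrC_meas_vv x).pow_const n).aestronglyMeasurable 1 ?_
    refine Filter.Eventually.of_forall (fun y => ?_)
    rw [Real.norm_eq_abs, abs_of_nonneg (pow_nonneg (vv_nonneg x y) n)]
    exact pow_le_one₀ (vv_nonneg x y) (vv_le_one x y)
  have hvfi : Integrable (fun y => vv x y ^ n * f y) nuP := by
    refine Integrable.of_bound (((GrC_meas_vv x).pow_const n).aestronglyMeasurable.mul
      (hm.mono_ac nuP_ac)) B ?_
    filter_upwards [GrC_ae_ne] with y hy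
    rw [Real.norm_eq_abs, abs_mul, abs_of_nonneg (pow_nonneg (vv_nonneg x y) n)]
    calc vv x y ^ n * |f y| ≤ 1 * B := mul_le_mul (pow_le_one₀ (vv_nonneg x y) (vv_le_one x y))
          (hB y hy) (abs_nonneg _) zero_le_one
      _ = B := one_mul B
  have hcv : c * ∫ y, vv x y ^ n ∂nuP = 1 := by
    rw [moment n hx, hc]
    field_simp
  have e1 : (Real.pi ^ 3)⁻¹ * ∫ y, (((n : ℝ) + 1) * ((n : ℝ) + 2) * vv x y ^ n - 2) * f y ∂nuP =
      c * ∫ y, vv x y ^ n * f y ∂nuP := by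
    have e2 : ∀ y, (((n : ℝ) + 1) * ((n : ℝ) + 2) * vv x y ^ n - 2) * f y =
        (((n : ℝ) + 1) * ((n : ℝ) + 2)) * (vv x y ^ n * f y) - 2 * f y := by
      intro y; ring
    simp only [e2]
    rw [integral_sub (hvfi.const_mul _) (hfi.const_mul _), integral_const_mul, integral_const_mul,
      h0, hc]
    ring
  have e3 : c * ∫ y, vv x y ^ n * f y ∂nuP - f x = c * ∫ y, vv x y ^ n * (f y - f x) ∂nuP := by
    have e4 : ∀ y, vv x y ^ n * (f y - f x) = vv x y ^ n * f y - vv x y ^ n * f x := by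
      intro y; ring
    simp only [e4]
    rw [integral_sub hvfi (hvi.mul_const _), integral_mul_const, mul_sub, ← mul_assoc, hcv, one_mul]
  rw [e1, e3, abs_mul, abs_of_nonneg hc0]
  have hbound : |∫ y, vv x y ^ n * (f y - f x) ∂nuP| ≤
      ∫ y, (κ / 2 * vv x y ^ n + 2 * B * (1 - s) ^ n) ∂nuP := by
    rw [← Real.norm_eq_abs]
    refine norm_integral_le_of_norm_le ((hvi.const_mul _).add (integrable_const _)) ?_
    filter_upwards [GrC_ae_ne] with y hy
    have hv0 : 0 ≤ vv x y ^ n := pow_nonneg (vv_nonneg x y) n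
    have hs' : 0 ≤ (1 - s) ^ n := pow_nonneg (by linarith) n
    rw [Real.norm_eq_abs, abs_mul, abs_of_nonneg hv0]
    by_cases ht : tau x y < s
    · have h1 := hs x y hx hy (lt_of_lt_of_le ht hs3)
      rw [abs_sub_comm] at h1
      have h2 := mul_le_mul_of_nonneg_left h1 hv0
      have h3 : 0 ≤ 2 * B * (1 - s) ^ n := by positivity
      linarith
    · push Not at ht
      have h1 : vv x y ≤ 1 - s := by rw [vv_eq]; linarith
      have h2 : vv x y ^ n ≤ (1 - s) ^ n := pow_le_pow_left₀ (vv_nonneg x y) h1 n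
      have h3 : |f y - f x| ≤ 2 * B := by
        have := abs_sub (f y) (f x)
        have h4 := hB y hy
        have h5 := hB x hx
        linarith
      have h4 : vv x y ^ n * |f y - f x| ≤ (1 - s) ^ n * (2 * B) :=
        mul_le_mul h2 h3 (abs_nonneg _) hs'
      have h5 : 0 ≤ κ / 2 * vv x y ^ n := by positivity
      linarith
  have hval : ∫ y, (κ / 2 * vv x y ^ n + 2 * B * (1 - s) ^ n) ∂nuP =
      κ / 2 * ∫ y, vv x y ^ n ∂nuP + 2 * B * (1 - s) ^ n * (Real.pi ^ 3 / 2) := by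
    rw [integral_add (hvi.const_mul _) (integrable_const _), integral_const_mul, integral_const]
    have : nuP.real Set.univ = Real.pi ^ 3 / 2 := by
      rw [Measure.real, nuP_univ, ENNReal.toReal_ofReal (by positivity)]
    rw [this, smul_eq_mul]
    ring
  rw [hval] at hbound
  calc c * |∫ y, vv x y ^ n * (f y - f x) ∂nuP|
      ≤ c * (κ / 2 * ∫ y, vv x y ^ n ∂nuP + 2 * B * (1 - s) ^ n * (Real.pi ^ 3 / 2)) :=
        mul_le_mul_of_nonneg_left hbound hc0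
    _ = κ / 2 * (c * ∫ y, vv x y ^ n ∂nuP) +
        (Real.pi ^ 3)⁻¹ * Real.pi ^ 3 * (((n : ℝ) + 1) * ((n : ℝ) + 2) * B * (1 - s) ^ n) := by
        rw [hc]; ring
    _ = κ / 2 + ((n : ℝ) + 1) * ((n : ℝ) + 2) * B * (1 - s) ^ n := by
        rw [hcv, inv_mul_cancel₀ hpi.ne']; ring
    _ ≤ κ := by linarith

theorem GrC_int_tau {x : V} (hx : x ≠ 0) :
    Integrable (fun y => (tau x y) ^ (-(3 / 2) : ℝ)) nuP := by
  have hmeas : Measurable (fun y => (tau x y) ^ (-(3 / 2) : ℝ)) := (GrC_meas_tau x).pow_const _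
  refine ⟨hmeas.aestronglyMeasurable, ?_⟩
  rw [hasFiniteIntegral_iff_ofReal (Filter.Eventually.of_forall
    (fun y => Real.rpow_nonneg (tau_nonneg x y) _))]
  have h1 := nu_sing hx (b := 2) (by norm_num)
  have h2 : {y | tau x y < 2} = Set.univ := by
    ext y
    simp only [Set.mem_ofPred_eq, Set.mem_univ, iff_true]
    exact lt_of_le_of_lt (tau_le_one x y) (by norm_num)
  rw [h2, Measure.restrict_univ] at h1
  exact lt_of_le_of_lt h1 ENNReal.ofReal_lt_top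

theorem int_sing {x : V} (hx : x ≠ 0) {f : V → ℝ}
    (hf : AEStronglyMeasurable f (volume : Measure V)) {b : ℝ}
    (hb : ∀ y : V, y ≠ 0 → |f y| ≤ b) :
    Integrable (fun y => (tau x y) ^ (-(3 / 2) : ℝ) * |f y|) nuP := by
  refine ((GrC_int_tau hx).mul_const b).mono'
    (((GrC_meas_tau x).pow_const _).aestronglyMeasurable.mul (hf.mono_ac nuP_ac).norm) ?_
  filter_upwards [GrC_ae_ne] with y hy
  have h1 : 0 ≤ (tau x y) ^ (-(3 / 2) : ℝ) := Real.rpow_nonneg (tau_nonneg x y) _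
  rw [Real.norm_eq_abs, abs_mul, abs_of_nonneg h1, abs_abs]
  exact mul_le_mul_of_nonneg_left (hb y hy) h1

/-- closed form of the arithmetico-geometric sum -/
theorem GrC_sum (τ : ℝ) (n : ℕ) :
    τ ^ 2 * ∑ k ∈ Finset.range n, ((k : ℝ) + 2) * (1 - τ) ^ k =
      (1 + τ) - (1 - τ) ^ n * (1 + τ + n * τ) := by
  induction n with
  | zero => simp
  | succ n ih =>
    rw [Finset.sum_range_succ, mul_add, ih]
    push_cast
    ring

theorem GrC_sum_le {τ : ℝ} (h0 : 0 < τ) (h1 : τ ≤ 1) (n : ℕ) :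
    ∑ k ∈ Finset.range n, ((k : ℝ) + 2) * (1 - τ) ^ k ≤ 2 / τ ^ 2 := by
  rw [le_div_iff₀ (by positivity), mul_comm, GrC_sum]
  have h2 : 0 ≤ (1 - τ) ^ n := pow_nonneg (by linarith) n
  have h3 : 0 ≤ (1 - τ) ^ n * (1 + τ + n * τ) := by positivity
  linarith

theorem GrC_meas_dz (j : Fin 3) {x : V} (hx : x ≠ 0) :
    Measurable (fun y => dz j (fun x => ((vv x y : ℝ) : ℂ)) x) := by
  have hd : ∀ y : V, DifferentiableAt ℝ (fun x => ((vv x y : ℝ) : ℂ)) x := by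
    intro y
    have h1 := (isFun_vv y 1).smooth
    simp only [pow_one] at h1
    exact (h1.differentiableOn (by simp)).differentiableAt (isOpen_compl_singleton.mem_nhds hx)
  have hf : ∀ v : V, Measurable (fun y => fderiv ℝ (fun x => ((vv x y : ℝ) : ℂ)) x v) := by
    intro v
    refine measurable_of_tendsto_metrizable
      (f := fun (n : ℕ) (y : V) => (n : ℝ) •
        (((vv (x + ((n : ℝ))⁻¹ • v) y : ℝ) : ℂ) - ((vv x y : ℝ) : ℂ))) ?_ ?_
    · intro n
      exact ((Complex.measurable_ofReal.comp (GrC_meas_vv _)).sub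
        (Complex.measurable_ofReal.comp (GrC_meas_vv _))).const_smul (n : ℝ)
    · rw [tendsto_pi_nhds]
      intro y
      exact ((hd y).hasFDerivAt.lim_real v).comp tendsto_natCast_atTop_atTop
  unfold dz
  exact ((hf _).sub ((hf _).const_mul _)).div_const _

theorem GrC_dz_le (j : Fin 3) {x y : V} (hx : x ≠ 0) (hy : y ≠ 0) :
    ‖dz j (fun x => ((vv x y : ℝ) : ℂ)) x‖ ≤ Real.sqrt ((N x)⁻¹) := by
  have hN := N_pos hx
  have h1 := grad_v hx hy
  have h2 : Complex.normSq (dz j (fun x => ((vv x y : ℝ) : ℂ)) x) ≤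
      gr (fun x => ((vv x y : ℝ) : ℂ)) x := by
    unfold gr
    exact Finset.single_le_sum (f := fun j => Complex.normSq (dz j (fun x => ((vv x y : ℝ) : ℂ)) x))
      (fun i _ => Complex.normSq_nonneg _) (Finset.mem_univ j)
  have h3 : vv x y * (1 - vv x y) / N x ≤ (N x)⁻¹ := by
    rw [div_eq_mul_inv]
    have h4 : vv x y * (1 - vv x y) ≤ 1 := by nlinarith [vv_nonneg x y, vv_le_one x y]
    exact mul_le_of_le_one_left (inv_nonneg.2 hN.le) h4
  apply Real.le_sqrt_of_sq_le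
  rw [← Complex.normSq_eq_norm_sq]
  linarith

theorem GrC_rpow {τ : ℝ} (h : 0 < τ) : 2 / τ ^ 2 * Real.sqrt τ = 2 * τ ^ (-(3 / 2) : ℝ) := by
  have h1 : (-(3 / 2) : ℝ) = -2 + 1 / 2 := by norm_num
  rw [h1, Real.rpow_add h, Real.rpow_neg h.le, Real.sqrt_eq_rpow]
  have h2 : τ ^ (2 : ℝ) = τ ^ 2 := by
    rw [← Real.rpow_natCast]
    norm_num
  rw [h2]
  ring

theorem gr_green (n : ℕ) {f : V → ℝ} (hf : AEStronglyMeasurable f (volume : Measure V)) {b : ℝ}
    (hb : ∀ y : V, y ≠ 0 → |f y| ≤ b) {x : V} (hx : x ≠ 0) :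
    gr (green n f) x ≤
      4 * ((Real.pi ^ 3)⁻¹) ^ 2 * (N x)⁻¹ * (∫ y, (tau x y) ^ (-(3 / 2) : ℝ) * |f y| ∂nuP) ^ 2 := by
  have hN := N_pos hx
  have hpi : (0 : ℝ) < Real.pi ^ 3 := by positivity
  obtain ⟨c, hc⟩ : ∃ c : ℝ, c = (Real.pi ^ 3)⁻¹ := ⟨_, rfl⟩
  have hc0 : 0 ≤ c := by rw [hc]; positivity
  rw [← hc]
  obtain ⟨I, hI⟩ : ∃ I : ℝ, I = ∫ y, (tau x y) ^ (-(3 / 2) : ℝ) * |f y| ∂nuP := ⟨_, rfl⟩
  rw [← hI]
  have hI0 : 0 ≤ I := by
    rw [hI]
    exact integral_nonneg (fun y => mul_nonneg (Real.rpow_nonneg (tau_nonneg x y) _) (abs_nonneg _))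
  obtain ⟨a, ha⟩ : ∃ a : Fin 3 → ℂ, ∀ j, a j = dz j (green n f) x := ⟨_, fun _ => rfl⟩
  obtain ⟨A, hA⟩ : ∃ A : ℝ, A = gr (green n f) x := ⟨_, rfl⟩
  have hA1 : A = ∑ j, Complex.normSq (a j) := by
    rw [hA]
    unfold gr
    exact Finset.sum_congr rfl (fun j _ => by rw [ha])
  have hA0 : 0 ≤ A := by
    rw [hA1]
    exact Finset.sum_nonneg (fun j _ => Complex.normSq_nonneg _)
  rw [← hA]
  obtain ⟨d, hd⟩ : ∃ d : Fin 3 → V → ℂ, ∀ j y, d j y = dz j (fun x => ((vv x y : ℝ) : ℂ)) x :=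
    ⟨fun j y => dz j (fun x => ((vv x y : ℝ) : ℂ)) x, fun _ _ => rfl⟩
  have hdm : ∀ j, Measurable (d j) := by
    intro j
    have := GrC_meas_dz j hx
    have e : d j = fun y => dz j (fun x => ((vv x y : ℝ) : ℂ)) x := funext (hd j)
    rw [e]
    exact this
  have hgint : ∀ (j : Fin 3) (k : ℕ), Integrable (fun y => ((vv x y ^ k : ℝ) : ℂ) * d j y * (f y : ℂ))
      nuP := by
    intro j k
    refine Integrable.of_bound (C := Real.sqrt ((N x)⁻¹) * b) ?_ ?_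
    · refine AEStronglyMeasurable.mul (Measurable.aestronglyMeasurable ?_) ?_
      · exact (Complex.measurable_ofReal.comp ((GrC_meas_vv x).pow_const k)).mul (hdm j)
      · exact Complex.continuous_ofReal.comp_aestronglyMeasurable (hf.mono_ac nuP_ac)
    · filter_upwards [GrC_ae_ne] with y hy
      rw [norm_mul, norm_mul, Complex.norm_real, Complex.norm_real, Real.norm_eq_abs,
        Real.norm_eq_abs, abs_of_nonneg (pow_nonneg (vv_nonneg x y) k), hd]
      have h1 : vv x y ^ k ≤ 1 := pow_le_one₀ (vv_nonneg x y) (vv_le_one x y)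
      have h2 := GrC_dz_le j hx hy
      have h3 := hb y hy
      have h4 : 0 ≤ ‖dz j (fun x => ((vv x y : ℝ) : ℂ)) x‖ := norm_nonneg _
      have h5 : vv x y ^ k * ‖dz j (fun x => ((vv x y : ℝ) : ℂ)) x‖ ≤ Real.sqrt ((N x)⁻¹) := by
        have := mul_le_mul h1 h2 h4 zero_le_one
        rwa [one_mul] at this
      exact mul_le_mul h5 h3 (abs_nonneg _) (Real.sqrt_nonneg _)
  have haj : ∀ j, a j = -((c : ℝ) : ℂ) * ∑ k ∈ Finset.range n, (((k : ℝ) + 2 : ℝ) : ℂ) *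
        ∫ y, ((vv x y ^ k : ℝ) : ℂ) * d j y * (f y : ℂ) ∂nuP := by
    intro j
    rw [ha, dz_green n hf hb j hx, hc]
    simp only [hd]
    push_cast
    rfl
  -- A as an integral
  have hAint : ((A : ℝ) : ℂ) = -((c : ℝ) : ℂ) * ∫ y, (∑ j, ∑ k ∈ Finset.range n,
      (conj (a j) * (((k : ℝ) + 2 : ℝ) : ℂ)) * (((vv x y ^ k : ℝ) : ℂ) * d j y * (f y : ℂ))) ∂nuP := by
    rw [integral_finsetSum _ (fun j _ => integrable_finsetSum _
      (fun k _ => (hgint j k).const_mul _))]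
    have e1 : ∀ j, ∫ y, (∑ k ∈ Finset.range n, (conj (a j) * (((k : ℝ) + 2 : ℝ) : ℂ)) *
        (((vv x y ^ k : ℝ) : ℂ) * d j y * (f y : ℂ))) ∂nuP =
        conj (a j) * ∑ k ∈ Finset.range n, (((k : ℝ) + 2 : ℝ) : ℂ) *
          ∫ y, ((vv x y ^ k : ℝ) : ℂ) * d j y * (f y : ℂ) ∂nuP := by
      intro j
      rw [integral_finsetSum _ (fun k _ => (hgint j k).const_mul _), Finset.mul_sum]
      refine Finset.sum_congr rfl (fun k _ => ?_)
      rw [integral_const_mul]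
      ring
    simp only [e1]
    have e2 : ∀ j, ((Complex.normSq (a j) : ℝ) : ℂ) = -((c : ℝ) : ℂ) * (conj (a j) *
        ∑ k ∈ Finset.range n, (((k : ℝ) + 2 : ℝ) : ℂ) *
          ∫ y, ((vv x y ^ k : ℝ) : ℂ) * d j y * (f y : ℂ) ∂nuP) := by
      intro j
      rw [Complex.normSq_eq_conj_mul_self]
      calc conj (a j) * a j = conj (a j) * (-((c : ℝ) : ℂ) * ∑ k ∈ Finset.range n,
            (((k : ℝ) + 2 : ℝ) : ℂ) * ∫ y, ((vv x y ^ k : ℝ) : ℂ) * d j y * (f y : ℂ) ∂nuP) := by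
            rw [← haj j]
        _ = _ := by ring
    rw [hA1, Complex.ofReal_sum, Finset.mul_sum]
    exact Finset.sum_congr rfl (fun j _ => e2 j)
  have hpt : ∀ᵐ y ∂nuP, ‖∑ j, ∑ k ∈ Finset.range n,
      (conj (a j) * (((k : ℝ) + 2 : ℝ) : ℂ)) * (((vv x y ^ k : ℝ) : ℂ) * d j y * (f y : ℂ))‖ ≤
      (Real.sqrt A * (2 * Real.sqrt ((N x)⁻¹))) * ((tau x y) ^ (-(3 / 2) : ℝ) * |f y|) := by
    filter_upwards [GrC_ae_ne, nu_tau_pos hx] with y hy ht
    have e1 : ∑ j, ∑ k ∈ Finset.range n,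
        (conj (a j) * (((k : ℝ) + 2 : ℝ) : ℂ)) * (((vv x y ^ k : ℝ) : ℂ) * d j y * (f y : ℂ)) =
        ((∑ k ∈ Finset.range n, ((k : ℝ) + 2) * (1 - tau x y) ^ k : ℝ) : ℂ) *
          (∑ j, conj (a j) * d j y) * (f y : ℂ) := by
      rw [Complex.ofReal_sum, Finset.sum_mul_sum, Finset.sum_comm, Finset.sum_mul]
      rw [Finset.sum_comm]
      rw [Finset.sum_comm]
      refine Finset.sum_congr rfl (fun k _ => ?_)
      rw [Finset.sum_mul]
      refine Finset.sum_congr rfl (fun j _ => ?_)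
      rw [vv_eq]
      push_cast
      ring
    rw [e1, norm_mul, norm_mul, Complex.norm_real, Complex.norm_real, Real.norm_eq_abs,
      Real.norm_eq_abs]
    have hS0 : 0 ≤ ∑ k ∈ Finset.range n, ((k : ℝ) + 2) * (1 - tau x y) ^ k := by
      refine Finset.sum_nonneg (fun k _ => ?_)
      have : 0 ≤ 1 - tau x y := by linarith [tau_le_one x y]
      positivity
    rw [abs_of_nonneg hS0]
    have hS := GrC_sum_le ht (tau_le_one x y) n
    have hCS : ‖∑ j, conj (a j) * d j y‖ ≤ Real.sqrt A * Real.sqrt (tau x y * (N x)⁻¹) := by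
      have h1 : ‖∑ j, conj (a j) * d j y‖ ≤ ∑ j, ‖a j‖ * ‖d j y‖ := by
        refine (norm_sum_le _ _).trans (le_of_eq ?_)
        refine Finset.sum_congr rfl (fun j _ => ?_)
        rw [norm_mul, RCLike.norm_conj]
      have h2 := Real.sum_mul_le_sqrt_mul_sqrt Finset.univ (fun j => ‖a j‖) (fun j => ‖d j y‖)
      have h3 : ∑ j, ‖a j‖ ^ 2 = A := by
        rw [hA1]
        exact Finset.sum_congr rfl (fun j _ => by rw [Complex.normSq_eq_norm_sq])
      have h4 : ∑ j, ‖d j y‖ ^ 2 ≤ tau x y * (N x)⁻¹ := by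
        have h5 : ∑ j, ‖d j y‖ ^ 2 = gr (fun x => ((vv x y : ℝ) : ℂ)) x := by
          unfold gr
          exact Finset.sum_congr rfl (fun j _ => by rw [Complex.normSq_eq_norm_sq, hd])
        rw [h5, grad_v hx hy, div_eq_mul_inv]
        refine mul_le_mul_of_nonneg_right ?_ (inv_nonneg.2 hN.le)
        have h6 := vv_eq x y
        have h7 := vv_nonneg x y
        have h8 := tau_nonneg x y
        rw [h6] at h7 ⊢
        nlinarith
      rw [h3] at h2
      exact h1.trans (h2.trans (mul_le_mul_of_nonneg_left (Real.sqrt_le_sqrt h4)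
        (Real.sqrt_nonneg _)))
    have h9 : 0 ≤ 2 / (tau x y) ^ 2 := by positivity
    calc (∑ k ∈ Finset.range n, ((k : ℝ) + 2) * (1 - tau x y) ^ k) *
          ‖∑ j, conj (a j) * d j y‖ * |f y|
        ≤ (2 / (tau x y) ^ 2) * (Real.sqrt A * Real.sqrt (tau x y * (N x)⁻¹)) * |f y| := by
          refine mul_le_mul_of_nonneg_right ?_ (abs_nonneg _)
          exact mul_le_mul hS hCS (norm_nonneg _) h9
      _ = (Real.sqrt A * Real.sqrt ((N x)⁻¹)) * (2 / (tau x y) ^ 2 * Real.sqrt (tau x y)) *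
          |f y| := by
          rw [Real.sqrt_mul (tau_nonneg x y)]
          ring
      _ = (Real.sqrt A * (2 * Real.sqrt ((N x)⁻¹))) * ((tau x y) ^ (-(3 / 2) : ℝ) * |f y|) := by
          rw [GrC_rpow ht]
          ring
  have hAle : A ≤ Real.sqrt A * (2 * c * Real.sqrt ((N x)⁻¹) * I) := by
    have h1 : A = ‖((A : ℝ) : ℂ)‖ := by
      rw [Complex.norm_real, Real.norm_eq_abs, abs_of_nonneg hA0]
    have h2 := norm_integral_le_of_norm_le (((int_sing hx hf hb).const_mul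
      (Real.sqrt A * (2 * Real.sqrt ((N x)⁻¹))))) hpt
    rw [integral_const_mul, ← hI] at h2
    rw [hAint, norm_mul, norm_neg, Complex.norm_real, Real.norm_eq_abs, abs_of_nonneg hc0] at h1
    calc A = _ := h1
      _ ≤ c * ((Real.sqrt A * (2 * Real.sqrt ((N x)⁻¹))) * I) := mul_le_mul_of_nonneg_left h2 hc0
      _ = Real.sqrt A * (2 * c * Real.sqrt ((N x)⁻¹) * I) := by ring
  have hR0 : 0 ≤ 2 * c * Real.sqrt ((N x)⁻¹) * I := by positivity
  have hsA : Real.sqrt A ≤ 2 * c * Real.sqrt ((N x)⁻¹) * I := by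
    by_cases h0 : Real.sqrt A = 0
    · rw [h0]; exact hR0
    · have hpos : 0 < Real.sqrt A := lt_of_le_of_ne (Real.sqrt_nonneg A) (Ne.symm h0)
      have h1 : Real.sqrt A * Real.sqrt A ≤ Real.sqrt A * (2 * c * Real.sqrt ((N x)⁻¹) * I) := by
        rw [Real.mul_self_sqrt hA0]
        exact hAle
      exact le_of_mul_le_mul_left h1 hpos
  have h1 : A = Real.sqrt A ^ 2 := (Real.sq_sqrt hA0).symm
  have h2 : Real.sqrt A ^ 2 ≤ (2 * c * Real.sqrt ((N x)⁻¹) * I) ^ 2 :=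
    pow_le_pow_left₀ (Real.sqrt_nonneg A) hsA 2
  have h3 : (2 * c * Real.sqrt ((N x)⁻¹) * I) ^ 2 = 4 * c ^ 2 * (N x)⁻¹ * I ^ 2 := by
    have h4 : Real.sqrt ((N x)⁻¹) ^ 2 = (N x)⁻¹ := Real.sq_sqrt (inv_nonneg.2 hN.le)
    calc (2 * c * Real.sqrt ((N x)⁻¹) * I) ^ 2 =
        4 * c ^ 2 * Real.sqrt ((N x)⁻¹) ^ 2 * I ^ 2 := by ring
      _ = _ := by rw [h4]
  linarith

end Pool.Agent.H85.DC
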