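import Pool.Agent.H85.DC.HomA

/-!
# Row HomB: rules for the Wirtinger derivatives

Everything unfolds to `fderiv ℝ` evaluated at `Pi.single j 1`, `Pi.single j Complex.I`.
Products: `fderiv_mul` (or `HasFDerivAt.mul'`), then `ring`. Sums: `fderiv_add`, `fderiv_sum`. Constants:
`fderiv_const_mul` needs differentiability; for `dz_const_mul` and `dzb_const_mul` we assume it.
Conjugation: `Complex.conjCLE` is a continuous real linear equivalence, `conj ∘ f` has derivative
`conjCLE.comp (fderiv f x)` without any hypothesis (`ContinuousLinearEquiv.comp_fderiv`).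
Coordinates are real continuous linear maps: `fderiv = itself`. `N y = ∑ y_j conj(y_j)` (as a complex number,
`Complex.mul_conj`).
Commutation: `f` is smooth near `x` (`{0}ᶜ` open), so the second derivative is symmetric
(`ContDiffAt.isSymmSndFDerivAt` or `second_derivative_symmetric`), and `fderiv (fun y => fderiv f y v) x w =
fderiv (fderiv f) x w v`; expand both sides bilinearly.
Chain rules: `HasDerivAt.comp_hasFDerivAt` (one real variable outside; note `fderiv (fun y => ((u y : ℝ) : ℂ)) x v =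
((fderiv u x v : ℝ) : ℂ)`), and for the linear map `y ↦ M.mulVec y`:
`fderiv (f ∘ M) x v = fderiv f (M x) (M v)`; write `fderiv f z w = ∑ k (w_k dz_k f z + conj(w_k) dzb_k f z)`
(prove this here if needed, or import HomA: `fderiv_eq`), with `w = M.mulVec (Pi.single j 1)` resp.
`w = M.mulVec (Pi.single j I)`, `w_k = M k j` resp. `I * M k j`.
You may import HomA.
-/

open MeasureTheory
open scoped ContDiff BigOperators ComplexConjugate Matrix

namespace Pool.Agent.H85.DC

theorem HomB_dz {j : Fin 3} {f : V → ℂ} {x : V} {D : V →L[ℝ] ℂ} (h : HasFDerivAt f D x) :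
    dz j f x = (D (Pi.single j 1) - Complex.I * D (Pi.single j Complex.I)) / 2 := by
  unfold dz; rw [h.fderiv]

theorem HomB_dzb {j : Fin 3} {f : V → ℂ} {x : V} {D : V →L[ℝ] ℂ} (h : HasFDerivAt f D x) :
    dzb j f x = (D (Pi.single j 1) + Complex.I * D (Pi.single j Complex.I)) / 2 := by
  unfold dzb; rw [h.fderiv]

theorem HomB_mul_f {f g : V → ℂ} {x : V} (hf : DifferentiableAt ℝ f x)
    (hg : DifferentiableAt ℝ g x) (v : V) :
    fderiv ℝ (fun y => f y * g y) x v = fderiv ℝ f x v * g x + f x * fderiv ℝ g x v := by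
  rw [fderiv_fun_mul hf hg]
  simp only [ContinuousLinearMap.add_apply, ContinuousLinearMap.smul_apply, smul_eq_mul]
  ring

theorem dz_mul (j : Fin 3) {f g : V → ℂ} {x : V} (hf : DifferentiableAt ℝ f x)
    (hg : DifferentiableAt ℝ g x) :
    dz j (fun y => f y * g y) x = dz j f x * g x + f x * dz j g x := by
  unfold dz
  rw [HomB_mul_f hf hg, HomB_mul_f hf hg]
  ring

theorem dzb_mul (j : Fin 3) {f g : V → ℂ} {x : V} (hf : DifferentiableAt ℝ f x)
    (hg : DifferentiableAt ℝ g x) :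
    dzb j (fun y => f y * g y) x = dzb j f x * g x + f x * dzb j g x := by
  unfold dzb
  rw [HomB_mul_f hf hg, HomB_mul_f hf hg]
  ring

theorem dz_add (j : Fin 3) {f g : V → ℂ} {x : V} (hf : DifferentiableAt ℝ f x)
    (hg : DifferentiableAt ℝ g x) :
    dz j (fun y => f y + g y) x = dz j f x + dz j g x := by
  rw [HomB_dz (hf.hasFDerivAt.fun_add hg.hasFDerivAt)]
  unfold dz
  simp only [ContinuousLinearMap.add_apply]
  ring

theorem dzb_add (j : Fin 3) {f g : V → ℂ} {x : V} (hf : DifferentiableAt ℝ f x)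
    (hg : DifferentiableAt ℝ g x) :
    dzb j (fun y => f y + g y) x = dzb j f x + dzb j g x := by
  rw [HomB_dzb (hf.hasFDerivAt.fun_add hg.hasFDerivAt)]
  unfold dzb
  simp only [ContinuousLinearMap.add_apply]
  ring

theorem dz_const_mul (j : Fin 3) (c : ℂ) {f : V → ℂ} {x : V} (hf : DifferentiableAt ℝ f x) :
    dz j (fun y => c * f y) x = c * dz j f x := by
  rw [HomB_dz (hf.hasFDerivAt.const_mul c)]
  unfold dz
  simp only [ContinuousLinearMap.smul_apply, smul_eq_mul]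
  ring

theorem dzb_const_mul (j : Fin 3) (c : ℂ) {f : V → ℂ} {x : V} (hf : DifferentiableAt ℝ f x) :
    dzb j (fun y => c * f y) x = c * dzb j f x := by
  rw [HomB_dzb (hf.hasFDerivAt.const_mul c)]
  unfold dzb
  simp only [ContinuousLinearMap.smul_apply, smul_eq_mul]
  ring

theorem HomB_sum_f {ι : Type} (s : Finset ι) (f : ι → V → ℂ) {x : V}
    (hf : ∀ i ∈ s, DifferentiableAt ℝ (f i) x) (v : V) :
    fderiv ℝ (fun y => ∑ i ∈ s, f i y) x v = ∑ i ∈ s, fderiv ℝ (f i) x v := by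
  rw [fderiv_fun_sum hf, ContinuousLinearMap.sum_apply]

theorem dz_sum (j : Fin 3) {ι : Type} (s : Finset ι) (f : ι → V → ℂ) {x : V}
    (hf : ∀ i ∈ s, DifferentiableAt ℝ (f i) x) :
    dz j (fun y => ∑ i ∈ s, f i y) x = ∑ i ∈ s, dz j (f i) x := by
  unfold dz
  rw [HomB_sum_f s f hf, HomB_sum_f s f hf, Finset.mul_sum, ← Finset.sum_sub_distrib,
    Finset.sum_div]

theorem dzb_sum (j : Fin 3) {ι : Type} (s : Finset ι) (f : ι → V → ℂ) {x : V}
    (hf : ∀ i ∈ s, DifferentiableAt ℝ (f i) x) :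
    dzb j (fun y => ∑ i ∈ s, f i y) x = ∑ i ∈ s, dzb j (f i) x := by
  unfold dzb
  rw [HomB_sum_f s f hf, HomB_sum_f s f hf, Finset.mul_sum, ← Finset.sum_add_distrib,
    Finset.sum_div]

theorem dz_const (j : Fin 3) (c : ℂ) (x : V) : dz j (fun _ => c) x = 0 := by
  rw [HomB_dz (hasFDerivAt_const c x)]
  simp

theorem dzb_const (j : Fin 3) (c : ℂ) (x : V) : dzb j (fun _ => c) x = 0 := by
  rw [HomB_dzb (hasFDerivAt_const c x)]
  simp

theorem HomB_coord (k : Fin 3) (x : V) :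
    HasFDerivAt (fun y : V => y k) (ContinuousLinearMap.proj (R := ℝ) (φ := fun _ : Fin 3 => ℂ) k) x :=
  (ContinuousLinearMap.proj (R := ℝ) (φ := fun _ : Fin 3 => ℂ) k).hasFDerivAt

theorem HomB_conj {f : V → ℂ} {x : V} {D : V →L[ℝ] ℂ} (h : HasFDerivAt f D x) :
    HasFDerivAt (fun y : V => conj (f y)) ((Complex.conjCLE : ℂ →L[ℝ] ℂ).comp D) x :=
  (Complex.conjCLE : ℂ →L[ℝ] ℂ).hasFDerivAt.comp x h

theorem HomB_single (j k : Fin 3) (a : ℂ) :
    (Pi.single j a : V) k = if j = k then a else 0 := by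
  rw [Pi.single_apply]
  by_cases h : j = k
  · rw [if_pos h, if_pos h.symm]
  · rw [if_neg h, if_neg (Ne.symm h)]

theorem dz_coord (j k : Fin 3) (x : V) : dz j (fun y => y k) x = if j = k then 1 else 0 := by
  rw [HomB_dz (HomB_coord k x)]
  simp only [ContinuousLinearMap.proj_apply, HomB_single]
  split_ifs
  · rw [Complex.I_mul_I]; norm_num
  · norm_num

theorem dzb_coord (j k : Fin 3) (x : V) : dzb j (fun y => y k) x = 0 := by
  rw [HomB_dzb (HomB_coord k x)]
  simp only [ContinuousLinearMap.proj_apply, HomB_single]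
  split_ifs
  · rw [Complex.I_mul_I]; norm_num
  · norm_num

theorem dz_conj_coord (j k : Fin 3) (x : V) : dz j (fun y => conj (y k)) x = 0 := by
  rw [HomB_dz (HomB_conj (HomB_coord k x))]
  show (conj ((Pi.single j (1 : ℂ) : V) k) - Complex.I * conj ((Pi.single j Complex.I : V) k)) / 2 = 0
  rw [HomB_single, HomB_single]
  split_ifs
  · rw [map_one, Complex.conj_I, mul_neg, Complex.I_mul_I]; norm_num
  · rw [map_zero]; norm_num

theorem dzb_conj_coord (j k : Fin 3) (x : V) :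
    dzb j (fun y => conj (y k)) x = if j = k then 1 else 0 := by
  rw [HomB_dzb (HomB_conj (HomB_coord k x))]
  show (conj ((Pi.single j (1 : ℂ) : V) k) + Complex.I * conj ((Pi.single j Complex.I : V) k)) / 2 = _
  rw [HomB_single, HomB_single]
  split_ifs
  · rw [map_one, Complex.conj_I, mul_neg, Complex.I_mul_I]; norm_num
  · rw [map_zero]; norm_num

theorem HomB_conj_f (f : V → ℂ) (x v : V) :
    fderiv ℝ (fun y => conj (f y)) x v = conj (fderiv ℝ f x v) := by
  have h := Complex.conjCLE.comp_fderiv (f := f) (x := x)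
  have h2 : fderiv ℝ (fun y => conj (f y)) x = (Complex.conjCLE : ℂ →L[ℝ] ℂ).comp (fderiv ℝ f x) := h
  rw [h2]
  rfl

theorem conj_dz (j : Fin 3) (f : V → ℂ) (x : V) :
    conj (dz j f x) = dzb j (fun y => conj (f y)) x := by
  unfold dz dzb
  rw [HomB_conj_f, HomB_conj_f, map_div₀, map_sub, map_mul, Complex.conj_I, map_ofNat]
  ring

theorem conj_dzb (j : Fin 3) (f : V → ℂ) (x : V) :
    conj (dzb j f x) = dz j (fun y => conj (f y)) x := by
  unfold dz dzb
  rw [HomB_conj_f, HomB_conj_f, map_div₀, map_add, map_mul, Complex.conj_I, map_ofNat]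
  ring

theorem HomB_N (y : V) : (N y : ℂ) = ∑ k ∈ (Finset.univ : Finset (Fin 3)), y k * conj (y k) := by
  unfold N
  push_cast
  exact Finset.sum_congr rfl fun j _ => (Complex.mul_conj (y j)).symm

theorem HomB_diff_mul (k : Fin 3) (x : V) : DifferentiableAt ℝ (fun y : V => y k * conj (y k)) x :=
  ((HomB_coord k x).mul (HomB_conj (HomB_coord k x))).differentiableAt

theorem dz_N (j : Fin 3) (x : V) : dz j (fun y => (N y : ℂ)) x = conj (x j) := by
  have h : (fun y : V => (N y : ℂ)) = fun y => ∑ k ∈ (Finset.univ : Finset (Fin 3)), y k * conj (y k) :=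
    funext HomB_N
  rw [h, dz_sum j _ (fun k (y : V) => y k * conj (y k)) fun k _ => HomB_diff_mul k x]
  have h2 : ∀ k, dz j (fun y : V => y k * conj (y k)) x = if j = k then conj (x k) else 0 := by
    intro k
    rw [dz_mul j (HomB_coord k x).differentiableAt (HomB_conj (HomB_coord k x)).differentiableAt,
      dz_coord, dz_conj_coord]
    split_ifs <;> ring
  simp only [h2]
  rw [Finset.sum_ite_eq Finset.univ j, if_pos (Finset.mem_univ j)]

theorem dzb_N (j : Fin 3) (x : V) : dzb j (fun y => (N y : ℂ)) x = x j := by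
  have h : (fun y : V => (N y : ℂ)) = fun y => ∑ k ∈ (Finset.univ : Finset (Fin 3)), y k * conj (y k) :=
    funext HomB_N
  rw [h, dzb_sum j _ (fun k (y : V) => y k * conj (y k)) fun k _ => HomB_diff_mul k x]
  have h2 : ∀ k, dzb j (fun y : V => y k * conj (y k)) x = if j = k then x k else 0 := by
    intro k
    rw [dzb_mul j (HomB_coord k x).differentiableAt (HomB_conj (HomB_coord k x)).differentiableAt,
      dzb_coord, dzb_conj_coord]
    split_ifs <;> ring
  simp only [h2]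
  rw [Finset.sum_ite_eq Finset.univ j, if_pos (Finset.mem_univ j)]

theorem HomB_inv_f {f : V → ℂ} {x : V} (hf : DifferentiableAt ℝ f x) (h0 : f x ≠ 0) (v : V) :
    fderiv ℝ (fun y => (f y)⁻¹) x v = - fderiv ℝ f x v / (f x) ^ 2 := by
  have h1 : HasDerivAt (fun z : ℂ => z⁻¹) (-(f x ^ 2)⁻¹) (f x) := hasDerivAt_inv h0
  have h2 := (h1.hasFDerivAt.restrictScalars ℝ).comp x hf.hasFDerivAt
  have h3 : fderiv ℝ (fun y => (f y)⁻¹) x = _ := h2.fderiv
  rw [h3]
  show (fderiv ℝ f x v) • (-(f x ^ 2)⁻¹) = _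
  rw [smul_eq_mul, div_eq_mul_inv]
  ring

theorem dz_inv (j : Fin 3) {f : V → ℂ} {x : V} (hf : DifferentiableAt ℝ f x) (h0 : f x ≠ 0) :
    dz j (fun y => (f y)⁻¹) x = - dz j f x / (f x) ^ 2 := by
  unfold dz
  rw [HomB_inv_f hf h0, HomB_inv_f hf h0]
  ring

theorem dzb_inv (j : Fin 3) {f : V → ℂ} {x : V} (hf : DifferentiableAt ℝ f x) (h0 : f x ≠ 0) :
    dzb j (fun y => (f y)⁻¹) x = - dzb j f x / (f x) ^ 2 := by
  unfold dzb
  rw [HomB_inv_f hf h0, HomB_inv_f hf h0]
  ring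

theorem HomB_diff {f : V → ℂ} {x : V} (hf : ContDiffOn ℝ ∞ f {0}ᶜ) (hx : x ≠ 0) :
    DifferentiableAt ℝ (fderiv ℝ f) x := by
  have h1 : ContDiffAt ℝ ∞ f x := hf.contDiffAt (isOpen_compl_singleton.mem_nhds hx)
  have h2 : ContDiffAt ℝ 1 (fderiv ℝ f) x := h1.fderiv_right (m := 1) (by norm_cast)
  exact h2.differentiableAt (by norm_num)

theorem HomB_symm {f : V → ℂ} {x : V} (hf : ContDiffOn ℝ ∞ f {0}ᶜ) (hx : x ≠ 0) (v w : V) :
    fderiv ℝ (fderiv ℝ f) x v w = fderiv ℝ (fderiv ℝ f) x w v := by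
  have h1 : ContDiffAt ℝ ∞ f x := hf.contDiffAt (isOpen_compl_singleton.mem_nhds hx)
  have h2 : IsSymmSndFDerivAt ℝ f x := h1.isSymmSndFDerivAt (by
    rw [minSmoothness_of_isRCLikeNormedField]
    norm_cast)
  exact h2 v w

theorem HomB_snd {f : V → ℂ} {x : V} (hD : DifferentiableAt ℝ (fderiv ℝ f) x) (c : ℂ) (a b v : V) :
    fderiv ℝ (fun y => (fderiv ℝ f y a + c * fderiv ℝ f y b) / 2) x v
      = (fderiv ℝ (fderiv ℝ f) x v a + c * fderiv ℝ (fderiv ℝ f) x v b) / 2 := by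
  have h1 : ∀ w : V, HasFDerivAt (fun y => fderiv ℝ f y w)
      ((ContinuousLinearMap.apply ℝ ℂ w).comp (fderiv ℝ (fderiv ℝ f) x)) x := fun w =>
    (ContinuousLinearMap.apply ℝ ℂ w).hasFDerivAt.comp x hD.hasFDerivAt
  have h2 := (((h1 a).fun_add ((h1 b).const_mul c)).mul_const ((2 : ℂ)⁻¹))
  have h3 : (fun y => (fderiv ℝ f y a + c * fderiv ℝ f y b) / 2)
      = fun y => (fderiv ℝ f y a + c * fderiv ℝ f y b) * (2 : ℂ)⁻¹ := by
    funext y; rw [div_eq_mul_inv]
  rw [h3, h2.fderiv]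
  simp only [ContinuousLinearMap.smul_apply, ContinuousLinearMap.add_apply, smul_eq_mul,
    ContinuousLinearMap.comp_apply, ContinuousLinearMap.apply_apply]
  ring

theorem HomB_dz_fun (k : Fin 3) (f : V → ℂ) : dz k f = fun y =>
    (fderiv ℝ f y (Pi.single k 1) + (-Complex.I) * fderiv ℝ f y (Pi.single k Complex.I)) / 2 := by
  funext y
  unfold dz
  ring

theorem HomB_dzb_fun (k : Fin 3) (f : V → ℂ) : dzb k f = fun y =>
    (fderiv ℝ f y (Pi.single k 1) + Complex.I * fderiv ℝ f y (Pi.single k Complex.I)) / 2 := rfl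

theorem dz_dzb_comm (j k : Fin 3) {f : V → ℂ} {x : V} (hf : ContDiffOn ℝ ∞ f {0}ᶜ) (hx : x ≠ 0) :
    dz j (dzb k f) x = dzb k (dz j f) x := by
  have hD := HomB_diff hf hx
  rw [HomB_dz_fun j (dzb k f), HomB_dzb_fun k (dz j f)]
  show (fderiv ℝ (dzb k f) x (Pi.single j 1) + (-Complex.I) *
      fderiv ℝ (dzb k f) x (Pi.single j Complex.I)) / 2 =
    (fderiv ℝ (dz j f) x (Pi.single k 1) + Complex.I * fderiv ℝ (dz j f) x (Pi.single k Complex.I)) / 2
  rw [HomB_dz_fun j f, HomB_dzb_fun k f, HomB_snd hD, HomB_snd hD, HomB_snd hD, HomB_snd hD,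
    HomB_symm hf hx (Pi.single j 1) (Pi.single k 1),
    HomB_symm hf hx (Pi.single j 1) (Pi.single k Complex.I),
    HomB_symm hf hx (Pi.single j Complex.I) (Pi.single k 1),
    HomB_symm hf hx (Pi.single j Complex.I) (Pi.single k Complex.I)]
  ring

theorem dz_dz_comm (j k : Fin 3) {f : V → ℂ} {x : V} (hf : ContDiffOn ℝ ∞ f {0}ᶜ) (hx : x ≠ 0) :
    dz j (dz k f) x = dz k (dz j f) x := by
  have hD := HomB_diff hf hx
  rw [HomB_dz_fun j (dz k f), HomB_dz_fun k (dz j f)]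
  show (fderiv ℝ (dz k f) x (Pi.single j 1) + (-Complex.I) *
      fderiv ℝ (dz k f) x (Pi.single j Complex.I)) / 2 =
    (fderiv ℝ (dz j f) x (Pi.single k 1) + (-Complex.I) * fderiv ℝ (dz j f) x (Pi.single k Complex.I)) / 2
  rw [HomB_dz_fun j f, HomB_dz_fun k f, HomB_snd hD, HomB_snd hD, HomB_snd hD, HomB_snd hD,
    HomB_symm hf hx (Pi.single j 1) (Pi.single k 1),
    HomB_symm hf hx (Pi.single j 1) (Pi.single k Complex.I),
    HomB_symm hf hx (Pi.single j Complex.I) (Pi.single k 1),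
    HomB_symm hf hx (Pi.single j Complex.I) (Pi.single k Complex.I)]
  ring

theorem dzb_dzb_comm (j k : Fin 3) {f : V → ℂ} {x : V} (hf : ContDiffOn ℝ ∞ f {0}ᶜ) (hx : x ≠ 0) :
    dzb j (dzb k f) x = dzb k (dzb j f) x := by
  have hD := HomB_diff hf hx
  show (fderiv ℝ (dzb k f) x (Pi.single j 1) + Complex.I *
      fderiv ℝ (dzb k f) x (Pi.single j Complex.I)) / 2 =
    (fderiv ℝ (dzb j f) x (Pi.single k 1) + Complex.I * fderiv ℝ (dzb j f) x (Pi.single k Complex.I)) / 2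
  rw [HomB_dzb_fun j f, HomB_dzb_fun k f, HomB_snd hD, HomB_snd hD, HomB_snd hD, HomB_snd hD,
    HomB_symm hf hx (Pi.single j 1) (Pi.single k 1),
    HomB_symm hf hx (Pi.single j 1) (Pi.single k Complex.I),
    HomB_symm hf hx (Pi.single j Complex.I) (Pi.single k 1),
    HomB_symm hf hx (Pi.single j Complex.I) (Pi.single k Complex.I)]
  ring

theorem HomB_real_f {u : V → ℝ} {x : V} (hu : DifferentiableAt ℝ u x) (v : V) :
    fderiv ℝ (fun y => ((u y : ℝ) : ℂ)) x v = ((fderiv ℝ u x v : ℝ) : ℂ) := by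
  have h := Complex.ofRealCLM.hasFDerivAt.comp x hu.hasFDerivAt
  have h2 : fderiv ℝ (fun y => ((u y : ℝ) : ℂ)) x = Complex.ofRealCLM.comp (fderiv ℝ u x) := h.fderiv
  rw [h2]
  rfl

theorem HomB_comp_f {g : ℝ → ℝ} {u : V → ℝ} {x : V} {g' : ℝ}
    (hg : HasDerivAt g g' (u x)) (hu : DifferentiableAt ℝ u x) (v : V) :
    fderiv ℝ (fun y => ((g (u y) : ℝ) : ℂ)) x v = (g' : ℂ) * fderiv ℝ (fun y => ((u y : ℝ) : ℂ)) x v := by
  have h := hg.comp_hasFDerivAt x hu.hasFDerivAt
  have h1 := HomB_real_f (u := fun y => g (u y)) h.differentiableAt v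
  have h2 : fderiv ℝ (fun y => g (u y)) x = g' • fderiv ℝ u x := h.fderiv
  rw [h1, h2, HomB_real_f hu]
  rw [ContinuousLinearMap.smul_apply, smul_eq_mul]
  push_cast
  rfl

theorem dz_comp_real (j : Fin 3) {g : ℝ → ℝ} {u : V → ℝ} {x : V} {g' : ℝ}
    (hg : HasDerivAt g g' (u x)) (hu : DifferentiableAt ℝ u x) :
    dz j (fun y => ((g (u y) : ℝ) : ℂ)) x = (g' : ℂ) * dz j (fun y => ((u y : ℝ) : ℂ)) x := by
  unfold dz
  rw [HomB_comp_f hg hu, HomB_comp_f hg hu]
  ring

theorem dzb_comp_real (j : Fin 3) {g : ℝ → ℝ} {u : V → ℝ} {x : V} {g' : ℝ}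
    (hg : HasDerivAt g g' (u x)) (hu : DifferentiableAt ℝ u x) :
    dzb j (fun y => ((g (u y) : ℝ) : ℂ)) x = (g' : ℂ) * dzb j (fun y => ((u y : ℝ) : ℂ)) x := by
  unfold dzb
  rw [HomB_comp_f hg hu, HomB_comp_f hg hu]
  ring

theorem HomB_mulVec_f (M : M3) {f : V → ℂ} {x : V} (hf : DifferentiableAt ℝ f (M.mulVec x)) (v : V) :
    fderiv ℝ (fun y => f (M.mulVec y)) x v = fderiv ℝ f (M.mulVec x) (M.mulVec v) := by
  obtain ⟨T, hT⟩ : ∃ T : V →L[ℝ] V, ∀ y, T y = M.mulVec y :=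
    ⟨((Matrix.mulVecLin M).restrictScalars ℝ).toContinuousLinearMap, fun y => rfl⟩
  have h0 : (fun y => f (M.mulVec y)) = f ∘ T := by
    funext y; simp only [Function.comp_apply, hT]
  rw [← hT] at hf
  have h1 := hf.hasFDerivAt.comp x T.hasFDerivAt
  rw [h0, h1.fderiv, ContinuousLinearMap.comp_apply, hT, hT]

theorem HomB_mulVec_single (M : M3) (j k : Fin 3) (a : ℂ) :
    M.mulVec (Pi.single j a) k = M k j * a := by
  unfold Matrix.mulVec dotProduct
  rw [Finset.sum_eq_single j]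
  · rw [Pi.single_eq_same]
  · intro i _ hi
    rw [Pi.single_eq_of_ne hi, mul_zero]
  · intro h
    exact absurd (Finset.mem_univ j) h

theorem dz_comp_mulVec (M : M3) {f : V → ℂ} (j : Fin 3) {x : V}
    (hf : DifferentiableAt ℝ f (M.mulVec x)) :
    dz j (fun y => f (M.mulVec y)) x = ∑ k, dz k f (M.mulVec x) * M k j := by
  have h1 : dz j (fun y => f (M.mulVec y)) x = (fderiv ℝ f (M.mulVec x) (M.mulVec (Pi.single j 1)) -
      Complex.I * fderiv ℝ f (M.mulVec x) (M.mulVec (Pi.single j Complex.I))) / 2 := by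
    unfold dz
    rw [HomB_mulVec_f M hf, HomB_mulVec_f M hf]
  rw [h1, fderiv_eq, fderiv_eq, Finset.mul_sum, ← Finset.sum_sub_distrib, Finset.sum_div]
  refine Finset.sum_congr rfl fun k _ => ?_
  rw [HomB_mulVec_single, HomB_mulVec_single, map_mul, map_mul, Complex.conj_I, map_one]
  linear_combination (-(M k j * dz k f (M.mulVec x)) / 2 + (conj (M k j) * dzb k f (M.mulVec x)) / 2) *
    Complex.I_mul_I

theorem dzb_comp_mulVec (M : M3) {f : V → ℂ} (j : Fin 3) {x : V}
    (hf : DifferentiableAt ℝ f (M.mulVec x)) :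
    dzb j (fun y => f (M.mulVec y)) x = ∑ k, dzb k f (M.mulVec x) * conj (M k j) := by
  have h1 : dzb j (fun y => f (M.mulVec y)) x = (fderiv ℝ f (M.mulVec x) (M.mulVec (Pi.single j 1)) +
      Complex.I * fderiv ℝ f (M.mulVec x) (M.mulVec (Pi.single j Complex.I))) / 2 := by
    unfold dzb
    rw [HomB_mulVec_f M hf, HomB_mulVec_f M hf]
  rw [h1, fderiv_eq, fderiv_eq, Finset.mul_sum, ← Finset.sum_add_distrib, Finset.sum_div]
  refine Finset.sum_congr rfl fun k _ => ?_
  rw [HomB_mulVec_single, HomB_mulVec_single, map_mul, map_mul, Complex.conj_I, map_one]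
  linear_combination ((M k j * dz k f (M.mulVec x)) / 2 - (conj (M k j) * dzb k f (M.mulVec x)) / 2) *
    Complex.I_mul_I

theorem HomB_ev {f g : V → ℂ} {x : V} (hx : x ≠ 0) (h : ∀ y : V, y ≠ 0 → f y = g y) :
    fderiv ℝ f x = fderiv ℝ g x := by
  refine Filter.EventuallyEq.fderiv_eq ?_
  filter_upwards [isOpen_compl_singleton.mem_nhds hx] with y hy
  exact h y hy

/-- Functions equal near `x` have the same Wirtinger derivatives at `x`. -/
theorem dz_congr (j : Fin 3) {f g : V → ℂ} {x : V} (hx : x ≠ 0) (h : ∀ y : V, y ≠ 0 → f y = g y) :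
    dz j f x = dz j g x := by
  unfold dz
  rw [HomB_ev hx h]

theorem dzb_congr (j : Fin 3) {f g : V → ℂ} {x : V} (hx : x ≠ 0) (h : ∀ y : V, y ≠ 0 → f y = g y) :
    dzb j f x = dzb j g x := by
  unfold dzb
  rw [HomB_ev hx h]

end Pool.Agent.H85.DC
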