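import Pool.Agent.H85.DC.Frm

/-!
# Row Lin: linear algebra of Hermitian `3 × 3` matrices

`hs A = ∑ |A_jk|^2`. For Hermitian `A`: `(A*A).trace = hs A` (a real number), so
`ee_hs`: `(ee A A).re = (A.trace.re)^2 - hs A` (trace of a Hermitian matrix is real).
`ee_le`: let `A` be Hermitian and kill `x ≠ 0` (`∑_j x_j A_jk = 0` for all `k`). With
`P = 1 - conj(x) x^T / N x` (entries `δ_jk - conj(x_j) x_k / N`): `(A P).trace = A.trace`
(`∑_{j,k} A_jk conj(x_k) x_j = 0`), `hs P = 2` and Cauchy-Schwarz `|tr (A P)|^2 ≤ hs A * hs P` give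
`(tr A)^2 ≤ 2 hs A` (`tr_sq_le`), hence `(ee A A).re = (tr A)^2 - hs A ≤ (tr A)^2 / 2`.
`ee_abs`: `|ee A B| ≤ |tr A||tr B| + |tr (A B)| ≤ 4 √(hs A) √(hs B)` for arbitrary matrices
(`|tr A| ≤ √3 √(hs A)`, `|tr(A B)| ≤ √(hs A) √(hs B)`).
Positivity: here `Pos A` is spelled `A.IsHermitian ∧ ∀ w, 0 ≤ (quad A w).re` (`quad A w = ∑ A_jk w_j conj(w_k)`).
Equivalent to Mathlib's `Aᵀ.PosSemidef` (or `A.PosSemidef`, up to conjugating `w`).
`ee_pos`: for positive `A`, `B`: `(tr (A B)).re ≤ (tr A).re (tr B).re`. Proof: write `B = ∑_m v^m (v^m)^*`-type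
decomposition (`PosSemidef`: `B = Cᴴ * C`), `tr (A Cᴴ C) = ∑_m (quad A of the m-th row of C, suitably conjugated)`,
and `quad A w ≤ (tr A) N w` (`quad_le`: for positive `A = Dᴴ D`, `quad A w = |D w'|^2 ≤ hs D * N w = tr A * N w`);
`∑_m N (row m) = tr B`.
`hs_le_tr`: for positive `A`: `hs A = tr (A A) ≤ (tr A)^2` (case `B = A`).
`ee_abs_pos`: for positive `S` and any `A`: `|tr (A S)| ≤ √(hs A) √(hs S) ≤ √(hs A) tr S`, `|tr A| ≤ √3 √(hs A)`.
`ee_rank1`: for vectors `a, b` let `K a = conj(a_j) a_k`. Then `ee (K a) (K b) = N a N b - |⟨a,b⟩|^2`.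
-/

open MeasureTheory
open scoped ContDiff BigOperators ComplexConjugate Matrix

namespace Pool.Agent.H85.DC

theorem Lin_sq (z : ℂ) : ‖z‖ ^ 2 = Complex.normSq z := (Complex.normSq_eq_norm_sq z).symm

theorem hs_nonneg (A : M3) : 0 ≤ hs A :=
  Finset.sum_nonneg fun _ _ => Finset.sum_nonneg fun _ _ => Complex.normSq_nonneg _

theorem Lin_cs (A B : M3) :
    ‖∑ j, ∑ k, A j k * B j k‖ ≤ Real.sqrt (hs A) * Real.sqrt (hs B) := by
  have h := Real.sum_mul_le_sqrt_mul_sqrt (Finset.univ : Finset (Fin 3 × Fin 3))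
    (fun p => ‖A p.1 p.2‖) (fun p => ‖B p.1 p.2‖)
  rw [Fintype.sum_prod_type, Fintype.sum_prod_type, Fintype.sum_prod_type] at h
  simp only [Lin_sq] at h
  refine le_trans ?_ h
  refine (norm_sum_le _ _).trans (Finset.sum_le_sum fun j _ => ?_)
  refine (norm_sum_le _ _).trans (Finset.sum_le_sum fun k _ => ?_)
  exact (norm_mul _ _).le

theorem Lin_csv (a b : V) : Complex.normSq (∑ k, a k * b k) ≤ N a * N b := by
  have h := Finset.sum_mul_sq_le_sq_mul_sq (Finset.univ : Finset (Fin 3))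
    (fun k => ‖a k‖) (fun k => ‖b k‖)
  simp only [Lin_sq] at h
  refine le_trans ?_ h
  rw [← Lin_sq]
  refine pow_le_pow_left₀ (norm_nonneg _) ?_ 2
  refine (norm_sum_le _ _).trans (Finset.sum_le_sum fun k _ => ?_)
  exact (norm_mul _ _).le

theorem Lin_herm {A : M3} (hA : A.IsHermitian) (j k : Fin 3) : A k j = conj (A j k) :=
  (hA.apply k j).symm

theorem Lin_tr_conj {A : M3} (hA : A.IsHermitian) : conj A.trace = A.trace := by
  rw [Matrix.trace, map_sum]
  refine Finset.sum_congr rfl fun j _ => ?_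
  rw [Matrix.diag_apply, ← Lin_herm hA j j]

theorem Lin_tr_im {A : M3} (hA : A.IsHermitian) : A.trace.im = 0 :=
  Complex.conj_eq_iff_im.1 (Lin_tr_conj hA)

theorem Lin_trmul (A B : M3) : (A * B).trace = ∑ j, ∑ k, A j k * B k j := by
  rw [Matrix.trace]
  refine Finset.sum_congr rfl fun j _ => ?_
  rw [Matrix.diag_apply, Matrix.mul_apply]

theorem Lin_trsq {A : M3} (hA : A.IsHermitian) : (A * A).trace = ((hs A : ℝ) : ℂ) := by
  rw [Lin_trmul]
  unfold hs
  push_cast
  refine Finset.sum_congr rfl fun j _ => Finset.sum_congr rfl fun k _ => ?_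
  rw [Lin_herm hA j k, Complex.mul_conj]

theorem ee_hs {A : M3} (hA : A.IsHermitian) : (ee A A).re = (A.trace).re ^ 2 - hs A := by
  unfold ee
  rw [Lin_trsq hA, Complex.sub_re, Complex.mul_re, Lin_tr_im hA, Complex.ofReal_re]
  ring

theorem Lin_N_pos {x : V} (hx : x ≠ 0) : 0 < N x := by
  have h0 : 0 ≤ N x := Finset.sum_nonneg fun _ _ => Complex.normSq_nonneg _
  refine lt_of_le_of_ne h0 fun h => hx ?_
  have h2 := (Finset.sum_eq_zero_iff_of_nonneg (fun j _ => Complex.normSq_nonneg (x j))).1 h.symm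
  funext j
  exact Complex.normSq_eq_zero.1 (h2 j (Finset.mem_univ j))

theorem Lin_hsP {x : V} (hx : x ≠ 0) :
    hs (fun j k => (if j = k then (1 : ℂ) else 0) - x j * conj (x k) / (N x : ℂ)) = 2 := by
  have hn : N x ≠ 0 := (Lin_N_pos hx).ne'
  have h1 : ∀ j k : Fin 3,
      Complex.normSq ((if j = k then (1 : ℂ) else 0) - x j * conj (x k) / (N x : ℂ)) =
        (if j = k then 1 - 2 * Complex.normSq (x j) / N x else 0) +
          Complex.normSq (x j) * (Complex.normSq (x k) / (N x) ^ 2) := by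
    intro j k
    by_cases hjk : j = k
    · subst hjk
      rw [if_pos rfl, if_pos rfl, Complex.mul_conj]
      have : (1 : ℂ) - (Complex.normSq (x j) : ℂ) / (N x : ℂ) =
          ((1 - Complex.normSq (x j) / N x : ℝ) : ℂ) := by push_cast; ring
      rw [this, Complex.normSq_ofReal]
      field_simp
      ring
    · rw [if_neg hjk, if_neg hjk, zero_sub, Complex.normSq_neg, Complex.normSq_div,
        Complex.normSq_mul, Complex.normSq_conj, Complex.normSq_ofReal, zero_add]
      field_simp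
  unfold hs
  simp only [h1, Finset.sum_add_distrib, Finset.sum_ite_eq, Finset.mem_univ, if_true,
    ← Finset.mul_sum, ← Finset.sum_mul, ← Finset.sum_div, Finset.sum_sub_distrib]
  have h2 : ∑ j, Complex.normSq (x j) = N x := rfl
  rw [h2]
  have h3 : ∑ _j : Fin 3, (1 : ℝ) = 3 := by simp
  rw [h3]
  field_simp
  ring

theorem tr_sq_le {A : M3} (hA : A.IsHermitian) {x : V} (hx : x ≠ 0)
    (hk : ∀ k, ∑ j, x j * A j k = 0) : (A.trace).re ^ 2 ≤ 2 * hs A := by
  have h1 : A.trace = ∑ j, ∑ k, A j k *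
      ((if j = k then (1 : ℂ) else 0) - x j * conj (x k) / (N x : ℂ)) := by
    have h2 : ∑ j, ∑ k, A j k * (x j * conj (x k) / (N x : ℂ)) = 0 := by
      rw [Finset.sum_comm]
      refine Finset.sum_eq_zero fun k _ => ?_
      have : ∀ j, A j k * (x j * conj (x k) / (N x : ℂ)) =
          (x j * A j k) * (conj (x k) / (N x : ℂ)) := fun j => by ring
      simp only [this, ← Finset.sum_mul, hk k, zero_mul]
    have h3 : ∑ j, ∑ k, A j k * (if j = k then (1 : ℂ) else 0) = A.trace := by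
      rw [Matrix.trace]
      refine Finset.sum_congr rfl fun j _ => ?_
      simp [Matrix.diag_apply]
    simp only [mul_sub, Finset.sum_sub_distrib, h2, h3, sub_zero]
  have h4 := Lin_cs A (fun j k => (if j = k then (1 : ℂ) else 0) - x j * conj (x k) / (N x : ℂ))
  rw [← h1, Lin_hsP hx, ← Real.sqrt_mul (hs_nonneg A)] at h4
  have h5 : ‖A.trace‖ ^ 2 ≤ hs A * 2 := by
    have := pow_le_pow_left₀ (norm_nonneg _) h4 2
    rwa [Real.sq_sqrt (mul_nonneg (hs_nonneg A) (by norm_num))] at this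
  have h6 : (A.trace).re ^ 2 ≤ ‖A.trace‖ ^ 2 := by
    rw [Lin_sq, Complex.normSq_apply]
    nlinarith [mul_self_nonneg A.trace.im]
  linarith

theorem ee_le {A : M3} (hA : A.IsHermitian) {x : V} (hx : x ≠ 0)
    (hk : ∀ k, ∑ j, x j * A j k = 0) : (ee A A).re ≤ (A.trace).re ^ 2 / 2 := by
  rw [ee_hs hA]
  have := tr_sq_le hA hx hk
  linarith

theorem Lin_hs_one : hs (1 : M3) = 3 := by
  unfold hs
  have : ∀ j k : Fin 3, Complex.normSq ((1 : M3) j k) = if j = k then 1 else 0 := by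
    intro j k
    rw [Matrix.one_apply]
    split_ifs <;> simp
  simp only [this, Finset.sum_ite_eq, Finset.mem_univ, if_true]
  simp

theorem Lin_tr_le (A : M3) : ‖A.trace‖ ≤ Real.sqrt (hs A) * Real.sqrt 3 := by
  have h := Lin_cs A 1
  rw [Lin_hs_one] at h
  have h3 : ∑ j, ∑ k, A j k * (1 : M3) j k = A.trace := by
    rw [Matrix.trace]
    refine Finset.sum_congr rfl fun j _ => ?_
    simp [Matrix.diag_apply, Matrix.one_apply]
  rwa [h3] at h

theorem Lin_trmul_le (A B : M3) : ‖(A * B).trace‖ ≤ Real.sqrt (hs A) * Real.sqrt (hs B) := by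
  have h := Lin_cs A B.transpose
  have h1 : hs B.transpose = hs B := by
    unfold hs
    rw [Finset.sum_comm]
    rfl
  rw [h1] at h
  rw [Lin_trmul]
  exact h

theorem ee_abs (A B : M3) : ‖ee A B‖ ≤ 4 * (Real.sqrt (hs A) * Real.sqrt (hs B)) := by
  unfold ee
  have h1 := Lin_tr_le A
  have h2 := Lin_tr_le B
  have h3 := Lin_trmul_le A B
  have h4 : ‖A.trace * B.trace‖ ≤ 3 * (Real.sqrt (hs A) * Real.sqrt (hs B)) := by
    rw [norm_mul]
    calc ‖A.trace‖ * ‖B.trace‖
        ≤ (Real.sqrt (hs A) * Real.sqrt 3) * (Real.sqrt (hs B) * Real.sqrt 3) :=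
          mul_le_mul h1 h2 (norm_nonneg _) (by positivity)
      _ = (Real.sqrt 3 * Real.sqrt 3) * (Real.sqrt (hs A) * Real.sqrt (hs B)) := by ring
      _ = 3 * (Real.sqrt (hs A) * Real.sqrt (hs B)) := by
          rw [Real.mul_self_sqrt (by norm_num)]
  calc ‖A.trace * B.trace - (A * B).trace‖ ≤ ‖A.trace * B.trace‖ + ‖(A * B).trace‖ :=
        norm_sub_le _ _
    _ ≤ _ := by linarith

open scoped MatrixOrder ComplexOrder in
theorem Lin_dec {A : M3} (hA : A.IsHermitian) (pA : ∀ w, 0 ≤ (quad A w).re) :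
    ∃ D : M3, ∀ j k, A j k = ∑ m, conj (D m j) * D m k := by
  have hq : ∀ w : V, (quad A w).im = 0 := by
    intro w
    apply Complex.conj_eq_iff_im.1
    unfold quad
    rw [map_sum]
    simp only [map_sum, map_mul, Complex.conj_conj]
    rw [Finset.sum_comm]
    refine Finset.sum_congr rfl fun j _ => Finset.sum_congr rfl fun k _ => ?_
    rw [← Lin_herm hA k j]
    ring
  have hps : A.PosSemidef := by
    refine Matrix.PosSemidef.of_dotProduct_mulVec_nonneg hA fun x => ?_
    have h1 : star x ⬝ᵥ (A *ᵥ x) = quad A (fun j => conj (x j)) := by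
      unfold quad
      simp only [dotProduct, Matrix.mulVec, Finset.mul_sum, Pi.star_apply, Complex.conj_conj]
      refine Finset.sum_congr rfl fun j _ => Finset.sum_congr rfl fun k _ => ?_
      rw [RCLike.star_def]
      ring
    rw [h1, Complex.nonneg_iff]
    exact ⟨pA _, (hq _).symm⟩
  obtain ⟨D, hD⟩ := CStarAlgebra.nonneg_iff_eq_star_mul_self.mp hps.nonneg
  refine ⟨D, fun j k => ?_⟩
  rw [hD, Matrix.mul_apply]
  rfl

theorem Lin_quad {A D : M3} (h : ∀ j k, A j k = ∑ m, conj (D m j) * D m k) (w : V) :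
    quad A w = ((∑ m, Complex.normSq (∑ k, D m k * conj (w k)) : ℝ) : ℂ) := by
  unfold quad
  push_cast
  simp only [h, ← Complex.mul_conj, map_add, map_mul, Complex.conj_conj, Fin.sum_univ_three]
  ring

theorem Lin_trD {A D : M3} (h : ∀ j k, A j k = ∑ m, conj (D m j) * D m k) :
    A.trace = ((∑ m, N (D m) : ℝ) : ℂ) := by
  rw [Matrix.trace]
  unfold N
  rw [Finset.sum_comm]
  push_cast
  refine Finset.sum_congr rfl fun j _ => ?_
  rw [Matrix.diag_apply, h]
  refine Finset.sum_congr rfl fun m _ => ?_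
  rw [← Complex.mul_conj]
  ring

theorem quad_le {A : M3} (hA : A.IsHermitian) (pA : ∀ w, 0 ≤ (quad A w).re) (w : V) :
    (quad A w).re ≤ (A.trace).re * N w := by
  obtain ⟨D, hD⟩ := Lin_dec hA pA
  rw [Lin_quad hD, Lin_trD hD, Complex.ofReal_re, Complex.ofReal_re, Finset.sum_mul]
  refine Finset.sum_le_sum fun m _ => ?_
  have h1 := Lin_csv (D m) (fun k => conj (w k))
  have h2 : N (fun k => conj (w k)) = N w := by
    unfold N
    simp only [Complex.normSq_conj]
  rwa [h2] at h1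

theorem tr_nonneg {A : M3} (pA : ∀ w, 0 ≤ (quad A w).re) : 0 ≤ (A.trace).re := by
  rw [Matrix.trace, Complex.re_sum]
  refine Finset.sum_nonneg fun j _ => ?_
  have h1 := pA (Pi.single j 1)
  have h2 : quad A (Pi.single j 1) = A j j := by
    unfold quad
    rw [Finset.sum_eq_single j, Finset.sum_eq_single j]
    · simp
    · intro k _ hk
      rw [Pi.single_eq_of_ne hk]
      simp
    · intro hj
      exact absurd (Finset.mem_univ _) hj
    · intro i _ hi
      refine Finset.sum_eq_zero fun k _ => ?_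
      rw [Pi.single_eq_of_ne hi]
      simp
    · intro hj
      exact absurd (Finset.mem_univ _) hj
  rw [h2] at h1
  exact h1

theorem Lin_ee_re {A B : M3} (hA : A.IsHermitian) :
    (ee A B).re = A.trace.re * B.trace.re - ((A * B).trace).re := by
  unfold ee
  rw [Complex.sub_re, Complex.mul_re, Lin_tr_im hA]
  ring

theorem ee_pos {A B : M3} (hA : A.IsHermitian) (pA : ∀ w, 0 ≤ (quad A w).re)
    (hB : B.IsHermitian) (pB : ∀ w, 0 ≤ (quad B w).re) : 0 ≤ (ee A B).re := by
  obtain ⟨C, hC⟩ := Lin_dec hB pB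
  have h1 : (A * B).trace = ∑ m, quad A (C m) := by
    rw [Lin_trmul]
    unfold quad
    simp only [hC, Fin.sum_univ_three]
    ring
  rw [Lin_ee_re hA, h1, Lin_trD hC, Complex.ofReal_re, Complex.re_sum, Finset.mul_sum,
    ← Finset.sum_sub_distrib]
  refine Finset.sum_nonneg fun m _ => ?_
  have := quad_le hA pA (C m)
  linarith

theorem hs_le_tr {A : M3} (hA : A.IsHermitian) (pA : ∀ w, 0 ≤ (quad A w).re) :
    hs A ≤ (A.trace).re ^ 2 := by
  have h1 := ee_pos hA pA hA pA
  rw [ee_hs hA] at h1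
  linarith

theorem ee_abs_pos (A : M3) {S : M3} (hS : S.IsHermitian) (pS : ∀ w, 0 ≤ (quad S w).re) :
    ‖ee A S‖ ≤ 3 * Real.sqrt (hs A) * (S.trace).re := by
  have ht := tr_nonneg pS
  have h1 : ‖S.trace‖ = S.trace.re := by
    have : S.trace = ((S.trace.re : ℝ) : ℂ) := by
      apply Complex.ext
      · rw [Complex.ofReal_re]
      · rw [Complex.ofReal_im, Lin_tr_im hS]
    rw [this, Complex.norm_real, Real.norm_eq_abs, Complex.ofReal_re, abs_of_nonneg ht]
  have h2 : Real.sqrt (hs S) ≤ S.trace.re := by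
    rw [← Real.sqrt_sq ht]
    exact Real.sqrt_le_sqrt (hs_le_tr hS pS)
  have h3 := Lin_trmul_le A S
  have h4 := Lin_tr_le A
  have h5 : Real.sqrt 3 ≤ 2 := by
    rw [show (2 : ℝ) = Real.sqrt (2 ^ 2) by rw [Real.sqrt_sq (by norm_num)]]
    exact Real.sqrt_le_sqrt (by norm_num)
  have h6 : 0 ≤ Real.sqrt (hs A) := Real.sqrt_nonneg _
  unfold ee
  calc ‖A.trace * S.trace - (A * S).trace‖ ≤ ‖A.trace * S.trace‖ + ‖(A * S).trace‖ :=
        norm_sub_le _ _
    _ ≤ 2 * Real.sqrt (hs A) * S.trace.re + Real.sqrt (hs A) * S.trace.re := by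
        rw [norm_mul, h1]
        refine add_le_add (mul_le_mul_of_nonneg_right ?_ ht) ?_
        · nlinarith
        · exact h3.trans (mul_le_mul_of_nonneg_left h2 h6)
    _ = _ := by ring

theorem hs_add (A B : M3) : hs (A + B) ≤ 2 * hs A + 2 * hs B := by
  unfold hs
  rw [Finset.mul_sum, Finset.mul_sum, ← Finset.sum_add_distrib]
  refine Finset.sum_le_sum fun j _ => ?_
  rw [Finset.mul_sum, Finset.mul_sum, ← Finset.sum_add_distrib]
  refine Finset.sum_le_sum fun k _ => ?_
  rw [Matrix.add_apply]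
  simp only [Complex.normSq_apply, Complex.add_re, Complex.add_im]
  nlinarith [mul_self_nonneg ((A j k).re - (B j k).re), mul_self_nonneg ((A j k).im - (B j k).im)]

theorem Lin_trK {A : M3} {c : V} (h : ∀ j k, A j k = conj (c j) * c k) :
    A.trace = ((N c : ℝ) : ℂ) := by
  rw [Matrix.trace]
  unfold N
  push_cast
  refine Finset.sum_congr rfl fun j _ => ?_
  rw [Matrix.diag_apply, h, ← Complex.mul_conj]
  ring

theorem Lin_eeK {A B : M3} {a b : V} (hA : ∀ j k, A j k = conj (a j) * a k)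
    (hB : ∀ j k, B j k = conj (b j) * b k) :
    ee A B = ((N a * N b - Complex.normSq (ip a b) : ℝ) : ℂ) := by
  unfold ee
  rw [Lin_trK hA, Lin_trK hB, Lin_trmul]
  push_cast
  congr 1
  unfold ip
  rw [← Complex.mul_conj]
  simp only [hA, hB, map_add, map_mul, Complex.conj_conj, Fin.sum_univ_three]
  ring

theorem ee_rank1 (a b : V) :
    ee (fun j k => conj (a j) * a k) (fun j k => conj (b j) * b k) =
      ((N a * N b - Complex.normSq (ip a b) : ℝ) : ℂ) :=
  Lin_eeK (fun _ _ => rfl) (fun _ _ => rfl)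

theorem hs_rank1 (a b : V) : hs (fun j k => a j * b k) = N a * N b := by
  unfold hs N
  rw [Finset.sum_mul_sum]
  refine Finset.sum_congr rfl fun j _ => Finset.sum_congr rfl fun k _ => ?_
  rw [Complex.normSq_mul]

end Pool.Agent.H85.DC
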