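import Pool.Agent.H85.DC.HomA
import Pool.Agent.H85.DC.HomB
import Pool.Agent.H85.DC.TauM
import Pool.Agent.H85.DC.Lin

/-!
# Row LocA: the function `t_p = log (τ/(1-τ))`

`N p = 1`, `x ≠ 0`, `0 < τ < 1`, `τ = tau x p`; `ξ = ip x p = ∑ x_j conj(p_j)`, `M = N x - |ξ|^2 = N x * τ = N (cr x p)`, `|ξ|^2 = N x (1 - τ)`.
Near `x`: `tt p = log M - log |ξ|^2` (cast to `ℂ`). `dz j |ξ|^2 = conj(p_j) conj ξ`, `dz j M = conj(x_j) - conj(p_j) conj ξ`.
`a_j := dz j (tt p) x = (conj(x_j) - conj(p_j) conj ξ)/M - conj(p_j)/ξ` (`dz_tt`). `dzb j (tt p) x = conj (a_j)` (`tt` is real, `conj_dz`).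
`gr_tt`: `∑ |a_j|^2 = M/M^2 + 1/|ξ|^2 = N/(M |ξ|^2)` since `N (x - ξ p) = M`, `N p = 1` and the cross term is
`∑_j (conj(x_j) - conj(p_j) conj ξ) p_j = conj ξ - conj ξ = 0`.
`L_tt`: `L (tt p) x j k = c_j conj(c_k)`, `c = (M)⁻¹ • cr p x`. Proof: `log |ξ|^2` is pluriharmonic: `dzb k (log |ξ|^2) = p_k/conj ξ`
which has `dz j` equal to `0`. For `log M`: `dzb k (log M) = (x_k - p_k ξ)/M`,
`dz j` of it `= (δ_jk - p_k conj(p_j))/M - (x_k - p_k ξ)(conj(x_j) - conj(p_j) conj ξ)/M^2`. It remains to check the algebraic identity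
`M (δ_jk - conj(p_j) p_k) - (conj(x_j) - conj(p_j) conj ξ)(x_k - ξ p_k) = (cr p x)_j conj ((cr p x)_k)` using `N p = 1` (both sides are the Hermitian form
of the projection onto the direction orthogonal to `p` and `x`; check the 9 entries: expand, use `N p = 1` to homogenise: multiply the left side by suitable powers of `N p`).
Orthogonality: `∑ c_j conj(a_j) = 0` and `∑ c_j x_j = 0`, `∑ a_j x_j = 0` (bilinear `cr p x` is orthogonal to `p` and `x`; `∑ x_j a_j = (N - |ξ|^2)/M - 1 = 0`).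
`N c = M/M^2 = 1/M` (`tau_cross`).
Linear algebra: `b` with `∑ x_j b_j = 0` lies in the plane spanned by the orthogonal vectors `a, c` (complex dimension 2), so
`N b = |⟨b,a⟩|^2/N a + |⟨b,c⟩|^2/N c` (`plane`). With `ee_rank1` (applied to conjugated vectors): `Q = N a N b - |⟨b,a⟩|^2`, `R = N c N b - |⟨b,c⟩|^2`; hence
`R = N c |⟨b,a⟩|^2/N a`, and `N a N b = Q + |⟨b,a⟩|^2 = Q + R N a/N c = Q + R/(1 - τ) ≤ Q + 2 R` for `τ ≤ 1/2` (`N a/N c = N x/|ξ|^2 = 1/(1-τ)`).
`R ≤ N c N b ≤ N a N b`.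
-/

open MeasureTheory
open scoped ContDiff BigOperators ComplexConjugate Matrix

namespace Pool.Agent.H85.DC

theorem LocA_alg (p P x X : Fin 3 → ℂ) (h : p 0 * P 0 + p 1 * P 1 + p 2 * P 2 = 1) (j k : Fin 3) :
    ((x 0 * X 0 + x 1 * X 1 + x 2 * X 2) -
        (x 0 * P 0 + x 1 * P 1 + x 2 * P 2) * (X 0 * p 0 + X 1 * p 1 + X 2 * p 2)) *
      ((if j = k then 1 else 0) - P j * p k) -
      (x k - (x 0 * P 0 + x 1 * P 1 + x 2 * P 2) * p k) *
        (X j - P j * (X 0 * p 0 + X 1 * p 1 + X 2 * p 2)) =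
      cr p x j * cr P X k := by
  fin_cases j <;> fin_cases k <;> simp [cr]
  · linear_combination (x 0 * X 0 - (x 0 * X 0 + x 1 * X 1 + x 2 * X 2)) * h
  · linear_combination (x 1 * X 0) * h
  · linear_combination (x 2 * X 0) * h
  · linear_combination (x 0 * X 1) * h
  · linear_combination (x 1 * X 1 - (x 0 * X 0 + x 1 * X 1 + x 2 * X 2)) * h
  · linear_combination (x 2 * X 1) * h
  · linear_combination (x 0 * X 2) * h
  · linear_combination (x 1 * X 2) * h
  · linear_combination (x 2 * X 2 - (x 0 * X 0 + x 1 * X 1 + x 2 * X 2)) * h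

theorem LocA_N (y : V) : (N y : ℂ) = ∑ j, y j * conj (y j) := by
  unfold N
  push_cast
  exact Finset.sum_congr rfl fun j _ => (Complex.mul_conj (y j)).symm

theorem LocA_dconj {f : V → ℂ} {x : V} (hf : DifferentiableAt ℝ f x) :
    DifferentiableAt ℝ (fun y => conj (f y)) x :=
  Complex.conjCLE.differentiableAt.comp x hf

theorem LocA_dip (p x : V) : DifferentiableAt ℝ (fun y => ip y p) x := by
  unfold ip
  fun_prop

theorem LocA_dN (x : V) : DifferentiableAt ℝ (fun y => (N y : ℂ)) x := by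
  have h : (fun y : V => (N y : ℂ)) = fun y => ∑ j, y j * conj (y j) := funext LocA_N
  rw [h]
  have h2 : ∀ j ∈ (Finset.univ : Finset (Fin 3)),
      DifferentiableAt ℝ (fun y : V => y j * conj (y j)) x := fun j _ =>
    DifferentiableAt.mul (by fun_prop) (LocA_dconj (by fun_prop))
  exact DifferentiableAt.fun_sum h2

theorem LocA_dz_ip (j : Fin 3) (p x : V) : dz j (fun y => ip y p) x = conj (p j) := by
  unfold ip
  rw [dz_sum j Finset.univ (fun i (y : V) => y i * conj (p i)) (fun i _ => by fun_prop)]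
  have h : ∀ i : Fin 3, dz j (fun y : V => y i * conj (p i)) x =
      if j = i then conj (p i) else 0 := by
    intro i
    rw [dz_mul j (by fun_prop) (by fun_prop), dz_coord, dz_const]
    split_ifs <;> simp
  rw [Finset.sum_congr rfl fun i _ => h i, Finset.sum_ite_eq]
  simp

theorem LocA_dzb_ip (j : Fin 3) (p x : V) : dzb j (fun y => ip y p) x = 0 := by
  unfold ip
  rw [dzb_sum j Finset.univ (fun i (y : V) => y i * conj (p i)) (fun i _ => by fun_prop)]
  refine Finset.sum_eq_zero fun i _ => ?_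
  rw [dzb_mul j (by fun_prop) (by fun_prop), dzb_coord, dzb_const]
  simp

theorem LocA_dz_cip (j : Fin 3) (p x : V) : dz j (fun y => conj (ip y p)) x = 0 := by
  rw [← conj_dzb, LocA_dzb_ip, map_zero]

theorem LocA_dzb_cip (j : Fin 3) (p x : V) : dzb j (fun y => conj (ip y p)) x = p j := by
  rw [← conj_dz, LocA_dz_ip, Complex.conj_conj]

theorem LocA_dz_ns (j : Fin 3) (p x : V) :
    dz j (fun y => ((Complex.normSq (ip y p) : ℝ) : ℂ)) x = conj (p j) * conj (ip x p) := by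
  have h : (fun y : V => ((Complex.normSq (ip y p) : ℝ) : ℂ)) = fun y => ip y p * conj (ip y p) :=
    funext fun y => (Complex.mul_conj _).symm
  rw [h, dz_mul j (LocA_dip p x) (LocA_dconj (LocA_dip p x)), LocA_dz_ip, LocA_dz_cip, mul_zero,
    add_zero]

theorem LocA_dns (p x : V) :
    DifferentiableAt ℝ (fun y => ((Complex.normSq (ip y p) : ℝ) : ℂ)) x := by
  have h : (fun y : V => ((Complex.normSq (ip y p) : ℝ) : ℂ)) = fun y => ip y p * conj (ip y p) :=
    funext fun y => (Complex.mul_conj _).symm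
  rw [h]
  exact (LocA_dip p x).mul (LocA_dconj (LocA_dip p x))

theorem LocA_dMM (p x : V) :
    DifferentiableAt ℝ (fun y => ((N y - Complex.normSq (ip y p) : ℝ) : ℂ)) x := by
  push_cast
  exact (LocA_dN x).sub (LocA_dns p x)

theorem LocA_dz_MM (j : Fin 3) (p x : V) :
    dz j (fun y => ((N y - Complex.normSq (ip y p) : ℝ) : ℂ)) x =
      conj (x j) - conj (p j) * conj (ip x p) := by
  have h : (fun y : V => ((N y - Complex.normSq (ip y p) : ℝ) : ℂ)) =
      fun y => (N y : ℂ) + (-1) * ((Complex.normSq (ip y p) : ℝ) : ℂ) := by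
    funext y
    push_cast
    ring
  rw [h, dz_add j (LocA_dN x) ((LocA_dns p x).const_mul _), dz_const_mul j _ (LocA_dns p x), dz_N,
    LocA_dz_ns]
  ring

theorem LocA_real {u : V → ℝ} {x : V} (h : DifferentiableAt ℝ (fun y => ((u y : ℝ) : ℂ)) x) :
    DifferentiableAt ℝ u x := by
  have h2 : u = fun y => (((u y : ℝ) : ℂ)).re := by
    funext y
    rw [Complex.ofReal_re]
  rw [h2]
  exact Complex.reCLM.differentiableAt.comp x h

/-- the open set where `tt p` is smooth -/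
def LocA_Om (p : V) : Set V := {y | y ≠ 0 ∧ 0 < tau y p ∧ tau y p < 1}

theorem LocA_open (p : V) : IsOpen (LocA_Om p) := by
  have h := (continuousOn_tau p).isOpen_inter_preimage isOpen_compl_singleton
    (isOpen_Ioo (a := (0 : ℝ)) (b := 1))
  have h2 : LocA_Om p = {0}ᶜ ∩ (fun x => tau x p) ⁻¹' Set.Ioo 0 1 := by
    ext y
    rfl
  rw [h2]
  exact h

theorem LocA_facts {p y : V} (hp : N p = 1) (hy : y ≠ 0) (h0 : 0 < tau y p) (h1 : tau y p < 1) :
    0 < N y ∧ N y * tau y p = N y - Complex.normSq (ip y p) ∧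
      N y * (1 - tau y p) = Complex.normSq (ip y p) ∧ 0 < Complex.normSq (ip y p) ∧
      0 < N y - Complex.normSq (ip y p) ∧ ip y p ≠ 0 := by
  have hN := N_pos hy
  have h2 : N y * (1 - tau y p) = Complex.normSq (ip y p) := by
    unfold tau
    rw [hp]
    field_simp
    ring
  have h3 : 0 < Complex.normSq (ip y p) := by
    rw [← h2]
    exact mul_pos hN (by linarith)
  have h4 : N y * tau y p = N y - Complex.normSq (ip y p) := by linarith
  refine ⟨hN, h4, h2, h3, ?_, Complex.normSq_pos.1 h3⟩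
  rw [← h4]
  exact mul_pos hN h0

theorem LocA_tt {p y : V} (hp : N p = 1) (hy : y ≠ 0) (h0 : 0 < tau y p) (h1 : tau y p < 1) :
    tt p y = ((Real.log (N y - Complex.normSq (ip y p)) : ℝ) : ℂ) +
      (-1) * ((Real.log (Complex.normSq (ip y p)) : ℝ) : ℂ) := by
  obtain ⟨hN, a1, a2, a3, a4, -⟩ := LocA_facts hp hy h0 h1
  unfold tt
  have h2 : tau y p / (1 - tau y p) = (N y - Complex.normSq (ip y p)) / Complex.normSq (ip y p) := by
    rw [← a1, ← a2, mul_div_mul_left _ _ hN.ne']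
  rw [h2, Real.log_div a4.ne' a3.ne']
  push_cast
  ring

theorem LocA_germ {p x : V} (hp : N p = 1) (hx : x ≠ 0) (h0 : 0 < tau x p) (h1 : tau x p < 1) :
    tt p =ᶠ[nhds x] fun y => ((Real.log (N y - Complex.normSq (ip y p)) : ℝ) : ℂ) +
      (-1) * ((Real.log (Complex.normSq (ip y p)) : ℝ) : ℂ) := by
  filter_upwards [(LocA_open p).mem_nhds (show x ∈ LocA_Om p from ⟨hx, h0, h1⟩)] with y hy
  exact LocA_tt hp hy.1 hy.2.1 hy.2.2

theorem LocA_dz_congr (j : Fin 3) {f g : V → ℂ} {x : V} (h : f =ᶠ[nhds x] g) :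
    dz j f x = dz j g x := by
  unfold dz
  rw [h.fderiv_eq]

/-- The rank one matrix `b_j conj(b_k)`. -/
noncomputable def rk (b : V) : M3 := fun j k => b j * conj (b k)

theorem dz_tt (j : Fin 3) {p x : V} (hp : N p = 1) (hx : x ≠ 0) (h0 : 0 < tau x p)
    (h1 : tau x p < 1) :
    dz j (tt p) x = (conj (x j) - conj (p j) * conj (ip x p)) / ((N x * tau x p : ℝ) : ℂ) -
      conj (p j) / ip x p := by
  obtain ⟨hN, a1, a2, a3, a4, a5⟩ := LocA_facts hp hx h0 h1
  have u1 : DifferentiableAt ℝ (fun y => N y - Complex.normSq (ip y p)) x :=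
    LocA_real (LocA_dMM p x)
  have u2 : DifferentiableAt ℝ (fun y => Complex.normSq (ip y p)) x := LocA_real (LocA_dns p x)
  have d1 : DifferentiableAt ℝ
      (fun y => ((Real.log (N y - Complex.normSq (ip y p)) : ℝ) : ℂ)) x :=
    Complex.ofRealCLM.differentiableAt.comp x (u1.log a4.ne')
  have d2 : DifferentiableAt ℝ
      (fun y => ((Real.log (Complex.normSq (ip y p)) : ℝ) : ℂ)) x :=
    Complex.ofRealCLM.differentiableAt.comp x (u2.log a3.ne')
  rw [LocA_dz_congr j (LocA_germ hp hx h0 h1), dz_add j d1 (d2.const_mul _),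
    dz_const_mul j _ d2,
    dz_comp_real j (g := Real.log) (u := fun y => N y - Complex.normSq (ip y p))
      (Real.hasDerivAt_log a4.ne') u1,
    dz_comp_real j (g := Real.log) (u := fun y => Complex.normSq (ip y p))
      (Real.hasDerivAt_log a3.ne') u2, LocA_dz_MM, LocA_dz_ns, a1]
  have e1 : ((Complex.normSq (ip x p) : ℝ) : ℂ) = ip x p * conj (ip x p) :=
    (Complex.mul_conj _).symm
  have e2 : conj (ip x p) ≠ 0 := (map_ne_zero _).2 a5
  rw [Complex.ofReal_inv, Complex.ofReal_inv, e1, mul_inv, div_eq_mul_inv, div_eq_mul_inv]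
  field_simp
  ring

theorem LocA_conj_tt (p : V) : (fun y => conj (tt p y)) = tt p := by
  funext y
  unfold tt
  exact Complex.conj_ofReal _

theorem LocA_dzb_tt (j : Fin 3) {p x : V} (hp : N p = 1) (hx : x ≠ 0) (h0 : 0 < tau x p)
    (h1 : tau x p < 1) :
    dzb j (tt p) x = (x j - ip x p * p j) * (((N x - Complex.normSq (ip x p) : ℝ) : ℂ))⁻¹ +
      (-1) * (p j * (conj (ip x p))⁻¹) := by
  obtain ⟨hN, a1, a2, a3, a4, a5⟩ := LocA_facts hp hx h0 h1
  have h2 := conj_dz j (tt p) x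
  rw [LocA_conj_tt, dz_tt j hp hx h0 h1, a1] at h2
  rw [← h2]
  simp only [map_sub, map_div₀, map_mul, Complex.conj_conj, Complex.conj_ofReal]
  rw [div_eq_mul_inv, div_eq_mul_inv]
  ring

theorem LocA_germ2 (k : Fin 3) {p x : V} (hp : N p = 1) (hx : x ≠ 0) (h0 : 0 < tau x p)
    (h1 : tau x p < 1) :
    dzb k (tt p) =ᶠ[nhds x] fun y =>
      (y k + (-1) * (ip y p * p k)) * (((N y - Complex.normSq (ip y p) : ℝ) : ℂ))⁻¹ +
      (-1) * (p k * (conj (ip y p))⁻¹) := by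
  filter_upwards [(LocA_open p).mem_nhds (show x ∈ LocA_Om p from ⟨hx, h0, h1⟩)] with y hy
  rw [LocA_dzb_tt k hp hy.1 hy.2.1 hy.2.2]
  ring

theorem smooth_tt {p x : V} (hp : N p = 1) (hx : x ≠ 0) (h0 : 0 < tau x p)
    (h1 : tau x p < 1) : ContDiffAt ℝ ∞ (tt p) x := by
  have hN := N_pos hx
  have c1 : ContDiffAt ℝ ∞ (fun y : V => N y) x := by
    have : (fun y : V => N y) = fun y => ∑ j, ((y j).re * (y j).re + (y j).im * (y j).im) := by
      funext y
      rfl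
    rw [this]
    refine ContDiffAt.sum fun j _ => ?_
    have r1 : ContDiffAt ℝ ∞ (fun y : V => (y j).re) x :=
      (Complex.reCLM.contDiff.comp (contDiff_apply ℝ ℂ j)).contDiffAt
    have r2 : ContDiffAt ℝ ∞ (fun y : V => (y j).im) x :=
      (Complex.imCLM.contDiff.comp (contDiff_apply ℝ ℂ j)).contDiffAt
    exact (r1.mul r1).add (r2.mul r2)
  have c2 : ContDiffAt ℝ ∞ (fun y : V => ip y p) x := by
    unfold ip
    refine ContDiffAt.sum fun j _ => ?_
    exact (contDiff_apply ℝ ℂ j).contDiffAt.mul contDiffAt_const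
  have c3 : ContDiffAt ℝ ∞ (fun y : V => Complex.normSq (ip y p)) x := by
    have r1 : ContDiffAt ℝ ∞ (fun y : V => (ip y p).re) x :=
      (Complex.reCLM.contDiff.contDiffAt).comp x c2
    have r2 : ContDiffAt ℝ ∞ (fun y : V => (ip y p).im) x :=
      (Complex.imCLM.contDiff.contDiffAt).comp x c2
    exact (r1.mul r1).add (r2.mul r2)
  have c4 : ContDiffAt ℝ ∞ (fun y : V => tau y p) x := by
    unfold tau
    refine contDiffAt_const.sub (c3.div (c1.mul contDiffAt_const) ?_)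
    rw [hp, mul_one]
    exact hN.ne'
  have c5 : ContDiffAt ℝ ∞ (fun y : V => tau y p / (1 - tau y p)) x :=
    c4.div (contDiffAt_const.sub c4) (by linarith)
  have c6 := c5.log (div_pos h0 (by linarith : 0 < 1 - tau x p)).ne'
  exact (Complex.ofRealCLM.contDiff.contDiffAt).comp x c6

theorem LocA_sums (p P x X : Fin 3 → ℂ) (h : p 0 * P 0 + p 1 * P 1 + p 2 * P 2 = 1) {M : ℂ}
    (hM : M = (x 0 * X 0 + x 1 * X 1 + x 2 * X 2) -
        (x 0 * P 0 + x 1 * P 1 + x 2 * P 2) * (X 0 * p 0 + X 1 * p 1 + X 2 * p 2)) {ξ ξb : ℂ}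
    (hξ : ξ = x 0 * P 0 + x 1 * P 1 + x 2 * P 2) (hξb : ξb = X 0 * p 0 + X 1 * p 1 + X 2 * p 2)
    (M0 : M ≠ 0) (x0 : ξ ≠ 0) (xb0 : ξb ≠ 0) :
    ∑ j, ((X j - P j * ξb) / M - P j / ξ) * ((x j - p j * ξ) / M - p j / ξb) =
      1 / M + 1 / (ξ * ξb) := by
  rw [Fin.sum_univ_three]
  have hS : (X 0 - P 0 * ξb) * (x 0 - p 0 * ξ) + (X 1 - P 1 * ξb) * (x 1 - p 1 * ξ) +
      (X 2 - P 2 * ξb) * (x 2 - p 2 * ξ) = M := by
    rw [hM, hξ, hξb]
    linear_combination ((x 0 * P 0 + x 1 * P 1 + x 2 * P 2) *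
      (X 0 * p 0 + X 1 * p 1 + X 2 * p 2)) * h
  have hT : (X 0 - P 0 * ξb) * p 0 + (X 1 - P 1 * ξb) * p 1 + (X 2 - P 2 * ξb) * p 2 = 0 := by
    rw [hξb]
    linear_combination (-(X 0 * p 0 + X 1 * p 1 + X 2 * p 2)) * h
  have hT' : (x 0 - p 0 * ξ) * P 0 + (x 1 - p 1 * ξ) * P 1 + (x 2 - p 2 * ξ) * P 2 = 0 := by
    rw [hξ]
    linear_combination (-(x 0 * P 0 + x 1 * P 1 + x 2 * P 2)) * h
  have e : ∀ a b c d : ℂ, (a / M - b / ξ) * (c / M - d / ξb) =
      a * c / M ^ 2 - a * d / (M * ξb) - c * b / (M * ξ) + d * b / (ξ * ξb) := by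
    intro a b c d
    field_simp
    ring
  rw [e, e, e]
  have e2 : (X 0 - P 0 * ξb) * (x 0 - p 0 * ξ) / M ^ 2 - (X 0 - P 0 * ξb) * p 0 / (M * ξb) -
        (x 0 - p 0 * ξ) * P 0 / (M * ξ) + p 0 * P 0 / (ξ * ξb) +
      ((X 1 - P 1 * ξb) * (x 1 - p 1 * ξ) / M ^ 2 - (X 1 - P 1 * ξb) * p 1 / (M * ξb) -
        (x 1 - p 1 * ξ) * P 1 / (M * ξ) + p 1 * P 1 / (ξ * ξb)) +
      ((X 2 - P 2 * ξb) * (x 2 - p 2 * ξ) / M ^ 2 - (X 2 - P 2 * ξb) * p 2 / (M * ξb) -
        (x 2 - p 2 * ξ) * P 2 / (M * ξ) + p 2 * P 2 / (ξ * ξb)) =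
      ((X 0 - P 0 * ξb) * (x 0 - p 0 * ξ) + (X 1 - P 1 * ξb) * (x 1 - p 1 * ξ) +
        (X 2 - P 2 * ξb) * (x 2 - p 2 * ξ)) / M ^ 2 -
      ((X 0 - P 0 * ξb) * p 0 + (X 1 - P 1 * ξb) * p 1 + (X 2 - P 2 * ξb) * p 2) / (M * ξb) -
      ((x 0 - p 0 * ξ) * P 0 + (x 1 - p 1 * ξ) * P 1 + (x 2 - p 2 * ξ) * P 2) / (M * ξ) +
      (p 0 * P 0 + p 1 * P 1 + p 2 * P 2) / (ξ * ξb) := by ring
  rw [e2, hS, hT, hT', h]
  field_simp
  ring

theorem LocA_p {p : V} (hp : N p = 1) :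
    p 0 * conj (p 0) + p 1 * conj (p 1) + p 2 * conj (p 2) = 1 := by
  have h := LocA_N p
  rw [hp, Fin.sum_univ_three] at h
  rw [← h]
  simp

theorem LocA_ip (x p : V) : ip x p = x 0 * conj (p 0) + x 1 * conj (p 1) + x 2 * conj (p 2) := by
  unfold ip
  rw [Fin.sum_univ_three]

theorem LocA_cip (x p : V) :
    conj (ip x p) = conj (x 0) * p 0 + conj (x 1) * p 1 + conj (x 2) * p 2 := by
  rw [LocA_ip]
  simp

theorem LocA_M {p x : V} : ((N x - Complex.normSq (ip x p) : ℝ) : ℂ) =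
    (x 0 * conj (x 0) + x 1 * conj (x 1) + x 2 * conj (x 2)) -
      (x 0 * conj (p 0) + x 1 * conj (p 1) + x 2 * conj (p 2)) *
        (conj (x 0) * p 0 + conj (x 1) * p 1 + conj (x 2) * p 2) := by
  rw [Complex.ofReal_sub, LocA_N, Fin.sum_univ_three, ← Complex.mul_conj, LocA_cip, LocA_ip]

theorem gr_tt {p x : V} (hp : N p = 1) (hx : x ≠ 0) (h0 : 0 < tau x p) (h1 : tau x p < 1) :
    gr (tt p) x = 1 / (N x * (tau x p * (1 - tau x p))) := by
  obtain ⟨hN, a1, a2, a3, a4, a5⟩ := LocA_facts hp hx h0 h1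
  have hξb : conj (ip x p) ≠ 0 := (map_ne_zero _).2 a5
  have hM0 : ((N x - Complex.normSq (ip x p) : ℝ) : ℂ) ≠ 0 := by
    rw [Ne, Complex.ofReal_eq_zero]
    exact a4.ne'
  have key := LocA_sums p (fun j => conj (p j)) x (fun j => conj (x j)) (LocA_p hp)
    (LocA_M (p := p) (x := x)) (LocA_ip x p) (LocA_cip x p) hM0 a5 hξb
  have hc : ((gr (tt p) x : ℝ) : ℂ) = 1 / ((N x - Complex.normSq (ip x p) : ℝ) : ℂ) +
      1 / (ip x p * conj (ip x p)) := by
    rw [← key]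
    unfold gr
    push_cast
    refine Finset.sum_congr rfl fun j _ => ?_
    rw [← Complex.mul_conj, dz_tt j hp hx h0 h1, a1]
    have e5 : conj ((conj (x j) - conj (p j) * conj (ip x p)) /
        ((N x - Complex.normSq (ip x p) : ℝ) : ℂ) - conj (p j) / ip x p) =
        (x j - p j * ip x p) / ((N x - Complex.normSq (ip x p) : ℝ) : ℂ) -
          p j / conj (ip x p) := by
      rw [map_sub, map_div₀, map_div₀, map_sub, map_mul, Complex.conj_ofReal, Complex.conj_conj,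
        Complex.conj_conj, Complex.conj_conj]
    rw [e5]
    push_cast
    rfl
  rw [Complex.mul_conj] at hc
  have hr : gr (tt p) x = 1 / (N x - Complex.normSq (ip x p)) + 1 / Complex.normSq (ip x p) := by
    exact_mod_cast hc
  rw [hr, ← a1, ← a2]
  have b1 : 1 - tau x p ≠ 0 := by linarith
  field_simp
  ring

theorem L_tt {p x : V} (hp : N p = 1) (hx : x ≠ 0) (h0 : 0 < tau x p) (h1 : tau x p < 1) :
    L (tt p) x = rk ((((N x * tau x p)⁻¹ : ℝ) : ℂ) • cr p x) := by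
  obtain ⟨hN, a1, a2, a3, a4, a5⟩ := LocA_facts hp hx h0 h1
  have hξb : conj (ip x p) ≠ 0 := (map_ne_zero _).2 a5
  have hM0 : ((N x - Complex.normSq (ip x p) : ℝ) : ℂ) ≠ 0 := by
    rw [Ne, Complex.ofReal_eq_zero]
    exact a4.ne'
  funext j k
  show dz j (dzb k (tt p)) x = _
  have hxk : DifferentiableAt ℝ (fun y : V => y k) x := by fun_prop
  have hip := LocA_dip p x
  have hck : DifferentiableAt ℝ (fun _ : V => p k) x := differentiableAt_const _
  have d1 : DifferentiableAt ℝ (fun y : V => ip y p * p k) x := hip.mul hck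
  have d2 : DifferentiableAt ℝ (fun y : V => y k + (-1) * (ip y p * p k)) x :=
    hxk.add (d1.const_mul _)
  have d3 : DifferentiableAt ℝ (fun y => (((N y - Complex.normSq (ip y p) : ℝ) : ℂ))⁻¹) x :=
    (LocA_dMM p x).inv hM0
  have d4 : DifferentiableAt ℝ (fun y => (conj (ip y p))⁻¹) x := (LocA_dconj hip).inv hξb
  have d5 : DifferentiableAt ℝ (fun y => p k * (conj (ip y p))⁻¹) x := d4.const_mul _
  have d23 : DifferentiableAt ℝ (fun y : V => (y k + (-1) * (ip y p * p k)) *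
      (((N y - Complex.normSq (ip y p) : ℝ) : ℂ))⁻¹) x := d2.mul d3
  have d6 : DifferentiableAt ℝ (fun y : V => (-1) * (p k * (conj (ip y p))⁻¹)) x :=
    d5.const_mul _
  have hlhs : dz j (dzb k (tt p)) x =
      ((if j = k then 1 else 0) + (-1) * (conj (p j) * p k)) *
        (((N x - Complex.normSq (ip x p) : ℝ) : ℂ))⁻¹ +
      (x k + (-1) * (ip x p * p k)) * (-(conj (x j) - conj (p j) * conj (ip x p)) /
        ((N x - Complex.normSq (ip x p) : ℝ) : ℂ) ^ 2) := by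
    rw [LocA_dz_congr j (LocA_germ2 k hp hx h0 h1), dz_add j d23 d6,
      dz_mul j d2 d3, dz_const_mul j _ d5, dz_const_mul j _ d4, dz_inv j (LocA_dconj hip) hξb,
      dz_inv j (LocA_dMM p x) hM0, dz_add j hxk (d1.const_mul _), dz_const_mul j _ d1,
      dz_mul j hip hck, LocA_dz_ip, LocA_dz_cip, LocA_dz_MM, dz_coord, dz_const]
    ring
  rw [hlhs]
  have halg := LocA_alg p (fun j => conj (p j)) x (fun j => conj (x j)) (LocA_p hp) j k
  rw [← LocA_M, ← LocA_ip, ← LocA_cip] at halg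
  have hcr : cr (fun j => conj (p j)) (fun j => conj (x j)) k = conj (cr p x k) := by
    fin_cases k <;> simp [cr]
  rw [hcr] at halg
  show _ = ((((N x * tau x p)⁻¹ : ℝ) : ℂ) * cr p x j) *
    conj ((((N x * tau x p)⁻¹ : ℝ) : ℂ) * cr p x k)
  rw [map_mul, Complex.conj_ofReal, a1, Complex.ofReal_inv]
  obtain ⟨Mc, hMc⟩ : ∃ Mc : ℂ, Mc = ((N x - Complex.normSq (ip x p) : ℝ) : ℂ) := ⟨_, rfl⟩
  rw [← hMc] at halg hM0 ⊢
  have e1 : Mc⁻¹ * cr p x j * (Mc⁻¹ * conj (cr p x k)) =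
      (cr p x j * conj (cr p x k)) / Mc ^ 2 := by
    field_simp
  rw [e1, ← halg]
  field_simp
  ring

theorem du2_tt {p x : V} (hp : N p = 1) (hx : x ≠ 0) (h0 : 0 < tau x p) (h1 : tau x p < 1) :
    du2 (tt p) x = rk (fun j => dz j (tt p) x) := by
  funext j k
  show dz j (tt p) x * dzb k (tt p) x = dz j (tt p) x * conj (dz k (tt p) x)
  rw [conj_dz, LocA_conj_tt]

theorem LocA_ee (a b : V) : (ee (rk a) (rk b)).re = N a * N b - Complex.normSq (ip a b) := by
  have h := ee_rank1 (fun j => conj (a j)) (fun j => conj (b j))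
  have e1 : (fun j k => conj (conj (a j)) * conj (a k) : M3) = rk a := by
    funext j k
    rw [Complex.conj_conj]
    rfl
  have e2 : (fun j k => conj (conj (b j)) * conj (b k) : M3) = rk b := by
    funext j k
    rw [Complex.conj_conj]
    rfl
  rw [e1, e2] at h
  rw [h, Complex.ofReal_re]
  have e3 : ∀ c : V, N (fun j => conj (c j)) = N c := by
    intro c
    unfold N
    simp [Complex.normSq_conj]
  have e4 : ip (fun j => conj (a j)) (fun j => conj (b j)) = conj (ip a b) := by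
    unfold ip
    simp
  rw [e3, e3, e4, Complex.normSq_conj]

theorem Q_nonneg {p x : V} (hp : N p = 1) (hx : x ≠ 0) (h0 : 0 < tau x p) (h1 : tau x p < 1)
    (b : V) : 0 ≤ (ee (du2 (tt p) x) (rk b)).re := by
  rw [du2_tt hp hx h0 h1, LocA_ee]
  linarith [cs_ip (fun j => dz j (tt p) x) b]

theorem R_nonneg {p x : V} (hp : N p = 1) (hx : x ≠ 0) (h0 : 0 < tau x p) (h1 : tau x p < 1)
    (b : V) : 0 ≤ (ee (L (tt p) x) (rk b)).re := by
  rw [L_tt hp hx h0 h1, LocA_ee]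
  linarith [cs_ip ((((N x * tau x p)⁻¹ : ℝ) : ℂ) • cr p x) b]

theorem LocA_gr (p x : V) : N (fun j => dz j (tt p) x) = gr (tt p) x := rfl

theorem Q_le {p x : V} (hp : N p = 1) (hx : x ≠ 0) (h0 : 0 < tau x p) (h1 : tau x p < 1)
    (b : V) : (ee (du2 (tt p) x) (rk b)).re ≤ gr (tt p) x * N b := by
  rw [du2_tt hp hx h0 h1, LocA_ee, LocA_gr]
  linarith [Complex.normSq_nonneg (ip (fun j => dz j (tt p) x) b)]

theorem LocA_Nc {p x : V} (hp : N p = 1) (hx : x ≠ 0) (h0 : 0 < tau x p) (h1 : tau x p < 1) :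
    N ((((N x * tau x p)⁻¹ : ℝ) : ℂ) • cr p x) = 1 / (N x * tau x p) := by
  have hN := N_pos hx
  have hp0 : p ≠ 0 := by
    rintro rfl
    unfold N at hp
    simp at hp
  rw [N_smul, tau_cross' hp0 hx, hp, tau_symm p x, Complex.normSq_ofReal]
  field_simp

theorem R_le {p x : V} (hp : N p = 1) (hx : x ≠ 0) (h0 : 0 < tau x p) (h1 : tau x p < 1)
    (b : V) : (ee (L (tt p) x) (rk b)).re ≤ gr (tt p) x * N b := by
  have hN := N_pos hx
  rw [L_tt hp hx h0 h1, LocA_ee, LocA_Nc hp hx h0 h1, gr_tt hp hx h0 h1]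
  have h2 := Complex.normSq_nonneg (ip ((((N x * tau x p)⁻¹ : ℝ) : ℂ) • cr p x) b)
  have h3 : 1 / (N x * tau x p) ≤ 1 / (N x * (tau x p * (1 - tau x p))) := by
    apply one_div_le_one_div_of_le
    · have : 0 < 1 - tau x p := by linarith
      positivity
    · have h4 : 0 < N x * tau x p := mul_pos hN h0
      nlinarith
  have h4 := mul_le_mul_of_nonneg_right h3 (N_nonneg b)
  linarith

theorem LocA_bessel {a c b : V} (ha : 0 < N a) (hc : 0 < N c) (h : ip c a = 0) :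
    Complex.normSq (ip a b) / N a + Complex.normSq (ip c b) / N c ≤ N b := by
  have hs : ∀ (l : ℂ) (y z : V), ip (l • y) z = l * ip y z := by
    intro l y z
    unfold ip
    rw [Finset.mul_sum]
    exact Finset.sum_congr rfl fun j _ => by simp [mul_assoc]
  have hs' : ∀ (l : ℝ) (y z : V), ip y ((l : ℂ) • z) = l * ip y z := by
    intro l y z
    unfold ip
    rw [Finset.mul_sum]
    refine Finset.sum_congr rfl fun j _ => ?_
    simp only [Pi.smul_apply, smul_eq_mul, map_mul, Complex.conj_ofReal]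
    ring
  have hn : ∀ y : V, 0 < N y → N ((((Real.sqrt (N y))⁻¹ : ℝ) : ℂ) • y) = 1 := by
    intro y hy
    rw [N_smul, Complex.normSq_ofReal, ← mul_inv, Real.mul_self_sqrt hy.le]
    exact inv_mul_cancel₀ hy.ne'
  have hd : ∀ y : V, 0 < N y →
      Complex.normSq (ip ((((Real.sqrt (N y))⁻¹ : ℝ) : ℂ) • y) b) =
        Complex.normSq (ip y b) / N y := by
    intro y hy
    rw [hs, map_mul, Complex.normSq_ofReal, ← mul_inv, Real.mul_self_sqrt hy.le,
      inv_mul_eq_div]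
  have key := bessel (x := (((Real.sqrt (N a))⁻¹ : ℝ) : ℂ) • a)
    (w := (((Real.sqrt (N c))⁻¹ : ℝ) : ℂ) • c) (y := b) (hn a ha) (hn c hc)
    (by rw [hs, hs', h, mul_zero, mul_zero])
  rw [hd a ha, hd c hc] at key
  exact key

theorem LocA_orth {p x : V} (hp : N p = 1) (hx : x ≠ 0) (h0 : 0 < tau x p) (h1 : tau x p < 1) :
    ip ((((N x * tau x p)⁻¹ : ℝ) : ℂ) • cr p x) (fun j => dz j (tt p) x) = 0 := by
  unfold ip
  have h2 : ∀ j, conj (dz j (tt p) x) = dzb j (tt p) x := by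
    intro j
    rw [conj_dz, LocA_conj_tt]
  rw [Fin.sum_univ_three, h2, h2, h2, LocA_dzb_tt 0 hp hx h0 h1, LocA_dzb_tt 1 hp hx h0 h1,
    LocA_dzb_tt 2 hp hx h0 h1]
  simp only [Pi.smul_apply, smul_eq_mul, cr, Matrix.cons_val_zero, Matrix.cons_val_one,
    Matrix.cons_val_two, Matrix.head_cons, Matrix.tail_cons, Matrix.cons_val]
  ring

theorem loc_ineq {p x : V} (hp : N p = 1) (hx : x ≠ 0) (h0 : 0 < tau x p)
    (h1 : tau x p ≤ 1 / 2) {b : V} (hb : ∑ j, x j * b j = 0) :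
    gr (tt p) x * N b ≤ (ee (du2 (tt p) x) (rk b)).re + 2 * (ee (L (tt p) x) (rk b)).re := by
  have h1' : tau x p < 1 := by linarith
  have hN := N_pos hx
  have hNc := LocA_Nc hp hx h0 h1'
  have hg := gr_tt hp hx h0 h1'
  have hb1 : 0 < 1 - tau x p := by linarith
  have hgp : 0 < gr (tt p) x := by
    rw [hg]
    positivity
  have hcp : 0 < N ((((N x * tau x p)⁻¹ : ℝ) : ℂ) • cr p x) := by
    rw [hNc]
    positivity
  have key := LocA_bessel (b := b) (by rw [LocA_gr]; exact hgp) hcp (LocA_orth hp hx h0 h1')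
  rw [LocA_gr] at key
  rw [du2_tt hp hx h0 h1', L_tt hp hx h0 h1', LocA_ee, LocA_ee, LocA_gr]
  obtain ⟨Nc, hNcd⟩ : ∃ Nc, Nc = N ((((N x * tau x p)⁻¹ : ℝ) : ℂ) • cr p x) := ⟨_, rfl⟩
  obtain ⟨A, hA⟩ : ∃ A, A = Complex.normSq (ip (fun j => dz j (tt p) x) b) := ⟨_, rfl⟩
  obtain ⟨C, hC⟩ : ∃ C, C = Complex.normSq (ip ((((N x * tau x p)⁻¹ : ℝ) : ℂ) • cr p x) b) :=
    ⟨_, rfl⟩
  rw [← hNcd, ← hA, ← hC] at key ⊢
  rw [← hNcd] at hNc hcp
  have hA0 : 0 ≤ A := by rw [hA]; exact Complex.normSq_nonneg _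
  -- multiply by Nc
  have e1 : Nc * (A / gr (tt p) x) = (1 - tau x p) * A := by
    rw [hNc, hg]
    field_simp
  have e2 : Nc * (C / Nc) = C := by
    field_simp
  have e3 : Nc * (A / gr (tt p) x + C / Nc) ≤ Nc * N b := mul_le_mul_of_nonneg_left key hcp.le
  rw [mul_add, e1, e2] at e3
  have e4 : A / 2 ≤ (1 - tau x p) * A := by nlinarith
  linarith

end Pool.Agent.H85.DC
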