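import Pool.Agent.H85.DC.Ker
import Pool.Agent.H85.DC.GrC
import Pool.Agent.H85.DC.LocA

/-!
# Row EnA: the energy of the Green potential over an annulus

`P` is a finite set of unit vectors with `tau p p' > 0` for `p ≠ p'`. Let `δ = min_{p≠p'} tau p p'` (or `1`), `ρ0 = min (1/4) (√δ/4)`. Given `ρ ≤ ρ0`, `r := ρ^2/64` (so `√r = ρ/8`).
For `x ∈ Ann p ρ` (`ρ^2/e ≤ τ/(1-τ) ≤ ρ^2`, `τ = tau x p`): `τ ≤ ρ^2 ≤ 1/16`, `τ ≥ ρ^2/(e(1 + ρ^2/e)) ≥ ρ^2/4`, so `ρ/2 ≤ √τ ≤ ρ`.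
For `z` unit, `z ∉ Kr P r`: there is `p' ∈ P` with `tau z p' < r`. If `p' = p`: `√tau(x,z) ≥ ρ/2 - ρ/8`. If `p' ≠ p`: `√tau(x,z) ≥ √δ - ρ - ρ/8 ≥ 4ρ - 9ρ/8 ≥ ρ`. So in any case `tau x z ≥ ρ^2/8`.
Let `f` be as in the statement, `I(x) = ∫ τ(x,y)^{-3/2} |f y| dν(y)`. `gr_green`: `gr (green n f) x ≤ 4π^{-6} I(x)^2/N x`; `gr (tt p) x = 1/(N τ(1-τ)) ≤ 8/(ρ^2 N x)` (`gr_tt`).
So the left side is `≤ (32/ρ^2) ∫_{Ann} I(x)^2 N^{-2} wt dx = (32/ρ^2) ∫_{Ann} I^2 dν`.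
`I(x) ≤ CA ∫ τ^{-3/2} dν + 3 ∫_z ∫_y τ(x,y)^{-3/2} kk ε (tau y z) dν(y) dm(z) ≤ C CA + C ∫ (tau x z + ε^2)^{-3/2} dm(z)` (Tonelli, `K1`, `nu_sing` with `b = 2`)
`≤ C CA + C m(V)(8/ρ^2)^{3/2} + C ∫_{Kr P r} (tau x z + ε^2)^{-3/2} dm(z)`. Square (`(a+b)^2 ≤ 2a^2+2b^2`), integrate, `(∫_{Kr} g dm)^2 = ∫∫ g g`, Tonelli and `K2`: `∫_{Ann} (∫_{Kr} …)^2 dν ≤ C ∫∫_{Kr²} (tau z z' + ε^2)^{-1} dm dm = C En`.
(For the last Bochner integral `En`: the integrand is bounded by `ε^{-2}` and measurable, `m` finite; convert `lintegral` to `integral` by `ofReal_integral_eq_lintegral_ofReal`.)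
The constant depends on `ρ, CA` only.
-/

open MeasureTheory
open scoped ContDiff BigOperators ComplexConjugate Matrix

namespace Pool.Agent.H85.DC

theorem EnA_ofReal_int {α : Type*} [MeasurableSpace α] {μ : Measure α} {g : α → ℝ}
    (hg : ∀ a, 0 ≤ g a) : ENNReal.ofReal (∫ a, g a ∂μ) ≤ ∫⁻ a, ENNReal.ofReal (g a) ∂μ := by
  have h1 := norm_integral_le_lintegral_norm (μ := μ) g
  have h2 : (∫⁻ a, ENNReal.ofReal ‖g a‖ ∂μ) = ∫⁻ a, ENNReal.ofReal (g a) ∂μ := by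
    refine lintegral_congr fun a => ?_
    rw [Real.norm_of_nonneg (hg a)]
  rw [h2] at h1
  calc ENNReal.ofReal (∫ a, g a ∂μ)
      ≤ ENNReal.ofReal (ENNReal.toReal (∫⁻ a, ENNReal.ofReal (g a) ∂μ)) :=
        ENNReal.ofReal_le_ofReal ((le_abs_self _).trans h1)
    _ ≤ _ := ENNReal.ofReal_toReal_le

theorem EnA_delta (P : Finset V) (hs : ∀ p ∈ P, ∀ p' ∈ P, p ≠ p' → 0 < tau p p') :
    ∃ δ : ℝ, 0 < δ ∧ ∀ p ∈ P, ∀ p' ∈ P, p ≠ p' → δ ≤ tau p p' := by
  classical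
  set S := (P ×ˢ P).filter (fun q => q.1 ≠ q.2) with hS
  rcases S.eq_empty_or_nonempty with he | hne
  · refine ⟨1, one_pos, fun p hp p' hp' hne => ?_⟩
    have : (p, p') ∈ S := Finset.mem_filter.2 ⟨Finset.mk_mem_product hp hp', hne⟩
    rw [he] at this
    exact absurd this (Finset.notMem_empty _)
  · obtain ⟨q, hq, hmin⟩ := S.exists_min_image (fun q => tau q.1 q.2) hne
    have hq' := Finset.mem_filter.1 hq
    have hq'' := Finset.mem_product.1 hq'.1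
    refine ⟨tau q.1 q.2, hs _ hq''.1 _ hq''.2 hq'.2, fun p hp p' hp' hne' => ?_⟩
    exact hmin (p, p') (Finset.mem_filter.2 ⟨Finset.mk_mem_product hp hp', hne'⟩)

theorem EnA_ne {z : V} (hz : N z = 1) : z ≠ 0 := by
  rintro rfl
  simp [N] at hz

theorem EnA_ann {p x : V} {ρ : ℝ} (hρ : 0 < ρ) (h4 : ρ ≤ 1 / 4) (hx : x ∈ Ann p ρ) :
    x ≠ 0 ∧ ρ ^ 2 / 4 ≤ tau x p ∧ tau x p ≤ ρ ^ 2 ∧ tau x p < 1 := by
  obtain ⟨h0, h1, h2⟩ := hx
  have t0 := tau_nonneg x p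
  have t1 := tau_le_one x p
  have he : (0.36 : ℝ) < Real.exp (-1) := by
    have := Real.exp_neg_one_gt_d9
    linarith
  have hρ2 : 0 < ρ ^ 2 := by positivity
  have hρ3 : ρ ^ 2 ≤ 1 / 16 := by nlinarith
  have hlt : tau x p < 1 := by
    rcases lt_or_eq_of_le t1 with h | h
    · exact h
    · exfalso
      rw [h, sub_self, div_zero] at h1
      have : 0 < ρ ^ 2 * Real.exp (-1) := by positivity
      linarith
  have hpos : 0 < 1 - tau x p := by linarith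
  rw [le_div_iff₀ hpos] at h1
  rw [div_le_iff₀ hpos] at h2
  have h3 : tau x p ≤ ρ ^ 2 := by nlinarith
  refine ⟨h0, ?_, h3, hlt⟩
  have h5 : (15 / 16 : ℝ) ≤ 1 - tau x p := by linarith
  have h6 : ρ ^ 2 * 0.36 * (15 / 16) ≤ ρ ^ 2 * Real.exp (-1) * (1 - tau x p) := by gcongr
  linarith

theorem EnA_far {P : Finset V} (hP : ∀ p ∈ P, N p = 1) {δ ρ : ℝ} (hρ : 0 < ρ) (h4 : ρ ≤ 1 / 4)
    (hδρ : 4 * ρ ≤ Real.sqrt δ) (hδ : ∀ p ∈ P, ∀ p' ∈ P, p ≠ p' → δ ≤ tau p p') {p x z : V}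
    (hp : p ∈ P) (hx : x ∈ Ann p ρ) (hz : N z = 1) (hzK : z ∉ Kr P (ρ ^ 2 / 64)) :
    ρ ^ 2 / 8 ≤ tau x z := by
  obtain ⟨hx0, h1, h2, h3⟩ := EnA_ann hρ h4 hx
  have hz0 := EnA_ne hz
  have hp0 := EnA_ne (hP p hp)
  have hex : ∃ p' ∈ P, tau z p' < ρ ^ 2 / 64 := by
    by_contra hcon
    push Not at hcon
    exact hzK ⟨hz, hcon⟩
  obtain ⟨p', hp', h5⟩ := hex
  have hp'0 := EnA_ne (hP p' hp')
  have s1 : Real.sqrt (tau z p') ≤ ρ / 8 := by
    rw [Real.sqrt_le_left (by positivity)]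
    have : (ρ / 8) ^ 2 = ρ ^ 2 / 64 := by ring
    linarith
  have key : ρ * 3 / 8 ≤ Real.sqrt (tau x z) := by
    by_cases hpp : p' = p
    · subst hpp
      have s2 : ρ / 2 ≤ Real.sqrt (tau x p') := by
        apply Real.le_sqrt_of_sq_le
        have : (ρ / 2) ^ 2 = ρ ^ 2 / 4 := by ring
        linarith
      have s3 := tau_metric hx0 hz0 hp'0
      linarith
    · have s4 : Real.sqrt δ ≤ Real.sqrt (tau p p') :=
        Real.sqrt_le_sqrt (hδ p hp p' hp' (Ne.symm hpp))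
      have s5 : Real.sqrt (tau x p) ≤ ρ := by
        rw [Real.sqrt_le_left (by positivity)]
        exact h2
      have s6 := tau_metric hp0 hx0 hp'0
      have s7 := tau_metric hx0 hz0 hp'0
      rw [tau_symm p x] at s6
      linarith
  have hsq := Real.sq_sqrt (tau_nonneg x z)
  nlinarith [Real.sqrt_nonneg (tau x z)]

theorem EnA_mN : Measurable N := by
  have : Continuous N := by
    unfold N
    exact continuous_finsetSum _ (fun j _ => Complex.continuous_normSq.comp (continuous_apply j))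
  exact this.measurable

theorem EnA_mtl (x : V) : Measurable (fun y : V => tau x y) := by
  have h : Measurable (fun y : V => ((x, y) : V × V)) := measurable_prodMk_left
  have h2 := Measurable.comp (g := fun q : V × V => tau q.1 q.2) measurable_tau h
  exact h2

theorem EnA_mtr (p : V) : Measurable (fun y : V => tau y p) := by
  have h : Measurable (fun y : V => ((y, p) : V × V)) := measurable_prodMk_right
  have h2 := Measurable.comp (g := fun q : V × V => tau q.1 q.2) measurable_tau h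
  exact h2

theorem EnA_mkk (ε : ℝ) : Measurable (kk ε) := by
  have : Continuous (kk ε) := by
    unfold kk
    fun_prop
  exact this.measurable

theorem EnA_mK (P : Finset V) (r : ℝ) : MeasurableSet (Kr P r) := by
  have h : Kr P r = {y | N y = 1} ∩ ⋂ p ∈ P, {y | r ≤ tau y p} := by
    ext y
    simp [Kr]
  rw [h]
  refine (measurableSet_eq_fun EnA_mN measurable_const).inter ?_
  exact Finset.measurableSet_biInter P (fun p _ => measurableSet_le measurable_const (EnA_mtr p))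

theorem EnA_mA (p : V) (ρ : ℝ) : MeasurableSet (Ann p ρ) := by
  have h : Ann p ρ = {x : V | x ≠ 0} ∩ ({x | ρ ^ 2 * Real.exp (-1) ≤ tau x p / (1 - tau x p)} ∩
      {x | tau x p / (1 - tau x p) ≤ ρ ^ 2}) := by
    ext y
    simp [Ann]
  rw [h]
  have hm : Measurable (fun x => tau x p / (1 - tau x p)) :=
    (EnA_mtr p).div (measurable_const.sub (EnA_mtr p))
  refine MeasurableSet.inter ?_ ((measurableSet_le measurable_const hm).inter
    (measurableSet_le hm measurable_const))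
  exact (measurableSet_singleton (0 : V)).compl

theorem EnA_nz : ∀ᵐ y ∂nuP, y ≠ 0 := by
  have h : ∀ᵐ y ∂(volume : Measure V), y ≠ 0 := by
    rw [ae_iff]
    have : {a : V | ¬ a ≠ 0} = {0} := by
      ext a
      simp
    rw [this]
    exact measure_singleton 0
  exact nuP_ac.ae_le h

/-- the kernel -/
noncomputable def EnA_w (ε : ℝ) (x z : V) : ENNReal :=
  ENNReal.ofReal ((tau x z + ε ^ 2) ^ (-(3 / 2) : ℝ))

theorem EnA_mw (ε : ℝ) : Measurable (fun q : V × V => EnA_w ε q.1 q.2) := by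
  unfold EnA_w
  exact ((measurable_tau.add_const _).pow_const _).ennreal_ofReal

theorem EnA_mwx (ε : ℝ) (x : V) : Measurable (fun z : V => EnA_w ε x z) := by
  have h : Measurable (fun y : V => ((x, y) : V × V)) := measurable_prodMk_left
  have h2 := Measurable.comp (g := fun q : V × V => EnA_w ε q.1 q.2) (EnA_mw ε) h
  exact h2

theorem EnA_mwz (ε : ℝ) (z : V) : Measurable (fun x : V => EnA_w ε x z) := by
  have h : Measurable (fun y : V => ((y, z) : V × V)) := measurable_prodMk_right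
  have h2 := Measurable.comp (g := fun q : V × V => EnA_w ε q.1 q.2) (EnA_mw ε) h
  exact h2

theorem EnA_J {C1 : ℝ} (hC1 : 0 < C1) (hK1 : ∀ (ε : ℝ) (x z : V), 0 < ε → ε ≤ 1 → x ≠ 0 → z ≠ 0 →
    ∫⁻ y, ENNReal.ofReal ((tau x y) ^ (-(3 / 2) : ℝ) * kk ε (tau y z)) ∂nuP ≤
      ENNReal.ofReal (C1 * (tau x z + ε ^ 2) ^ (-(3 / 2) : ℝ))) {CA ε : ℝ} (hCA : 0 ≤ CA)
    (hε : 0 < ε) (h1 : ε ≤ 1) {m : Measure V} [IsFiniteMeasure m] (hm1 : ∀ᵐ y ∂m, N y = 1)
    {f : V → ℝ} (hf : ∀ y : V, y ≠ 0 → |f y| ≤ CA + 3 * ∫ z, kk ε (tau y z) ∂m) {x : V}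
    (hx : x ≠ 0) :
    ∫⁻ y, ENNReal.ofReal ((tau x y) ^ (-(3 / 2) : ℝ) * |f y|) ∂nuP ≤
      ENNReal.ofReal (CA * (2 * Real.pi ^ 3 * Real.sqrt 2)) +
        ENNReal.ofReal (3 * C1) * ∫⁻ z, EnA_w ε x z ∂m := by
  have hkk : ∀ y z, 0 ≤ kk ε (tau y z) := fun y z => kk_nonneg (tau_le_one y z)
  have ht : ∀ y, 0 ≤ (tau x y) ^ (-(3 / 2) : ℝ) := fun y => Real.rpow_nonneg (tau_nonneg x y) _
  have hmt : Measurable (fun y => ENNReal.ofReal ((tau x y) ^ (-(3 / 2) : ℝ))) :=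
    ((EnA_mtl x).pow_const _).ennreal_ofReal
  have e1 : ∫⁻ y, ENNReal.ofReal ((tau x y) ^ (-(3 / 2) : ℝ) * |f y|) ∂nuP ≤
      ∫⁻ y, (ENNReal.ofReal CA * ENNReal.ofReal ((tau x y) ^ (-(3 / 2) : ℝ)) +
        3 * ∫⁻ z, ENNReal.ofReal ((tau x y) ^ (-(3 / 2) : ℝ) * kk ε (tau y z)) ∂m) ∂nuP := by
    refine lintegral_mono_ae ?_
    filter_upwards [EnA_nz] with y hy
    have hI : 0 ≤ ∫ z, kk ε (tau y z) ∂m := integral_nonneg fun z => hkk y z
    calc ENNReal.ofReal ((tau x y) ^ (-(3 / 2) : ℝ) * |f y|)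
        ≤ ENNReal.ofReal ((tau x y) ^ (-(3 / 2) : ℝ) * (CA + 3 * ∫ z, kk ε (tau y z) ∂m)) :=
          ENNReal.ofReal_le_ofReal (mul_le_mul_of_nonneg_left (hf y hy) (ht y))
      _ = ENNReal.ofReal (CA * (tau x y) ^ (-(3 / 2) : ℝ)) +
            ENNReal.ofReal (3 * ((tau x y) ^ (-(3 / 2) : ℝ) * ∫ z, kk ε (tau y z) ∂m)) := by
          rw [← ENNReal.ofReal_add (mul_nonneg hCA (ht y))
            (mul_nonneg (by norm_num) (mul_nonneg (ht y) hI))]
          congr 1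
          ring
      _ ≤ _ := by
          refine add_le_add (le_of_eq (ENNReal.ofReal_mul hCA)) ?_
          rw [ENNReal.ofReal_mul (by norm_num : (0 : ℝ) ≤ 3), ENNReal.ofReal_mul (ht y)]
          have h3 : ENNReal.ofReal 3 = 3 := by norm_num
          rw [h3]
          refine mul_le_mul_right ?_ _
          calc ENNReal.ofReal ((tau x y) ^ (-(3 / 2) : ℝ)) *
                ENNReal.ofReal (∫ z, kk ε (tau y z) ∂m)
              ≤ ENNReal.ofReal ((tau x y) ^ (-(3 / 2) : ℝ)) *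
                ∫⁻ z, ENNReal.ofReal (kk ε (tau y z)) ∂m :=
                mul_le_mul_right (EnA_ofReal_int (fun z => hkk y z)) _
            _ ≤ ∫⁻ z, ENNReal.ofReal ((tau x y) ^ (-(3 / 2) : ℝ)) *
                ENNReal.ofReal (kk ε (tau y z)) ∂m := lintegral_const_mul_le _ _
            _ = _ := by
                refine lintegral_congr fun z => ?_
                rw [ENNReal.ofReal_mul (ht y)]
  refine e1.trans ?_
  rw [lintegral_add_left (hmt.const_mul _), lintegral_const_mul' _ _ ENNReal.ofReal_ne_top,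
    lintegral_const_mul' _ _ (by norm_num)]
  refine add_le_add ?_ ?_
  · rw [ENNReal.ofReal_mul hCA]
    refine mul_le_mul_right ?_ _
    have h2 := nu_sing hx (b := 2) (by norm_num)
    have h3 : {y | tau x y < 2} = Set.univ := by
      ext y
      simp only [Set.mem_ofPred_eq, Set.mem_univ, iff_true]
      have := tau_le_one x y
      linarith
    rw [h3, setLIntegral_univ] at h2
    exact h2
  · have hmeas : AEMeasurable (Function.uncurry fun y z =>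
        ENNReal.ofReal ((tau x y) ^ (-(3 / 2) : ℝ) * kk ε (tau y z))) (nuP.prod m) := by
      apply Measurable.aemeasurable
      apply Measurable.ennreal_ofReal
      apply Measurable.mul
      · exact ((EnA_mtl x).comp measurable_fst).pow_const _
      · exact (EnA_mkk ε).comp measurable_tau
    rw [lintegral_lintegral_swap hmeas]
    calc 3 * ∫⁻ z, ∫⁻ y, ENNReal.ofReal ((tau x y) ^ (-(3 / 2) : ℝ) * kk ε (tau y z)) ∂nuP ∂m
        ≤ 3 * ∫⁻ z, ENNReal.ofReal C1 * EnA_w ε x z ∂m := by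
          refine mul_le_mul_right (lintegral_mono_ae ?_) _
          filter_upwards [hm1] with z hz
          have h5 := hK1 ε x z hε h1 hx (EnA_ne hz)
          rw [ENNReal.ofReal_mul hC1.le] at h5
          exact h5
      _ = _ := by
          rw [lintegral_const_mul' _ _ ENNReal.ofReal_ne_top, ← mul_assoc,
            ENNReal.ofReal_mul (by norm_num : (0 : ℝ) ≤ 3)]
          norm_num

theorem EnA_split {P : Finset V} {ρ ε : ℝ} (hρ : 0 < ρ) {m : Measure V} (hm : m Set.univ ≤ 2)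
    (hm1 : ∀ᵐ y ∂m, N y = 1) {x : V}
    (hfar : ∀ z : V, N z = 1 → z ∉ Kr P (ρ ^ 2 / 64) → ρ ^ 2 / 8 ≤ tau x z) :
    ∫⁻ z, EnA_w ε x z ∂m ≤ ENNReal.ofReal (2 * (ρ ^ 2 / 8) ^ (-(3 / 2) : ℝ)) +
      ∫⁻ z in Kr P (ρ ^ 2 / 64), EnA_w ε x z ∂m := by
  have hK := EnA_mK P (ρ ^ 2 / 64)
  rw [← lintegral_add_compl (fun z => EnA_w ε x z) hK, add_comm]
  refine add_le_add ?_ le_rfl
  have h1 : ∀ᵐ z ∂(m.restrict (Kr P (ρ ^ 2 / 64))ᶜ),
      EnA_w ε x z ≤ ENNReal.ofReal ((ρ ^ 2 / 8) ^ (-(3 / 2) : ℝ)) := by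
    filter_upwards [ae_restrict_of_ae hm1, ae_restrict_mem hK.compl] with z hz hzK
    unfold EnA_w
    apply ENNReal.ofReal_le_ofReal
    apply Real.rpow_le_rpow_of_nonpos (by positivity)
    · have := hfar z hz hzK
      have := sq_nonneg ε
      linarith
    · norm_num
  refine (lintegral_mono_ae h1).trans ?_
  rw [lintegral_const, Measure.restrict_apply_univ, mul_comm (2 : ℝ),
    ENNReal.ofReal_mul (by positivity)]
  refine mul_le_mul_right ?_ _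
  have h3 : ENNReal.ofReal 2 = 2 := by norm_num
  rw [h3]
  exact (measure_mono (Set.subset_univ _)).trans hm

theorem EnA_W2 {C2 : ℝ} (hC2 : 0 < C2) (hK2 : ∀ (ε : ℝ) (z z' : V), 0 < ε → ε ≤ 1 → z ≠ 0 →
    z' ≠ 0 → ∫⁻ x, ENNReal.ofReal ((tau x z + ε ^ 2) ^ (-(3 / 2) : ℝ) *
        (tau x z' + ε ^ 2) ^ (-(3 / 2) : ℝ)) ∂nuP ≤
      ENNReal.ofReal (C2 * (tau z z' + ε ^ 2)⁻¹)) {ε : ℝ} (hε : 0 < ε) (h1 : ε ≤ 1)
    {m : Measure V} [IsFiniteMeasure m] (hm1 : ∀ᵐ y ∂m, N y = 1) :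
    ∫⁻ x, (∫⁻ z, EnA_w ε x z ∂m) ^ 2 ∂nuP ≤
      ENNReal.ofReal C2 * ∫⁻ z, ∫⁻ z', ENNReal.ofReal ((tau z z' + ε ^ 2)⁻¹) ∂m ∂m := by
  have e1 : ∀ x, (∫⁻ z, EnA_w ε x z ∂m) ^ 2 =
      ∫⁻ z, ∫⁻ z', EnA_w ε x z * EnA_w ε x z' ∂m ∂m := by
    intro x
    have h2 : ∀ z, ∫⁻ z', EnA_w ε x z * EnA_w ε x z' ∂m = EnA_w ε x z * ∫⁻ z', EnA_w ε x z' ∂m :=
      fun z => lintegral_const_mul _ (EnA_mwx ε x)
    simp only [h2]
    rw [lintegral_mul_const _ (EnA_mwx ε x), sq]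
  simp only [e1]
  have hm3 : Measurable (fun q : (V × V) × V => EnA_w ε q.1.1 q.1.2 * EnA_w ε q.1.1 q.2) := by
    have h6 : Measurable (fun q : (V × V) × V => q.1) := measurable_fst
    have h3 := Measurable.comp (g := fun q : V × V => EnA_w ε q.1 q.2) (EnA_mw ε) h6
    have h5 : Measurable (fun q : (V × V) × V => ((q.1.1, q.2) : V × V)) :=
      (measurable_fst.comp measurable_fst).prodMk measurable_snd
    have h4 := Measurable.comp (g := fun q : V × V => EnA_w ε q.1 q.2) (EnA_mw ε) h5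
    exact h3.mul h4
  have hm2 : Measurable (fun q : V × V => ∫⁻ z', EnA_w ε q.1 q.2 * EnA_w ε q.1 z' ∂m) :=
    hm3.lintegral_prod_right'
  rw [lintegral_lintegral_swap (f := fun x z => ∫⁻ z', EnA_w ε x z * EnA_w ε x z' ∂m)
    hm2.aemeasurable, ← lintegral_const_mul' _ _ ENNReal.ofReal_ne_top]
  refine lintegral_mono_ae ?_
  filter_upwards [hm1] with z hz
  have hm4 : Measurable (fun q : V × V => EnA_w ε q.1 z * EnA_w ε q.1 q.2) := by
    have h6 : Measurable (fun q : V × V => q.1) := measurable_fst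
    have h3 := Measurable.comp (g := fun x : V => EnA_w ε x z) (EnA_mwz ε z) h6
    exact h3.mul (EnA_mw ε)
  rw [lintegral_lintegral_swap (f := fun x z' => EnA_w ε x z * EnA_w ε x z') hm4.aemeasurable,
    ← lintegral_const_mul' _ _ ENNReal.ofReal_ne_top]
  refine lintegral_mono_ae ?_
  filter_upwards [hm1] with z' hz'
  have h5 := hK2 ε z z' hε h1 (EnA_ne hz) (EnA_ne hz')
  rw [ENNReal.ofReal_mul hC2.le] at h5
  refine le_trans (le_of_eq ?_) h5
  refine lintegral_congr fun x => ?_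
  unfold EnA_w
  rw [ENNReal.ofReal_mul]
  have := tau_nonneg x z
  positivity

theorem EnA_bd {ε : ℝ} (hε : 0 < ε) (y z : V) : 0 ≤ (tau y z + ε ^ 2)⁻¹ ∧
    (tau y z + ε ^ 2)⁻¹ ≤ (ε ^ 2)⁻¹ := by
  have h := tau_nonneg y z
  have h2 : 0 < ε ^ 2 := by positivity
  constructor
  · positivity
  · exact inv_anti₀ h2 (by linarith)

theorem EnA_toEn {ε : ℝ} (hε : 0 < ε) {m : Measure V} [IsFiniteMeasure m] :
    ∫⁻ z, ∫⁻ z', ENNReal.ofReal ((tau z z' + ε ^ 2)⁻¹) ∂m ∂m =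
      ENNReal.ofReal (∫ z, ∫ z', (tau z z' + ε ^ 2)⁻¹ ∂m ∂m) := by
  have hmm : Measurable (fun q : V × V => (tau q.1 q.2 + ε ^ 2)⁻¹) :=
    (measurable_tau.add_const _).inv
  have hint : ∀ z, Integrable (fun z' => (tau z z' + ε ^ 2)⁻¹) m := by
    intro z
    have hmp : Measurable (fun y : V => ((z, y) : V × V)) := measurable_prodMk_left
    refine Integrable.of_bound (hmm.comp hmp).aestronglyMeasurable
      (ε ^ 2)⁻¹ (Filter.Eventually.of_forall fun z' => ?_)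
    show ‖(tau z z' + ε ^ 2)⁻¹‖ ≤ _
    rw [Real.norm_of_nonneg (EnA_bd hε z z').1]
    exact (EnA_bd hε z z').2
  have hint2 : Integrable (fun z => ∫ z', (tau z z' + ε ^ 2)⁻¹ ∂m) m := by
    have hsm : StronglyMeasurable (fun z => ∫ z', (tau z z' + ε ^ 2)⁻¹ ∂m) :=
      hmm.stronglyMeasurable.integral_prod_right'
    refine Integrable.of_bound hsm.aestronglyMeasurable ((ε ^ 2)⁻¹ * m.real Set.univ)
      (Filter.Eventually.of_forall fun z => ?_)
    refine (norm_integral_le_of_norm_le_const (C := (ε ^ 2)⁻¹) (Filter.Eventually.of_forall fun z' => ?_))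
    show ‖(tau z z' + ε ^ 2)⁻¹‖ ≤ _
    rw [Real.norm_of_nonneg (EnA_bd hε z z').1]
    exact (EnA_bd hε z z').2
  rw [ofReal_integral_eq_lintegral_ofReal hint2 (Filter.Eventually.of_forall fun z =>
    integral_nonneg fun z' => (EnA_bd hε z z').1)]
  refine lintegral_congr fun z => ?_
  rw [ofReal_integral_eq_lintegral_ofReal (hint z) (Filter.Eventually.of_forall fun z' =>
    (EnA_bd hε z z').1)]

theorem EnA_sq (a b : ENNReal) : (a + b) ^ 2 ≤ 4 * (a ^ 2 + b ^ 2) := by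
  rcases le_total a b with h | h
  · calc (a + b) ^ 2 ≤ (b + b) ^ 2 := by gcongr
      _ = 4 * b ^ 2 := by ring
      _ ≤ 4 * (a ^ 2 + b ^ 2) := by gcongr; exact le_add_self
  · calc (a + b) ^ 2 ≤ (a + a) ^ 2 := by gcongr
      _ = 4 * a ^ 2 := by ring
      _ ≤ 4 * (a ^ 2 + b ^ 2) := by gcongr; exact le_self_add

theorem EnA_gr_nonneg (u : V → ℂ) (x : V) : 0 ≤ gr u x :=
  Finset.sum_nonneg fun _ _ => Complex.normSq_nonneg _

theorem energy {P : Finset V} (hP : ∀ p ∈ P, N p = 1)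
    (hs : ∀ p ∈ P, ∀ p' ∈ P, p ≠ p' → 0 < tau p p') :
    ∃ ρ0 : ℝ, 0 < ρ0 ∧ ∀ ρ : ℝ, 0 < ρ → ρ ≤ ρ0 → ∃ r : ℝ, 0 < r ∧ ∀ CA : ℝ, 0 ≤ CA →
      ∃ C : ℝ, 0 < C ∧ ∀ (p : V), p ∈ P → ∀ (ε : ℝ), 0 < ε → ε ≤ 1 → ∀ (m : Measure V), m Set.univ ≤ 2 →
        (∀ᵐ y ∂m, N y = 1) → ∀ (f : V → ℝ) (n : ℕ), AEStronglyMeasurable f (volume : Measure V) →
        (∃ b : ℝ, ∀ y : V, y ≠ 0 → |f y| ≤ b) →
        (∀ y : V, y ≠ 0 → |f y| ≤ CA + 3 * ∫ z, kk ε (tau y z) ∂m) →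
        ∫ x in Ann p ρ, gr (tt p) x * gr (green n f) x * wt x ≤ C * (1 + En m P r ε) := by
  obtain ⟨C1, hC1, hK1⟩ := K1
  obtain ⟨C2, hC2, hK2⟩ := KK2
  obtain ⟨δ, hδ, hδm⟩ := EnA_delta P hs
  refine ⟨min (1 / 4) (Real.sqrt δ / 4), by positivity, ?_⟩
  intro ρ hρ hρ0
  have h4 : ρ ≤ 1 / 4 := hρ0.trans (min_le_left _ _)
  have hδρ : 4 * ρ ≤ Real.sqrt δ := by
    have := hρ0.trans (min_le_right _ _)
    linarith
  refine ⟨ρ ^ 2 / 64, by positivity, ?_⟩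
  intro CA hCA
  set Kc : ℝ := 32 * ((Real.pi ^ 3)⁻¹) ^ 2 / ρ ^ 2 with hKc
  have hKc0 : 0 < Kc := by positivity
  set b0 : ℝ := CA * (2 * Real.pi ^ 3 * Real.sqrt 2) +
    3 * C1 * (2 * (ρ ^ 2 / 8) ^ (-(3 / 2) : ℝ)) with hb0
  have hb00 : 0 ≤ b0 := by positivity
  refine ⟨Kc * (4 * (b0 ^ 2 * (Real.pi ^ 3 / 2) + (3 * C1) ^ 2 * C2)), by positivity, ?_⟩
  intro p hp ε hε h1 m hm hm1 f n hfm hfb hf
  obtain ⟨b, hb⟩ := hfb
  have hmf : IsFiniteMeasure m := ⟨lt_of_le_of_lt hm (by norm_num)⟩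
  have hp1 := hP p hp
  set K := Kr P (ρ ^ 2 / 64) with hK
  have hEn0 : 0 ≤ En m P (ρ ^ 2 / 64) ε :=
    integral_nonneg fun z => integral_nonneg fun z' => (EnA_bd hε z z').1
  have hAm := EnA_mA p ρ
  -- pointwise bound
  have hpt : ∀ x ∈ Ann p ρ, ENNReal.ofReal ‖gr (tt p) x * gr (green n f) x * wt x‖ ≤
      ENNReal.ofReal (wt x / (N x) ^ 2) * (ENNReal.ofReal Kc * (4 * (ENNReal.ofReal b0 ^ 2 +
        (ENNReal.ofReal (3 * C1) * ∫⁻ z in K, EnA_w ε x z ∂m) ^ 2))) := by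
    intro x hx
    obtain ⟨hx0, t1, t2, t3⟩ := EnA_ann hρ h4 hx
    have hN := N_pos hx0
    have hwt : 0 < wt x := Real.exp_pos _
    have hρ2 : 0 < ρ ^ 2 := by positivity
    have hρ3 : ρ ^ 2 ≤ 1 / 16 := by nlinarith
    have t0 : 0 < tau x p := by linarith
    set I : ℝ := ∫ y, (tau x y) ^ (-(3 / 2) : ℝ) * |f y| ∂nuP with hI
    have hI0 : 0 ≤ I := integral_nonneg fun y =>
      mul_nonneg (Real.rpow_nonneg (tau_nonneg x y) _) (abs_nonneg _)
    have g1 : gr (tt p) x ≤ 8 / (ρ ^ 2 * N x) := by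
      rw [gr_tt hp1 hx0 t0 t3]
      rw [div_le_div_iff₀ (mul_pos hN (mul_pos t0 (by linarith))) (by positivity)]
      have k1 : ρ ^ 2 / 4 * (15 / 16) ≤ tau x p * (1 - tau x p) := by
        apply mul_le_mul t1 (by linarith) (by norm_num) t0.le
      nlinarith
    have g2 := gr_green n hfm hb hx0
    have g3 : ‖gr (tt p) x * gr (green n f) x * wt x‖ ≤ wt x / (N x) ^ 2 * (Kc * I ^ 2) := by
      rw [Real.norm_of_nonneg (mul_nonneg (mul_nonneg (EnA_gr_nonneg _ _) (EnA_gr_nonneg _ _))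
        hwt.le)]
      calc gr (tt p) x * gr (green n f) x * wt x
          ≤ 8 / (ρ ^ 2 * N x) * (4 * ((Real.pi ^ 3)⁻¹) ^ 2 * (N x)⁻¹ * I ^ 2) * wt x := by
            refine mul_le_mul_of_nonneg_right ?_ hwt.le
            exact mul_le_mul g1 g2 (EnA_gr_nonneg _ _) (by positivity)
        _ = _ := by
            rw [hKc]
            field_simp
            ring
    have g4 : ENNReal.ofReal I ≤ ENNReal.ofReal b0 +
        ENNReal.ofReal (3 * C1) * ∫⁻ z in K, EnA_w ε x z ∂m := by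
      calc ENNReal.ofReal I
          ≤ ∫⁻ y, ENNReal.ofReal ((tau x y) ^ (-(3 / 2) : ℝ) * |f y|) ∂nuP :=
            EnA_ofReal_int fun y => mul_nonneg (Real.rpow_nonneg (tau_nonneg x y) _) (abs_nonneg _)
        _ ≤ ENNReal.ofReal (CA * (2 * Real.pi ^ 3 * Real.sqrt 2)) +
            ENNReal.ofReal (3 * C1) * ∫⁻ z, EnA_w ε x z ∂m := EnA_J hC1 hK1 hCA hε h1 hm1 hf hx0
        _ ≤ ENNReal.ofReal (CA * (2 * Real.pi ^ 3 * Real.sqrt 2)) +
            ENNReal.ofReal (3 * C1) * (ENNReal.ofReal (2 * (ρ ^ 2 / 8) ^ (-(3 / 2) : ℝ)) +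
              ∫⁻ z in K, EnA_w ε x z ∂m) := by
            gcongr
            exact EnA_split hρ hm hm1 (fun z hz hzK => EnA_far hP hρ h4 hδρ hδm hp hx hz hzK)
        _ = _ := by
            rw [mul_add, ← add_assoc, ← ENNReal.ofReal_mul (by positivity),
              ← ENNReal.ofReal_add (by positivity) (by positivity)]
    calc ENNReal.ofReal ‖gr (tt p) x * gr (green n f) x * wt x‖
        ≤ ENNReal.ofReal (wt x / (N x) ^ 2 * (Kc * I ^ 2)) := ENNReal.ofReal_le_ofReal g3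
      _ = ENNReal.ofReal (wt x / (N x) ^ 2) * (ENNReal.ofReal Kc * ENNReal.ofReal I ^ 2) := by
          rw [ENNReal.ofReal_mul (by positivity), ENNReal.ofReal_mul hKc0.le,
            ENNReal.ofReal_pow hI0]
      _ ≤ _ := by
          gcongr
          exact (pow_le_pow_left' g4 2).trans (EnA_sq _ _)
  -- integration
  have hW : ∫⁻ x, (∫⁻ z in K, EnA_w ε x z ∂m) ^ 2 ∂nuP ≤
      ENNReal.ofReal C2 * ENNReal.ofReal (En m P (ρ ^ 2 / 64) ε) := by
    have h5 := EnA_W2 hC2 hK2 hε h1 (m := m.restrict K) (ae_restrict_of_ae hm1)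
    rw [EnA_toEn hε] at h5
    exact h5
  have hmW : Measurable (fun x => ∫⁻ z in K, EnA_w ε x z ∂m) :=
    (EnA_mw ε).lintegral_prod_right'
  have hdm : Measurable (fun y => ENNReal.ofReal (wt y / (N y) ^ 2)) := by
    have hwm : Measurable wt := by
      unfold wt
      exact Real.measurable_exp.comp EnA_mN.neg
    exact (hwm.div (EnA_mN.pow_const 2)).ennreal_ofReal
  have htot : ∫⁻ x in Ann p ρ, ENNReal.ofReal ‖gr (tt p) x * gr (green n f) x * wt x‖ ≤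
      ENNReal.ofReal (Kc * (4 * (b0 ^ 2 * (Real.pi ^ 3 / 2) +
        (3 * C1) ^ 2 * (C2 * En m P (ρ ^ 2 / 64) ε)))) := by
    calc ∫⁻ x in Ann p ρ, ENNReal.ofReal ‖gr (tt p) x * gr (green n f) x * wt x‖
        ≤ ∫⁻ x in Ann p ρ, ENNReal.ofReal (wt x / (N x) ^ 2) * (ENNReal.ofReal Kc *
            (4 * (ENNReal.ofReal b0 ^ 2 +
              (ENNReal.ofReal (3 * C1) * ∫⁻ z in K, EnA_w ε x z ∂m) ^ 2))) :=
          setLIntegral_mono' hAm hpt
      _ ≤ ∫⁻ x, ENNReal.ofReal (wt x / (N x) ^ 2) * (ENNReal.ofReal Kc *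
            (4 * (ENNReal.ofReal b0 ^ 2 +
              (ENNReal.ofReal (3 * C1) * ∫⁻ z in K, EnA_w ε x z ∂m) ^ 2))) :=
          setLIntegral_le_lintegral _ _
      _ = ∫⁻ x, ENNReal.ofReal Kc * (4 * (ENNReal.ofReal b0 ^ 2 +
              (ENNReal.ofReal (3 * C1) * ∫⁻ z in K, EnA_w ε x z ∂m) ^ 2)) ∂nuP := by
          unfold nuP
          rw [lintegral_withDensity_eq_lintegral_mul_non_measurable _ hdm
            (Filter.Eventually.of_forall fun x => ENNReal.ofReal_lt_top)]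
          rfl
      _ = ENNReal.ofReal Kc * (4 * (ENNReal.ofReal b0 ^ 2 * nuP Set.univ +
            ENNReal.ofReal (3 * C1) ^ 2 * ∫⁻ x, (∫⁻ z in K, EnA_w ε x z ∂m) ^ 2 ∂nuP)) := by
          rw [lintegral_const_mul' _ _ ENNReal.ofReal_ne_top, lintegral_const_mul' _ _ (by norm_num),
            lintegral_add_left measurable_const, lintegral_const]
          simp only [mul_pow]
          rw [lintegral_const_mul' _ _ (ENNReal.pow_ne_top ENNReal.ofReal_ne_top)]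
      _ ≤ ENNReal.ofReal Kc * (4 * (ENNReal.ofReal b0 ^ 2 * ENNReal.ofReal (Real.pi ^ 3 / 2) +
            ENNReal.ofReal (3 * C1) ^ 2 *
              (ENNReal.ofReal C2 * ENNReal.ofReal (En m P (ρ ^ 2 / 64) ε)))) := by
          gcongr
          exact nuP_univ.le
      _ = _ := by
          have h3 : (4 : ENNReal) = ENNReal.ofReal 4 := by norm_num
          rw [h3, ← ENNReal.ofReal_pow hb00, ← ENNReal.ofReal_pow (by positivity),
            ← ENNReal.ofReal_mul (by positivity), ← ENNReal.ofReal_mul (by positivity),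
            ← ENNReal.ofReal_mul (by positivity), ← ENNReal.ofReal_add (by positivity)
              (by positivity), ← ENNReal.ofReal_mul (by positivity),
            ← ENNReal.ofReal_mul (by positivity)]
  have hfin := norm_integral_le_lintegral_norm (μ := (volume : Measure V).restrict (Ann p ρ))
    (fun x => gr (tt p) x * gr (green n f) x * wt x)
  have hfin2 := ENNReal.toReal_le_of_le_ofReal (by positivity) htot
  have hfin3 := (le_abs_self _).trans (hfin.trans hfin2)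
  refine hfin3.trans ?_
  have e1 : 0 ≤ Kc * (4 * (b0 ^ 2 * (Real.pi ^ 3 / 2))) * En m P (ρ ^ 2 / 64) ε := by positivity
  have e2 : 0 ≤ Kc * (4 * ((3 * C1) ^ 2 * C2)) := by positivity
  nlinarith

end Pool.Agent.H85.DC
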