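import Pool.Agent.H85.DC.FinA
import Pool.Agent.H85.DC.FinD
import Pool.Agent.H85.DC.AdmJ
import Pool.Agent.H85.DC.Sng

/-!
# MP_6873ef_an: the final assembly (helper85)
-/

open MeasureTheory
open scoped ContDiff BigOperators ComplexConjugate Matrix

namespace Pool.Agent.H85.DC

theorem nn_sub_sq {A B : V → M3} (hA : InH0 A) (hB : InH0 B) :
    nn (fun x => A x - B x) (fun x => A x - B x) = nn A A - 2 * nn A B + nn B B := by
  rw [nn_sub_left hA.form hB.form (form_sub hA.form hB.form)]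
  rw [nn_comm A, nn_comm B, nn_sub_left hA.form hB.form hA.form,
    nn_sub_left hA.form hB.form hB.form, nn_comm B A]
  ring

theorem opt_zero {F : Fin 3 → MvPolynomial (Fin 3) ℂ} {P : Finset V} (hP : SingPts F P)
    {μ μ' : Measure V} (hμ : IsCur F μ) (hμ' : IsCur F μ') (hd : DdcClosed F μ)
    (hd' : DdcClosed F μ') (hadm : Adm F μ μ' P) :
    ∀ A : V → M3, InH0 A → (Dl F μ μ' A).re = 0 := by
  obtain ⟨K, hK0, hK, hopt⟩ := near_opt hμ hμ' hd hd'
  obtain ⟨C, hC, hkey⟩ := key hP hμ hμ' hd hd' hadm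
  have main : ∀ δ : ℝ, 0 < δ → K ≤ (2 * C + 3) * δ := by
    intro δ hδ
    obtain ⟨A0, hA0, hD, hnA⟩ := hopt δ hδ
    obtain ⟨ε0, hε0, hε01, hk⟩ := hkey A0 hA0 (2 * δ) δ (by linarith) hδ
    have ht := dl_tendsto (F := F) hμ hμ' hA0.form
    have hev : ∀ᶠ ε : ℝ in nhdsWithin 0 (Set.Ioi 0),
        (Dl F μ μ' (av ε A0)).re < -nn A0 A0 + δ / 2 := by
      apply ht.eventually_lt_const
      rw [hD]
      linarith
    have hev2 : ∀ᶠ ε : ℝ in nhdsWithin 0 (Set.Ioi 0), ε ∈ Set.Ioo 0 ε0 :=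
      Ioo_mem_nhdsGT hε0
    obtain ⟨ε, hε1, hε2⟩ := (hev.and hev2).exists
    have hεpos : 0 < ε := hε2.1
    have hεle : ε ≤ 1 := le_trans hε2.2.le hε01
    have hDH := inH0_D hμ hμ' hd hd' hεpos hεle
    have hX := nn_sub_sq hDH hA0
    have hself := dl_self hμ hμ' hd hd' hK0 hK hεpos hεle
    have hDA := nn_DD hμ hμ' hA0.form hεpos hεle
    have hpos := hodge (inH0_sub hDH hA0)
    have h1 : nn (fun x => DD F μ μ' ε x - A0 x) (fun x => DD F μ μ' ε x - A0 x) ≤ 2 * δ := by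
      rw [hX, hDA]
      linarith
    have h2 := hk ε hεpos hε2.2 h1
    rw [hX, hDA] at hpos
    nlinarith
  have hK00 : K ≤ 0 := by
    by_contra hcon
    push Not at hcon
    have h := main (K / (2 * (2 * C + 3))) (by positivity)
    have h3 : (2 * C + 3) * (K / (2 * (2 * C + 3))) = K / 2 := by
      field_simp
    rw [h3] at h
    linarith
  intro A hA
  have h := hK A hA
  have hKz : K = 0 := le_antisymm hK00 hK0
  rw [hKz, zero_mul] at h
  have : (Dl F μ μ' A).re ^ 2 = 0 := le_antisymm h (sq_nonneg _)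
  exact pow_eq_zero_iff (two_ne_zero) |>.1 this

/-- The main theorem. -/
theorem main {F : Fin 3 → MvPolynomial (Fin 3) ℂ} {d : ℕ} (hF : ∀ j, (F j).IsHomogeneous d)
    (hsing : ∃ P : Finset V, ∀ y : V, eta F y = 0 → ∃ p ∈ P, ∃ c : ℂ, y = c • p)
    {μS μT : Measure V} (hS : IsCur F μS) (hT : IsCur F μT) (dS : DdcClosed F μS)
    (dT : DdcClosed F μT)
    (h : FinEnergy F (μS + μT) ∨ (HolderOff F μT ∧ ZeroLelong μS) ∨
      (HolderOff F μS ∧ ZeroLelong μT)) :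
    (∀ ζ : V → V, IsCov ζ → ∫ y, pr F (db ζ) y ∂μS = ∫ y, pr F (db ζ) y ∂μT) ∧
      (CurClosed F μT → CurClosed F μS) := by
  obtain ⟨P, hP⟩ := exists_singPts hF hsing
  have hadm : Adm F μS μT P := by
    rcases h with h | ⟨h1, h2⟩ | ⟨h1, h2⟩
    · exact adm_fin hF hP hS hT h
    · exact adm_symm (adm_holder hF hP hT hS
        (fun y s hy hs => mass_bound hS dS hy hs) h1 h2)
    · exact adm_holder hF hP hS hT (fun y s hy hs => mass_bound hT dT hy hs) h1 h2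
  have h0 := opt_zero hP hS hT dS dT hadm
  have h1 : ∀ ζ : V → V, IsCov ζ → ∫ y, pr F (db ζ) y ∂μS = ∫ y, pr F (db ζ) y ∂μT :=
    fun ζ hζ => closed_of_zero hS hT h0 hζ
  refine ⟨h1, fun hc ζ hζ => ?_⟩
  rw [h1 ζ hζ]
  exact hc ζ hζ

end Pool.Agent.H85.DC
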