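import Pool.Agent.H85.DC.SmE

/-!
# Row FinA: the difference functional on `H0`

`Dl A = ∫ pr F A dμ - ∫ pr F A dμ'` (complex; real for Hermitian forms: `pr_ct`, `pr F A = pr F Aᴴ` a.e. since `A y` is Hermitian for `y ≠ 0`; `integral_conj`).
`nn_DD`: `nn (DD ε) A = -(Dl (av ε A)).re` for forms `A` (`qq_sm` twice, `qq_sub_left`).
`dl_tendsto`: `(Dl (av ε A)).re → (Dl A).re` (`pr_av_tendsto`).
`dl_bdd`: for `A ∈ H0`: `(Dl (av ε A)).re^2 = nn (DD ε) A ^2 ≤ nn (DD ε)(DD ε) nn A A ≤ C nn A A` (`nn_cs`, `inH0_D`, `nn_D`), let `ε → 0`.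
`dl_self`: if `(Dl A).re^2 ≤ K nn A A` for all `A ∈ H0` (`K ≥ 0`) then `nn (DD ε)(DD ε) ≤ K`: `a = nn (DD)(DD) = -(Dl (av ε DD)).re ≤ √K √(nn (av ε DD)(av ε DD)) ≤ √K √a` (`inH0_av`, `contraction`).
`near_opt`: let `K = sSup {(Dl A).re^2 | A ∈ H0, nn A A ≤ 1}` (bounded above by `C`; nonempty: `A = 0`). Then `(Dl A).re^2 ≤ K nn A A` for all `A ∈ H0` (if `nn A A > 0` scale `A` by `(√(nn A A))⁻¹`; if `nn A A = 0` use
`dl_bdd`). Given `δ > 0` there is `A0 ∈ H0` with `(Dl A0).re = - nn A0 A0` and `nn A0 A0 ≥ K - δ`: take `A` with `(Dl A).re^2 ≥ K - δ`, `nn A A ≤ 1`. If `nn A A = 0` then `(Dl A).re = 0` (`dl_bdd`), `K ≤ δ`: `A0 = 0`.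
Otherwise `A1 = A/√(nn A A)`, `nn A1 A1 = 1`, `(Dl A1).re^2 ≥ K - δ`; `A0 = -(Dl A1).re • A1`. (`Dl` is linear: `pr` is linear in `A`.)
-/

open MeasureTheory
open scoped ContDiff BigOperators ComplexConjugate Matrix

namespace Pool.Agent.H85.DC

/-- The difference of the two currents. -/
noncomputable def Dl (F : Fin 3 → MvPolynomial (Fin 3) ℂ) (μ μ' : Measure V) (A : V → M3) : ℂ :=
  (∫ y, pr F A y ∂μ) - ∫ y, pr F A y ∂μ'

variable {F : Fin 3 → MvPolynomial (Fin 3) ℂ} {μ μ' : Measure V}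

theorem FinA_pr_smul (c : ℂ) (A : V → M3) (y : V) :
    pr F (fun x => c • A x) y = c * pr F A y := by
  unfold pr
  rw [← mul_div_assoc, Finset.mul_sum]
  congr 1
  refine Finset.sum_congr rfl fun j _ => ?_
  rw [Finset.mul_sum]
  refine Finset.sum_congr rfl fun k _ => ?_
  change (c * A y j k) * Zf F y j * conj (Zf F y k) = c * (A y j k * Zf F y j * conj (Zf F y k))
  ring

theorem FinA_pr_add (A B : V → M3) (y : V) :
    pr F (fun x => A x + B x) y = pr F A y + pr F B y := by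
  unfold pr
  rw [← add_div, ← Finset.sum_add_distrib]
  congr 1
  refine Finset.sum_congr rfl fun j _ => ?_
  rw [← Finset.sum_add_distrib]
  refine Finset.sum_congr rfl fun k _ => ?_
  change (A y j k + B y j k) * Zf F y j * conj (Zf F y k) =
    A y j k * Zf F y j * conj (Zf F y k) + B y j k * Zf F y j * conj (Zf F y k)
  ring

theorem dl_smul (c : ℂ) (A : V → M3) : Dl F μ μ' (fun x => c • A x) = c * Dl F μ μ' A := by
  unfold Dl
  rw [mul_sub, ← integral_const_mul, ← integral_const_mul]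
  congr 1
  · exact integral_congr_ae (Filter.Eventually.of_forall fun y => FinA_pr_smul c A y)
  · exact integral_congr_ae (Filter.Eventually.of_forall fun y => FinA_pr_smul c A y)

theorem nn_DD (hμ : IsCur F μ) (hμ' : IsCur F μ') {A : V → M3} (hA : IsForm A) {ε : ℝ}
    (hε : 0 < ε) (h1 : ε ≤ 1) : nn (DD F μ μ' ε) A = -(Dl F μ μ' (av ε A)).re := by
  unfold nn Dl
  have h2 : qq (DD F μ μ' ε) A = qq (sm F μ ε) A - qq (sm F μ' ε) A :=
    qq_sub_left (form_sm hμ hε h1) (form_sm hμ' hε h1) hA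
  rw [h2, qq_sm hμ hA hε h1, qq_sm hμ' hA hε h1]

theorem dl_tendsto (hμ : IsCur F μ) (hμ' : IsCur F μ') {A : V → M3} (hA : IsForm A) :
    Filter.Tendsto (fun ε : ℝ => (Dl F μ μ' (av ε A)).re) (nhdsWithin 0 (Set.Ioi 0))
      (nhds (Dl F μ μ' A).re) := by
  have h := (pr_av_tendsto hμ hA).sub (pr_av_tendsto hμ' hA)
  exact (Complex.continuous_re.tendsto _).comp h

theorem FinA_ev : ∀ᶠ ε : ℝ in nhdsWithin 0 (Set.Ioi 0), 0 < ε ∧ ε ≤ 1 := by
  have h1 : ∀ᶠ ε : ℝ in nhdsWithin 0 (Set.Ioi 0), 0 < ε := self_mem_nhdsWithin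
  have h2 : ∀ᶠ ε : ℝ in nhdsWithin 0 (Set.Ioi 0), ε < 1 :=
    mem_nhdsWithin_of_mem_nhds (Iio_mem_nhds one_pos)
  filter_upwards [h1, h2] with ε h3 h4
  exact ⟨h3, h4.le⟩

theorem dl_bdd (hμ : IsCur F μ) (hμ' : IsCur F μ') (hd : DdcClosed F μ) (hd' : DdcClosed F μ') :
    ∃ C : ℝ, 0 ≤ C ∧ ∀ A : V → M3, InH0 A → (Dl F μ μ' A).re ^ 2 ≤ C * nn A A := by
  obtain ⟨C, hC0, hC⟩ := nn_D
  refine ⟨C, hC0, fun A hA => ?_⟩
  have ht := (dl_tendsto (F := F) hμ hμ' hA.form).pow 2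
  refine le_of_tendsto ht ?_
  filter_upwards [FinA_ev] with ε hε
  have h1 := nn_DD (F := F) hμ hμ' hA.form hε.1 hε.2
  have h2 := nn_cs (inH0_D hμ hμ' hd hd' hε.1 hε.2) hA
  have h3 := hC F μ μ' hμ hμ' hd hd' ε hε.1 hε.2
  have h4 := hodge hA
  have h5 : (Dl F μ μ' (av ε A)).re ^ 2 = nn (DD F μ μ' ε) A ^ 2 := by
    rw [h1]
    ring
  rw [h5]
  exact h2.trans (mul_le_mul_of_nonneg_right h3 h4)

theorem dl_self (hμ : IsCur F μ) (hμ' : IsCur F μ') (hd : DdcClosed F μ) (hd' : DdcClosed F μ')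
    {K : ℝ} (hK : 0 ≤ K) (h : ∀ A : V → M3, InH0 A → (Dl F μ μ' A).re ^ 2 ≤ K * nn A A) {ε : ℝ}
    (hε : 0 < ε) (h1 : ε ≤ 1) : nn (DD F μ μ' ε) (DD F μ μ' ε) ≤ K := by
  have hD := inH0_D hμ hμ' hd hd' hε h1
  have h2 := nn_DD (F := F) hμ hμ' hD.form hε h1
  have h3 := h _ (inH0_av hD hε)
  have h4 := contraction hD hε
  have h5 := hodge hD
  obtain ⟨a, ha⟩ : ∃ a, a = nn (DD F μ μ' ε) (DD F μ μ' ε) := ⟨_, rfl⟩
  rw [← ha] at h2 h4 h5 ⊢
  have h6 : a ^ 2 ≤ K * a := by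
    have h7 : (Dl F μ μ' (av ε (DD F μ μ' ε))).re ^ 2 = a ^ 2 := by
      rw [h2]
      ring
    rw [← h7]
    exact h3.trans (mul_le_mul_of_nonneg_left h4 hK)
  by_contra hcon
  push Not at hcon
  have h8 : 0 < a := lt_of_le_of_lt hK hcon
  nlinarith

theorem FinA_nn_smul (c : ℝ) (A : V → M3) :
    nn (fun x => (c : ℂ) • A x) (fun x => (c : ℂ) • A x) = c ^ 2 * nn A A := by
  rw [nn_smul_left, nn_comm, nn_smul_left]
  ring

theorem FinA_dl_re (c : ℝ) (A : V → M3) :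
    (Dl F μ μ' (fun x => (c : ℂ) • A x)).re = c * (Dl F μ μ' A).re := by
  rw [dl_smul, Complex.re_ofReal_mul]

theorem near_opt (hμ : IsCur F μ) (hμ' : IsCur F μ') (hd : DdcClosed F μ) (hd' : DdcClosed F μ') :
    ∃ K : ℝ, 0 ≤ K ∧ (∀ A : V → M3, InH0 A → (Dl F μ μ' A).re ^ 2 ≤ K * nn A A) ∧
      ∀ δ : ℝ, 0 < δ → ∃ A0 : V → M3, InH0 A0 ∧ (Dl F μ μ' A0).re = -nn A0 A0 ∧
        K - δ ≤ nn A0 A0 := by
  obtain ⟨C, hC0, hC⟩ := dl_bdd hμ hμ' hd hd'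
  obtain ⟨S, hS⟩ : ∃ S : Set ℝ, S = {t | ∃ A : V → M3, InH0 A ∧ nn A A ≤ 1 ∧
      t = (Dl F μ μ' A).re ^ 2} := ⟨_, rfl⟩
  have hbdd : BddAbove S := by
    refine ⟨C, ?_⟩
    rw [hS]
    rintro t ⟨A, hA, h1, rfl⟩
    calc (Dl F μ μ' A).re ^ 2 ≤ C * nn A A := hC A hA
      _ ≤ C * 1 := mul_le_mul_of_nonneg_left h1 hC0
      _ = C := mul_one C
  -- the zero form
  have hX := inH0_D hμ hμ' hd hd' one_pos le_rfl
  obtain ⟨Z0, hZ0⟩ : ∃ Z0 : V → M3, Z0 = fun x => ((0 : ℝ) : ℂ) • DD F μ μ' 1 x := ⟨_, rfl⟩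
  have hZ0H : InH0 Z0 := by
    rw [hZ0]
    exact inH0_smul 0 hX
  have hZ0n : nn Z0 Z0 = 0 := by
    rw [hZ0, FinA_nn_smul]
    ring
  have hZ0d : (Dl F μ μ' Z0).re = 0 := by
    rw [hZ0, FinA_dl_re, zero_mul]
  have h0S : (0 : ℝ) ∈ S := by
    rw [hS]
    refine ⟨Z0, hZ0H, ?_, ?_⟩
    · rw [hZ0n]
      exact zero_le_one
    · rw [hZ0d]
      ring
  have hK0 : 0 ≤ sSup S := le_csSup hbdd h0S
  have hK : ∀ A : V → M3, InH0 A → (Dl F μ μ' A).re ^ 2 ≤ sSup S * nn A A := by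
    intro A hA
    rcases (hodge hA).eq_or_lt with h1 | h1
    · have h2 := hC A hA
      rw [← h1, mul_zero] at h2 ⊢
      exact h2
    · obtain ⟨t, ht⟩ : ∃ t : ℝ, t = (Real.sqrt (nn A A))⁻¹ := ⟨_, rfl⟩
      have ht2 : t ^ 2 * nn A A = 1 := by
        rw [ht, inv_pow, Real.sq_sqrt h1.le]
        exact inv_mul_cancel₀ h1.ne'
      have hm : t ^ 2 * (Dl F μ μ' A).re ^ 2 ∈ S := by
        rw [hS]
        refine ⟨fun x => (t : ℂ) • A x, inH0_smul t hA, ?_, ?_⟩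
        · rw [FinA_nn_smul, ht2]
        · rw [FinA_dl_re]
          ring
      have h3 := le_csSup hbdd hm
      calc (Dl F μ μ' A).re ^ 2 = (t ^ 2 * (Dl F μ μ' A).re ^ 2) * nn A A := by
            linear_combination (-(Dl F μ μ' A).re ^ 2) * ht2
        _ ≤ sSup S * nn A A := mul_le_mul_of_nonneg_right h3 h1.le
  refine ⟨sSup S, hK0, hK, fun δ hδ => ?_⟩
  obtain ⟨t, htS, ht⟩ := exists_lt_of_lt_csSup ⟨0, h0S⟩ (show sSup S - δ < sSup S by linarith)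
  rw [hS] at htS
  obtain ⟨A, hA, h1, rfl⟩ := htS
  rcases (hodge hA).eq_or_lt with h2 | h2
  · refine ⟨Z0, hZ0H, ?_, ?_⟩
    · rw [hZ0n, hZ0d, neg_zero]
    · have h3 := hK A hA
      rw [← h2, mul_zero] at h3
      rw [hZ0n]
      linarith
  · obtain ⟨r, hr⟩ : ∃ r : ℝ, r = -(Dl F μ μ' A).re / nn A A := ⟨_, rfl⟩
    have e1 : r * nn A A = -(Dl F μ μ' A).re := by
      rw [hr]
      exact div_mul_cancel₀ _ h2.ne'
    refine ⟨fun x => (r : ℂ) • A x, inH0_smul r hA, ?_, ?_⟩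
    · rw [FinA_dl_re, FinA_nn_smul]
      linear_combination r * e1
    · rw [FinA_nn_smul]
      have e2 : r ^ 2 * nn A A = (Dl F μ μ' A).re ^ 2 / nn A A := by
        rw [eq_div_iff h2.ne']
        linear_combination (r * nn A A - (Dl F μ μ' A).re) * e1
      rw [e2]
      refine ht.le.trans ?_
      rw [le_div_iff₀ h2]
      calc (Dl F μ μ' A).re ^ 2 * nn A A ≤ (Dl F μ μ' A).re ^ 2 * 1 :=
            mul_le_mul_of_nonneg_left h1 (sq_nonneg _)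
        _ = (Dl F μ μ' A).re ^ 2 := mul_one _

theorem FinA_congr (hμ : IsCur F μ) {A B : V → M3} (h : ∀ y : V, y ≠ 0 → A y = B y) :
    ∫ y, pr F A y ∂μ = ∫ y, pr F B y ∂μ := by
  refine integral_congr_ae ?_
  filter_upwards [hμ.sphere] with y hy
  have hy0 : y ≠ 0 := by
    rintro rfl
    simp [N] at hy
  unfold pr
  rw [h y hy0]

theorem FinA_Bz (hμ : IsCur F μ) {ζ : V → V} (hζ : IsCov ζ) :
    ∫ y, pr F (Bz ζ) y ∂μ = (((∫ y, pr F (db ζ) y ∂μ).re : ℝ) : ℂ) := by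
  have hi := pr_int (form_db hζ) hμ
  have hi2 : Integrable (fun y => conj (pr F (db ζ) y)) μ := by
    refine (pr_int (form_ct (form_db hζ)) hμ).congr (Filter.Eventually.of_forall fun y => ?_)
    exact pr_ct F (db ζ) y
  have h1 : ∀ y, pr F (Bz ζ) y = (1 / 2 : ℂ) * (pr F (db ζ) y + conj (pr F (db ζ) y)) := by
    intro y
    have h2 : pr F (Bz ζ) y = pr F (fun x => (1 / 2 : ℂ) • (db ζ x + (db ζ x)ᴴ)) y := rfl
    rw [h2, FinA_pr_smul (1 / 2 : ℂ) (fun x => db ζ x + (db ζ x)ᴴ) y,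
      FinA_pr_add (db ζ) (fun x => (db ζ x)ᴴ) y, pr_ct]
  rw [integral_congr_ae (Filter.Eventually.of_forall h1), integral_const_mul,
    integral_add hi hi2, integral_conj, Complex.add_conj]
  push_cast
  ring

theorem FinA_re (hμ : IsCur F μ) (hμ' : IsCur F μ')
    (h : ∀ A : V → M3, InH0 A → (Dl F μ μ' A).re = 0) {ζ : V → V} (hζ : IsCov ζ) :
    (Dl F μ μ' (db ζ)).re = 0 := by
  have h1 := h _ (inH0_Bz hζ)
  unfold Dl at h1 ⊢
  rw [FinA_Bz hμ hζ, FinA_Bz hμ' hζ, Complex.sub_re, Complex.ofReal_re, Complex.ofReal_re] at h1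
  rw [Complex.sub_re]
  exact h1

theorem FinA_cov_I {ζ : V → V} (hζ : IsCov ζ) : IsCov (fun x => Complex.I • ζ x) where
  smooth := hζ.smooth.const_smul Complex.I
  hom := by
    intro l x hl
    rw [hζ.hom l x hl, smul_comm]
  kill := by
    intro x hx
    have h := hζ.kill x hx
    have h2 : ∑ j, x j * (Complex.I • ζ x) j = Complex.I * ∑ j, x j * ζ x j := by
      rw [Finset.mul_sum]
      refine Finset.sum_congr rfl fun j _ => ?_
      rw [Pi.smul_apply, smul_eq_mul]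
      ring
    rw [h2, h, mul_zero]

theorem FinA_db_I {ζ : V → V} (hζ : IsCov ζ) {x : V} (hx : x ≠ 0) :
    db (fun x => Complex.I • ζ x) x = Complex.I • db ζ x := by
  ext j k
  rw [Matrix.smul_apply, smul_eq_mul]
  exact dzb_const_mul k Complex.I ((isCov_hom hζ j).diffAt hx)

/-- If the functional vanishes on `H0` then the difference of the currents is closed. -/
theorem closed_of_zero (hμ : IsCur F μ) (hμ' : IsCur F μ')
    (h : ∀ A : V → M3, InH0 A → (Dl F μ μ' A).re = 0) {ζ : V → V} (hζ : IsCov ζ) :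
    ∫ y, pr F (db ζ) y ∂μ = ∫ y, pr F (db ζ) y ∂μ' := by
  have h1 := FinA_re hμ hμ' h hζ
  have h2 := FinA_re hμ hμ' h (FinA_cov_I hζ)
  have h3 : Dl F μ μ' (db (fun x => Complex.I • ζ x)) = Complex.I * Dl F μ μ' (db ζ) := by
    rw [← dl_smul]
    unfold Dl
    rw [FinA_congr hμ fun y hy => FinA_db_I hζ hy, FinA_congr hμ' fun y hy => FinA_db_I hζ hy]
  rw [h3, Complex.I_mul_re] at h2
  have h4 : Dl F μ μ' (db ζ) = 0 := Complex.ext h1 (neg_eq_zero.1 h2)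
  exact sub_eq_zero.1 h4

end Pool.Agent.H85.DC
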