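import Pool.Agent.H85.DC.HFac
import Pool.Agent.H85.DC.GrC
import Pool.Agent.H85.DC.Lin

/-!
# Row Hod: Hodge index inequality

`hodge`. `E ∈ H0`, `f x = (N x) * ((E x).trace).re` is continuous off `0`, of degree `0` (`chom_Ntr`), and
`∫ f dν = ∫ (tr E) N^{-1} wt = qq Wm E = 0` (`integral_nuP`, `ee_Wm`, `E` Hermitian so the trace is real). Given `κ > 0`
take `n` from `green_approx`, `u = green n f` (real conic, `isFun_green`: `f` bounded off `0`, continuous on the open set
`{0}ᶜ` so a.e. strongly measurable). `E_n = E - L u` is a Hermitian form, kills `x`, and `|tr E_n| ≤ κ / N x`.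
`nn E E = nn E_n E_n` (`nn_sub_L`), `(ee E_n E_n).re ≤ (tr E_n)^2/2 ≤ κ^2/(2 N^2)` (`ee_le`), so
`nn E E ≥ -(κ^2/2) ∫ N^{-2} wt = -(κ^2/2)(π^3/2)` (`int_Nm2`) for all `κ > 0`. `decomp` states the decomposition (used later):
`X = L u + (X - L u)` with `|N tr (X - L u)| ≤ κ`.
`nn_cs`: `t ↦ nn (A + t B) (A + t B) = nn A A + 2 t nn A B + t^2 nn B B ≥ 0` for all real `t`: discriminant
(`discrim_le_zero`).
`ta`: for `E ∈ H0`, `ζ` covector: `‖qq E (db ζ)‖^2 ≤ nn E E * (1/4) ∫ curl ζ wt`. For a phase `c` (`|c| = 1`) with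
`c qq E (db ζ) = ‖…‖ real`: `cζ` is a covector, `db (cζ) = c db ζ`, `curl (cζ) = curl ζ` off `0`; apply `nn_cs` to `E`,
`Bz (cζ)` with `nn_Bz_left`, `nn_Bz`.
`hs_split`: for `E ∈ H0` (Hermitian form): `∫ hs E wt = nn E E + ∫ (tr E)^2 wt` (`ee_hs`).
-/

open MeasureTheory
open scoped ContDiff BigOperators ComplexConjugate Matrix

namespace Pool.Agent.H85.DC

theorem Hod_ae_ne : ∀ᵐ x ∂(volume : Measure V), x ≠ 0 := by
  have h : (volume : Measure V) {(0 : V)} = 0 := measure_singleton _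
  exact measure_eq_zero_iff_ae_notMem.mp h

theorem Hod_f_eq (E : V → M3) (y : V) :
    N y * ((E y).trace).re = ((N y : ℂ) * (E y).trace).re := by
  rw [Complex.re_ofReal_mul]

theorem Hod_cont {E : V → M3} (hE : IsForm E) :
    ContinuousOn (fun y => N y * ((E y).trace).re) {0}ᶜ := by
  have h := (chom_Ntr hE).cont
  have h2 : (fun y => N y * ((E y).trace).re) =
      fun y => ((N y : ℂ) * (E y).trace).re := funext (Hod_f_eq E)
  rw [h2]
  exact Complex.continuous_re.comp_continuousOn h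

theorem Hod_hom {E : V → M3} (hE : IsForm E) (l : ℂ) (x : V) (hl : l ≠ 0) :
    (fun y => N y * ((E y).trace).re) (l • x) = (fun y => N y * ((E y).trace).re) x := by
  have h := (chom_Ntr hE).hom l x hl
  simp only [Hod_f_eq]
  rw [h]
  simp

theorem Hod_meas {E : V → M3} (hE : IsForm E) :
    AEStronglyMeasurable (fun y => N y * ((E y).trace).re) (volume : Measure V) := by
  have h1 : MeasurableSet ({0}ᶜ : Set V) := (measurableSet_singleton _).compl
  have h := (Hod_cont hE).aestronglyMeasurable (μ := (volume : Measure V)) h1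
  have h2 : (volume : Measure V).restrict ({0}ᶜ : Set V) = volume :=
    Measure.restrict_eq_self_of_ae_mem (Hod_ae_ne.mono fun x hx => hx)
  rwa [h2] at h

theorem Hod_bdd {E : V → M3} (hE : IsForm E) :
    ∃ b : ℝ, ∀ y : V, y ≠ 0 → |N y * ((E y).trace).re| ≤ b := by
  obtain ⟨C, hC, h⟩ := chom_bound (chom_Ntr hE)
  refine ⟨Real.sqrt C, fun y hy => ?_⟩
  have h1 := h y hy
  rw [add_zero, zpow_zero, mul_one] at h1
  rw [Hod_f_eq]
  exact (Complex.abs_re_le_norm _).trans (Real.le_sqrt_of_sq_le h1)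

theorem Hod_re_int {A B : V → M3} (hA : IsForm A) (hB : IsForm B) :
    (qq A B).re = ∫ x, (ee (A x) (B x)).re * wt x := by
  unfold qq
  have h := integral_re (ee_int hA hB)
  have h2 : ∀ x, RCLike.re (ee (A x) (B x) * (wt x : ℂ)) = (ee (A x) (B x)).re * wt x := by
    intro x
    show (ee (A x) (B x) * (wt x : ℂ)).re = _
    rw [Complex.re_mul_ofReal]
  simp only [h2] at h
  rw [h]
  rfl

theorem Hod_re_integrable {A B : V → M3} (hA : IsForm A) (hB : IsForm B) :
    Integrable (fun x => (ee (A x) (B x)).re * wt x) := by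
  have h := (ee_int hA hB).re
  refine h.congr (Filter.Eventually.of_forall fun x => ?_)
  show (ee (A x) (B x) * (wt x : ℂ)).re = _
  rw [Complex.re_mul_ofReal]

theorem Hod_int_zero {E : V → M3} (hE : InH0 E) :
    ∫ y, N y * ((E y).trace).re ∂nuP = 0 := by
  rw [integral_nuP]
  have h1 : (qq E Wm).re = 0 := by
    rw [qq_comm, hE.mass]
    rfl
  rw [Hod_re_int hE.form form_Wm] at h1
  rw [← h1]
  apply integral_congr_ae
  filter_upwards [Hod_ae_ne] with x hx
  have hN : N x ≠ 0 := (N_pos hx).ne'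
  rw [ee_Wm hE.form hx, Complex.div_ofReal_re]
  field_simp

theorem decomp {E : V → M3} (hE : InH0 E) {κ : ℝ} (hκ : 0 < κ) :
    ∃ n : ℕ, ∀ x : V, x ≠ 0 →
      ‖(N x : ℂ) * (E x - L (green n (fun y => N y * ((E y).trace).re)) x).trace‖ ≤ κ := by
  obtain ⟨n, hn⟩ := green_approx (Hod_cont hE.form) (Hod_hom hE.form) (Hod_int_zero hE) hκ
  refine ⟨n, fun x hx => ?_⟩
  have h := hn x hx
  have h2 : ((E x).trace).im = 0 := Lin_tr_im (hE.herm x hx)
  have h3 : (((E x).trace).re : ℂ) = (E x).trace := by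
    apply Complex.ext
    · simp
    · simp [h2]
  have h4 : (N x : ℂ) * (E x - L (green n (fun y => N y * ((E y).trace).re)) x).trace =
      -((N x : ℂ) * (L (green n (fun y => N y * ((E y).trace).re)) x).trace -
        ((N x * ((E x).trace).re : ℝ) : ℂ)) := by
    rw [Matrix.trace_sub]
    push_cast
    rw [h3]
    ring
  rw [h4, norm_neg]
  exact h

theorem green_E {E : V → M3} (hE : InH0 E) (n : ℕ) :
    IsFun (green n (fun y => N y * ((E y).trace).re)) ∧
      IsRe (green n (fun y => N y * ((E y).trace).re)) := by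
  obtain ⟨b, hb⟩ := Hod_bdd hE.form
  exact ⟨isFun_green n (Hod_meas hE.form) hb, isRe_green n _⟩

theorem Hod_nn_ge {A : V → M3} (hA : IsForm A) (hh : IsHerm A) {κ : ℝ}
    (h : ∀ x : V, x ≠ 0 → ‖(N x : ℂ) * (A x).trace‖ ≤ κ) :
    -(κ ^ 2 / 2 * (Real.pi ^ 3 / 2)) ≤ nn A A := by
  unfold nn
  rw [Hod_re_int hA hA]
  apply neg_le_neg
  rw [← int_Nm2, ← integral_const_mul]
  have h2 : Integrable fun x : V => κ ^ 2 / 2 * (N x ^ (-2 : ℤ) * wt x) := by
    refine Integrable.const_mul ?_ _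
    refine NuA_dens_int.congr (Filter.Eventually.of_forall fun x => ?_)
    show wt x / N x ^ 2 = N x ^ (-2 : ℤ) * wt x
    rw [zpow_neg, div_eq_mul_inv, mul_comm]
    rfl
  refine integral_mono_ae (Hod_re_integrable hA hA) h2 ?_
  filter_upwards [Hod_ae_ne] with x hx
  have hN : 0 < N x := N_pos hx
  have h3 := ee_le (hh x hx) hx (hA.killl x hx)
  have h4 := h x hx
  rw [norm_mul, Complex.norm_real, Real.norm_of_nonneg hN.le] at h4
  have h5 : |((A x).trace).re| ≤ ‖(A x).trace‖ := Complex.abs_re_le_norm _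
  have h6 : N x * |((A x).trace).re| ≤ κ := (mul_le_mul_of_nonneg_left h5 hN.le).trans h4
  have h7 : ((A x).trace).re ^ 2 ≤ κ ^ 2 / N x ^ 2 := by
    rw [le_div_iff₀ (by positivity)]
    have h8 : (N x * |((A x).trace).re|) ^ 2 ≤ κ ^ 2 :=
      pow_le_pow_left₀ (by positivity) h6 2
    rw [mul_pow, sq_abs] at h8
    linarith
  have hw : 0 ≤ wt x := (Real.exp_pos _).le
  have h9 : (ee (A x) (A x)).re ≤ κ ^ 2 / 2 * N x ^ (-2 : ℤ) := by
    have e : κ ^ 2 / 2 * N x ^ (-2 : ℤ) = κ ^ 2 / N x ^ 2 / 2 := by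
      rw [zpow_neg]
      have : N x ^ (2 : ℤ) = N x ^ 2 := rfl
      rw [this]
      ring
    rw [e]
    linarith
  have h10 := mul_le_mul_of_nonneg_right h9 hw
  show (ee (A x) (A x)).re * wt x ≤ κ ^ 2 / 2 * (N x ^ (-2 : ℤ) * wt x)
  linarith

theorem hodge {E : V → M3} (hE : InH0 E) : 0 ≤ nn E E := by
  refine le_of_forall_pos_le_add fun ε hε => ?_
  have hpi : 0 < Real.pi ^ 3 := by positivity
  have hκ : 0 < Real.sqrt (4 * ε / Real.pi ^ 3) := Real.sqrt_pos.mpr (by positivity)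
  obtain ⟨n, hn⟩ := decomp hE hκ
  obtain ⟨hu, ru⟩ := green_E hE n
  have h1 := Hod_nn_ge (form_sub hE.form (form_L hu)) (herm_sub hE.herm (herm_L hu ru)) hn
  rw [nn_sub_L hE.toInH hu ru, Real.sq_sqrt (by positivity)] at h1
  have h2 : 4 * ε / Real.pi ^ 3 / 2 * (Real.pi ^ 3 / 2) = ε := by
    field_simp
    ring
  rw [h2] at h1
  linarith

theorem nn_cs {A B : V → M3} (hA : InH0 A) (hB : InH0 B) :
    (nn A B) ^ 2 ≤ nn A A * nn B B := by
  have h : ∀ t : ℝ, 0 ≤ nn B B * (t * t) + (2 * nn A B) * t + nn A A := by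
    intro t
    have hb := form_smul (t : ℂ) hB.form
    have hS := form_add hA.form hb
    have h0 := hodge (inH0_add hA (inH0_smul t hB))
    have e1 := nn_add_left hA.form hb hS
    have e2 := nn_add_left hA.form hb hA.form
    have e3 := nn_add_left hA.form hb hB.form
    have e4 := nn_smul_left t B (fun x => A x + (t : ℂ) • B x)
    have e5 := nn_smul_left t B A
    have e6 := nn_smul_left t B B
    rw [nn_comm A (fun x => A x + (t : ℂ) • B x), e2, e4, nn_comm B (fun x => A x + (t : ℂ) • B x),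
      e3, e5, e6, nn_comm B A] at e1
    rw [e1] at h0
    linarith
  have hd := discrim_le_zero h
  unfold discrim at hd
  nlinarith

theorem Hod_cov_smul (c : ℂ) {ζ : V → V} (hζ : IsCov ζ) : IsCov (fun x => c • ζ x) := by
  refine ⟨hζ.smooth.const_smul c, ?_, ?_⟩
  · intro l x hl
    rw [hζ.hom l x hl, smul_comm]
  · intro x hx
    have h := hζ.kill x hx
    have h2 : ∀ j, x j * (c • ζ x) j = c * (x j * ζ x j) := by
      intro j
      rw [Pi.smul_apply, smul_eq_mul]
      ring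
    simp only [h2, ← Finset.mul_sum, h, mul_zero]

theorem Hod_db_smul (c : ℂ) {ζ : V → V} (hζ : IsCov ζ) {x : V} (hx : x ≠ 0) :
    db (fun x => c • ζ x) x = c • db ζ x := by
  funext j k
  show dzb k (fun y => c * ζ y j) x = c * dzb k (fun y => ζ y j) x
  exact dzb_const_mul k c ((isCov_hom hζ j).diffAt hx)

theorem Hod_curl_smul {c : ℂ} (hc : Complex.normSq c = 1) {ζ : V → V} (hζ : IsCov ζ) {x : V}
    (hx : x ≠ 0) : curl (fun x => c • ζ x) x = curl ζ x := by
  unfold curl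
  refine Finset.sum_congr rfl fun j _ => Finset.sum_congr rfl fun k _ => ?_
  have h1 : dz k (fun y => (c • ζ y) j) x = c * dz k (fun y => ζ y j) x :=
    dz_const_mul k c ((isCov_hom hζ j).diffAt hx)
  have h2 : dz j (fun y => (c • ζ y) k) x = c * dz j (fun y => ζ y k) x :=
    dz_const_mul j c ((isCov_hom hζ k).diffAt hx)
  rw [h1, h2, ← mul_sub, Complex.normSq_mul, hc, one_mul]

theorem Hod_phase (z : ℂ) : ∃ c : ℂ, Complex.normSq c = 1 ∧ c * z = (‖z‖ : ℂ) := by
  by_cases hz : z = 0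
  · exact ⟨1, by simp, by simp [hz]⟩
  · have hn : (‖z‖ : ℂ) ≠ 0 := by
      exact_mod_cast (norm_pos_iff.mpr hz).ne'
    refine ⟨conj z / (‖z‖ : ℂ), ?_, ?_⟩
    · rw [Complex.normSq_div, Complex.normSq_conj, Complex.normSq_ofReal,
        Complex.normSq_eq_norm_sq, ← pow_two]
      have : ‖z‖ ≠ 0 := by exact_mod_cast hn
      field_simp
    · rw [div_mul_eq_mul_div, Complex.conj_mul']
      field_simp

theorem ta {E : V → M3} (hE : InH0 E) {ζ : V → V} (hζ : IsCov ζ) :
    ‖qq E (db ζ)‖ ^ 2 ≤ nn E E * ((1 / 4) * ∫ x, curl ζ x * wt x) := by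
  obtain ⟨c, hc, hz⟩ := Hod_phase (qq E (db ζ))
  have hcov := Hod_cov_smul c hζ
  have h1 := nn_cs hE (inH0_Bz hcov)
  rw [nn_Bz hcov, nn_Bz_left hE.form hE.herm hcov] at h1
  have h2 : qq E (db fun x => c • ζ x) = (‖qq E (db ζ)‖ : ℂ) := by
    rw [← hz, qq_congr (A := E) (A' := E) (B := db fun x => c • ζ x) (B' := fun x => c • db ζ x)
      (fun _ _ => rfl) (fun x hx => Hod_db_smul c hζ hx), qq_comm, qq_smul_left, qq_comm]
  have h3 : ∫ x, curl (fun x => c • ζ x) x * wt x = ∫ x, curl ζ x * wt x := by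
    apply integral_congr_ae
    filter_upwards [Hod_ae_ne] with x hx
    rw [Hod_curl_smul hc hζ hx]
  rw [h2, h3, Complex.ofReal_re, neg_sq] at h1
  exact h1

theorem hs_split {E : V → M3} (hE : IsForm E) (hh : IsHerm E) :
    ∫ x, hs (E x) * wt x = nn E E + ∫ x, ((E x).trace).re ^ 2 * wt x := by
  unfold nn
  rw [Hod_re_int hE hE]
  have h1 : ∫ x, (ee (E x) (E x)).re * wt x =
      ∫ x, (((E x).trace).re ^ 2 * wt x - hs (E x) * wt x) := by
    apply integral_congr_ae
    filter_upwards [Hod_ae_ne] with x hx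
    rw [ee_hs (hh x hx)]
    ring
  rw [h1, integral_sub (tr_int hE) (hs_int hE)]
  ring

end Pool.Agent.H85.DC
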