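import Pool.Agent.H85.DC.Wv
import Pool.Agent.H85.DC.Lin
import Pool.Agent.H85.DC.HomC

/-!
# Row SmA: the smoothed current is a positive form

`Kx = smK ε y w x = ((kk ε (tau x y)/N x)) * ((N w' + ε^2) (1 - conj(x) x^T/N x) - conj(w') w'^T)`, `w' = perp x w = w - (ip w x/N x) x`,
so `sm F μ ε x j k = ∫ smK ε y (wv F y) x j k dμ(y)` (definitional).
For `N y = 1`, `N w = 1`, `x ≠ 0`, `0 < ε ≤ 1`: `0 ≤ N w' ≤ 1` (`N w' = N w - |ip w x|^2/N x`), `0 ≤ kk ε t ≤ 2 ε^{-4}` for `t ∈ [0,1]` (`π^3 ≥ 1`), so the entries are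
bounded by `6 ε^{-4}·2/N x`, integrable in `y`; measurable in `y` (`measurable_wv`, `measurable_tau`).
`smK_killl`: `∑_j x_j (δ_jk - conj(x_j) x_k/N) = x_k - x_k = 0` and `∑_j x_j conj(w'_j) = conj (ip w' x) = 0` (`ip w' x = ip w x - ip w x = 0`); `smK_killr` the same.
`smK_pos`: `quad` of the bracket at `v`, with `v' = perp x v`: `(N w' + ε^2) N v' - |ip v w'|^2` where `ip v w' = ip v' w'`, `≥ ε^2 N v' ≥ 0` (Cauchy-Schwarz `cs_ip`).
(`∑ (δ_jk - conj(x_j)x_k/N) v_j conj(v_k) = N v - |ip v x|^2/N = N v'`; `∑ conj(w'_j) w'_k v_j conj(v_k) = |ip v w'|^2`.)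
`smK_tr`: trace of the bracket: `2 (N w' + ε^2) - N w' = N w' + 2 ε^2`.
`form_sm`: homogeneity in `x`: `tau (l x) y = tau x y`, `perp (l x) w = perp x w`, `N (l x) = |l|^2 N x` for `l ≠ 0`; `x = 0` gives `0` (division by `0`).
Continuity on `{0}ᶜ`: for fixed `y, w` the entries are continuous in `x ≠ 0`; dominated convergence (locally in `x` the bound `C_ε/N x` is bounded):
`continuousOn_of_dominated` on `{0}ᶜ`, or `continuousAt_of_dominated` at each point.
`herm_sm`, `pos_sm`: integrals of Hermitian (positive) matrices; `tr_sm`: integral of the trace.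
-/

open MeasureTheory
open scoped ContDiff BigOperators ComplexConjugate Matrix

namespace Pool.Agent.H85.DC

/-- The kernel of the smoothing. -/
noncomputable def smK (ε : ℝ) (y w x : V) : M3 := fun j k =>
  ((kk ε (tau x y) / N x : ℝ) : ℂ) *
    (((N (perp x w) + ε ^ 2 : ℝ) : ℂ) * ((if j = k then 1 else 0) - conj (x j) * x k / (N x : ℂ)) -
      conj (perp x w j) * perp x w k)

theorem sm_eq (F : Fin 3 → MvPolynomial (Fin 3) ℂ) (μ : Measure V) (ε : ℝ) (x : V) (j k : Fin 3) :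
    sm F μ ε x j k = ∫ y, smK ε y (wv F y) x j k ∂μ := rfl

theorem SmA_Npos {x : V} (hx : x ≠ 0) : 0 < N x := by
  unfold N
  have h0 : ∀ j ∈ (Finset.univ : Finset (Fin 3)), 0 ≤ Complex.normSq (x j) :=
    fun j _ => Complex.normSq_nonneg _
  refine lt_of_le_of_ne (Finset.sum_nonneg h0) fun h => hx ?_
  have h1 := (Finset.sum_eq_zero_iff_of_nonneg h0).1 h.symm
  funext j
  exact Complex.normSq_eq_zero.1 (h1 j (Finset.mem_univ j))

theorem SmA_Nnn (x : V) : 0 ≤ N x := by
  unfold N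
  exact Finset.sum_nonneg fun j _ => Complex.normSq_nonneg _

theorem SmA_ip_self (x : V) : ip x x = (N x : ℂ) := by
  unfold ip N
  push_cast
  exact Finset.sum_congr rfl fun j _ => Complex.mul_conj (x j)

theorem SmA_ip_sub (x y z : V) : ip (x - y) z = ip x z - ip y z := by
  unfold ip
  rw [← Finset.sum_sub_distrib]
  exact Finset.sum_congr rfl fun j _ => by rw [Pi.sub_apply, sub_mul]

theorem SmA_ip_smul (c : ℂ) (x z : V) : ip (c • x) z = c * ip x z := by
  unfold ip
  rw [Finset.mul_sum]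
  exact Finset.sum_congr rfl fun j _ => by rw [Pi.smul_apply, smul_eq_mul, mul_assoc]

theorem SmA_ip_conj (x y : V) : conj (ip x y) = ip y x := by
  unfold ip
  rw [map_sum]
  exact Finset.sum_congr rfl fun j _ => by rw [map_mul, Complex.conj_conj, mul_comm]

theorem SmA_ip_sub_right (x y z : V) : ip x (y - z) = ip x y - ip x z := by
  rw [← SmA_ip_conj, SmA_ip_sub, map_sub, SmA_ip_conj, SmA_ip_conj]

theorem SmA_ip_smul_right (c : ℂ) (x z : V) : ip x (c • z) = conj c * ip x z := by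
  rw [← SmA_ip_conj, SmA_ip_smul, map_mul, SmA_ip_conj]

theorem SmA_ip_mul_conj (x y : V) : ip x y * ip y x = (Complex.normSq (ip x y) : ℂ) := by
  rw [← SmA_ip_conj x y, Complex.mul_conj]

theorem perp_orth {x w : V} (hx : x ≠ 0) : ip (perp x w) x = 0 := by
  have hN : (N x : ℂ) ≠ 0 := by exact_mod_cast (SmA_Npos hx).ne'
  unfold perp
  rw [SmA_ip_sub, SmA_ip_smul, SmA_ip_self]
  field_simp
  ring

theorem SmA_perp_ip {x w v : V} (hx : x ≠ 0) :
    ip (perp x w) v = ip w v - ip w x * ip x v / (N x : ℂ) := by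
  unfold perp
  rw [SmA_ip_sub, SmA_ip_smul]
  ring

theorem perp_le {x w : V} (hx : x ≠ 0) : N (perp x w) = N w - Complex.normSq (ip w x) / N x := by
  have h1 : ip (perp x w) (perp x w) = ip (perp x w) w := by
    conv_lhs => rw [show perp x w = w - (ip w x / (N x : ℂ)) • x from rfl]
    rw [← show perp x w = w - (ip w x / (N x : ℂ)) • x from rfl]
    rw [show ip (perp x w) (perp x w) = ip (perp x w) (w - (ip w x / (N x : ℂ)) • x) from rfl,
      SmA_ip_sub_right, SmA_ip_smul_right, perp_orth hx, mul_zero, sub_zero]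
  have h2 : ((N (perp x w) : ℝ) : ℂ) = ((N w - Complex.normSq (ip w x) / N x : ℝ) : ℂ) := by
    rw [← SmA_ip_self, h1, SmA_perp_ip hx, SmA_ip_mul_conj, SmA_ip_self]
    push_cast
    ring
  exact_mod_cast h2

theorem kk_nonneg {ε t : ℝ} (ht : t ≤ 1) : 0 ≤ kk ε t := by
  unfold kk
  have h1 : 0 ≤ 1 - t + ε ^ 2 := by nlinarith [sq_nonneg ε]
  have h2 : 0 < Real.exp (-t / ε ^ 2) := Real.exp_pos _
  have h3 : 0 ≤ Real.pi ^ 3 * ε ^ 4 := by
    have := Real.pi_pos
    positivity
  exact div_nonneg (mul_nonneg h1 h2.le) h3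

theorem kk_le {ε t : ℝ} (hε : 0 < ε) (h1 : ε ≤ 1) (h0 : 0 ≤ t) :
    kk ε t ≤ 2 * ε⁻¹ ^ 4 * Real.exp (-t / ε ^ 2) := by
  unfold kk
  have h2 : 0 < Real.exp (-t / ε ^ 2) := Real.exp_pos _
  have h3 : 1 - t + ε ^ 2 ≤ 2 := by nlinarith
  have hpi : 1 ≤ Real.pi ^ 3 := by
    have := Real.pi_gt_three
    exact one_le_pow₀ (by linarith)
  have h4 : (0 : ℝ) < ε ^ 4 := by positivity
  calc (1 - t + ε ^ 2) * Real.exp (-t / ε ^ 2) / (Real.pi ^ 3 * ε ^ 4)
      ≤ 2 * Real.exp (-t / ε ^ 2) / (Real.pi ^ 3 * ε ^ 4) := by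
        gcongr
    _ ≤ 2 * Real.exp (-t / ε ^ 2) / (1 * ε ^ 4) := by
        gcongr
    _ = 2 * ε⁻¹ ^ 4 * Real.exp (-t / ε ^ 2) := by
        field_simp

theorem SmA_kk_le2 {ε t : ℝ} (hε : 0 < ε) (h1 : ε ≤ 1) (h0 : 0 ≤ t) :
    kk ε t ≤ 2 * ε⁻¹ ^ 4 := by
  refine (kk_le hε h1 h0).trans ?_
  have h2 : Real.exp (-t / ε ^ 2) ≤ 1 := by
    rw [Real.exp_le_one_iff]
    have : 0 ≤ t / ε ^ 2 := by positivity
    rw [neg_div]
    linarith
  have h3 : (0 : ℝ) ≤ 2 * ε⁻¹ ^ 4 := by positivity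
  nlinarith

theorem SmA_N_smul (l : ℂ) (x : V) : N (l • x) = Complex.normSq l * N x := by
  unfold N
  rw [Finset.mul_sum]
  exact Finset.sum_congr rfl fun j _ => by rw [Pi.smul_apply, smul_eq_mul, Complex.normSq_mul]

theorem SmA_perp_smul {l : ℂ} (hl : l ≠ 0) (x w : V) : perp (l • x) w = perp x w := by
  unfold perp
  congr 1
  rw [SmA_ip_smul_right, SmA_N_smul, smul_smul]
  congr 1
  have hl2 : conj l ≠ 0 := (map_ne_zero _).2 hl
  rw [Complex.ofReal_mul, ← Complex.mul_conj]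
  field_simp

theorem SmA_cont_N : Continuous N := continuous_N

theorem SmA_cont_perp (w : V) : ContinuousOn (fun x => perp x w) {0}ᶜ := by
  have h2 : Continuous fun x : V => ip w x := by
    unfold ip
    refine continuous_finsetSum _ fun j _ => ?_
    have h1 : Continuous fun a : V => conj (a j) :=
      Complex.continuous_conj.comp (continuous_apply j)
    exact continuous_const.mul h1
  have h3 : ContinuousOn (fun x : V => ip w x / (N x : ℂ)) {0}ᶜ := by
    refine ContinuousOn.div h2.continuousOn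
      (Complex.continuous_ofReal.comp continuous_N).continuousOn ?_
    intro x hx
    exact_mod_cast (SmA_Npos hx).ne'
  show ContinuousOn (fun x : V => w - (ip w x / (N x : ℂ)) • x) {0}ᶜ
  exact continuousOn_const.sub (h3.smul continuousOn_id)

theorem SmA_sum_a {x : V} (hx : x ≠ 0) (k : Fin 3) :
    ∑ j, x j * ((if j = k then 1 else 0) - conj (x j) * x k / (N x : ℂ)) = 0 := by
  have hN : (N x : ℂ) ≠ 0 := by exact_mod_cast (SmA_Npos hx).ne'
  have h1 : ∑ j, x j * conj (x j) = (N x : ℂ) := SmA_ip_self x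
  have h2 : ∑ j, x j * ((if j = k then 1 else 0) - conj (x j) * x k / (N x : ℂ))
      = ∑ j, (if j = k then x j else 0) - (∑ j, x j * conj (x j)) * (x k / (N x : ℂ)) := by
    rw [Finset.sum_mul, ← Finset.sum_sub_distrib]
    refine Finset.sum_congr rfl fun j _ => ?_
    split_ifs <;> ring
  rw [h2, h1, Finset.sum_ite_eq' Finset.univ k, if_pos (Finset.mem_univ k)]
  field_simp
  ring

theorem SmA_sum_b {x : V} (hx : x ≠ 0) (j : Fin 3) :
    ∑ k, ((if j = k then 1 else 0) - conj (x j) * x k / (N x : ℂ)) * conj (x k) = 0 := by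
  have hN : (N x : ℂ) ≠ 0 := by exact_mod_cast (SmA_Npos hx).ne'
  have h1 : ∑ j, x j * conj (x j) = (N x : ℂ) := SmA_ip_self x
  have h2 : ∑ k, ((if j = k then 1 else 0) - conj (x j) * x k / (N x : ℂ)) * conj (x k)
      = ∑ k, (if j = k then conj (x k) else 0) - (∑ j, x j * conj (x j)) * (conj (x j) / (N x : ℂ)) := by
    rw [Finset.sum_mul, ← Finset.sum_sub_distrib]
    refine Finset.sum_congr rfl fun k _ => ?_
    split_ifs <;> ring
  rw [h2, h1, Finset.sum_ite_eq Finset.univ j, if_pos (Finset.mem_univ j)]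
  field_simp
  ring

theorem SmA_smK_apply (ε : ℝ) (y w x : V) (j k : Fin 3) : smK ε y w x j k =
    ((kk ε (tau x y) / N x : ℝ) : ℂ) *
    (((N (perp x w) + ε ^ 2 : ℝ) : ℂ) * ((if j = k then 1 else 0) - conj (x j) * x k / (N x : ℂ)) -
      conj (perp x w j) * perp x w k) := rfl

theorem SmA_hom (ε : ℝ) (y w : V) (l : ℂ) (x : V) (hl : l ≠ 0) :
    smK ε y w (l • x) = ((Complex.normSq l : ℂ))⁻¹ • smK ε y w x := by
  ext j k
  rw [Matrix.smul_apply, SmA_smK_apply, SmA_smK_apply, tau_smul_left hl, SmA_perp_smul hl,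
    SmA_N_smul, smul_eq_mul]
  have hl2 : (Complex.normSq l : ℂ) ≠ 0 := by
    exact_mod_cast (Complex.normSq_pos.2 hl).ne'
  by_cases hx : x = 0
  · subst hx
    have h0 : N (0 : V) = 0 := by simp [N]
    rw [h0]
    simp
  have hN : (N x : ℂ) ≠ 0 := by exact_mod_cast (SmA_Npos hx).ne'
  have h3 : conj ((l • x) j) * (l • x) k = (Complex.normSq l : ℂ) * (conj (x j) * x k) := by
    rw [Pi.smul_apply, Pi.smul_apply, smul_eq_mul, smul_eq_mul, map_mul, ← Complex.mul_conj]
    ring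
  rw [h3]
  push_cast
  field_simp

theorem SmA_cont (ε : ℝ) (y w : V) (j k : Fin 3) : ContinuousOn (fun x => smK ε y w x j k) {0}ᶜ := by
  have hNc : ContinuousOn (fun x : V => (N x : ℂ)) {0}ᶜ :=
    (Complex.continuous_ofReal.comp continuous_N).continuousOn
  have hN0 : ∀ x ∈ ({0}ᶜ : Set V), (N x : ℂ) ≠ 0 := fun x hx => by
    exact_mod_cast (SmA_Npos hx).ne'
  have hp := SmA_cont_perp w
  have hpj : ∀ i : Fin 3, ContinuousOn (fun x => perp x w i) {0}ᶜ := fun i =>
    (continuous_apply i).comp_continuousOn hp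
  have hkk : Continuous (kk ε) := by
    unfold kk
    fun_prop
  have h1 : ContinuousOn (fun x : V => kk ε (tau x y) / N x) {0}ᶜ := by
    refine ContinuousOn.div (hkk.comp_continuousOn (continuousOn_tau y)) continuous_N.continuousOn ?_
    intro x hx
    exact (SmA_Npos hx).ne'
  have h2 : ContinuousOn (fun x : V => N (perp x w) + ε ^ 2) {0}ᶜ :=
    (continuous_N.comp_continuousOn hp).add continuousOn_const
  have h3 : ContinuousOn (fun x : V => ((if j = k then 1 else 0) - conj (x j) * x k / (N x : ℂ))) {0}ᶜ := by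
    refine ContinuousOn.sub continuousOn_const (ContinuousOn.div ?_ hNc hN0)
    exact ((Complex.continuous_conj.comp (continuous_apply j)).mul (continuous_apply k)).continuousOn
  show ContinuousOn (fun x => ((kk ε (tau x y) / N x : ℝ) : ℂ) *
    (((N (perp x w) + ε ^ 2 : ℝ) : ℂ) * ((if j = k then 1 else 0) - conj (x j) * x k / (N x : ℂ)) -
      conj (perp x w j) * perp x w k)) {0}ᶜ
  exact (Complex.continuous_ofReal.comp_continuousOn h1).mul
    (((Complex.continuous_ofReal.comp_continuousOn h2).mul h3).sub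
      ((Complex.continuous_conj.comp_continuousOn (hpj j)).mul (hpj k)))

theorem SmA_killl {ε : ℝ} (y w : V) {x : V} (hx : x ≠ 0) (k : Fin 3) :
    ∑ j, x j * smK ε y w x j k = 0 := by
  have h1 : ∑ j, x j * conj (perp x w j) = 0 := by
    have h := perp_orth (w := w) hx
    have h2 : conj (ip (perp x w) x) = 0 := by rw [h, map_zero]
    rw [SmA_ip_conj] at h2
    exact h2
  have h2 : ∑ j, x j * smK ε y w x j k = ((kk ε (tau x y) / N x : ℝ) : ℂ) *
      (((N (perp x w) + ε ^ 2 : ℝ) : ℂ) *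
        (∑ j, x j * ((if j = k then 1 else 0) - conj (x j) * x k / (N x : ℂ))) -
      (∑ j, x j * conj (perp x w j)) * perp x w k) := by
    rw [Finset.mul_sum, Finset.sum_mul, ← Finset.sum_sub_distrib, Finset.mul_sum]
    refine Finset.sum_congr rfl fun j _ => ?_
    rw [SmA_smK_apply]
    ring
  rw [h2, SmA_sum_a hx, h1]
  ring

theorem SmA_killr {ε : ℝ} (y w : V) {x : V} (hx : x ≠ 0) (j : Fin 3) :
    ∑ k, smK ε y w x j k * conj (x k) = 0 := by
  have h1 : ∑ k, perp x w k * conj (x k) = 0 := perp_orth (w := w) hx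
  have h2 : ∑ k, smK ε y w x j k * conj (x k) = ((kk ε (tau x y) / N x : ℝ) : ℂ) *
      (((N (perp x w) + ε ^ 2 : ℝ) : ℂ) *
        (∑ k, ((if j = k then 1 else 0) - conj (x j) * x k / (N x : ℂ)) * conj (x k)) -
      conj (perp x w j) * (∑ k, perp x w k * conj (x k))) := by
    rw [Finset.mul_sum, Finset.mul_sum, ← Finset.sum_sub_distrib, Finset.mul_sum]
    refine Finset.sum_congr rfl fun k _ => ?_
    rw [SmA_smK_apply]
    ring
  rw [h2, SmA_sum_b hx, h1]
  ring

theorem smK_form {ε : ℝ} (y w : V) : IsForm (smK ε y w) where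
  cont := by
    refine continuousOn_pi.2 fun j => continuousOn_pi.2 fun k => SmA_cont ε y w j k
  hom := SmA_hom ε y w
  killl := fun x hx k => SmA_killl y w hx k
  killr := fun x hx j => SmA_killr y w hx j

theorem smK_herm {ε : ℝ} (y w : V) : IsHerm (smK ε y w) := by
  intro x hx
  ext j k
  rw [Matrix.conjTranspose_apply, SmA_smK_apply, SmA_smK_apply]
  show conj _ = _
  rw [map_mul, map_sub, map_mul, map_sub, map_div₀, map_mul, map_mul, Complex.conj_ofReal,
    Complex.conj_ofReal, Complex.conj_ofReal, Complex.conj_conj, Complex.conj_conj]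
  have h1 : conj (if k = j then (1 : ℂ) else 0) = if j = k then 1 else 0 := by
    by_cases h : j = k
    · rw [if_pos h, if_pos h.symm, map_one]
    · rw [if_neg h, if_neg (Ne.symm h), map_zero]
  rw [h1]
  ring

theorem SmA_quad {ε : ℝ} (y w : V) {x : V} (hx : x ≠ 0) (v : V) :
    quad (smK ε y w x) v = ((kk ε (tau x y) / N x *
      ((N (perp x w) + ε ^ 2) * N (perp x v) - Complex.normSq (ip v (perp x w))) : ℝ) : ℂ) := by
  have hN : (N x : ℂ) ≠ 0 := by exact_mod_cast (SmA_Npos hx).ne'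
  have e1 : ∑ j, ∑ k, (if j = k then (1 : ℂ) else 0) * v j * conj (v k) = (N v : ℂ) := by
    rw [← SmA_ip_self]
    unfold ip
    refine Finset.sum_congr rfl fun j _ => ?_
    rw [Finset.sum_eq_single j]
    · rw [if_pos rfl, one_mul]
    · intro k _ hk
      rw [if_neg (Ne.symm hk)]
      ring
    · intro h
      exact absurd (Finset.mem_univ j) h
  have e2 : ∑ j, ∑ k, (conj (x j) * x k) * v j * conj (v k) = (Complex.normSq (ip v x) : ℂ) := by
    rw [← SmA_ip_mul_conj]
    unfold ip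
    rw [Finset.sum_mul_sum]
    refine Finset.sum_congr rfl fun j _ => Finset.sum_congr rfl fun k _ => ?_
    ring
  have e3 : ∑ j, ∑ k, (conj (perp x w j) * perp x w k) * v j * conj (v k)
      = (Complex.normSq (ip v (perp x w)) : ℂ) := by
    rw [← SmA_ip_mul_conj]
    unfold ip
    rw [Finset.sum_mul_sum]
    refine Finset.sum_congr rfl fun j _ => Finset.sum_congr rfl fun k _ => ?_
    ring
  have e4 : quad (smK ε y w x) v = ((kk ε (tau x y) / N x : ℝ) : ℂ) *
      (((N (perp x w) + ε ^ 2 : ℝ) : ℂ) *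
        (∑ j, ∑ k, (if j = k then (1 : ℂ) else 0) * v j * conj (v k) -
          (∑ j, ∑ k, (conj (x j) * x k) * v j * conj (v k)) / (N x : ℂ)) -
        ∑ j, ∑ k, (conj (perp x w j) * perp x w k) * v j * conj (v k)) := by
    unfold quad
    rw [Finset.sum_div, ← Finset.sum_sub_distrib, Finset.mul_sum, ← Finset.sum_sub_distrib,
      Finset.mul_sum]
    refine Finset.sum_congr rfl fun j _ => ?_
    rw [Finset.sum_div, ← Finset.sum_sub_distrib, Finset.mul_sum, ← Finset.sum_sub_distrib,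
      Finset.mul_sum]
    refine Finset.sum_congr rfl fun k _ => ?_
    rw [SmA_smK_apply]
    ring
  rw [e4, e1, e2, e3, perp_le (w := v) hx]
  push_cast
  ring

theorem smK_pos {ε : ℝ} (y w : V) {x : V} (hx : x ≠ 0) (v : V) :
    0 ≤ (quad (smK ε y w x) v).re := by
  rw [SmA_quad y w hx v, Complex.ofReal_re]
  have h1 : 0 ≤ kk ε (tau x y) / N x := div_nonneg (kk_nonneg (tau_le_one x y)) (SmA_Nnn x)
  have h2 : ip v (perp x w) = ip (perp x v) (perp x w) := by
    have h3 : ip x (perp x w) = 0 := by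
      rw [← SmA_ip_conj, perp_orth hx, map_zero]
    unfold perp at h3 ⊢
    rw [SmA_ip_sub v, SmA_ip_smul, h3]
    ring
  have h4 := cs_ip (perp x v) (perp x w)
  rw [← h2] at h4
  refine mul_nonneg h1 ?_
  have h5 : 0 ≤ ε ^ 2 * N (perp x v) := mul_nonneg (sq_nonneg ε) (SmA_Nnn _)
  nlinarith

theorem smK_tr {ε : ℝ} (y w : V) {x : V} (hx : x ≠ 0) :
    (smK ε y w x).trace = ((kk ε (tau x y) / N x * (N (perp x w) + 2 * ε ^ 2) : ℝ) : ℂ) := by
  have hN : (N x : ℂ) ≠ 0 := by exact_mod_cast (SmA_Npos hx).ne'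
  have h1 : ∑ j, x j * conj (x j) = (N x : ℂ) := SmA_ip_self x
  have h2 : ∑ j, perp x w j * conj (perp x w j) = (N (perp x w) : ℂ) := SmA_ip_self _
  have h3 : (smK ε y w x).trace = ((kk ε (tau x y) / N x : ℝ) : ℂ) *
      (((N (perp x w) + ε ^ 2 : ℝ) : ℂ) * (3 - (∑ j, x j * conj (x j)) / (N x : ℂ)) -
        ∑ j, perp x w j * conj (perp x w j)) := by
    unfold Matrix.trace
    have h4 : (3 : ℂ) = ∑ j : Fin 3, 1 := by simp
    rw [h4, Finset.sum_div, ← Finset.sum_sub_distrib, Finset.mul_sum, ← Finset.sum_sub_distrib,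
      Finset.mul_sum]
    refine Finset.sum_congr rfl fun j _ => ?_
    rw [Matrix.diag_apply, SmA_smK_apply, if_pos rfl]
    ring
  rw [h3, h1, h2, div_self hN]
  push_cast
  ring

theorem SmA_normSq_le (x : V) (j : Fin 3) : Complex.normSq (x j) ≤ N x := by
  unfold N
  exact Finset.single_le_sum (f := fun j => Complex.normSq (x j))
    (fun j _ => Complex.normSq_nonneg _) (Finset.mem_univ j)

theorem SmA_norm_mul (x : V) (j k : Fin 3) : ‖conj (x j) * x k‖ ≤ N x := by
  have h1 := SmA_normSq_le x j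
  have h2 := SmA_normSq_le x k
  rw [Complex.normSq_eq_norm_sq] at h1 h2
  rw [norm_mul, Complex.norm_conj]
  nlinarith [sq_nonneg (‖x j‖ - ‖x k‖)]

theorem smK_bound {ε : ℝ} (hε : 0 < ε) (h1 : ε ≤ 1) {y w x : V} (hw : N w ≤ 1)
    (hx : x ≠ 0) (j k : Fin 3) : ‖smK ε y w x j k‖ ≤ 12 * ε⁻¹ ^ 4 / N x := by
  have hNp := SmA_Npos hx
  have hkk := SmA_kk_le2 hε h1 (tau_nonneg x y)
  have hkk0 : 0 ≤ kk ε (tau x y) := kk_nonneg (tau_le_one x y)
  have hp1 : N (perp x w) ≤ 1 := by
    rw [perp_le hx]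
    have : 0 ≤ Complex.normSq (ip w x) / N x := div_nonneg (Complex.normSq_nonneg _) hNp.le
    linarith
  have hp0 := SmA_Nnn (perp x w)
  have h2 : ‖((kk ε (tau x y) / N x : ℝ) : ℂ)‖ ≤ 2 * ε⁻¹ ^ 4 / N x := by
    rw [Complex.norm_real, Real.norm_of_nonneg (div_nonneg hkk0 hNp.le)]
    gcongr
  have h3 : ‖((if j = k then 1 else 0) - conj (x j) * x k / (N x : ℂ))‖ ≤ 2 := by
    refine (norm_sub_le _ _).trans ?_
    have h4 : ‖(if j = k then (1 : ℂ) else 0)‖ ≤ 1 := by
      split_ifs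
      · rw [norm_one]
      · rw [norm_zero]; norm_num
    have h5 : ‖conj (x j) * x k / (N x : ℂ)‖ ≤ 1 := by
      rw [norm_div, Complex.norm_real, Real.norm_of_nonneg hNp.le, div_le_one hNp]
      exact SmA_norm_mul x j k
    linarith
  have h6 : ‖((N (perp x w) + ε ^ 2 : ℝ) : ℂ)‖ ≤ 2 := by
    rw [Complex.norm_real, Real.norm_of_nonneg (by positivity)]
    nlinarith
  have h7 : ‖conj (perp x w j) * perp x w k‖ ≤ 1 := (SmA_norm_mul _ j k).trans hp1
  have h8 : ‖((N (perp x w) + ε ^ 2 : ℝ) : ℂ) *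
      ((if j = k then 1 else 0) - conj (x j) * x k / (N x : ℂ)) -
      conj (perp x w j) * perp x w k‖ ≤ 6 := by
    refine (norm_sub_le _ _).trans ?_
    rw [norm_mul]
    have := mul_le_mul h6 h3 (norm_nonneg _) (by norm_num : (0 : ℝ) ≤ 2)
    linarith
  rw [SmA_smK_apply, norm_mul]
  calc _ ≤ (2 * ε⁻¹ ^ 4 / N x) * 6 := mul_le_mul h2 h8 (norm_nonneg _) (by positivity)
    _ = 12 * ε⁻¹ ^ 4 / N x := by ring

theorem smK_meas (F : Fin 3 → MvPolynomial (Fin 3) ℂ) (ε : ℝ) (j k : Fin 3) :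
    Measurable (fun q : V × V => smK ε q.2 (wv F q.2) q.1 j k) := by
  have hw : Measurable (fun q : V × V => wv F q.2) := (measurable_wv F).comp measurable_snd
  have hwj : ∀ i : Fin 3, Measurable (fun q : V × V => wv F q.2 i) := fun i =>
    (measurable_pi_apply i).comp hw
  have hxj : ∀ i : Fin 3, Measurable (fun q : V × V => q.1 i) := fun i =>
    (measurable_pi_apply i).comp measurable_fst
  have hconj : Measurable (fun z : ℂ => conj z) := Complex.continuous_conj.measurable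
  have hNx : Measurable (fun q : V × V => N q.1) := continuous_N.measurable.comp measurable_fst
  have hNxc : Measurable (fun q : V × V => (N q.1 : ℂ)) := Complex.measurable_ofReal.comp hNx
  have hip : Measurable (fun q : V × V => ip (wv F q.2) q.1) := by
    unfold ip
    exact Finset.measurable_sum _ fun i _ => (hwj i).mul (hconj.comp (hxj i))
  have hpj : ∀ i : Fin 3, Measurable (fun q : V × V => perp q.1 (wv F q.2) i) := by
    intro i
    have h1 : (fun q : V × V => perp q.1 (wv F q.2) i) = fun q : V × V =>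
        wv F q.2 i - ip (wv F q.2) q.1 / (N q.1 : ℂ) * q.1 i := rfl
    rw [h1]
    exact (hwj i).sub ((hip.div hNxc).mul (hxj i))
  have hp : Measurable (fun q : V × V => perp q.1 (wv F q.2)) := measurable_pi_iff.2 hpj
  have hNp : Measurable (fun q : V × V => N (perp q.1 (wv F q.2))) := continuous_N.measurable.comp hp
  have hkk : Continuous (kk ε) := by
    unfold kk
    fun_prop
  have h1 : Measurable (fun q : V × V => kk ε (tau q.1 q.2) / N q.1) :=
    (hkk.measurable.comp measurable_tau).div hNx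
  show Measurable (fun q : V × V => ((kk ε (tau q.1 q.2) / N q.1 : ℝ) : ℂ) *
    (((N (perp q.1 (wv F q.2)) + ε ^ 2 : ℝ) : ℂ) *
      ((if j = k then 1 else 0) - conj (q.1 j) * q.1 k / (N q.1 : ℂ)) -
      conj (perp q.1 (wv F q.2) j) * perp q.1 (wv F q.2) k))
  exact (Complex.measurable_ofReal.comp h1).mul
    (((Complex.measurable_ofReal.comp (hNp.add measurable_const)).mul
      (measurable_const.sub (((hconj.comp (hxj j)).mul (hxj k)).div hNxc))).sub
      ((hconj.comp (hpj j)).mul (hpj k)))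

theorem SmA_unit {F : Fin 3 → MvPolynomial (Fin 3) ℂ} {μ : Measure V} (hμ : IsCur F μ) :
    ∀ᵐ y ∂μ, N (wv F y) ≤ 1 := by
  filter_upwards [hμ.sphere, hμ.sing] with y h1 h2
  exact (wv_unit h1 h2).le

theorem SmA_finite {F : Fin 3 → MvPolynomial (Fin 3) ℂ} {μ : Measure V} (hμ : IsCur F μ) :
    IsFiniteMeasure μ := ⟨by rw [hμ.prob]; exact ENNReal.one_lt_top⟩

theorem SmA_meas1 (F : Fin 3 → MvPolynomial (Fin 3) ℂ) (ε : ℝ) (j k : Fin 3) (x : V) :
    Measurable (fun y : V => smK ε y (wv F y) x j k) := by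
  have h0 : Measurable (fun y : V => ((x, y) : V × V)) := measurable_const.prodMk measurable_id
  have h := (smK_meas F ε j k).comp h0
  exact h

theorem SmA_int {F : Fin 3 → MvPolynomial (Fin 3) ℂ} {μ : Measure V} (hμ : IsCur F μ) {ε : ℝ}
    (hε : 0 < ε) (h1 : ε ≤ 1) {x : V} (hx : x ≠ 0) (j k : Fin 3) :
    Integrable (fun y : V => smK ε y (wv F y) x j k) μ := by
  have := SmA_finite hμ
  refine Integrable.of_bound (SmA_meas1 F ε j k x).aestronglyMeasurable (12 * ε⁻¹ ^ 4 / N x) ?_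
  filter_upwards [SmA_unit hμ] with y hy
  exact smK_bound hε h1 hy hx j k

theorem SmA_contAt {F : Fin 3 → MvPolynomial (Fin 3) ℂ} {μ : Measure V} (hμ : IsCur F μ) {ε : ℝ}
    (hε : 0 < ε) (h1 : ε ≤ 1) (j k : Fin 3) {x : V} (hx : x ≠ 0) :
    ContinuousAt (fun x => sm F μ ε x j k) x := by
  have := SmA_finite hμ
  have hNp := SmA_Npos hx
  have hnear : ∀ᶠ z in nhds x, N x / 2 < N z := by
    refine continuous_N.continuousAt.eventually_const_lt ?_
    linarith
  have h2 : (fun x => sm F μ ε x j k) = fun x => ∫ y, smK ε y (wv F y) x j k ∂μ := rfl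
  rw [h2]
  refine MeasureTheory.continuousAt_of_dominated (bound := fun _ => 12 * ε⁻¹ ^ 4 / (N x / 2))
    ?_ ?_ ?_ ?_
  · exact Filter.Eventually.of_forall fun z => (SmA_meas1 F ε j k z).aestronglyMeasurable
  · filter_upwards [hnear] with z hz
    filter_upwards [SmA_unit hμ] with y hy
    have hz0 : z ≠ 0 := by
      rintro rfl
      have h0 : N (0 : V) = 0 := by simp [N]
      rw [h0] at hz
      linarith
    refine (smK_bound hε h1 hy hz0 j k).trans ?_
    gcongr
  · exact integrable_const _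
  · refine Filter.Eventually.of_forall fun y => ?_
    exact (SmA_cont ε y (wv F y) j k).continuousAt (isOpen_compl_singleton.mem_nhds hx)

theorem form_sm {F : Fin 3 → MvPolynomial (Fin 3) ℂ} {μ : Measure V} (hμ : IsCur F μ) {ε : ℝ}
    (hε : 0 < ε) (h1 : ε ≤ 1) : IsForm (sm F μ ε) where
  cont := by
    refine continuousOn_pi.2 fun j => continuousOn_pi.2 fun k => ?_
    intro x hx
    exact (SmA_contAt hμ hε h1 j k hx).continuousWithinAt
  hom := by
    intro l x hl
    ext j k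
    rw [Matrix.smul_apply, sm_eq, sm_eq, smul_eq_mul, ← integral_const_mul]
    congr 1
    funext y
    rw [SmA_hom ε y (wv F y) l x hl, Matrix.smul_apply, smul_eq_mul]
  killl := by
    intro x hx k
    have h2 : ∀ j, x j * sm F μ ε x j k = ∫ y, x j * smK ε y (wv F y) x j k ∂μ := fun j => by
      rw [sm_eq, integral_const_mul]
    simp only [h2]
    rw [← integral_finsetSum _ fun j _ => (SmA_int hμ hε h1 hx j k).const_mul (x j)]
    simp only [SmA_killl _ _ hx k]
    exact integral_zero _ _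
  killr := by
    intro x hx j
    have h2 : ∀ k, sm F μ ε x j k * conj (x k) = ∫ y, smK ε y (wv F y) x j k * conj (x k) ∂μ :=
      fun k => by rw [sm_eq, integral_mul_const]
    simp only [h2]
    rw [← integral_finsetSum _ fun k _ => (SmA_int hμ hε h1 hx j k).mul_const (conj (x k))]
    simp only [SmA_killr _ _ hx j]
    exact integral_zero _ _

theorem herm_sm {F : Fin 3 → MvPolynomial (Fin 3) ℂ} {μ : Measure V} (hμ : IsCur F μ) {ε : ℝ}
    (hε : 0 < ε) (h1 : ε ≤ 1) : IsHerm (sm F μ ε) := by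
  intro x hx
  ext j k
  rw [Matrix.conjTranspose_apply, sm_eq, sm_eq]
  show conj _ = _
  rw [← integral_conj]
  congr 1
  funext y
  have h2 := (smK_herm (ε := ε) y (wv F y) x hx)
  have h3 := congrFun (congrFun h2 j) k
  rw [Matrix.conjTranspose_apply] at h3
  exact h3

theorem pos_sm {F : Fin 3 → MvPolynomial (Fin 3) ℂ} {μ : Measure V} (hμ : IsCur F μ) {ε : ℝ}
    (hε : 0 < ε) (h1 : ε ≤ 1) {x : V} (hx : x ≠ 0) (v : V) :
    0 ≤ (quad (sm F μ ε x) v).re := by
  have hint : ∀ j k, Integrable (fun y => smK ε y (wv F y) x j k * v j * conj (v k)) μ := fun j k =>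
    ((SmA_int hμ hε h1 hx j k).mul_const (v j)).mul_const (conj (v k))
  have h2 : quad (sm F μ ε x) v = ∫ y, quad (smK ε y (wv F y) x) v ∂μ := by
    unfold quad
    rw [integral_finsetSum _ fun j _ => integrable_finsetSum _ fun k _ => hint j k]
    refine Finset.sum_congr rfl fun j _ => ?_
    rw [integral_finsetSum _ fun k _ => hint j k]
    refine Finset.sum_congr rfl fun k _ => ?_
    rw [sm_eq, integral_mul_const, integral_mul_const]
  have h3 : ∀ y, quad (smK ε y (wv F y) x) v = (((quad (smK ε y (wv F y) x) v).re : ℝ) : ℂ) := by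
    intro y
    rw [SmA_quad y (wv F y) hx v, Complex.ofReal_re]
  have h4 : ∫ y, quad (smK ε y (wv F y) x) v ∂μ
      = ∫ y, (((quad (smK ε y (wv F y) x) v).re : ℝ) : ℂ) ∂μ :=
    integral_congr_ae (Filter.Eventually.of_forall h3)
  rw [h2, h4, integral_complex_ofReal, Complex.ofReal_re]
  exact integral_nonneg fun y => smK_pos y (wv F y) hx v

theorem tr_sm {F : Fin 3 → MvPolynomial (Fin 3) ℂ} {μ : Measure V} (hμ : IsCur F μ) {ε : ℝ}
    (hε : 0 < ε) (h1 : ε ≤ 1) {x : V} (hx : x ≠ 0) :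
    (sm F μ ε x).trace =
      ((∫ y, kk ε (tau x y) / N x * (N (perp x (wv F y)) + 2 * ε ^ 2) ∂μ : ℝ) : ℂ) := by
  rw [← integral_complex_ofReal]
  have h2 : ∀ y, ((kk ε (tau x y) / N x * (N (perp x (wv F y)) + 2 * ε ^ 2) : ℝ) : ℂ)
      = ∑ j, smK ε y (wv F y) x j j := fun y => (smK_tr y (wv F y) hx).symm
  simp_rw [h2]
  rw [integral_finsetSum _ fun j _ => SmA_int hμ hε h1 hx j j]
  rfl

theorem tr_sm_le {F : Fin 3 → MvPolynomial (Fin 3) ℂ} {μ : Measure V} (hμ : IsCur F μ) {ε : ℝ}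
    (hε : 0 < ε) (h1 : ε ≤ 1) {x : V} (hx : x ≠ 0) :
    N x * ((sm F μ ε x).trace).re ≤ 3 * ∫ y, kk ε (tau x y) ∂μ := by
  have := SmA_finite hμ
  have hNp := SmA_Npos hx
  have hkk : Continuous (kk ε) := by
    unfold kk
    fun_prop
  have hkm : Measurable (fun y : V => kk ε (tau x y)) := by
    have h0 : Measurable (fun y : V => ((x, y) : V × V)) := measurable_const.prodMk measurable_id
    have h := hkk.measurable.comp (measurable_tau.comp h0)
    exact h
  have hki : Integrable (fun y : V => kk ε (tau x y)) μ := by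
    refine Integrable.of_bound hkm.aestronglyMeasurable (2 * ε⁻¹ ^ 4) ?_
    refine Filter.Eventually.of_forall fun y => ?_
    rw [Real.norm_of_nonneg (kk_nonneg (tau_le_one x y))]
    exact SmA_kk_le2 hε h1 (tau_nonneg x y)
  rw [tr_sm hμ hε h1 hx, Complex.ofReal_re, ← integral_const_mul, ← integral_const_mul]
  refine integral_mono_of_nonneg ?_ (hki.const_mul 3) ?_
  · refine Filter.Eventually.of_forall fun y => ?_
    have h2 : 0 ≤ kk ε (tau x y) := kk_nonneg (tau_le_one x y)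
    have h3 := SmA_Nnn (perp x (wv F y))
    show 0 ≤ N x * (kk ε (tau x y) / N x * (N (perp x (wv F y)) + 2 * ε ^ 2))
    positivity
  · filter_upwards [SmA_unit hμ] with y hy
    have h2 : 0 ≤ kk ε (tau x y) := kk_nonneg (tau_le_one x y)
    have hp1 : N (perp x (wv F y)) ≤ 1 := by
      rw [perp_le hx]
      have : 0 ≤ Complex.normSq (ip (wv F y) x) / N x := div_nonneg (Complex.normSq_nonneg _) hNp.le
      linarith
    have h4 : N x * (kk ε (tau x y) / N x * (N (perp x (wv F y)) + 2 * ε ^ 2))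
        = kk ε (tau x y) * (N (perp x (wv F y)) + 2 * ε ^ 2) := by
      field_simp
    show N x * (kk ε (tau x y) / N x * (N (perp x (wv F y)) + 2 * ε ^ 2)) ≤ 3 * kk ε (tau x y)
    rw [h4]
    have h5 : N (perp x (wv F y)) + 2 * ε ^ 2 ≤ 3 := by nlinarith
    calc kk ε (tau x y) * (N (perp x (wv F y)) + 2 * ε ^ 2) ≤ kk ε (tau x y) * 3 :=
          mul_le_mul_of_nonneg_left h5 h2
      _ = 3 * kk ε (tau x y) := by ring

end Pool.Agent.H85.DC
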