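import Pool.Agent.H85.DC.NuB
import Pool.Agent.H85.DC.SmA

/-!
# Row Ker: kernel estimates

All `x, y, z` nonzero, `0 < ε ≤ 1`; `kk ε t ≤ 2 ε^{-4} e^{-t/ε^2}` (`kk_le`); `d = √tau` is a metric (`tau_metric`). Use `NuB`: `nu_sing`, `nu_far`, `nu_exp`.
`K0`: `∫ kk ε (tau y z) dν ≤ 2 ε^{-4} π^3 ε^4` (`nu_exp`, `a = ε^2`, `tau_symm`).
`K1`: `I(x,z) = ∫ tau(x,y)^{-3/2} kk ε (tau y z) dν(y)`.
(a) `I ≤ C ε^{-3}`: on `tau(x,y) < ε^2`: `kk ≤ 2 ε^{-4}`, `∫_{τ<ε^2} τ^{-3/2} ≤ 2π^3 ε`; on `tau(x,y) ≥ ε^2`: `τ^{-3/2} ≤ ε^{-3}` and `K0`.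
(b) `I ≤ C tau(x,z)^{-3/2}` (`a := tau x z > 0`): where `tau(y,z) < a/4`, `√tau(x,y) ≥ √a/2`, so `τ(x,y)^{-3/2} ≤ 8 a^{-3/2}`, `K0`; where `tau(y,z) ≥ a/4`:
`kk ε (tau y z) ≤ 2 ε^{-4} e^{-a/(8ε^2)} e^{-tau(y,z)/(2ε^2)}`, and as in (a) `∫ τ(x,y)^{-3/2} ε^{-4} e^{-τ(y,z)/(2ε^2)} dν ≤ C ε^{-3}`, and `ε^{-3} e^{-a/(8ε^2)} ≤ C a^{-3/2}`.
Combine: if `a ≤ ε^2` use (a): `ε^{-3} ≤ 2^{3/2} (a + ε^2)^{-3/2}`; otherwise (b): `a^{-3/2} ≤ 2^{3/2}(a + ε^2)^{-3/2}`.
`K2`: `J = ∫ (tau(x,z)+ε^2)^{-3/2}(tau(x,z')+ε^2)^{-3/2} dν(x)`, `a = tau z z'`, `b = max (a/4) ε^2`. Three regions: (i) `tau(x,z) < b`: the second factor is `≤ b^{-3/2}` (if `b = a/4`: `√tau(x,z') ≥ √a - √b = √b`;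
if `b = ε^2`: it is `≤ ε^{-3}`), the first `≤ τ(x,z)^{-3/2}`, `nu_sing`: `≤ b^{-3/2} 2π^3 √b = 2π^3/b`. (ii) `tau(x,z') < b`: symmetric. (iii) both `≥ b`: product `≤ (τ(x,z)^{-3} + τ(x,z')^{-3})/2`, `nu_far`: `≤ π^3/b`.
Total `≤ 5π^3/b` and `b ≥ (a + ε^2)/5`.
`K3`: for `tau` small: `∫_{tau(x,p) < s} kk ε (tau x y) dν(x)` is at most `C` always (`K0`) and at most `2ε^{-4} e^{-s/ε^2} π^3/2` if `tau(y,p) ≥ 4 s`
(`√tau(x,y) ≥ 2√s - √s`).
-/

open MeasureTheory
open scoped ContDiff BigOperators ComplexConjugate Matrix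

namespace Pool.Agent.H85.DC

theorem Ker_mr (z : V) : Measurable fun y : V => tau y z := by
  have h0 : Measurable fun y : V => (y, z) := measurable_id.prodMk measurable_const
  have h := measurable_tau.comp h0
  exact h

theorem Ker_ml (z : V) : Measurable fun y : V => tau z y := by
  have h0 : Measurable fun y : V => (z, y) := measurable_const.prodMk measurable_id
  have h := measurable_tau.comp h0
  exact h

theorem Ker_zero (z : V) : tau 0 z = 1 := by
  simp [tau, ip, N]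

theorem Ker_split (f : V → ENNReal) (A : Set V) :
    ∫⁻ y, f y ∂nuP ≤ ∫⁻ y in A, f y ∂nuP + ∫⁻ y in Aᶜ, f y ∂nuP := by
  calc ∫⁻ y, f y ∂nuP = ∫⁻ y in A ∪ Aᶜ, f y ∂nuP := by
        rw [Set.union_compl_self, Measure.restrict_univ]
    _ ≤ _ := lintegral_union_le f A Aᶜ

theorem Ker_cm {S : Set V} (hS : MeasurableSet S) {f g : V → ℝ} {c : ℝ} (hc : 0 ≤ c)
    (h : ∀ᵐ y ∂nuP, y ∈ S → f y ≤ c * g y) :
    ∫⁻ y in S, ENNReal.ofReal (f y) ∂nuP ≤
      ENNReal.ofReal c * ∫⁻ y in S, ENNReal.ofReal (g y) ∂nuP := by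
  rw [← lintegral_const_mul' _ _ ENNReal.ofReal_ne_top]
  refine setLIntegral_mono_ae' hS ?_
  filter_upwards [h] with y hy hyS
  rw [← ENNReal.ofReal_mul hc]
  exact ENNReal.ofReal_le_ofReal (hy hyS)

theorem Ker_exp {z : V} (hz : z ≠ 0) {a : ℝ} (ha : 0 < a) (S : Set V) :
    ∫⁻ y in S, ENNReal.ofReal (Real.exp (-(tau y z) / a)) ∂nuP ≤
      ENNReal.ofReal (Real.pi ^ 3 * a ^ 2) := by
  refine (setLIntegral_le_lintegral _ _).trans ?_
  rw [show (fun y => ENNReal.ofReal (Real.exp (-(tau y z) / a))) =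
    fun y => ENNReal.ofReal (Real.exp (-(tau z y) / a)) from funext fun y => by rw [tau_symm]]
  exact nu_exp hz ha

theorem Ker_kk {ε t : ℝ} (hε : 0 < ε) (h1 : ε ≤ 1) (h0 : 0 ≤ t) :
    kk ε t ≤ 2 * ((ε ^ 2) ^ 2)⁻¹ * Real.exp (-t / ε ^ 2) := by
  have h := kk_le hε h1 h0
  have e : ε⁻¹ ^ 4 = ((ε ^ 2) ^ 2)⁻¹ := by
    rw [inv_pow, ← pow_mul]
  rwa [e] at h

theorem Ker_K0 {ε : ℝ} {z : V} (hε : 0 < ε) (h1 : ε ≤ 1) (hz : z ≠ 0) (S : Set V) :
    ∫⁻ y in S, ENNReal.ofReal (kk ε (tau y z)) ∂nuP ≤ ENNReal.ofReal (2 * Real.pi ^ 3) := by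
  refine (setLIntegral_le_lintegral _ _).trans ?_
  rw [← setLIntegral_univ]
  have hc : 0 ≤ 2 * ((ε ^ 2) ^ 2)⁻¹ := by positivity
  calc ∫⁻ y in Set.univ, ENNReal.ofReal (kk ε (tau y z)) ∂nuP
      ≤ ENNReal.ofReal (2 * ((ε ^ 2) ^ 2)⁻¹) *
        ∫⁻ y in Set.univ, ENNReal.ofReal (Real.exp (-(tau y z) / ε ^ 2)) ∂nuP :=
        Ker_cm MeasurableSet.univ hc (Filter.Eventually.of_forall fun y _ =>
          Ker_kk hε h1 (tau_nonneg y z))
    _ ≤ ENNReal.ofReal (2 * ((ε ^ 2) ^ 2)⁻¹) * ENNReal.ofReal (Real.pi ^ 3 * (ε ^ 2) ^ 2) := by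
        gcongr
        exact Ker_exp hz (by positivity) _
    _ = ENNReal.ofReal (2 * Real.pi ^ 3) := by
        rw [← ENNReal.ofReal_mul hc]
        congr 1
        field_simp

theorem Ker_rp {s : ℝ} (hs : 0 < s) : s ^ (-(3 / 2) : ℝ) * s ^ 2 = Real.sqrt s := by
  rw [Real.sqrt_eq_rpow, ← Real.rpow_natCast s 2, ← Real.rpow_add hs]
  norm_num

theorem Ker_rp2 {s : ℝ} (hs : 0 < s) : (s ^ 2)⁻¹ * Real.sqrt s = s ^ (-(3 / 2) : ℝ) := by
  rw [← Ker_rp hs]
  field_simp

theorem Ker_q4 {t : ℝ} (ht : 0 ≤ t) : (t / 4) ^ (-(3 / 2) : ℝ) = 8 * t ^ (-(3 / 2) : ℝ) := by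
  rw [Real.div_rpow ht (by norm_num)]
  have h4 : (4 : ℝ) ^ (-(3 / 2) : ℝ) = 1 / 8 := by
    rw [show (4 : ℝ) = 2 ^ (2 : ℝ) by norm_num, ← Real.rpow_mul (by norm_num)]
    rw [show (2 * (-(3 / 2)) : ℝ) = -((3 : ℕ) : ℝ) by norm_num, Real.rpow_neg (by norm_num),
      Real.rpow_natCast]
    norm_num
  rw [h4]
  ring

theorem Ker_anti {s t : ℝ} (hs : 0 < s) (h : s ≤ t) :
    t ^ (-(3 / 2) : ℝ) ≤ s ^ (-(3 / 2) : ℝ) :=
  Real.rpow_le_rpow_of_nonpos hs h (by norm_num)

theorem Ker_S {x z : V} (hx : x ≠ 0) (hz : z ≠ 0) {s δ : ℝ} (hs : 0 < s) (hδ : 0 < δ)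
    (hδs : δ ≤ 2 * s) (S : Set V) :
    ∫⁻ y in S, ENNReal.ofReal ((tau x y) ^ (-(3 / 2) : ℝ) * Real.exp (-(tau y z) / δ)) ∂nuP ≤
      ENNReal.ofReal (6 * Real.pi ^ 3 * Real.sqrt s) := by
  refine (setLIntegral_le_lintegral _ _).trans ?_
  have hA : MeasurableSet {y : V | tau x y < s} := measurableSet_lt (Ker_ml x) measurable_const
  refine (Ker_split _ {y : V | tau x y < s}).trans ?_
  have e1 : ∫⁻ y in {y : V | tau x y < s},
      ENNReal.ofReal ((tau x y) ^ (-(3 / 2) : ℝ) * Real.exp (-(tau y z) / δ)) ∂nuP ≤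
      ENNReal.ofReal (2 * Real.pi ^ 3 * Real.sqrt s) := by
    refine (setLIntegral_mono' hA fun y _ => ENNReal.ofReal_le_ofReal ?_).trans (nu_sing hx hs.le)
    refine mul_le_of_le_one_right (Real.rpow_nonneg (tau_nonneg _ _) _) ?_
    rw [Real.exp_le_one_iff]
    exact div_nonpos_of_nonpos_of_nonneg (neg_nonpos.2 (tau_nonneg _ _)) hδ.le
  have hsp : 0 ≤ s ^ (-(3 / 2) : ℝ) := Real.rpow_nonneg hs.le _
  have e2 : ∫⁻ y in {y : V | tau x y < s}ᶜ,
      ENNReal.ofReal ((tau x y) ^ (-(3 / 2) : ℝ) * Real.exp (-(tau y z) / δ)) ∂nuP ≤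
      ENNReal.ofReal (4 * Real.pi ^ 3 * Real.sqrt s) := by
    calc ∫⁻ y in {y : V | tau x y < s}ᶜ,
        ENNReal.ofReal ((tau x y) ^ (-(3 / 2) : ℝ) * Real.exp (-(tau y z) / δ)) ∂nuP
        ≤ ENNReal.ofReal (s ^ (-(3 / 2) : ℝ)) *
          ∫⁻ y in {y : V | tau x y < s}ᶜ, ENNReal.ofReal (Real.exp (-(tau y z) / δ)) ∂nuP :=
          Ker_cm hA.compl hsp (Filter.Eventually.of_forall fun y hy => by
            have h1 : s ≤ tau x y := not_lt.1 hy
            exact mul_le_mul_of_nonneg_right (Ker_anti hs h1) (Real.exp_pos _).le)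
      _ ≤ ENNReal.ofReal (s ^ (-(3 / 2) : ℝ)) * ENNReal.ofReal (Real.pi ^ 3 * δ ^ 2) := by
          gcongr
          exact Ker_exp hz hδ _
      _ = ENNReal.ofReal (s ^ (-(3 / 2) : ℝ) * (Real.pi ^ 3 * δ ^ 2)) := (ENNReal.ofReal_mul hsp).symm
      _ ≤ ENNReal.ofReal (4 * Real.pi ^ 3 * Real.sqrt s) := by
          apply ENNReal.ofReal_le_ofReal
          rw [← Ker_rp hs]
          have h2 : δ ^ 2 ≤ (2 * s) ^ 2 := pow_le_pow_left₀ hδ.le hδs 2
          have h3 : 0 ≤ s ^ (-(3 / 2) : ℝ) * Real.pi ^ 3 := by positivity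
          calc s ^ (-(3 / 2) : ℝ) * (Real.pi ^ 3 * δ ^ 2) =
              (s ^ (-(3 / 2) : ℝ) * Real.pi ^ 3) * δ ^ 2 := by ring
            _ ≤ (s ^ (-(3 / 2) : ℝ) * Real.pi ^ 3) * (2 * s) ^ 2 := mul_le_mul_of_nonneg_left h2 h3
            _ = _ := by ring
  calc _ ≤ ENNReal.ofReal (2 * Real.pi ^ 3 * Real.sqrt s) +
        ENNReal.ofReal (4 * Real.pi ^ 3 * Real.sqrt s) := add_le_add e1 e2
    _ = ENNReal.ofReal (6 * Real.pi ^ 3 * Real.sqrt s) := by
        rw [← ENNReal.ofReal_add (by positivity) (by positivity)]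
        congr 1
        ring

theorem Ker_tri {x y z : V} (hx : x ≠ 0) (hy : y ≠ 0) (hz : z ≠ 0) {a : ℝ} (ha0 : 0 ≤ a)
    (ha : a ≤ tau x z) (h : tau y z ≤ a / 4) : a / 4 ≤ tau x y := by
  have h1 := tau_metric hx hy hz
  have h2 : Real.sqrt a ≤ Real.sqrt (tau x z) := Real.sqrt_le_sqrt ha
  have h3 : (Real.sqrt a) ^ 2 = a := Real.sq_sqrt ha0
  have h4 : Real.sqrt (tau y z) ≤ Real.sqrt a / 2 := by
    rw [Real.sqrt_le_left (by positivity)]
    rw [div_pow, h3]
    linarith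
  have h5 : Real.sqrt a / 2 ≤ Real.sqrt (tau x y) := by linarith
  have h6 : (Real.sqrt a / 2) ^ 2 ≤ (Real.sqrt (tau x y)) ^ 2 :=
    pow_le_pow_left₀ (by positivity) h5 2
  rw [Real.sq_sqrt (tau_nonneg x y), div_pow, h3] at h6
  linarith

theorem K0 : ∃ C : ℝ, 0 < C ∧ ∀ (ε : ℝ) (z : V), 0 < ε → ε ≤ 1 → z ≠ 0 →
    ∫⁻ y, ENNReal.ofReal (kk ε (tau y z)) ∂nuP ≤ ENNReal.ofReal C := by
  refine ⟨2 * Real.pi ^ 3, by positivity, fun ε z hε h1 hz => ?_⟩
  rw [← setLIntegral_univ]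
  exact Ker_K0 hε h1 hz _

theorem K1 : ∃ C : ℝ, 0 < C ∧ ∀ (ε : ℝ) (x z : V), 0 < ε → ε ≤ 1 → x ≠ 0 → z ≠ 0 →
    ∫⁻ y, ENNReal.ofReal ((tau x y) ^ (-(3 / 2) : ℝ) * kk ε (tau y z)) ∂nuP ≤
      ENNReal.ofReal (C * (tau x z + ε ^ 2) ^ (-(3 / 2) : ℝ)) := by
  refine ⟨12416 * Real.pi ^ 3, by positivity, fun ε x z hε h1 hx hz => ?_⟩
  have hs : 0 < ε ^ 2 := by positivity
  have hk : ∀ y, kk ε (tau y z) ≤ 2 * ((ε ^ 2) ^ 2)⁻¹ * Real.exp (-(tau y z) / ε ^ 2) := fun y =>
    Ker_kk hε h1 (tau_nonneg y z)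
  set s := ε ^ 2 with hsdef
  set a := tau x z with ha
  have ha0 : 0 ≤ a := tau_nonneg x z
  have hpi : 0 < Real.pi ^ 3 := by positivity
  have hs2 := Ker_rp2 hs
  have hsp : 0 < s ^ (-(3 / 2) : ℝ) := Real.rpow_pos_of_pos hs _
  have hasp : 0 < (a + s) ^ (-(3 / 2) : ℝ) := Real.rpow_pos_of_pos (by linarith) _
  rcases le_or_gt a s with has | has
  · rw [← setLIntegral_univ]
    calc ∫⁻ y in Set.univ, ENNReal.ofReal ((tau x y) ^ (-(3 / 2) : ℝ) * kk ε (tau y z)) ∂nuP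
        ≤ ENNReal.ofReal (2 * (s ^ 2)⁻¹) * ∫⁻ y in Set.univ,
          ENNReal.ofReal ((tau x y) ^ (-(3 / 2) : ℝ) * Real.exp (-(tau y z) / s)) ∂nuP := by
          refine Ker_cm MeasurableSet.univ (by positivity) (Filter.Eventually.of_forall fun y _ => ?_)
          have h2 := mul_le_mul_of_nonneg_left (hk y)
            (Real.rpow_nonneg (tau_nonneg x y) (-(3 / 2) : ℝ))
          refine h2.trans (le_of_eq ?_)
          ring
      _ ≤ ENNReal.ofReal (2 * (s ^ 2)⁻¹) * ENNReal.ofReal (6 * Real.pi ^ 3 * Real.sqrt s) := by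
          gcongr
          exact Ker_S hx hz hs hs (by linarith) _
      _ = ENNReal.ofReal (12 * Real.pi ^ 3 * s ^ (-(3 / 2) : ℝ)) := by
          rw [← ENNReal.ofReal_mul (by positivity), ← hs2]
          congr 1
          ring
      _ ≤ ENNReal.ofReal (12416 * Real.pi ^ 3 * (a + s) ^ (-(3 / 2) : ℝ)) := by
          apply ENNReal.ofReal_le_ofReal
          have h2 : s ^ (-(3 / 2) : ℝ) ≤ 8 * (a + s) ^ (-(3 / 2) : ℝ) := by
            rw [← Ker_q4 (by linarith)]
            exact Ker_anti (by linarith) (by linarith)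
          have h3 : 12 * Real.pi ^ 3 * s ^ (-(3 / 2) : ℝ) ≤
              12 * Real.pi ^ 3 * (8 * (a + s) ^ (-(3 / 2) : ℝ)) :=
            mul_le_mul_of_nonneg_left h2 (by positivity)
          have h4 : 0 < Real.pi ^ 3 * (a + s) ^ (-(3 / 2) : ℝ) := by positivity
          nlinarith
  · have hB : MeasurableSet {y : V | tau y z < a / 4} :=
      measurableSet_lt (Ker_mr z) measurable_const
    have hap : 0 < a := hs.trans has
    have hapr : 0 < a ^ (-(3 / 2) : ℝ) := Real.rpow_pos_of_pos hap _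
    refine (Ker_split _ {y : V | tau y z < a / 4}).trans ?_
    have e1 : ∫⁻ y in {y : V | tau y z < a / 4},
        ENNReal.ofReal ((tau x y) ^ (-(3 / 2) : ℝ) * kk ε (tau y z)) ∂nuP ≤
        ENNReal.ofReal (16 * Real.pi ^ 3 * a ^ (-(3 / 2) : ℝ)) := by
      calc ∫⁻ y in {y : V | tau y z < a / 4},
          ENNReal.ofReal ((tau x y) ^ (-(3 / 2) : ℝ) * kk ε (tau y z)) ∂nuP
          ≤ ENNReal.ofReal (8 * a ^ (-(3 / 2) : ℝ)) * ∫⁻ y in {y : V | tau y z < a / 4},
            ENNReal.ofReal (kk ε (tau y z)) ∂nuP := by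
            refine Ker_cm hB (by positivity) (Filter.Eventually.of_forall fun y hy => ?_)
            have hy' : tau y z < a / 4 := hy
            have hy0 : y ≠ 0 := by
              rintro rfl
              rw [Ker_zero] at hy'
              have := tau_le_one x z
              linarith
            have h2 := Ker_tri hx hy0 hz ha0 le_rfl hy'.le
            rw [← Ker_q4 ha0]
            exact mul_le_mul_of_nonneg_right (Ker_anti (by linarith) h2) (kk_nonneg (tau_le_one y z))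
        _ ≤ ENNReal.ofReal (8 * a ^ (-(3 / 2) : ℝ)) * ENNReal.ofReal (2 * Real.pi ^ 3) := by
            gcongr
            exact Ker_K0 hε h1 hz _
        _ = _ := by
            rw [← ENNReal.ofReal_mul (by positivity)]
            congr 1
            ring
    have e2 : ∫⁻ y in {y : V | tau y z < a / 4}ᶜ,
        ENNReal.ofReal ((tau x y) ^ (-(3 / 2) : ℝ) * kk ε (tau y z)) ∂nuP ≤
        ENNReal.ofReal (1536 * Real.pi ^ 3 * a ^ (-(3 / 2) : ℝ)) := by
      calc ∫⁻ y in {y : V | tau y z < a / 4}ᶜ,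
          ENNReal.ofReal ((tau x y) ^ (-(3 / 2) : ℝ) * kk ε (tau y z)) ∂nuP
          ≤ ENNReal.ofReal (2 * (s ^ 2)⁻¹ * Real.exp (-a / (8 * s))) *
            ∫⁻ y in {y : V | tau y z < a / 4}ᶜ,
            ENNReal.ofReal ((tau x y) ^ (-(3 / 2) : ℝ) * Real.exp (-(tau y z) / (2 * s))) ∂nuP := by
            refine Ker_cm hB.compl (by positivity) (Filter.Eventually.of_forall fun y hy => ?_)
            have hy' : a / 4 ≤ tau y z := not_lt.1 hy
            have h2 : Real.exp (-(tau y z) / s) ≤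
                Real.exp (-a / (8 * s)) * Real.exp (-(tau y z) / (2 * s)) := by
              rw [← Real.exp_add, Real.exp_le_exp]
              rw [div_add_div _ _ (by positivity) (by positivity),
                div_le_div_iff₀ hs (by positivity)]
              nlinarith [mul_pos hs hs, mul_pos (mul_pos hs hs) hs,
                mul_le_mul_of_nonneg_left hy' (mul_pos hs hs).le]
            have h3 : kk ε (tau y z) ≤ 2 * (s ^ 2)⁻¹ *
                (Real.exp (-a / (8 * s)) * Real.exp (-(tau y z) / (2 * s))) :=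
              (hk y).trans (mul_le_mul_of_nonneg_left h2 (by positivity))
            have h4 := mul_le_mul_of_nonneg_left h3
              (Real.rpow_nonneg (tau_nonneg x y) (-(3 / 2) : ℝ))
            refine h4.trans (le_of_eq ?_)
            ring
        _ ≤ ENNReal.ofReal (2 * (s ^ 2)⁻¹ * Real.exp (-a / (8 * s))) *
              ENNReal.ofReal (6 * Real.pi ^ 3 * Real.sqrt s) := by
            gcongr
            exact Ker_S hx hz hs (by positivity) le_rfl _
        _ = ENNReal.ofReal (12 * Real.pi ^ 3 * (s ^ (-(3 / 2) : ℝ) * Real.exp (-a / (8 * s)))) := by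
            rw [← ENNReal.ofReal_mul (by positivity), ← hs2]
            congr 1
            ring
        _ ≤ _ := by
            apply ENNReal.ofReal_le_ofReal
            have h5 : s ^ (-(3 / 2) : ℝ) * Real.exp (-a / (8 * s)) ≤ 128 * a ^ (-(3 / 2) : ℝ) := by
              set w := a / s with hw
              have hw1 : 1 ≤ w := by
                rw [hw, le_div_iff₀ hs]
                linarith
              have hasw : a = w * s := by
                rw [hw]
                field_simp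
              have h6 : -a / (8 * s) = -(w / 8) := by
                rw [hasw]
                field_simp
              have h7 : w ^ 2 / 128 ≤ Real.exp (w / 8) := by
                have h8 := Real.quadratic_le_exp_of_nonneg (x := w / 8) (by linarith)
                nlinarith
              have h9 : Real.exp (-(w / 8)) ≤ 128 * w ^ (-(3 / 2) : ℝ) := by
                have h10 : (w ^ 2)⁻¹ ≤ w ^ (-(3 / 2) : ℝ) := by
                  rw [← Real.rpow_natCast w 2, ← Real.rpow_neg (by linarith)]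
                  exact Real.rpow_le_rpow_of_exponent_le hw1 (by norm_num)
                rw [Real.exp_neg]
                have h11 : (Real.exp (w / 8))⁻¹ ≤ (w ^ 2 / 128)⁻¹ :=
                  inv_anti₀ (by positivity) h7
                have h12 : (w ^ 2 / 128)⁻¹ = 128 * (w ^ 2)⁻¹ := by
                  field_simp
                rw [h12] at h11
                linarith
              rw [h6, hasw, Real.mul_rpow (by linarith) hs.le]
              have h13 := mul_le_mul_of_nonneg_left h9 hsp.le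
              linarith
            have h6 := mul_le_mul_of_nonneg_left h5 (show 0 ≤ 12 * Real.pi ^ 3 by positivity)
            linarith
    calc _ ≤ ENNReal.ofReal (16 * Real.pi ^ 3 * a ^ (-(3 / 2) : ℝ)) +
          ENNReal.ofReal (1536 * Real.pi ^ 3 * a ^ (-(3 / 2) : ℝ)) := add_le_add e1 e2
      _ = ENNReal.ofReal (1552 * Real.pi ^ 3 * a ^ (-(3 / 2) : ℝ)) := by
          rw [← ENNReal.ofReal_add (by positivity) (by positivity)]
          congr 1
          ring
      _ ≤ _ := by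
          apply ENNReal.ofReal_le_ofReal
          have h2 : a ^ (-(3 / 2) : ℝ) ≤ 8 * (a + s) ^ (-(3 / 2) : ℝ) := by
            rw [← Ker_q4 (by linarith)]
            exact Ker_anti (by linarith) (by linarith)
          have h3 := mul_le_mul_of_nonneg_left h2 (show 0 ≤ 1552 * Real.pi ^ 3 by positivity)
          linarith

theorem Ker_i {z z' : V} (hz : z ≠ 0) (hz' : z' ≠ 0) {s b : ℝ} (hs : 0 < s)
    (hb : b = max (tau z z' / 4) s) :
    ∫⁻ x in {x | tau x z < b}, ENNReal.ofReal ((tau x z + s) ^ (-(3 / 2) : ℝ) *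
        (tau x z' + s) ^ (-(3 / 2) : ℝ)) ∂nuP ≤ ENNReal.ofReal (2 * Real.pi ^ 3 / b) := by
  have hb0 : 0 < b := by
    rw [hb]
    exact lt_of_lt_of_le hs (le_max_right _ _)
  have hbp : 0 < b ^ (-(3 / 2) : ℝ) := Real.rpow_pos_of_pos hb0 _
  have hm : MeasurableSet {x : V | tau x z < b} := measurableSet_lt (Ker_mr z) measurable_const
  calc ∫⁻ x in {x | tau x z < b}, ENNReal.ofReal ((tau x z + s) ^ (-(3 / 2) : ℝ) *
        (tau x z' + s) ^ (-(3 / 2) : ℝ)) ∂nuP
      ≤ ENNReal.ofReal (b ^ (-(3 / 2) : ℝ)) * ∫⁻ x in {x | tau x z < b},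
        ENNReal.ofReal ((tau z x) ^ (-(3 / 2) : ℝ)) ∂nuP := by
        refine Ker_cm hm hbp.le ?_
        have hne : ∀ᵐ x ∂nuP, x ≠ 0 := by
          refine nuP_ac.ae_le ?_
          exact (Set.countable_singleton (0 : V)).ae_notMem _
        filter_upwards [nu_tau_pos hz, hne] with x hpos hx0 hxb
        have h1 : (tau x z + s) ^ (-(3 / 2) : ℝ) ≤ (tau z x) ^ (-(3 / 2) : ℝ) := by
          refine Ker_anti hpos ?_
          rw [tau_symm z x]
          linarith
        have h2 : b ≤ tau x z' + s := by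
          rcases le_total (tau z z' / 4) s with h | h
          · rw [hb, max_eq_right h]
            linarith [tau_nonneg x z']
          · have hxb' : tau x z < tau z z' / 4 := by
              have : tau x z < b := hxb
              rwa [hb, max_eq_left h] at this
            have h3 := Ker_tri (x := z') (y := x) (z := z) hz' hx0 hz (a := tau z z')
              (tau_nonneg _ _) (by rw [tau_symm]) hxb'.le
            rw [tau_symm z' x] at h3
            rw [hb, max_eq_left h]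
            linarith
        have h4 : (tau x z' + s) ^ (-(3 / 2) : ℝ) ≤ b ^ (-(3 / 2) : ℝ) := Ker_anti hb0 h2
        rw [mul_comm (b ^ (-(3 / 2) : ℝ))]
        exact mul_le_mul h1 h4 (Real.rpow_nonneg (by linarith [tau_nonneg x z']) _)
          (Real.rpow_nonneg (tau_nonneg _ _) _)
    _ ≤ ENNReal.ofReal (b ^ (-(3 / 2) : ℝ)) * ENNReal.ofReal (2 * Real.pi ^ 3 * Real.sqrt b) := by
        gcongr
        have h5 : {x : V | tau x z < b} = {x : V | tau z x < b} := by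
          ext x
          show tau x z < b ↔ tau z x < b
          rw [tau_symm]
        rw [h5]
        exact nu_sing hz hb0.le
    _ = ENNReal.ofReal (2 * Real.pi ^ 3 / b) := by
        rw [← ENNReal.ofReal_mul hbp.le]
        congr 1
        have h6 := Ker_rp2 hb0
        have h7 : Real.sqrt b * Real.sqrt b = b := Real.mul_self_sqrt hb0.le
        rw [← h6]
        have h8 : (b ^ 2)⁻¹ * Real.sqrt b * (2 * Real.pi ^ 3 * Real.sqrt b) =
            (b ^ 2)⁻¹ * (2 * Real.pi ^ 3) * (Real.sqrt b * Real.sqrt b) := by ring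
        rw [h8, h7]
        field_simp

theorem KK2 : ∃ C : ℝ, 0 < C ∧ ∀ (ε : ℝ) (z z' : V), 0 < ε → ε ≤ 1 → z ≠ 0 → z' ≠ 0 →
    ∫⁻ x, ENNReal.ofReal ((tau x z + ε ^ 2) ^ (-(3 / 2) : ℝ) *
        (tau x z' + ε ^ 2) ^ (-(3 / 2) : ℝ)) ∂nuP ≤
      ENNReal.ofReal (C * (tau z z' + ε ^ 2)⁻¹) := by
  refine ⟨25 * Real.pi ^ 3, by positivity, fun ε z z' hε h1 hz hz' => ?_⟩
  have hs : 0 < ε ^ 2 := by positivity
  set s := ε ^ 2 with hsdef
  obtain ⟨b, hb⟩ : ∃ b, b = max (tau z z' / 4) s := ⟨_, rfl⟩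
  have hb0 : 0 < b := by
    rw [hb]
    exact lt_of_lt_of_le hs (le_max_right _ _)
  have e1 := Ker_i hz hz' hs hb
  have e2 := Ker_i (z := z') (z' := z) (b := b) hz' hz hs (by rw [hb, tau_symm z z'])
  have mA : MeasurableSet {x : V | tau x z < b} := measurableSet_lt (Ker_mr z) measurable_const
  have mB : MeasurableSet {x : V | tau x z' < b} := measurableSet_lt (Ker_mr z') measurable_const
  have hfar : ∀ w : V, w ≠ 0 → ∀ S : Set V, S ⊆ {x : V | b ≤ tau x w} →
      ∫⁻ x in S, ENNReal.ofReal ((tau x w) ^ (-3 : ℝ)) ∂nuP ≤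
      ENNReal.ofReal (Real.pi ^ 3 / b) := by
    intro w hw S hS
    refine (lintegral_mono_set hS).trans ?_
    have h5 : {x : V | b ≤ tau x w} = {x : V | b ≤ tau w x} := by
      ext x
      show b ≤ tau x w ↔ b ≤ tau w x
      rw [tau_symm]
    rw [h5, show (fun x => ENNReal.ofReal ((tau x w) ^ (-3 : ℝ))) =
      fun x => ENNReal.ofReal ((tau w x) ^ (-3 : ℝ)) from funext fun x => by rw [tau_symm]]
    exact nu_far hw hb0
  set S : Set V := {x | b ≤ tau x z ∧ b ≤ tau x z'} with hS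
  have mS : MeasurableSet S :=
    (measurableSet_le measurable_const (Ker_mr z)).inter
      (measurableSet_le measurable_const (Ker_mr z'))
  have e3 : ∫⁻ x in S, ENNReal.ofReal ((tau x z + s) ^ (-(3 / 2) : ℝ) *
        (tau x z' + s) ^ (-(3 / 2) : ℝ)) ∂nuP ≤ ENNReal.ofReal (Real.pi ^ 3 / b) := by
    have hpt : ∀ t : ℝ, b ≤ t → ((t + s) ^ (-(3 / 2) : ℝ)) ^ 2 ≤ t ^ (-3 : ℝ) := by
      intro t ht
      have ht0 : 0 < t := hb0.trans_le ht
      have h2 : (t + s) ^ (-(3 / 2) : ℝ) ≤ t ^ (-(3 / 2) : ℝ) := Ker_anti ht0 (by linarith)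
      have h3 : (t ^ (-(3 / 2) : ℝ)) ^ 2 = t ^ (-3 : ℝ) := by
        rw [← Real.rpow_natCast, ← Real.rpow_mul ht0.le]
        norm_num
      rw [← h3]
      exact pow_le_pow_left₀ (Real.rpow_nonneg (by linarith) _) h2 2
    calc ∫⁻ x in S, ENNReal.ofReal ((tau x z + s) ^ (-(3 / 2) : ℝ) *
        (tau x z' + s) ^ (-(3 / 2) : ℝ)) ∂nuP
        ≤ ∫⁻ x in S, (ENNReal.ofReal (1 / 2) * ENNReal.ofReal ((tau x z) ^ (-3 : ℝ)) +
          ENNReal.ofReal (1 / 2) * ENNReal.ofReal ((tau x z') ^ (-3 : ℝ))) ∂nuP := by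
          refine setLIntegral_mono' mS fun x hx => ?_
          rw [← ENNReal.ofReal_mul (by norm_num), ← ENNReal.ofReal_mul (by norm_num),
            ← ENNReal.ofReal_add
              (mul_nonneg (by norm_num) (Real.rpow_nonneg (tau_nonneg _ _) _))
              (mul_nonneg (by norm_num) (Real.rpow_nonneg (tau_nonneg _ _) _))]
          apply ENNReal.ofReal_le_ofReal
          have h2 := hpt _ hx.1
          have h3 := hpt _ hx.2
          nlinarith [sq_nonneg ((tau x z + s) ^ (-(3 / 2) : ℝ) - (tau x z' + s) ^ (-(3 / 2) : ℝ))]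
      _ = ENNReal.ofReal (1 / 2) * ∫⁻ x in S, ENNReal.ofReal ((tau x z) ^ (-3 : ℝ)) ∂nuP +
          ENNReal.ofReal (1 / 2) * ∫⁻ x in S, ENNReal.ofReal ((tau x z') ^ (-3 : ℝ)) ∂nuP := by
          rw [lintegral_add_left, lintegral_const_mul' _ _ ENNReal.ofReal_ne_top,
            lintegral_const_mul' _ _ ENNReal.ofReal_ne_top]
          exact (((Ker_mr z).pow_const _).ennreal_ofReal).const_mul _
      _ ≤ ENNReal.ofReal (1 / 2) * ENNReal.ofReal (Real.pi ^ 3 / b) +
          ENNReal.ofReal (1 / 2) * ENNReal.ofReal (Real.pi ^ 3 / b) := by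
          gcongr
          · exact hfar z hz S fun x hx => hx.1
          · exact hfar z' hz' S fun x hx => hx.2
      _ = ENNReal.ofReal (Real.pi ^ 3 / b) := by
          rw [← ENNReal.ofReal_mul (by norm_num), ← ENNReal.ofReal_add (by positivity) (by positivity)]
          congr 1
          ring
  have hcov : (Set.univ : Set V) = {x : V | tau x z < b} ∪ ({x : V | tau x z' < b} ∪ S) := by
    ext x
    simp only [Set.mem_univ, true_iff]
    by_cases h2 : tau x z < b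
    · exact Or.inl h2
    · by_cases h3 : tau x z' < b
      · exact Or.inr (Or.inl h3)
      · exact Or.inr (Or.inr ⟨not_lt.1 h2, not_lt.1 h3⟩)
  rw [← setLIntegral_univ, hcov]
  refine (lintegral_union_le _ _ _).trans ?_
  refine (add_le_add_right (lintegral_union_le _ _ _) _).trans ?_
  have e2' : ∫⁻ x in {x | tau x z' < b}, ENNReal.ofReal ((tau x z + s) ^ (-(3 / 2) : ℝ) *
        (tau x z' + s) ^ (-(3 / 2) : ℝ)) ∂nuP ≤ ENNReal.ofReal (2 * Real.pi ^ 3 / b) := by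
    simp only [mul_comm ((tau _ z + s) ^ (-(3 / 2) : ℝ))]
    exact e2
  calc _ ≤ ENNReal.ofReal (2 * Real.pi ^ 3 / b) +
        (ENNReal.ofReal (2 * Real.pi ^ 3 / b) + ENNReal.ofReal (Real.pi ^ 3 / b)) :=
        add_le_add e1 (add_le_add e2' e3)
    _ = ENNReal.ofReal (5 * Real.pi ^ 3 / b) := by
        rw [← ENNReal.ofReal_add (by positivity) (by positivity),
          ← ENNReal.ofReal_add (by positivity) (by positivity)]
        congr 1
        ring
    _ ≤ _ := by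
        apply ENNReal.ofReal_le_ofReal
        have h2 : tau z z' + s ≤ 5 * b := by
          have h3 : tau z z' / 4 ≤ b := by
            rw [hb]
            exact le_max_left _ _
          have h4 : s ≤ b := by
            rw [hb]
            exact le_max_right _ _
          linarith
        have h3 : 0 < tau z z' + s := by linarith [tau_nonneg z z']
        rw [← div_eq_mul_inv, div_le_div_iff₀ hb0 h3]
        have h4 : 0 < Real.pi ^ 3 := by positivity
        nlinarith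

theorem K3 {ε s : ℝ} {p y : V} (hε : 0 < ε) (h1 : ε ≤ 1) (hs : 0 < s) (hp : p ≠ 0) (hy : y ≠ 0)
    (h : 4 * s ≤ tau y p) :
    ∫⁻ x in {x | tau x p < s}, ENNReal.ofReal (kk ε (tau x y)) ∂nuP ≤
      ENNReal.ofReal (ε⁻¹ ^ 4 * Real.exp (-s / ε ^ 2) * Real.pi ^ 3) := by
  have hm : MeasurableSet {x : V | tau x p < s} := measurableSet_lt (Ker_mr p) measurable_const
  have h2 : ∀ x ∈ {x : V | tau x p < s}, ENNReal.ofReal (kk ε (tau x y)) ≤
      ENNReal.ofReal (2 * ε⁻¹ ^ 4 * Real.exp (-s / ε ^ 2)) := by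
    intro x hx
    have hx' : tau x p < s := hx
    have hx0 : x ≠ 0 := by
      rintro rfl
      rw [Ker_zero] at hx'
      have := tau_le_one y p
      linarith
    have h3 : s ≤ tau x y := by
      have h4 := Ker_tri (x := y) (y := x) (z := p) hy hx0 hp (a := 4 * s) (by linarith) h
        (by linarith)
      rw [tau_symm y x] at h4
      linarith
    apply ENNReal.ofReal_le_ofReal
    refine (kk_le hε h1 (tau_nonneg x y)).trans ?_
    refine mul_le_mul_of_nonneg_left ?_ (by positivity)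
    rw [Real.exp_le_exp]
    exact div_le_div_of_nonneg_right (by linarith) (by positivity)
  calc ∫⁻ x in {x | tau x p < s}, ENNReal.ofReal (kk ε (tau x y)) ∂nuP
      ≤ ∫⁻ _x in {x | tau x p < s}, ENNReal.ofReal (2 * ε⁻¹ ^ 4 * Real.exp (-s / ε ^ 2)) ∂nuP :=
        setLIntegral_mono' hm h2
    _ = ENNReal.ofReal (2 * ε⁻¹ ^ 4 * Real.exp (-s / ε ^ 2)) * nuP {x | tau x p < s} :=
        setLIntegral_const _ _
    _ ≤ ENNReal.ofReal (2 * ε⁻¹ ^ 4 * Real.exp (-s / ε ^ 2)) * ENNReal.ofReal (Real.pi ^ 3 / 2) := by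
        gcongr
        rw [← nuP_univ]
        exact measure_mono (Set.subset_univ _)
    _ = _ := by
        rw [← ENNReal.ofReal_mul (by positivity)]
        congr 1
        ring

end Pool.Agent.H85.DC
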