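import Pool.Agent.H85.DC.SmE
import Pool.Agent.H85.DC.Ker
import Pool.Agent.H85.DC.Nst
import Pool.Agent.H85.DC.Hod

/-!
# Row FinB: small balls around the singular points

`B(p,ρ) = {x ≠ 0, tau x p ≤ ρ^2}`. `A0` a form, `|A0_jk| ≤ C/N` (`form_bound`), so `√(hs (A0 x)) ≤ 3 C/N x`.
`small_A0`: for `x ≠ 0`: `|ee (A0 x) (DD ε x)| ≤ 3 √(hs (A0 x)) (tr (sm μ) + tr (sm μ'))` (`ee_abs_pos`, `ee_sub`) `≤ (9C/N x)(3/N x) (∫ kk ε (tau x y) dμ + ∫ kk … dμ')` (`tr_sm_le`). So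
`∫_{B(p,ρ)} |ee A0 DD| wt ≤ 27 C ∫ [∫_{tau x p < 2ρ^2} kk ε (tau x y) dν(x)] d(μ+μ')(y)` (Tonelli). For `tau y p ≥ 8ρ^2` the inner integral is at most `ε^{-4} e^{-2ρ^2/ε^2} π^3` (`K3` with `s = 2ρ^2`), otherwise at most the constant of `K0`. So the total is
`≤ C' ((μ+μ'){tau y p < 8ρ^2} + ε^{-4} e^{-2ρ^2/ε^2})`. As `ρ → 0` the sets `{y | N y = 1, tau y p < 8ρ^2}` decrease to `{tau y p = 0}`, i.e. (`tau_eq_zero`) multiples of `p`, zeros of `eta F` (`SingPts.zero`), which are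
`μ`-null and `μ'`-null (`IsCur.sing`): `tendsto_measure_iInter…`. Choose `ρ1` so that the first term is `≤ β/2` for `ρ ≤ ρ1`, then `ε0(ρ)`.
`small_AA`: `|ee (A0)(A0)| ≤ 4 hs (A0) ≤ 36 C^2/N^2`, `∫_{B(p,ρ)} N^{-2} wt = nuP {tau ≤ ρ^2} ≤ π^3 (2ρ^2)^2` (`nu_small`).
-/

open MeasureTheory
open scoped ContDiff BigOperators ComplexConjugate Matrix

namespace Pool.Agent.H85.DC

theorem FinB_hs {A0 : V → M3} {C : ℝ} (hC0 : 0 ≤ C)
    (hC : ∀ x : V, x ≠ 0 → ∀ j k, ‖A0 x j k‖ ≤ C / N x) {x : V} (hx : x ≠ 0) :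
    Real.sqrt (hs (A0 x)) ≤ 3 * C / N x := by
  have hN : 0 < N x := N_pos hx
  have h1 : hs (A0 x) ≤ (3 * C / N x) ^ 2 := by
    unfold hs
    calc ∑ j, ∑ k, Complex.normSq (A0 x j k) ≤ ∑ _j : Fin 3, ∑ _k : Fin 3, (C / N x) ^ 2 := by
          refine Finset.sum_le_sum fun j _ => Finset.sum_le_sum fun k _ => ?_
          rw [Complex.normSq_eq_norm_sq]
          exact pow_le_pow_left₀ (norm_nonneg _) (hC x hx j k) 2
      _ = (3 * C / N x) ^ 2 := by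
          simp only [Finset.sum_const, Finset.card_univ, Fintype.card_fin, nsmul_eq_mul]
          push_cast
          ring
  exact (Real.sqrt_le_sqrt h1).trans (Real.sqrt_sq (by positivity)).le

theorem FinB_kc (ε : ℝ) : Continuous (kk ε) := by
  unfold kk
  fun_prop

theorem FinB_km (ε : ℝ) : Measurable (fun q : V × V => kk ε (tau q.1 q.2)) :=
  (FinB_kc ε).measurable.comp measurable_tau

theorem FinB_one {F : Fin 3 → MvPolynomial (Fin 3) ℂ} {μ : Measure V} (hμ : IsCur F μ)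
    {A0 : V → M3} {C : ℝ} (hC0 : 0 ≤ C)
    (hC : ∀ x : V, x ≠ 0 → ∀ j k, ‖A0 x j k‖ ≤ C / N x) {ε : ℝ} (hε : 0 < ε) (h1 : ε ≤ 1)
    {x : V} (hx : x ≠ 0) :
    ‖ee (A0 x) (sm F μ ε x)‖ ≤ 27 * C / (N x) ^ 2 * ∫ y, kk ε (tau x y) ∂μ := by
  have hN : 0 < N x := N_pos hx
  have h2 := ee_abs_pos (A0 x) (herm_sm hμ hε h1 x hx) (pos_sm hμ hε h1 hx)
  have h3 := tr_sm_le hμ hε h1 hx
  have h4 := FinB_hs hC0 hC hx
  have hI : 0 ≤ ∫ y, kk ε (tau x y) ∂μ := integral_nonneg fun y => kk_nonneg (tau_le_one x y)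
  have h5 : (sm F μ ε x).trace.re ≤ 3 * (∫ y, kk ε (tau x y) ∂μ) / N x := by
    rw [le_div_iff₀ hN]
    linarith
  generalize (∫ y, kk ε (tau x y) ∂μ) = I at h3 hI h5 ⊢
  generalize (sm F μ ε x).trace.re = t at h2 h3 h5
  have hr := Real.sqrt_nonneg (hs (A0 x))
  generalize Real.sqrt (hs (A0 x)) = r at h2 h4 hr
  generalize N x = n at hN h3 h4 h5 ⊢
  calc ‖ee (A0 x) (sm F μ ε x)‖ ≤ 3 * r * t := h2
    _ ≤ 3 * r * (3 * I / n) := mul_le_mul_of_nonneg_left h5 (by positivity)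
    _ ≤ 3 * (3 * C / n) * (3 * I / n) := by
        refine mul_le_mul_of_nonneg_right ?_ (by positivity)
        linarith
    _ = 27 * C / n ^ 2 * I := by
        field_simp
        ring

theorem FinB_lint {μ : Measure V} (ε : ℝ) (x : V) :
    ENNReal.ofReal (∫ y, kk ε (tau x y) ∂μ) ≤ ∫⁻ y, ENNReal.ofReal (kk ε (tau x y)) ∂μ := by
  have hp : Measurable fun y : V => ((x, y) : V × V) := measurable_const.prodMk measurable_id
  have hm : Measurable fun y : V => kk ε (tau x y) := by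
    have h := (FinB_kc ε).measurable.comp (measurable_tau.comp hp)
    exact h
  rw [integral_eq_lintegral_of_nonneg_ae
    (Filter.Eventually.of_forall fun y => kk_nonneg (tau_le_one x y)) hm.aestronglyMeasurable]
  exact ENNReal.ofReal_toReal_le

theorem FinB_two {F : Fin 3 → MvPolynomial (Fin 3) ℂ} {μ μ' : Measure V} (hμ : IsCur F μ)
    (hμ' : IsCur F μ') {A0 : V → M3} {C : ℝ} (hC0 : 0 ≤ C)
    (hC : ∀ x : V, x ≠ 0 → ∀ j k, ‖A0 x j k‖ ≤ C / N x) {ε : ℝ} (hε : 0 < ε) (h1 : ε ≤ 1)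
    {x : V} (hx : x ≠ 0) :
    ENNReal.ofReal (‖ee (A0 x) (DD F μ μ' ε x)‖ * wt x) ≤
      ENNReal.ofReal (wt x / (N x) ^ 2) * (ENNReal.ofReal (27 * C) *
        ∫⁻ y, ENNReal.ofReal (kk ε (tau x y)) ∂(μ + μ')) := by
  have hN : 0 < N x := N_pos hx
  have hw : 0 < wt x := Real.exp_pos _
  have hee : ee (A0 x) (DD F μ μ' ε x) = ee (A0 x) (sm F μ ε x) - ee (A0 x) (sm F μ' ε x) := by
    unfold ee DD
    rw [Matrix.trace_sub, Matrix.mul_sub, Matrix.trace_sub]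
    ring
  have h2 := FinB_one hμ hC0 hC hε h1 hx
  have h3 := FinB_one hμ' hC0 hC hε h1 hx
  have h4 : ‖ee (A0 x) (DD F μ μ' ε x)‖ * wt x ≤ (wt x / (N x) ^ 2) * ((27 * C) *
      ((∫ y, kk ε (tau x y) ∂μ) + ∫ y, kk ε (tau x y) ∂μ')) := by
    calc ‖ee (A0 x) (DD F μ μ' ε x)‖ * wt x ≤
        (27 * C / (N x) ^ 2 * (∫ y, kk ε (tau x y) ∂μ) +
          27 * C / (N x) ^ 2 * ∫ y, kk ε (tau x y) ∂μ') * wt x := by
          refine mul_le_mul_of_nonneg_right ?_ hw.le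
          rw [hee]
          exact (norm_sub_le _ _).trans (add_le_add h2 h3)
      _ = _ := by ring
  refine (ENNReal.ofReal_le_ofReal h4).trans ?_
  rw [ENNReal.ofReal_mul (by positivity), ENNReal.ofReal_mul (by positivity)]
  refine mul_le_mul_right ?_ _
  refine mul_le_mul_right ?_ _
  rw [lintegral_add_measure]
  refine ENNReal.ofReal_add_le.trans ?_
  exact add_le_add (FinB_lint ε x) (FinB_lint ε x)

theorem FinB_Bm (p : V) (ρ : ℝ) : MeasurableSet {x : V | x ≠ 0 ∧ tau x p ≤ ρ ^ 2} := by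
  have hpm : Measurable fun x : V => ((x, p) : V × V) := measurable_id.prodMk measurable_const
  have h1 : Measurable fun x : V => tau x p := by
    have h := measurable_tau.comp hpm
    exact h
  have h2 : {x : V | x ≠ 0 ∧ tau x p ≤ ρ ^ 2} = {0}ᶜ ∩ {x : V | tau x p ≤ ρ ^ 2} := by
    ext x
    simp
  rw [h2]
  exact (measurableSet_singleton (0 : V)).compl.inter (measurableSet_le h1 measurable_const)

theorem FinB_Sm (p : V) (ρ : ℝ) : MeasurableSet {y : V | N y = 1 ∧ tau y p < 8 * ρ ^ 2} := by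
  have hpm : Measurable fun x : V => ((x, p) : V × V) := measurable_id.prodMk measurable_const
  have h1 : Measurable fun x : V => tau x p := by
    have h := measurable_tau.comp hpm
    exact h
  have h2 : {y : V | N y = 1 ∧ tau y p < 8 * ρ ^ 2} =
      {y : V | N y = 1} ∩ {y : V | tau y p < 8 * ρ ^ 2} := by
    ext x
    simp
  rw [h2]
  exact (measurableSet_eq_fun TauM_continuous_N.measurable measurable_const).inter
    (measurableSet_lt h1 measurable_const)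

theorem FinB_main {C0 : ℝ} (hK0 : ∀ (ε : ℝ) (z : V), 0 < ε → ε ≤ 1 → z ≠ 0 →
    ∫⁻ y, ENNReal.ofReal (kk ε (tau y z)) ∂nuP ≤ ENNReal.ofReal C0)
    {M : Measure V} [IsFiniteMeasure M] (hM : ∀ᵐ y ∂M, N y = 1) {ρ ε : ℝ} (hρ : 0 < ρ)
    (hε : 0 < ε) (h1 : ε ≤ 1) {p : V} (hp : N p = 1) :
    ∫⁻ x in {x : V | x ≠ 0 ∧ tau x p ≤ ρ ^ 2}, ∫⁻ y, ENNReal.ofReal (kk ε (tau x y)) ∂M ∂nuP ≤
      ENNReal.ofReal C0 * M {y : V | N y = 1 ∧ tau y p < 8 * ρ ^ 2} +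
      ENNReal.ofReal (ε⁻¹ ^ 4 * Real.exp (-(2 * ρ ^ 2) / ε ^ 2) * Real.pi ^ 3) * M Set.univ := by
  have hp0 : p ≠ 0 := by
    rintro rfl
    rw [TauM_N_zero] at hp
    exact zero_ne_one hp
  have hsf : SFinite nuP := by
    unfold nuP
    infer_instance
  rw [lintegral_lintegral_swap (FinB_km ε).ennreal_ofReal.aemeasurable]
  have hin : ∀ᵐ y ∂M, ∫⁻ x in {x : V | x ≠ 0 ∧ tau x p ≤ ρ ^ 2},
      ENNReal.ofReal (kk ε (tau x y)) ∂nuP ≤
      {y : V | N y = 1 ∧ tau y p < 8 * ρ ^ 2}.indicator (fun _ => ENNReal.ofReal C0) y +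
        ENNReal.ofReal (ε⁻¹ ^ 4 * Real.exp (-(2 * ρ ^ 2) / ε ^ 2) * Real.pi ^ 3) := by
    filter_upwards [hM] with y hy
    have hy0 : y ≠ 0 := by
      rintro rfl
      rw [TauM_N_zero] at hy
      exact zero_ne_one hy
    by_cases hlt : tau y p < 8 * ρ ^ 2
    · rw [Set.indicator_of_mem (show y ∈ {y : V | N y = 1 ∧ tau y p < 8 * ρ ^ 2} from ⟨hy, hlt⟩)]
      exact (setLIntegral_le_lintegral _ _).trans ((hK0 ε y hε h1 hy0).trans le_self_add)
    · have h3 := K3 hε h1 (s := 2 * ρ ^ 2) (by positivity) hp0 hy0 (by linarith)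
      refine le_trans ?_ (h3.trans le_add_self)
      refine lintegral_mono_set ?_
      rintro x ⟨_, hx⟩
      have : 0 < ρ ^ 2 := by positivity
      show tau x p < 2 * ρ ^ 2
      linarith
  refine (lintegral_mono_ae hin).trans ?_
  rw [lintegral_add_right _ measurable_const, lintegral_indicator_const (FinB_Sm p ρ),
    lintegral_const]

theorem FinB_small {F : Fin 3 → MvPolynomial (Fin 3) ℂ} {P : Finset V} (hP : SingPts F P)
    {M : Measure V} [IsFiniteMeasure M] (hM : ∀ᵐ y ∂M, eta F y ≠ 0) {δ : ENNReal} (hδ : 0 < δ) :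
    ∃ ρ1 : ℝ, 0 < ρ1 ∧ ∀ ρ : ℝ, 0 < ρ → ρ ≤ ρ1 → ∀ p ∈ P,
      M {y : V | N y = 1 ∧ tau y p < 8 * ρ ^ 2} ≤ δ := by
  have hmono : ∀ (p : V) (i j : ℝ), 0 < i → i ≤ j →
      {y : V | N y = 1 ∧ tau y p < 8 * i ^ 2} ⊆ {y : V | N y = 1 ∧ tau y p < 8 * j ^ 2} := by
    rintro p i j hi hij y ⟨h1, h2⟩
    refine ⟨h1, lt_of_lt_of_le h2 ?_⟩
    have := pow_le_pow_left₀ hi.le hij 2
    linarith
  have hev : ∀ p ∈ P, ∀ᶠ ρ : ℝ in nhdsWithin 0 (Set.Ioi 0),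
      M {y : V | N y = 1 ∧ tau y p < 8 * ρ ^ 2} ≤ δ := by
    intro p hp
    have ht := tendsto_measure_biInter_gt (μ := M)
      (s := fun ρ : ℝ => {y : V | N y = 1 ∧ tau y p < 8 * ρ ^ 2}) (a := 0)
      (fun r _ => (FinB_Sm p r).nullMeasurableSet) (fun i j hi hij => hmono p i j hi hij)
      ⟨1, one_pos, measure_ne_top M _⟩
    have hzero : M (⋂ r > (0 : ℝ), {y : V | N y = 1 ∧ tau y p < 8 * r ^ 2}) = 0 := by
      refine measure_mono_null ?_ (ae_iff.1 hM)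
      intro y hy
      rw [Set.mem_iInter₂] at hy
      have hN := (hy 1 one_pos).1
      have hy0 : y ≠ 0 := by
        rintro rfl
        rw [TauM_N_zero] at hN
        exact zero_ne_one hN
      have hp0 : p ≠ 0 := by
        rintro rfl
        have := hP.unit 0 hp
        rw [TauM_N_zero] at this
        exact zero_ne_one this
      have htau : tau y p = 0 := by
        refine le_antisymm ?_ (tau_nonneg y p)
        by_contra hpos
        push Not at hpos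
        have h1 := (hy (Real.sqrt (tau y p / 8)) (Real.sqrt_pos.2 (by positivity))).2
        rw [Real.sq_sqrt (by positivity)] at h1
        linarith
      show ¬ eta F y ≠ 0
      rw [not_not, hP.zero y hy0]
      obtain ⟨c, hc⟩ := tau_eq_zero hy0 hp0 htau
      exact ⟨p, hp, c, hc⟩
    rw [hzero] at ht
    exact ht.eventually_le_const hδ
  have hall : ∀ᶠ ρ : ℝ in nhdsWithin 0 (Set.Ioi 0), ∀ p ∈ P,
      M {y : V | N y = 1 ∧ tau y p < 8 * ρ ^ 2} ≤ δ :=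
    (Filter.eventually_all_finset P).2 hev
  obtain ⟨ρ1, h1, hρ1⟩ := (hall.and self_mem_nhdsWithin).exists
  refine ⟨ρ1, hρ1, fun ρ hρ hle p hp => ?_⟩
  exact (measure_mono (hmono p ρ ρ1 hρ hle)).trans (h1 p hp)

/-- from a bound of the upper integral to a bound of the integral over a ball -/
theorem FinB_fin {f : V → ℝ} (hf : ∀ x, 0 ≤ f x) {B : Set V} {β : ℝ} (hβ : 0 ≤ β)
    (h : ∫⁻ x in B, ENNReal.ofReal (f x) ≤ ENNReal.ofReal β) : ∫ x in B, f x ≤ β := by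
  have h1 := norm_integral_le_lintegral_norm (μ := (volume : Measure V).restrict B) f
  have h2 : ∫⁻ x in B, ENNReal.ofReal ‖f x‖ = ∫⁻ x in B, ENNReal.ofReal (f x) := by
    congr 1
    funext x
    rw [Real.norm_of_nonneg (hf x)]
  rw [h2] at h1
  exact (le_abs_self _).trans (h1.trans (ENNReal.toReal_le_of_le_ofReal hβ h))

theorem FinB_nuP {B : Set V} (hB : MeasurableSet B) (g : V → ENNReal) :
    ∫⁻ x in B, ENNReal.ofReal (wt x / (N x) ^ 2) * g x = ∫⁻ x in B, g x ∂nuP := by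
  have hm : Measurable fun y : V => ENNReal.ofReal (wt y / (N y) ^ 2) := by
    have h1 : Measurable N := TauM_continuous_N.measurable
    have h2 : Measurable wt := by
      unfold wt
      exact Real.measurable_exp.comp h1.neg
    exact (h2.div (h1.pow_const 2)).ennreal_ofReal
  unfold nuP
  rw [restrict_withDensity hB, lintegral_withDensity_eq_lintegral_mul_non_measurable _ hm
    (Filter.Eventually.of_forall fun _ => ENNReal.ofReal_lt_top)]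
  rfl

theorem small_A0 {F : Fin 3 → MvPolynomial (Fin 3) ℂ} {P : Finset V} (hP : SingPts F P)
    {μ μ' : Measure V} (hμ : IsCur F μ) (hμ' : IsCur F μ') {A0 : V → M3} (hA : IsForm A0)
    {β : ℝ} (hβ : 0 < β) :
    ∃ ρ1 : ℝ, 0 < ρ1 ∧ ∀ ρ : ℝ, 0 < ρ → ρ ≤ ρ1 → ∃ ε0 : ℝ, 0 < ε0 ∧ ∀ ε : ℝ, 0 < ε → ε < ε0 →
      ∀ p ∈ P, ∫ x in {x : V | x ≠ 0 ∧ tau x p ≤ ρ ^ 2}, ‖ee (A0 x) (DD F μ μ' ε x)‖ * wt x ≤ β := by
  obtain ⟨C, hC0, hC⟩ := form_bound hA
  obtain ⟨C0, hC0p, hK0⟩ := K0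
  have hfin : IsFiniteMeasure μ := ⟨by rw [hμ.prob]; exact ENNReal.one_lt_top⟩
  have hfin' : IsFiniteMeasure μ' := ⟨by rw [hμ'.prob]; exact ENNReal.one_lt_top⟩
  have hMs : ∀ᵐ y ∂(μ + μ'), N y = 1 := by
    rw [ae_add_measure_iff]
    exact ⟨hμ.sphere, hμ'.sphere⟩
  have hMe : ∀ᵐ y ∂(μ + μ'), eta F y ≠ 0 := by
    rw [ae_add_measure_iff]
    exact ⟨hμ.sing, hμ'.sing⟩
  have hMu : (μ + μ') Set.univ = ENNReal.ofReal 2 := by
    rw [Measure.add_apply, hμ.prob, hμ'.prob]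
    norm_num
  set δ : ℝ := β / (2 * (27 * C * C0 + 1)) with hδ
  have hden : 0 < 27 * C * C0 + 1 := by positivity
  have hδ0 : 0 < δ := by positivity
  obtain ⟨ρ1, hρ1, hsm⟩ := FinB_small hP hMe (ENNReal.ofReal_pos.2 hδ0)
  refine ⟨ρ1, hρ1, fun ρ hρ hle => ?_⟩
  set D : ℝ := 27 * C * Real.pi ^ 3 * 2 with hD
  have hD0 : 0 ≤ D := by positivity
  refine ⟨min 1 (β * ρ ^ 6 / (2 * (D + 1))), by positivity, fun ε hε hlt p hp => ?_⟩
  have hε1 : ε ≤ 1 := (hlt.trans_le (min_le_left _ _)).le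
  have hε2 : ε < β * ρ ^ 6 / (2 * (D + 1)) := hlt.trans_le (min_le_right _ _)
  have hexp : ε⁻¹ ^ 4 * Real.exp (-(2 * ρ ^ 2) / ε ^ 2) ≤ ε ^ 2 / ρ ^ 6 := by
    have hu : 0 < 2 * ρ ^ 2 / ε ^ 2 := by positivity
    have h1 := Real.pow_div_factorial_le_exp (2 * ρ ^ 2 / ε ^ 2) hu.le 3
    have h2 : (Nat.factorial 3 : ℝ) = 6 := by norm_num [Nat.factorial]
    rw [h2] at h1
    have h3 : Real.exp (-(2 * ρ ^ 2) / ε ^ 2) = (Real.exp (2 * ρ ^ 2 / ε ^ 2))⁻¹ := by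
      rw [← Real.exp_neg, neg_div]
    have h4 : (Real.exp (2 * ρ ^ 2 / ε ^ 2))⁻¹ ≤ ((2 * ρ ^ 2 / ε ^ 2) ^ 3 / 6)⁻¹ :=
      inv_anti₀ (by positivity) h1
    rw [h3]
    calc ε⁻¹ ^ 4 * (Real.exp (2 * ρ ^ 2 / ε ^ 2))⁻¹ ≤
        ε⁻¹ ^ 4 * ((2 * ρ ^ 2 / ε ^ 2) ^ 3 / 6)⁻¹ := mul_le_mul_of_nonneg_left h4 (by positivity)
      _ = 3 / 4 * (ε ^ 2 / ρ ^ 6) := by
          field_simp
          ring
      _ ≤ ε ^ 2 / ρ ^ 6 := by
          have : 0 ≤ ε ^ 2 / ρ ^ 6 := by positivity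
          linarith
  refine FinB_fin (fun x => mul_nonneg (norm_nonneg _) (Real.exp_pos _).le) hβ.le ?_
  have hpt : ∫⁻ x in {x : V | x ≠ 0 ∧ tau x p ≤ ρ ^ 2},
      ENNReal.ofReal (‖ee (A0 x) (DD F μ μ' ε x)‖ * wt x) ≤
      ∫⁻ x in {x : V | x ≠ 0 ∧ tau x p ≤ ρ ^ 2}, ENNReal.ofReal (wt x / (N x) ^ 2) *
        (ENNReal.ofReal (27 * C) * ∫⁻ y, ENNReal.ofReal (kk ε (tau x y)) ∂(μ + μ')) := by
    refine lintegral_mono_ae ((ae_restrict_iff' (FinB_Bm p ρ)).2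
      (Filter.Eventually.of_forall fun x hx => ?_))
    exact FinB_two hμ hμ' hC0 hC hε hε1 hx.1
  refine hpt.trans ?_
  rw [FinB_nuP (FinB_Bm p ρ), lintegral_const_mul' _ _ ENNReal.ofReal_ne_top]
  have hmain := FinB_main hK0 hMs hρ hε hε1 (hP.unit p hp)
  have hS := hsm ρ hρ hle p hp
  rw [hMu] at hmain
  calc ENNReal.ofReal (27 * C) * ∫⁻ x in {x : V | x ≠ 0 ∧ tau x p ≤ ρ ^ 2},
        ∫⁻ y, ENNReal.ofReal (kk ε (tau x y)) ∂(μ + μ') ∂nuP
      ≤ ENNReal.ofReal (27 * C) * (ENNReal.ofReal C0 * ENNReal.ofReal δ +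
        ENNReal.ofReal (ε⁻¹ ^ 4 * Real.exp (-(2 * ρ ^ 2) / ε ^ 2) * Real.pi ^ 3) *
          ENNReal.ofReal 2) := by
        refine mul_le_mul_right ?_ _
        refine hmain.trans (add_le_add ?_ le_rfl)
        exact mul_le_mul_right hS _
    _ = ENNReal.ofReal (27 * C * (C0 * δ +
        ε⁻¹ ^ 4 * Real.exp (-(2 * ρ ^ 2) / ε ^ 2) * Real.pi ^ 3 * 2)) := by
        rw [ENNReal.ofReal_mul (p := 27 * C) (by positivity),
          ENNReal.ofReal_add (p := C0 * δ) (by positivity) (by positivity),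
          ENNReal.ofReal_mul (p := C0) hC0p.le,
          ENNReal.ofReal_mul (p := ε⁻¹ ^ 4 * Real.exp (-(2 * ρ ^ 2) / ε ^ 2) * Real.pi ^ 3)
            (by positivity)]
    _ ≤ ENNReal.ofReal β := by
        refine ENNReal.ofReal_le_ofReal ?_
        have h1 : 27 * C * (C0 * δ) ≤ β / 2 := by
          rw [hδ]
          have : 27 * C * (C0 * (β / (2 * (27 * C * C0 + 1)))) =
              β / 2 * ((27 * C * C0) / (27 * C * C0 + 1)) := by
            field_simp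
          rw [this]
          have h2 : (27 * C * C0) / (27 * C * C0 + 1) ≤ 1 := by
            rw [div_le_one hden]
            linarith
          have h3 : 0 ≤ β / 2 := by positivity
          nlinarith
        have h2 : 27 * C * (ε⁻¹ ^ 4 * Real.exp (-(2 * ρ ^ 2) / ε ^ 2) * Real.pi ^ 3 * 2) ≤ β / 2 := by
          calc 27 * C * (ε⁻¹ ^ 4 * Real.exp (-(2 * ρ ^ 2) / ε ^ 2) * Real.pi ^ 3 * 2)
              = D * (ε⁻¹ ^ 4 * Real.exp (-(2 * ρ ^ 2) / ε ^ 2)) := by rw [hD]; ring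
            _ ≤ D * (ε ^ 2 / ρ ^ 6) := mul_le_mul_of_nonneg_left hexp hD0
            _ ≤ (D + 1) * (ε / ρ ^ 6) := by
                have h3 : ε ^ 2 ≤ ε := by nlinarith
                have h4 : ε ^ 2 / ρ ^ 6 ≤ ε / ρ ^ 6 := by gcongr
                have h5 : 0 ≤ ε / ρ ^ 6 := by positivity
                nlinarith
            _ ≤ β / 2 := by
                have h3 : ε * (2 * (D + 1)) ≤ β * ρ ^ 6 := by
                  rw [lt_div_iff₀ (by positivity)] at hε2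
                  exact hε2.le
                rw [mul_div_assoc', div_le_iff₀ (by positivity)]
                linarith
        linarith

theorem small_AA {A0 : V → M3} (hA : IsForm A0) {P : Finset V} (hP : ∀ p ∈ P, N p = 1)
    {β : ℝ} (hβ : 0 < β) :
    ∃ ρ1 : ℝ, 0 < ρ1 ∧ ∀ ρ : ℝ, 0 < ρ → ρ ≤ ρ1 →
      ∀ p ∈ P, ∫ x in {x : V | x ≠ 0 ∧ tau x p ≤ ρ ^ 2}, ‖ee (A0 x) (A0 x)‖ * wt x ≤ β := by
  obtain ⟨C, hC0, hC⟩ := form_bound hA
  set D : ℝ := 36 * C ^ 2 * (Real.pi ^ 3 * 4) with hD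
  have hD0 : 0 ≤ D := by positivity
  refine ⟨min 1 (β / (D + 1)), by positivity, fun ρ hρ hle p hp => ?_⟩
  have hρ1 : ρ ≤ 1 := hle.trans (min_le_left _ _)
  have hρ2 : ρ ≤ β / (D + 1) := hle.trans (min_le_right _ _)
  have hp0 : p ≠ 0 := by
    rintro rfl
    have := hP 0 hp
    rw [TauM_N_zero] at this
    exact zero_ne_one this
  refine FinB_fin (fun x => mul_nonneg (norm_nonneg _) (Real.exp_pos _).le) hβ.le ?_
  have hpt : ∫⁻ x in {x : V | x ≠ 0 ∧ tau x p ≤ ρ ^ 2},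
      ENNReal.ofReal (‖ee (A0 x) (A0 x)‖ * wt x) ≤
      ∫⁻ x in {x : V | x ≠ 0 ∧ tau x p ≤ ρ ^ 2}, ENNReal.ofReal (wt x / (N x) ^ 2) *
        ENNReal.ofReal (36 * C ^ 2) := by
    refine lintegral_mono_ae ((ae_restrict_iff' (FinB_Bm p ρ)).2
      (Filter.Eventually.of_forall fun x hx => ?_))
    have hN : 0 < N x := N_pos hx.1
    have hw : 0 < wt x := Real.exp_pos _
    rw [← ENNReal.ofReal_mul (by positivity)]
    refine ENNReal.ofReal_le_ofReal ?_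
    have h1 := ee_abs (A0 x) (A0 x)
    have h2 := FinB_hs hC0 hC hx.1
    have h3 := Real.sqrt_nonneg (hs (A0 x))
    have h4 : Real.sqrt (hs (A0 x)) * Real.sqrt (hs (A0 x)) ≤ (3 * C / N x) * (3 * C / N x) :=
      mul_le_mul h2 h2 h3 (by positivity)
    calc ‖ee (A0 x) (A0 x)‖ * wt x ≤ (4 * ((3 * C / N x) * (3 * C / N x))) * wt x := by
          refine mul_le_mul_of_nonneg_right ?_ hw.le
          linarith
      _ = wt x / (N x) ^ 2 * (36 * C ^ 2) := by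
          field_simp
          ring
  refine hpt.trans ?_
  rw [FinB_nuP (FinB_Bm p ρ), setLIntegral_const]
  have hnu : nuP {x : V | x ≠ 0 ∧ tau x p ≤ ρ ^ 2} ≤ ENNReal.ofReal (Real.pi ^ 3 * (2 * ρ ^ 2) ^ 2) := by
    refine le_trans (measure_mono ?_) (nu_small hp0 (s := 2 * ρ ^ 2) (by positivity))
    rintro x ⟨_, hx⟩
    have : 0 < ρ ^ 2 := by positivity
    show tau p x < 2 * ρ ^ 2
    rw [tau_symm]
    linarith
  refine (mul_le_mul_right hnu _).trans ?_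
  rw [← ENNReal.ofReal_mul (by positivity)]
  refine ENNReal.ofReal_le_ofReal ?_
  have h1 : ρ ^ 4 ≤ ρ := by
    have h2 : ρ ^ 4 ≤ ρ ^ 1 := pow_le_pow_of_le_one hρ.le hρ1 (by norm_num)
    rwa [pow_one] at h2
  calc 36 * C ^ 2 * (Real.pi ^ 3 * (2 * ρ ^ 2) ^ 2) = D * ρ ^ 4 := by rw [hD]; ring
    _ ≤ (D + 1) * ρ := by nlinarith [mul_le_mul_of_nonneg_left h1 hD0]
    _ ≤ β := by
        rw [le_div_iff₀ (by positivity)] at hρ2
        linarith

end Pool.Agent.H85.DC
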