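import Pool.Agent.H85.DC.LocD
import Pool.Agent.H85.DC.Hod

/-!
# Row LocE: the local inequality

`F = cutF φ ρ p` (real, `0 ≤ F ≤ 1`), `X = L u + E`, `E ∈ H0`. `nE := ∫ hs E wt`. Write `G = ∫ gr F gr u wt`, `a = ∫_{Ann} gr t gr u wt`.
`∫ F Re ee X X wt = ∫ F Re ee (Lu) (Lu) + 2 ∫ F Re ee (Lu) E + ∫ F Re ee E E` (`ee` bilinear and symmetric).
(1) `≥ Gd - (c0/s1) a` (`loc_good`).
(3) `Re ee E E = (tr E)^2 - hs E ≥ - hs E` (`ee_hs`): `≥ - nE`.
(2) the covector `ζ = F ∂u`, `ζ_j = F dz j u`, is `IsCov`, `db ζ x j k = dzb k F * dz j u + F * L u j k`, so `F L u = db ζ - (dz j u dzb k F)_jk`.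
`|∫ F ee (Lu) E wt| ≤ |qq (db ζ) E| + ∫ |ee (dz_j u dzb_k F) E| wt`. First: `ta`: `|qq E (db ζ)|^2 ≤ nn E E (1/4) ∫ curl ζ wt`, `nn E E ≤ nE` (`hs_split`),
`curl ζ = ∑ |dz k F dz j u - dz j F dz k u|^2 ≤ 4 gr F gr u` (second derivatives of `u` cancel by `dz_dz_comm`), so `≤ √nE √G`. Second: `ee_abs`, `hs_rank1`: `|ee (…) E| ≤ 4 √(gr u gr F) √(hs E)`
(`∑|dzb k F|^2 = gr F` for real `F`) and Cauchy-Schwarz for integrals (or `4 a b ≤ …`): `≤ 4 √G √nE`. So (2) `≥ -10 √nE √G ≥ -(1/2) G - 50 nE`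
and `G ≤ 2 Gd + a/s1`: (2) `≥ - Gd - a/(2 s1) - 50 nE`.
Sum: `∫ F Re ee X X ≥ -(c0 + 1) a/s1 - 51 nE`. So `C = 51 + c0`.
-/

open MeasureTheory
open scoped ContDiff BigOperators ComplexConjugate Matrix

namespace Pool.Agent.H85.DC

theorem LocE_re {u : V → ℂ} (ru : IsRe u) (x : V) : u x = ((u x).re : ℂ) :=
  (Complex.conj_eq_iff_re.1 (ru x)).symm

theorem LocE_wt_pos (x : V) : 0 < wt x := Real.exp_pos _

theorem LocE_hom {u : V → ℂ} (hu : IsFun u) (j : Fin 3) : Hom (-1) 0 (dz j u) := by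
  have := dz_hom j (isFun_iff.mp hu)
  simpa using this

theorem LocE_zhom {F u : V → ℂ} (hF : IsFun F) (hu : IsFun u) (j : Fin 3) :
    Hom (-1) 0 (fun x => F x * dz j u x) := by
  have := hom_mul (isFun_iff.mp hF) (LocE_hom hu j)
  simpa using this

theorem LocE_cov {F u : V → ℂ} (hF : IsFun F) (hu : IsFun u) :
    IsCov (fun x j => F x * dz j u x) := by
  refine ⟨?_, ?_, ?_⟩
  · exact contDiffOn_pi.mpr fun j => (LocE_zhom hF hu j).smooth
  · intro l x hl
    funext j
    have h1 := (LocE_zhom hF hu j).hom l x hl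
    simp only [Pi.smul_apply, smul_eq_mul]
    rw [h1]
    simp
  · intro x hx
    have h1 := euler (isFun_iff.mp hu) hx
    have h2 : ∀ j, x j * (F x * dz j u x) = F x * (x j * dz j u x) := fun j => by ring
    simp only [h2, ← Finset.mul_sum, h1]
    simp

theorem LocE_db {F u : V → ℂ} (hF : IsFun F) (hu : IsFun u) {x : V} (hx : x ≠ 0) (j k : Fin 3) :
    db (fun x j => F x * dz j u x) x j k = dz j u x * dzb k F x + F x * L u x j k := by
  have h1 : db (fun x j => F x * dz j u x) x j k = dzb k (fun y => F y * dz j u y) x := rfl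
  have h2 : L u x j k = dz j (dzb k u) x := rfl
  rw [h1, dzb_mul k ((isFun_iff.mp hF).diffAt hx) ((LocE_hom hu j).diffAt hx), h2,
    dz_dzb_comm j k hu.smooth hx]
  ring

theorem LocE_curl {F u : V → ℂ} (hF : IsFun F) (hu : IsFun u) {x : V} (hx : x ≠ 0) :
    curl (fun x j => F x * dz j u x) x ≤ 4 * (gr F x * gr u x) := by
  have key : ∀ j k : Fin 3,
      dz k (fun y => F y * dz j u y) x - dz j (fun y => F y * dz k u y) x =
        dz k F x * dz j u x - dz j F x * dz k u x := by
    intro j k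
    rw [dz_mul k ((isFun_iff.mp hF).diffAt hx) ((LocE_hom hu j).diffAt hx),
      dz_mul j ((isFun_iff.mp hF).diffAt hx) ((LocE_hom hu k).diffAt hx),
      dz_dz_comm k j hu.smooth hx]
    ring
  have hle : ∀ a b : ℂ, Complex.normSq (a - b) ≤ 2 * Complex.normSq a + 2 * Complex.normSq b := by
    intro a b
    simp only [Complex.normSq_apply, Complex.sub_re, Complex.sub_im]
    nlinarith [mul_self_nonneg (a.re + b.re), mul_self_nonneg (a.im + b.im)]
  have h1 : curl (fun x j => F x * dz j u x) x ≤ ∑ j, ∑ k,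
      (2 * (Complex.normSq (dz k F x) * Complex.normSq (dz j u x)) +
        2 * (Complex.normSq (dz j F x) * Complex.normSq (dz k u x))) := by
    unfold curl
    refine Finset.sum_le_sum fun j _ => Finset.sum_le_sum fun k _ => ?_
    rw [key j k]
    refine (hle _ _).trans ?_
    rw [Complex.normSq_mul, Complex.normSq_mul]
  refine h1.trans (le_of_eq ?_)
  unfold gr
  simp only [Fin.sum_univ_three]
  ring

theorem LocE_gr_int {F u : V → ℂ} (hF : IsFun F) (hu : IsFun u) :
    Integrable (fun x => gr F x * gr u x * wt x) := by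
  have hg : ∀ v : V → ℂ, IsFun v → Hom (-1) (-1) (fun x => ∑ j, dz j v x * conj (dz j v x)) := by
    intro v hv
    refine hom_sum Finset.univ (fun j x => dz j v x * conj (dz j v x)) fun j _ => ?_
    have := hom_mul (LocE_hom hv j) (hom_conj (LocE_hom hv j))
    simpa using this
  have hm := hom_mul (hg F hF) (hg u hu)
  have hi := (chom_integrable hm.chom (by norm_num)).re
  refine hi.congr (Filter.Eventually.of_forall fun x => ?_)
  have hs : ∀ v : V → ℂ, ∑ j, dz j v x * conj (dz j v x) = ((gr v x : ℝ) : ℂ) := by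
    intro v
    unfold gr
    push_cast
    exact Finset.sum_congr rfl fun j _ => Complex.mul_conj _
  show RCLike.re ((∑ j, dz j F x * conj (dz j F x)) * (∑ j, dz j u x * conj (dz j u x)) *
    (wt x : ℂ)) = gr F x * gr u x * wt x
  rw [hs, hs, ← Complex.ofReal_mul, ← Complex.ofReal_mul]
  exact Complex.ofReal_re _

theorem LocE_hsK {F u : V → ℂ} (rF : IsRe F) (x : V) :
    hs (fun j k => dz j u x * dzb k F x) = gr F x * gr u x := by
  have h1 := hs_rank1 (fun j => dz j u x) (fun k => dzb k F x)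
  rw [h1]
  have h2 : N (fun j => dz j u x) = gr u x := rfl
  have h3 : N (fun k => dzb k F x) = gr F x := by
    unfold N gr
    refine Finset.sum_congr rfl fun k _ => ?_
    have h4 : (fun y => conj (F y)) = F := funext rF
    have h5 := conj_dz k F x
    rw [h4] at h5
    show Complex.normSq (dzb k F x) = Complex.normSq (dz k F x)
    rw [← h5, Complex.normSq_conj]
  rw [h2, h3]
  ring

theorem LocE_amgm {q a b : ℝ} (h : q ^ 2 ≤ b * a) (ha : 0 ≤ a) (hb : 0 ≤ b) :
    q ≤ a / 20 + 5 * b := by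
  have h1 : q ^ 2 ≤ (a / 20 + 5 * b) ^ 2 := by nlinarith [sq_nonneg (a / 20 - 5 * b)]
  exact le_of_sq_le_sq h1 (by positivity)

theorem LocE_mix {c0 s1 : ℝ} {φ : ℝ → ℝ} (hφ : Prof c0 s1 φ)
    {ρ : ℝ} (hρ : 0 < ρ) {p : V} (hp : N p = 1) {u : V → ℂ} (hu : IsFun u)
    {E : V → M3} (hE : InH0 E) :
    -(∫ x, (cutF φ ρ p x).re * (ee (L u x) (E x)).re * wt x) ≤
      (∫ x, gr (cutF φ ρ p) x * gr u x * wt x) / 4 + 25 * ∫ x, hs (E x) * wt x := by
  have FF := isFun_cutF (c0 := c0) (s1 := s1) hφ hρ hp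
  have rF := isRe_cutF φ ρ p
  set F := cutF φ ρ p with hFdef
  have hm : ∀ x, 0 ≤ (F x).re ∧ (F x).re ≤ 1 := fun x => cutF_mem hφ ρ p x
  have Fmeas : AEStronglyMeasurable F (volume : Measure V) :=
    (measurable_of_continuousOn_compl_singleton 0 FF.smooth.continuousOn).aestronglyMeasurable
  have Fnorm : ∀ x, ‖F x‖ ≤ 1 := by
    intro x
    rw [LocE_re rF x, Complex.norm_real, Real.norm_eq_abs, abs_of_nonneg (hm x).1]
    exact (hm x).2
  have hEf := hE.form
  have hLf := form_L hu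
  have hcov := LocE_cov FF hu
  have hFL : IsForm (fun x => F x • L u x) := form_smul_fun hLf (isFun_iff.mp FF).chom
  have hK : IsForm (fun x => db (fun x j => F x * dz j u x) x - F x • L u x) :=
    form_sub (form_db hcov) hFL
  have hKeq : ∀ x : V, x ≠ 0 → db (fun x j => F x * dz j u x) x - F x • L u x =
      (fun j k => dz j u x * dzb k F x) := by
    intro x hx
    funext j k
    have h1 : (db (fun x j => F x * dz j u x) x - F x • L u x) j k =
      db (fun x j => F x * dz j u x) x j k - F x * L u x j k := rfl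
    rw [h1, LocE_db FF hu hx]
    ring
  -- the integral as a real part
  have e1 : ∫ x, (F x).re * (ee (L u x) (E x)).re * wt x = (qq (fun x => F x • L u x) E).re := by
    unfold qq
    have h2 := ee_int hFL hEf
    rw [← RCLike.re_to_complex, ← integral_re h2]
    refine integral_congr_ae (Filter.Eventually.of_forall fun x => ?_)
    show (F x).re * (ee (L u x) (E x)).re * wt x = (ee (F x • L u x) (E x) * (wt x : ℂ)).re
    rw [ee_smul_left, Complex.re_mul_ofReal]
    conv_rhs => rw [LocE_re rF x, Complex.re_ofReal_mul]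
  have e2 : qq (fun x => F x • L u x) E = qq (db (fun x j => F x * dz j u x)) E -
      qq (fun x => db (fun x j => F x * dz j u x) x - F x • L u x) E := by
    rw [qq_sub_left (form_db hcov) hFL hEf]
    ring
  have hGi := LocE_gr_int FF hu
  have hHi := hs_int hEf
  have hG0 : 0 ≤ ∫ x, gr F x * gr u x * wt x := by
    refine integral_nonneg fun x => ?_
    have a1 : 0 ≤ gr F x := Finset.sum_nonneg fun _ _ => Complex.normSq_nonneg _
    have a2 : 0 ≤ gr u x := Finset.sum_nonneg fun _ _ => Complex.normSq_nonneg _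
    exact mul_nonneg (mul_nonneg a1 a2) (LocE_wt_pos x).le
  have hH0 : 0 ≤ ∫ x, hs (E x) * wt x :=
    integral_nonneg fun x => mul_nonneg (hs_nonneg _) (LocE_wt_pos x).le
  -- first term
  have b1 : ‖qq (db (fun x j => F x * dz j u x)) E‖ ≤
      (∫ x, gr F x * gr u x * wt x) / 20 + 5 * ∫ x, hs (E x) * wt x := by
    rw [qq_comm]
    refine LocE_amgm ((ta hE hcov).trans ?_) hG0 hH0
    have c1 : nn E E ≤ ∫ x, hs (E x) * wt x := by
      rw [hs_split hEf hE.herm]
      have : 0 ≤ ∫ x, ((E x).trace).re ^ 2 * wt x :=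
        integral_nonneg fun x => mul_nonneg (sq_nonneg _) (LocE_wt_pos x).le
      linarith
    have c2 : (1 / 4) * ∫ x, curl (fun x j => F x * dz j u x) x * wt x ≤
        ∫ x, gr F x * gr u x * wt x := by
      have c3 : ∫ x, curl (fun x j => F x * dz j u x) x * wt x ≤
          ∫ x, 4 * (gr F x * gr u x * wt x) := by
        refine integral_mono_ae (curl_integrable hcov) (hGi.const_mul 4) ?_
        filter_upwards [HFac_ae_ne] with x hx
        have c4 := mul_le_mul_of_nonneg_right (LocE_curl FF hu hx) (LocE_wt_pos x).le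
        calc curl (fun x j => F x * dz j u x) x * wt x ≤ 4 * (gr F x * gr u x) * wt x := c4
          _ = 4 * (gr F x * gr u x * wt x) := by ring
      rw [integral_const_mul] at c3
      linarith
    have c5 : 0 ≤ (1 / 4) * ∫ x, curl (fun x j => F x * dz j u x) x * wt x := by
      refine mul_nonneg (by norm_num) (integral_nonneg fun x => mul_nonneg ?_ (LocE_wt_pos x).le)
      exact Finset.sum_nonneg fun _ _ => Finset.sum_nonneg fun _ _ => Complex.normSq_nonneg _
    exact mul_le_mul c1 c2 c5 hH0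
  -- second term
  have b2 : ‖qq (fun x => db (fun x j => F x * dz j u x) x - F x • L u x) E‖ ≤
      (∫ x, gr F x * gr u x * wt x) / 5 + 20 * ∫ x, hs (E x) * wt x := by
    have hi : Integrable (fun x => (1 / 5) * (gr F x * gr u x * wt x) + 20 * (hs (E x) * wt x)) :=
      (hGi.const_mul _).add (hHi.const_mul _)
    have h3 : ∫ x, ((1 / 5) * (gr F x * gr u x * wt x) + 20 * (hs (E x) * wt x)) =
        (∫ x, gr F x * gr u x * wt x) / 5 + 20 * ∫ x, hs (E x) * wt x := by
      rw [integral_add (hGi.const_mul _) (hHi.const_mul _), integral_const_mul, integral_const_mul]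
      ring
    rw [← h3]
    unfold qq
    refine norm_integral_le_of_norm_le hi ?_
    filter_upwards [HFac_ae_ne] with x hx
    rw [hKeq x hx, norm_mul, Complex.norm_real, Real.norm_eq_abs, abs_of_pos (LocE_wt_pos x)]
    have h4 := ee_abs (fun j k => dz j u x * dzb k F x) (E x)
    rw [LocE_hsK rF x] at h4
    have a1 : 0 ≤ gr F x := Finset.sum_nonneg fun _ _ => Complex.normSq_nonneg _
    have a2 : 0 ≤ gr u x := Finset.sum_nonneg fun _ _ => Complex.normSq_nonneg _
    have s1 := Real.sq_sqrt (mul_nonneg a1 a2)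
    have s2 := Real.sq_sqrt (hs_nonneg (E x))
    have h5 : 4 * (Real.sqrt (gr F x * gr u x) * Real.sqrt (hs (E x))) ≤
        (1 / 5) * (gr F x * gr u x) + 20 * hs (E x) := by
      nlinarith [sq_nonneg (Real.sqrt (gr F x * gr u x) - 10 * Real.sqrt (hs (E x)))]
    calc ‖ee (fun j k => dz j u x * dzb k F x) (E x)‖ * wt x
        ≤ ((1 / 5) * (gr F x * gr u x) + 20 * hs (E x)) * wt x :=
          mul_le_mul_of_nonneg_right (h4.trans h5) (LocE_wt_pos x).le
      _ = (1 / 5) * (gr F x * gr u x * wt x) + 20 * (hs (E x) * wt x) := by ring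
  rw [e1, e2]
  have h6 : -(qq (db (fun x j => F x * dz j u x)) E -
      qq (fun x => db (fun x j => F x * dz j u x) x - F x • L u x) E).re ≤
      ‖qq (db (fun x j => F x * dz j u x)) E‖ +
        ‖qq (fun x => db (fun x j => F x * dz j u x) x - F x • L u x) E‖ := by
    refine le_trans ?_ (norm_sub_le _ _)
    exact (neg_le_abs _).trans (Complex.abs_re_le_norm _)
  linarith

theorem loc_ineq_int {c0 s1 : ℝ} {φ : ℝ → ℝ} (hφ : Prof c0 s1 φ) (h0 : 1 ≤ c0) (h1 : 1 ≤ s1)
    {ρ : ℝ} (hρ : 0 < ρ) (hρ' : ρ ≤ 1 / 2) {p : V} (hp : N p = 1) {u : V → ℂ} (hu : IsFun u)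
    (ru : IsRe u) {E : V → M3} (hE : InH0 E) :
    -(∫ x, (cutF φ ρ p x).re * (ee (L u x + E x) (L u x + E x)).re * wt x) ≤
      (51 + c0) * (∫ x, hs (E x) * wt x) +
        (51 + c0) / s1 * (∫ x in Ann p ρ, gr (tt p) x * gr u x * wt x) := by
  obtain ⟨Gd, hGd, hA, hB⟩ := loc_good hφ h0 h1 hρ hρ' hp hu ru
  have hmix := LocE_mix hφ hρ hp hu hE
  have hann := ann_nonneg p ρ u
  have FF := isFun_cutF (c0 := c0) (s1 := s1) hφ hρ hp
  have rF := isRe_cutF φ ρ p
  set F := cutF φ ρ p with hFdef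
  have hm : ∀ x, 0 ≤ (F x).re ∧ (F x).re ≤ 1 := fun x => cutF_mem hφ ρ p x
  have Fmeas : AEStronglyMeasurable F (volume : Measure V) :=
    (measurable_of_continuousOn_compl_singleton 0 FF.smooth.continuousOn).aestronglyMeasurable
  have Fnorm : ∀ x, ‖F x‖ ≤ 1 := by
    intro x
    rw [LocE_re rF x, Complex.norm_real, Real.norm_eq_abs, abs_of_nonneg (hm x).1]
    exact (hm x).2
  have hEf := hE.form
  have hLf := form_L hu
  have hint : ∀ A B : V → M3, IsForm A → IsForm B →
      Integrable (fun x => (F x).re * (ee (A x) (B x)).re * wt x) := by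
    intro A B hA hB
    have h2 := (ee_int_bdd hA hB Fmeas Fnorm).re
    refine h2.congr (Filter.Eventually.of_forall fun x => ?_)
    show (F x * ee (A x) (B x) * (wt x : ℂ)).re = (F x).re * (ee (A x) (B x)).re * wt x
    rw [Complex.re_mul_ofReal]
    conv_lhs => rw [LocE_re rF x, Complex.re_ofReal_mul]
  have i1 := hint _ _ hLf hLf
  have i2 := hint _ _ hLf hEf
  have i3 := hint _ _ hEf hEf
  have hsum : ∫ x, (F x).re * (ee (L u x + E x) (L u x + E x)).re * wt x =
      (∫ x, (F x).re * (ee (L u x) (L u x)).re * wt x) +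
        2 * (∫ x, (F x).re * (ee (L u x) (E x)).re * wt x) +
          ∫ x, (F x).re * (ee (E x) (E x)).re * wt x := by
    have q1 := integral_add i1 (i2.const_mul 2)
    have q2 := integral_add (i1.add (i2.const_mul 2)) i3
    rw [← integral_const_mul, ← q1]
    refine Eq.trans ?_ q2
    refine integral_congr_ae (Filter.Eventually.of_forall fun x => ?_)
    have h3 : ee (L u x + E x) (L u x + E x) =
        ee (L u x) (L u x) + 2 * ee (L u x) (E x) + ee (E x) (E x) := by
      rw [ee_add_left, ee_comm (L u x) (L u x + E x), ee_comm (E x) (L u x + E x), ee_add_left,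
        ee_add_left, ee_comm (E x) (L u x)]
      ring
    show (F x).re * (ee (L u x + E x) (L u x + E x)).re * wt x = _
    rw [h3]
    have h4 : (2 * ee (L u x) (E x)).re = 2 * (ee (L u x) (E x)).re := by
      simp [Complex.mul_re]
    simp only [Pi.add_apply, Complex.add_re, h4]
    ring
  have h5 : -(∫ x, hs (E x) * wt x) ≤ ∫ x, (F x).re * (ee (E x) (E x)).re * wt x := by
    rw [← integral_neg]
    refine integral_mono_ae (hs_int hEf).neg i3 ?_
    filter_upwards [HFac_ae_ne] with x hx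
    have h6 := ee_hs (hE.herm x hx)
    have h7 : -hs (E x) ≤ (F x).re * (ee (E x) (E x)).re := by
      rw [h6]
      have a1 := hs_nonneg (E x)
      have a2 := sq_nonneg ((E x).trace.re)
      obtain ⟨a3, a4⟩ := hm x
      nlinarith [mul_nonneg a3 a2, mul_nonneg (sub_nonneg.2 a4) a1]
    calc -(hs (E x) * wt x) = (-hs (E x)) * wt x := by ring
      _ ≤ (F x).re * (ee (E x) (E x)).re * wt x :=
        mul_le_mul_of_nonneg_right h7 (LocE_wt_pos x).le
  have hH0 : 0 ≤ ∫ x, hs (E x) * wt x :=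
    integral_nonneg fun x => mul_nonneg (hs_nonneg _) (LocE_wt_pos x).le
  rw [hsum]
  have hs0 : 0 < s1 := by linarith
  have h8 : c0 / s1 * (∫ x in Ann p ρ, gr (tt p) x * gr u x * wt x) +
      1 / s1 * (∫ x in Ann p ρ, gr (tt p) x * gr u x * wt x) ≤
      (51 + c0) / s1 * (∫ x in Ann p ρ, gr (tt p) x * gr u x * wt x) := by
    rw [← add_mul, ← add_div]
    refine mul_le_mul_of_nonneg_right ?_ hann
    exact div_le_div_of_nonneg_right (by linarith) hs0.le
  have h9 : 0 ≤ 1 / s1 * (∫ x in Ann p ρ, gr (tt p) x * gr u x * wt x) :=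
    mul_nonneg (by positivity) hann
  have h10 : 0 ≤ c0 * ∫ x, hs (E x) * wt x := mul_nonneg (by linarith) hH0
  have h11 : (51 + c0) * (∫ x, hs (E x) * wt x) =
      51 * (∫ x, hs (E x) * wt x) + c0 * ∫ x, hs (E x) * wt x := by ring
  rw [h11]
  linarith

end Pool.Agent.H85.DC
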