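import Pool.Agent.H85.DC.FinB
import Pool.Agent.H85.DC.LocE
import Pool.Agent.H85.DC.EnA
import Pool.Agent.H85.DC.AdmI

/-!
# Row FinC: the estimate near one singular point

Data: `A0 ∈ H0`; `c0` from `exists_prof`; `X = DD ε - A0 ∈ H0` (`inH0_sub`, `inH0_D`), `κ > 0`, `n` from `decomp` for `X`, `u = green n (N tr X)` (`green_E`), `E = X - L u ∈ H0` (`inH0_L`, `inH0_sub`).
`nn E E = nn X X` (`nn_sub_L`), `|tr E| ≤ κ/N`, so `∫ hs E wt = nn E E + ∫ (tr E)^2 wt ≤ nn X X + κ^2 π^3/2 ≤ nn X X + 16 κ^2` (`hs_split`, `int_Nm2`).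
For `p ∈ P`, `F_p = cutF φ ρ p`: `DD = X + A0`, `ee DD DD = ee X X + 2 ee A0 DD - ee A0 A0` (bilinear, symmetric), so
`-∫ F_p Re ee DD DD wt = -∫ F_p Re ee X X - 2 ∫ F_p Re ee A0 DD + ∫ F_p Re ee A0 A0 ≤ [loc_ineq_int with X = L u + E] + 2 ∫_{B(p,ρ)} |ee A0 DD| wt + ∫_{B(p,ρ)} |ee A0 A0| wt`
(`0 ≤ F_p ≤ 1`, `F_p = 0` where `tau ≥ ρ^2` (`cutF_zero`)).
The annulus term: `energy` with `m = μ + μ'`, `f = N Re tr X`: `|f y| ≤ |N tr (sm μ)| + |N tr (sm μ')| + |N tr A0| ≤ 3 ∫ kk dμ + 3 ∫ kk dμ' + CA` (`tr_sm_le`, `tr_nonneg` with `pos_sm`; `CA ≥ 3 C_{A0}` bound of `N |tr A0|`, `form_bound`); `f` is continuous off `0` and of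
degree `0`, so bounded and a.e. strongly measurable (`chom_Ntr`, `chom_bound`). Here `ρ ≤ min ρ0 (1/2)`, and `r`, `C = C(ρ, CA)` as in `energy`.
-/

open MeasureTheory
open scoped ContDiff BigOperators ComplexConjugate Matrix

namespace Pool.Agent.H85.DC

theorem FinC_ae_ne : ∀ᵐ x : V, x ≠ 0 := by
  have h : (volume : Measure V) {(0 : V)} = 0 := measure_singleton 0
  exact compl_mem_ae_iff.2 h

theorem FinC_aesm {f : V → ℂ} (hf : ContinuousOn f {0}ᶜ) :
    AEStronglyMeasurable f (volume : Measure V) := by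
  have h := hf.aestronglyMeasurable (μ := (volume : Measure V))
    (isOpen_compl_singleton.measurableSet)
  rwa [Measure.restrict_eq_self_of_ae_mem] at h
  exact FinC_ae_ne

theorem FinC_cut_aesm {c0 s1 : ℝ} {φ : ℝ → ℝ} (hφ : Prof c0 s1 φ) {ρ : ℝ} (hρ : 0 < ρ) {p : V}
    (hp : N p = 1) :
    AEStronglyMeasurable (fun x => (((cutF φ ρ p x).re : ℝ) : ℂ)) (volume : Measure V) := by
  have h := FinC_aesm (isFun_cutF hφ hρ hp).smooth.continuousOn
  have h2 : AEStronglyMeasurable (fun x => (cutF φ ρ p x).re) (volume : Measure V) :=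
    Complex.continuous_re.comp_aestronglyMeasurable h
  exact Complex.continuous_ofReal.comp_aestronglyMeasurable h2

theorem FinC_int {c0 s1 : ℝ} {φ : ℝ → ℝ} (hφ : Prof c0 s1 φ) {ρ : ℝ} (hρ : 0 < ρ) {p : V}
    (hp : N p = 1) {A B : V → M3} (hA : IsForm A) (hB : IsForm B) :
    Integrable (fun x => (cutF φ ρ p x).re * (ee (A x) (B x)).re * wt x) := by
  have h := ee_int_bdd hA hB (FinC_cut_aesm hφ hρ hp) (b := 1) (by
    intro x
    have := cutF_mem hφ ρ p x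
    rw [Complex.norm_real, Real.norm_eq_abs, abs_le]
    constructor
    · linarith [this.1]
    · exact this.2)
  have h2 := h.re
  refine h2.congr (Filter.Eventually.of_forall fun x => ?_)
  show RCLike.re ((((cutF φ ρ p x).re : ℝ) : ℂ) * ee (A x) (B x) * (wt x : ℂ)) = _
  have : RCLike.re ((((cutF φ ρ p x).re : ℝ) : ℂ) * ee (A x) (B x) * (wt x : ℂ)) =
      ((((cutF φ ρ p x).re : ℝ) : ℂ) * ee (A x) (B x) * (wt x : ℂ)).re := rfl
  rw [this, Complex.re_mul_ofReal, Complex.re_ofReal_mul]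

theorem FinC_tau_meas (p : V) : Measurable (fun x : V => tau x p) := by
  have h0 : Measurable (fun x : V => ((x, p) : V × V)) :=
    Measurable.prodMk measurable_id measurable_const
  have h := Measurable.comp (g := fun q : V × V => tau q.1 q.2)
    (f := fun x : V => ((x, p) : V × V)) measurable_tau h0
  exact h

theorem FinC_tau_meas' (y : V) : Measurable (fun z : V => tau y z) := by
  have h0 : Measurable (fun z : V => ((y, z) : V × V)) :=
    Measurable.prodMk measurable_const measurable_id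
  have h := Measurable.comp (g := fun q : V × V => tau q.1 q.2)
    (f := fun z : V => ((y, z) : V × V)) measurable_tau h0
  exact h

theorem FinC_kk_meas (ε : ℝ) : Measurable (fun t : ℝ => kk ε t) := by
  unfold kk
  fun_prop

theorem FinC_ball_meas (p : V) (ρ : ℝ) :
    MeasurableSet {x : V | x ≠ 0 ∧ tau x p ≤ ρ ^ 2} := by
  have h1 := FinC_tau_meas p
  have e : {x : V | x ≠ 0 ∧ tau x p ≤ ρ ^ 2} = ({0} : Set V)ᶜ ∩ {x | tau x p ≤ ρ ^ 2} := by
    ext x
    simp only [Set.mem_inter_iff, Set.mem_compl_iff, Set.mem_singleton_iff]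
    exact Iff.rfl
  rw [e]
  exact (measurableSet_singleton (0 : V)).compl.inter (measurableSet_le h1 measurable_const)

theorem FinC_term {c0 s1 : ℝ} {φ : ℝ → ℝ} (hφ : Prof c0 s1 φ) {ρ : ℝ} (hρ : 0 < ρ) {p : V}
    {A B : V → M3} (hA : IsForm A) (hB : IsForm B) :
    |∫ x, (cutF φ ρ p x).re * (ee (A x) (B x)).re * wt x| ≤
      ∫ x in {x : V | x ≠ 0 ∧ tau x p ≤ ρ ^ 2}, ‖ee (A x) (B x)‖ * wt x := by
  have hms := FinC_ball_meas p ρ
  have hint : Integrable (fun x => ‖ee (A x) (B x)‖ * wt x) := by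
    refine (ee_int hA hB).norm.congr (Filter.Eventually.of_forall fun x => ?_)
    have hwt : 0 ≤ wt x := Real.exp_nonneg _
    show ‖ee (A x) (B x) * (wt x : ℂ)‖ = ‖ee (A x) (B x)‖ * wt x
    rw [norm_mul, Complex.norm_real, Real.norm_eq_abs, abs_of_nonneg hwt]
  rw [← integral_indicator hms, ← Real.norm_eq_abs]
  refine norm_integral_le_of_norm_le (hint.indicator hms) ?_
  filter_upwards [FinC_ae_ne] with x hx
  have hwt : 0 ≤ wt x := Real.exp_nonneg _
  by_cases hxB : x ∈ {x : V | x ≠ 0 ∧ tau x p ≤ ρ ^ 2}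
  · rw [Set.indicator_of_mem hxB, norm_mul, norm_mul, Real.norm_eq_abs, Real.norm_eq_abs,
      Real.norm_eq_abs, abs_of_nonneg hwt, abs_of_nonneg (cutF_mem hφ ρ p x).1]
    refine mul_le_mul_of_nonneg_right ?_ hwt
    calc (cutF φ ρ p x).re * |(ee (A x) (B x)).re|
        ≤ 1 * ‖ee (A x) (B x)‖ :=
          mul_le_mul (cutF_mem hφ ρ p x).2 (Complex.abs_re_le_norm _) (abs_nonneg _) zero_le_one
      _ = ‖ee (A x) (B x)‖ := one_mul _
  · rw [Set.indicator_of_notMem hxB]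
    have h0 : ρ ^ 2 ≤ tau x p := by
      by_contra hc
      exact hxB ⟨hx, (not_le.1 hc).le⟩
    rw [cutF_zero hφ hρ h0]
    simp

/-- The identity `ee D D = ee X X + 2 ee A D - ee A A` for `D = X + A`. -/
theorem FinC_ee (D A : M3) :
    (ee D D).re = (ee (D - A) (D - A)).re + 2 * (ee A D).re - (ee A A).re := by
  have h1 : D = (D - A) + A := by rw [sub_add_cancel]
  set X := D - A with hX
  have e1 : ee D D = ee X X + ee A X + ee A X + ee A A := by
    rw [h1, ee_add_left, ee_comm X (X + A), ee_comm A (X + A), ee_add_left, ee_add_left,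
      ee_comm X A]
    ring
  have e2 : ee A D = ee A X + ee A A := by
    rw [h1, ee_comm A (X + A), ee_add_left, ee_comm X A]
  rw [e1, e2]
  simp only [Complex.add_re]
  ring

theorem FinC_pi : 0 < Real.pi ^ 3 := pow_pos Real.pi_pos 3

theorem FinC_hs {E : V → M3} (hE : InH0 E) {κ : ℝ} (hκ : 0 < κ)
    (h : ∀ x : V, x ≠ 0 → ‖(N x : ℂ) * (E x).trace‖ ≤ Real.sqrt (κ / Real.pi ^ 3)) :
    ∫ x, hs (E x) * wt x ≤ nn E E + κ := by
  rw [hs_split hE.form hE.herm]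
  have hint : Integrable (fun x : V => (N x) ^ (-2 : ℤ) * wt x) := by
    by_contra hc
    have h1 := int_Nm2
    rw [integral_undef hc] at h1
    have := FinC_pi
    linarith
  have h2 : ∫ x, ((E x).trace).re ^ 2 * wt x ≤
      ∫ x : V, (κ / Real.pi ^ 3) * ((N x) ^ (-2 : ℤ) * wt x) := by
    refine integral_mono_ae (tr_int hE.form) (hint.const_mul _) ?_
    filter_upwards [FinC_ae_ne] with x hx
    have hN := N_pos hx
    have hwt : 0 ≤ wt x := Real.exp_nonneg _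
    rw [← mul_assoc]
    refine mul_le_mul_of_nonneg_right ?_ hwt
    have h3 := h x hx
    rw [norm_mul, Complex.norm_real, Real.norm_eq_abs, abs_of_pos hN] at h3
    have h4 : N x * |((E x).trace).re| ≤ Real.sqrt (κ / Real.pi ^ 3) :=
      le_trans (mul_le_mul_of_nonneg_left (Complex.abs_re_le_norm _) hN.le) h3
    have h5 : (N x * |((E x).trace).re|) ^ 2 ≤ κ / Real.pi ^ 3 := by
      calc (N x * |((E x).trace).re|) ^ 2 ≤ (Real.sqrt (κ / Real.pi ^ 3)) ^ 2 :=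
            pow_le_pow_left₀ (by positivity) h4 2
        _ = κ / Real.pi ^ 3 := Real.sq_sqrt (by have := FinC_pi; positivity)
    rw [mul_pow, sq_abs] at h5
    have h6 : (N x) ^ (-2 : ℤ) = ((N x) ^ 2)⁻¹ := by
      rw [zpow_neg]; rfl
    rw [h6, ← div_eq_mul_inv, le_div_iff₀ (by positivity), mul_comm]
    exact h5
  rw [integral_const_mul, int_Nm2] at h2
  have h7 : κ / Real.pi ^ 3 * (Real.pi ^ 3 / 2) = κ / 2 := by
    have := FinC_pi
    field_simp
  rw [h7] at h2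
  linarith

theorem FinC_kk_int {ε : ℝ} (hε : 0 < ε) (h1 : ε ≤ 1) (y : V) {μ : Measure V}
    [IsFiniteMeasure μ] : Integrable (fun z => kk ε (tau y z)) μ := by
  have hm : Measurable (fun z : V => kk ε (tau y z)) := by
    have h := Measurable.comp (g := fun t : ℝ => kk ε t) (f := fun z : V => tau y z)
      (FinC_kk_meas ε) (FinC_tau_meas' y)
    exact h
  refine Integrable.of_bound hm.aestronglyMeasurable (2 * ε⁻¹ ^ 4)
    (Filter.Eventually.of_forall fun z => ?_)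
  rw [Real.norm_eq_abs, abs_of_nonneg (kk_nonneg (tau_le_one y z))]
  refine le_trans (kk_le hε h1 (tau_nonneg y z)) ?_
  have h4 : Real.exp (-(tau y z) / ε ^ 2) ≤ 1 := by
    rw [Real.exp_le_one_iff]
    exact div_nonpos_of_nonpos_of_nonneg (by linarith [tau_nonneg y z]) (by positivity)
  calc 2 * ε⁻¹ ^ 4 * Real.exp (-(tau y z) / ε ^ 2) ≤ 2 * ε⁻¹ ^ 4 * 1 :=
        mul_le_mul_of_nonneg_left h4 (by positivity)
    _ = 2 * ε⁻¹ ^ 4 := mul_one _

theorem FinC_f_bound {F : Fin 3 → MvPolynomial (Fin 3) ℂ} {μ μ' : Measure V} (hμ : IsCur F μ)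
    (hμ' : IsCur F μ') {A0 : V → M3} {CA : ℝ}
    (hCA : ∀ x : V, x ≠ 0 → ∀ j k, ‖A0 x j k‖ ≤ CA / N x) {ε : ℝ} (hε : 0 < ε) (h1 : ε ≤ 1)
    {y : V} (hy : y ≠ 0) :
    |N y * ((DD F μ μ' ε y - A0 y).trace).re| ≤ 3 * CA + 3 * ∫ z, kk ε (tau y z) ∂(μ + μ') := by
  have hN := N_pos hy
  have : IsFiniteMeasure μ := ⟨by rw [hμ.prob]; exact ENNReal.one_lt_top⟩
  have : IsFiniteMeasure μ' := ⟨by rw [hμ'.prob]; exact ENNReal.one_lt_top⟩
  rw [integral_add_measure (FinC_kk_int hε h1 y) (FinC_kk_int hε h1 y)]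
  have a1 := tr_sm_le hμ hε h1 hy
  have a2 := tr_sm_le hμ' hε h1 hy
  have b1 : 0 ≤ N y * ((sm F μ ε y).trace).re :=
    mul_nonneg hN.le (tr_nonneg (fun w => pos_sm hμ hε h1 hy w))
  have b2 : 0 ≤ N y * ((sm F μ' ε y).trace).re :=
    mul_nonneg hN.le (tr_nonneg (fun w => pos_sm hμ' hε h1 hy w))
  have c1 : |N y * ((A0 y).trace).re| ≤ 3 * CA := by
    rw [abs_mul, abs_of_pos hN]
    have h2 : |((A0 y).trace).re| ≤ 3 * (CA / N y) := by
      refine le_trans (Complex.abs_re_le_norm _) ?_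
      unfold Matrix.trace
      refine le_trans (norm_sum_le _ _) ?_
      rw [Fin.sum_univ_three]
      simp only [Matrix.diag_apply]
      linarith [hCA y hy 0 0, hCA y hy 1 1, hCA y hy 2 2]
    calc N y * |((A0 y).trace).re| ≤ N y * (3 * (CA / N y)) :=
          mul_le_mul_of_nonneg_left h2 hN.le
      _ = 3 * CA := by field_simp
  have e : N y * ((DD F μ μ' ε y - A0 y).trace).re =
      N y * ((sm F μ ε y).trace).re - N y * ((sm F μ' ε y).trace).re -
        N y * ((A0 y).trace).re := by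
    unfold DD
    rw [Matrix.trace_sub, Matrix.trace_sub, Complex.sub_re, Complex.sub_re]
    ring
  rw [e]
  rw [abs_le] at c1 ⊢
  constructor
  · linarith [c1.1, c1.2]
  · linarith [c1.1, c1.2]

theorem near_p {F : Fin 3 → MvPolynomial (Fin 3) ℂ} {P : Finset V} (hP : SingPts F P)
    {μ μ' : Measure V} (hμ : IsCur F μ) (hμ' : IsCur F μ') (hd : DdcClosed F μ)
    (hd' : DdcClosed F μ') {A0 : V → M3} (hA : InH0 A0) {c0 : ℝ} (hc0 : 1 ≤ c0) :
    ∃ ρ0 : ℝ, 0 < ρ0 ∧ ∀ ρ : ℝ, 0 < ρ → ρ ≤ ρ0 → ∃ (r C : ℝ), 0 < r ∧ 0 < C ∧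
      ∀ (ε s1 : ℝ) (φ : ℝ → ℝ) (p : V), 0 < ε → ε ≤ 1 → 1 ≤ s1 → Prof c0 s1 φ → p ∈ P →
        ∀ κ : ℝ, 0 < κ →
        -(∫ x, (cutF φ ρ p x).re * (ee (DD F μ μ' ε x) (DD F μ μ' ε x)).re * wt x) ≤
          (51 + c0) * (nn (fun x => DD F μ μ' ε x - A0 x) (fun x => DD F μ μ' ε x - A0 x) + κ) +
          C * ((1 + En (μ + μ') P r ε) / s1) +
          2 * (∫ x in {x : V | x ≠ 0 ∧ tau x p ≤ ρ ^ 2}, ‖ee (A0 x) (DD F μ μ' ε x)‖ * wt x) +
          ∫ x in {x : V | x ≠ 0 ∧ tau x p ≤ ρ ^ 2}, ‖ee (A0 x) (A0 x)‖ * wt x := by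
  obtain ⟨ρE, hρE, hEn⟩ := energy hP.unit hP.sep
  obtain ⟨CA, hCA0, hCA⟩ := form_bound hA.form
  refine ⟨min ρE (1 / 2), lt_min hρE (by norm_num), ?_⟩
  intro ρ hρ hρ0
  obtain ⟨r, hr, hEn2⟩ := hEn ρ hρ (le_trans hρ0 (min_le_left _ _))
  have hρ2 : ρ ≤ 1 / 2 := le_trans hρ0 (min_le_right _ _)
  obtain ⟨CE, hCE, hEn3⟩ := hEn2 (3 * CA) (by linarith)
  refine ⟨r, (51 + c0) * CE, hr, by positivity, ?_⟩
  intro ε s1 φ p hε hε1 hs1 hφ hp κ hκ
  have hNp := hP.unit p hp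
  have hD := inH0_D hμ hμ' hd hd' hε hε1
  have hX : InH0 (fun x => DD F μ μ' ε x - A0 x) := inH0_sub hD hA
  set X : V → M3 := fun x => DD F μ μ' ε x - A0 x with hXdef
  have hκ' : 0 < Real.sqrt (κ / Real.pi ^ 3) := Real.sqrt_pos.2 (div_pos hκ FinC_pi)
  obtain ⟨n, hn⟩ := decomp hX hκ'
  obtain ⟨hu, ru⟩ := green_E hX n
  set u := green n (fun y => N y * ((X y).trace).re) with hudef
  have hE : InH0 (fun x => X x - L u x) := inH0_sub hX (inH0_L hu ru)
  have hnn : nn (fun x => X x - L u x) (fun x => X x - L u x) = nn X X :=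
    nn_sub_L hX.toInH hu ru
  have hhs := FinC_hs hE hκ hn
  rw [hnn] at hhs
  have hloc := loc_ineq_int hφ hc0 hs1 hρ hρ2 hNp hu ru hE
  have hLX : ∀ x, L u x + (X x - L u x) = X x := fun x => by abel
  simp only [hLX] at hloc
  -- the energy
  have hfm : AEStronglyMeasurable (fun y => N y * ((X y).trace).re) (volume : Measure V) := by
    have h := FinC_aesm (chom_Ntr hX.form).cont
    have h2 : AEStronglyMeasurable (fun x => ((N x : ℂ) * (X x).trace).re) (volume : Measure V) :=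
      Complex.continuous_re.comp_aestronglyMeasurable h
    refine h2.congr (Filter.Eventually.of_forall fun x => ?_)
    show ((N x : ℂ) * (X x).trace).re = _
    rw [Complex.re_ofReal_mul]
  have hfb : ∃ b : ℝ, ∀ y : V, y ≠ 0 → |N y * ((X y).trace).re| ≤ b := by
    obtain ⟨C, hC0, hC⟩ := chom_bound (chom_Ntr hX.form)
    refine ⟨Real.sqrt C, fun y hy => ?_⟩
    have h := hC y hy
    rw [add_zero, zpow_zero, mul_one] at h
    have h2 : ‖(N y : ℂ) * (X y).trace‖ ≤ Real.sqrt C := Real.le_sqrt_of_sq_le h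
    refine le_trans ?_ h2
    have h3 := Complex.abs_re_le_norm ((N y : ℂ) * (X y).trace)
    rwa [Complex.re_ofReal_mul] at h3
  have hmass : (μ + μ') Set.univ ≤ 2 := by
    rw [Measure.add_apply, hμ.prob, hμ'.prob]
    norm_num
  have hsph : ∀ᵐ y ∂(μ + μ'), N y = 1 := by
    rw [ae_add_measure_iff]
    exact ⟨hμ.sphere, hμ'.sphere⟩
  have hann := hEn3 p hp ε hε hε1 (μ + μ') hmass hsph (fun y => N y * ((X y).trace).re) n hfm hfb
    (fun y hy => FinC_f_bound hμ hμ' hCA hε hε1 hy)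
  have hs0 : 0 < s1 := by linarith
  have h51 : (0 : ℝ) ≤ 51 + c0 := by linarith
  have hA1 : (51 + c0) / s1 * (∫ x in Ann p ρ, gr (tt p) x * gr u x * wt x) ≤
      (51 + c0) * CE * ((1 + En (μ + μ') P r ε) / s1) := by
    calc (51 + c0) / s1 * (∫ x in Ann p ρ, gr (tt p) x * gr u x * wt x)
        ≤ (51 + c0) / s1 * (CE * (1 + En (μ + μ') P r ε)) :=
          mul_le_mul_of_nonneg_left hann (div_nonneg h51 hs0.le)
      _ = (51 + c0) * CE * ((1 + En (μ + μ') P r ε) / s1) := by ring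
  have hA2 : (51 + c0) * (∫ x, hs (X x - L u x) * wt x) ≤ (51 + c0) * (nn X X + κ) :=
    mul_le_mul_of_nonneg_left hhs h51
  -- expansion
  have i1 := FinC_int hφ hρ hNp hX.form hX.form
  have i2 := FinC_int hφ hρ hNp hA.form hD.form
  have i3 := FinC_int hφ hρ hNp hA.form hA.form
  have hexp : ∫ x, (cutF φ ρ p x).re * (ee (DD F μ μ' ε x) (DD F μ μ' ε x)).re * wt x =
      (∫ x, (cutF φ ρ p x).re * (ee (X x) (X x)).re * wt x) +
      2 * (∫ x, (cutF φ ρ p x).re * (ee (A0 x) (DD F μ μ' ε x)).re * wt x) -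
      ∫ x, (cutF φ ρ p x).re * (ee (A0 x) (A0 x)).re * wt x := by
    have j1 := integral_sub (i1.add (i2.const_mul 2)) i3
    have j2 := integral_add i1 (i2.const_mul 2)
    have j3 := integral_const_mul (μ := (volume : Measure V)) (2 : ℝ)
      (fun x => (cutF φ ρ p x).re * (ee (A0 x) (DD F μ μ' ε x)).re * wt x)
    rw [j3] at j2
    refine Eq.trans ?_ (j1.trans (congrArg
      (fun t : ℝ => t - ∫ x, (cutF φ ρ p x).re * (ee (A0 x) (A0 x)).re * wt x) j2))
    refine integral_congr_ae (Filter.Eventually.of_forall fun x => ?_)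
    show (cutF φ ρ p x).re * (ee (DD F μ μ' ε x) (DD F μ μ' ε x)).re * wt x =
      (cutF φ ρ p x).re * (ee (X x) (X x)).re * wt x +
      2 * ((cutF φ ρ p x).re * (ee (A0 x) (DD F μ μ' ε x)).re * wt x) -
      (cutF φ ρ p x).re * (ee (A0 x) (A0 x)).re * wt x
    rw [FinC_ee (DD F μ μ' ε x) (A0 x)]
    ring
  have t2 := FinC_term hφ hρ (p := p) hA.form hD.form
  have t3 := FinC_term hφ hρ (p := p) hA.form hA.form
  rw [abs_le] at t2 t3
  rw [hexp]
  linarith [t2.1, t3.2]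

end Pool.Agent.H85.DC
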