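import Pool.Agent.H85.DC.Defs

/-!
# MP_6873ef_an: homogeneous functions, forms, the intersection form. Definitions only (helper85).
-/

open MeasureTheory
open scoped ContDiff BigOperators ComplexConjugate Matrix

namespace Pool.Agent.H85.DC

/-- `3 × 3` complex matrices. -/
abbrev M3 : Type := Matrix (Fin 3) (Fin 3) ℂ

/-- Smooth off `0` and homogeneous of bidegree `(a, b)`. -/
structure Hom (a b : ℤ) (f : V → ℂ) : Prop where
  smooth : ContDiffOn ℝ ∞ f {0}ᶜ
  hom : ∀ (l : ℂ) (x : V), l ≠ 0 → f (l • x) = l ^ a * (conj l) ^ b * f x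

/-- Continuous off `0` and homogeneous of bidegree `(a, b)`. -/
structure CHom (a b : ℤ) (f : V → ℂ) : Prop where
  cont : ContinuousOn f {0}ᶜ
  hom : ∀ (l : ℂ) (x : V), l ≠ 0 → f (l • x) = l ^ a * (conj l) ^ b * f x

/-- The Gaussian weight `exp(-N x)`. -/
noncomputable def wt (x : V) : ℝ := Real.exp (-N x)

/-- Continuous complex `(1,1)`-forms on `ℙ²`. -/
structure IsForm (A : V → M3) : Prop where
  cont : ContinuousOn A {0}ᶜ
  hom : ∀ (l : ℂ) (x : V), l ≠ 0 → A (l • x) = ((Complex.normSq l : ℂ))⁻¹ • A x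
  killl : ∀ x : V, x ≠ 0 → ∀ k, ∑ j, x j * A x j k = 0
  killr : ∀ x : V, x ≠ 0 → ∀ j, ∑ k, A x j k * conj (x k) = 0

/-- Real forms. -/
def IsHerm (A : V → M3) : Prop := ∀ x : V, x ≠ 0 → (A x).IsHermitian

/-- Real functions. -/
def IsRe (u : V → ℂ) : Prop := ∀ x : V, conj (u x) = u x

/-- The wedge product of two forms: `tr A tr B - tr (A B)`. -/
noncomputable def ee (A B : M3) : ℂ := A.trace * B.trace - (A * B).trace

/-- `∫ A ∧ B` (up to a constant). -/
noncomputable def qq (A B : V → M3) : ℂ := ∫ x, ee (A x) (B x) * (wt x : ℂ)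

/-- `-∫ A ∧ B` for real forms. -/
noncomputable def nn (A B : V → M3) : ℝ := -(qq A B).re

/-- Continuous real `ddᶜ`-closed forms (in the sense of currents). -/
structure InH (A : V → M3) : Prop where
  form : IsForm A
  herm : IsHerm A
  ddc : ∀ u : V → ℂ, IsFun u → qq (L u) A = 0

/-- The Fubini-Study form `∂∂̄ log N`. -/
noncomputable def Wm (x : V) : M3 :=
  fun j k => ((if j = k then 1 else 0) - conj (x j) * x k / (N x : ℂ)) / (N x : ℂ)

/-- Continuous real `ddᶜ`-closed forms of mass zero. -/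
structure InH0 (A : V → M3) : Prop extends InH A where
  mass : qq Wm A = 0

/-- The matrix `∂_j u ∂̄_k u`. -/
noncomputable def du2 (u : V → ℂ) (x : V) : M3 := fun j k => dz j u x * dzb k u x

/-- `|∂u|²`. -/
noncomputable def gr (u : V → ℂ) (x : V) : ℝ := ∑ j, Complex.normSq (dz j u x)

/-- The squared Hilbert-Schmidt norm. -/
noncomputable def hs (A : M3) : ℝ := ∑ j, ∑ k, Complex.normSq (A j k)

/-- `|∂ζ|²`. -/
noncomputable def curl (ζ : V → V) (x : V) : ℝ :=
  ∑ j, ∑ k, Complex.normSq (dz k (fun y => ζ y j) x - dz j (fun y => ζ y k) x)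

/-- The pull back of a form by a linear map. -/
noncomputable def pull (M : M3) (A : V → M3) (y : V) : M3 :=
  Mᵀ * A (M.mulVec y) * M.map conj

/-- The measure `N⁻² e^{-N} dy`: a multiple of the Fubini-Study volume on functions of degree `0`. -/
noncomputable def nuP : Measure V :=
  (volume : Measure V).withDensity (fun y => ENNReal.ofReal (wt y / (N y) ^ 2))

/-- `v(x, y) = 1 - τ(x, y)`. -/
noncomputable def vv (x y : V) : ℝ := Complex.normSq (ip x y) / (N x * N y)

/-- The (regularised) Green potential of the function `f`. -/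
noncomputable def green (n : ℕ) (f : V → ℝ) (x : V) : ℂ :=
  ((-(Real.pi ^ 3)⁻¹ * ∑ k ∈ Finset.range n, (((k : ℝ) + 2) / ((k : ℝ) + 1)) *
    ∫ y, vv x y ^ (k + 1) * f y ∂nuP : ℝ) : ℂ)

/-- The matrix `1 + ε G`, `G i` is the `i`-th column of `G`. -/
noncomputable def mat (ε : ℝ) (G : Fin 3 → V) : M3 :=
  fun j i => (if j = i then 1 else 0) + (ε : ℂ) * G i j

/-- The standard complex Gaussian density on `3 × 3` matrices. -/
noncomputable def gau (G : Fin 3 → V) : ℝ := (Real.pi ^ 9)⁻¹ * Real.exp (-∑ i, N (G i))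

/-- The complex Gaussian density on `V` with variance parameter `ε²`. -/
noncomputable def gs (ε : ℝ) (z : V) : ℝ := ((Real.pi * ε ^ 2) ^ 3)⁻¹ * Real.exp (-N z / ε ^ 2)

/-- The average of the form `A` over the random matrices `1 + ε G`. -/
noncomputable def av (ε : ℝ) (A : V → M3) (y : V) : M3 :=
  fun j k => ∫ G : Fin 3 → V, (gau G : ℂ) * pull (mat ε G) A y j k

/-- `A_y(w, w)`. -/
noncomputable def quad (A : M3) (w : V) : ℂ := ∑ j, ∑ k, A j k * w j * conj (w k)

/-- The unit vector tangent to the foliation and orthogonal to `y` (for unit `y`). -/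
noncomputable def wv (F : Fin 3 → MvPolynomial (Fin 3) ℂ) (y : V) : V :=
  ((Real.sqrt (N (eta F y)))⁻¹ : ℂ) • (Zf F y - ip (Zf F y) y • y)

/-- The component of `w` orthogonal to `x`. -/
noncomputable def perp (x w : V) : V := w - (ip w x / (N x : ℂ)) • x

/-- The smoothing kernel as a function of `τ`. -/
noncomputable def kk (ε t : ℝ) : ℝ :=
  (1 - t + ε ^ 2) * Real.exp (-t / ε ^ 2) / (Real.pi ^ 3 * ε ^ 4)

/-- The smoothing of the directed current of `μ`. -/
noncomputable def sm (F : Fin 3 → MvPolynomial (Fin 3) ℂ) (μ : Measure V) (ε : ℝ) (x : V) : M3 :=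
  fun j k => ∫ y, ((kk ε (tau x y) / N x : ℝ) : ℂ) *
    (((N (perp x (wv F y)) + ε ^ 2 : ℝ) : ℂ) * ((if j = k then 1 else 0) - conj (x j) * x k / (N x : ℂ)) -
      conj (perp x (wv F y) j) * perp x (wv F y) k) ∂μ

/-- `t_p(x) = log (τ / (1 - τ))`, `τ = τ(x, p)`. -/
noncomputable def tt (p x : V) : ℂ := ((Real.log (tau x p / (1 - tau x p)) : ℝ) : ℂ)

/-- The annulus `ρ²/e ≤ τ/(1-τ) ≤ ρ²` around `p`. -/
def Ann (p : V) (ρ : ℝ) : Set V :=
  {x | x ≠ 0 ∧ ρ ^ 2 * Real.exp (-1) ≤ tau x p / (1 - tau x p) ∧ tau x p / (1 - tau x p) ≤ ρ ^ 2}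

/-- The singular points: unit vectors, pairwise not proportional. -/
structure SingPts (F : Fin 3 → MvPolynomial (Fin 3) ℂ) (P : Finset V) : Prop where
  unit : ∀ p ∈ P, N p = 1
  sep : ∀ p ∈ P, ∀ p' ∈ P, p ≠ p' → 0 < tau p p'
  zero : ∀ y : V, y ≠ 0 → (eta F y = 0 ↔ ∃ p ∈ P, ∃ c : ℂ, y = c • p)

/-- Unit vectors at distance at least `√r` from the singular points. -/
def Kr (P : Finset V) (r : ℝ) : Set V := {y | N y = 1 ∧ ∀ p ∈ P, r ≤ tau y p}

/-- Truncated energy. -/
noncomputable def En (μ : Measure V) (P : Finset V) (r ε : ℝ) : ℝ :=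
  ∫ y in Kr P r, ∫ y' in Kr P r, (tau y y' + ε ^ 2)⁻¹ ∂μ ∂μ

end Pool.Agent.H85.DC
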