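import Pool.Agent.H85.DC.HomA
import Pool.Agent.H85.DC.HomB
import Pool.Agent.H85.DC.HomC

/-!
# Row FrmA: examples of forms

`form_L`: entries `dz j (dzb k u) : Hom (-1) (-1)` (`dzb_hom`, `dz_hom`), so continuous off `0` and
homogeneous (`l^(-1) conj(l)^(-1) = (normSq l)⁻¹`); `∑ x_j dz j (dzb k u) = 0` by Euler since
`dzb k u : Hom 0 (-1)`; `∑_k dz j (dzb k u) conj(x_k)`: by `dz_dzb_comm` equals `∑_k dzb k (dz j u) conj(x_k) = 0`,
Euler for `dz j u : Hom (-1) 0`.
`form_db`: entries `dzb k ζ_j : Hom (-1) (-1)`, `∑_k conj(x_k) dzb k ζ_j = 0` (Euler), `∑_j x_j dzb k ζ_j =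
dzb k (∑_j x_j ζ_j) - 0 = 0` (product rule; `∑_j x_j ζ_j = 0` off `0`, `dzb_congr`).
`form_Wm`: direct computation.
`form_bound`: `chom_bound` for the 9 entries, `a + b = -2`, so `‖A x j k‖^2 ≤ C (N x)^(-2)`.
`continuousOn` of a matrix valued function: `continuousOn_pi`.
`form_smul_fun`: multiplication by a continuous function of degree `0`.
`psd_Wm`: `∑ Wm_jk v_j conj(v_k) = (N v - |⟨v, x⟩|^2 / N x)/N x ≥ 0` by Cauchy-Schwarz. Here positivity of a
form is stated with `quad`: `0 ≤ (quad A w).re` for all `w` and `A.IsHermitian`.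
-/

open MeasureTheory
open scoped ContDiff BigOperators ComplexConjugate Matrix

namespace Pool.Agent.H85.DC

theorem FrmA_inv (l : ℂ) :
    ((Complex.normSq l : ℂ))⁻¹ = l ^ (-1 : ℤ) * (conj l) ^ (-1 : ℤ) := by
  rw [← Complex.mul_conj, mul_inv, zpow_neg_one, zpow_neg_one]

theorem FrmA_N (x : V) : (N x : ℂ) = ∑ j, x j * conj (x j) := by
  unfold N
  push_cast
  exact Finset.sum_congr rfl fun j _ => (Complex.mul_conj _).symm

theorem FrmA_cont {A : V → M3} (h : ∀ j k, ContinuousOn (fun x => A x j k) {0}ᶜ) :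
    ContinuousOn A {0}ᶜ :=
  continuousOn_pi.2 fun j => continuousOn_pi.2 fun k => h j k

theorem FrmA_mk {A : V → M3} (h : ∀ j k, CHom (-1) (-1) (fun x => A x j k))
    (hl : ∀ x : V, x ≠ 0 → ∀ k, ∑ j, x j * A x j k = 0)
    (hr : ∀ x : V, x ≠ 0 → ∀ j, ∑ k, A x j k * conj (x k) = 0) : IsForm A := by
  refine ⟨FrmA_cont fun j k => (h j k).cont, ?_, hl, hr⟩
  intro l x hl
  funext j k
  have h1 := (h j k).hom l x hl
  rw [← FrmA_inv] at h1
  exact h1

theorem form_chom {A : V → M3} (hA : IsForm A) (j k : Fin 3) : CHom (-1) (-1) (fun x => A x j k) := by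
  refine ⟨?_, ?_⟩
  · exact (continuous_id.matrix_elem j k).comp_continuousOn hA.cont
  · intro l x hl
    have h1 := hA.hom l x hl
    rw [← FrmA_inv]
    show A (l • x) j k = _
    rw [h1]
    rfl

theorem form_bound {A : V → M3} (hA : IsForm A) :
    ∃ C : ℝ, 0 ≤ C ∧ ∀ x : V, x ≠ 0 → ∀ j k, ‖A x j k‖ ≤ C / N x := by
  choose C hC0 hC using fun j k => chom_bound (form_chom hA j k)
  refine ⟨∑ j, ∑ k, Real.sqrt (C j k),
    Finset.sum_nonneg fun _ _ => Finset.sum_nonneg fun _ _ => Real.sqrt_nonneg _, ?_⟩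
  intro x hx j k
  have hN := N_pos hx
  have h1 := hC j k x hx
  have h2 : (N x) ^ ((-1 : ℤ) + -1) = ((N x)⁻¹) ^ 2 := by
    rw [show ((-1 : ℤ) + -1) = -((2 : ℕ) : ℤ) by norm_num, zpow_neg, zpow_natCast, inv_pow]
  rw [h2] at h1
  have h3 : ‖A x j k‖ ≤ Real.sqrt (C j k) * (N x)⁻¹ := by
    have h4 := Real.sqrt_le_sqrt h1
    rw [Real.sqrt_sq (norm_nonneg _), Real.sqrt_mul (hC0 j k), Real.sqrt_sq (inv_nonneg.2 hN.le)]
      at h4
    exact h4
  have h5 : Real.sqrt (C j k) ≤ ∑ j, ∑ k, Real.sqrt (C j k) := by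
    refine le_trans ?_ (Finset.single_le_sum (f := fun j => ∑ k, Real.sqrt (C j k))
      (fun _ _ => Finset.sum_nonneg fun _ _ => Real.sqrt_nonneg _) (Finset.mem_univ j))
    exact Finset.single_le_sum (f := fun k => Real.sqrt (C j k))
      (fun _ _ => Real.sqrt_nonneg _) (Finset.mem_univ k)
  rw [div_eq_mul_inv]
  exact h3.trans (mul_le_mul_of_nonneg_right h5 (inv_nonneg.2 hN.le))

theorem form_L {u : V → ℂ} (hu : IsFun u) : IsForm (L u) := by
  have h0 := isFun_iff.mp hu
  refine FrmA_mk ?_ ?_ ?_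
  · intro j k
    have h1 := dz_hom j (dzb_hom k h0)
    have h2 : Hom (-1) (-1) (dz j (dzb k u)) := by simpa using h1
    exact h2.chom
  · intro x hx k
    have h1 := euler (dzb_hom k h0) hx
    have h2 : ∑ j, x j * L u x j k = ∑ j, x j * dz j (dzb k u) x := rfl
    rw [h2, h1]
    simp
  · intro x hx j
    have h1 := eulerb (dz_hom j h0) hx
    have h2 : ∑ k, L u x j k * conj (x k) = ∑ k, conj (x k) * dzb k (dz j u) x := by
      refine Finset.sum_congr rfl fun k _ => ?_
      have h3 : L u x j k = dz j (dzb k u) x := rfl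
      rw [h3, dz_dzb_comm j k hu.smooth hx]
      ring
    rw [h2, h1]
    simp

theorem herm_L {u : V → ℂ} (hu : IsFun u) (ru : IsRe u) : IsHerm (L u) := by
  intro x hx
  refine Matrix.IsHermitian.ext fun j k => ?_
  have h1 : L u x k j = dz k (dzb j u) x := rfl
  have h2 : L u x j k = dz j (dzb k u) x := rfl
  have h3 : (fun y => conj (u y)) = u := funext ru
  have h4 : (fun y => conj (dzb j u y)) = dz j u := by
    funext y
    rw [conj_dzb, h3]
  rw [h1, h2]
  show conj (dz k (dzb j u) x) = _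
  rw [conj_dz, h4, dz_dzb_comm j k hu.smooth hx]

theorem form_db {ζ : V → V} (hζ : IsCov ζ) : IsForm (db ζ) := by
  refine FrmA_mk ?_ ?_ ?_
  · intro j k
    have h1 := dzb_hom k (isCov_hom hζ j)
    have h2 : Hom (-1) (-1) (dzb k (fun x => ζ x j)) := by simpa using h1
    exact h2.chom
  · intro x hx k
    have h1 : dzb k (fun y => ∑ j, y j * ζ y j) x = 0 := by
      rw [dzb_congr (g := fun _ => 0) k hx (fun y hy => hζ.kill y hy), dzb_const]
    have h2 : dzb k (fun y => ∑ j, y j * ζ y j) x = ∑ j, x j * dzb k (fun y => ζ y j) x := by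
      rw [dzb_sum k Finset.univ (fun j y => y j * ζ y j) (fun j _ =>
        ((hom_coord j).diffAt hx).mul ((isCov_hom hζ j).diffAt hx))]
      refine Finset.sum_congr rfl fun j _ => ?_
      rw [dzb_mul k ((hom_coord j).diffAt hx) ((isCov_hom hζ j).diffAt hx), dzb_coord]
      ring
    rw [h1] at h2
    exact h2.symm
  · intro x hx j
    have h1 := eulerb (isCov_hom hζ j) hx
    have h2 : ∑ k, db ζ x j k * conj (x k) = ∑ k, conj (x k) * dzb k (fun y => ζ y j) x :=
      Finset.sum_congr rfl fun k _ => mul_comm _ _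
    rw [h2, h1]
    simp

theorem FrmA_Wm (x : V) (j k : Fin 3) :
    Wm x j k = ((if j = k then 1 else 0) - conj (x j) * x k / (N x : ℂ)) / (N x : ℂ) := rfl

theorem FrmA_N_ne {x : V} (hx : x ≠ 0) : (N x : ℂ) ≠ 0 :=
  Complex.ofReal_ne_zero.2 (N_pos hx).ne'

theorem herm_Wm : IsHerm Wm := by
  intro x _
  refine Matrix.IsHermitian.ext fun j k => ?_
  show conj (Wm x k j) = Wm x j k
  rw [FrmA_Wm, FrmA_Wm]
  simp only [map_div₀, map_sub, map_mul, Complex.conj_conj, Complex.conj_ofReal]
  have h1 : conj (if k = j then (1 : ℂ) else 0) = if j = k then 1 else 0 := by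
    by_cases h : j = k
    · rw [if_pos h, if_pos h.symm, map_one]
    · rw [if_neg h, if_neg (fun h' => h h'.symm), map_zero]
  rw [h1]
  ring

theorem form_Wm : IsForm Wm := by
  have hkl : ∀ x : V, x ≠ 0 → ∀ k, ∑ j, x j * Wm x j k = 0 := by
    intro x hx k
    have hn := FrmA_N_ne hx
    have h1 : ∀ j, x j * Wm x j k = (x j * (if j = k then 1 else 0)) * (N x : ℂ)⁻¹ -
        (x j * conj (x j)) * (x k * ((N x : ℂ)⁻¹ * (N x : ℂ)⁻¹)) := by
      intro j
      rw [FrmA_Wm]
      ring
    simp only [h1, Finset.sum_sub_distrib, ← Finset.sum_mul]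
    rw [← FrmA_N]
    simp only [mul_ite, mul_one, mul_zero, Finset.sum_ite_eq', Finset.mem_univ, if_true]
    field_simp
    ring
  refine FrmA_mk ?_ hkl ?_
  · intro j k
    have h1 := hom_mul (hom_mul (hom_conj_coord j) (hom_coord k)) hom_Ninv
    have h2 : Hom 0 0 (fun x => conj (x j) * x k * ((N x : ℂ))⁻¹) := by simpa using h1
    have h3 := hom_mul (hom_add (hom_const (if j = k then (1 : ℂ) else 0)) (hom_neg h2)) hom_Ninv
    have h4 : Hom (-1) (-1) (fun x => ((if j = k then (1 : ℂ) else 0) +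
      -(conj (x j) * x k * ((N x : ℂ))⁻¹)) * ((N x : ℂ))⁻¹) := by simpa using h3
    have h5 : (fun x => Wm x j k) = (fun x : V => ((if j = k then (1 : ℂ) else 0) +
      -(conj (x j) * x k * ((N x : ℂ))⁻¹)) * ((N x : ℂ))⁻¹) := by
      funext x
      rw [FrmA_Wm]
      ring
    rw [h5]
    exact h4.chom
  · intro x hx j
    have h1 := congrArg (starRingEnd ℂ) (hkl x hx j)
    rw [map_sum, map_zero] at h1
    rw [← h1]
    refine Finset.sum_congr rfl fun k _ => ?_
    have h2 := (herm_Wm x hx).apply j k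
    have h3 : conj (Wm x k j) = Wm x j k := h2
    rw [map_mul, h3]
    ring

theorem quad_Wm {x : V} (hx : x ≠ 0) (w : V) :
    quad (Wm x) w = (((N w - Complex.normSq (ip w x) / N x) / N x : ℝ) : ℂ) := by
  have hn := FrmA_N_ne hx
  unfold quad
  have h1 : ∀ j k, Wm x j k * w j * conj (w k) =
      ((if j = k then 1 else 0) * (w j * conj (w k))) * (N x : ℂ)⁻¹ -
        (w j * conj (x j)) * (x k * conj (w k)) * ((N x : ℂ)⁻¹ * (N x : ℂ)⁻¹) := by
    intro j k
    rw [FrmA_Wm]
    ring
  simp only [h1, Finset.sum_sub_distrib, ← Finset.sum_mul]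
  have h2 : ∑ j, ∑ k, (if j = k then (1 : ℂ) else 0) * (w j * conj (w k)) = (N w : ℂ) := by
    rw [FrmA_N]
    refine Finset.sum_congr rfl fun j _ => ?_
    simp
  have h3 : ∑ j, ∑ k, (w j * conj (x j)) * (x k * conj (w k)) =
      ((Complex.normSq (ip w x) : ℝ) : ℂ) := by
    rw [← Complex.mul_conj]
    unfold ip
    rw [map_sum, Finset.sum_mul_sum]
    refine Finset.sum_congr rfl fun j _ => Finset.sum_congr rfl fun k _ => ?_
    rw [map_mul, Complex.conj_conj]
    ring
  rw [h2, h3]
  push_cast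
  field_simp

theorem trace_Wm {x : V} (hx : x ≠ 0) : (Wm x).trace = 2 / (N x : ℂ) := by
  have hn := FrmA_N_ne hx
  rw [Matrix.trace]
  have h1 : ∀ j, Matrix.diag (Wm x) j = (N x : ℂ)⁻¹ -
      (x j * conj (x j)) * ((N x : ℂ)⁻¹ * (N x : ℂ)⁻¹) := by
    intro j
    rw [Matrix.diag_apply, FrmA_Wm, if_pos rfl]
    ring
  simp only [h1, Finset.sum_sub_distrib, ← Finset.sum_mul]
  rw [← FrmA_N, Finset.sum_const, Finset.card_univ, Fintype.card_fin, nsmul_eq_mul]
  push_cast
  field_simp
  ring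

theorem form_add {A B : V → M3} (hA : IsForm A) (hB : IsForm B) : IsForm (fun x => A x + B x) := by
  refine ⟨hA.cont.add hB.cont, ?_, ?_, ?_⟩
  · intro l x hl
    show A (l • x) + B (l • x) = _
    rw [hA.hom l x hl, hB.hom l x hl, smul_add]
  · intro x hx k
    simp only [Matrix.add_apply, mul_add, Finset.sum_add_distrib]
    rw [hA.killl x hx k, hB.killl x hx k, add_zero]
  · intro x hx j
    simp only [Matrix.add_apply, add_mul, Finset.sum_add_distrib]
    rw [hA.killr x hx j, hB.killr x hx j, add_zero]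

theorem form_sub {A B : V → M3} (hA : IsForm A) (hB : IsForm B) : IsForm (fun x => A x - B x) := by
  refine ⟨hA.cont.sub hB.cont, ?_, ?_, ?_⟩
  · intro l x hl
    show A (l • x) - B (l • x) = _
    rw [hA.hom l x hl, hB.hom l x hl, smul_sub]
  · intro x hx k
    simp only [Matrix.sub_apply, mul_sub, Finset.sum_sub_distrib]
    rw [hA.killl x hx k, hB.killl x hx k, sub_zero]
  · intro x hx j
    simp only [Matrix.sub_apply, sub_mul, Finset.sum_sub_distrib]
    rw [hA.killr x hx j, hB.killr x hx j, sub_zero]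

theorem form_smul_fun {A : V → M3} {φ : V → ℂ} (hA : IsForm A) (hφ : CHom 0 0 φ) :
    IsForm (fun x => φ x • A x) := by
  refine ⟨?_, ?_, ?_, ?_⟩
  · exact hφ.cont.smul hA.cont
  · intro l x hl
    have h1 := hφ.hom l x hl
    rw [zpow_zero, zpow_zero, one_mul, one_mul] at h1
    show φ (l • x) • A (l • x) = _
    rw [h1, hA.hom l x hl, smul_comm]
  · intro x hx k
    have h1 : ∀ j, x j * (φ x • A x) j k = φ x * (x j * A x j k) := by
      intro j
      rw [Matrix.smul_apply, smul_eq_mul]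
      ring
    simp only [h1, ← Finset.mul_sum]
    rw [hA.killl x hx k, mul_zero]
  · intro x hx j
    have h1 : ∀ k, (φ x • A x) j k * conj (x k) = φ x * (A x j k * conj (x k)) := by
      intro k
      rw [Matrix.smul_apply, smul_eq_mul]
      ring
    simp only [h1, ← Finset.mul_sum]
    rw [hA.killr x hx j, mul_zero]

theorem form_smul {A : V → M3} (c : ℂ) (hA : IsForm A) : IsForm (fun x => c • A x) :=
  form_smul_fun hA (hom_const c).chom

theorem form_ct {A : V → M3} (hA : IsForm A) : IsForm (fun x => (A x)ᴴ) := by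
  refine FrmA_mk ?_ ?_ ?_
  · intro j k
    have h1 := form_chom hA k j
    refine ⟨?_, ?_⟩
    · exact Complex.continuous_conj.comp_continuousOn h1.cont
    · intro l x hl
      have h2 := h1.hom l x hl
      show conj (A (l • x) k j) = _ * conj (A x k j)
      have h3 : A (l • x) k j = l ^ (-1 : ℤ) * (conj l) ^ (-1 : ℤ) * A x k j := h2
      rw [h3, map_mul, map_mul, map_zpow₀, map_zpow₀, Complex.conj_conj]
      ring
  · intro x hx k
    have h1 := congrArg (starRingEnd ℂ) (hA.killr x hx k)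
    rw [map_sum, map_zero] at h1
    rw [← h1]
    refine Finset.sum_congr rfl fun j _ => ?_
    rw [map_mul, Complex.conj_conj]
    show x j * conj (A x k j) = _
    ring
  · intro x hx j
    have h1 := congrArg (starRingEnd ℂ) (hA.killl x hx j)
    rw [map_sum, map_zero] at h1
    rw [← h1]
    refine Finset.sum_congr rfl fun k _ => ?_
    rw [map_mul]
    show conj (A x k j) * conj (x k) = _
    ring

/-- The trace of a form times `N` is a continuous function of degree `0`. -/
theorem chom_Ntr {A : V → M3} (hA : IsForm A) : CHom 0 0 (fun x => (N x : ℂ) * (A x).trace) := by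
  refine ⟨?_, ?_⟩
  · refine hom_N.chom.cont.mul ?_
    have h1 : ∀ x : V, (A x).trace = ∑ j, A x j j := fun x => rfl
    simp only [h1]
    exact continuousOn_finset_sum _ fun j _ => (form_chom hA j j).cont
  · intro l x hl
    show (N (l • x) : ℂ) * (A (l • x)).trace = _
    rw [hA.hom l x hl, Matrix.trace_smul, N_smul, zpow_zero, zpow_zero, one_mul, one_mul,
      smul_eq_mul]
    have h1 : (Complex.normSq l : ℂ) ≠ 0 :=
      Complex.ofReal_ne_zero.2 (fun h => hl (Complex.normSq_eq_zero.1 h))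
    push_cast
    field_simp

/-- Forms kill `x`: only the component orthogonal to `x` matters. -/
theorem quad_perp {A : V → M3} (hA : IsForm A) {x : V} (hx : x ≠ 0) (w : V) (c : ℂ) :
    quad (A x) (w - c • x) = quad (A x) w := by
  unfold quad
  have h1 : ∀ j k, A x j k * (w - c • x) j * conj ((w - c • x) k) =
      A x j k * w j * conj (w k) - c * conj (w k) * (x j * A x j k) -
        (w j - c * x j) * conj c * (A x j k * conj (x k)) := by
    intro j k
    have e1 : (w - c • x) j = w j - c * x j := rfl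
    have e2 : (w - c • x) k = w k - c * x k := rfl
    rw [e1, e2, map_sub, map_mul]
    ring
  simp only [h1, Finset.sum_sub_distrib]
  have h2 : ∑ j, ∑ k, c * conj (w k) * (x j * A x j k) = 0 := by
    rw [Finset.sum_comm]
    refine Finset.sum_eq_zero fun k _ => ?_
    rw [← Finset.mul_sum, hA.killl x hx k, mul_zero]
  have h3 : ∑ j, ∑ k, (w j - c * x j) * conj c * (A x j k * conj (x k)) = 0 := by
    refine Finset.sum_eq_zero fun j _ => ?_
    rw [← Finset.mul_sum, hA.killr x hx j, mul_zero]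
  rw [h2, h3, sub_zero, sub_zero]

end Pool.Agent.H85.DC
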