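import Pool.Agent.H85.DC.FrmA

/-!
# Row FrmB: the bilinear form `qq`

`ee A B = A.trace * B.trace - (A * B).trace` is bilinear and symmetric (`Matrix.trace_mul_comm`),
`ee Aᴴ Bᴴ = conj (ee A B)` (`Matrix.trace_conjTranspose`, `Matrix.conjTranspose_mul`).
`ee_int`: `x ↦ ee (A x) (B x)` is a finite sum of products of two functions `CHom (-1) (-1)`, so a
`CHom (-2) (-2)` function (`ee_chom`), integrable against `wt` by `chom_integrable` (`-4 ≥ -5`), also times a
bounded measurable function (`chom_integrable_bdd`).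
`qq_Wm`: `A` kills `x` on both sides, so `(A x * Wm x).trace = (A x).trace / N x`
(`A * (1 - conj(x) x^T/N)/N`; `∑_{j,k} A_jk conj(x_k) x_j = 0`), `trace (Wm x) = 2 / N x`, so
`ee (A x) (Wm x) = (A x).trace / N x`.
`hs_int`: `hs (A x) = ∑ |A_jk|^2` with `CHom (-1) (-1)` entries.
`nn_eq`: for Hermitian forms `ee (A x) (B x)` is real off `0`.
-/

open MeasureTheory
open scoped ContDiff BigOperators ComplexConjugate Matrix

namespace Pool.Agent.H85.DC

theorem FrmB_mul {a b c d : ℤ} {f g : V → ℂ} (hf : CHom a b f) (hg : CHom c d g) :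
    CHom (a + c) (b + d) (fun x => f x * g x) := by
  refine ⟨hf.cont.mul hg.cont, ?_⟩
  intro l x hl
  have hc : conj l ≠ 0 := fun h => hl ((map_eq_zero _).1 h)
  simp only [hf.hom l x hl, hg.hom l x hl]
  rw [zpow_add₀ hl, zpow_add₀ hc]
  ring

theorem FrmB_add {a b : ℤ} {f g : V → ℂ} (hf : CHom a b f) (hg : CHom a b g) :
    CHom a b (fun x => f x + g x) := by
  refine ⟨hf.cont.add hg.cont, ?_⟩
  intro l x hl
  simp only [hf.hom l x hl, hg.hom l x hl]
  ring

theorem FrmB_sub {a b : ℤ} {f g : V → ℂ} (hf : CHom a b f) (hg : CHom a b g) :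
    CHom a b (fun x => f x - g x) := by
  refine ⟨hf.cont.sub hg.cont, ?_⟩
  intro l x hl
  simp only [hf.hom l x hl, hg.hom l x hl]
  ring

theorem FrmB_cmul {a b : ℤ} {f : V → ℂ} (c : ℂ) (hf : CHom a b f) :
    CHom a b (fun x => c * f x) := by
  refine ⟨continuousOn_const.mul hf.cont, ?_⟩
  intro l x hl
  simp only [hf.hom l x hl]
  ring

theorem FrmB_conj {a b : ℤ} {f : V → ℂ} (hf : CHom a b f) : CHom b a (fun x => conj (f x)) := by
  refine ⟨Complex.continuous_conj.comp_continuousOn hf.cont, ?_⟩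
  intro l x hl
  simp only [hf.hom l x hl]
  rw [map_mul, map_mul, map_zpow₀, map_zpow₀, Complex.conj_conj]
  ring

theorem FrmB_sum {a b : ℤ} (f : Fin 3 → V → ℂ) (h : ∀ i, CHom a b (f i)) :
    CHom a b (fun x => ∑ i, f i x) := by
  have h1 := FrmB_add (FrmB_add (h 0) (h 1)) (h 2)
  have h2 : (fun x => ∑ i, f i x) = (fun x => f 0 x + f 1 x + f 2 x) := by
    funext x
    rw [Fin.sum_univ_three]
  rw [h2]
  exact h1

theorem FrmB_ae : ∀ᵐ x ∂(volume : Measure V), x ≠ 0 := by
  have h : (volume : Measure V) {(0 : V)} = 0 := measure_singleton _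
  exact measure_eq_zero_iff_ae_notMem.mp h

theorem FrmB_trmul (A B : M3) : (A * B).trace = ∑ j, ∑ k, A j k * B k j := by
  rw [Matrix.trace]
  refine Finset.sum_congr rfl fun j _ => ?_
  rw [Matrix.diag_apply, Matrix.mul_apply]

theorem FrmB_tr {A : V → M3} (hA : IsForm A) : CHom (-1) (-1) (fun x => (A x).trace) :=
  FrmB_sum (fun j x => A x j j) fun j => form_chom hA j j

theorem ee_comm (A B : M3) : ee A B = ee B A := by
  unfold ee
  rw [Matrix.trace_mul_comm, mul_comm]

theorem ee_add_left (A B C : M3) : ee (A + B) C = ee A C + ee B C := by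
  unfold ee
  rw [Matrix.trace_add, Matrix.add_mul, Matrix.trace_add]
  ring

theorem ee_smul_left (c : ℂ) (A B : M3) : ee (c • A) B = c * ee A B := by
  unfold ee
  rw [Matrix.trace_smul, Matrix.smul_mul, Matrix.trace_smul, smul_eq_mul, smul_eq_mul]
  ring

theorem ee_ct (A B : M3) : ee Aᴴ Bᴴ = conj (ee A B) := by
  unfold ee
  rw [← Matrix.conjTranspose_mul, Matrix.trace_conjTranspose, Matrix.trace_conjTranspose,
    Matrix.trace_conjTranspose, Matrix.trace_mul_comm B A, map_sub, map_mul]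
  rfl

theorem ee_real {A B : M3} (hA : A.IsHermitian) (hB : B.IsHermitian) :
    ((ee A B).re : ℂ) = ee A B := by
  have h1 := ee_ct A B
  rw [hA.eq, hB.eq] at h1
  exact Complex.conj_eq_iff_re.1 h1.symm

theorem ee_chom {A B : V → M3} (hA : IsForm A) (hB : IsForm B) :
    CHom (-2) (-2) (fun x => ee (A x) (B x)) := by
  have h1 : CHom ((-1) + (-1)) ((-1) + (-1)) (fun x => (A x).trace * (B x).trace) :=
    FrmB_mul (FrmB_tr hA) (FrmB_tr hB)
  have h2 : CHom ((-1) + (-1)) ((-1) + (-1)) (fun x => ∑ j, ∑ k, A x j k * B x k j) :=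
    FrmB_sum _ fun j => FrmB_sum _ fun k => FrmB_mul (form_chom hA j k) (form_chom hB k j)
  have h3 := FrmB_sub h1 h2
  have h4 : (fun x => ee (A x) (B x)) =
      (fun x => (A x).trace * (B x).trace - ∑ j, ∑ k, A x j k * B x k j) := by
    funext x
    unfold ee
    rw [FrmB_trmul]
  rw [h4]
  exact h3

theorem ee_int {A B : V → M3} (hA : IsForm A) (hB : IsForm B) :
    Integrable (fun x => ee (A x) (B x) * (wt x : ℂ)) :=
  chom_integrable (ee_chom hA hB) (by norm_num)

theorem ee_int_bdd {A B : V → M3} (hA : IsForm A) (hB : IsForm B) {φ : V → ℂ}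
    (hφ : AEStronglyMeasurable φ (volume : Measure V)) {b : ℝ} (hb : ∀ x, ‖φ x‖ ≤ b) :
    Integrable (fun x => φ x * ee (A x) (B x) * (wt x : ℂ)) :=
  chom_integrable_bdd (ee_chom hA hB) (by norm_num) hφ hb

theorem hs_int {A : V → M3} (hA : IsForm A) : Integrable (fun x => hs (A x) * wt x) := by
  have h1 : CHom ((-1) + (-1)) ((-1) + (-1)) (fun x => ∑ j, ∑ k, A x j k * conj (A x j k)) :=
    FrmB_sum _ fun j => FrmB_sum _ fun k => FrmB_mul (form_chom hA j k)
      (FrmB_conj (form_chom hA j k))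
  have h2 := (chom_integrable h1 (by norm_num)).re
  refine h2.congr (Filter.Eventually.of_forall fun x => ?_)
  show ((∑ j, ∑ k, A x j k * conj (A x j k)) * (wt x : ℂ)).re = hs (A x) * wt x
  have h3 : ∑ j, ∑ k, A x j k * conj (A x j k) = ((hs (A x) : ℝ) : ℂ) := by
    unfold hs
    push_cast
    exact Finset.sum_congr rfl fun j _ => Finset.sum_congr rfl fun k _ => Complex.mul_conj _
  rw [h3, Complex.re_mul_ofReal, Complex.ofReal_re]

theorem tr_int {A : V → M3} (hA : IsForm A) :
    Integrable (fun x => ((A x).trace).re ^ 2 * wt x) := by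
  have h0 : CHom (-1) (-1) (fun x => (A x).trace + conj (A x).trace) :=
    FrmB_add (FrmB_tr hA) (FrmB_conj (FrmB_tr hA))
  have h1 : CHom ((-1) + (-1)) ((-1) + (-1)) (fun x => ((A x).trace + conj (A x).trace) *
      ((A x).trace + conj (A x).trace)) := FrmB_mul h0 h0
  have h2 := ((chom_integrable h1 (by norm_num)).re).const_mul (1 / 4)
  refine h2.congr (Filter.Eventually.of_forall fun x => ?_)
  show 1 / 4 * ((((A x).trace + conj (A x).trace) * ((A x).trace + conj (A x).trace)) *
    (wt x : ℂ)).re = ((A x).trace).re ^ 2 * wt x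
  rw [Complex.add_conj, ← Complex.ofReal_mul, ← Complex.ofReal_mul, Complex.ofReal_re]
  ring

theorem qq_comm (A B : V → M3) : qq A B = qq B A := by
  unfold qq
  simp only [ee_comm]

theorem qq_add_left {A B C : V → M3} (hA : IsForm A) (hB : IsForm B) (hC : IsForm C) :
    qq (fun x => A x + B x) C = qq A C + qq B C := by
  unfold qq
  rw [← integral_add (ee_int hA hC) (ee_int hB hC)]
  refine integral_congr_ae (Filter.Eventually.of_forall fun x => ?_)
  simp only [ee_add_left, add_mul]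

theorem qq_smul_left (c : ℂ) (A B : V → M3) : qq (fun x => c • A x) B = c * qq A B := by
  unfold qq
  rw [← integral_const_mul]
  refine integral_congr_ae (Filter.Eventually.of_forall fun x => ?_)
  simp only [ee_smul_left, mul_assoc]

theorem qq_sub_left {A B C : V → M3} (hA : IsForm A) (hB : IsForm B) (hC : IsForm C) :
    qq (fun x => A x - B x) C = qq A C - qq B C := by
  have h1 := qq_add_left hA (form_smul (-1) hB) hC
  have h2 := qq_smul_left (-1) B C
  have h3 : (fun x => A x - B x) = (fun x => A x + (-1 : ℂ) • B x) := by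
    funext x
    rw [neg_one_smul, sub_eq_add_neg]
  rw [h3, h1, h2]
  ring

theorem qq_ct (A B : V → M3) :
    qq (fun x => (A x)ᴴ) (fun x => (B x)ᴴ) = conj (qq A B) := by
  unfold qq
  rw [← integral_conj]
  refine integral_congr_ae (Filter.Eventually.of_forall fun x => ?_)
  simp only [ee_ct, map_mul, Complex.conj_ofReal]

/-- For real forms `qq` is real. -/
theorem qq_real {A B : V → M3} (hA : IsHerm A) (hB : IsHerm B) : ((qq A B).re : ℂ) = qq A B := by
  apply Complex.conj_eq_iff_re.1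
  rw [← qq_ct]
  unfold qq
  refine integral_congr_ae ?_
  filter_upwards [FrmB_ae] with x hx
  rw [(hA x hx).eq, (hB x hx).eq]

theorem ee_Wm {A : V → M3} (hA : IsForm A) {x : V} (hx : x ≠ 0) :
    ee (A x) (Wm x) = (A x).trace / (N x : ℂ) := by
  have hn : (N x : ℂ) ≠ 0 := Complex.ofReal_ne_zero.2 (N_pos hx).ne'
  unfold ee
  rw [trace_Wm hx, FrmB_trmul]
  have h1 : ∀ j k, A x j k * Wm x k j = (A x j k * (if k = j then 1 else 0)) * (N x : ℂ)⁻¹ -
      (x j * A x j k) * (conj (x k) * ((N x : ℂ)⁻¹ * (N x : ℂ)⁻¹)) := by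
    intro j k
    show A x j k * (((if k = j then 1 else 0) - conj (x k) * x j / (N x : ℂ)) / (N x : ℂ)) = _
    ring
  have h2 : ∑ j, ∑ k, (A x j k * (if k = j then (1 : ℂ) else 0)) * (N x : ℂ)⁻¹ =
      (A x).trace * (N x : ℂ)⁻¹ := by
    rw [Matrix.trace, Finset.sum_mul]
    refine Finset.sum_congr rfl fun j _ => ?_
    rw [← Finset.sum_mul]
    simp [Matrix.diag_apply]
  have h3 : ∑ j, ∑ k, (x j * A x j k) * (conj (x k) * ((N x : ℂ)⁻¹ * (N x : ℂ)⁻¹)) = 0 := by
    rw [Finset.sum_comm]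
    refine Finset.sum_eq_zero fun k _ => ?_
    rw [← Finset.sum_mul, hA.killl x hx k, zero_mul]
  simp only [h1, Finset.sum_sub_distrib]
  rw [h2, h3]
  field_simp
  ring

theorem nn_comm (A B : V → M3) : nn A B = nn B A := by
  unfold nn
  rw [qq_comm]

theorem nn_add_left {A B C : V → M3} (hA : IsForm A) (hB : IsForm B) (hC : IsForm C) :
    nn (fun x => A x + B x) C = nn A C + nn B C := by
  unfold nn
  rw [qq_add_left hA hB hC, Complex.add_re]
  ring

theorem nn_sub_left {A B C : V → M3} (hA : IsForm A) (hB : IsForm B) (hC : IsForm C) :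
    nn (fun x => A x - B x) C = nn A C - nn B C := by
  unfold nn
  rw [qq_sub_left hA hB hC, Complex.sub_re]
  ring

theorem nn_smul_left (c : ℝ) (A B : V → M3) :
    nn (fun x => (c : ℂ) • A x) B = c * nn A B := by
  unfold nn
  rw [qq_smul_left, Complex.re_ofReal_mul]
  ring

theorem herm_add {A B : V → M3} (hA : IsHerm A) (hB : IsHerm B) : IsHerm (fun x => A x + B x) :=
  fun x hx => (hA x hx).add (hB x hx)

theorem herm_sub {A B : V → M3} (hA : IsHerm A) (hB : IsHerm B) : IsHerm (fun x => A x - B x) :=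
  fun x hx => (hA x hx).sub (hB x hx)

theorem herm_smul {A : V → M3} (c : ℝ) (hA : IsHerm A) : IsHerm (fun x => (c : ℂ) • A x) := by
  intro x hx
  show ((c : ℂ) • A x)ᴴ = (c : ℂ) • A x
  rw [Matrix.conjTranspose_smul, (hA x hx).eq]
  congr 1
  exact Complex.conj_ofReal c

end Pool.Agent.H85.DC
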