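import Pool.Agent.H85.DC.HomC

/-!
# Row GauA: the Gaussian matrices `1 + ε G`

`gau G = π^{-9} exp(-∑ N (G i))`, `G : Fin 3 → V` the columns. `mat ε G j i = δ_ji + ε (G i j)`, so
`(mat ε G).mulVec y = y + ε ∑_i y_i G_i` (`mat_mulVec`).
`gau_int`: `∫ gau = 1` (`int` of a product: `integral_fintype_prod_eq_prod`, `∫_V e^{-N} = π^3`, prove it here:
`∫_ℂ exp(-|z|^2) = π`); it is a product density.
`pair_law`: for an orthonormal pair `(y, w)` the image of `gau dG` under `G ↦ (∑ y_i G_i, ∑ w_i G_i) ∈ V × V` has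
density `g(a) g(b)`, `g(a) = π^{-3} e^{-N a}`. Proof: complete `(y, w)` to a unitary matrix `U` (rows `y, w, v`; `v` e.g. the conjugate of the cross product
`conj (y × w)`, for which `N v = 1`, `ip y v = ip w v = 0`). The linear map `Φ : (Fin 3 → V) → (Fin 3 → V)`, `Φ(G)_a = ∑_i U_{ai} G_i` is a
real-linear isomorphism preserving `∑ N (G_i)` (unitarity), so its real determinant has absolute value `1` and it preserves Lebesgue
measure: a linear map `T` of a finite dimensional real space which preserves a positive definite quadratic form has `|det T| = 1`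
(image of the unit ball of the form is itself and has finite positive volume, `MeasureTheory.Measure.addHaar_image_linearMap`).
Then `∫ gau G φ(Φ(G)_0, Φ(G)_1) dG = ∫ gau H φ(H_0, H_1) dH` and integrate out `H_2` (Fubini; identify `Fin 3 → V` with `V × V × V`,
`MeasureTheory.measurePreserving_piFinSuccAbove` or `measurePreserving_finTwoArrow`-type equivalences). State with `lintegral` for
nonnegative measurable `φ` (`pair_law`), and deduce the Bochner version `pair_law_c` for measurable `φ : V × V → ℂ` (split into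
positive and negative parts of real and imaginary parts, or equality of measures `Measure.map`, `integral_map`).
`single_law`: for `N y = 1` the law of `y + ε ∑ y_i G_i` has density `gs ε (x - y)`; from `pair_law` (choose any `w`), or directly;
`gs ε z = (π ε^2)^{-3} exp(-N z/ε^2)`; change of variable `x = y + ε a`, `dx = ε^6 da`.
`det_ae`: for every `y ≠ 0`, a.e. `G`: `(mat ε G).det ≠ 0`. The set `{G : det (mat ε G) = 0}` is null: e.g. for fixed `G_1, G_2`
with independent columns `c_1, c_2` the equation is a nontrivial affine-linear equation in `G_0`; or by the pair law: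
`det ≠ 0` iff the columns are independent … any proof. (Simplest: the zero set of a nonzero real polynomial/analytic function is null if
available; otherwise Fubini three times: `{c_0 = 0}` null; for `c_0 ≠ 0`, `{c_1 ∈ ℂ c_0}` is contained in a proper subspace, null
(`Measure.addHaar_submodule`, `addHaar_affineSubspace`); for independent `c_0, c_1`, `{c_2 ∈ span}` null. `c_i = e_i + ε G_i`.)
-/

open MeasureTheory
open scoped ContDiff BigOperators ComplexConjugate Matrix

namespace Pool.Agent.H85.DC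

theorem GauA_N_nonneg (x : V) : 0 ≤ N x :=
  Finset.sum_nonneg fun _ _ => Complex.normSq_nonneg _

theorem GauA_contN : Continuous N := by
  unfold N
  exact continuous_finsetSum _ fun j _ => Complex.continuous_normSq.comp (continuous_apply j)

theorem mat_mulVec (ε : ℝ) (G : Fin 3 → V) (y : V) :
    (mat ε G).mulVec y = y + (ε : ℂ) • ∑ i, y i • G i := by
  ext j
  simp only [Matrix.mulVec, dotProduct, mat, Pi.add_apply, Pi.smul_apply, Finset.sum_apply,
    smul_eq_mul, add_mul, Finset.sum_add_distrib, Finset.mul_sum]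
  congr 1
  · simp
  · exact Finset.sum_congr rfl fun i _ => by ring

theorem gau_nonneg (G : Fin 3 → V) : 0 ≤ gau G := by
  unfold gau
  positivity

theorem GauA_contgau : Continuous gau := by
  unfold gau
  refine continuous_const.mul (Real.continuous_exp.comp (continuous_neg.comp ?_))
  exact continuous_finsetSum _ fun j _ => GauA_contN.comp (continuous_apply j)

theorem gau_meas : Measurable gau := GauA_contgau.measurable

/-- The Gaussian density on `V`. -/
noncomputable def GauA_g (a : V) : ℝ := (Real.pi ^ 3)⁻¹ * Real.exp (-N a)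

theorem GauA_g_nonneg (a : V) : 0 ≤ GauA_g a := by
  unfold GauA_g
  positivity

theorem GauA_g_meas : Measurable GauA_g := by
  unfold GauA_g
  exact (continuous_const.mul (Real.continuous_exp.comp
    (continuous_neg.comp GauA_contN))).measurable

theorem GauA_int_C : ∫ z : ℂ, Real.exp (-Complex.normSq z) = Real.pi := by
  have h := GaussianFourier.integral_rexp_neg_mul_sq_norm (V := ℂ) (b := 1) one_pos
  have e : (fun z : ℂ => Real.exp (-Complex.normSq z)) =
      fun z : ℂ => Real.exp (-1 * ‖z‖ ^ 2) := by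
    ext z
    rw [Complex.normSq_eq_norm_sq]
    ring_nf
  rw [e, h, Complex.finrank_real_complex]
  norm_num

theorem GauA_exp_prod (a : V) : Real.exp (-N a) = ∏ j, Real.exp (-Complex.normSq (a j)) := by
  rw [← Real.exp_sum]
  congr 1
  simp [N]

theorem GauA_int_expN : ∫ a : V, Real.exp (-N a) = Real.pi ^ 3 := by
  simp_rw [GauA_exp_prod]
  rw [integral_fintype_prod_volume_eq_pow (ι := Fin 3) (fun z : ℂ => Real.exp (-Complex.normSq z)),
    GauA_int_C]
  simp

theorem GauA_int_g : ∫ a : V, GauA_g a = 1 := by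
  unfold GauA_g
  rw [integral_const_mul, GauA_int_expN]
  exact inv_mul_cancel₀ (by positivity)

theorem GauA_g_integrable : Integrable GauA_g := by
  by_contra h
  have := integral_undef h
  rw [GauA_int_g] at this
  exact one_ne_zero this

theorem GauA_lint_g : ∫⁻ a : V, ENNReal.ofReal (GauA_g a) = 1 := by
  rw [← ofReal_integral_eq_lintegral_ofReal GauA_g_integrable
    (Filter.Eventually.of_forall GauA_g_nonneg), GauA_int_g]
  simp

theorem GauA_gau_prod (G : Fin 3 → V) : gau G = ∏ i, GauA_g (G i) := by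
  unfold gau GauA_g
  rw [Finset.prod_mul_distrib, ← Real.exp_sum]
  congr 1
  · simp
    ring
  · congr 1
    simp

theorem GauA_int_gau : ∫ G : Fin 3 → V, gau G = 1 := by
  simp_rw [GauA_gau_prod]
  rw [integral_fintype_prod_volume_eq_pow (ι := Fin 3) GauA_g, GauA_int_g]
  simp

theorem gau_integrable : Integrable gau := by
  by_contra h
  have := integral_undef h
  rw [GauA_int_gau] at this
  exact one_ne_zero this

theorem gau_int : ∫⁻ G : Fin 3 → V, ENNReal.ofReal (gau G) = 1 := by
  rw [← ofReal_integral_eq_lintegral_ofReal gau_integrable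
    (Filter.Eventually.of_forall gau_nonneg), GauA_int_gau]
  simp

/-- The linear map given by a matrix acting on the columns. -/
noncomputable def GauA_Phi (U : Fin 3 → V) : (Fin 3 → V) →ₗ[ℝ] (Fin 3 → V) where
  toFun G := fun a => ∑ i, U a i • G i
  map_add' G H := by
    ext a j
    simp [smul_add, Finset.sum_add_distrib, mul_add]
  map_smul' c G := by
    ext a j
    simp only [Pi.smul_apply, Finset.sum_apply, smul_eq_mul, RingHom.id_apply, Complex.real_smul,
      Finset.mul_sum]
    exact Finset.sum_congr rfl fun i _ => by ring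

theorem GauA_Phi_apply (U G : Fin 3 → V) (a : Fin 3) : GauA_Phi U G a = ∑ i, U a i • G i := rfl

/-- Unitary rows. -/
def GauA_Un (U : Fin 3 → V) : Prop := ∀ a b, ip (U a) (U b) = if a = b then 1 else 0

theorem GauA_Un_col {U : Fin 3 → V} (hU : GauA_Un U) (i k : Fin 3) :
    ∑ a, conj (U a i) * U a k = if i = k then 1 else 0 := by
  have h1 : (Matrix.of U) * (Matrix.of U)ᴴ = 1 := by
    ext a b
    rw [Matrix.mul_apply, Matrix.one_apply, ← hU a b]
    rfl
  have h2 : (Matrix.of U)ᴴ * (Matrix.of U) = 1 := mul_eq_one_comm.1 h1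
  have h3 := congrFun (congrFun h2 i) k
  rw [Matrix.mul_apply, Matrix.one_apply] at h3
  rw [← h3]
  rfl

theorem GauA_Phi_N {U : Fin 3 → V} (hU : GauA_Un U) (G : Fin 3 → V) :
    ∑ a, N (GauA_Phi U G a) = ∑ i, N (G i) := by
  have key : ((∑ a, N (GauA_Phi U G a) : ℝ) : ℂ) = ((∑ i, N (G i) : ℝ) : ℂ) := by
    have e1 : ∀ x : V, ((N x : ℝ) : ℂ) = ∑ j, x j * conj (x j) := by
      intro x
      unfold N
      push_cast
      exact Finset.sum_congr rfl fun j _ => (Complex.mul_conj (x j)).symm
    push_cast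
    simp_rw [e1, GauA_Phi_apply, Finset.sum_apply, Pi.smul_apply, smul_eq_mul, map_sum, map_mul]
    have e2 : ∀ a j : Fin 3, (∑ i, U a i * G i j) * (∑ i, conj (U a i) * conj (G i j)) =
        ∑ i, ∑ k, (conj (U a i) * U a k) * (conj (G i j) * G k j) := by
      intro a j
      rw [mul_comm, Finset.sum_mul_sum]
      refine Finset.sum_congr rfl fun i _ => Finset.sum_congr rfl fun k _ => ?_
      ring
    simp_rw [e2]
    rw [Finset.sum_comm]
    have e3 : ∀ j : Fin 3, (∑ a, ∑ i, ∑ k, (conj (U a i) * U a k) * (conj (G i j) * G k j)) =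
        ∑ i, conj (G i j) * G i j := by
      intro j
      rw [Finset.sum_comm]
      refine Finset.sum_congr rfl fun i _ => ?_
      rw [Finset.sum_comm]
      simp_rw [← Finset.sum_mul, GauA_Un_col hU]
      simp
    simp_rw [e3]
    rw [Finset.sum_comm]
    exact Finset.sum_congr rfl fun i _ => Finset.sum_congr rfl fun j _ => mul_comm _ _
  exact_mod_cast key

theorem GauA_Phi_gau {U : Fin 3 → V} (hU : GauA_Un U) (G : Fin 3 → V) :
    gau (GauA_Phi U G) = gau G := by
  unfold gau
  rw [GauA_Phi_N hU]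

theorem GauA_Phi_cont (U : Fin 3 → V) : Continuous (GauA_Phi U) :=
  LinearMap.continuous_of_finiteDimensional _

theorem GauA_Phi_inj {U : Fin 3 → V} (hU : GauA_Un U) : Function.Injective (GauA_Phi U) := by
  rw [← LinearMap.ker_eq_bot, LinearMap.ker_eq_bot']
  intro G hG
  have h := GauA_Phi_N hU G
  rw [hG] at h
  have h0 : ∑ a : Fin 3, N ((0 : Fin 3 → V) a) = 0 := by simp [N]
  rw [h0] at h
  have h1 := (Finset.sum_eq_zero_iff_of_nonneg (fun i _ => GauA_N_nonneg (G i))).1 h.symm
  ext i j
  have h2 := (Finset.sum_eq_zero_iff_of_nonneg (fun j _ => Complex.normSq_nonneg (G i j))).1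
    (h1 i (Finset.mem_univ i)) j (Finset.mem_univ j)
  simpa using h2

instance GauA_haar : (volume : Measure (Fin 3 → V)).IsAddHaarMeasure :=
  Measure.pi.isAddHaarMeasure (fun _ : Fin 3 => (volume : Measure V))

theorem GauA_Phi_mp {U : Fin 3 → V} (hU : GauA_Un U) :
    MeasurePreserving (GauA_Phi U) (volume : Measure (Fin 3 → V)) volume := by
  have hdet : LinearMap.det (GauA_Phi U) ≠ 0 := by
    have := (LinearEquiv.ofInjectiveEndo (GauA_Phi U) (GauA_Phi_inj hU)).isUnit_det'
    exact this.ne_zero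
  have hmap := Measure.map_linearMap_addHaar_eq_smul_addHaar
    (volume : Measure (Fin 3 → V)) hdet
  have hmeas : Measurable (GauA_Phi U) := (GauA_Phi_cont U).measurable
  have h1 : ∫⁻ G : Fin 3 → V, ENNReal.ofReal (gau (GauA_Phi U G)) = 1 := by
    simp_rw [GauA_Phi_gau hU]
    exact gau_int
  have h2 := lintegral_map (μ := (volume : Measure (Fin 3 → V)))
    (f := fun G => ENNReal.ofReal (gau G)) (gau_meas.ennreal_ofReal) hmeas
  rw [hmap, lintegral_smul_measure, gau_int, h1] at h2
  have h3 : ENNReal.ofReal |(LinearMap.det (GauA_Phi U))⁻¹| = 1 := by simpa using h2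
  refine ⟨hmeas, ?_⟩
  rw [hmap, h3, one_smul]

theorem GauA_law2 {φ : V × V → ENNReal} (hφ : Measurable φ) :
    ∫⁻ H : Fin 3 → V, ENNReal.ofReal (gau H) * φ (H 0, H 1) =
      ∫⁻ q : V × V, ENNReal.ofReal (GauA_g q.1) * ENNReal.ofReal (GauA_g q.2) * φ q := by
  have mp1 := volume_preserving_piFinSuccAbove (fun _ : Fin 3 => V) 2
  have mp2 := volume_preserving_finTwoArrow V
  have e1 : ∀ H : Fin 3 → V, ENNReal.ofReal (gau H) * φ (H 0, H 1) =
      (fun p : V × (Fin 2 → V) => ENNReal.ofReal (GauA_g p.1) *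
        (ENNReal.ofReal (GauA_g (p.2 0)) * ENNReal.ofReal (GauA_g (p.2 1)) * φ (p.2 0, p.2 1)))
        (MeasurableEquiv.piFinSuccAbove (fun _ : Fin 3 => V) 2 H) := by
    intro H
    have a1 : (MeasurableEquiv.piFinSuccAbove (fun _ : Fin 3 => V) 2 H).1 = H 2 := rfl
    have a2 : (MeasurableEquiv.piFinSuccAbove (fun _ : Fin 3 => V) 2 H).2 0 = H 0 := rfl
    have a3 : (MeasurableEquiv.piFinSuccAbove (fun _ : Fin 3 => V) 2 H).2 1 = H 1 := rfl
    show _ = ENNReal.ofReal (GauA_g (MeasurableEquiv.piFinSuccAbove (fun _ : Fin 3 => V) 2 H).1) *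
      (ENNReal.ofReal (GauA_g ((MeasurableEquiv.piFinSuccAbove (fun _ : Fin 3 => V) 2 H).2 0)) *
        ENNReal.ofReal (GauA_g ((MeasurableEquiv.piFinSuccAbove (fun _ : Fin 3 => V) 2 H).2 1)) *
        φ ((MeasurableEquiv.piFinSuccAbove (fun _ : Fin 3 => V) 2 H).2 0,
          (MeasurableEquiv.piFinSuccAbove (fun _ : Fin 3 => V) 2 H).2 1))
    rw [a1, a2, a3, GauA_gau_prod, Fin.prod_univ_three, ENNReal.ofReal_mul
      (mul_nonneg (GauA_g_nonneg _) (GauA_g_nonneg _)), ENNReal.ofReal_mul (GauA_g_nonneg _)]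
    ring
  simp_rw [e1]
  have hm : Measurable (fun p : V × (Fin 2 → V) => ENNReal.ofReal (GauA_g p.1) *
        (ENNReal.ofReal (GauA_g (p.2 0)) * ENNReal.ofReal (GauA_g (p.2 1)) * φ (p.2 0, p.2 1))) := by
    have := GauA_g_meas
    fun_prop
  rw [mp1.lintegral_comp hm]
  have hm2 : Measurable (fun q : V × V =>
      ENNReal.ofReal (GauA_g q.1) * ENNReal.ofReal (GauA_g q.2) * φ q) := by
    have := GauA_g_meas
    fun_prop
  have e2 := lintegral_prod_mul (μ := (volume : Measure V)) (ν := (volume : Measure (Fin 2 → V)))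
    (f := fun a => ENNReal.ofReal (GauA_g a))
    (g := fun b : Fin 2 → V => ENNReal.ofReal (GauA_g (b 0)) * ENNReal.ofReal (GauA_g (b 1)) *
      φ (b 0, b 1)) (by have := GauA_g_meas; fun_prop) (by have := GauA_g_meas; fun_prop)
  rw [Measure.volume_eq_prod, e2, GauA_lint_g, one_mul]
  have e3 := mp2.lintegral_comp hm2
  rw [← e3]
  rfl

theorem GauA_cross {y w : V} (hy : N y = 1) (hw : N w = 1) (hyw : ip w y = 0) :
    ∃ U : Fin 3 → V, GauA_Un U ∧ U 0 = y ∧ U 1 = w := by
  have hy' : ip y y = 1 := by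
    have : ((N y : ℝ) : ℂ) = ip y y := by
      unfold N ip
      push_cast
      exact Finset.sum_congr rfl fun j _ => (Complex.mul_conj (y j)).symm
    rw [← this, hy]; simp
  have hw' : ip w w = 1 := by
    have : ((N w : ℝ) : ℂ) = ip w w := by
      unfold N ip
      push_cast
      exact Finset.sum_congr rfl fun j _ => (Complex.mul_conj (w j)).symm
    rw [← this, hw]; simp
  have hwy : ip y w = 0 := by
    have := congrArg conj hyw
    simp only [ip, map_sum, map_mul, Complex.conj_conj, map_zero] at this ⊢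
    rw [← this]
    exact Finset.sum_congr rfl fun j _ => mul_comm _ _
  let v : V := ![conj (y 1 * w 2 - y 2 * w 1), conj (y 2 * w 0 - y 0 * w 2),
    conj (y 0 * w 1 - y 1 * w 0)]
  have v0 : v 0 = conj (y 1 * w 2 - y 2 * w 1) := rfl
  have v1 : v 1 = conj (y 2 * w 0 - y 0 * w 2) := rfl
  have v2 : v 2 = conj (y 0 * w 1 - y 1 * w 0) := rfl
  have hvv : ip v v = 1 := by
    simp only [ip, Fin.sum_univ_three] at hy' hw' hwy hyw ⊢
    rw [v0, v1, v2]
    simp only [map_sub, map_mul, Complex.conj_conj]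
    linear_combination (w 0 * conj (w 0) + w 1 * conj (w 1) + w 2 * conj (w 2)) * hy' + hw' -
      (y 0 * conj (w 0) + y 1 * conj (w 1) + y 2 * conj (w 2)) * hyw
  have hvy : ip v y = 0 := by
    simp only [ip, Fin.sum_univ_three]
    rw [v0, v1, v2]
    simp only [map_sub, map_mul]
    ring
  have hvw : ip v w = 0 := by
    simp only [ip, Fin.sum_univ_three]
    rw [v0, v1, v2]
    simp only [map_sub, map_mul]
    ring
  have hyv : ip y v = 0 := by
    simp only [ip, Fin.sum_univ_three]
    rw [v0, v1, v2]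
    simp only [map_sub, map_mul, Complex.conj_conj]
    ring
  have hwv : ip w v = 0 := by
    simp only [ip, Fin.sum_univ_three]
    rw [v0, v1, v2]
    simp only [map_sub, map_mul, Complex.conj_conj]
    ring
  refine ⟨![y, w, v], ?_, rfl, rfl⟩
  intro a b
  fin_cases a <;> fin_cases b <;>
    simp [hy', hw', hwy, hyw, hvv, hvy, hvw, hyv, hwv]

theorem pair_law {y w : V} (hy : N y = 1) (hw : N w = 1) (hyw : ip w y = 0)
    {φ : V × V → ENNReal} (hφ : Measurable φ) :
    ∫⁻ G : Fin 3 → V, ENNReal.ofReal (gau G) * φ (∑ i, y i • G i, ∑ i, w i • G i) =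
      ∫⁻ q : V × V, ENNReal.ofReal ((Real.pi ^ 3)⁻¹ * Real.exp (-N q.1)) *
        ENNReal.ofReal ((Real.pi ^ 3)⁻¹ * Real.exp (-N q.2)) * φ q := by
  obtain ⟨U, hU, hU0, hU1⟩ := GauA_cross hy hw hyw
  have h := GauA_law2 hφ
  have hm : Measurable (fun H : Fin 3 → V => ENNReal.ofReal (gau H) * φ (H 0, H 1)) := by
    have := gau_meas
    fun_prop
  rw [← (GauA_Phi_mp hU).lintegral_comp hm] at h
  simp_rw [GauA_Phi_gau hU, GauA_Phi_apply, hU0, hU1] at h
  exact h

theorem GauA_pair_meas (y w : V) :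
    Measurable (fun G : Fin 3 → V => (∑ i, y i • G i, ∑ i, w i • G i)) := by
  have : Continuous (fun G : Fin 3 → V => ((∑ i, y i • G i, ∑ i, w i • G i) : V × V)) := by
    fun_prop
  exact this.measurable

theorem GauA_pair_map {y w : V} (hy : N y = 1) (hw : N w = 1) (hyw : ip w y = 0) :
    Measure.map (fun G : Fin 3 → V => ((∑ i, y i • G i, ∑ i, w i • G i) : V × V))
      ((volume : Measure (Fin 3 → V)).withDensity (fun G => ENNReal.ofReal (gau G))) =
    (volume : Measure (V × V)).withDensity (fun q => ENNReal.ofReal (GauA_g q.1 * GauA_g q.2)) := by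
  ext s hs
  rw [Measure.map_apply (GauA_pair_meas y w) hs,
    withDensity_apply _ (GauA_pair_meas y w hs), withDensity_apply _ hs]
  have h := pair_law hy hw hyw (φ := s.indicator 1) (measurable_one.indicator hs)
  rw [← lintegral_indicator (GauA_pair_meas y w hs), ← lintegral_indicator hs]
  have e1 : ∀ G : Fin 3 → V, ((fun G : Fin 3 → V =>
      ((∑ i, y i • G i, ∑ i, w i • G i) : V × V)) ⁻¹' s).indicator
        (fun G => ENNReal.ofReal (gau G)) G =
      ENNReal.ofReal (gau G) * s.indicator 1 ((∑ i, y i • G i, ∑ i, w i • G i) : V × V) := by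
    intro G
    by_cases hG : ((∑ i, y i • G i, ∑ i, w i • G i) : V × V) ∈ s
    · rw [Set.indicator_of_mem (by exact hG), Set.indicator_of_mem hG]
      simp
    · rw [Set.indicator_of_notMem (by exact hG), Set.indicator_of_notMem hG]
      simp
  have e2 : ∀ q : V × V, s.indicator (fun q : V × V =>
        ENNReal.ofReal (GauA_g q.1 * GauA_g q.2)) q =
      ENNReal.ofReal ((Real.pi ^ 3)⁻¹ * Real.exp (-N q.1)) *
        ENNReal.ofReal ((Real.pi ^ 3)⁻¹ * Real.exp (-N q.2)) * s.indicator 1 q := by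
    intro q
    by_cases hq : q ∈ s
    · rw [Set.indicator_of_mem hq, Set.indicator_of_mem hq, ENNReal.ofReal_mul (GauA_g_nonneg _)]
      simp [GauA_g]
    · rw [Set.indicator_of_notMem hq, Set.indicator_of_notMem hq]
      simp
  simp_rw [e1, e2]
  exact h

theorem pair_law_c {y w : V} (hy : N y = 1) (hw : N w = 1) (hyw : ip w y = 0)
    {φ : V × V → ℂ} (hφ : Measurable φ) :
    ∫ G : Fin 3 → V, (gau G : ℂ) * φ (∑ i, y i • G i, ∑ i, w i • G i) =
      ∫ q : V × V, (((Real.pi ^ 3)⁻¹ * Real.exp (-N q.1) : ℝ) : ℂ) *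
        (((Real.pi ^ 3)⁻¹ * Real.exp (-N q.2) : ℝ) : ℂ) * φ q := by
  have h := GauA_pair_map hy hw hyw
  have h1 := integral_map (μ := (volume : Measure (Fin 3 → V)).withDensity
    (fun G => ENNReal.ofReal (gau G))) (GauA_pair_meas y w).aemeasurable
    (f := φ) hφ.aestronglyMeasurable
  rw [h] at h1
  rw [integral_withDensity_eq_integral_toReal_smul (by
      have := GauA_g_meas
      fun_prop) (Filter.Eventually.of_forall fun _ => ENNReal.ofReal_lt_top),
    integral_withDensity_eq_integral_toReal_smul (gau_meas.ennreal_ofReal)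
      (Filter.Eventually.of_forall fun _ => ENNReal.ofReal_lt_top)] at h1
  have e1 : ∀ G : Fin 3 → V, (ENNReal.ofReal (gau G)).toReal •
      φ ((∑ i, y i • G i, ∑ i, w i • G i) : V × V) =
      (gau G : ℂ) * φ (∑ i, y i • G i, ∑ i, w i • G i) := by
    intro G
    rw [ENNReal.toReal_ofReal (gau_nonneg G), Complex.real_smul]
  have e2 : ∀ q : V × V, (ENNReal.ofReal (GauA_g q.1 * GauA_g q.2)).toReal • φ q =
      (((Real.pi ^ 3)⁻¹ * Real.exp (-N q.1) : ℝ) : ℂ) *
        (((Real.pi ^ 3)⁻¹ * Real.exp (-N q.2) : ℝ) : ℂ) * φ q := by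
    intro q
    rw [ENNReal.toReal_ofReal (mul_nonneg (GauA_g_nonneg _) (GauA_g_nonneg _)),
      Complex.real_smul]
    unfold GauA_g
    push_cast
    ring
  simp_rw [e1, e2] at h1
  exact h1.symm

theorem GauA_finrank : Module.finrank ℝ V = 6 := by
  show Module.finrank ℝ (Fin 3 → ℂ) = 6
  rw [Module.finrank_pi_fintype]
  simp

theorem GauA_subst {ε : ℝ} (hε : 0 < ε) (y : V) {φ : V → ENNReal} (hφ : Measurable φ) :
    ∫⁻ a : V, ENNReal.ofReal (GauA_g a) * φ (y + (ε : ℂ) • a) =
      ∫⁻ x : V, ENNReal.ofReal (gs ε (x - y)) * φ x := by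
  have hgs : Measurable (fun z : V => gs ε z) := by
    unfold gs
    exact (continuous_const.mul (Real.continuous_exp.comp
      ((continuous_neg.comp GauA_contN).div_const _))).measurable
  have hT : ∫⁻ x : V, ENNReal.ofReal (gs ε (x - y)) * φ x =
      ∫⁻ x : V, ENNReal.ofReal (gs ε x) * φ (y + x) := by
    have := lintegral_add_left_eq_self (μ := (volume : Measure V))
      (fun x : V => ENNReal.ofReal (gs ε (x - y)) * φ x) y
    rw [← this]
    refine lintegral_congr fun x => ?_
    rw [add_sub_cancel_left]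
  rw [hT]
  have hmap := Measure.map_addHaar_smul (volume : Measure V) hε.ne'
  have hm : Measurable (fun x : V => ENNReal.ofReal (gs ε x) * φ (y + x)) := by
    fun_prop
  have h2 := lintegral_map (μ := (volume : Measure V))
    (f := fun x : V => ENNReal.ofReal (gs ε x) * φ (y + x)) hm
    (g := fun a : V => ε • a) (measurable_const_smul ε)
  rw [hmap, lintegral_smul_measure, GauA_finrank] at h2
  have e1 : ∀ a : V, ENNReal.ofReal (gs ε (ε • a)) * φ (y + ε • a) =
      ENNReal.ofReal |(ε ^ 6)⁻¹| * (ENNReal.ofReal (GauA_g a) * φ (y + (ε : ℂ) • a)) := by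
    intro a
    have s1 : (ε : ℂ) • a = ε • a := by
      ext j
      simp
    have s2 : gs ε (ε • a) = |(ε ^ 6)⁻¹| * GauA_g a := by
      have s3 : N (ε • a) = ε ^ 2 * N a := by
        unfold N
        rw [Finset.mul_sum]
        refine Finset.sum_congr rfl fun j _ => ?_
        simp only [Pi.smul_apply, Complex.real_smul, Complex.normSq_mul, Complex.normSq_ofReal]
        ring
      unfold gs GauA_g
      rw [s3, abs_of_pos (by positivity)]
      have s4 : -(ε ^ 2 * N a) / ε ^ 2 = -N a := by
        field_simp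
      rw [s4, mul_pow, mul_inv]
      ring
    rw [s1, s2, ENNReal.ofReal_mul (abs_nonneg _), mul_assoc]
  simp_rw [e1] at h2
  rw [lintegral_const_mul' _ _ ENNReal.ofReal_ne_top] at h2
  have h3 : ENNReal.ofReal |(ε ^ 6)⁻¹| ≠ 0 := by
    rw [Ne, ENNReal.ofReal_eq_zero, not_le]
    positivity
  rw [smul_eq_mul] at h2
  exact ((ENNReal.mul_right_inj h3 ENNReal.ofReal_ne_top).1 h2).symm

theorem GauA_orth (y : V) : ∃ w : V, N w = 1 ∧ ip w y = 0 := by
  have key : ∃ w : V, 0 < N w ∧ ip w y = 0 := by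
    by_cases h : y 0 = 0 ∧ y 1 = 0
    · refine ⟨![1, 0, 0], ?_, ?_⟩
      · simp [N, Fin.sum_univ_three]
      · simp [ip, Fin.sum_univ_three, h.1]
    · refine ⟨![conj (y 1), -conj (y 0), 0], ?_, ?_⟩
      · simp only [N, Fin.sum_univ_three, Matrix.cons_val_zero, Matrix.cons_val_one,
          Matrix.cons_val_two, Complex.normSq_neg, Complex.normSq_conj]
        have h0 := Complex.normSq_nonneg (y 0)
        have h1 := Complex.normSq_nonneg (y 1)
        rcases not_and_or.1 h with h | h
        · have := Complex.normSq_pos.2 h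
          simp
          linarith
        · have := Complex.normSq_pos.2 h
          simp
          linarith
      · simp [ip, Fin.sum_univ_three]
        ring
  obtain ⟨w, hw, hwy⟩ := key
  refine ⟨((Real.sqrt (N w))⁻¹ : ℂ) • w, ?_, ?_⟩
  · have : N (((Real.sqrt (N w))⁻¹ : ℂ) • w) = ((Real.sqrt (N w))⁻¹) ^ 2 * N w := by
      unfold N
      rw [Finset.mul_sum]
      refine Finset.sum_congr rfl fun j _ => ?_
      rw [Pi.smul_apply, smul_eq_mul, Complex.normSq_mul, ← Complex.ofReal_inv,
        Complex.normSq_ofReal, sq]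
    rw [this, inv_pow, Real.sq_sqrt hw.le]
    exact inv_mul_cancel₀ hw.ne'
  · have : ip (((Real.sqrt (N w))⁻¹ : ℂ) • w) y = ((Real.sqrt (N w))⁻¹ : ℂ) * ip w y := by
      unfold ip
      rw [Finset.mul_sum]
      refine Finset.sum_congr rfl fun j _ => ?_
      rw [Pi.smul_apply, smul_eq_mul, mul_assoc]
    rw [this, hwy, mul_zero]

theorem single_law {ε : ℝ} (hε : 0 < ε) {y : V} (hy : N y = 1)
    {φ : V → ENNReal} (hφ : Measurable φ) :
    ∫⁻ G : Fin 3 → V, ENNReal.ofReal (gau G) * φ ((mat ε G).mulVec y) =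
      ∫⁻ x : V, ENNReal.ofReal (gs ε (x - y)) * φ x := by
  obtain ⟨w, hw, hwy⟩ := GauA_orth y
  have hc : Continuous (fun a : V => y + (ε : ℂ) • a) := by fun_prop
  have hm : Measurable (fun a : V => φ (y + (ε : ℂ) • a)) := hφ.comp hc.measurable
  have h := pair_law hy hw hwy (φ := fun q : V × V => φ (y + (ε : ℂ) • q.1))
    (hm.comp measurable_fst)
  simp_rw [mat_mulVec]
  rw [h, ← GauA_subst hε y hφ]
  have e1 : ∀ q : V × V, ENNReal.ofReal ((Real.pi ^ 3)⁻¹ * Real.exp (-N q.1)) *
        ENNReal.ofReal ((Real.pi ^ 3)⁻¹ * Real.exp (-N q.2)) * φ (y + (ε : ℂ) • q.1) =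
      (ENNReal.ofReal (GauA_g q.1) * φ (y + (ε : ℂ) • q.1)) * ENNReal.ofReal (GauA_g q.2) := by
    intro q
    unfold GauA_g
    ring
  simp_rw [e1]
  have e2 := lintegral_prod_mul (μ := (volume : Measure V)) (ν := (volume : Measure V))
    (f := fun a => ENNReal.ofReal (GauA_g a) * φ (y + (ε : ℂ) • a))
    (g := fun b : V => ENNReal.ofReal (GauA_g b))
    (by
      have := GauA_g_meas
      exact (this.ennreal_ofReal.mul hm).aemeasurable) (GauA_g_meas.ennreal_ofReal.aemeasurable)
  rw [Measure.volume_eq_prod, e2, GauA_lint_g, mul_one]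

theorem det_ae {ε : ℝ} (hε : 0 < ε) : ∀ᵐ G : Fin 3 → V, (mat ε G).det ≠ 0 := by
  let A : Fin 3 → V := fun i => Pi.single i 1
  have hcont : Continuous (fun G : Fin 3 → V => (mat ε G).det) := by
    refine Continuous.matrix_det ?_
    refine continuous_pi fun j => continuous_pi fun i => ?_
    unfold mat
    fun_prop
  have hfin : ∀ G : Fin 3 → V, ∀ᵐ t : ℝ, (mat ε (G + t • A)).det ≠ 0 := by
    intro G
    let B : Matrix (Fin 3) (Fin 3) ℂ := fun j i => -((ε : ℂ) * G i j)
    have hB : ∀ t : ℝ, (mat ε (G + t • A)).det = B.charpoly.eval ((1 + ε * t : ℝ) : ℂ) := by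
      intro t
      rw [Matrix.eval_charpoly]
      congr 1
      ext j i
      have hs : ((Matrix.scalar (Fin 3)) ((1 + ε * t : ℝ) : ℂ) - B) j i =
          (if j = i then ((1 + ε * t : ℝ) : ℂ) else 0) + (ε : ℂ) * G i j := by
        rw [Matrix.sub_apply, Matrix.scalar_apply, Matrix.diagonal_apply]
        simp only [B]
        ring
      rw [hs]
      simp only [mat, A, Pi.add_apply, Pi.smul_apply, Pi.single_apply, Complex.real_smul]
      by_cases hji : j = i
      · subst hji
        simp
        ring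
      · simp [hji]
    have hf : Set.Finite {t : ℝ | (mat ε (G + t • A)).det = 0} := by
      have h1 : Set.Finite {z : ℂ | B.charpoly.IsRoot z} :=
        Polynomial.finite_setOfPred_isRoot (Matrix.charpoly_monic B).ne_zero
      have h2 : Set.InjOn (fun t : ℝ => ((1 + ε * t : ℝ) : ℂ))
          ((fun t : ℝ => ((1 + ε * t : ℝ) : ℂ)) ⁻¹' {z : ℂ | B.charpoly.IsRoot z}) := by
        intro s _ t _ hst
        have h3 : 1 + ε * s = 1 + ε * t := Complex.ofReal_injective hst
        have h4 : ε * s = ε * t := by linarith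
        exact mul_left_cancel₀ hε.ne' h4
      refine (h1.preimage h2).subset ?_
      intro t ht
      show B.charpoly.IsRoot ((1 + ε * t : ℝ) : ℂ)
      rw [Polynomial.IsRoot, ← hB t]
      exact ht
    have h0 : volume {t : ℝ | (mat ε (G + t • A)).det = 0} = 0 := hf.measure_zero _
    rw [ae_iff]
    simpa using h0
  have hmeas : MeasurableSet {q : (Fin 3 → V) × ℝ | (mat ε (q.1 + q.2 • A)).det ≠ 0} := by
    have hc : Continuous (fun q : (Fin 3 → V) × ℝ => (mat ε (q.1 + q.2 • A)).det) :=
      hcont.comp (by fun_prop)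
    exact (hc.measurable (measurableSet_singleton 0)).compl
  have h1 : ∀ᵐ G : Fin 3 → V, ∀ᵐ t : ℝ, (mat ε (G + t • A)).det ≠ 0 :=
    Filter.Eventually.of_forall hfin
  rw [Measure.ae_ae_comm (p := fun (G : Fin 3 → V) (t : ℝ) => (mat ε (G + t • A)).det ≠ 0)
    hmeas] at h1
  obtain ⟨t, ht⟩ := h1.exists
  have h2 : MeasurableSet {G : Fin 3 → V | (mat ε G).det = 0} :=
    hcont.measurable (measurableSet_singleton 0)
  rw [ae_iff] at ht ⊢
  have h3 := measure_preimage_add_right (volume : Measure (Fin 3 → V)) (t • A)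
    {G : Fin 3 → V | (mat ε G).det = 0}
  have e1 : {G : Fin 3 → V | ¬(mat ε G).det ≠ 0} = {G : Fin 3 → V | (mat ε G).det = 0} := by
    ext G
    simp
  rw [e1, ← h3]
  have e2 : (fun G : Fin 3 → V => G + t • A) ⁻¹' {G : Fin 3 → V | (mat ε G).det = 0} =
      {G : Fin 3 → V | ¬(mat ε (G + t • A)).det ≠ 0} := by
    ext G
    simp
  rw [e2]
  exact ht

theorem gs_int {ε : ℝ} (hε : 0 < ε) (y : V) : ∫⁻ x : V, ENNReal.ofReal (gs ε (x - y)) = 1 := by
  have h := GauA_subst hε y (φ := fun _ => 1) measurable_const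
  simp only [mul_one] at h
  rw [← h, GauA_lint_g]

end Pool.Agent.H85.DC
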