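import Pool.Agent.H85.DC.GauA
import Pool.Agent.H85.DC.Inv

/-!
# Row GauB: integrability for the average over the Gaussian matrices

`hsM M = ∑ |M_jk|^2`. For a form `A` with `|A_jk(x)| ≤ C/N x` (`form_bound`): `|pull M A y j k| ≤ 9 C hsM M / N (M y)` for `M y ≠ 0`
(each entry is a sum of 9 terms `M_aj A_ab conj(M_bk)`).
`gau_bound`: `K ε = ∫ gau G * hsM (mat ε G) / N ((mat ε G) y) dG < ∞` for every `ε > 0` and unit `y`, bounded independently of `y`: by
Cauchy-Schwarz (or `a b ≤ (a^2 + b^2)/2`): `hsM(M)/N(My) ≤ (hsM(M)^2 + N(My)^{-2})/2`. `∫ gau hsM(mat ε G)^2 < ∞`: polynomial growth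
times Gaussian (`hsM (mat ε G) ≤ 6 + 2 ε^2 ∑ N (G_i)`, and `s^2 e^{-s} ≤ C e^{-s/2}`); `∫ gau N(My)^{-2} dG = ∫ gs ε (x - y) N(x)^{-2} dx`
(`single_law`) `≤ (πε^2)^{-3} ∫_{N x ≤ 1} N^{-2} + 1 < ∞`. For general `y ≠ 0` scale: `N(M (l y)) = |l|^2 N(My)`.
So `∫ gau hsM(mat) / N (mat y) dG ≤ K ε / N y` for all `y ≠ 0`.
`pull_int`: for each `y ≠ 0`, entries of `gau G • pull (mat ε G) A y` are integrable in `G` (measurability in `G`:
`pull (mat ε G) A y j k` is measurable: `A` is continuous on the open set `{0}ᶜ`, extend by `0`: entries of `A` are measurable as functions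
if `A 0` is anything: a function continuous on `{0}ᶜ` is measurable (`measurable_of_continuousOn_compl_singleton`)).
`av_hom`, `av_kill`, `av_herm`: homogeneity and the kernel relations hold under the integral: `pull M A (l • y) = |l|^{-2} pull M A y` when
`M y ≠ 0`, etc.; a.e. `G` has `mat ε G` invertible (`det_ae`).
-/

open MeasureTheory
open scoped ContDiff BigOperators ComplexConjugate Matrix

namespace Pool.Agent.H85.DC

theorem form_meas {A : V → M3} (hA : IsForm A) (j k : Fin 3) : Measurable (fun x => A x j k) := by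
  refine measurable_of_continuousOn_compl_singleton 0 ?_
  exact (continuous_apply_apply j k).comp_continuousOn hA.cont

theorem GauB_pull_apply (M : M3) (A : V → M3) (y : V) (j k : Fin 3) :
    pull M A y j k = ∑ b, (∑ a, M a j * A (M.mulVec y) a b) * conj (M b k) := by
  simp only [pull, Matrix.mul_apply, Matrix.transpose_apply, Matrix.map_apply]

theorem GauB_hs_entry (M : M3) (a j : Fin 3) : ‖M a j‖ ^ 2 ≤ hs M := by
  have h1 : Complex.normSq (M a j) ≤ ∑ k, Complex.normSq (M a k) :=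
    Finset.single_le_sum (f := fun k => Complex.normSq (M a k))
      (fun k _ => Complex.normSq_nonneg _) (Finset.mem_univ j)
  have h2 : ∑ k, Complex.normSq (M a k) ≤ hs M :=
    Finset.single_le_sum (f := fun a => ∑ k, Complex.normSq (M a k))
      (fun a _ => Finset.sum_nonneg (fun k _ => Complex.normSq_nonneg _)) (Finset.mem_univ a)
  rw [← Complex.normSq_eq_norm_sq]
  exact h1.trans h2

theorem pull_norm {A : V → M3} {C : ℝ} (hC : ∀ x : V, x ≠ 0 → ∀ j k, ‖A x j k‖ ≤ C / N x)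
    (M : M3) {y : V} (hy : M.mulVec y ≠ 0) (j k : Fin 3) :
    ‖pull M A y j k‖ ≤ 9 * C * hs M / N (M.mulVec y) := by
  rw [GauB_pull_apply]
  have h0 : 0 ≤ C / N (M.mulVec y) := le_trans (norm_nonneg _) (hC _ hy 0 0)
  have hterm : ∀ a b : Fin 3, ‖M a j * A (M.mulVec y) a b * conj (M b k)‖ ≤
      hs M * (C / N (M.mulVec y)) := by
    intro a b
    rw [norm_mul, norm_mul, RCLike.norm_conj]
    have h1 := GauB_hs_entry M a j
    have h2 := GauB_hs_entry M b k
    have h3 : ‖M a j‖ * ‖M b k‖ ≤ hs M := by nlinarith [sq_nonneg (‖M a j‖ - ‖M b k‖)]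
    have h4 := hC _ hy a b
    have h5 : 0 ≤ hs M := le_trans (sq_nonneg _) h1
    calc ‖M a j‖ * ‖A (M.mulVec y) a b‖ * ‖M b k‖ = (‖M a j‖ * ‖M b k‖) * ‖A (M.mulVec y) a b‖ := by ring
      _ ≤ hs M * (C / N (M.mulVec y)) := mul_le_mul h3 h4 (norm_nonneg _) h5
  have h9 : ‖∑ b, (∑ a, M a j * A (M.mulVec y) a b) * conj (M b k)‖ ≤
      ∑ _b : Fin 3, ∑ _a : Fin 3, hs M * (C / N (M.mulVec y)) := by
    refine (norm_sum_le _ _).trans (Finset.sum_le_sum fun b _ => ?_)
    rw [Finset.sum_mul]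
    exact (norm_sum_le _ _).trans (Finset.sum_le_sum fun a _ => hterm a b)
  refine h9.trans (le_of_eq ?_)
  simp only [Finset.sum_const, Finset.card_univ, Fintype.card_fin, nsmul_eq_mul]
  push_cast
  ring

theorem GauB_hs_mat (ε : ℝ) (G : Fin 3 → V) : hs (mat ε G) ≤ 6 + 2 * ε ^ 2 * ∑ i, N (G i) := by
  have h1 : ∀ j i : Fin 3, Complex.normSq (mat ε G j i) ≤
      2 * (if j = i then 1 else 0) + 2 * ε ^ 2 * Complex.normSq (G i j) := by
    intro j i
    have h : ∀ a b : ℂ, Complex.normSq (a + b) ≤ 2 * Complex.normSq a + 2 * Complex.normSq b := by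
      intro a b
      simp only [Complex.normSq_apply, Complex.add_re, Complex.add_im]
      nlinarith [sq_nonneg (a.re - b.re), sq_nonneg (a.im - b.im)]
    refine (h _ _).trans (le_of_eq ?_)
    rw [Complex.normSq_mul, Complex.normSq_ofReal]
    split_ifs <;> simp <;> ring
  have h2 : hs (mat ε G) ≤ ∑ j : Fin 3, ∑ i : Fin 3,
      (2 * (if j = i then (1:ℝ) else 0) + 2 * ε ^ 2 * Complex.normSq (G i j)) :=
    Finset.sum_le_sum fun j _ => Finset.sum_le_sum fun i _ => h1 j i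
  refine h2.trans (le_of_eq ?_)
  simp only [N, Fin.sum_univ_three]
  simp
  ring

theorem GauB_N_cont : Continuous N := by
  unfold N
  exact continuous_finsetSum _ fun j _ => Complex.continuous_normSq.comp (continuous_apply j)

theorem GauB_mat_cont (ε : ℝ) (a b : Fin 3) : Continuous (fun G : Fin 3 → V => mat ε G a b) := by
  unfold mat
  fun_prop

theorem GauB_mulVec_cont (ε : ℝ) :
    Continuous (fun q : V × (Fin 3 → V) => (mat ε q.2).mulVec q.1) := by
  simp only [mat_mulVec]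
  fun_prop

theorem pull_meas {A : V → M3} (hA : IsForm A) (ε : ℝ) (j k : Fin 3) :
    Measurable (fun q : V × (Fin 3 → V) => pull (mat ε q.2) A q.1 j k) := by
  simp only [GauB_pull_apply]
  refine Finset.measurable_sum _ fun b _ => ?_
  refine Measurable.mul (Finset.measurable_sum _ fun a _ => ?_) ?_
  · refine Measurable.mul ?_ ?_
    · exact ((GauB_mat_cont ε a j).comp continuous_snd).measurable
    · exact (form_meas hA a b).comp (GauB_mulVec_cont ε).measurable
  · exact (Complex.continuous_conj.comp ((GauB_mat_cont ε b k).comp continuous_snd)).measurable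

theorem GauB_S_nonneg (G : Fin 3 → V) : 0 ≤ ∑ i, N (G i) :=
  Finset.sum_nonneg fun i _ => N_nonneg (G i)

theorem GauB_S_cont : Continuous (fun G : Fin 3 → V => ∑ i, N (G i)) :=
  continuous_finsetSum _ fun i _ => GauB_N_cont.comp (continuous_apply i)

theorem GauB_half : Integrable (fun G : Fin 3 → V => (Real.pi ^ 9)⁻¹ * Real.exp (-(∑ i, N (G i)) / 2)) := by
  have i1 : (volume : Measure V).IsAddHaarMeasure := by
    show (Measure.pi (fun _ : Fin 3 => (volume : Measure ℂ))).IsAddHaarMeasure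
    infer_instance
  have i2 : (volume : Measure (Fin 3 → V)).IsAddHaarMeasure :=
    MeasureTheory.Measure.pi.isAddHaarMeasure (fun _ : Fin 3 => (volume : Measure V))
  have h := gau_integrable.comp_smul (R := Real.sqrt (1 / 2)) (by positivity)
  refine h.congr (Filter.Eventually.of_forall fun G => ?_)
  have h1 : ∀ i, N ((Real.sqrt (1 / 2) • G) i) = N (G i) / 2 := by
    intro i
    have : (Real.sqrt (1 / 2) • G) i = ((Real.sqrt (1 / 2) : ℝ) : ℂ) • G i := by
      rw [Pi.smul_apply]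
      rfl
    rw [this, N_smul, Complex.normSq_ofReal, Real.mul_self_sqrt (by norm_num)]
    ring
  simp only [gau, h1]
  rw [← Finset.sum_div]
  congr 2
  ring

theorem GauB_intA (ε : ℝ) :
    Integrable (fun G : Fin 3 → V => gau G * (6 + 2 * ε ^ 2 * ∑ i, N (G i)) ^ 2) := by
  refine (GauB_half.const_mul (72 + 64 * ε ^ 4)).mono' ?_ (Filter.Eventually.of_forall fun G => ?_)
  · refine (gau_meas.mul ?_).aestronglyMeasurable
    exact ((continuous_const.add (continuous_const.mul GauB_S_cont)).pow 2).measurable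
  · have hS := GauB_S_nonneg G
    set s := ∑ i, N (G i) with hs
    have hg := gau_nonneg G
    rw [Real.norm_of_nonneg (by positivity)]
    have hgau : gau G = (Real.pi ^ 9)⁻¹ * (Real.exp (-s / 2) * Real.exp (-s / 2)) := by
      unfold gau
      rw [← Real.exp_add]
      congr 2
      rw [← hs]
      ring
    have hq := Real.quadratic_le_exp_of_nonneg (x := s / 2) (by positivity)
    have he : Real.exp (-s / 2) * Real.exp (s / 2) = 1 := by
      rw [← Real.exp_add]
      simp [neg_div]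
    have hpos : 0 < Real.exp (-s / 2) := Real.exp_pos _
    have hle : Real.exp (-s / 2) * (6 + 2 * ε ^ 2 * s) ^ 2 ≤ 72 + 64 * ε ^ 4 := by
      have h1 : (6 + 2 * ε ^ 2 * s) ^ 2 ≤ (72 + 64 * ε ^ 4) * Real.exp (s / 2) := by
        have h2 : (6 + 2 * ε ^ 2 * s) ^ 2 ≤ 72 + 8 * ε ^ 4 * s ^ 2 := by
          nlinarith [sq_nonneg (6 - 2 * ε ^ 2 * s)]
        have h3 : 72 + 8 * ε ^ 4 * s ^ 2 ≤ (72 + 64 * ε ^ 4) * (1 + s / 2 + (s / 2) ^ 2 / 2) := by
          have h4 : 0 ≤ ε ^ 4 := by positivity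
          nlinarith [mul_nonneg h4 hS, mul_nonneg h4 (sq_nonneg s), sq_nonneg s]
        exact h2.trans (h3.trans (mul_le_mul_of_nonneg_left hq (by positivity)))
      calc Real.exp (-s / 2) * (6 + 2 * ε ^ 2 * s) ^ 2
          ≤ Real.exp (-s / 2) * ((72 + 64 * ε ^ 4) * Real.exp (s / 2)) :=
            mul_le_mul_of_nonneg_left h1 hpos.le
        _ = (72 + 64 * ε ^ 4) * (Real.exp (-s / 2) * Real.exp (s / 2)) := by ring
        _ = 72 + 64 * ε ^ 4 := by rw [he, mul_one]
    rw [hgau]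
    have hpi : 0 ≤ (Real.pi ^ 9)⁻¹ * Real.exp (-s / 2) := by positivity
    calc (Real.pi ^ 9)⁻¹ * (Real.exp (-s / 2) * Real.exp (-s / 2)) * (6 + 2 * ε ^ 2 * s) ^ 2
        = ((Real.pi ^ 9)⁻¹ * Real.exp (-s / 2)) * (Real.exp (-s / 2) * (6 + 2 * ε ^ 2 * s) ^ 2) := by
          ring
      _ ≤ ((Real.pi ^ 9)⁻¹ * Real.exp (-s / 2)) * (72 + 64 * ε ^ 4) :=
          mul_le_mul_of_nonneg_left hle hpi
      _ = (72 + 64 * ε ^ 4) * ((Real.pi ^ 9)⁻¹ * Real.exp (-s / 2)) := by ring

theorem GauB_stepB {ε : ℝ} (hε : 0 < ε) : ∃ B : ℝ, 0 ≤ B ∧ ∀ y : V, N y = 1 →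
    ∫⁻ G : Fin 3 → V, ENNReal.ofReal (gau G) *
      ENNReal.ofReal (((N ((mat ε G).mulVec y))⁻¹) ^ 2) ≤ ENNReal.ofReal B := by
  have hI := (integrable_N_rpow (s := -2) (c := 1) (by norm_num) one_pos).const_mul
    ((((Real.pi * ε ^ 2) ^ 3)⁻¹) * Real.exp 1)
  have hfin := hI.lintegral_lt_top
  refine ⟨(1 + ∫⁻ x : V, ENNReal.ofReal ((((Real.pi * ε ^ 2) ^ 3)⁻¹) * Real.exp 1 *
    ((N x) ^ (-2 : ℝ) * Real.exp (-1 * N x)))).toReal, ENNReal.toReal_nonneg, fun y hy => ?_⟩
  have hφ : Measurable (fun x : V => ENNReal.ofReal (((N x)⁻¹) ^ 2)) :=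
    (GauB_N_cont.measurable.inv.pow_const 2).ennreal_ofReal
  rw [single_law hε hy hφ]
  rw [ENNReal.ofReal_toReal (ENNReal.add_ne_top.2 ⟨ENNReal.one_ne_top, hfin.ne⟩)]
  rw [← gs_int hε y, ← lintegral_add_right']
  · refine lintegral_mono fun x => ?_
    show ENNReal.ofReal (gs ε (x - y)) * ENNReal.ofReal (((N x)⁻¹) ^ 2) ≤
      ENNReal.ofReal (gs ε (x - y)) + ENNReal.ofReal ((((Real.pi * ε ^ 2) ^ 3)⁻¹) * Real.exp 1 *
        ((N x) ^ (-2 : ℝ) * Real.exp (-1 * N x)))
    have hgs : 0 ≤ gs ε (x - y) := by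
      unfold gs
      positivity
    have hgs1 : gs ε (x - y) ≤ ((Real.pi * ε ^ 2) ^ 3)⁻¹ := by
      unfold gs
      have : Real.exp (-N (x - y) / ε ^ 2) ≤ 1 := by
        rw [Real.exp_le_one_iff]
        exact div_nonpos_of_nonpos_of_nonneg (neg_nonpos.2 (N_nonneg _)) (sq_nonneg _)
      exact mul_le_of_le_one_right (by positivity) this
    rw [← ENNReal.ofReal_mul hgs]
    rcases le_or_gt (N x) 1 with h | h
    · refine le_trans ?_ le_add_self
      refine ENNReal.ofReal_le_ofReal ?_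
      rcases (N_nonneg x).eq_or_lt with h0 | h0
      · rw [← h0]
        simp
      · rw [Real.rpow_neg h0.le, Real.rpow_ofNat, ← inv_pow]
        have he : 1 ≤ Real.exp 1 * Real.exp (-1 * N x) := by
          rw [← Real.exp_add]
          exact Real.one_le_exp (by linarith)
        calc gs ε (x - y) * (N x)⁻¹ ^ 2 ≤ ((Real.pi * ε ^ 2) ^ 3)⁻¹ * (N x)⁻¹ ^ 2 :=
              mul_le_mul_of_nonneg_right hgs1 (by positivity)
          _ ≤ (((Real.pi * ε ^ 2) ^ 3)⁻¹ * (N x)⁻¹ ^ 2) * (Real.exp 1 * Real.exp (-1 * N x)) :=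
              le_mul_of_one_le_right (by positivity) he
          _ = _ := by ring
    · refine le_trans ?_ le_self_add
      refine ENNReal.ofReal_le_ofReal ?_
      refine mul_le_of_le_one_right hgs ?_
      exact pow_le_one₀ (by positivity) (inv_le_one_of_one_le₀ h.le)
  · exact hI.aestronglyMeasurable.aemeasurable.ennreal_ofReal

theorem gau_bound {ε : ℝ} (hε : 0 < ε) :
    ∃ K : ℝ, 0 ≤ K ∧ ∀ y : V, y ≠ 0 →
      ∫⁻ G : Fin 3 → V, ENNReal.ofReal (gau G * (hs (mat ε G) / N ((mat ε G).mulVec y))) ≤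
        ENNReal.ofReal (K / N y) := by
  obtain ⟨B, hB, hB2⟩ := GauB_stepB hε
  have hA := GauB_intA ε
  have hA0 : ∀ G : Fin 3 → V, 0 ≤ gau G * (6 + 2 * ε ^ 2 * ∑ i, N (G i)) ^ 2 :=
    fun G => mul_nonneg (gau_nonneg G) (sq_nonneg _)
  have hunit : ∀ y : V, N y = 1 →
      ∫⁻ G : Fin 3 → V, ENNReal.ofReal (gau G * (hs (mat ε G) / N ((mat ε G).mulVec y))) ≤
        ENNReal.ofReal ((∫ G : Fin 3 → V, gau G * (6 + 2 * ε ^ 2 * ∑ i, N (G i)) ^ 2) + B) := by
    intro y hy
    have h1 := hB2 y hy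
    rw [ENNReal.ofReal_add (integral_nonneg hA0) hB, 
      ofReal_integral_eq_lintegral_ofReal hA (Filter.Eventually.of_forall hA0)]
    refine le_trans ?_ (add_le_add le_rfl h1)
    rw [← lintegral_add_left' hA.aestronglyMeasurable.aemeasurable.ennreal_ofReal]
    refine lintegral_mono fun G => ?_
    show ENNReal.ofReal (gau G * (hs (mat ε G) / N ((mat ε G).mulVec y))) ≤
      ENNReal.ofReal (gau G * (6 + 2 * ε ^ 2 * ∑ i, N (G i)) ^ 2) +
        ENNReal.ofReal (gau G) * ENNReal.ofReal (((N ((mat ε G).mulVec y))⁻¹) ^ 2)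
    rw [← ENNReal.ofReal_mul (gau_nonneg G),
      ← ENNReal.ofReal_add (hA0 G) (mul_nonneg (gau_nonneg G) (sq_nonneg _))]
    refine ENNReal.ofReal_le_ofReal ?_
    rw [← mul_add]
    refine mul_le_mul_of_nonneg_left ?_ (gau_nonneg G)
    have h2 := GauB_hs_mat ε G
    have h3 : 0 ≤ hs (mat ε G) := le_trans (sq_nonneg _) (GauB_hs_entry (mat ε G) 0 0)
    have h4 : 0 ≤ (N ((mat ε G).mulVec y))⁻¹ := inv_nonneg.2 (N_nonneg _)
    rw [div_eq_mul_inv]
    nlinarith [sq_nonneg ((6 + 2 * ε ^ 2 * ∑ i, N (G i)) - (N ((mat ε G).mulVec y))⁻¹),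
      mul_le_mul_of_nonneg_right h2 h4, sq_nonneg (6 + 2 * ε ^ 2 * ∑ i, N (G i)),
      sq_nonneg ((N ((mat ε G).mulVec y))⁻¹)]
  refine ⟨(∫ G : Fin 3 → V, gau G * (6 + 2 * ε ^ 2 * ∑ i, N (G i)) ^ 2) + B,
    add_nonneg (integral_nonneg hA0) hB, fun y hy => ?_⟩
  obtain ⟨y', hy', hyy⟩ := exists_smul_sphere hy
  have hNy := N_pos hy
  have h1 : ∀ G : Fin 3 → V, gau G * (hs (mat ε G) / N ((mat ε G).mulVec y)) =
      (N y)⁻¹ * (gau G * (hs (mat ε G) / N ((mat ε G).mulVec y'))) := by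
    intro G
    have h2 : N ((mat ε G).mulVec y) = N y * N ((mat ε G).mulVec y') := by
      conv_lhs => rw [hyy]
      rw [Matrix.mulVec_smul, N_smul, Complex.normSq_ofReal, Real.mul_self_sqrt hNy.le]
    rw [h2, div_eq_mul_inv, div_eq_mul_inv, mul_inv]
    ring
  have h1' : ∀ G : Fin 3 → V, ENNReal.ofReal (gau G * (hs (mat ε G) / N ((mat ε G).mulVec y))) =
      ENNReal.ofReal ((N y)⁻¹) *
        ENNReal.ofReal (gau G * (hs (mat ε G) / N ((mat ε G).mulVec y'))) := by
    intro G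
    rw [h1 G, ENNReal.ofReal_mul (inv_nonneg.2 hNy.le)]
  simp_rw [h1']
  rw [lintegral_const_mul' _ _ ENNReal.ofReal_ne_top]
  rw [div_eq_mul_inv, mul_comm _ ((N y)⁻¹), ENNReal.ofReal_mul (inv_nonneg.2 hNy.le)]
  exact mul_le_mul_right (hunit y' hy') _

theorem GauB_mulVec_ne {ε : ℝ} (hε : 0 < ε) {y : V} (hy : y ≠ 0) :
    ∀ᵐ G : Fin 3 → V, (mat ε G).mulVec y ≠ 0 := by
  filter_upwards [det_ae hε] with G hG
  exact mulVec_ne hG hy

theorem GauB_mk (y : V) : Measurable (Prod.mk y : (Fin 3 → V) → V × (Fin 3 → V)) :=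
  measurable_prodMk_left

theorem GauB_meas1 {A : V → M3} (hA : IsForm A) (ε : ℝ) (y : V) (j k : Fin 3) :
    Measurable (fun G : Fin 3 → V => pull (mat ε G) A y j k) := by
  have h2 := (pull_meas hA ε j k).comp (GauB_mk y)
  rw [Function.comp_def] at h2
  exact h2

theorem GauB_meas2 {A : V → M3} (hA : IsForm A) (ε : ℝ) (y : V) (j k : Fin 3) :
    Measurable (fun G : Fin 3 → V => (gau G : ℂ) * pull (mat ε G) A y j k) :=
  (Complex.measurable_ofReal.comp gau_meas).mul (GauB_meas1 hA ε y j k)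

theorem GauB_meas3 (ε : ℝ) : Measurable (fun G : Fin 3 → V => hs (mat ε G)) := by
  unfold hs
  refine Finset.measurable_sum _ fun a _ => Finset.measurable_sum _ fun b _ => ?_
  exact (Complex.continuous_normSq.comp (GauB_mat_cont ε a b)).measurable

theorem GauB_meas4 (ε : ℝ) (y : V) :
    Measurable (fun G : Fin 3 → V => N ((mat ε G).mulVec y)) := by
  have h2 := (GauB_mulVec_cont ε).measurable.comp (GauB_mk y)
  rw [Function.comp_def] at h2
  exact GauB_N_cont.measurable.comp h2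

theorem GauB_meas5 (ε : ℝ) (y : V) : Measurable (fun G : Fin 3 → V =>
    gau G * (hs (mat ε G) / N ((mat ε G).mulVec y))) :=
  gau_meas.mul ((GauB_meas3 ε).div (GauB_meas4 ε y))

theorem GauB_int6 {ε : ℝ} (hε : 0 < ε) {y : V} (hy : y ≠ 0) :
    Integrable (fun G : Fin 3 → V => gau G * (hs (mat ε G) / N ((mat ε G).mulVec y))) := by
  obtain ⟨K, hK, hK2⟩ := gau_bound hε
  have hpos : ∀ G : Fin 3 → V, 0 ≤ gau G * (hs (mat ε G) / N ((mat ε G).mulVec y)) := fun G =>
    mul_nonneg (gau_nonneg G) (div_nonneg (le_trans (sq_nonneg _) (GauB_hs_entry (mat ε G) 0 0))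
      (N_nonneg _))
  refine ⟨(GauB_meas5 ε y).aestronglyMeasurable, ?_⟩
  rw [hasFiniteIntegral_iff_ofReal (Filter.Eventually.of_forall hpos)]
  exact lt_of_le_of_lt (hK2 y hy) ENNReal.ofReal_lt_top

theorem pull_int {A : V → M3} (hA : IsForm A) {ε : ℝ} (hε : 0 < ε) {y : V} (hy : y ≠ 0)
    (j k : Fin 3) :
    Integrable (fun G : Fin 3 → V => (gau G : ℂ) * pull (mat ε G) A y j k) := by
  obtain ⟨C, hC0, hC⟩ := form_bound hA
  have hI := (GauB_int6 hε hy).const_mul (9 * C)
  refine Integrable.mono' hI (GauB_meas2 hA ε y j k).aestronglyMeasurable ?_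
  filter_upwards [GauB_mulVec_ne hε hy] with G hG
  have h1 := pull_norm hC (mat ε G) hG j k
  have h2 : ‖(gau G : ℂ) * pull (mat ε G) A y j k‖ = gau G * ‖pull (mat ε G) A y j k‖ := by
    rw [norm_mul, Complex.norm_real, Real.norm_of_nonneg (gau_nonneg G)]
  rw [h2]
  refine (mul_le_mul_of_nonneg_left h1 (gau_nonneg G)).trans (le_of_eq ?_)
  generalize N ((mat ε G).mulVec y) = n
  generalize hs (mat ε G) = m
  ring

theorem av_hom {A : V → M3} (hA : IsForm A) {ε : ℝ} (hε : 0 < ε) (l : ℂ) (y : V) (hl : l ≠ 0) :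
    av ε A (l • y) = ((Complex.normSq l : ℂ))⁻¹ • av ε A y := by
  ext j k
  rw [Matrix.smul_apply, smul_eq_mul]
  unfold av
  rw [← integral_const_mul]
  refine integral_congr_ae (Filter.Eventually.of_forall fun G => ?_)
  show (gau G : ℂ) * pull (mat ε G) A (l • y) j k =
    ((Complex.normSq l : ℂ))⁻¹ * ((gau G : ℂ) * pull (mat ε G) A y j k)
  have h : pull (mat ε G) A (l • y) j k = ((Complex.normSq l : ℂ))⁻¹ * pull (mat ε G) A y j k := by
    rw [GauB_pull_apply, GauB_pull_apply, Matrix.mulVec_smul, hA.hom l _ hl, Finset.mul_sum]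
    refine Finset.sum_congr rfl fun b _ => ?_
    rw [← mul_assoc, Finset.mul_sum]
    congr 1
    refine Finset.sum_congr rfl fun a _ => ?_
    rw [Matrix.smul_apply, smul_eq_mul]
    ring
  rw [h]
  ring

theorem av_killl {A : V → M3} (hA : IsForm A) {ε : ℝ} (hε : 0 < ε) {y : V} (hy : y ≠ 0)
    (k : Fin 3) : ∑ j, y j * av ε A y j k = 0 := by
  unfold av
  simp_rw [← integral_const_mul]
  rw [← integral_finsetSum _ (fun j _ => (pull_int hA hε hy j k).const_mul (y j))]
  refine integral_eq_zero_of_ae ?_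
  filter_upwards [GauB_mulVec_ne hε hy] with G hG
  show ∑ j, y j * ((gau G : ℂ) * pull (mat ε G) A y j k) = 0
  have h := hA.killl _ hG
  have h1 : ∑ j, y j * pull (mat ε G) A y j k =
      ∑ b, (∑ a, (mat ε G).mulVec y a * A ((mat ε G).mulVec y) a b) * conj (mat ε G b k) := by
    simp only [GauB_pull_apply]
    simp only [Matrix.mulVec, dotProduct, Fin.sum_univ_three]
    ring
  have h2 : ∑ j, y j * pull (mat ε G) A y j k = 0 := by
    rw [h1]
    refine Finset.sum_eq_zero fun b _ => ?_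
    rw [h b, zero_mul]
  calc ∑ j, y j * ((gau G : ℂ) * pull (mat ε G) A y j k)
      = (gau G : ℂ) * ∑ j, y j * pull (mat ε G) A y j k := by
        rw [Finset.mul_sum]
        exact Finset.sum_congr rfl fun j _ => by ring
    _ = 0 := by rw [h2, mul_zero]

theorem av_killr {A : V → M3} (hA : IsForm A) {ε : ℝ} (hε : 0 < ε) {y : V} (hy : y ≠ 0)
    (j : Fin 3) : ∑ k, av ε A y j k * conj (y k) = 0 := by
  unfold av
  simp_rw [← integral_mul_const]
  rw [← integral_finsetSum _ (fun k _ => (pull_int hA hε hy j k).mul_const (conj (y k)))]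
  refine integral_eq_zero_of_ae ?_
  filter_upwards [GauB_mulVec_ne hε hy] with G hG
  show ∑ k, (gau G : ℂ) * pull (mat ε G) A y j k * conj (y k) = 0
  have h := hA.killr _ hG
  have h1 : ∑ k, pull (mat ε G) A y j k * conj (y k) =
      ∑ a, mat ε G a j * ∑ b, A ((mat ε G).mulVec y) a b * conj ((mat ε G).mulVec y b) := by
    have hc : ∀ b, conj ((mat ε G).mulVec y b) =
        ∑ k, conj (mat ε G b k) * conj (y k) := by
      intro b
      simp only [Matrix.mulVec, dotProduct, map_sum, map_mul]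
    simp only [GauB_pull_apply, hc]
    generalize A ((mat ε G).mulVec y) = B
    simp only [Fin.sum_univ_three]
    ring
  have h2 : ∑ k, pull (mat ε G) A y j k * conj (y k) = 0 := by
    rw [h1]
    refine Finset.sum_eq_zero fun a _ => ?_
    rw [h a, mul_zero]
  calc ∑ k, (gau G : ℂ) * pull (mat ε G) A y j k * conj (y k)
      = (gau G : ℂ) * ∑ k, pull (mat ε G) A y j k * conj (y k) := by
        rw [Finset.mul_sum]
        exact Finset.sum_congr rfl fun j _ => by ring
    _ = 0 := by rw [h2, mul_zero]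

theorem av_herm {A : V → M3} (hA : IsForm A) (hh : IsHerm A) {ε : ℝ} (hε : 0 < ε) :
    IsHerm (av ε A) := by
  intro y hy
  ext j k
  rw [Matrix.conjTranspose_apply]
  show conj (av ε A y k j) = av ε A y j k
  unfold av
  rw [← integral_conj]
  refine integral_congr_ae ?_
  filter_upwards [GauB_mulVec_ne hε hy] with G hG
  rw [map_mul, Complex.conj_ofReal]
  congr 1
  have h := hh _ hG
  have hab : ∀ a b, conj (A ((mat ε G).mulVec y) a b) = A ((mat ε G).mulVec y) b a := fun a b =>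
    h.apply b a
  rw [GauB_pull_apply, GauB_pull_apply]
  simp only [map_sum, map_mul, Complex.conj_conj, hab]
  generalize A ((mat ε G).mulVec y) = B
  simp only [Fin.sum_univ_three]
  ring

end Pool.Agent.H85.DC
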