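import Pool.Agent.H85.DC.GauB

/-!
# Row GauC: the average on orthonormal pairs

`quad A w = ∑ A_jk w_j conj(w_k)`. `quad (pull M A y) w = quad (A (M y)) (M w)` (`quad_pull`, expand).
`quad_av`: `(y, w)` orthonormal. `quad (av ε A y) w = ∫ gau G quad (A (y + ε a)) (w + ε b) dG`, `a = ∑ y_i G_i`, `b = ∑ w_i G_i`
(`mat_mulVec`; the integral of a finite linear combination of integrable functions, `pull_int`). By `pair_law_c` it is
`∫∫ g(a) g(b) quad (A (y + ε a)) (w + ε b) da db`. For fixed `a`, `∫ g(b) quad B (w + ε b) db = quad B w + ε^2 tr B`, since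
`∫ g = 1`, `∫ g b_j = 0` (odd), `∫ g b_j conj(b_k) = δ_jk` (`j ≠ k`: the change of variables `b_j ↦ - b_j`; `j = k`: `∫_ℂ |z|^2 e^{-|z|^2} = π`,
or by `ibp`/symmetry: `∫ N g = 3`, e.g. `moment_rec`-like; any proof) (`gauss_quad`). Then substitute `x = y + ε a`:
`∫ gs ε (x - y) (quad (A x) w + ε^2 tr (A x)) dx`. (Fubini: the integrand is integrable on `V × V`, bound `C (N w + N b)/N(y+εa)`.)
`quad_av'`: `N y = 1`, `w` arbitrary, `w' = w - ip w y • y` (`⊥ y`): `quad (av ε A y) w = quad (av ε A y) w'` since `av ε A y` kills `y`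
(`av_killl`, `av_killr`); if `w' = 0` both sides vanish (`quad (A x) 0 = 0`); otherwise apply `quad_av` to `w'/√(N w')` and scale.
`gs_div_int`: `x ↦ gs ε (x - y) / N x` is integrable (`N^{-1}` is integrable near `0`, `gs` bounded and integrable).
-/

open MeasureTheory
open scoped ContDiff BigOperators ComplexConjugate Matrix

namespace Pool.Agent.H85.DC

theorem quad_pull (M : M3) (A : V → M3) (y w : V) :
    quad (pull M A y) w = quad (A (M.mulVec y)) (M.mulVec w) := by
  unfold pull
  generalize A (M.mulVec y) = B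
  simp only [quad, Matrix.mul_apply, Matrix.mulVec, dotProduct, Fin.sum_univ_three,
    map_add, map_mul, Matrix.transpose_apply, Matrix.map_apply]
  ring

/-- The one dimensional Gaussian. -/
noncomputable def GauC_ga (z : ℂ) : ℂ := ((Real.pi⁻¹ * Real.exp (-Complex.normSq z) : ℝ) : ℂ)

theorem GauC_ga_cont : Continuous GauC_ga := by
  unfold GauC_ga
  exact Complex.continuous_ofReal.comp (continuous_const.mul
    (Real.continuous_exp.comp (continuous_neg.comp Complex.continuous_normSq)))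

theorem GauC_int0 : ∫ z : ℂ, GauC_ga z = 1 := by
  unfold GauC_ga
  rw [integral_complex_ofReal, integral_const_mul, GauA_int_C]
  rw [inv_mul_cancel₀ Real.pi_ne_zero]
  simp

theorem GauC_intb0 : Integrable GauC_ga := by
  by_contra h
  have := integral_undef h
  rw [GauC_int0] at this
  exact one_ne_zero this

theorem GauC_int2 : ∫ z : ℂ, GauC_ga z * z * conj z = 1 := by
  have h := Complex.integral_rpow_mul_exp_neg_rpow (p := 2) (q := 2) (by norm_num) (by norm_num)
  have e : ∀ z : ℂ, GauC_ga z * z * conj z =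
      ((Real.pi⁻¹ * (‖z‖ ^ (2 : ℝ) * Real.exp (-‖z‖ ^ (2 : ℝ))) : ℝ) : ℂ) := by
    intro z
    unfold GauC_ga
    rw [mul_assoc, Complex.mul_conj, Complex.normSq_eq_norm_sq, Real.rpow_two]
    push_cast
    ring
  simp_rw [e]
  rw [integral_complex_ofReal, integral_const_mul, h]
  have g2 : Real.Gamma ((2 + 2) / 2) = 1 := by
    have : ((2 : ℝ) + 2) / 2 = (1 : ℕ) + 1 := by norm_num
    rw [this, Real.Gamma_nat_eq_factorial]
    simp
  rw [g2]
  have : Real.pi⁻¹ * (2 * Real.pi / 2 * 1) = 1 := by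
    field_simp
  rw [this]
  simp

theorem GauC_intb2 : Integrable (fun z : ℂ => GauC_ga z * z * conj z) := by
  by_contra h
  have := integral_undef h
  rw [GauC_int2] at this
  exact one_ne_zero this

theorem GauC_int1 : ∫ z : ℂ, GauC_ga z * z = 0 := by
  have h := integral_neg_eq_self (fun z : ℂ => GauC_ga z * z) (volume : Measure ℂ)
  have e : ∀ z : ℂ, GauC_ga (-z) * (-z) = -(GauC_ga z * z) := by
    intro z
    unfold GauC_ga
    rw [Complex.normSq_neg]
    ring
  simp_rw [e] at h
  rw [integral_neg] at h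
  exact self_eq_neg.1 h.symm

theorem GauC_intb1 : Integrable (fun z : ℂ => GauC_ga z * z) := by
  refine (GauC_intb0.norm.add GauC_intb2.norm).mono'
    (GauC_ga_cont.mul continuous_id).aestronglyMeasurable (Filter.Eventually.of_forall fun z => ?_)
  simp only [Pi.add_apply, norm_mul, RCLike.norm_conj]
  have h1 : 0 ≤ ‖GauC_ga z‖ := norm_nonneg _
  have h2 : ‖z‖ ≤ 1 + ‖z‖ * ‖z‖ := by nlinarith [sq_nonneg (‖z‖ - 1), norm_nonneg z]
  calc ‖GauC_ga z‖ * ‖z‖ ≤ ‖GauC_ga z‖ * (1 + ‖z‖ * ‖z‖) := by gcongr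
    _ = ‖GauC_ga z‖ + ‖GauC_ga z‖ * ‖z‖ * ‖z‖ := by ring

theorem GauC_int1' : ∫ z : ℂ, GauC_ga z * conj z = 0 := by
  have h := integral_neg_eq_self (fun z : ℂ => GauC_ga z * conj z) (volume : Measure ℂ)
  have e : ∀ z : ℂ, GauC_ga (-z) * conj (-z) = -(GauC_ga z * conj z) := by
    intro z
    unfold GauC_ga
    rw [Complex.normSq_neg, map_neg]
    ring
  simp_rw [e] at h
  rw [integral_neg] at h
  exact self_eq_neg.1 h.symm

theorem GauC_intb1' : Integrable (fun z : ℂ => GauC_ga z * conj z) := by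
  refine GauC_intb1.mono
    (GauC_ga_cont.mul Complex.continuous_conj).aestronglyMeasurable
    (Filter.Eventually.of_forall fun z => ?_)
  simp only [norm_mul, RCLike.norm_conj]
  exact le_rfl

theorem GauC_g_prod (b : V) : ((GauA_g b : ℝ) : ℂ) = ∏ i, GauC_ga (b i) := by
  unfold GauA_g GauC_ga
  rw [← Complex.ofReal_prod, Finset.prod_mul_distrib, GauA_exp_prod]
  simp

/-- The one dimensional factors. -/
noncomputable def GauC_F (p q : Prop) [Decidable p] [Decidable q] (z : ℂ) : ℂ :=
  GauC_ga z * (if p then z else 1) * (if q then conj z else 1)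

theorem GauC_F_intb (p q : Prop) [Decidable p] [Decidable q] : Integrable (GauC_F p q) := by
  unfold GauC_F
  by_cases hp : p <;> by_cases hq : q <;> simp only [hp, hq, if_true, if_false, mul_one]
  · exact GauC_intb2
  · exact GauC_intb1
  · exact GauC_intb1'
  · exact GauC_intb0

theorem GauC_F_int (p q : Prop) [Decidable p] [Decidable q] :
    ∫ z, GauC_F p q z = if (p ↔ q) then 1 else 0 := by
  unfold GauC_F
  by_cases hp : p <;> by_cases hq : q <;> simp only [hp, hq, if_true, if_false, mul_one]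
  · simpa using GauC_int2
  · simpa using GauC_int1
  · simpa using GauC_int1'
  · simpa using GauC_int0

theorem GauC_g_F (j k : Fin 3) (b : V) :
    ((GauA_g b : ℝ) : ℂ) * b j * conj (b k) = ∏ i, GauC_F (i = j) (i = k) (b i) := by
  unfold GauC_F
  rw [Finset.prod_mul_distrib, Finset.prod_mul_distrib, ← GauC_g_prod]
  simp

theorem GauC_g_F1 (j : Fin 3) (b : V) :
    ((GauA_g b : ℝ) : ℂ) * b j = ∏ i, GauC_F (i = j) False (b i) := by
  unfold GauC_F
  rw [Finset.prod_mul_distrib, Finset.prod_mul_distrib, ← GauC_g_prod]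
  simp

theorem GauC_g_F1' (k : Fin 3) (b : V) :
    ((GauA_g b : ℝ) : ℂ) * conj (b k) = ∏ i, GauC_F False (i = k) (b i) := by
  unfold GauC_F
  rw [Finset.prod_mul_distrib, Finset.prod_mul_distrib, ← GauC_g_prod]
  simp

theorem GauC_m2b (j k : Fin 3) :
    Integrable (fun b : V => ((GauA_g b : ℝ) : ℂ) * b j * conj (b k)) := by
  simp_rw [GauC_g_F]
  exact Integrable.fintype_prod (μ := fun _ : Fin 3 => (volume : Measure ℂ))
    (f := fun i => GauC_F (i = j) (i = k)) fun i => GauC_F_intb _ _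

theorem GauC_m1b (j : Fin 3) : Integrable (fun b : V => ((GauA_g b : ℝ) : ℂ) * b j) := by
  simp_rw [GauC_g_F1]
  exact Integrable.fintype_prod (μ := fun _ : Fin 3 => (volume : Measure ℂ))
    (f := fun i => GauC_F (i = j) False) fun i => GauC_F_intb _ _

theorem GauC_m1b' (k : Fin 3) : Integrable (fun b : V => ((GauA_g b : ℝ) : ℂ) * conj (b k)) := by
  simp_rw [GauC_g_F1']
  exact Integrable.fintype_prod (μ := fun _ : Fin 3 => (volume : Measure ℂ))
    (f := fun i => GauC_F False (i = k)) fun i => GauC_F_intb _ _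

theorem GauC_m0b : Integrable (fun b : V => ((GauA_g b : ℝ) : ℂ)) := GauA_g_integrable.ofReal

theorem GauC_m2 (j k : Fin 3) :
    ∫ b : V, ((GauA_g b : ℝ) : ℂ) * b j * conj (b k) = if j = k then 1 else 0 := by
  simp_rw [GauC_g_F]
  rw [integral_fintype_prod_volume_eq_prod (ι := Fin 3) (E := fun _ => ℂ)
    (fun i => GauC_F (i = j) (i = k))]
  simp_rw [GauC_F_int]
  by_cases h : j = k
  · subst h
    simp
  · rw [if_neg h]
    refine Finset.prod_eq_zero (Finset.mem_univ j) ?_
    simp [h]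

theorem GauC_m1 (j : Fin 3) : ∫ b : V, ((GauA_g b : ℝ) : ℂ) * b j = 0 := by
  simp_rw [GauC_g_F1]
  rw [integral_fintype_prod_volume_eq_prod (ι := Fin 3) (E := fun _ => ℂ)
    (fun i => GauC_F (i = j) False)]
  simp_rw [GauC_F_int]
  refine Finset.prod_eq_zero (Finset.mem_univ j) ?_
  simp

theorem GauC_m1' (k : Fin 3) : ∫ b : V, ((GauA_g b : ℝ) : ℂ) * conj (b k) = 0 := by
  simp_rw [GauC_g_F1']
  rw [integral_fintype_prod_volume_eq_prod (ι := Fin 3) (E := fun _ => ℂ)
    (fun i => GauC_F False (i = k))]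
  simp_rw [GauC_F_int]
  refine Finset.prod_eq_zero (Finset.mem_univ k) ?_
  simp

theorem GauC_m0 : ∫ b : V, ((GauA_g b : ℝ) : ℂ) = 1 := by
  rw [integral_complex_ofReal, GauA_int_g]
  simp

/-- The second factor. -/
noncomputable def GauC_H (w : V) (ε : ℝ) (j k : Fin 3) (b : V) : ℂ :=
  ((GauA_g b : ℝ) : ℂ) * (w j + (ε : ℂ) * b j) * conj (w k + (ε : ℂ) * b k)

theorem GauC_H_eq (w : V) (ε : ℝ) (j k : Fin 3) (b : V) :
    GauC_H w ε j k b = (w j * conj (w k)) * ((GauA_g b : ℝ) : ℂ) +
      ((ε : ℂ) * w j) * (((GauA_g b : ℝ) : ℂ) * conj (b k)) +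
      ((ε : ℂ) * conj (w k)) * (((GauA_g b : ℝ) : ℂ) * b j) +
      ((ε : ℂ) ^ 2) * (((GauA_g b : ℝ) : ℂ) * b j * conj (b k)) := by
  unfold GauC_H
  simp only [map_add, map_mul, Complex.conj_ofReal]
  ring

theorem GauC_add4 {a b c d : V → ℂ} (ha : Integrable a) (hb : Integrable b) (hc : Integrable c)
    (hd : Integrable d) :
    ∫ x, (a x + b x + c x + d x) = (∫ x, a x) + (∫ x, b x) + (∫ x, c x) + ∫ x, d x := by
  have h2 : Integrable (fun x => a x + b x) := ha.add hb
  have h3 : Integrable (fun x => a x + b x + c x) := h2.add hc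
  rw [integral_add h3 hd, integral_add h2 hc, integral_add ha hb]

theorem GauC_H_intb (w : V) (ε : ℝ) (j k : Fin 3) : Integrable (GauC_H w ε j k) := by
  have : GauC_H w ε j k = fun b => (w j * conj (w k)) * ((GauA_g b : ℝ) : ℂ) +
      ((ε : ℂ) * w j) * (((GauA_g b : ℝ) : ℂ) * conj (b k)) +
      ((ε : ℂ) * conj (w k)) * (((GauA_g b : ℝ) : ℂ) * b j) +
      ((ε : ℂ) ^ 2) * (((GauA_g b : ℝ) : ℂ) * b j * conj (b k)) :=
    funext fun b => GauC_H_eq w ε j k b
  rw [this]
  exact (((GauC_m0b.const_mul _).add ((GauC_m1b' k).const_mul _)).add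
    ((GauC_m1b j).const_mul _)).add ((GauC_m2b j k).const_mul _)

theorem GauC_H_int (w : V) (ε : ℝ) (j k : Fin 3) :
    ∫ b, GauC_H w ε j k b = w j * conj (w k) + ((ε ^ 2 : ℝ) : ℂ) * (if j = k then 1 else 0) := by
  simp_rw [GauC_H_eq]
  rw [GauC_add4 (GauC_m0b.const_mul _) ((GauC_m1b' k).const_mul _)
      ((GauC_m1b j).const_mul _) ((GauC_m2b j k).const_mul _),
    integral_const_mul, integral_const_mul, integral_const_mul, integral_const_mul,
    GauC_m0, GauC_m1, GauC_m1', GauC_m2]
  push_cast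
  ring

theorem GauC_quad_H (B : M3) (w : V) (ε : ℝ) (b : V) :
    ((GauA_g b : ℝ) : ℂ) * quad B (w + (ε : ℂ) • b) =
      ∑ j, ∑ k, B j k * GauC_H w ε j k b := by
  unfold quad GauC_H
  rw [Finset.mul_sum]
  refine Finset.sum_congr rfl fun j _ => ?_
  rw [Finset.mul_sum]
  refine Finset.sum_congr rfl fun k _ => ?_
  simp only [Pi.add_apply, Pi.smul_apply, smul_eq_mul]
  ring

theorem GauC_sumval (B : M3) (w : V) (ε : ℝ) :
    ∑ j, ∑ k, B j k * (w j * conj (w k) + ((ε ^ 2 : ℝ) : ℂ) * (if j = k then 1 else 0)) =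
      quad B w + ((ε ^ 2 : ℝ) : ℂ) * B.trace := by
  simp only [quad, Matrix.trace, Matrix.diag, Fin.sum_univ_three, mul_add]
  simp
  ring

theorem gauss_quad (B : M3) (w : V) (ε : ℝ) :
    ∫ b : V, (((Real.pi ^ 3)⁻¹ * Real.exp (-N b) : ℝ) : ℂ) * quad B (w + (ε : ℂ) • b) =
      quad B w + ((ε ^ 2 : ℝ) : ℂ) * B.trace := by
  have e : ∀ b : V, (((Real.pi ^ 3)⁻¹ * Real.exp (-N b) : ℝ) : ℂ) * quad B (w + (ε : ℂ) • b) =
      ∑ j, ∑ k, B j k * GauC_H w ε j k b := fun b => GauC_quad_H B w ε b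
  simp_rw [e]
  rw [integral_finsetSum (f := fun (j : Fin 3) (b : V) => ∑ k, B j k * GauC_H w ε j k b) _
    fun j _ => integrable_finsetSum _ fun k _ => (GauC_H_intb w ε j k).const_mul _]
  have e2 : ∀ j : Fin 3, ∫ b, ∑ k, B j k * GauC_H w ε j k b =
      ∑ k, B j k * (w j * conj (w k) + ((ε ^ 2 : ℝ) : ℂ) * (if j = k then 1 else 0)) := by
    intro j
    rw [integral_finsetSum (f := fun (k : Fin 3) (b : V) => B j k * GauC_H w ε j k b) _
      fun k _ => (GauC_H_intb w ε j k).const_mul _]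
    refine Finset.sum_congr rfl fun k _ => ?_
    rw [integral_const_mul, GauC_H_int]
  simp_rw [e2]
  exact GauC_sumval B w ε

theorem GauC_gs_cont (ε : ℝ) (y : V) : Continuous (fun x : V => gs ε (x - y)) := by
  unfold gs
  exact continuous_const.mul (Real.continuous_exp.comp
    ((continuous_neg.comp (GauA_contN.comp (continuous_id.sub continuous_const))).div_const _))

theorem GauC_gs_nonneg {ε : ℝ} (z : V) : 0 ≤ gs ε z := by
  unfold gs
  positivity

theorem GauC_gs_intb {ε : ℝ} (hε : 0 < ε) (y : V) : Integrable (fun x : V => gs ε (x - y)) := by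
  refine ⟨(GauC_gs_cont ε y).aestronglyMeasurable, ?_⟩
  rw [hasFiniteIntegral_iff_ofReal (Filter.Eventually.of_forall fun x => GauC_gs_nonneg _),
    gs_int hε y]
  exact ENNReal.one_lt_top

theorem gs_div_int {ε : ℝ} (hε : 0 < ε) (y : V) : Integrable (fun x : V => gs ε (x - y) / N x) := by
  set K : ℝ := ((Real.pi * ε ^ 2) ^ 3)⁻¹ with hK
  have hK0 : 0 ≤ K := by positivity
  have hgs : ∀ z : V, gs ε z ≤ K := by
    intro z
    unfold gs
    have : Real.exp (-N z / ε ^ 2) ≤ 1 := by
      rw [Real.exp_le_one_iff]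
      exact div_nonpos_of_nonpos_of_nonneg (neg_nonpos.2 (GauA_N_nonneg z)) (by positivity)
    calc ((Real.pi * ε ^ 2) ^ 3)⁻¹ * Real.exp (-N z / ε ^ 2) ≤ K * 1 := by
          rw [hK]; gcongr
      _ = K := mul_one _
  have h1 := (integrable_N_rpow (s := -1) (c := 1) (by norm_num) one_pos).const_mul
    (K * Real.exp 1)
  refine (h1.add (GauC_gs_intb hε y)).mono'
    ((GauC_gs_cont ε y).measurable.div GauA_contN.measurable).aestronglyMeasurable
    (Filter.Eventually.of_forall fun x => ?_)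
  have hN := GauA_N_nonneg x
  have hg := GauC_gs_nonneg (ε := ε) (x - y)
  rw [Real.norm_of_nonneg (div_nonneg hg hN)]
  simp only [Pi.add_apply]
  have p1 : 0 ≤ K * Real.exp 1 * (N x ^ (-1 : ℝ) * Real.exp (-1 * N x)) := by positivity
  by_cases h : N x ≤ 1
  · have h2 : gs ε (x - y) / N x ≤ K * Real.exp 1 * (N x ^ (-1 : ℝ) * Real.exp (-1 * N x)) := by
      rw [Real.rpow_neg_one, div_eq_mul_inv]
      have h3 : 1 ≤ Real.exp 1 * Real.exp (-1 * N x) := by
        rw [← Real.exp_add]
        apply Real.one_le_exp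
        linarith
      have h4 : 0 ≤ (N x)⁻¹ := inv_nonneg.2 hN
      calc gs ε (x - y) * (N x)⁻¹ ≤ K * (N x)⁻¹ := by gcongr; exact hgs _
        _ = K * (N x)⁻¹ * 1 := (mul_one _).symm
        _ ≤ K * (N x)⁻¹ * (Real.exp 1 * Real.exp (-1 * N x)) := by gcongr
        _ = K * Real.exp 1 * ((N x)⁻¹ * Real.exp (-1 * N x)) := by ring
    linarith
  · push Not at h
    have h2 : gs ε (x - y) / N x ≤ gs ε (x - y) := div_le_self hg h.le
    linarith

theorem GauC_shift_meas (ε : ℝ) (y : V) : Measurable (fun a : V => y + (ε : ℂ) • a) := by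
  have : Continuous (fun a : V => y + (ε : ℂ) • a) := by fun_prop
  exact this.measurable

theorem GauC_gs_meas (ε : ℝ) (y : V) : Measurable (fun x : V => gs ε (x - y)) :=
  (GauC_gs_cont ε y).measurable

theorem GauC_map {ε : ℝ} (hε : 0 < ε) (y : V) :
    Measure.map (fun a : V => y + (ε : ℂ) • a)
      ((volume : Measure V).withDensity (fun a => ENNReal.ofReal (GauA_g a))) =
    (volume : Measure V).withDensity (fun x => ENNReal.ofReal (gs ε (x - y))) := by
  ext s hs
  have hm := GauC_shift_meas ε y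
  rw [Measure.map_apply hm hs, withDensity_apply _ (hm hs), withDensity_apply _ hs]
  have h := GauA_subst hε y (φ := s.indicator 1) (measurable_one.indicator hs)
  rw [← lintegral_indicator (hm hs), ← lintegral_indicator hs]
  have e1 : ∀ a : V, ((fun a : V => y + (ε : ℂ) • a) ⁻¹' s).indicator
        (fun a => ENNReal.ofReal (GauA_g a)) a =
      ENNReal.ofReal (GauA_g a) * s.indicator 1 (y + (ε : ℂ) • a) := by
    intro a
    by_cases ha : y + (ε : ℂ) • a ∈ s
    · rw [Set.indicator_of_mem (by exact ha), Set.indicator_of_mem ha]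
      simp
    · rw [Set.indicator_of_notMem (by exact ha), Set.indicator_of_notMem ha]
      simp
  have e2 : ∀ x : V, s.indicator (fun x : V => ENNReal.ofReal (gs ε (x - y))) x =
      ENNReal.ofReal (gs ε (x - y)) * s.indicator 1 x := by
    intro x
    by_cases hx : x ∈ s
    · rw [Set.indicator_of_mem hx, Set.indicator_of_mem hx]
      simp
    · rw [Set.indicator_of_notMem hx, Set.indicator_of_notMem hx]
      simp
  simp_rw [e1, e2]
  exact h

theorem GauC_subst {ε : ℝ} (hε : 0 < ε) (y : V) {φ : V → ℂ} (hφ : Measurable φ) :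
    ∫ a : V, ((GauA_g a : ℝ) : ℂ) * φ (y + (ε : ℂ) • a) =
      ∫ x : V, (gs ε (x - y) : ℂ) * φ x := by
  have h1 := integral_map (μ := (volume : Measure V).withDensity
    (fun a => ENNReal.ofReal (GauA_g a))) (GauC_shift_meas ε y).aemeasurable
    (f := φ) hφ.aestronglyMeasurable
  rw [GauC_map hε y] at h1
  rw [integral_withDensity_eq_integral_toReal_smul (GauC_gs_meas ε y).ennreal_ofReal
      (Filter.Eventually.of_forall fun _ => ENNReal.ofReal_lt_top),
    integral_withDensity_eq_integral_toReal_smul (GauA_g_meas.ennreal_ofReal)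
      (Filter.Eventually.of_forall fun _ => ENNReal.ofReal_lt_top)] at h1
  have e1 : ∀ a : V, (ENNReal.ofReal (GauA_g a)).toReal • φ (y + (ε : ℂ) • a) =
      ((GauA_g a : ℝ) : ℂ) * φ (y + (ε : ℂ) • a) := by
    intro a
    rw [ENNReal.toReal_ofReal (GauA_g_nonneg a), Complex.real_smul]
  have e2 : ∀ x : V, (ENNReal.ofReal (gs ε (x - y))).toReal • φ x =
      (gs ε (x - y) : ℂ) * φ x := by
    intro x
    rw [ENNReal.toReal_ofReal (GauC_gs_nonneg _), Complex.real_smul]
  simp_rw [e1, e2] at h1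
  exact h1.symm

theorem GauC_subst_intb {ε : ℝ} (hε : 0 < ε) (y : V) {φ : V → ℂ} (hφ : Measurable φ)
    (hi : Integrable (fun x : V => (gs ε (x - y) : ℂ) * φ x)) :
    Integrable (fun a : V => ((GauA_g a : ℝ) : ℂ) * φ (y + (ε : ℂ) • a)) := by
  have h1 : Integrable φ ((volume : Measure V).withDensity
      (fun x => ENNReal.ofReal (gs ε (x - y)))) := by
    rw [integrable_withDensity_iff_integrable_smul' (GauC_gs_meas ε y).ennreal_ofReal
      (Filter.Eventually.of_forall fun _ => ENNReal.ofReal_lt_top)]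
    refine hi.congr (Filter.Eventually.of_forall fun x => ?_)
    simp only
    rw [ENNReal.toReal_ofReal (GauC_gs_nonneg _), Complex.real_smul]
  rw [← GauC_map hε y] at h1
  have h2 := h1.comp_measurable (GauC_shift_meas ε y)
  rw [integrable_withDensity_iff_integrable_smul' (GauA_g_meas.ennreal_ofReal)
      (Filter.Eventually.of_forall fun _ => ENNReal.ofReal_lt_top)] at h2
  refine h2.congr (Filter.Eventually.of_forall fun a => ?_)
  simp only [Function.comp]
  rw [ENNReal.toReal_ofReal (GauA_g_nonneg a), Complex.real_smul]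

theorem GauC_gsA_intb {A : V → M3} (hA : IsForm A) {ε : ℝ} (hε : 0 < ε) (y : V) (j k : Fin 3) :
    Integrable (fun x : V => (gs ε (x - y) : ℂ) * A x j k) := by
  obtain ⟨C, hC0, hC⟩ := form_bound hA
  refine ((gs_div_int hε y).const_mul C).mono'
    ((Complex.measurable_ofReal.comp (GauC_gs_meas ε y)).mul
      (form_meas hA j k)).aestronglyMeasurable ?_
  have h0 : ∀ᵐ x : V, x ≠ 0 := by
    rw [ae_iff]
    simp
  filter_upwards [h0] with x hx
  rw [norm_mul, Complex.norm_real, Real.norm_of_nonneg (GauC_gs_nonneg _)]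
  calc gs ε (x - y) * ‖A x j k‖ ≤ gs ε (x - y) * (C / N x) := by
        gcongr
        · exact GauC_gs_nonneg _
        · exact hC x hx j k
    _ = C * (gs ε (x - y) / N x) := by ring

theorem quad_av {A : V → M3} (hA : IsForm A) {ε : ℝ} (hε : 0 < ε) {y w : V} (hy : N y = 1)
    (hw : N w = 1) (hyw : ip w y = 0) :
    quad (av ε A y) w =
      ∫ x, (gs ε (x - y) : ℂ) * (quad (A x) w + ((ε ^ 2 : ℝ) : ℂ) * (A x).trace) := by
  have hy0 : y ≠ 0 := by
    rintro rfl
    simp [N] at hy
  -- step 1: under the integral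
  have s1 : quad (av ε A y) w =
      ∫ G : Fin 3 → V, (gau G : ℂ) * quad (pull (mat ε G) A y) w := by
    unfold quad av
    have e1 : ∀ G : Fin 3 → V, (gau G : ℂ) *
        ∑ j, ∑ k, pull (mat ε G) A y j k * w j * conj (w k) =
        ∑ j, ∑ k, ((gau G : ℂ) * pull (mat ε G) A y j k) * (w j * conj (w k)) := by
      intro G
      rw [Finset.mul_sum]
      refine Finset.sum_congr rfl fun j _ => ?_
      rw [Finset.mul_sum]
      exact Finset.sum_congr rfl fun k _ => by ring
    simp_rw [e1]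
    rw [integral_finsetSum _ fun j _ => integrable_finsetSum _ fun k _ =>
      (pull_int hA hε hy0 j k).mul_const _]
    refine Finset.sum_congr rfl fun j _ => ?_
    rw [integral_finsetSum _ fun k _ => (pull_int hA hε hy0 j k).mul_const _]
    refine Finset.sum_congr rfl fun k _ => ?_
    rw [integral_mul_const, mul_assoc]
  -- step 2: the pair law
  have hmφ : Measurable (fun q : V × V =>
      quad (A (y + (ε : ℂ) • q.1)) (w + (ε : ℂ) • q.2)) := by
    unfold quad
    refine Finset.measurable_fun_sum _ fun j _ => Finset.measurable_fun_sum _ fun k _ => ?_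
    have m1 : Measurable (fun q : V × V => A (y + (ε : ℂ) • q.1) j k) :=
      (form_meas hA j k).comp ((GauC_shift_meas ε y).comp measurable_fst)
    have m2 : Measurable (fun q : V × V => (w + (ε : ℂ) • q.2) j) :=
      (measurable_pi_apply j).comp ((GauC_shift_meas ε w).comp measurable_snd)
    have m3 : Measurable (fun q : V × V => conj ((w + (ε : ℂ) • q.2) k)) :=
      Complex.continuous_conj.measurable.comp
        ((measurable_pi_apply k).comp ((GauC_shift_meas ε w).comp measurable_snd))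
    exact (m1.mul m2).mul m3
  have s2 : ∫ G : Fin 3 → V, (gau G : ℂ) * quad (pull (mat ε G) A y) w =
      ∫ q : V × V, ((GauA_g q.1 : ℝ) : ℂ) * ((GauA_g q.2 : ℝ) : ℂ) *
        quad (A (y + (ε : ℂ) • q.1)) (w + (ε : ℂ) • q.2) := by
    have := pair_law_c hy hw hyw hmφ
    simp_rw [quad_pull, mat_mulVec]
    exact this
  have e3 : ∀ q : V × V, ((GauA_g q.1 : ℝ) : ℂ) * ((GauA_g q.2 : ℝ) : ℂ) *
        quad (A (y + (ε : ℂ) • q.1)) (w + (ε : ℂ) • q.2) =
      ∑ j, ∑ k, (((GauA_g q.1 : ℝ) : ℂ) * A (y + (ε : ℂ) • q.1) j k) * GauC_H w ε j k q.2 := by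
    intro q
    rw [mul_assoc, GauC_quad_H, Finset.mul_sum]
    refine Finset.sum_congr rfl fun j _ => ?_
    rw [Finset.mul_sum]
    exact Finset.sum_congr rfl fun k _ => by ring
  have hF : ∀ j k, Integrable (fun a : V => ((GauA_g a : ℝ) : ℂ) * A (y + (ε : ℂ) • a) j k) :=
    fun j k => GauC_subst_intb hε y (φ := fun x => A x j k) (form_meas hA j k)
      (GauC_gsA_intb hA hε y j k)
  have hP : ∀ j k, Integrable (fun q : V × V =>
      (((GauA_g q.1 : ℝ) : ℂ) * A (y + (ε : ℂ) • q.1) j k) * GauC_H w ε j k q.2) :=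
    fun j k => (hF j k).mul_prod (GauC_H_intb w ε j k)
  have s3 : ∫ q : V × V, ((GauA_g q.1 : ℝ) : ℂ) * ((GauA_g q.2 : ℝ) : ℂ) *
        quad (A (y + (ε : ℂ) • q.1)) (w + (ε : ℂ) • q.2) =
      ∑ j, ∑ k, (∫ a : V, ((GauA_g a : ℝ) : ℂ) * A (y + (ε : ℂ) • a) j k) *
        (w j * conj (w k) + ((ε ^ 2 : ℝ) : ℂ) * (if j = k then 1 else 0)) := by
    simp_rw [e3]
    rw [integral_finsetSum _ fun j _ => integrable_finsetSum _ fun k _ => hP j k]
    refine Finset.sum_congr rfl fun j _ => ?_
    rw [integral_finsetSum _ fun k _ => hP j k]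
    refine Finset.sum_congr rfl fun k _ => ?_
    rw [Measure.volume_eq_prod,
      integral_prod_mul (fun a : V => ((GauA_g a : ℝ) : ℂ) * A (y + (ε : ℂ) • a) j k)
        (GauC_H w ε j k), GauC_H_int]
  rw [s1, s2, s3]
  have e4 : ∀ j k, ∫ a : V, ((GauA_g a : ℝ) : ℂ) * A (y + (ε : ℂ) • a) j k =
      ∫ x : V, (gs ε (x - y) : ℂ) * A x j k :=
    fun j k => GauC_subst hε y (φ := fun x => A x j k) (form_meas hA j k)
  simp_rw [e4, ← integral_mul_const]
  have hQ : ∀ j k, Integrable (fun x : V => ((gs ε (x - y) : ℂ) * A x j k) *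
      (w j * conj (w k) + ((ε ^ 2 : ℝ) : ℂ) * (if j = k then 1 else 0))) :=
    fun j k => (GauC_gsA_intb hA hε y j k).mul_const _
  have e5 : ∀ j : Fin 3, ∑ k, ∫ x : V, ((gs ε (x - y) : ℂ) * A x j k) *
      (w j * conj (w k) + ((ε ^ 2 : ℝ) : ℂ) * (if j = k then 1 else 0)) =
      ∫ x : V, ∑ k, ((gs ε (x - y) : ℂ) * A x j k) *
      (w j * conj (w k) + ((ε ^ 2 : ℝ) : ℂ) * (if j = k then 1 else 0)) :=
    fun j => (integral_finsetSum _ fun k _ => hQ j k).symm
  simp_rw [e5]
  rw [← integral_finsetSum _ fun j _ => integrable_finsetSum _ fun k _ => hQ j k]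
  refine integral_congr_ae (Filter.Eventually.of_forall fun x => ?_)
  simp only
  rw [← GauC_sumval (A x) w ε, Finset.mul_sum]
  refine Finset.sum_congr rfl fun j _ => ?_
  rw [Finset.mul_sum]
  exact Finset.sum_congr rfl fun k _ => by ring

theorem GauC_quad_perp {A : M3} {y : V} (hl : ∀ k, ∑ j, y j * A j k = 0)
    (hr : ∀ j, ∑ k, A j k * conj (y k) = 0) (w : V) (c : ℂ) :
    quad A (w - c • y) = quad A w := by
  simp only [quad, Fin.sum_univ_three, Pi.sub_apply, Pi.smul_apply, smul_eq_mul, map_sub,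
    map_mul] at *
  linear_combination (-c * (conj (w 0) - conj c * conj (y 0))) * hl 0 + (-c * (conj (w 1) - conj c * conj (y 1))) * hl 1 +
    (-c * (conj (w 2) - conj c * conj (y 2))) * hl 2 - conj c * w 0 * hr 0 - conj c * w 1 * hr 1 -
    conj c * w 2 * hr 2

theorem GauC_quad_smul (A : M3) (c : ℂ) (w : V) :
    quad A (c • w) = (Complex.normSq c : ℂ) * quad A w := by
  unfold quad
  rw [Finset.mul_sum]
  refine Finset.sum_congr rfl fun j _ => ?_
  rw [Finset.mul_sum]
  refine Finset.sum_congr rfl fun k _ => ?_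
  simp only [Pi.smul_apply, smul_eq_mul, map_mul, ← Complex.mul_conj]
  ring

theorem quad_av' {A : V → M3} (hA : IsForm A) {ε : ℝ} (hε : 0 < ε) {y : V} (hy : N y = 1)
    (w : V) :
    quad (av ε A y) w =
      ∫ x, (gs ε (x - y) : ℂ) * (quad (A x) (w - ip w y • y) +
        ((ε ^ 2 * N (w - ip w y • y) : ℝ) : ℂ) * (A x).trace) := by
  have hy0 : y ≠ 0 := by
    rintro rfl
    simp [N] at hy
  have hyy : ip y y = 1 := by
    have : ((N y : ℝ) : ℂ) = ip y y := by
      unfold N ip
      push_cast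
      exact Finset.sum_congr rfl fun j _ => (Complex.mul_conj (y j)).symm
    rw [← this, hy]; simp
  have s1 : quad (av ε A y) w = quad (av ε A y) (w - ip w y • y) :=
    (GauC_quad_perp (av_killl hA hε hy0) (av_killr hA hε hy0) w _).symm
  rw [s1]
  set w' : V := w - ip w y • y with hw'
  have hort : ip w' y = 0 := by
    have : ip w' y = ip w y - ip w y * ip y y := by
      rw [hw']
      unfold ip
      rw [Finset.mul_sum, ← Finset.sum_sub_distrib]
      refine Finset.sum_congr rfl fun j _ => ?_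
      simp only [Pi.sub_apply, Pi.smul_apply, smul_eq_mul]
      ring
    rw [this, hyy]
    ring
  rcases eq_or_lt_of_le (GauA_N_nonneg w') with h0 | hpos
  · have hw0 : w' = 0 := by
      ext j
      have h2 := (Finset.sum_eq_zero_iff_of_nonneg
        (fun j _ => Complex.normSq_nonneg (w' j))).1 h0.symm j (Finset.mem_univ j)
      simpa using h2
    have q0 : ∀ B : M3, quad B (0 : V) = 0 := by
      intro B
      simp [quad]
    rw [← h0, hw0]
    simp [q0]
  · have hs : 0 < Real.sqrt (N w') := Real.sqrt_pos.2 hpos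
    have hsq : Real.sqrt (N w') * Real.sqrt (N w') = N w' := Real.mul_self_sqrt hpos.le
    set v : V := (((Real.sqrt (N w'))⁻¹ : ℝ) : ℂ) • w' with hv
    have hwv : w' = ((Real.sqrt (N w') : ℝ) : ℂ) • v := by
      rw [hv, smul_smul, ← Complex.ofReal_mul, mul_inv_cancel₀ hs.ne']
      simp
    have hNv : N v = 1 := by
      have : N v = (Real.sqrt (N w'))⁻¹ * (Real.sqrt (N w'))⁻¹ * N w' := by
        rw [hv]
        conv_lhs => unfold N
        conv_rhs => rw [N]
        rw [Finset.mul_sum]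
        refine Finset.sum_congr rfl fun j _ => ?_
        rw [Pi.smul_apply, smul_eq_mul, Complex.normSq_mul, Complex.normSq_ofReal]
      rw [this, ← mul_inv, hsq]
      exact inv_mul_cancel₀ hpos.ne'
    have hvy : ip v y = 0 := by
      have : ip v y = (((Real.sqrt (N w'))⁻¹ : ℝ) : ℂ) * ip w' y := by
        rw [hv]
        unfold ip
        rw [Finset.mul_sum]
        refine Finset.sum_congr rfl fun j _ => ?_
        rw [Pi.smul_apply, smul_eq_mul, mul_assoc]
      rw [this, hort, mul_zero]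
    have h := quad_av hA hε hy hNv hvy
    have c1 : ∀ B : M3, quad B w' = (N w' : ℂ) * quad B v := by
      intro B
      conv_lhs => rw [hwv, GauC_quad_smul, Complex.normSq_ofReal, hsq]
    rw [c1, h, ← integral_const_mul]
    refine integral_congr_ae (Filter.Eventually.of_forall fun x => ?_)
    simp only
    rw [c1 (A x)]
    push_cast
    ring

/-- Polarisation: the entries from the values of `quad`. -/
theorem polar (A : M3) (j k : Fin 3) :
    A j k = (1 / 4 : ℂ) * (quad A (Pi.single j 1 + Pi.single k 1) - quad A (Pi.single j 1 - Pi.single k 1)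
      + Complex.I * quad A (Pi.single j 1 + Complex.I • Pi.single k 1)
      - Complex.I * quad A (Pi.single j 1 - Complex.I • Pi.single k 1)) := by
  have key : ∀ u v : V, ∑ a, ∑ b, A a b * (u a * conj (v b)) =
      (1 / 4 : ℂ) * (quad A (u + v) - quad A (u - v)
      + Complex.I * quad A (u + Complex.I • v) - Complex.I * quad A (u - Complex.I • v)) := by
    intro u v
    unfold quad
    simp only [Finset.mul_sum, ← Finset.sum_sub_distrib, ← Finset.sum_add_distrib]
    refine Finset.sum_congr rfl fun a _ => Finset.sum_congr rfl fun b _ => ?_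
    simp only [Pi.add_apply, Pi.sub_apply, Pi.smul_apply, smul_eq_mul, map_add, map_sub, map_mul,
      Complex.conj_I]
    linear_combination (-(1 / 2 : ℂ) * A a b * (v a * conj (u b) - u a * conj (v b))) *
      Complex.I_mul_I
  rw [← key]
  simp [Pi.single_apply]

end Pool.Agent.H85.DC
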