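import Pool.Agent.H85.DC.GauC

/-!
# Row GauD: the average of a form is a form; convergence

`form_av`: only the continuity on `{0}ᶜ` is not yet known (`av_hom`, `av_killl`, `av_killr`). For `y ≠ 0` put
`ŷ = (√(N y))⁻¹ • y` (continuous in `y ≠ 0`, `N ŷ = 1`), `av ε A y = (N y)⁻¹ • av ε A ŷ`; so it suffices that `y ↦ av ε A y` is
continuous on the unit sphere `{N y = 1}` (`ContinuousOn`), and by `polar` that `y ↦ quad (av ε A y) w` is, for fixed `w`. Use
`quad_av'`: the integrand is continuous in `y` for each `x`, and for `y` in the unit sphere (compact) it is bounded by `C_w gs-sup(x)/N x`, where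
`gs ε (x - y) ≤ (π ε^2)^{-3} exp(1/ε^2) exp(-N x/(2ε^2))` (`N (x - y) ≥ N x/2 - N y`), integrable: `continuousOn_of_dominated`.
`av_conv`. Fix `A`, `C` with `|A_jk| ≤ C/N`. By homogeneity assume `N y = 1` and bound `‖av ε A y j k - A y j k‖ ≤ δ`; by `polar` it suffices to bound
`|quad (av ε A y) w - quad (A y) w| ≤ δ/4` for the 4 vectors `w` (`N w ≤ 4`); `w' = w - ip w y • y`, `N w' ≤ 4`,
`quad (A y) w = quad (A y) w'` (`quad_perp`), and the difference is
`∫ gs ε (x - y) [quad (A x) w' - quad (A y) w' + ε^2 N w' tr (A x)] dx` (`∫ gs = 1`). Let `κ > 0`; `A` is uniformly continuous on the compact shell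
`{1/4 ≤ N ≤ 4}`: there is `r ∈ (0,1/4)` with `|A_jk(x) - A_jk(y)| ≤ κ` for `N (x-y) < r`, `N y = 1`. The part `N (x - y) < r` contributes at
most `9·4·κ` plus `ε^2·4·3·4C`. The part `N (x - y) ≥ r`: integrand at most `gs ε (x-y) C'(1 + 1/N x)`, and
`gs ε z ≤ 8·e^{-r/(2ε^2)} gs (√2 ε) z` for `N z ≥ r`, so it is at most `8 e^{-r/(2ε^2)} C' (1 + ∫ gs (√2 ε)(x - y)/N x dx)`, and the last integral is bounded by an
absolute constant for `ε ≤ 1`: on `N x ≥ 1/4` by `4`; on `N x < 1/4`, `N (x-y) ≥ 1/4` and `gs (√2 ε) z ≤ (2πε^2)^{-3} e^{-1/(8ε^2)} ≤ C''`, times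
`∫_{N<1/4} 1/N < ∞` (`gs_div_bdd`). So everything tends to `0` uniformly in `y`.
-/

open MeasureTheory
open scoped ContDiff BigOperators ComplexConjugate Matrix

namespace Pool.Agent.H85.DC

theorem GauD_gs_nonneg (ε : ℝ) (z : V) : 0 ≤ gs ε z := by
  unfold gs
  have := Real.pi_pos
  positivity

theorem GauD_gs_cont (ε : ℝ) : Continuous (gs ε) := by
  unfold gs
  exact continuous_const.mul (Real.continuous_exp.comp ((continuous_N.neg).div_const _))

theorem GauD_gs_cont' (ε : ℝ) (y : V) : Continuous (fun x : V => gs ε (x - y)) :=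
  (GauD_gs_cont ε).comp (continuous_id.sub continuous_const)

theorem GauD_gs_integrable {ε : ℝ} (hε : 0 < ε) (y : V) : Integrable (fun x : V => gs ε (x - y)) := by
  refine ⟨(GauD_gs_cont' ε y).aestronglyMeasurable, ?_⟩
  rw [hasFiniteIntegral_iff_ofReal (Filter.Eventually.of_forall fun x => GauD_gs_nonneg ε _),
    gs_int hε y]
  exact ENNReal.one_lt_top

theorem GauD_gs_one {ε : ℝ} (hε : 0 < ε) (y : V) : ∫ x : V, gs ε (x - y) = 1 := by
  rw [integral_eq_lintegral_of_nonneg_ae (Filter.Eventually.of_forall fun x => GauD_gs_nonneg ε _)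
    (GauD_gs_cont' ε y).aestronglyMeasurable, gs_int hε y]
  simp

theorem GauD_N_add (u v : V) : N (u + v) ≤ 2 * N u + 2 * N v := by
  unfold N
  rw [Finset.mul_sum, Finset.mul_sum, ← Finset.sum_add_distrib]
  refine Finset.sum_le_sum fun j _ => ?_
  rw [Pi.add_apply, Complex.normSq_apply, Complex.normSq_apply, Complex.normSq_apply,
    Complex.add_re, Complex.add_im]
  nlinarith [sq_nonneg ((u j).re - (v j).re), sq_nonneg ((u j).im - (v j).im)]

theorem GauD_N_neg (u : V) : N (-u) = N u := by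
  unfold N
  exact Finset.sum_congr rfl fun j _ => by rw [Pi.neg_apply, Complex.normSq_neg]

theorem GauD_N_sub (x y : V) : N y / 2 - N x ≤ N (x - y) := by
  have h1 := GauD_N_add x (-(x - y))
  rw [GauD_N_neg] at h1
  have h2 : x + -(x - y) = y := by abel
  rw [h2] at h1
  linarith

theorem GauD_N_sub' (x y : V) : N x / 2 - N y ≤ N (x - y) := by
  have h1 := GauD_N_add (x - y) y
  rw [sub_add_cancel] at h1
  linarith

theorem GauD_ip_self (x : V) : ip x x = (N x : ℂ) := by
  unfold ip N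
  push_cast
  exact Finset.sum_congr rfl fun j _ => Complex.mul_conj (x j)

theorem GauD_ip_sub (x y z : V) : ip (x - y) z = ip x z - ip y z := by
  unfold ip
  rw [← Finset.sum_sub_distrib]
  exact Finset.sum_congr rfl fun j _ => by rw [Pi.sub_apply, sub_mul]

theorem GauD_ip_smul (c : ℂ) (x z : V) : ip (c • x) z = c * ip x z := by
  unfold ip
  rw [Finset.mul_sum]
  exact Finset.sum_congr rfl fun j _ => by rw [Pi.smul_apply, smul_eq_mul, mul_assoc]

theorem GauD_ip_conj (x y : V) : conj (ip x y) = ip y x := by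
  unfold ip
  rw [map_sum]
  exact Finset.sum_congr rfl fun j _ => by rw [map_mul, Complex.conj_conj, mul_comm]

theorem GauD_perp_le {w y : V} (hy : N y = 1) : N (w - ip w y • y) ≤ N w := by
  have h1 : ip (w - ip w y • y) y = 0 := by
    rw [GauD_ip_sub, GauD_ip_smul, GauD_ip_self, hy]
    push_cast
    ring
  have h1' : ip y (w - ip w y • y) = 0 := by rw [← GauD_ip_conj, h1, map_zero]
  have h2 : ip (w - ip w y • y) (w - ip w y • y) = ip w w - ip w y * ip y w := by
    rw [GauD_ip_sub, GauD_ip_smul, h1', mul_zero, sub_zero, ← GauD_ip_conj, GauD_ip_sub,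
      GauD_ip_smul, map_sub, map_mul, GauD_ip_conj, GauD_ip_conj, GauD_ip_conj]
    ring
  rw [GauD_ip_self, GauD_ip_self, ← GauD_ip_conj w y, Complex.mul_conj] at h2
  have h3 : N (w - ip w y • y) = N w - Complex.normSq (ip w y) := by exact_mod_cast h2
  rw [h3]
  have := Complex.normSq_nonneg (ip w y)
  linarith

theorem GauD_norm_le (w : V) (j k : Fin 3) : ‖w j‖ * ‖w k‖ ≤ N w := by
  have h0 : ∀ i, ‖w i‖ ^ 2 ≤ N w := fun i => by
    rw [← Complex.normSq_eq_norm_sq]
    unfold N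
    exact Finset.single_le_sum (f := fun i => Complex.normSq (w i))
      (fun j _ => Complex.normSq_nonneg _) (Finset.mem_univ i)
  nlinarith [h0 j, h0 k, sq_nonneg (‖w j‖ - ‖w k‖)]

theorem GauD_quad_bound {B : M3} {c : ℝ} (hB : ∀ j k, ‖B j k‖ ≤ c) (w : V) :
    ‖quad B w‖ ≤ 9 * c * N w := by
  have hc : 0 ≤ c := (norm_nonneg _).trans (hB 0 0)
  have h1 : ∀ j k, ‖B j k * w j * conj (w k)‖ ≤ c * N w := by
    intro j k
    rw [norm_mul, norm_mul, Complex.norm_conj, mul_assoc]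
    exact mul_le_mul (hB j k) (GauD_norm_le w j k) (by positivity) hc
  unfold quad
  calc ‖∑ j, ∑ k, B j k * w j * conj (w k)‖ ≤ ∑ j : Fin 3, ∑ k : Fin 3, c * N w := by
        refine (norm_sum_le _ _).trans (Finset.sum_le_sum fun j _ => ?_)
        exact (norm_sum_le _ _).trans (Finset.sum_le_sum fun k _ => h1 j k)
    _ = 9 * c * N w := by
        simp only [Finset.sum_const, Finset.card_univ, Fintype.card_fin, nsmul_eq_mul]
        push_cast
        ring

theorem GauD_trace_bound {B : M3} {c : ℝ} (hB : ∀ j k, ‖B j k‖ ≤ c) : ‖B.trace‖ ≤ 3 * c := by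
  unfold Matrix.trace
  calc ‖∑ j, B.diag j‖ ≤ ∑ j : Fin 3, c :=
        (norm_sum_le _ _).trans (Finset.sum_le_sum fun j _ => hB j j)
    _ = 3 * c := by simp

theorem GauD_zero {A : V → M3} (hA : IsForm A) : A 0 = 0 := by
  have h1 := hA.hom 2 0 (by norm_num)
  rw [smul_zero] at h1
  ext j k
  have h2 := congrFun (congrFun h1 j) k
  rw [Matrix.smul_apply, smul_eq_mul] at h2
  have h3 : (Complex.normSq (2 : ℂ) : ℂ) = 4 := by
    have : Complex.normSq (2 : ℂ) = 4 := by
      rw [Complex.normSq_apply]; norm_num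
    rw [this]; norm_num
  rw [h3] at h2
  rw [Matrix.zero_apply]
  linear_combination (4 / 3 : ℂ) * h2

theorem GauD_bound {A : V → M3} (hA : IsForm A) :
    ∃ C : ℝ, 0 ≤ C ∧ ∀ x : V, ∀ j k, ‖A x j k‖ ≤ C / N x := by
  obtain ⟨C, hC, hb⟩ := form_bound hA
  refine ⟨C, hC, fun x j k => ?_⟩
  by_cases hx : x = 0
  · rw [hx, GauD_zero hA]
    have h0 : N (0 : V) = 0 := by simp [N]
    rw [h0]
    simp
  · exact hb x hx j k

/-- the integrand -/
noncomputable def GauD_F (A : V → M3) (ε : ℝ) (w y x : V) : ℂ :=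
  (gs ε (x - y) : ℂ) * (quad (A x) (w - ip w y • y) +
        ((ε ^ 2 * N (w - ip w y • y) : ℝ) : ℂ) * (A x).trace)

theorem GauD_quad_meas {A : V → M3} (hA : IsForm A) (w : V) : Measurable (fun x => quad (A x) w) := by
  unfold quad
  exact Finset.measurable_sum _ fun j _ => Finset.measurable_sum _ fun k _ =>
    ((form_meas hA j k).mul_const _).mul_const _

theorem GauD_tr_meas {A : V → M3} (hA : IsForm A) : Measurable (fun x => (A x).trace) := by
  unfold Matrix.trace
  exact Finset.measurable_sum _ fun j _ => form_meas hA j j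

theorem GauD_F_meas {A : V → M3} (hA : IsForm A) (ε : ℝ) (w y : V) :
    Measurable (GauD_F A ε w y) := by
  unfold GauD_F
  exact (Complex.measurable_ofReal.comp (GauD_gs_cont' ε y).measurable).mul
    ((GauD_quad_meas hA _).add ((GauD_tr_meas hA).const_mul _))

theorem GauD_F_cont (A : V → M3) (ε : ℝ) (w x : V) : Continuous (fun y => GauD_F A ε w y x) := by
  have hip : Continuous fun y : V => ip w y := by
    unfold ip
    refine continuous_finsetSum _ fun j _ => ?_
    have h1 : Continuous fun a : V => conj (a j) :=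
      Complex.continuous_conj.comp (continuous_apply j)
    exact continuous_const.mul h1
  have hw : Continuous fun y : V => w - ip w y • y := continuous_const.sub (hip.smul continuous_id)
  have hwj : ∀ j : Fin 3, Continuous fun y : V => (w - ip w y • y) j := fun j =>
    (continuous_apply j).comp hw
  have hq : Continuous fun y : V => quad (A x) (w - ip w y • y) := by
    unfold quad
    refine continuous_finsetSum _ fun j _ => continuous_finsetSum _ fun k _ => ?_
    exact (continuous_const.mul (hwj j)).mul (Complex.continuous_conj.comp (hwj k))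
  have hg : Continuous fun y : V => gs ε (x - y) :=
    (GauD_gs_cont ε).comp (continuous_const.sub continuous_id)
  have hN : Continuous fun y : V => ε ^ 2 * N (w - ip w y • y) :=
    continuous_const.mul (continuous_N.comp hw)
  unfold GauD_F
  exact (Complex.continuous_ofReal.comp hg).mul
    (hq.add ((Complex.continuous_ofReal.comp hN).mul continuous_const))

theorem GauD_F_bound {A : V → M3} {C : ℝ} (hC : 0 ≤ C)
    (hb : ∀ x : V, ∀ j k, ‖A x j k‖ ≤ C / N x) {ε : ℝ} (hε : 0 < ε) (w : V) {y : V} (hy : N y = 1)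
    (x : V) : ‖GauD_F A ε w y x‖ ≤
      (((Real.pi * ε ^ 2) ^ 3)⁻¹ * Real.exp (1 / ε ^ 2) * (9 * C * N w + ε ^ 2 * N w * (3 * C))) *
        ((N x) ^ (-1 : ℝ) * Real.exp (-(1 / (2 * ε ^ 2)) * N x)) := by
  have hw := GauD_perp_le (w := w) hy
  have hw0 := N_nonneg (w - ip w y • y)
  have hNx := N_nonneg x
  have h1 := GauD_quad_bound (hb x) (w - ip w y • y)
  have h2 := GauD_trace_bound (hb x)
  have hCN : 0 ≤ C / N x := div_nonneg hC hNx
  have h3 : ‖quad (A x) (w - ip w y • y) +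
      ((ε ^ 2 * N (w - ip w y • y) : ℝ) : ℂ) * (A x).trace‖
      ≤ (9 * C * N w + ε ^ 2 * N w * (3 * C)) * (N x) ^ (-1 : ℝ) := by
    refine (norm_add_le _ _).trans ?_
    rw [norm_mul, Complex.norm_real, Real.norm_of_nonneg (by positivity), Real.rpow_neg_one]
    have h4 : 9 * (C / N x) * N (w - ip w y • y) ≤ 9 * (C / N x) * N w :=
      mul_le_mul_of_nonneg_left hw (by positivity)
    have h5 : ε ^ 2 * N (w - ip w y • y) * ‖(A x).trace‖ ≤ ε ^ 2 * N w * (3 * (C / N x)) := by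
      apply mul_le_mul _ h2 (norm_nonneg _) (mul_nonneg (by positivity) (hw0.trans hw))
      exact mul_le_mul_of_nonneg_left hw (by positivity)
    calc _ ≤ 9 * (C / N x) * N w + ε ^ 2 * N w * (3 * (C / N x)) := add_le_add (h1.trans h4) h5
      _ = (9 * C * N w + ε ^ 2 * N w * (3 * C)) * (N x)⁻¹ := by
        rw [div_eq_mul_inv]; ring
  have h6 : gs ε (x - y) ≤ ((Real.pi * ε ^ 2) ^ 3)⁻¹ * Real.exp (1 / ε ^ 2) *
      Real.exp (-(1 / (2 * ε ^ 2)) * N x) := by
    unfold gs
    rw [mul_assoc, ← Real.exp_add]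
    have hpi := Real.pi_pos
    refine mul_le_mul_of_nonneg_left (Real.exp_le_exp.2 ?_) (by positivity)
    have h7 := GauD_N_sub' x y
    rw [hy] at h7
    have h8 : 1 / ε ^ 2 + -(1 / (2 * ε ^ 2)) * N x = -(N x / 2 - 1) / ε ^ 2 := by
      field_simp
      ring
    rw [h8]
    gcongr
  have h9 : 0 ≤ (9 * C * N w + ε ^ 2 * N w * (3 * C)) * (N x) ^ (-1 : ℝ) :=
    (norm_nonneg _).trans h3
  unfold GauD_F
  rw [norm_mul, Complex.norm_real, Real.norm_of_nonneg (GauD_gs_nonneg ε _)]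
  calc _ ≤ (((Real.pi * ε ^ 2) ^ 3)⁻¹ * Real.exp (1 / ε ^ 2) *
        Real.exp (-(1 / (2 * ε ^ 2)) * N x)) *
        ((9 * C * N w + ε ^ 2 * N w * (3 * C)) * (N x) ^ (-1 : ℝ)) :=
        mul_le_mul h6 h3 (norm_nonneg _) ((GauD_gs_nonneg ε _).trans h6)
    _ = _ := by ring

theorem GauD_quad_cont {A : V → M3} (hA : IsForm A) {ε : ℝ} (hε : 0 < ε) (w : V) :
    ContinuousOn (fun y => quad (av ε A y) w) {y : V | N y = 1} := by
  obtain ⟨C, hC, hb⟩ := GauD_bound hA
  have h1 : ContinuousOn (fun y => ∫ x, GauD_F A ε w y x) {y : V | N y = 1} := by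
    refine continuousOn_of_dominated (bound := fun x =>
      (((Real.pi * ε ^ 2) ^ 3)⁻¹ * Real.exp (1 / ε ^ 2) * (9 * C * N w + ε ^ 2 * N w * (3 * C))) *
        ((N x) ^ (-1 : ℝ) * Real.exp (-(1 / (2 * ε ^ 2)) * N x))) ?_ ?_ ?_ ?_
    · intro y _
      exact (GauD_F_meas hA ε w y).aestronglyMeasurable
    · intro y hy
      exact Filter.Eventually.of_forall fun x => GauD_F_bound hC hb hε w hy x
    · exact (integrable_N_rpow (by norm_num) (by positivity)).const_mul _
    · exact Filter.Eventually.of_forall fun x => (GauD_F_cont A ε w x).continuousOn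
  refine h1.congr fun y hy => ?_
  exact quad_av' hA hε hy w

theorem GauD_av_cont_sphere {A : V → M3} (hA : IsForm A) {ε : ℝ} (hε : 0 < ε) (j k : Fin 3) :
    ContinuousOn (fun y => av ε A y j k) {y : V | N y = 1} := by
  have h1 : (fun y => av ε A y j k) = fun y => (1 / 4 : ℂ) *
      (quad (av ε A y) (Pi.single j 1 + Pi.single k 1) - quad (av ε A y) (Pi.single j 1 - Pi.single k 1)
      + Complex.I * quad (av ε A y) (Pi.single j 1 + Complex.I • Pi.single k 1)
      - Complex.I * quad (av ε A y) (Pi.single j 1 - Complex.I • Pi.single k 1)) :=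
    funext fun y => polar (av ε A y) j k
  rw [h1]
  have hc := fun w => GauD_quad_cont hA hε w
  exact continuousOn_const.mul ((((hc _).sub (hc _)).add (continuousOn_const.mul (hc _))).sub
    (continuousOn_const.mul (hc _)))

theorem GauD_hat {y : V} (hy : y ≠ 0) :
    N ((((Real.sqrt (N y))⁻¹ : ℝ) : ℂ) • y) = 1 := by
  have hN := N_pos hy
  rw [N_smul, Complex.normSq_ofReal, ← mul_inv, Real.mul_self_sqrt hN.le]
  exact inv_mul_cancel₀ hN.ne'

theorem GauD_normSq_inv {y : V} (hy : y ≠ 0) :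
    ((Complex.normSq ((((Real.sqrt (N y))⁻¹ : ℝ) : ℂ)) : ℂ))⁻¹ = (N y : ℂ) := by
  have hN := N_pos hy
  rw [Complex.normSq_ofReal, ← mul_inv, Real.mul_self_sqrt hN.le]
  push_cast
  rw [inv_inv]

theorem GauD_scale {B : V → M3}
    (hom : ∀ (l : ℂ) (x : V), l ≠ 0 → B (l • x) = ((Complex.normSq l : ℂ))⁻¹ • B x) {y : V}
    (hy : y ≠ 0) (j k : Fin 3) :
    B y j k = ((N y : ℂ))⁻¹ * B ((((Real.sqrt (N y))⁻¹ : ℝ) : ℂ) • y) j k := by
  have hN := N_pos hy
  have hl : (((Real.sqrt (N y))⁻¹ : ℝ) : ℂ) ≠ 0 := by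
    have h1 : 0 < (Real.sqrt (N y))⁻¹ := inv_pos.2 (Real.sqrt_pos.2 hN)
    exact_mod_cast h1.ne'
  rw [hom _ y hl, GauD_normSq_inv hy, Matrix.smul_apply, smul_eq_mul, ← mul_assoc,
    inv_mul_cancel₀ (by exact_mod_cast hN.ne'), one_mul]

theorem form_av {A : V → M3} (hA : IsForm A) {ε : ℝ} (hε : 0 < ε) : IsForm (av ε A) where
  cont := by
    refine continuousOn_pi.2 fun j => continuousOn_pi.2 fun k => ?_
    have h1 : ContinuousOn (fun y : V => ((N y : ℂ))⁻¹ *
        av ε A ((((Real.sqrt (N y))⁻¹ : ℝ) : ℂ) • y) j k) {0}ᶜ := by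
      refine ContinuousOn.mul ?_ ?_
      · refine ContinuousOn.inv₀ (Complex.continuous_ofReal.comp continuous_N).continuousOn ?_
        intro y hy
        exact_mod_cast (N_pos hy).ne'
      · refine (GauD_av_cont_sphere hA hε j k).comp ?_ ?_
        · have h2 : ContinuousOn (fun y : V => (Real.sqrt (N y))⁻¹) {0}ᶜ := by
            refine ContinuousOn.inv₀ (Real.continuous_sqrt.comp continuous_N).continuousOn ?_
            intro y hy
            exact (Real.sqrt_pos.2 (N_pos hy)).ne'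
          have h3 : ContinuousOn (fun y : V => (((Real.sqrt (N y))⁻¹ : ℝ) : ℂ)) {0}ᶜ :=
            Complex.continuous_ofReal.comp_continuousOn h2
          exact h3.smul continuousOn_id
        · intro y hy
          exact GauD_hat hy
    refine h1.congr fun y hy => ?_
    exact GauD_scale (av_hom hA hε) hy j k
  hom := av_hom hA hε
  killl := fun y hy k => av_killl hA hε hy k
  killr := fun y hy j => av_killr hA hε hy j

theorem GauD_gs_small {ε : ℝ} (hε : 0 < ε) {z : V} (hz : 1 / 4 ≤ N z) : gs ε z ≤ 384 := by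
  unfold gs
  obtain ⟨t, ht⟩ : ∃ t : ℝ, t = 1 / (4 * ε ^ 2) := ⟨_, rfl⟩
  have ht0 : 0 < t := by rw [ht]; positivity
  have hpi : 1 ≤ Real.pi := by have := Real.pi_gt_three; linarith
  have h1 : ((Real.pi * ε ^ 2) ^ 3)⁻¹ ≤ ((1 * ε ^ 2) ^ 3)⁻¹ := by gcongr
  have h2 : ((1 * ε ^ 2) ^ 3)⁻¹ = 64 * t ^ 3 := by
    rw [ht]; field_simp; norm_num
  have h3 : -N z / ε ^ 2 ≤ -t := by
    have : -t = -(1 / 4) / ε ^ 2 := by rw [ht]; field_simp
    rw [this]
    gcongr
  have h4 : t ^ 3 / 6 ≤ Real.exp t := by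
    have := Real.pow_div_factorial_le_exp t ht0.le 3
    have h5 : ((Nat.factorial 3 : ℕ) : ℝ) = 6 := by norm_num [Nat.factorial]
    rw [h5] at this
    exact this
  calc ((Real.pi * ε ^ 2) ^ 3)⁻¹ * Real.exp (-N z / ε ^ 2) ≤ (64 * t ^ 3) * Real.exp (-t) := by
        rw [← h2]
        exact mul_le_mul h1 (Real.exp_le_exp.2 h3) (Real.exp_pos _).le (by positivity)
    _ ≤ (64 * (6 * Real.exp t)) * Real.exp (-t) := by
        refine mul_le_mul_of_nonneg_right ?_ (Real.exp_pos _).le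
        linarith
    _ = 384 := by
        rw [mul_assoc, mul_assoc, ← Real.exp_add, add_neg_cancel, Real.exp_zero]
        norm_num

theorem gs_div_bdd : ∃ C : ℝ, 0 < C ∧ ∀ (ε : ℝ) (y : V), 0 < ε → ε ≤ 2 → N y = 1 →
    ∫ x : V, gs ε (x - y) / N x ≤ C := by
  have hI : Integrable (fun x : V => (N x) ^ (-1 : ℝ) * Real.exp (-1 * N x)) :=
    integrable_N_rpow (by norm_num) (by norm_num)
  have hI0 : 0 ≤ ∫ x : V, (N x) ^ (-1 : ℝ) * Real.exp (-1 * N x) := by
    refine integral_nonneg fun x => ?_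
    exact mul_nonneg (Real.rpow_nonneg (N_nonneg x) _) (Real.exp_pos _).le
  refine ⟨4 + 768 * ∫ x : V, (N x) ^ (-1 : ℝ) * Real.exp (-1 * N x), by linarith, ?_⟩
  intro ε y hε _ hy
  have hpt : ∀ x : V, gs ε (x - y) / N x ≤
      4 * gs ε (x - y) + 768 * ((N x) ^ (-1 : ℝ) * Real.exp (-1 * N x)) := by
    intro x
    have hg := GauD_gs_nonneg ε (x - y)
    have h0 : 0 ≤ (N x) ^ (-1 : ℝ) * Real.exp (-1 * N x) :=
      mul_nonneg (Real.rpow_nonneg (N_nonneg x) _) (Real.exp_pos _).le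
    rcases le_or_gt (1 / 4) (N x) with h | h
    · have h1 : gs ε (x - y) / N x ≤ gs ε (x - y) / (1 / 4) := by gcongr
      linarith
    · rcases eq_or_lt_of_le (N_nonneg x) with h2 | h2
      · rw [← h2, div_zero]
        rw [← h2] at h0
        linarith
      · have h3 := GauD_N_sub x y
        rw [hy] at h3
        have h4 := GauD_gs_small (ε := ε) hε (z := x - y) (by linarith)
        have h5 : 1 / 2 ≤ Real.exp (-1 * N x) := by
          have := Real.add_one_le_exp (-1 * N x)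
          linarith
        rw [Real.rpow_neg_one]
        have h6 : gs ε (x - y) / N x ≤ 384 * (N x)⁻¹ := by
          rw [div_eq_mul_inv]
          exact mul_le_mul_of_nonneg_right h4 (inv_nonneg.2 h2.le)
        have h7 : 0 < (N x)⁻¹ := inv_pos.2 h2
        nlinarith
  calc ∫ x : V, gs ε (x - y) / N x
      ≤ ∫ x : V, (4 * gs ε (x - y) + 768 * ((N x) ^ (-1 : ℝ) * Real.exp (-1 * N x))) :=
        integral_mono (gs_div_int hε y) (((GauD_gs_integrable hε y).const_mul 4).add
          (hI.const_mul 768)) hpt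
    _ = 4 + 768 * ∫ x : V, (N x) ^ (-1 : ℝ) * Real.exp (-1 * N x) := by
        rw [integral_add ((GauD_gs_integrable hε y).const_mul 4) (hI.const_mul 768),
          integral_const_mul, integral_const_mul, GauD_gs_one hε y, mul_one]

theorem GauD_unif {A : V → M3} (hA : IsForm A) {κ : ℝ} (hκ : 0 < κ) :
    ∃ r : ℝ, 0 < r ∧ ∀ y x : V, N y = 1 → N (x - y) < r → ∀ j k, ‖A x j k - A y j k‖ ≤ κ := by
  have hK : IsCompact {x : V | 1 / 4 ≤ N x ∧ N x ≤ 4} := by
    refine Metric.isCompact_of_isClosed_isBounded ?_ ?_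
    · exact (isClosed_le continuous_const continuous_N).inter
        (isClosed_le continuous_N continuous_const)
    · refine (Metric.isBounded_closedBall (x := (0 : V)) (r := 2)).subset ?_
      rintro x ⟨-, hx⟩
      rw [mem_closedBall_zero_iff]
      have h1 := norm_sq_le_N x
      nlinarith [norm_nonneg x]
  obtain ⟨f, hf⟩ : ∃ f : V → Fin 3 → Fin 3 → ℂ, f = fun x j k => A x j k := ⟨_, rfl⟩
  have hfc : ContinuousOn f {x : V | 1 / 4 ≤ N x ∧ N x ≤ 4} := by
    rw [hf]
    refine continuousOn_pi.2 fun j => continuousOn_pi.2 fun k => ?_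
    have h1 := continuousOn_pi.1 (continuousOn_pi.1 hA.cont j) k
    refine h1.mono ?_
    rintro x ⟨hx, -⟩ h0
    rw [Set.mem_singleton_iff] at h0
    rw [h0] at hx
    have h2 : N (0 : V) = 0 := by simp [N]
    rw [h2] at hx
    norm_num at hx
  have hu := hK.uniformContinuousOn_of_continuous hfc
  rw [Metric.uniformContinuousOn_iff] at hu
  obtain ⟨ρ, hρ, hρ2⟩ := hu κ hκ
  refine ⟨min (ρ ^ 2) (1 / 8), by positivity, ?_⟩
  intro y x hy hxy j k
  have h1 : N (x - y) < ρ ^ 2 := lt_of_lt_of_le hxy (min_le_left _ _)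
  have h2 : N (x - y) < 1 / 8 := lt_of_lt_of_le hxy (min_le_right _ _)
  have h3 := GauD_N_sub x y
  have h4 := GauD_N_sub' x y
  rw [hy] at h3 h4
  have h5 : ‖x - y‖ < ρ := by
    have := norm_sq_le_N (x - y)
    exact lt_of_pow_lt_pow_left₀ 2 hρ.le (lt_of_le_of_lt this h1)
  have h6 := hρ2 x ⟨by linarith, by linarith⟩ y ⟨by rw [hy]; norm_num, by rw [hy]; norm_num⟩
    (by rw [dist_eq_norm]; exact h5)
  have h7 : dist (f x j k) (f y j k) ≤ dist (f x) (f y) :=
    (dist_le_pi_dist (f x j) (f y j) k).trans (dist_le_pi_dist (f x) (f y) j)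
  rw [dist_eq_norm, hf] at h7
  rw [hf] at h6
  exact h7.trans h6.le

theorem GauD_gs_tail {ε r : ℝ} (hε : 0 < ε) {z : V} (hz : r ≤ N z) :
    gs ε z ≤ 8 * Real.exp (-r / (2 * ε ^ 2)) * gs (Real.sqrt 2 * ε) z := by
  unfold gs
  have h2 : (Real.sqrt 2 * ε) ^ 2 = 2 * ε ^ 2 := by
    rw [mul_pow, Real.sq_sqrt (by norm_num)]
  rw [h2]
  have hpi := Real.pi_pos
  have h3 : ((Real.pi * (2 * ε ^ 2)) ^ 3)⁻¹ = ((Real.pi * ε ^ 2) ^ 3)⁻¹ / 8 := by
    field_simp
    norm_num
  have h4 : Real.exp (-N z / ε ^ 2) ≤ Real.exp (-r / (2 * ε ^ 2)) * Real.exp (-N z / (2 * ε ^ 2)) := by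
    rw [← Real.exp_add]
    apply Real.exp_le_exp.2
    have h5 : -N z / ε ^ 2 = -N z / (2 * ε ^ 2) + -N z / (2 * ε ^ 2) := by
      field_simp
      ring
    rw [h5]
    have h6 : -N z / (2 * ε ^ 2) ≤ -r / (2 * ε ^ 2) := by gcongr
    linarith
  rw [h3]
  have h7 : 0 ≤ ((Real.pi * ε ^ 2) ^ 3)⁻¹ := by positivity
  calc ((Real.pi * ε ^ 2) ^ 3)⁻¹ * Real.exp (-N z / ε ^ 2)
      ≤ ((Real.pi * ε ^ 2) ^ 3)⁻¹ *
        (Real.exp (-r / (2 * ε ^ 2)) * Real.exp (-N z / (2 * ε ^ 2))) :=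
        mul_le_mul_of_nonneg_left h4 h7
    _ = _ := by ring

theorem GauD_F_int {A : V → M3} (hA : IsForm A) {ε : ℝ} (hε : 0 < ε) (w : V) {y : V}
    (hy : N y = 1) : Integrable (GauD_F A ε w y) := by
  obtain ⟨C, hC, hb⟩ := GauD_bound hA
  have h1 := (integrable_N_rpow (s := -1) (c := 1 / (2 * ε ^ 2)) (by norm_num)
    (by positivity)).const_mul
      (((Real.pi * ε ^ 2) ^ 3)⁻¹ * Real.exp (1 / ε ^ 2) * (9 * C * N w + ε ^ 2 * N w * (3 * C)))
  exact h1.mono' (GauD_F_meas hA ε w y).aestronglyMeasurable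
    (Filter.Eventually.of_forall fun x => GauD_F_bound hC hb hε w hy x)

theorem GauD_quad_sub (B B' : M3) (w : V) : quad (B - B') w = quad B w - quad B' w := by
  unfold quad
  rw [← Finset.sum_sub_distrib]
  refine Finset.sum_congr rfl fun j _ => ?_
  rw [← Finset.sum_sub_distrib]
  refine Finset.sum_congr rfl fun k _ => ?_
  rw [Matrix.sub_apply]
  ring

theorem GauD_diff {A : V → M3} (hA : IsForm A) {C C2 κ r ε : ℝ} (hC : 0 ≤ C)
    (hb : ∀ x : V, ∀ j k, ‖A x j k‖ ≤ C / N x) (hκ : 0 ≤ κ)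
    (hr2 : ∀ y x : V, N y = 1 → N (x - y) < r → ∀ j k, ‖A x j k - A y j k‖ ≤ κ)
    (hC2 : ∀ (ε : ℝ) (y : V), 0 < ε → ε ≤ 2 → N y = 1 → ∫ x : V, gs ε (x - y) / N x ≤ C2)
    (hε : 0 < ε) (hε1 : ε ≤ 1) {y w : V} (hy : N y = 1) (hw : N w ≤ 4) :
    ‖quad (av ε A y) w - quad (A y) w‖ ≤ 36 * κ + 12 * C * ε ^ 2 * C2 +
      288 * C * Real.exp (-r / (2 * ε ^ 2)) * (C2 + 1) := by
  have hy0 : y ≠ 0 := by
    rintro rfl
    have h0 : N (0 : V) = 0 := by simp [N]
    rw [h0] at hy
    exact zero_ne_one hy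
  have hs2 : 0 < Real.sqrt 2 * ε := by positivity
  have hs3 : Real.sqrt 2 * ε ≤ 2 := by
    have h1 : Real.sqrt 2 ≤ 2 := by
      rw [Real.sqrt_le_left (by norm_num)]; norm_num
    nlinarith [Real.sqrt_nonneg 2]
  have hwle : N (w - ip w y • y) ≤ 4 := (GauD_perp_le hy).trans hw
  have hw0 := N_nonneg (w - ip w y • y)
  -- constant term as an integral
  have hgc : Integrable (fun x : V => (gs ε (x - y) : ℂ) * quad (A y) (w - ip w y • y)) :=
    (GauD_gs_integrable hε y).ofReal.mul_const _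
  have h1 : quad (A y) w = ∫ x : V, (gs ε (x - y) : ℂ) * quad (A y) (w - ip w y • y) := by
    rw [integral_mul_const, integral_complex_ofReal, GauD_gs_one hε y, quad_perp hA hy0]
    push_cast
    ring
  have h2 : quad (av ε A y) w - quad (A y) w
      = ∫ x : V, (GauD_F A ε w y x - (gs ε (x - y) : ℂ) * quad (A y) (w - ip w y • y)) := by
    rw [integral_sub (GauD_F_int hA hε w hy) hgc, ← h1]
    congr 1
    exact quad_av' hA hε hy w
  rw [h2]
  have hgi := GauD_gs_integrable hε y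
  have hgi2 := GauD_gs_integrable hs2 y
  have hdi := gs_div_int hε y
  have hdi2 := gs_div_int hs2 y
  have hB1 : Integrable (fun x : V => 36 * κ * gs ε (x - y) +
      12 * C * ε ^ 2 * (gs ε (x - y) / N x)) := (hgi.const_mul _).add (hdi.const_mul _)
  have hB3 : Integrable (fun x : V =>
        gs (Real.sqrt 2 * ε) (x - y) / N x + gs (Real.sqrt 2 * ε) (x - y)) := hdi2.add hgi2
  have hB2 : Integrable (fun x : V => 288 * C * Real.exp (-r / (2 * ε ^ 2)) *
        (gs (Real.sqrt 2 * ε) (x - y) / N x + gs (Real.sqrt 2 * ε) (x - y))) :=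
    hB3.const_mul _
  have hB : Integrable (fun x : V => 36 * κ * gs ε (x - y) + 12 * C * ε ^ 2 * (gs ε (x - y) / N x)
      + 288 * C * Real.exp (-r / (2 * ε ^ 2)) *
        (gs (Real.sqrt 2 * ε) (x - y) / N x + gs (Real.sqrt 2 * ε) (x - y))) := hB1.add hB2
  refine (norm_integral_le_of_norm_le hB (Filter.Eventually.of_forall fun x => ?_)).trans ?_
  · -- pointwise bound
    have hg0 := GauD_gs_nonneg ε (x - y)
    have hg20 := GauD_gs_nonneg (Real.sqrt 2 * ε) (x - y)
    have hNx := N_nonneg x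
    have hCN : 0 ≤ C / N x := div_nonneg hC hNx
    have e1 : GauD_F A ε w y x - (gs ε (x - y) : ℂ) * quad (A y) (w - ip w y • y)
        = (gs ε (x - y) : ℂ) * (quad (A x - A y) (w - ip w y • y) +
          ((ε ^ 2 * N (w - ip w y • y) : ℝ) : ℂ) * (A x).trace) := by
      rw [GauD_quad_sub]
      unfold GauD_F
      ring
    rw [e1, norm_mul, Complex.norm_real, Real.norm_of_nonneg hg0]
    have e2 : ‖((ε ^ 2 * N (w - ip w y • y) : ℝ) : ℂ) * (A x).trace‖ ≤ 12 * C * ε ^ 2 * (1 / N x) := by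
      rw [norm_mul, Complex.norm_real, Real.norm_of_nonneg (by positivity)]
      have h3 := GauD_trace_bound (hb x)
      calc ε ^ 2 * N (w - ip w y • y) * ‖(A x).trace‖ ≤ (ε ^ 2 * 4) * (3 * (C / N x)) := by
            apply mul_le_mul _ h3 (norm_nonneg _) (by positivity)
            exact mul_le_mul_of_nonneg_left hwle (by positivity)
        _ = 12 * C * ε ^ 2 * (1 / N x) := by ring
    have e3 : gs ε (x - y) * ‖quad (A x - A y) (w - ip w y • y)‖ ≤ 36 * κ * gs ε (x - y) +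
        288 * C * Real.exp (-r / (2 * ε ^ 2)) *
        (gs (Real.sqrt 2 * ε) (x - y) / N x + gs (Real.sqrt 2 * ε) (x - y)) := by
      have hE := Real.exp_pos (-r / (2 * ε ^ 2))
      have hlast : 0 ≤ 288 * C * Real.exp (-r / (2 * ε ^ 2)) *
          (gs (Real.sqrt 2 * ε) (x - y) / N x + gs (Real.sqrt 2 * ε) (x - y)) := by positivity
      rcases lt_or_ge (N (x - y)) r with h | h
      · have h4 : ∀ j k, ‖(A x - A y) j k‖ ≤ κ := fun j k => by
          rw [Matrix.sub_apply]; exact hr2 y x hy h j k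
        have h5 := GauD_quad_bound h4 (w - ip w y • y)
        have h6 : 9 * κ * N (w - ip w y • y) ≤ 9 * κ * 4 :=
          mul_le_mul_of_nonneg_left hwle (by positivity)
        have h7 := mul_le_mul_of_nonneg_left (h5.trans h6) hg0
        linarith
      · have h4 : ∀ j k, ‖(A x - A y) j k‖ ≤ C / N x + C := fun j k => by
          rw [Matrix.sub_apply]
          refine (norm_sub_le _ _).trans ?_
          have h8 := hb y j k
          rw [hy, div_one] at h8
          exact add_le_add (hb x j k) h8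
        have h5 := GauD_quad_bound h4 (w - ip w y • y)
        have h6 : 9 * (C / N x + C) * N (w - ip w y • y) ≤ 9 * (C / N x + C) * 4 :=
          mul_le_mul_of_nonneg_left hwle (by positivity)
        have h7 := GauD_gs_tail (ε := ε) hε h
        have h9 : 0 ≤ 36 * κ * gs ε (x - y) := by positivity
        calc gs ε (x - y) * ‖quad (A x - A y) (w - ip w y • y)‖
            ≤ (8 * Real.exp (-r / (2 * ε ^ 2)) * gs (Real.sqrt 2 * ε) (x - y)) *
              (9 * (C / N x + C) * 4) :=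
              mul_le_mul h7 (h5.trans h6) (norm_nonneg _) (by positivity)
          _ = 288 * C * Real.exp (-r / (2 * ε ^ 2)) *
              (gs (Real.sqrt 2 * ε) (x - y) / N x + gs (Real.sqrt 2 * ε) (x - y)) := by ring
          _ ≤ _ := by linarith
    calc gs ε (x - y) * ‖quad (A x - A y) (w - ip w y • y) +
          ((ε ^ 2 * N (w - ip w y • y) : ℝ) : ℂ) * (A x).trace‖
        ≤ gs ε (x - y) * (‖quad (A x - A y) (w - ip w y • y)‖ + 12 * C * ε ^ 2 * (1 / N x)) :=
          mul_le_mul_of_nonneg_left ((norm_add_le _ _).trans (add_le_add le_rfl e2)) hg0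
      _ = gs ε (x - y) * ‖quad (A x - A y) (w - ip w y • y)‖ +
          12 * C * ε ^ 2 * (gs ε (x - y) / N x) := by ring
      _ ≤ _ := by linarith
  · rw [integral_add hB1 hB2,
      integral_add (hgi.const_mul _) (hdi.const_mul _), integral_const_mul, integral_const_mul,
      integral_const_mul, integral_add hdi2 hgi2, GauD_gs_one hε y, GauD_gs_one hs2 y, mul_one]
    have h3 := hC2 ε y hε (by linarith) hy
    have h4 := hC2 _ y hs2 hs3 hy
    have hE := Real.exp_pos (-r / (2 * ε ^ 2))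
    have h5 : 12 * C * ε ^ 2 * ∫ x : V, gs ε (x - y) / N x ≤ 12 * C * ε ^ 2 * C2 :=
      mul_le_mul_of_nonneg_left h3 (by positivity)
    have h6 : 288 * C * Real.exp (-r / (2 * ε ^ 2)) *
        ((∫ x : V, gs (Real.sqrt 2 * ε) (x - y) / N x) + 1) ≤
        288 * C * Real.exp (-r / (2 * ε ^ 2)) * (C2 + 1) :=
      mul_le_mul_of_nonneg_left (by linarith) (by positivity)
    linarith

theorem GauD_lim (C C2 r : ℝ) (hr : 0 < r) {δ : ℝ} (hδ : 0 < δ) :
    ∃ ε0 : ℝ, 0 < ε0 ∧ ε0 ≤ 1 ∧ ∀ ε : ℝ, 0 < ε → ε < ε0 →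
      12 * C * ε ^ 2 * C2 + 288 * C * Real.exp (-r / (2 * ε ^ 2)) * (C2 + 1) ≤ δ := by
  have h1 : Filter.Tendsto (fun ε : ℝ => 12 * C * ε ^ 2 * C2) (nhdsWithin 0 (Set.Ioi 0)) (nhds 0) := by
    have : Continuous (fun ε : ℝ => 12 * C * ε ^ 2 * C2) := by fun_prop
    have h2 := this.tendsto 0
    simp only [ne_eq, OfNat.ofNat_ne_zero, not_false_eq_true, zero_pow, mul_zero, zero_mul] at h2
    exact h2.mono_left nhdsWithin_le_nhds
  have h3 : Filter.Tendsto (fun ε : ℝ => 288 * C * Real.exp (-r / (2 * ε ^ 2)) * (C2 + 1))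
      (nhdsWithin 0 (Set.Ioi 0)) (nhds 0) := by
    have h4 : Filter.Tendsto (fun ε : ℝ => Real.exp (-r / (2 * ε ^ 2))) (nhdsWithin 0 (Set.Ioi 0))
        (nhds 0) := by
      refine Real.tendsto_exp_atBot.comp ?_
      have h5 : Filter.Tendsto (fun ε : ℝ => ε⁻¹) (nhdsWithin 0 (Set.Ioi 0)) Filter.atTop :=
        tendsto_inv_nhdsGT_zero
      have h6 : Filter.Tendsto (fun ε : ℝ => (-(r / 2)) * (ε⁻¹ * ε⁻¹)) (nhdsWithin 0 (Set.Ioi 0))
          Filter.atBot := by
        refine (Filter.Tendsto.const_mul_atTop_of_neg (by linarith) ?_)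
        exact h5.atTop_mul_atTop₀ h5
      refine h6.congr fun ε => ?_
      rw [div_eq_mul_inv (-r), mul_inv, sq, mul_inv]
      ring
    have h7 := (h4.const_mul (288 * C)).mul_const (C2 + 1)
    simpa using h7
  have h8 := h1.add h3
  rw [add_zero] at h8
  have h9 : ∀ᶠ ε in nhdsWithin (0 : ℝ) (Set.Ioi 0),
      12 * C * ε ^ 2 * C2 + 288 * C * Real.exp (-r / (2 * ε ^ 2)) * (C2 + 1) < δ :=
    h8.eventually_lt_const hδ
  rw [Filter.Eventually, mem_nhdsGT_iff_exists_Ioo_subset] at h9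
  obtain ⟨u, hu, hsub⟩ := h9
  refine ⟨min u 1, lt_min hu one_pos, min_le_right _ _, ?_⟩
  intro ε hε hε2
  exact (hsub ⟨hε, lt_of_lt_of_le hε2 (min_le_left _ _)⟩).le

theorem GauD_N_single (j k : Fin 3) (c : ℂ) (hc : Complex.normSq c = 1) :
    N (Pi.single j 1 + c • Pi.single k 1) ≤ 4 := by
  refine (GauD_N_add _ _).trans ?_
  have h1 : ∀ i : Fin 3, N (Pi.single i (1 : ℂ)) = 1 := by
    intro i
    unfold N
    rw [Finset.sum_eq_single i]
    · rw [Pi.single_eq_same, map_one]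
    · intro l _ hl
      rw [Pi.single_eq_of_ne hl, map_zero]
    · intro h
      exact absurd (Finset.mem_univ i) h
  rw [N_smul, h1, h1, hc]
  norm_num

theorem av_conv {A : V → M3} (hA : IsForm A) {δ : ℝ} (hδ : 0 < δ) :
    ∃ ε0 : ℝ, 0 < ε0 ∧ ∀ ε : ℝ, 0 < ε → ε < ε0 → ∀ y : V, y ≠ 0 → ∀ j k,
      ‖av ε A y j k - A y j k‖ ≤ δ / N y := by
  obtain ⟨C, hC, hb⟩ := GauD_bound hA
  obtain ⟨C2, -, hC2⟩ := gs_div_bdd
  obtain ⟨r, hr, hr2⟩ := GauD_unif hA (κ := δ / 72) (by positivity)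
  obtain ⟨ε0, hε0, hε01, hlim⟩ := GauD_lim C C2 r hr (δ := δ / 2) (by positivity)
  refine ⟨ε0, hε0, ?_⟩
  intro ε hε hε2 y hy j k
  have hunit : ∀ z : V, N z = 1 → ‖av ε A z j k - A z j k‖ ≤ δ := by
    intro z hz
    have hq : ∀ w : V, N w ≤ 4 → ‖quad (av ε A z) w - quad (A z) w‖ ≤ δ := by
      intro w hw
      have h1 := GauD_diff hA hC hb (κ := δ / 72) (by positivity) hr2 hC2 hε (by linarith) hz hw
      have h2 := hlim ε hε hε2
      linarith
    have hn1 : N (Pi.single j 1 + Pi.single k 1) ≤ 4 := by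
      have := GauD_N_single j k 1 (by rw [map_one])
      rwa [one_smul] at this
    have hn2 : N (Pi.single j 1 - Pi.single k 1) ≤ 4 := by
      have := GauD_N_single j k (-1) (by rw [Complex.normSq_neg, map_one])
      rwa [neg_smul, one_smul, ← sub_eq_add_neg] at this
    have hn3 : N (Pi.single j 1 + Complex.I • Pi.single k 1) ≤ 4 :=
      GauD_N_single j k Complex.I Complex.normSq_I
    have hn4 : N (Pi.single j 1 - Complex.I • Pi.single k 1) ≤ 4 := by
      have := GauD_N_single j k (-Complex.I) (by rw [Complex.normSq_neg, Complex.normSq_I])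
      rwa [neg_smul, ← sub_eq_add_neg] at this
    have e := polar (av ε A z) j k
    have e' := polar (A z) j k
    rw [e, e']
    have hsplit : ∀ a b c d a' b' c' d' : ℂ, (1 / 4 : ℂ) * (a - b + Complex.I * c - Complex.I * d) -
        (1 / 4 : ℂ) * (a' - b' + Complex.I * c' - Complex.I * d')
        = (1 / 4 : ℂ) * ((a - a') - (b - b') + Complex.I * (c - c') - Complex.I * (d - d')) := by
      intro a b c d a' b' c' d'
      ring
    rw [hsplit, norm_mul]
    have h4 : ‖(1 / 4 : ℂ)‖ = 1 / 4 := by norm_num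
    rw [h4]
    have h5 := hq _ hn1
    have h6 := hq _ hn2
    have h7 := hq _ hn3
    have h8 := hq _ hn4
    have hnorm : ∀ a b c d : ℂ, ‖a‖ ≤ δ → ‖b‖ ≤ δ → ‖c‖ ≤ δ → ‖d‖ ≤ δ →
        ‖a - b + Complex.I * c - Complex.I * d‖ ≤ 4 * δ := by
      intro a b c d ha hb hc hd
      have h9 : ‖Complex.I * c‖ ≤ δ := by rw [norm_mul, Complex.norm_I, one_mul]; exact hc
      have h10 : ‖Complex.I * d‖ ≤ δ := by rw [norm_mul, Complex.norm_I, one_mul]; exact hd
      calc _ ≤ ‖a - b + Complex.I * c‖ + ‖Complex.I * d‖ := norm_sub_le _ _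
        _ ≤ (‖a - b‖ + ‖Complex.I * c‖) + ‖Complex.I * d‖ := by
          gcongr; exact norm_add_le _ _
        _ ≤ ((‖a‖ + ‖b‖) + ‖Complex.I * c‖) + ‖Complex.I * d‖ := by
          gcongr; exact norm_sub_le _ _
        _ ≤ 4 * δ := by linarith
    have h9 := hnorm _ _ _ _ h5 h6 h7 h8
    linarith
  have hN := N_pos hy
  rw [GauD_scale (av_hom hA hε) hy j k, GauD_scale hA.hom hy j k, ← mul_sub, norm_mul, norm_inv,
    Complex.norm_real, Real.norm_of_nonneg hN.le]
  have h1 := hunit _ (GauD_hat hy)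
  calc (N y)⁻¹ * _ ≤ (N y)⁻¹ * δ := mul_le_mul_of_nonneg_left h1 (inv_nonneg.2 hN.le)
    _ = δ / N y := by rw [div_eq_mul_inv, mul_comm]

end Pool.Agent.H85.DC
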