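import Pool.Agent.H85.DC.GauD
import Pool.Agent.H85.DC.Hod

/-!
# Row GauE: Fubini for the average, contraction

`qq_av`: `qq B (av ε A) = ∫_G gau G * qq B (pull (mat ε G) A)`. `ee (B y) (av ε A y) = ∫ gau G ee (B y) (pull (mat ε G) A y) dG`
(finite linear combination of entries, `pull_int`), then exchange `∫ dy` and `∫ dG` (`integral_integral_swap`): joint measurability
`pull_meas`, `form_meas`; integrability: `|ee (B y) (pull M A y)| ≤ C'/N y * hs M/N (M y)` (`pull_norm`, `form_bound`, for a.e. `G`; for fixed `G`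
with `det ≠ 0` all `y ≠ 0`) and `∫ gau hs M/N(My) dG ≤ K/N y` (`gau_bound`), `∫ N^{-2} wt < ∞`.
`inH_av`: form `form_av`, Hermitian `av_herm`; `qq (L u) (av ε A) = ∫ gau G qq (L u) (pull (mat ε G) A) dG = 0` (`inH_pull` for
`det ≠ 0`, a.e. by `det_ae`). `inH0_av`: `mass_pull`.
`contraction`: `a = nn (av ε X) (av ε X) = ∫ gau G nn (av ε X) (pull M X) dG` (`qq_av` with `B = av ε X`, real parts), and for a.e. `G`,
`|nn (av ε X) (pull M X)| ≤ √a √(nn (pull M X) (pull M X)) = √a √(nn X X)` (`nn_cs`, `inH0_pull`, `nn_pull`); `∫ gau = 1`, so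
`a ≤ √a √(nn X X)`, `a ≤ nn X X` (`hodge` for nonnegativity). Integrability of `G ↦ gau G * qq B (pull (mat ε G) A)` comes from Fubini
(`Integrable.integral_prod_right`).
-/

open MeasureTheory
open scoped ContDiff BigOperators ComplexConjugate Matrix

namespace Pool.Agent.H85.DC

/-! ### The bound of the integrand -/

theorem GauE_mulVec {M : M3} (hM : M.det ≠ 0) {y : V} (hy : y ≠ 0) : M.mulVec y ≠ 0 := by
  intro h
  exact hM (Matrix.exists_mulVec_eq_zero_iff.mp ⟨y, hy, h⟩)

theorem GauE_ee_sum (A B : M3) :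
    ee A B = ∑ j, ∑ k, (A j j * B k k - A j k * B k j) := by
  unfold ee Matrix.trace
  simp only [Matrix.diag_apply, Matrix.mul_apply]
  rw [Finset.sum_mul_sum, ← Finset.sum_sub_distrib]
  refine Finset.sum_congr rfl fun j _ => ?_
  rw [← Finset.sum_sub_distrib]

theorem GauE_ee_norm {A B : M3} {a b : ℝ} (ha : 0 ≤ a) (hA : ∀ j k, ‖A j k‖ ≤ a)
    (hB : ∀ j k, ‖B j k‖ ≤ b) : ‖ee A B‖ ≤ 18 * (a * b) := by
  rw [GauE_ee_sum]
  have h : ∀ j k : Fin 3, ‖A j j * B k k - A j k * B k j‖ ≤ 2 * (a * b) := by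
    intro j k
    refine (norm_sub_le _ _).trans ?_
    rw [norm_mul, norm_mul]
    have h1 := mul_le_mul (hA j j) (hB k k) (norm_nonneg _) ha
    have h2 := mul_le_mul (hA j k) (hB k j) (norm_nonneg _) ha
    linarith
  refine (norm_sum_le _ _).trans ?_
  have h3 : ∀ j : Fin 3, ‖∑ k, (A j j * B k k - A j k * B k j)‖ ≤ 6 * (a * b) := by
    intro j
    refine (norm_sum_le _ _).trans ?_
    refine (Finset.sum_le_sum fun k _ => h j k).trans ?_
    simp
    linarith
  refine (Finset.sum_le_sum fun j _ => h3 j).trans ?_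
  simp
  linarith

theorem GauE_contwt : Continuous wt := by
  unfold wt
  exact Real.continuous_exp.comp (continuous_neg.comp GauA_contN)

/-- The integrand on the product. -/
noncomputable def GauE_Phi (A B : V → M3) (ε : ℝ) (q : V × (Fin 3 → V)) : ℂ :=
  (gau q.2 : ℂ) * (ee (B q.1) (pull (mat ε q.2) A q.1) * (wt q.1 : ℂ))

theorem GauE_Phi_meas {A B : V → M3} (hA : IsForm A) (hB : IsForm B) (ε : ℝ) :
    Measurable (GauE_Phi A B ε) := by
  unfold GauE_Phi
  refine Measurable.mul ?_ (Measurable.mul ?_ ?_)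
  · exact Complex.measurable_ofReal.comp (gau_meas.comp measurable_snd)
  · simp only [GauE_ee_sum]
    refine Finset.measurable_fun_sum _ fun j _ => Finset.measurable_fun_sum _ fun k _ => ?_
    exact (((form_meas hB j j).comp measurable_fst).mul (pull_meas hA ε k k)).sub
      (((form_meas hB j k).comp measurable_fst).mul (pull_meas hA ε k j))
  · exact Complex.measurable_ofReal.comp (GauE_contwt.measurable.comp measurable_fst)

theorem GauE_N2_int : Integrable (fun y : V => (N y) ^ (-2 : ℝ) * Real.exp (-(1 : ℝ) * N y)) :=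
  integrable_N_rpow (by norm_num) one_pos

theorem GauE_Phi_int {A B : V → M3} (hA : IsForm A) (hB : IsForm B) {ε : ℝ} (hε : 0 < ε) :
    Integrable (GauE_Phi A B ε) ((volume : Measure V).prod (volume : Measure (Fin 3 → V))) := by
  refine ⟨(GauE_Phi_meas hA hB ε).aestronglyMeasurable, ?_⟩
  rw [hasFiniteIntegral_iff_enorm, lintegral_prod _ (GauE_Phi_meas hA hB ε).enorm.aemeasurable]
  obtain ⟨CA, hCA0, hCA⟩ := form_bound hA
  obtain ⟨CB, hCB0, hCB⟩ := form_bound hB
  obtain ⟨K, hK0, hK⟩ := gau_bound hε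
  have hne : ∀ᵐ y : V, y ≠ 0 := by
    have h := Measure.ae_ne (volume : Measure V) (0 : V)
    exact h
  have key : ∀ᵐ y : V, ∫⁻ G : Fin 3 → V, ‖GauE_Phi A B ε (y, G)‖ₑ ≤
      ENNReal.ofReal (162 * CA * CB * K * ((N y) ^ (-2 : ℝ) * Real.exp (-(1 : ℝ) * N y))) := by
    filter_upwards [hne] with y hy
    have hN := N_pos hy
    have hwt : 0 ≤ wt y := (Real.exp_pos _).le
    have h1 : ∀ᵐ G : Fin 3 → V, ‖GauE_Phi A B ε (y, G)‖ₑ ≤
        ENNReal.ofReal (162 * CA * CB / N y * wt y) *
          ENNReal.ofReal (gau G * (hs (mat ε G) / N ((mat ε G).mulVec y))) := by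
      filter_upwards [det_ae hε] with G hG
      have hMy := GauE_mulVec hG hy
      have hNM := N_pos hMy
      have hp := fun j k => pull_norm hCA (mat ε G) hMy j k
      have he := GauE_ee_norm (A := B y) (B := pull (mat ε G) A y)
        (div_nonneg hCB0 hN.le) (hCB y hy) hp
      rw [← ENNReal.ofReal_mul (by positivity), ← ofReal_norm]
      apply ENNReal.ofReal_le_ofReal
      unfold GauE_Phi
      rw [norm_mul, norm_mul, Complex.norm_real, Complex.norm_real, Real.norm_of_nonneg hwt,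
        Real.norm_of_nonneg (gau_nonneg G)]
      have h2 : gau G * (‖ee (B y) (pull (mat ε G) A y)‖ * wt y) ≤
          gau G * ((18 * (CB / N y * (9 * CA * hs (mat ε G) / N ((mat ε G).mulVec y)))) * wt y) :=
        mul_le_mul_of_nonneg_left (mul_le_mul_of_nonneg_right he hwt) (gau_nonneg G)
      refine h2.trans (le_of_eq ?_)
      ring
    refine (lintegral_mono_ae h1).trans ?_
    rw [lintegral_const_mul' _ _ ENNReal.ofReal_ne_top]
    refine (mul_le_mul_right (hK y hy) _).trans ?_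
    rw [← ENNReal.ofReal_mul (by positivity)]
    apply ENNReal.ofReal_le_ofReal
    have h3 : (N y) ^ (-2 : ℝ) = (N y)⁻¹ * (N y)⁻¹ := by
      rw [show (-2 : ℝ) = -((2 : ℕ) : ℝ) by norm_num, Real.rpow_neg hN.le, Real.rpow_natCast,
        ← mul_inv, sq]
    have h4 : Real.exp (-(1 : ℝ) * N y) = wt y := by
      unfold wt
      congr 1
      ring
    rw [h3, h4]
    apply le_of_eq
    ring
  refine lt_of_le_of_lt (lintegral_mono_ae key) ?_
  exact (GauE_N2_int.const_mul (162 * CA * CB * K)).lintegral_lt_top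

/-- The inner integral in `G`. -/
theorem GauE_inner {A B : V → M3} (hA : IsForm A) {ε : ℝ} (hε : 0 < ε)
    {y : V} (hy : y ≠ 0) :
    ∫ G : Fin 3 → V, GauE_Phi A B ε (y, G) = ee (B y) (av ε A y) * (wt y : ℂ) := by
  have hI : ∀ j k, Integrable (fun G : Fin 3 → V => (gau G : ℂ) * pull (mat ε G) A y j k) :=
    fun j k => pull_int hA hε hy j k
  have h1 : ∀ G : Fin 3 → V, GauE_Phi A B ε (y, G) =
      ∑ j, ∑ k, ((B y j j * (wt y : ℂ)) * ((gau G : ℂ) * pull (mat ε G) A y k k) -
        (B y j k * (wt y : ℂ)) * ((gau G : ℂ) * pull (mat ε G) A y k j)) := by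
    intro G
    unfold GauE_Phi
    rw [GauE_ee_sum, Finset.sum_mul, Finset.mul_sum]
    refine Finset.sum_congr rfl fun j _ => ?_
    rw [Finset.sum_mul, Finset.mul_sum]
    refine Finset.sum_congr rfl fun k _ => ?_
    ring
  simp_rw [h1]
  have h2 : ∀ j k, Integrable (fun G : Fin 3 → V =>
      (B y j j * (wt y : ℂ)) * ((gau G : ℂ) * pull (mat ε G) A y k k) -
        (B y j k * (wt y : ℂ)) * ((gau G : ℂ) * pull (mat ε G) A y k j)) :=
    fun j k => ((hI k k).const_mul _).sub ((hI k j).const_mul _)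
  rw [integral_finsetSum _ fun j _ => integrable_finsetSum _ fun k _ => h2 j k, GauE_ee_sum,
    Finset.sum_mul]
  refine Finset.sum_congr rfl fun j _ => ?_
  rw [integral_finsetSum _ fun k _ => h2 j k, Finset.sum_mul]
  refine Finset.sum_congr rfl fun k _ => ?_
  rw [integral_sub ((hI k k).const_mul _) ((hI k j).const_mul _), integral_const_mul,
    integral_const_mul]
  unfold av
  ring

/-- The inner integral in `y`. -/
theorem GauE_outer (A B : V → M3) (ε : ℝ) (G : Fin 3 → V) :
    ∫ y : V, GauE_Phi A B ε (y, G) = (gau G : ℂ) * qq B (pull (mat ε G) A) := by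
  unfold GauE_Phi qq
  rw [← integral_const_mul]

theorem qq_av_int {A B : V → M3} (hA : IsForm A) (hB : IsForm B) {ε : ℝ} (hε : 0 < ε) :
    Integrable (fun G : Fin 3 → V => (gau G : ℂ) * qq B (pull (mat ε G) A)) := by
  have h := (GauE_Phi_int hA hB hε).integral_prod_right
  simp_rw [GauE_outer] at h
  exact h

theorem qq_av {A B : V → M3} (hA : IsForm A) (hB : IsForm B) {ε : ℝ} (hε : 0 < ε) :
    qq B (av ε A) = ∫ G : Fin 3 → V, (gau G : ℂ) * qq B (pull (mat ε G) A) := by
  have h := integral_integral_swap (f := fun (y : V) (G : Fin 3 → V) => GauE_Phi A B ε (y, G))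
    (GauE_Phi_int hA hB hε)
  simp_rw [GauE_outer] at h
  rw [← h]
  unfold qq
  apply integral_congr_ae
  filter_upwards [Measure.ae_ne (volume : Measure V) (0 : V)] with y hy
  exact (GauE_inner hA hε hy).symm

theorem inH_av {A : V → M3} (hA : InH A) {ε : ℝ} (hε : 0 < ε) : InH (av ε A) := by
  refine ⟨form_av hA.form hε, av_herm hA.form hA.herm hε, fun u hu => ?_⟩
  rw [qq_av hA.form (form_L hu) hε]
  have h : ∀ᵐ G : Fin 3 → V, (gau G : ℂ) * qq (L u) (pull (mat ε G) A) = 0 := by
    filter_upwards [det_ae hε] with G hG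
    rw [(inH_pull hA hG).ddc u hu, mul_zero]
  rw [integral_congr_ae h]
  simp

theorem inH0_av {A : V → M3} (hA : InH0 A) {ε : ℝ} (hε : 0 < ε) : InH0 (av ε A) := by
  refine ⟨inH_av hA.toInH hε, ?_⟩
  rw [qq_av hA.form form_Wm hε]
  have h : ∀ᵐ G : Fin 3 → V, (gau G : ℂ) * qq Wm (pull (mat ε G) A) = 0 := by
    filter_upwards [det_ae hε] with G hG
    rw [mass_pull hA.toInH hG, hA.mass, mul_zero]
  rw [integral_congr_ae h]
  simp

theorem contraction {X : V → M3} (hX : InH0 X) {ε : ℝ} (hε : 0 < ε) :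
    nn (av ε X) (av ε X) ≤ nn X X := by
  have hY := inH0_av hX hε
  set Y := av ε X with hYdef
  have ha := hodge hY
  have hb := hodge hX
  have hint := qq_av_int hX.form hY.form hε
  have h1 : nn Y Y = ∫ G : Fin 3 → V, gau G * nn Y (pull (mat ε G) X) := by
    have h2 : qq Y Y = ∫ G : Fin 3 → V, (gau G : ℂ) * qq Y (pull (mat ε G) X) := by
      conv_lhs => rw [hYdef]
      rw [← hYdef]
      exact qq_av hX.form hY.form hε
    have h3 : (qq Y Y).re = ∫ G : Fin 3 → V, ((gau G : ℂ) * qq Y (pull (mat ε G) X)).re := by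
      rw [h2]
      exact (integral_re hint).symm
    unfold nn
    rw [h3, ← integral_neg]
    apply integral_congr_ae
    refine Filter.Eventually.of_forall fun G => ?_
    simp only [Complex.re_ofReal_mul]
    ring
  have h4 : Integrable (fun G : Fin 3 → V => gau G * nn Y (pull (mat ε G) X)) := by
    have h5 := hint.re.neg
    refine h5.congr (Filter.Eventually.of_forall fun G => ?_)
    unfold nn
    simp only [Pi.neg_apply, RCLike.re_to_complex, Complex.re_ofReal_mul]
    ring
  have h6 : ∀ᵐ G : Fin 3 → V, gau G * nn Y (pull (mat ε G) X) ≤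
      gau G * (Real.sqrt (nn Y Y) * Real.sqrt (nn X X)) := by
    filter_upwards [det_ae hε] with G hG
    apply mul_le_mul_of_nonneg_left _ (gau_nonneg G)
    have h7 := nn_cs hY (inH0_pull hX hG)
    rw [nn_pull hX.form hX.form hG] at h7
    rw [← Real.sqrt_mul ha]
    exact Real.le_sqrt_of_sq_le h7
  have h8 : nn Y Y ≤ Real.sqrt (nn Y Y) * Real.sqrt (nn X X) := by
    calc nn Y Y = ∫ G : Fin 3 → V, gau G * nn Y (pull (mat ε G) X) := h1
      _ ≤ ∫ G : Fin 3 → V, gau G * (Real.sqrt (nn Y Y) * Real.sqrt (nn X X)) :=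
        integral_mono_ae h4 (gau_integrable.mul_const _) h6
      _ = Real.sqrt (nn Y Y) * Real.sqrt (nn X X) := by
        rw [integral_mul_const, GauA_int_gau, one_mul]
  rcases ha.lt_or_eq with h | h
  · have h9 : 0 < Real.sqrt (nn Y Y) := Real.sqrt_pos.mpr h
    have h10 : Real.sqrt (nn Y Y) * Real.sqrt (nn Y Y) ≤ Real.sqrt (nn Y Y) * Real.sqrt (nn X X) := by
      rw [Real.mul_self_sqrt ha]
      exact h8
    have h11 := le_of_mul_le_mul_left h10 h9
    exact (Real.sqrt_le_sqrt_iff hb).mp h11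
  · rw [← h]
    exact hb

end Pool.Agent.H85.DC
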