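import Pool.Agent.H85.DC.GrB

/-!
# Row GrA: the regularised Green potential

`green n f x = -(π^3)⁻¹ ∑_{k<n} (k+2)/(k+1) ∫ vv x y^(k+1) f y dν(y)`. `f` is assumed measurable and bounded off `0`.

Finite expansion: for `x ≠ 0`, `y ≠ 0`, `vv x y = ∑_{a : Fin 3 × Fin 3} (x_{a.1} conj(x_{a.2})/N x) * (conj(y_{a.1}) y_{a.2}/N y)`, so
(`Fintype.sum_pow`) `vv x y^(k+1) = ∑_{p : Fin (k+1) → Fin 3 × Fin 3} m_p(x) * conj-type(y)`, with
`m_p(x) = ∏_i x_{(p i).1} conj(x_{(p i).2})/N x` (`IsFun`: product of `Hom 0 0` functions) and `n_p(y) = ∏_i conj(y_{(p i).1}) y_{(p i).2}/N y`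
(`|n_p| ≤ 1`). So as a complex function of `x ≠ 0`: `∫ vv x y^(k+1) f y dν(y) = ∑_p c_p m_p(x)`,
`c_p = ∫ n_p(y) f y dν(y)` (the sum, not each term, is real). This proves `isFun_green` (finite sum of `Hom 0 0`), and for every
`j`: `dz j (∫ vv · y^(k+1) f dν) x = ∑_p c_p dz j m_p x = ∫ (∑_p n_p(y) dz j m_p x) f y dν(y) = ∫ dz j (vv · y^(k+1)) x f y dν(y)`
(`dz_sum`, `integral_finset_sum`; for `ν`-a.e. `y`, `y ≠ 0`), and the same for `L`. (`IsFun` also wants the homogeneity at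
`x = 0`: `l • 0 = 0`, trivial.)
`green_re`: the value is a real number cast to `ℂ`.
`dz_green`: with `dz_vpow`: `dz j (green n f) x = -(π^3)⁻¹ ∑_{k<n} (k+2) ∫ vv^k dz j vv f dν`.
`trL_green`: with `trL_vpow`: `N tr L(green) = -(π^3)⁻¹ ∑_{k<n} ∫ [(k+2)(k+1) v^k - (k+2)(k+3) v^(k+1)] f dν`, telescoping
(`Finset.sum_range_sub'`) `= -(π^3)⁻¹ ∫ [2 - (n+1)(n+2) v^n] f dν`.
-/

open MeasureTheory
open scoped ContDiff BigOperators ComplexConjugate Matrix

namespace Pool.Agent.H85.DC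

theorem GrA_sep (k : ℕ) : ∃ (ι : Type) (s : Finset ι) (m n : ι → V → ℂ), (∀ i, Hom 0 0 (m i)) ∧
    (∀ i, Measurable (n i)) ∧ (∀ i y, ‖n i y‖ ≤ 1) ∧
    ∀ x y, ((vv x y ^ k : ℝ) : ℂ) = ∑ i ∈ s, n i y * m i x := by
  induction k with
  | zero =>
    refine ⟨Unit, Finset.univ, fun _ _ => 1, fun _ _ => 1, fun _ => hom_const 1,
      fun _ => measurable_const, fun _ _ => by simp, fun x y => by simp⟩
  | succ k ih =>
    obtain ⟨ι, s, m, n, hm, hn, hb, he⟩ := ih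
    refine ⟨ι × (Fin 3 × Fin 3), s ×ˢ Finset.univ,
      fun i x => m i.1 x * (x i.2.1 * conj (x i.2.2) * ((N x : ℂ))⁻¹),
      fun i y => n i.1 y * (conj (y i.2.1) * y i.2.2 * ((N y : ℂ))⁻¹), fun i => ?_, fun i => ?_,
      fun i y => ?_, fun x y => ?_⟩
    · have h1 := hom_mul (hm i.1) (hom_mul (hom_mul (hom_coord i.2.1) (hom_conj_coord i.2.2)) hom_Ninv)
      simpa using h1
    · have h1 : Measurable (fun y : V => y i.2.1) := measurable_pi_apply _
      have h2 : Measurable (fun y : V => y i.2.2) := measurable_pi_apply _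
      have h3 : Measurable (fun y : V => ((N y : ℝ) : ℂ)) :=
        (Complex.continuous_ofReal.comp TauM_continuous_N).measurable
      have h4 : Measurable (fun y : V => conj (y i.2.1)) :=
        (Complex.continuous_conj.measurable).comp h1
      exact (hn i.1).mul ((h4.mul h2).mul h3.inv)
    · rw [norm_mul]
      have h1 : ‖conj (y i.2.1) * y i.2.2 * ((N y : ℂ))⁻¹‖ ≤ 1 := by
        rw [norm_mul, norm_mul, norm_inv, Complex.norm_conj, Complex.norm_real,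
          Real.norm_of_nonneg (TauM_N_nonneg y)]
        by_cases hy : N y = 0
        · rw [hy]; simp
        · have hy' : 0 < N y := lt_of_le_of_ne (TauM_N_nonneg y) (Ne.symm hy)
          rw [mul_inv_le_iff₀ hy', one_mul]
          have h2 : ∀ j, ‖y j‖ ^ 2 ≤ N y := by
            intro j
            rw [← Complex.normSq_eq_norm_sq]
            unfold N
            exact Finset.single_le_sum (f := fun j => Complex.normSq (y j))
              (fun i _ => Complex.normSq_nonneg (y i)) (Finset.mem_univ j)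
          have h3 := h2 i.2.1
          have h4 := h2 i.2.2
          nlinarith [sq_nonneg (‖y i.2.1‖ - ‖y i.2.2‖)]
      have h2 := hb i.1 y
      have h3 := norm_nonneg (n i.1 y)
      have h4 := norm_nonneg (conj (y i.2.1) * y i.2.2 * ((N y : ℂ))⁻¹)
      calc ‖n i.1 y‖ * ‖conj (y i.2.1) * y i.2.2 * ((N y : ℂ))⁻¹‖ ≤ 1 * 1 :=
            mul_le_mul h2 h1 h4 zero_le_one
        _ = 1 := one_mul 1
    · have h1 : ((vv x y : ℝ) : ℂ) = ∑ a : Fin 3 × Fin 3,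
          (conj (y a.1) * y a.2 * ((N y : ℂ))⁻¹) * (x a.1 * conj (x a.2) * ((N x : ℂ))⁻¹) := by
        have h2 : ((vv x y : ℝ) : ℂ) = ip x y * conj (ip x y) * ((N x : ℂ))⁻¹ * ((N y : ℂ))⁻¹ := by
          rw [Complex.mul_conj]
          unfold vv
          push_cast
          rw [div_eq_mul_inv, mul_inv]
          ring
        rw [h2]
        unfold ip
        rw [map_sum, Finset.sum_mul_sum, Finset.sum_mul, Finset.sum_mul, Fintype.sum_prod_type]
        refine Finset.sum_congr rfl fun a _ => ?_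
        rw [Finset.sum_mul, Finset.sum_mul]
        refine Finset.sum_congr rfl fun b _ => ?_
        rw [map_mul, Complex.conj_conj]
        ring
      have h2 : ((vv x y ^ (k + 1) : ℝ) : ℂ) = ((vv x y ^ k : ℝ) : ℂ) * ((vv x y : ℝ) : ℂ) := by
        push_cast
        ring
      rw [h2, he, h1, Finset.sum_mul_sum, Finset.sum_product]
      refine Finset.sum_congr rfl fun a _ => Finset.sum_congr rfl fun b _ => ?_
      ring

theorem GrA_bd {f : V → ℝ} (hf : AEStronglyMeasurable f (volume : Measure V)) {b : ℝ}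
    (hb : ∀ y : V, y ≠ 0 → |f y| ≤ b) {n : V → ℂ} (hn : Measurable n) (hn1 : ∀ y, ‖n y‖ ≤ 1) :
    Integrable (fun y => n y * (f y : ℂ)) nuP :=
  Integrable.bdd_mul (c := 1) (integrable_nuP hf hb).ofReal hn.aestronglyMeasurable
    (Filter.Eventually.of_forall hn1)

/-- the integral of a power against a function -/
noncomputable def GrA_I (f : V → ℝ) (k : ℕ) (x : V) : ℂ :=
  ((∫ y, vv x y ^ k * f y ∂nuP : ℝ) : ℂ)

theorem GrA_sum {f : V → ℝ} (hf : AEStronglyMeasurable f (volume : Measure V)) {b : ℝ}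
    (hb : ∀ y : V, y ≠ 0 → |f y| ≤ b) {k : ℕ} {ι : Type} {s : Finset ι} {m n : ι → V → ℂ}
    (hn : ∀ i, Measurable (n i)) (hn1 : ∀ i y, ‖n i y‖ ≤ 1)
    (he : ∀ x y, ((vv x y ^ k : ℝ) : ℂ) = ∑ i ∈ s, n i y * m i x) (x : V) :
    GrA_I f k x = ∑ i ∈ s, (∫ y, n i y * (f y : ℂ) ∂nuP) * m i x := by
  unfold GrA_I
  rw [← integral_complex_ofReal]
  have h1 : (fun y => (((vv x y ^ k * f y : ℝ)) : ℂ)) =
      fun y => ∑ i ∈ s, (n i y * (f y : ℂ)) * m i x := by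
    funext y
    rw [Complex.ofReal_mul, he, Finset.sum_mul]
    refine Finset.sum_congr rfl fun i _ => ?_
    ring
  rw [h1, integral_finsetSum _ fun i _ => (GrA_bd hf hb (hn i) (hn1 i)).mul_const _]
  refine Finset.sum_congr rfl fun i _ => ?_
  rw [integral_mul_const]

theorem GrA_I_hom {f : V → ℝ} (hf : AEStronglyMeasurable f (volume : Measure V)) {b : ℝ}
    (hb : ∀ y : V, y ≠ 0 → |f y| ≤ b) (k : ℕ) : Hom 0 0 (GrA_I f k) := by
  obtain ⟨ι, s, m, n, hm, hn, hn1, he⟩ := GrA_sep k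
  have h1 : GrA_I f k = fun x => ∑ i ∈ s, (∫ y, n i y * (f y : ℂ) ∂nuP) * m i x := by
    funext x
    exact GrA_sum hf hb hn hn1 he x
  rw [h1]
  exact hom_sum s _ fun i _ => hom_const_mul _ (hm i)

/-- local linear operators -/
structure GrA_Op (D : (V → ℂ) → ℂ) : Prop where
  lin : ∀ {ι : Type} (s : Finset ι) (c : ι → ℂ) (m : ι → V → ℂ), (∀ i, Hom 0 0 (m i)) →
    D (fun x => ∑ i ∈ s, c i * m i x) = ∑ i ∈ s, c i * D (m i)

theorem GrA_op_dz (j : Fin 3) {x : V} (hx : x ≠ 0) : GrA_Op (fun u => dz j u x) := by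
  refine ⟨fun s c m hm => ?_⟩
  show dz j (fun x => ∑ i ∈ s, c i * m i x) x = ∑ i ∈ s, c i * dz j (m i) x
  rw [dz_sum j s (fun i x => c i * m i x)
    fun i _ => ((hm i).diffAt hx).const_mul (c i)]
  exact Finset.sum_congr rfl fun i _ => dz_const_mul j (c i) ((hm i).diffAt hx)

theorem GrA_op_L (j k : Fin 3) {x : V} (hx : x ≠ 0) : GrA_Op (fun u => dz j (dzb k u) x) := by
  refine ⟨fun s c m hm => ?_⟩
  show dz j (dzb k (fun x => ∑ i ∈ s, c i * m i x)) x = ∑ i ∈ s, c i * dz j (dzb k (m i)) x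
  have h1 : dz j (dzb k (fun x => ∑ i ∈ s, c i * m i x)) x =
      dz j (fun x => ∑ i ∈ s, c i * dzb k (m i) x) x := by
    refine dz_congr j hx fun y hy => ?_
    rw [dzb_sum k s (fun i x => c i * m i x)
      fun i _ => ((hm i).diffAt hy).const_mul (c i)]
    exact Finset.sum_congr rfl fun i _ => dzb_const_mul k (c i) ((hm i).diffAt hy)
  rw [h1, dz_sum j s (fun i x => c i * dzb k (m i) x)
    fun i _ => ((dzb_hom k (hm i)).diffAt hx).const_mul (c i)]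
  exact Finset.sum_congr rfl fun i _ => dz_const_mul j (c i) ((dzb_hom k (hm i)).diffAt hx)

theorem GrA_op_tr {x : V} (hx : x ≠ 0) : GrA_Op (fun u => (L u x).trace) := by
  refine ⟨fun s c m hm => ?_⟩
  have h0 : ∀ u : V → ℂ, (L u x).trace = ∑ j, dz j (dzb j u) x := fun u => rfl
  rw [h0]
  have h1 : ∀ j, dz j (dzb j (fun x => ∑ i ∈ s, c i * m i x)) x =
      ∑ i ∈ s, c i * dz j (dzb j (m i)) x := fun j => (GrA_op_L j j hx).lin s c m hm
  rw [Finset.sum_congr rfl fun j _ => h1 j, Finset.sum_comm]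
  refine Finset.sum_congr rfl fun i _ => ?_
  rw [h0, Finset.mul_sum]

theorem GrA_int {D : (V → ℂ) → ℂ} (hD : GrA_Op D) {f : V → ℝ}
    (hf : AEStronglyMeasurable f (volume : Measure V)) {b : ℝ}
    (hb : ∀ y : V, y ≠ 0 → |f y| ≤ b) (k : ℕ) :
    D (GrA_I f k) = ∫ y, D (fun x => ((vv x y ^ k : ℝ) : ℂ)) * (f y : ℂ) ∂nuP := by
  obtain ⟨ι, s, m, n, hm, hn, hn1, he⟩ := GrA_sep k
  have h1 : GrA_I f k = fun x => ∑ i ∈ s, (∫ y, n i y * (f y : ℂ) ∂nuP) * m i x := by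
    funext x
    exact GrA_sum hf hb hn hn1 he x
  have h2 : ∀ y, D (fun x => ((vv x y ^ k : ℝ) : ℂ)) = ∑ i ∈ s, n i y * D (m i) := by
    intro y
    have h3 : (fun x => ((vv x y ^ k : ℝ) : ℂ)) = fun x => ∑ i ∈ s, n i y * m i x := by
      funext x
      exact he x y
    rw [h3, hD.lin s (fun i => n i y) m hm]
  rw [h1, hD.lin s _ m hm]
  have h4 : (fun y => D (fun x => ((vv x y ^ k : ℝ) : ℂ)) * (f y : ℂ)) =
      fun y => ∑ i ∈ s, (n i y * (f y : ℂ)) * D (m i) := by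
    funext y
    rw [h2, Finset.sum_mul]
    refine Finset.sum_congr rfl fun i _ => ?_
    ring
  rw [h4, integral_finsetSum _ fun i _ => (GrA_bd hf hb (hn i) (hn1 i)).mul_const _]
  refine Finset.sum_congr rfl fun i _ => ?_
  rw [integral_mul_const]

/-- the integrands are integrable -/
theorem GrA_integrable {D : (V → ℂ) → ℂ} (hD : GrA_Op D) {f : V → ℝ}
    (hf : AEStronglyMeasurable f (volume : Measure V)) {b : ℝ}
    (hb : ∀ y : V, y ≠ 0 → |f y| ≤ b) (k : ℕ) :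
    Integrable (fun y => D (fun x => ((vv x y ^ k : ℝ) : ℂ)) * (f y : ℂ)) nuP := by
  obtain ⟨ι, s, m, n, hm, hn, hn1, he⟩ := GrA_sep k
  have h4 : (fun y => D (fun x => ((vv x y ^ k : ℝ) : ℂ)) * (f y : ℂ)) =
      fun y => ∑ i ∈ s, (n i y * (f y : ℂ)) * D (m i) := by
    funext y
    have h3 : (fun x => ((vv x y ^ k : ℝ) : ℂ)) = fun x => ∑ i ∈ s, n i y * m i x := by
      funext x
      exact he x y
    rw [h3, hD.lin s (fun i => n i y) m hm, Finset.sum_mul]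
    refine Finset.sum_congr rfl fun i _ => ?_
    ring
  rw [h4]
  exact integrable_finsetSum _ fun i _ => (GrA_bd hf hb (hn i) (hn1 i)).mul_const _

theorem GrA_green (n : ℕ) (f : V → ℝ) : green n f = fun x => ∑ k ∈ Finset.range n,
    ((-(Real.pi ^ 3)⁻¹ * (((k : ℝ) + 2) / ((k : ℝ) + 1)) : ℝ) : ℂ) * GrA_I f (k + 1) x := by
  funext x
  unfold green GrA_I
  rw [Finset.mul_sum, Complex.ofReal_sum]
  refine Finset.sum_congr rfl fun k _ => ?_
  rw [← Complex.ofReal_mul]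
  congr 1
  ring

theorem GrA_D {D : (V → ℂ) → ℂ} (hD : GrA_Op D) (n : ℕ) {f : V → ℝ}
    (hf : AEStronglyMeasurable f (volume : Measure V)) {b : ℝ}
    (hb : ∀ y : V, y ≠ 0 → |f y| ≤ b) :
    D (green n f) = ∑ k ∈ Finset.range n,
      ((-(Real.pi ^ 3)⁻¹ * (((k : ℝ) + 2) / ((k : ℝ) + 1)) : ℝ) : ℂ) *
        ∫ y, D (fun x => ((vv x y ^ (k + 1) : ℝ) : ℂ)) * (f y : ℂ) ∂nuP := by
  rw [GrA_green, hD.lin _ _ _ fun k => GrA_I_hom hf hb (k + 1)]
  refine Finset.sum_congr rfl fun k _ => ?_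
  rw [GrA_int hD hf hb]

theorem GrA_ae : ∀ᵐ y ∂nuP, (y : V) ≠ 0 := nuP_ac.ae_le NuA_ae_ne

theorem GrA_vm (x : V) : Measurable (fun y : V => vv x y) := by
  have h1 : ∀ j : Fin 3, Measurable (fun y : V => y j) := fun j => measurable_pi_apply j
  have h2 : Measurable (fun y : V => ip x y) := by
    unfold ip
    exact Finset.measurable_fun_sum _ fun j _ =>
      (Complex.continuous_conj.measurable.comp (h1 j)).const_mul (x j)
  have h3 : Measurable (fun y : V => Complex.normSq (ip x y)) :=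
    Complex.continuous_normSq.measurable.comp h2
  have h4 : Measurable (fun y : V => N y) := TauM_continuous_N.measurable
  exact h3.div (h4.const_mul (N x))

theorem GrA_vint {f : V → ℝ} (hf : AEStronglyMeasurable f (volume : Measure V)) {b : ℝ}
    (hb : ∀ y : V, y ≠ 0 → |f y| ≤ b) (x : V) (k : ℕ) :
    Integrable (fun y => vv x y ^ k * f y) nuP := by
  have hm : Measurable (fun y : V => vv x y) := GrA_vm x
  refine Integrable.bdd_mul (c := 1) (integrable_nuP hf hb) (hm.pow_const k).aestronglyMeasurable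
    (Filter.Eventually.of_forall fun y => ?_)
  rw [norm_pow, Real.norm_of_nonneg (vv_nonneg x y)]
  exact pow_le_one₀ (vv_nonneg x y) (vv_le_one x y)

theorem isFun_green (n : ℕ) {f : V → ℝ} (hf : AEStronglyMeasurable f (volume : Measure V)) {b : ℝ}
    (hb : ∀ y : V, y ≠ 0 → |f y| ≤ b) : IsFun (green n f) := by
  rw [isFun_iff, GrA_green]
  exact hom_sum _ _ fun k _ => hom_const_mul _ (GrA_I_hom hf hb (k + 1))

theorem isRe_green (n : ℕ) (f : V → ℝ) : IsRe (green n f) := by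
  intro x
  unfold green
  exact Complex.conj_ofReal _

theorem dz_green (n : ℕ) {f : V → ℝ} (hf : AEStronglyMeasurable f (volume : Measure V)) {b : ℝ}
    (hb : ∀ y : V, y ≠ 0 → |f y| ≤ b) (j : Fin 3) {x : V} (hx : x ≠ 0) :
    dz j (green n f) x =
      -((Real.pi ^ 3 : ℝ) : ℂ)⁻¹ * ∑ k ∈ Finset.range n, (((k : ℝ) + 2 : ℝ) : ℂ) *
        ∫ y, ((vv x y ^ k : ℝ) : ℂ) * dz j (fun x => ((vv x y : ℝ) : ℂ)) x * (f y : ℂ) ∂nuP := by
  have h1 := GrA_D (GrA_op_dz j hx) n hf hb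
  have h2 : dz j (green n f) x = _ := h1
  rw [h2, Finset.mul_sum]
  refine Finset.sum_congr rfl fun k _ => ?_
  have h3 : (fun y => dz j (fun x => ((vv x y ^ (k + 1) : ℝ) : ℂ)) x * (f y : ℂ)) =
      fun y => (((k : ℝ) + 1 : ℝ) : ℂ) *
        (((vv x y ^ k : ℝ) : ℂ) * dz j (fun x => ((vv x y : ℝ) : ℂ)) x * (f y : ℂ)) := by
    funext y
    rw [dz_vpow j hx k]
    ring
  have h4 : ∫ y, dz j (fun x => ((vv x y ^ (k + 1) : ℝ) : ℂ)) x * (f y : ℂ) ∂nuP =
      (((k : ℝ) + 1 : ℝ) : ℂ) *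
        ∫ y, ((vv x y ^ k : ℝ) : ℂ) * dz j (fun x => ((vv x y : ℝ) : ℂ)) x * (f y : ℂ) ∂nuP := by
    rw [h3, integral_const_mul]
  rw [h4]
  generalize ∫ y, ((vv x y ^ k : ℝ) : ℂ) * dz j (fun x => ((vv x y : ℝ) : ℂ)) x * (f y : ℂ) ∂nuP = W
  have h5 : ((k : ℂ) + 1) ≠ 0 := by exact_mod_cast Nat.succ_ne_zero k
  have h6 : ((Real.pi : ℝ) : ℂ) ^ 3 ≠ 0 := pow_ne_zero 3 (by exact_mod_cast Real.pi_pos.ne')
  push_cast
  field_simp

theorem trL_green (n : ℕ) {f : V → ℝ} (hf : AEStronglyMeasurable f (volume : Measure V)) {b : ℝ}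
    (hb : ∀ y : V, y ≠ 0 → |f y| ≤ b) {x : V} (hx : x ≠ 0) :
    (N x : ℂ) * (L (green n f) x).trace =
      (((Real.pi ^ 3)⁻¹ * ∫ y, (((n : ℝ) + 1) * ((n : ℝ) + 2) * vv x y ^ n - 2) * f y ∂nuP : ℝ) : ℂ) := by
  have h1 := GrA_D (GrA_op_tr hx) n hf hb
  have h2 : (L (green n f) x).trace = _ := h1
  rw [h2, Finset.mul_sum]
  have key : ∀ k ∈ Finset.range n, (N x : ℂ) *
      (((-(Real.pi ^ 3)⁻¹ * (((k : ℝ) + 2) / ((k : ℝ) + 1)) : ℝ) : ℂ) *
        ∫ y, (L (fun x => ((vv x y ^ (k + 1) : ℝ) : ℂ)) x).trace * (f y : ℂ) ∂nuP) =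
      (((Real.pi ^ 3)⁻¹ * ((((k + 1 : ℕ) : ℝ) + 1) * (((k + 1 : ℕ) : ℝ) + 2) *
        ∫ y, vv x y ^ (k + 1) * f y ∂nuP) - (Real.pi ^ 3)⁻¹ * (((k : ℝ) + 1) * ((k : ℝ) + 2) *
        ∫ y, vv x y ^ k * f y ∂nuP) : ℝ) : ℂ) := by
    intro k _
    have h3 : (N x : ℂ) * ∫ y, (L (fun x => ((vv x y ^ (k + 1) : ℝ) : ℂ)) x).trace * (f y : ℂ) ∂nuP =
        ((((k : ℝ) + 1) ^ 2 * (∫ y, vv x y ^ k * f y ∂nuP) -
          ((k : ℝ) + 1) * ((k : ℝ) + 3) * ∫ y, vv x y ^ (k + 1) * f y ∂nuP : ℝ) : ℂ) := by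
      rw [← integral_const_mul, ← integral_const_mul, ← integral_const_mul,
        ← integral_sub ((GrA_vint hf hb x k).const_mul _) ((GrA_vint hf hb x (k + 1)).const_mul _),
        ← integral_complex_ofReal]
      refine integral_congr_ae ?_
      filter_upwards [GrA_ae] with y hy
      rw [← mul_assoc, trL_vpow hx hy k]
      push_cast
      ring
    have h4 : (N x : ℂ) *
      (((-(Real.pi ^ 3)⁻¹ * (((k : ℝ) + 2) / ((k : ℝ) + 1)) : ℝ) : ℂ) *
        ∫ y, (L (fun x => ((vv x y ^ (k + 1) : ℝ) : ℂ)) x).trace * (f y : ℂ) ∂nuP) =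
      ((-(Real.pi ^ 3)⁻¹ * (((k : ℝ) + 2) / ((k : ℝ) + 1)) : ℝ) : ℂ) *
      ((N x : ℂ) * ∫ y, (L (fun x => ((vv x y ^ (k + 1) : ℝ) : ℂ)) x).trace * (f y : ℂ) ∂nuP) := by
      ring
    rw [h4, h3, ← Complex.ofReal_mul]
    congr 1
    generalize ∫ y, vv x y ^ k * f y ∂nuP = A
    generalize ∫ y, vv x y ^ (k + 1) * f y ∂nuP = B
    have h5 : ((k : ℝ) + 1) ≠ 0 := by positivity
    have h6 : Real.pi ^ 3 ≠ 0 := pow_ne_zero 3 Real.pi_pos.ne'
    push_cast
    field_simp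
    ring
  rw [Finset.sum_congr rfl key, ← Complex.ofReal_sum]
  congr 1
  rw [Finset.sum_range_sub (fun k : ℕ => (Real.pi ^ 3)⁻¹ * (((k : ℝ) + 1) * ((k : ℝ) + 2) *
        ∫ y, vv x y ^ k * f y ∂nuP)) n]
  have h7 : ∫ y, (((n : ℝ) + 1) * ((n : ℝ) + 2) * vv x y ^ n - 2) * f y ∂nuP =
      ((n : ℝ) + 1) * ((n : ℝ) + 2) * (∫ y, vv x y ^ n * f y ∂nuP) - 2 * ∫ y, f y ∂nuP := by
    rw [← integral_const_mul, ← integral_const_mul,
      ← integral_sub ((GrA_vint hf hb x n).const_mul _) ((integrable_nuP hf hb).const_mul _)]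
    congr 1
    funext y
    ring
  rw [h7]
  simp only [Nat.cast_zero, pow_zero, one_mul, zero_add]
  ring

end Pool.Agent.H85.DC
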