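import Pool.Agent.H85.DC.Ibp

/-!
# Row NuA: moments of the Fubini-Study measure `nuP`

`nuP = wt y / (N y)^2 dy`. `integral_nuP`: `integral_withDensity_eq_integral_smul` (measurable density;
`ENNReal.toReal_ofReal`, the density is `≥ 0`).
`int_wt`: `∫ wt = π^3`: Fubini on `Fin 3 → ℂ` (`integral_fin_nat_prod_eq_prod` or
`MeasureTheory.integral_fintype_prod_eq_prod`), `wt x = ∏ j, exp (-normSq (x j))`, and
`∫_ℂ exp(-|z|^2) = π` (`Complex.integral_...`/`GaussianFourier.integral_cexp_neg_mul_sq_norm_add` or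
`integral_exp_neg_mul_sq_norm`-type lemma with `finrank ℝ ℂ = 2`: `(π/1)^(2/2) = π`; Mathlib:
`GaussianFourier.integral_rexp_neg_mul_sq_norm`; or real/imaginary parts).
`moment_rec`: let `φ : Hom a a` and `-2 ≤ a`, then `∫ (N y) φ wt = (a + 3) ∫ φ wt`.
Proof: `ibp_z` with `f = y_j : Hom 1 0` and `g = φ`: `∫ dz j (y_j) φ wt = ∫ φ wt =
-∫ y_j dz j φ wt + ∫ y_j φ conj(y_j) wt`; sum over `j` with Euler (`∑ y_j dz j φ = a φ`):
`3 ∫ φ = - a ∫ φ + ∫ N φ` (bidegree sum `1 + 2a ≥ -4` holds for `a ≥ -2`; all integrable).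
`moment_top`: for `x` with `N x = 1`: `∫ |⟨y,x⟩|^(2n) wt = π^3 n!`. Induction with `ibp_z`: let
`ξ = ∑ y_j conj(x_j)`, `ξ^n : Hom n 0`, `ξ̄^m : Hom 0 m`; `dz j (ξ^(n+1)) = (n+1) ξ^n conj(x_j)`, `dz j (ξ̄^n) = 0`:
`∫ (n+1) ξ^n conj(x_j) ξ̄^n wt = ∫ ξ^(n+1) ξ̄^n conj(y_j) wt`; multiply by `x_j` and sum over `j`:
`(n+1) ∫ |ξ|^(2n) wt = ∫ |ξ|^(2n+2) wt`.
`moment`: wlog `N x = 1` (`vv (l•x) y = vv x y`). `φ_a = |ξ|^(2n) N^(a-n)`, `Hom a a`, `a = -2, …, n-1`:
`moment_rec` gives `∫ φ_{a+1} = (a+3) ∫ φ_a`, so `∫ φ_n = (n+2)! ∫ φ_{-2}`; `φ_n = |ξ|^(2n)`,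
`φ_{-2} = v^n N^(-2)`: `∫ v^n dν = π^3 n!/(n+2)! = π^3/((n+1)(n+2))`.
-/

open MeasureTheory
open scoped ContDiff BigOperators ComplexConjugate Matrix

namespace Pool.Agent.H85.DC

theorem NuA_dens_nonneg (y : V) : 0 ≤ wt y / (N y) ^ 2 :=
  div_nonneg (Real.exp_pos _).le (sq_nonneg _)

theorem NuA_dens_meas : Measurable (fun y : V => wt y / (N y) ^ 2) := by
  have h1 : Measurable N := continuous_N.measurable
  have h2 : Measurable wt := (Real.continuous_exp.comp continuous_N.neg).measurable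
  exact h2.div (h1.pow_const 2)

theorem integral_nuP (f : V → ℝ) : ∫ y, f y ∂nuP = ∫ y, f y * (wt y / (N y) ^ 2) := by
  rw [nuP, integral_withDensity_eq_integral_toReal_smul NuA_dens_meas.ennreal_ofReal
    (Filter.Eventually.of_forall fun _ => ENNReal.ofReal_lt_top)]
  refine integral_congr_ae (Filter.Eventually.of_forall fun y => ?_)
  simp only [ENNReal.toReal_ofReal (NuA_dens_nonneg y), smul_eq_mul, mul_comm]

theorem integral_nuP_c (f : V → ℂ) :
    ∫ y, f y ∂nuP = ∫ y, f y * ((wt y / (N y) ^ 2 : ℝ) : ℂ) := by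
  rw [nuP, integral_withDensity_eq_integral_toReal_smul NuA_dens_meas.ennreal_ofReal
    (Filter.Eventually.of_forall fun _ => ENNReal.ofReal_lt_top)]
  refine integral_congr_ae (Filter.Eventually.of_forall fun y => ?_)
  simp only [ENNReal.toReal_ofReal (NuA_dens_nonneg y), Complex.real_smul, mul_comm]

theorem NuA_dens_int : Integrable (fun y : V => wt y / (N y) ^ 2) := by
  have h := integrable_N_rpow (s := -2) (c := 1) (by norm_num) one_pos
  refine h.congr (Filter.Eventually.of_forall fun y => ?_)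
  simp only [wt]
  rw [Real.rpow_neg (N_nonneg y), Real.rpow_two, neg_one_mul, div_eq_mul_inv, mul_comm]

instance nuP_finite : IsFiniteMeasure nuP :=
  isFiniteMeasure_withDensity_ofReal NuA_dens_int.2

theorem NuA_int_C : ∫ z : ℂ, Real.exp (-Complex.normSq z) = Real.pi := by
  have h := Complex.integral_exp_neg_rpow (p := 2) (by norm_num)
  have h2 : (2 : ℝ) / 2 + 1 = 2 := by norm_num
  rw [h2, Real.Gamma_two, mul_one] at h
  rw [← h]
  congr 1
  ext z
  rw [Real.rpow_two, Complex.normSq_eq_norm_sq]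

theorem int_wt : ∫ x : V, wt x = Real.pi ^ 3 := by
  have h := MeasureTheory.integral_fintype_prod_volume_eq_pow (ι := Fin 3)
    (fun z : ℂ => Real.exp (-Complex.normSq z))
  rw [NuA_int_C, Fintype.card_fin] at h
  rw [← h]
  congr 1
  ext x
  rw [wt, N, ← Real.exp_sum, Finset.sum_neg_distrib]

theorem NuA_ae_ne : ∀ᵐ y : V, y ≠ 0 := by
  rw [ae_iff]
  simp

theorem NuA_N_cast (y : V) : ((N y : ℝ) : ℂ) = ∑ j, y j * conj (y j) := by
  rw [N, Complex.ofReal_sum]
  exact Finset.sum_congr rfl fun j _ => (Complex.mul_conj (y j)).symm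

theorem moment_rec {a : ℤ} {φ : V → ℂ} (hφ : Hom a a φ) (ha : -2 ≤ a) :
    ∫ y, (N y : ℂ) * φ y * (wt y : ℂ) = (a + 3) * ∫ y, φ y * (wt y : ℂ) := by
  have hI1 : ∀ j : Fin 3, Integrable (fun y : V => y j * dz j φ y * (wt y : ℂ)) := fun j =>
    chom_integrable (hom_mul (hom_coord j) (dz_hom j hφ)).chom (by omega)
  have hI2 : ∀ j : Fin 3, Integrable (fun y : V => y j * φ y * conj (y j) * (wt y : ℂ)) := fun j =>
    chom_integrable (hom_mul (hom_mul (hom_coord j) hφ) (hom_conj_coord j)).chom (by omega)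
  have hj : ∀ j : Fin 3, ∫ y, φ y * (wt y : ℂ) =
      -(∫ y : V, y j * dz j φ y * (wt y : ℂ)) + ∫ y : V, y j * φ y * conj (y j) * (wt y : ℂ) := by
    intro j
    rw [← ibp_z (hom_coord j) hφ (by omega) j]
    refine integral_congr_ae (Filter.Eventually.of_forall fun y => ?_)
    simp only [dz_coord, if_true, one_mul]
  have hs : ∑ _j : Fin 3, ∫ y, φ y * (wt y : ℂ) = 3 * ∫ y, φ y * (wt y : ℂ) := by
    rw [Finset.sum_const, Finset.card_univ, Fintype.card_fin, nsmul_eq_mul]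
    norm_num
  rw [Finset.sum_congr rfl fun j _ => hj j, Finset.sum_add_distrib, Finset.sum_neg_distrib,
    ← integral_finsetSum _ fun j _ => hI1 j, ← integral_finsetSum _ fun j _ => hI2 j] at hs
  have h1 : ∫ y : V, ∑ j, y j * dz j φ y * (wt y : ℂ) = a * ∫ y, φ y * (wt y : ℂ) := by
    rw [← integral_const_mul]
    refine integral_congr_ae ?_
    filter_upwards [NuA_ae_ne] with y hy
    rw [← Finset.sum_mul, euler hφ hy, mul_assoc]
  have h2 : ∫ y : V, ∑ j, y j * φ y * conj (y j) * (wt y : ℂ) =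
      ∫ y, (N y : ℂ) * φ y * (wt y : ℂ) := by
    refine integral_congr_ae (Filter.Eventually.of_forall fun y => ?_)
    simp only [NuA_N_cast, Finset.sum_mul]
    exact Finset.sum_congr rfl fun j _ => by ring
  rw [h1, h2] at hs
  linear_combination hs

theorem vv_smul (l : ℂ) (x y : V) (hl : l ≠ 0) : vv (l • x) y = vv x y := by
  have h1 : ip (l • x) y = l * ip x y := by
    simp only [ip, Pi.smul_apply, smul_eq_mul, Finset.mul_sum, mul_assoc]
  have h2 : Complex.normSq l ≠ 0 := fun h => hl (Complex.normSq_eq_zero.1 h)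
  rw [vv, vv, h1, N_smul, map_mul, mul_assoc, mul_div_mul_left _ _ h2]

/-- the linear form of `x` -/
noncomputable def NuA_xi (x y : V) : ℂ := ∑ j, conj (x j) * y j

theorem NuA_xi_hom (x : V) : Hom 1 0 (NuA_xi x) :=
  hom_sum (Finset.univ : Finset (Fin 3)) (fun j y => conj (x j) * y j)
    (fun j _ => hom_const_mul _ (hom_coord j))

theorem NuA_conj_xi (x y : V) : conj (NuA_xi x y) = ip x y := by
  rw [NuA_xi, map_sum]
  exact Finset.sum_congr rfl fun j _ => by rw [map_mul, Complex.conj_conj]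

theorem NuA_xi_conj (x y : V) : NuA_xi x y * conj (NuA_xi x y) = (Complex.normSq (ip x y) : ℂ) := by
  rw [← NuA_conj_xi, Complex.normSq_conj, Complex.mul_conj]

theorem NuA_dz_xi (x : V) (j : Fin 3) {y : V} (hy : y ≠ 0) : dz j (NuA_xi x) y = conj (x j) := by
  have h1 := dz_sum j (Finset.univ : Finset (Fin 3)) (fun j y => conj (x j) * y j) (x := y)
    (fun i _ => (hom_const_mul _ (hom_coord i)).diffAt hy)
  refine h1.trans ?_
  rw [Finset.sum_congr rfl fun i _ => dz_const_mul j (conj (x i)) ((hom_coord i).diffAt hy)]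
  simp only [dz_coord, mul_ite, mul_one, mul_zero, Finset.sum_ite_eq, Finset.mem_univ, if_true]

theorem NuA_dzb_xi (x : V) (j : Fin 3) {y : V} (hy : y ≠ 0) : dzb j (NuA_xi x) y = 0 := by
  have h1 := dzb_sum j (Finset.univ : Finset (Fin 3)) (fun j y => conj (x j) * y j) (x := y)
    (fun i _ => (hom_const_mul _ (hom_coord i)).diffAt hy)
  refine h1.trans ?_
  rw [Finset.sum_congr rfl fun i _ => dzb_const_mul j (conj (x i)) ((hom_coord i).diffAt hy)]
  simp only [dzb_coord, mul_zero, Finset.sum_const_zero]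

theorem NuA_dz_conj_xi (x : V) (j : Fin 3) {y : V} (hy : y ≠ 0) :
    dz j (fun y => conj (NuA_xi x y)) y = 0 := by
  rw [← conj_dzb, NuA_dzb_xi x j hy, map_zero]

theorem NuA_dz_pow (j : Fin 3) {f : V → ℂ} {y : V} (hf : DifferentiableAt ℝ f y) (n : ℕ) :
    dz j (fun y => f y ^ (n + 1)) y = ((n : ℂ) + 1) * f y ^ n * dz j f y := by
  induction n with
  | zero => simp
  | succ n ih =>
    have h1 : (fun y => f y ^ (n + 1 + 1)) = fun y => f y ^ (n + 1) * f y := by
      funext z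
      rw [pow_succ]
    have h2 := dz_mul j (f := fun y => f y ^ (n + 1)) (hf.pow (n + 1)) hf
    rw [h1, h2, ih]
    push_cast
    ring

theorem NuA_dz_conj_pow (x : V) (j : Fin 3) {y : V} (hy : y ≠ 0) (n : ℕ) :
    dz j (fun y => conj (NuA_xi x y) ^ n) y = 0 := by
  cases n with
  | zero =>
    simp only [pow_zero]
    exact dz_const j 1 y
  | succ n =>
    rw [NuA_dz_pow j ((hom_conj (NuA_xi_hom x)).diffAt hy), NuA_dz_conj_xi x j hy, mul_zero]

theorem NuA_top_rec {x : V} (hx : N x = 1) (n : ℕ) :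
    ∫ y, NuA_xi x y ^ (n + 1) * conj (NuA_xi x y) ^ (n + 1) * (wt y : ℂ) =
      ((n : ℂ) + 1) * ∫ y, NuA_xi x y ^ n * conj (NuA_xi x y) ^ n * (wt y : ℂ) := by
  have hf := hom_pow (n + 1) (NuA_xi_hom x)
  have hg := hom_pow n (hom_conj (NuA_xi_hom x))
  have hj : ∀ j : Fin 3, ((n : ℂ) + 1) * conj (x j) *
      ∫ y, NuA_xi x y ^ n * conj (NuA_xi x y) ^ n * (wt y : ℂ) =
      ∫ y : V, NuA_xi x y ^ (n + 1) * conj (NuA_xi x y) ^ n * conj (y j) * (wt y : ℂ) := by
    intro j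
    have h1 := ibp_z hf hg (by push_cast; omega) j
    have h2 : ∫ y : V, NuA_xi x y ^ (n + 1) * dz j (fun y => conj (NuA_xi x y) ^ n) y * (wt y : ℂ)
        = 0 := by
      rw [← integral_zero V ℂ (μ := volume)]
      refine integral_congr_ae ?_
      filter_upwards [NuA_ae_ne] with y hy
      rw [NuA_dz_conj_pow x j hy, mul_zero, zero_mul]
    rw [h2, neg_zero, zero_add] at h1
    rw [← h1, ← integral_const_mul]
    refine integral_congr_ae ?_
    filter_upwards [NuA_ae_ne] with y hy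
    rw [NuA_dz_pow j ((NuA_xi_hom x).diffAt hy), NuA_dz_xi x j hy]
    ring
  have hI : ∀ j : Fin 3, Integrable (fun y : V =>
      x j * (NuA_xi x y ^ (n + 1) * conj (NuA_xi x y) ^ n * conj (y j) * (wt y : ℂ))) := fun j =>
    (chom_integrable (hom_mul (hom_mul hf hg) (hom_conj_coord j)).chom
      (by push_cast; omega)).const_mul _
  have h3 : ∑ j, x j * (((n : ℂ) + 1) * conj (x j) *
      ∫ y, NuA_xi x y ^ n * conj (NuA_xi x y) ^ n * (wt y : ℂ)) =
      ∫ y, NuA_xi x y ^ (n + 1) * conj (NuA_xi x y) ^ (n + 1) * (wt y : ℂ) := by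
    rw [Finset.sum_congr rfl fun j _ => by rw [hj j, ← integral_const_mul],
      ← integral_finsetSum _ fun j _ => hI j]
    refine integral_congr_ae (Filter.Eventually.of_forall fun y => ?_)
    have h4 : conj (NuA_xi x y) ^ (n + 1) = conj (NuA_xi x y) ^ n * ∑ j, x j * conj (y j) := by
      rw [pow_succ, NuA_conj_xi]
      rfl
    simp only [h4, Finset.mul_sum, Finset.sum_mul]
    exact Finset.sum_congr rfl fun j _ => by ring
  have h5 : ∑ j, x j * conj (x j) = 1 := by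
    rw [← NuA_N_cast, hx, Complex.ofReal_one]
  rw [← h3]
  have h6 : ∀ J : ℂ, ∑ j, x j * (((n : ℂ) + 1) * conj (x j) * J) =
      (∑ j, x j * conj (x j)) * (((n : ℂ) + 1) * J) := by
    intro J
    rw [Finset.sum_mul]
    exact Finset.sum_congr rfl fun j _ => by ring
  rw [h6, h5, one_mul]

theorem NuA_top {x : V} (hx : N x = 1) (n : ℕ) :
    ∫ y, NuA_xi x y ^ n * conj (NuA_xi x y) ^ n * (wt y : ℂ) =
      ((Real.pi ^ 3 * (n.factorial : ℝ) : ℝ) : ℂ) := by
  induction n with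
  | zero =>
    simp only [pow_zero, one_mul, Nat.factorial_zero, Nat.cast_one, mul_one]
    rw [← int_wt]
    exact integral_ofReal
  | succ n ih =>
    rw [NuA_top_rec hx, ih, Nat.factorial_succ]
    push_cast
    ring

theorem NuA_down {x : V} (n : ℕ) : ∀ m q : ℕ, m + q = n + 2 →
    ∫ y, NuA_xi x y ^ n * conj (NuA_xi x y) ^ n * ((N y : ℂ))⁻¹ ^ q * (wt y : ℂ) =
      (m.factorial : ℂ) *
        ∫ y, NuA_xi x y ^ n * conj (NuA_xi x y) ^ n * ((N y : ℂ))⁻¹ ^ (n + 2) * (wt y : ℂ) := by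
  intro m
  induction m with
  | zero =>
    intro q hq
    rw [zero_add] at hq
    rw [hq, Nat.factorial_zero, Nat.cast_one, one_mul]
  | succ m ih =>
    intro q hq
    have h1 := ih (q + 1) (by omega)
    have hP : Hom ((n : ℤ) - (q + 1)) ((n : ℤ) - (q + 1)) (fun y =>
        NuA_xi x y ^ n * conj (NuA_xi x y) ^ n * ((N y : ℂ))⁻¹ ^ (q + 1)) := by
      have h2 := hom_mul (hom_mul (hom_pow n (NuA_xi_hom x)) (hom_pow n (hom_conj (NuA_xi_hom x))))
        (hom_pow (q + 1) hom_Ninv)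
      convert h2 using 1 <;> push_cast <;> ring
    have h3 := moment_rec hP (by omega)
    have h4 : ∫ y, (N y : ℂ) * (NuA_xi x y ^ n * conj (NuA_xi x y) ^ n * ((N y : ℂ))⁻¹ ^ (q + 1)) *
        (wt y : ℂ) =
        ∫ y, NuA_xi x y ^ n * conj (NuA_xi x y) ^ n * ((N y : ℂ))⁻¹ ^ q * (wt y : ℂ) := by
      refine integral_congr_ae ?_
      filter_upwards [NuA_ae_ne] with y hy
      have h5 : (N y : ℂ) ≠ 0 := by exact_mod_cast (N_pos hy).ne'
      rw [pow_succ]
      field_simp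
    rw [h4, h1] at h3
    rw [h3, Nat.factorial_succ]
    have h6 : (n : ℂ) - q + 2 = (m : ℂ) + 1 := by
      have h7 : ((n : ℂ)) + 2 = (m : ℂ) + 1 + q := by exact_mod_cast hq.symm
      linear_combination h7
    push_cast
    rw [← h6]
    ring

theorem NuA_moment_one (n : ℕ) {x : V} (hx : N x = 1) :
    ∫ y, vv x y ^ n ∂nuP = Real.pi ^ 3 / (((n : ℝ) + 1) * ((n : ℝ) + 2)) := by
  have h1 := NuA_down (x := x) n (n + 2) 0 rfl
  simp only [pow_zero, mul_one] at h1
  rw [NuA_top hx] at h1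
  have h2 : ∫ y, NuA_xi x y ^ n * conj (NuA_xi x y) ^ n * ((N y : ℂ))⁻¹ ^ (n + 2) * (wt y : ℂ) =
      ((∫ y, vv x y ^ n * (wt y / (N y) ^ 2) : ℝ) : ℂ) := by
    rw [← integral_complex_ofReal]
    refine integral_congr_ae (Filter.Eventually.of_forall fun y => ?_)
    simp only
    rw [← mul_pow, NuA_xi_conj, vv, hx, one_mul]
    push_cast
    simp only [div_eq_mul_inv, mul_pow, inv_pow, pow_add]
    ring
  rw [h2, ← integral_nuP] at h1
  have h3 : Real.pi ^ 3 * (n.factorial : ℝ) = ((n + 2).factorial : ℝ) * ∫ y, vv x y ^ n ∂nuP := by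
    exact_mod_cast h1
  have h4 : ((n + 2).factorial : ℝ) = ((n : ℝ) + 2) * (((n : ℝ) + 1) * (n.factorial : ℝ)) := by
    rw [Nat.factorial_succ, Nat.factorial_succ]
    push_cast
    ring
  have h5 : (0 : ℝ) < (n.factorial : ℝ) := by exact_mod_cast Nat.factorial_pos n
  rw [h4] at h3
  rw [eq_div_iff (by positivity)]
  have h6 : (n.factorial : ℝ) * ((∫ y, vv x y ^ n ∂nuP) * (((n : ℝ) + 1) * ((n : ℝ) + 2))) =
      (n.factorial : ℝ) * Real.pi ^ 3 := by
    linear_combination -h3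
  exact mul_left_cancel₀ h5.ne' h6

theorem moment (n : ℕ) {x : V} (hx : x ≠ 0) :
    ∫ y, vv x y ^ n ∂nuP = Real.pi ^ 3 / (((n : ℝ) + 1) * ((n : ℝ) + 2)) := by
  obtain ⟨z, hz, hxz⟩ := exists_smul_sphere hx
  have hl : ((Real.sqrt (N x) : ℝ) : ℂ) ≠ 0 := by
    exact_mod_cast (Real.sqrt_pos.2 (N_pos hx)).ne'
  have h1 : ∀ y, vv x y = vv z y := by
    intro y
    rw [← vv_smul _ z y hl, ← hxz]
  simp only [h1]
  exact NuA_moment_one n hz

theorem NuA_univ : ∫ _y, (1 : ℝ) ∂nuP = Real.pi ^ 3 / 2 := by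
  have h := moment 0 (x := Pi.single 0 1) (by simp)
  simp only [pow_zero, Nat.cast_zero, zero_add, one_mul] at h
  exact h

theorem nuP_univ : nuP Set.univ = ENNReal.ofReal (Real.pi ^ 3 / 2) := by
  rw [← NuA_univ, integral_const, smul_eq_mul, mul_one, ofReal_measureReal]

theorem int_Nm2 : ∫ x : V, (N x) ^ (-2 : ℤ) * wt x = Real.pi ^ 3 / 2 := by
  rw [← NuA_univ, integral_nuP]
  refine integral_congr_ae (Filter.Eventually.of_forall fun y => ?_)
  have h : (N y) ^ (-2 : ℤ) = ((N y) ^ 2)⁻¹ := by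
    rw [zpow_neg]
    rfl
  simp only [h, one_mul, div_eq_mul_inv, mul_comm]

theorem nuP_ac : nuP ≪ (volume : Measure V) := withDensity_absolutelyContinuous _ _

/-- Bounded functions which are a.e. strongly measurable for Lebesgue measure are `nuP`-integrable. -/
theorem integrable_nuP {f : V → ℝ} (hf : AEStronglyMeasurable f (volume : Measure V)) {b : ℝ}
    (hb : ∀ x : V, x ≠ 0 → |f x| ≤ b) : Integrable f nuP := by
  refine Integrable.of_bound (hf.mono_ac nuP_ac) b ?_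
  filter_upwards [nuP_ac.ae_le NuA_ae_ne] with y hy
  rw [Real.norm_eq_abs]
  exact hb y hy

end Pool.Agent.H85.DC
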