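import Pool.Agent.H85.DC.HomA
import Pool.Agent.H85.DC.HomB
import Pool.Agent.H85.DC.NuA
import Pool.Agent.H85.DC.TauM

/-!
# Row GrB: derivatives of powers of `vv x y`

Fix `y ≠ 0`. `v x = vv x y = |ξ|^2/(N x N y)`, `ξ = ip x y = ∑ x_j conj(y_j)`. As complex function
`v = (N y)⁻¹ ξ ξ̄ N(x)⁻¹`, conic (`Hom 0 0`).
`dz j v = (N y)⁻¹ [conj(y_j) ξ̄ / N - ξ ξ̄ conj(x_j)/N^2]`, `dzb k v = conj (dz k v)` (`v` real).
`grad_v`: `∑_j |dz j v|^2 = v (1 - v)/N x`: with `a_j = conj(y_j) ξ̄/(N N_y)`, `b_j = |ξ|^2 conj(x_j)/(N^2 N_y)`: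
`∑|a_j|^2 = N_y |ξ|^2/(N^2 N_y^2) = v/N`, `∑|b_j|^2 = v^2/N`, `∑ a_j conj(b_j) = ξ̄ |ξ|^2 ξ/(N^3 N_y^2) = v^2/N`.
`tr L v`: `∑_j dz j (dzb j v)`. `dzb j v = (N y)⁻¹ [y_j ξ/N - |ξ|^2 x_j/N^2]`;
`dz j` of it: `(N y)⁻¹ [y_j conj(y_j)/N - y_j ξ conj(x_j)/N^2 - (conj(y_j) ξ̄ x_j + |ξ|^2)/N^2 + 2 |ξ|^2 x_j conj(x_j)/N^3]`;
sum over `j`: `(N y)⁻¹ [N_y/N - |ξ|^2/N^2 - |ξ|^2/N^2 - 3|ξ|^2/N^2 + 2|ξ|^2/N^2] = (1 - 3 v)/N`.
Powers: `dz j (v^k) = k v^(k-1) dz j v`; `tr L (v^k) = k v^(k-1) tr L v + k (k-1) v^(k-2) ∑ |dz j v|^2`, so for `k ≥ 1`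
`N tr L (v^k) = k v^(k-1) (1 - 3v) + k(k-1) v^(k-1) (1 - v) = k^2 v^(k-1) - k (k+2) v^k`.
-/

open MeasureTheory
open scoped ContDiff BigOperators ComplexConjugate Matrix

namespace Pool.Agent.H85.DC

theorem vv_eq (x y : V) : vv x y = 1 - tau x y := by
  unfold vv tau
  ring

theorem vv_nonneg (x y : V) : 0 ≤ vv x y := by
  unfold vv
  exact div_nonneg (Complex.normSq_nonneg _) (mul_nonneg (N_nonneg x) (N_nonneg y))

theorem vv_le_one (x y : V) : vv x y ≤ 1 := by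
  rw [vv_eq]
  have := tau_nonneg x y
  linarith

theorem GrB_sum (y x : V) : ip x y = x 0 * conj (y 0) + x 1 * conj (y 1) + x 2 * conj (y 2) := by
  simp [ip, Fin.sum_univ_three]

theorem GrB_N (x : V) : (N x : ℂ) = x 0 * conj (x 0) + x 1 * conj (x 1) + x 2 * conj (x 2) := by
  simp only [N, Fin.sum_univ_three, Complex.ofReal_add, Complex.mul_conj]

theorem GrB_cip (y x : V) :
    conj (ip x y) = conj (x 0) * y 0 + conj (x 1) * y 1 + conj (x 2) * y 2 := by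
  rw [GrB_sum]
  simp only [map_add, map_mul, Complex.conj_conj]

theorem GrB_ip_diff (y x : V) : DifferentiableAt ℝ (fun x => ip x y) x := by
  unfold ip
  fun_prop

theorem GrB_cip_diff (y x : V) : DifferentiableAt ℝ (fun x => conj (ip x y)) x :=
  Complex.conjCLE.differentiableAt.comp x (GrB_ip_diff y x)

theorem GrB_term_diff (y x : V) (k : Fin 3) : DifferentiableAt ℝ (fun x : V => conj (y k) * x k) x := by
  fun_prop

theorem GrB_ip_eq (y : V) : (fun x => ip x y) = fun x => ∑ k ∈ Finset.univ, conj (y k) * x k := by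
  funext x
  unfold ip
  exact Finset.sum_congr rfl fun k _ => mul_comm _ _

theorem GrB_ip_dz (j : Fin 3) (y x : V) : dz j (fun x => ip x y) x = conj (y j) := by
  rw [GrB_ip_eq, dz_sum j Finset.univ (fun k (x : V) => conj (y k) * x k)
    (fun k _ => GrB_term_diff y x k)]
  have h : ∀ k ∈ Finset.univ, dz j (fun x : V => conj (y k) * x k) x =
      conj (y k) * (if j = k then 1 else 0) := by
    intro k _
    rw [dz_const_mul j (conj (y k)) (f := fun x : V => x k) (by fun_prop), dz_coord]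
  rw [Finset.sum_congr rfl h]
  simp

theorem GrB_ip_dzb (j : Fin 3) (y x : V) : dzb j (fun x => ip x y) x = 0 := by
  rw [GrB_ip_eq, dzb_sum j Finset.univ (fun k (x : V) => conj (y k) * x k)
    (fun k _ => GrB_term_diff y x k)]
  refine Finset.sum_eq_zero fun k _ => ?_
  rw [dzb_const_mul j (conj (y k)) (f := fun x : V => x k) (by fun_prop), dzb_coord, mul_zero]

theorem GrB_cip_dz (j : Fin 3) (y x : V) : dz j (fun x => conj (ip x y)) x = 0 := by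
  rw [← conj_dzb j (fun x => ip x y), GrB_ip_dzb, map_zero]

theorem GrB_cip_dzb (j : Fin 3) (y x : V) : dzb j (fun x => conj (ip x y)) x = y j := by
  rw [← conj_dz j (fun x => ip x y), GrB_ip_dz, Complex.conj_conj]

theorem GrB_v (y x : V) :
    ((vv x y : ℝ) : ℂ) = (N y : ℂ)⁻¹ * ((ip x y * conj (ip x y)) * (N x : ℂ)⁻¹) := by
  unfold vv
  push_cast
  rw [Complex.mul_conj, div_eq_mul_inv, mul_inv]
  ring

theorem GrB_Nc {x : V} (hx : x ≠ 0) : (N x : ℂ) ≠ 0 := by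
  exact_mod_cast (N_pos hx).ne'

theorem GrB_Ni_diff {x : V} (hx : x ≠ 0) : DifferentiableAt ℝ (fun x => (N x : ℂ)⁻¹) x :=
  hom_Ninv.diffAt hx

theorem GrB_Ni_dz (j : Fin 3) {x : V} (hx : x ≠ 0) :
    dz j (fun x => (N x : ℂ)⁻¹) x = -conj (x j) * (N x : ℂ)⁻¹ ^ 2 := by
  rw [dz_inv j (f := fun x => (N x : ℂ)) (hom_N.diffAt hx) (GrB_Nc hx), dz_N]
  field_simp

theorem GrB_Ni_dzb (j : Fin 3) {x : V} (hx : x ≠ 0) :
    dzb j (fun x => (N x : ℂ)⁻¹) x = -x j * (N x : ℂ)⁻¹ ^ 2 := by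
  rw [dzb_inv j (f := fun x => (N x : ℂ)) (hom_N.diffAt hx) (GrB_Nc hx), dzb_N]
  field_simp

theorem GrB_dz (j : Fin 3) {y x : V} (hx : x ≠ 0) : dz j (fun x => ((vv x y : ℝ) : ℂ)) x =
    (N y : ℂ)⁻¹ * (conj (y j) * conj (ip x y) * (N x : ℂ)⁻¹ -
      ip x y * conj (ip x y) * conj (x j) * (N x : ℂ)⁻¹ ^ 2) := by
  have h1 := GrB_ip_diff y x
  have h2 := GrB_cip_diff y x
  have h3 := GrB_Ni_diff hx
  have e : (fun x => ((vv x y : ℝ) : ℂ)) =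
      fun x => (N y : ℂ)⁻¹ * ((ip x y * conj (ip x y)) * (N x : ℂ)⁻¹) := funext (GrB_v y)
  rw [e, dz_const_mul j _ (f := fun x => (ip x y * conj (ip x y)) * (N x : ℂ)⁻¹) ((h1.mul h2).mul h3),
    dz_mul j (f := fun x => ip x y * conj (ip x y)) (g := fun x => (N x : ℂ)⁻¹) (h1.mul h2) h3,
    dz_mul j (f := fun x => ip x y) (g := fun x => conj (ip x y)) h1 h2, GrB_ip_dz, GrB_cip_dz,
    GrB_Ni_dz j hx]
  ring

theorem GrB_dzb (j : Fin 3) {y x : V} (hx : x ≠ 0) : dzb j (fun x => ((vv x y : ℝ) : ℂ)) x =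
    (N y : ℂ)⁻¹ * (y j * (ip x y * (N x : ℂ)⁻¹) -
      ip x y * conj (ip x y) * (x j * (N x : ℂ)⁻¹ ^ 2)) := by
  have h1 := GrB_ip_diff y x
  have h2 := GrB_cip_diff y x
  have h3 := GrB_Ni_diff hx
  have e : (fun x => ((vv x y : ℝ) : ℂ)) =
      fun x => (N y : ℂ)⁻¹ * ((ip x y * conj (ip x y)) * (N x : ℂ)⁻¹) := funext (GrB_v y)
  rw [e, dzb_const_mul j _ (f := fun x => (ip x y * conj (ip x y)) * (N x : ℂ)⁻¹) ((h1.mul h2).mul h3),
    dzb_mul j (f := fun x => ip x y * conj (ip x y)) (g := fun x => (N x : ℂ)⁻¹) (h1.mul h2) h3,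
    dzb_mul j (f := fun x => ip x y) (g := fun x => conj (ip x y)) h1 h2, GrB_ip_dzb, GrB_cip_dzb,
    GrB_Ni_dzb j hx]
  ring

theorem GrB_dd (j : Fin 3) {y x : V} (hx : x ≠ 0) :
    dz j (dzb j (fun x => ((vv x y : ℝ) : ℂ))) x =
    (N y : ℂ)⁻¹ * (y j * (conj (y j) * (N x : ℂ)⁻¹ - ip x y * conj (x j) * (N x : ℂ)⁻¹ ^ 2) -
      (conj (y j) * conj (ip x y) * x j * (N x : ℂ)⁻¹ ^ 2 +
        ip x y * conj (ip x y) * (N x : ℂ)⁻¹ ^ 2 -
        2 * (ip x y * conj (ip x y)) * (x j * conj (x j)) * (N x : ℂ)⁻¹ ^ 3)) := by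
  have h1 := GrB_ip_diff y x
  have h2 := GrB_cip_diff y x
  have h3 := GrB_Ni_diff hx
  have hc : DifferentiableAt ℝ (fun x : V => x j) x := by fun_prop
  have d7 : DifferentiableAt ℝ (fun x : V => (N x : ℂ)⁻¹ * (N x : ℂ)⁻¹) x := h3.mul h3
  rw [dz_congr j hx (g := fun x => (N y : ℂ)⁻¹ * (y j * (ip x y * (N x : ℂ)⁻¹) -
      ip x y * conj (ip x y) * (x j * (N x : ℂ)⁻¹ ^ 2))) (fun z hz => GrB_dzb j hz)]
  have e : (fun x => (N y : ℂ)⁻¹ * (y j * (ip x y * (N x : ℂ)⁻¹) -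
      ip x y * conj (ip x y) * (x j * (N x : ℂ)⁻¹ ^ 2))) =
      fun x => (N y : ℂ)⁻¹ * (y j * (ip x y * (N x : ℂ)⁻¹) +
      (-1) * (ip x y * conj (ip x y) * (x j * ((N x : ℂ)⁻¹ * (N x : ℂ)⁻¹)))) := by
    funext x
    ring
  have d1 : DifferentiableAt ℝ (fun x => ip x y * (N x : ℂ)⁻¹) x := h1.mul h3
  have d2 : DifferentiableAt ℝ (fun x : V => x j * ((N x : ℂ)⁻¹ * (N x : ℂ)⁻¹)) x := hc.mul (h3.mul h3)
  have d3 : DifferentiableAt ℝ (fun x => ip x y * conj (ip x y)) x := h1.mul h2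
  have d4 : DifferentiableAt ℝ (fun x => ip x y * conj (ip x y) *
    (x j * ((N x : ℂ)⁻¹ * (N x : ℂ)⁻¹))) x := d3.mul d2
  have d5 : DifferentiableAt ℝ (fun x => y j * (ip x y * (N x : ℂ)⁻¹)) x := d1.const_mul _
  have d6 : DifferentiableAt ℝ (fun x => (-1) * (ip x y * conj (ip x y) *
    (x j * ((N x : ℂ)⁻¹ * (N x : ℂ)⁻¹)))) x := d4.const_mul _
  rw [e, dz_const_mul j _ (f := fun x => y j * (ip x y * (N x : ℂ)⁻¹) +
      (-1) * (ip x y * conj (ip x y) * (x j * ((N x : ℂ)⁻¹ * (N x : ℂ)⁻¹)))) (d5.add d6),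
    dz_add j d5 d6, dz_const_mul j _ d1, dz_const_mul j _ d4, dz_mul j h1 h3, dz_mul j d3 d2,
    dz_mul j h1 h2, dz_mul j hc d7, dz_mul j h3 h3, GrB_ip_dz, GrB_cip_dz,
    GrB_Ni_dz j hx, dz_coord, if_pos rfl]
  ring

theorem GrB_trL {y x : V} (hx : x ≠ 0) (hy : y ≠ 0) :
    ∑ j, dz j (dzb j (fun x => ((vv x y : ℝ) : ℂ))) x =
      (1 - 3 * ((vv x y : ℝ) : ℂ)) * (N x : ℂ)⁻¹ := by
  have hN := GrB_Nc hx
  have hM := GrB_Nc hy
  have a1 := GrB_N x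
  have a2 := GrB_N y
  have a3 := GrB_sum y x
  have a4 := GrB_cip y x
  rw [Fin.sum_univ_three, GrB_dd 0 hx, GrB_dd 1 hx, GrB_dd 2 hx, GrB_v]
  generalize conj (ip x y) = cξ at *
  generalize ip x y = ξ at *
  generalize (N x : ℂ) = n at *
  generalize (N y : ℂ) = M at *
  field_simp
  linear_combination (-n ^ 2) * a2 + (n * ξ) * a4 + (n * cξ) * a3 - (2 * ξ * cξ) * a1

theorem GrB_conj (y : V) : (fun x => conj (((vv x y : ℝ) : ℂ))) = fun x => ((vv x y : ℝ) : ℂ) := by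
  funext x
  exact Complex.conj_ofReal _

theorem GrB_gr {y x : V} (hx : x ≠ 0) (hy : y ≠ 0) :
    ∑ j, dz j (fun x => ((vv x y : ℝ) : ℂ)) x * dzb j (fun x => ((vv x y : ℝ) : ℂ)) x =
      ((vv x y : ℝ) : ℂ) * (1 - ((vv x y : ℝ) : ℂ)) * (N x : ℂ)⁻¹ := by
  have hN := GrB_Nc hx
  have hM := GrB_Nc hy
  have a1 := GrB_N x
  have a2 := GrB_N y
  have a3 := GrB_sum y x
  have a4 := GrB_cip y x
  rw [Fin.sum_univ_three, GrB_dz 0 hx, GrB_dz 1 hx, GrB_dz 2 hx, GrB_dzb 0 hx, GrB_dzb 1 hx,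
    GrB_dzb 2 hx, GrB_v]
  generalize conj (ip x y) = cξ at *
  generalize ip x y = ξ at *
  generalize (N x : ℂ) = n at *
  generalize (N y : ℂ) = M at *
  field_simp
  linear_combination (-(ξ * cξ * n ^ 2)) * a2 + (ξ ^ 2 * cξ * n) * a4 + (ξ * cξ ^ 2 * n) * a3 -
    (ξ ^ 2 * cξ ^ 2) * a1

theorem GrB_diff {y x : V} (hx : x ≠ 0) : DifferentiableAt ℝ (fun x => vv x y) x := by
  have h1 := GrB_ip_diff y x
  have h2 := GrB_cip_diff y x
  have h3 := GrB_Ni_diff hx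
  have e : (fun x => vv x y) =
      fun x => ((N y : ℂ)⁻¹ * ((ip x y * conj (ip x y)) * (N x : ℂ)⁻¹)).re := by
    funext x
    rw [← GrB_v, Complex.ofReal_re]
  rw [e]
  exact Complex.reCLM.differentiableAt.comp x (((h1.mul h2).mul h3).const_mul _)

theorem isFun_vv (y : V) (k : ℕ) : IsFun (fun x => ((vv x y ^ k : ℝ) : ℂ)) := by
  rw [isFun_iff]
  have h1 : Hom 1 0 (fun x => ip x y) := by
    rw [GrB_ip_eq]
    exact hom_sum Finset.univ (fun k (x : V) => conj (y k) * x k)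
      (fun k _ => hom_const_mul _ (hom_coord k))
  have h2 : Hom 0 1 (fun x => conj (ip x y)) := hom_conj h1
  have h3 := hom_const_mul (N y : ℂ)⁻¹ (hom_mul (hom_mul h1 h2) hom_Ninv)
  have h4 := hom_pow k h3
  have e : (fun x => ((vv x y ^ k : ℝ) : ℂ)) = fun x =>
      ((N y : ℂ)⁻¹ * (ip x y * conj (ip x y) * (N x : ℂ)⁻¹)) ^ k := by
    funext x
    rw [Complex.ofReal_pow, GrB_v]
  rw [e]
  norm_num at h4
  exact h4

theorem grad_v {x y : V} (hx : x ≠ 0) (hy : y ≠ 0) :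
    gr (fun x => ((vv x y : ℝ) : ℂ)) x = vv x y * (1 - vv x y) / N x := by
  have h1 := GrB_gr hx hy
  have h2 : ((gr (fun x => ((vv x y : ℝ) : ℂ)) x : ℝ) : ℂ) =
      ∑ j, dz j (fun x => ((vv x y : ℝ) : ℂ)) x * dzb j (fun x => ((vv x y : ℝ) : ℂ)) x := by
    unfold gr
    rw [Complex.ofReal_sum]
    refine Finset.sum_congr rfl fun j _ => ?_
    have h3 := conj_dz j (fun x => ((vv x y : ℝ) : ℂ)) x
    rw [GrB_conj] at h3
    rw [← Complex.mul_conj, h3]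
  rw [h1] at h2
  have h4 : ((gr (fun x => ((vv x y : ℝ) : ℂ)) x : ℝ) : ℂ) =
      ((vv x y * (1 - vv x y) / N x : ℝ) : ℂ) := by
    rw [h2]
    push_cast
    rw [div_eq_mul_inv]
  exact_mod_cast h4

theorem dz_vpow (j : Fin 3) {x y : V} (hx : x ≠ 0) (k : ℕ) :
    dz j (fun x => ((vv x y ^ (k + 1) : ℝ) : ℂ)) x =
      (((k : ℝ) + 1 : ℝ) : ℂ) * ((vv x y ^ k : ℝ) : ℂ) * dz j (fun x => ((vv x y : ℝ) : ℂ)) x := by
  have h1 : HasDerivAt (fun t : ℝ => t ^ (k + 1)) ((((k + 1 : ℕ) : ℝ)) * vv x y ^ k) (vv x y) := by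
    have := hasDerivAt_pow (k + 1) (vv x y)
    rwa [Nat.add_sub_cancel] at this
  have h2 := dz_comp_real j (g := fun t : ℝ => t ^ (k + 1)) (u := fun x => vv x y) h1 (GrB_diff hx)
  rw [h2]
  push_cast
  ring

theorem trL_vpow {x y : V} (hx : x ≠ 0) (hy : y ≠ 0) (k : ℕ) :
    (N x : ℂ) * (L (fun x => ((vv x y ^ (k + 1) : ℝ) : ℂ)) x).trace =
      (((((k : ℝ) + 1) ^ 2 * vv x y ^ k - ((k : ℝ) + 1) * ((k : ℝ) + 3) * vv x y ^ (k + 1) : ℝ)) : ℂ) := by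
  have hN := GrB_Nc hx
  have hb : ∀ (j : Fin 3) (z : V), z ≠ 0 → dzb j (fun x => ((vv x y ^ (k + 1) : ℝ) : ℂ)) z =
      (((k : ℝ) + 1 : ℝ) : ℂ) * (((vv z y ^ k : ℝ) : ℂ) * dzb j (fun x => ((vv x y : ℝ) : ℂ)) z) := by
    intro j z hz
    have h1 : HasDerivAt (fun t : ℝ => t ^ (k + 1)) ((((k + 1 : ℕ) : ℝ)) * vv z y ^ k) (vv z y) := by
      have := hasDerivAt_pow (k + 1) (vv z y)
      rwa [Nat.add_sub_cancel] at this
    have h2 := dzb_comp_real j (g := fun t : ℝ => t ^ (k + 1)) (u := fun x => vv x y) h1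
      (GrB_diff hz)
    rw [h2]
    push_cast
    ring
  have hH : Hom 0 0 (fun x => ((vv x y : ℝ) : ℂ)) := by
    have := isFun_iff.1 (isFun_vv y 1)
    simpa using this
  have hk1 : DifferentiableAt ℝ (fun x => ((vv x y ^ k : ℝ) : ℂ)) x :=
    (isFun_iff.1 (isFun_vv y k)).diffAt hx
  have hk2 : ∀ j, DifferentiableAt ℝ (dzb j (fun x => ((vv x y : ℝ) : ℂ))) x := fun j =>
    (dzb_hom j hH).diffAt hx
  have hj : ∀ j, L (fun x => ((vv x y ^ (k + 1) : ℝ) : ℂ)) x j j = (((k : ℝ) + 1 : ℝ) : ℂ) *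
      (dz j (fun x => ((vv x y ^ k : ℝ) : ℂ)) x * dzb j (fun x => ((vv x y : ℝ) : ℂ)) x +
        ((vv x y ^ k : ℝ) : ℂ) * dz j (dzb j (fun x => ((vv x y : ℝ) : ℂ))) x) := by
    intro j
    show dz j (dzb j (fun x => ((vv x y ^ (k + 1) : ℝ) : ℂ))) x = _
    rw [dz_congr j hx (hb j), dz_const_mul j _ (f := fun z => ((vv z y ^ k : ℝ) : ℂ) *
      dzb j (fun x => ((vv x y : ℝ) : ℂ)) z) (hk1.mul (hk2 j)), dz_mul j hk1 (hk2 j)]
  have hs : ∑ j, dz j (fun x => ((vv x y ^ k : ℝ) : ℂ)) x * dzb j (fun x => ((vv x y : ℝ) : ℂ)) x =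
      (k : ℂ) * ((vv x y : ℝ) : ℂ) ^ k * (1 - ((vv x y : ℝ) : ℂ)) * (N x : ℂ)⁻¹ := by
    cases k with
    | zero =>
      have e : (fun x => ((vv x y ^ 0 : ℝ) : ℂ)) = fun _ => (1 : ℂ) := by
        funext x
        simp
      rw [e]
      simp [dz_const]
    | succ k =>
      have e : ∀ j, dz j (fun x => ((vv x y ^ (k + 1) : ℝ) : ℂ)) x *
          dzb j (fun x => ((vv x y : ℝ) : ℂ)) x = ((k : ℂ) + 1) * ((vv x y : ℝ) : ℂ) ^ k *
          (dz j (fun x => ((vv x y : ℝ) : ℂ)) x * dzb j (fun x => ((vv x y : ℝ) : ℂ)) x) := by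
        intro j
        rw [dz_vpow j hx k]
        push_cast
        ring
      rw [Finset.sum_congr rfl fun j _ => e j, ← Finset.mul_sum, GrB_gr hx hy]
      push_cast
      ring
  have ht : (L (fun x => ((vv x y ^ (k + 1) : ℝ) : ℂ)) x).trace =
      ∑ j, L (fun x => ((vv x y ^ (k + 1) : ℝ) : ℂ)) x j j := rfl
  rw [ht, Finset.sum_congr rfl fun j _ => hj j, ← Finset.mul_sum, Finset.sum_add_distrib, hs,
    ← Finset.mul_sum, GrB_trL hx hy]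
  push_cast
  field_simp
  ring

end Pool.Agent.H85.DC
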