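import Pool.Agent.H85.DC.Ibp

/-!
# Row Sto1: Stokes, first identity

`s1gen`. Put `A x j k = dz j (β_k) x`, `a x j k = db ζ x j k = dzb k (ζ_j) x`.
`ee (A x) (a x) = tr A tr a - tr (A a) = ∑_{j,k} [dz j β_j * dzb k ζ_k - dz j β_k * dzb j ζ_k]`
(`tr (A a) = ∑_{j,k} A j k * a k j`, `a k j = dzb j ζ_k`).
Bidegrees: `dz j β_k : (-1,-1)`, `ζ_k : (-1,0)`, sum `-3 ≥ -4`.
`ibp_zb` in the direction `k` (derivative moved off `ζ_k`; use it with `f = ζ_k`, `g = dz j β_j`):
`∫ dzb k ζ_k * dz j β_j wt = -∫ ζ_k * dzb k (dz j β_j) wt + ∫ ζ_k * dz j β_j * x_k wt`; summed over `k` the last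
integrand is `dz j β_j * ∑ x_k ζ_k = 0` (`IsCov.kill`). Similarly in the direction `j`:
`∫ dzb j ζ_k * dz j β_k wt = -∫ ζ_k * dzb j (dz j β_k) wt + ∫ ζ_k * dz j β_k * x_j wt`; summed over `j` the last
one is `ζ_k * ∑_j x_j dz j β_k = ζ_k * 0` (Euler, `β_k : Hom 0 (-1)`).
Finally `dzb k (dz j β_j) = dz j (dzb k β_j) = dz j (dzb j β_k) = dzb j (dz j β_k)` off `0`
(`dz_dzb_comm`, hypothesis `hsym` and `dz_congr`), so everything cancels. All integrals converge
(`chom_integrable`), so sums and integrals can be exchanged (`integral_finsetSum`).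

`s1`: `β_k = dzb k u` (`Hom 0 (-1)`, symmetric by `dzb_dzb_comm`); `L u x j k = dz j (dzb k u) x`.
`s1W`: `β_k = x_k / N x` (`Hom 0 (-1)`; `dzb k (x_j / N) = -x_j x_k / N^2` symmetric;
`dz j (x_k / N) = δ_jk / N - x_k conj(x_j)/N^2 = Wm x j k` for `x ≠ 0`). (`qq` only sees `x ≠ 0`: `volume {0} = 0`.)
-/

open MeasureTheory
open scoped ContDiff BigOperators ComplexConjugate Matrix

namespace Pool.Agent.H85.DC

theorem Sto1_congr {f g : V → ℂ} (h : ∀ x : V, x ≠ 0 → f x = g x) : ∫ x, f x = ∫ x, g x := by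
  apply integral_congr_ae
  have h0 : ({0}ᶜ : Set V) ∈ ae (volume : Measure V) := compl_mem_ae_iff.2 (measure_singleton 0)
  filter_upwards [h0] with x hx
  exact h x hx

/-- `qq` depends only on the values off `0`. -/
theorem qq_congr {A A' B B' : V → M3} (hA : ∀ x : V, x ≠ 0 → A x = A' x)
    (hB : ∀ x : V, x ≠ 0 → B x = B' x) : qq A B = qq A' B' := by
  unfold qq
  apply Sto1_congr
  intro x hx
  rw [hA x hx, hB x hx]

theorem s1gen {β : V → V} (hβ : ∀ k, Hom 0 (-1) (fun x => β x k))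
    (hsym : ∀ (j k : Fin 3) (x : V), x ≠ 0 →
      dzb k (fun y => β y j) x = dzb j (fun y => β y k) x)
    {ζ : V → V} (hζ : IsCov ζ) :
    qq (fun x => fun j k => dz j (fun y => β y k) x) (db ζ) = 0 := by
  have hz : ∀ k, Hom (-1) 0 (fun x => ζ x k) := isCov_hom hζ
  have hb : ∀ j k, Hom (0 - 1) (-1) (dz j (fun y => β y k)) := fun j k => dz_hom j (hβ k)
  have hzd : ∀ j k, Hom (-1) (0 - 1) (dzb j (fun y => ζ y k)) := fun j k => dzb_hom j (hz k)
  have e1 : ∀ j k, ∫ x, dzb k (fun y => ζ y k) x * dz j (fun y => β y j) x * (wt x : ℂ) =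
      -(∫ x, ζ x k * dzb k (dz j (fun y => β y j)) x * (wt x : ℂ)) +
        ∫ x, ζ x k * dz j (fun y => β y j) x * x k * (wt x : ℂ) := fun j k =>
    ibp_zb (hz k) (hb j j) (by norm_num) k
  have e2 : ∀ j k, ∫ x, dzb j (fun y => ζ y k) x * dz j (fun y => β y k) x * (wt x : ℂ) =
      -(∫ x, ζ x k * dzb j (dz j (fun y => β y k)) x * (wt x : ℂ)) +
        ∫ x, ζ x k * dz j (fun y => β y k) x * x j * (wt x : ℂ) := fun j k =>
    ibp_zb (hz k) (hb j k) (by norm_num) j
  have i1 : ∀ j k, Integrable (fun x : V =>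
      dzb k (fun y => ζ y k) x * dz j (fun y => β y j) x * (wt x : ℂ)) := fun j k =>
    chom_integrable (hom_mul (hzd k k) (hb j j)).chom (by norm_num)
  have i2 : ∀ j k, Integrable (fun x : V =>
      dzb j (fun y => ζ y k) x * dz j (fun y => β y k) x * (wt x : ℂ)) := fun j k =>
    chom_integrable (hom_mul (hzd j k) (hb j k)).chom (by norm_num)
  have i4 : ∀ j k, Integrable (fun x : V =>
      ζ x k * dz j (fun y => β y j) x * x k * (wt x : ℂ)) := fun j k =>
    chom_integrable (hom_mul (hom_mul (hz k) (hb j j)) (hom_coord k)).chom (by norm_num)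
  have i5 : ∀ j k, Integrable (fun x : V =>
      ζ x k * dz j (fun y => β y k) x * x j * (wt x : ℂ)) := fun j k =>
    chom_integrable (hom_mul (hom_mul (hz k) (hb j k)) (hom_coord j)).chom (by norm_num)
  have e0 : qq (fun x => fun j k => dz j (fun y => β y k) x) (db ζ) = ∑ j, ∑ k,
      ((∫ x, dzb k (fun y => ζ y k) x * dz j (fun y => β y j) x * (wt x : ℂ)) -
        ∫ x, dzb j (fun y => ζ y k) x * dz j (fun y => β y k) x * (wt x : ℂ)) := by
    have h1 : ∀ x : V, ee (fun j k => dz j (fun y => β y k) x) (db ζ x) * (wt x : ℂ) =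
        ∑ j, ∑ k, (dzb k (fun y => ζ y k) x * dz j (fun y => β y j) x * (wt x : ℂ) -
          dzb j (fun y => ζ y k) x * dz j (fun y => β y k) x * (wt x : ℂ)) := by
      intro x
      unfold ee db
      simp only [Matrix.trace, Matrix.diag, Matrix.mul_apply, Fin.sum_univ_three]
      ring
    have i3 : ∀ j k, Integrable (fun x : V =>
        (dzb k (fun y => ζ y k) x * dz j (fun y => β y j) x * (wt x : ℂ) -
          dzb j (fun y => ζ y k) x * dz j (fun y => β y k) x * (wt x : ℂ))) := fun j k =>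
      (i1 j k).sub (i2 j k)
    unfold qq
    simp_rw [h1]
    rw [integral_finsetSum _ fun j _ => integrable_finsetSum _ fun k _ => i3 j k]
    refine Finset.sum_congr rfl fun j _ => ?_
    rw [integral_finsetSum _ fun k _ => i3 j k]
    refine Finset.sum_congr rfl fun k _ => ?_
    exact integral_sub (i1 j k) (i2 j k)
  have e3 : ∀ j k, ∫ x, ζ x k * dzb k (dz j (fun y => β y j)) x * (wt x : ℂ) =
      ∫ x, ζ x k * dzb j (dz j (fun y => β y k)) x * (wt x : ℂ) := by
    intro j k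
    apply Sto1_congr
    intro x hx
    have h1 := dz_dzb_comm j k (hβ j).smooth hx
    have h2 := dz_dzb_comm j j (hβ k).smooth hx
    have h3 : dz j (dzb k (fun y => β y j)) x = dz j (dzb j (fun y => β y k)) x :=
      dz_congr j hx fun y hy => hsym j k y hy
    rw [← h1, ← h2, h3]
  have e4 : ∀ j, ∑ k, ∫ x, ζ x k * dz j (fun y => β y j) x * x k * (wt x : ℂ) = 0 := by
    intro j
    rw [← integral_finsetSum _ fun k _ => i4 j k]
    rw [Sto1_congr (g := fun _ => 0)]
    · simp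
    · intro x hx
      have h1 := hζ.kill x hx
      have h2 : ∑ k, ζ x k * dz j (fun y => β y j) x * x k * (wt x : ℂ) =
          dz j (fun y => β y j) x * (wt x : ℂ) * ∑ k, x k * ζ x k := by
        rw [Finset.mul_sum]
        exact Finset.sum_congr rfl fun k _ => by ring
      rw [h2, h1, mul_zero]
  have e5 : ∀ k, ∑ j, ∫ x, ζ x k * dz j (fun y => β y k) x * x j * (wt x : ℂ) = 0 := by
    intro k
    rw [← integral_finsetSum _ fun j _ => i5 j k]
    rw [Sto1_congr (g := fun _ => 0)]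
    · simp
    · intro x hx
      have h1 := euler (hβ k) hx
      have h2 : ∑ j, ζ x k * dz j (fun y => β y k) x * x j * (wt x : ℂ) =
          ζ x k * (wt x : ℂ) * ∑ j, x j * dz j (fun y => β y k) x := by
        rw [Finset.mul_sum]
        exact Finset.sum_congr rfl fun k _ => by ring
      rw [h2, h1]
      simp
  rw [e0]
  have e6 : ∀ j k, ((∫ x, dzb k (fun y => ζ y k) x * dz j (fun y => β y j) x * (wt x : ℂ)) -
        ∫ x, dzb j (fun y => ζ y k) x * dz j (fun y => β y k) x * (wt x : ℂ)) =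
      (∫ x, ζ x k * dz j (fun y => β y j) x * x k * (wt x : ℂ)) -
        ∫ x, ζ x k * dz j (fun y => β y k) x * x j * (wt x : ℂ) := by
    intro j k
    rw [e1, e2, e3]
    ring
  simp_rw [e6, Finset.sum_sub_distrib, e4]
  rw [Finset.sum_comm]
  simp_rw [e5]
  simp

theorem s1 {u : V → ℂ} (hu : IsFun u) {ζ : V → V} (hζ : IsCov ζ) : qq (L u) (db ζ) = 0 := by
  have hu' := isFun_iff.1 hu
  have h := s1gen (β := fun x k => dzb k u x) (fun k => dzb_hom k hu')
    (fun j k x hx => dzb_dzb_comm k j hu.smooth hx) hζ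
  exact h

theorem Sto1_N {x : V} (hx : x ≠ 0) : (N x : ℂ) ≠ 0 := by
  exact_mod_cast (N_pos hx).ne'

theorem Wm_eq {x : V} (hx : x ≠ 0) (j k : Fin 3) :
    Wm x j k = dz j (fun y => y k / (N y : ℂ)) x := by
  have hN := Sto1_N hx
  have h1 : (fun y : V => y k / (N y : ℂ)) = fun y => y k * ((N y : ℂ))⁻¹ := by
    funext y
    rw [div_eq_mul_inv]
  rw [h1, dz_mul j ((hom_coord k).diffAt hx) (hom_Ninv.diffAt hx), dz_coord,
    dz_inv j (hom_N.diffAt hx) hN, dz_N]
  unfold Wm
  field_simp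
  ring

theorem s1W {ζ : V → V} (hζ : IsCov ζ) : qq Wm (db ζ) = 0 := by
  have h := s1gen (β := fun x k => x k / (N x : ℂ)) (fun k => by
      have h2 := hom_mul (hom_coord k) hom_Ninv
      simpa [div_eq_mul_inv] using h2)
    (fun j k x hx => by
      have hN := Sto1_N hx
      have h1 : ∀ i : Fin 3, (fun y : V => y i / (N y : ℂ)) = fun y => y i * ((N y : ℂ))⁻¹ := by
        intro i
        funext y
        rw [div_eq_mul_inv]
      simp only [h1]
      rw [dzb_mul k ((hom_coord j).diffAt hx) (hom_Ninv.diffAt hx), dzb_coord,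
        dzb_mul j ((hom_coord k).diffAt hx) (hom_Ninv.diffAt hx), dzb_coord,
        dzb_inv k (hom_N.diffAt hx) hN, dzb_inv j (hom_N.diffAt hx) hN, dzb_N, dzb_N]
      ring) hζ
  rw [← h]
  apply qq_congr
  · intro x hx
    ext j k
    exact Wm_eq hx j k
  · intro x hx
    rfl

end Pool.Agent.H85.DC
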