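import Pool.Agent.H85.DC.Ibp

/-!
# Row Sto2: Stokes for two covectors

`a_jk = dzb k ζ_j`, `b_jk = dzb k ξ_j`, `ζ_j, ξ_j : Hom (-1) 0`.

`s2`. `ee a b = ∑_{j,k} [dzb j ζ_j * dzb k ξ_k - dzb k ζ_j * dzb j ξ_k]`. Move the derivative off `ζ_j`
(`ibp_zb`, bidegree sum `-1 - 2 = -3`): first `= -∫ ζ_j dzb j (dzb k ξ_k) + ∫ ζ_j x_j dzb k ξ_k`, and
`∑_j x_j ζ_j = 0`; second `∫ dzb k ζ_j dzb j ξ_k = -∫ ζ_j dzb k (dzb j ξ_k) + ∫ ζ_j x_k dzb j ξ_k`, and
`∑_k x_k dzb j ξ_k = dzb j (∑_k x_k ξ_k) = 0`. Cancel by `dzb_dzb_comm`.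

`s2c`. `(db ζ x)ᴴ k j = conj (dzb k ζ_j)`, `conj (dzb k ζ_j) = dz k (conj ζ_j)`. So
`ee a aᴴ = |tr a|^2 - ∑ |a_jk|^2 = ∑_{j,k} [dzb j ζ_j * dz k (conj ζ_k) - dzb k ζ_j * dz k (conj ζ_j)]`.
(1) `∫ dzb j ζ_j * dz k ζ̄_k = -∫ ζ_j dzb j (dz k ζ̄_k) + ∫ ζ_j x_j dz k ζ̄_k`; sum over `j` of the last is `0`.
`-∫ ζ_j dz k (dzb j ζ̄_k) = ∫ dz k ζ_j * dzb j ζ̄_k - ∫ ζ_j (dzb j ζ̄_k) conj(x_k)` (`ibp_z` with `f = dzb j ζ̄_k`,
`g = ζ_j`, bidegree sum `-3`); `∑_k conj(x_k) dzb j ζ̄_k = conj (∑_k x_k dz j ζ_k) = conj (dz j (∑_k x_k ζ_k) - ζ_j)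
= - conj ζ_j`. So the sum of (1) over `j,k` is `∑_{j,k} ∫ dz k ζ_j * conj (dz j ζ_k) + ∑_j ∫ |ζ_j|^2`
(`dzb j ζ̄_k = conj (dz j ζ_k)`).
(2) `∫ dzb k ζ_j * dz k ζ̄_j = -∫ ζ_j dzb k (dz k ζ̄_j) + ∫ ζ_j x_k dz k ζ̄_j`; `∑_k x_k dz k ζ̄_j = 0` (Euler, `ζ̄_j : Hom 0 (-1)`).
`-∫ ζ_j dz k (dzb k ζ̄_j) = ∫ dz k ζ_j * dzb k ζ̄_j - ∫ ζ_j (dzb k ζ̄_j) conj(x_k)`, `∑_k conj(x_k) dzb k ζ̄_j = - ζ̄_j`
(Euler). So the sum of (2) is `∑_{j,k} ∫ |dz k ζ_j|^2 + ∑_j ∫ |ζ_j|^2`.
(1) - (2) `= ∑_{j,k} ∫ (dz k ζ_j conj(dz j ζ_k) - |dz k ζ_j|^2) = -(1/2) ∫ ∑_{j,k} |dz k ζ_j - dz j ζ_k|^2`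
(expand; `∑_{j,k} dz k ζ_j conj (dz j ζ_k)` is real since exchanging `j,k` conjugates it).

`curl_integrable`: each term is `(-2,0)`-homogeneous times its conjugate: bidegree sum `-4`.
-/

open MeasureTheory
open scoped ContDiff BigOperators ComplexConjugate Matrix

namespace Pool.Agent.H85.DC

theorem Sto2_ne : ∀ᵐ x : V, x ≠ 0 := compl_mem_ae_iff.2 (measure_singleton (0 : V))

theorem Sto2_ee (A B : M3) : ee A B = ∑ j, ∑ k, (A j j * B k k - A j k * B k j) := by
  unfold ee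
  simp only [Matrix.trace, Matrix.diag, Matrix.mul_apply, Finset.sum_mul_sum,
    Finset.sum_sub_distrib]

theorem Sto2_dsum {F G : Fin 3 → Fin 3 → V → ℂ} (hF : ∀ j k, Integrable (F j k))
    (hG : ∀ j k, Integrable (G j k)) : ∫ x, (∑ j, ∑ k, (F j k x - G j k x)) =
      ∑ j, ∑ k, ((∫ x, F j k x) - ∫ x, G j k x) := by
  have h : ∀ j k, Integrable (fun x => F j k x - G j k x) := fun j k => (hF j k).sub (hG j k)
  rw [integral_finsetSum _ fun j _ => integrable_finsetSum _ fun k _ => h j k]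
  refine Finset.sum_congr rfl fun j _ => ?_
  rw [integral_finsetSum _ fun k _ => h j k]
  exact Finset.sum_congr rfl fun k _ => integral_sub (hF j k) (hG j k)

theorem Sto2_qq {A B : V → M3} (h1 : ∀ j k, Integrable (fun x => A x j j * B x k k * (wt x : ℂ)))
    (h2 : ∀ j k, Integrable (fun x => A x j k * B x k j * (wt x : ℂ))) :
    qq A B = ∑ j, ∑ k, ((∫ x, A x j j * B x k k * (wt x : ℂ)) -
      ∫ x, A x j k * B x k j * (wt x : ℂ)) := by
  unfold qq
  have e : ∀ x, ee (A x) (B x) * (wt x : ℂ) = ∑ j, ∑ k, (A x j j * B x k k * (wt x : ℂ) -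
      A x j k * B x k j * (wt x : ℂ)) := by
    intro x
    rw [Sto2_ee, Finset.sum_mul]
    refine Finset.sum_congr rfl fun j _ => ?_
    rw [Finset.sum_mul]
    refine Finset.sum_congr rfl fun k _ => ?_
    ring
  simp only [e]
  exact Sto2_dsum h1 h2

theorem Sto2_int {a b c d : ℤ} {f g : V → ℂ} (hf : Hom a b f) (hg : Hom c d g)
    (h : -5 ≤ a + b + c + d) : Integrable (fun x => f x * g x * (wt x : ℂ)) :=
  chom_integrable (hom_mul hf hg).chom (by omega)

/-- `∑ j ∫ F j = 0` if the pointwise sum vanishes off `0`. -/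
theorem Sto2_zero {F : Fin 3 → V → ℂ} (hF : ∀ j, Integrable (F j))
    (h : ∀ x : V, x ≠ 0 → ∑ j, F j x = 0) : ∑ j, ∫ x, F j x = 0 := by
  rw [← integral_finsetSum _ fun j _ => hF j]
  have h2 : (fun x => ∑ j, F j x) =ᵐ[volume] fun _ => (0 : ℂ) := by
    filter_upwards [Sto2_ne] with x hx
    exact h x hx
  rw [integral_congr_ae h2]
  simp

theorem Sto2_covA {ξ : V → V} (hξ : IsCov ξ) (j : Fin 3) {x : V} (hx : x ≠ 0) :
    ∑ k, x k * dzb j (fun y => ξ y k) x = 0 := by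
  have hd : ∀ k, DifferentiableAt ℝ (fun y : V => ξ y k) x := fun k => (isCov_hom hξ k).diffAt hx
  have hc : ∀ k, DifferentiableAt ℝ (fun y : V => y k) x := fun k => (hom_coord k).diffAt hx
  have h1 : dzb j (fun y => ∑ k, y k * ξ y k) x = 0 := by
    rw [dzb_congr j hx (g := fun _ => 0) (fun y hy => hξ.kill y hy), dzb_const]
  have hm : ∀ k, DifferentiableAt ℝ (fun y : V => y k * ξ y k) x := fun k => (hc k).mul (hd k)
  rw [dzb_sum j Finset.univ (fun k y => y k * ξ y k) (fun k _ => hm k)] at h1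
  rw [← h1]
  refine Finset.sum_congr rfl fun k _ => ?_
  rw [dzb_mul j (hc k) (hd k), dzb_coord, zero_mul, zero_add]

theorem Sto2_covB {ξ : V → V} (hξ : IsCov ξ) (j : Fin 3) {x : V} (hx : x ≠ 0) :
    ∑ k, x k * dz j (fun y => ξ y k) x = -ξ x j := by
  have hd : ∀ k, DifferentiableAt ℝ (fun y : V => ξ y k) x := fun k => (isCov_hom hξ k).diffAt hx
  have hc : ∀ k, DifferentiableAt ℝ (fun y : V => y k) x := fun k => (hom_coord k).diffAt hx
  have h1 : dz j (fun y => ∑ k, y k * ξ y k) x = 0 := by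
    rw [dz_congr j hx (g := fun _ => 0) (fun y hy => hξ.kill y hy), dz_const]
  have hm : ∀ k, DifferentiableAt ℝ (fun y : V => y k * ξ y k) x := fun k => (hc k).mul (hd k)
  rw [dz_sum j Finset.univ (fun k y => y k * ξ y k) (fun k _ => hm k)] at h1
  have h2 : ∀ k, dz j (fun y : V => y k * ξ y k) x =
      (if j = k then ξ x k else 0) + x k * dz j (fun y => ξ y k) x := by
    intro k
    rw [dz_mul j (hc k) (hd k), dz_coord]
    split_ifs <;> ring
  simp only [h2] at h1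
  rw [Finset.sum_add_distrib, Finset.sum_ite_eq] at h1
  simp only [Finset.mem_univ, if_true] at h1
  linear_combination h1

theorem s2 {ζ ξ : V → V} (hζ : IsCov ζ) (hξ : IsCov ξ) : qq (db ζ) (db ξ) = 0 := by
  have hz := isCov_hom hζ
  have hw := isCov_hom hξ
  have hzb : ∀ j k, Hom (-1) (0 - 1) (dzb k (fun y => ζ y j)) := fun j k => dzb_hom k (hz j)
  have hwb : ∀ j k, Hom (-1) (0 - 1) (dzb k (fun y => ξ y j)) := fun j k => dzb_hom k (hw j)
  have hqq := Sto2_qq (A := db ζ) (B := db ξ)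
    (fun j k => Sto2_int (hzb j j) (hwb k k) (by norm_num))
    (fun j k => Sto2_int (hzb j k) (hwb k j) (by norm_num))
  rw [hqq]
  have e : ∀ j k : Fin 3, (∫ x, db ζ x j j * db ξ x k k * (wt x : ℂ)) -
      (∫ x, db ζ x j k * db ξ x k j * (wt x : ℂ)) =
      (∫ x, ζ x j * dzb k (fun y => ξ y k) x * x j * (wt x : ℂ)) -
      ∫ x, ζ x j * dzb j (fun y => ξ y k) x * x k * (wt x : ℂ) := by
    intro j k
    have h1 := ibp_zb (hz j) (hwb k k) (by norm_num) j
    have h2 := ibp_zb (hz j) (hwb k j) (by norm_num) k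
    have h3 : ∫ x, ζ x j * dzb j (dzb k (fun y => ξ y k)) x * (wt x : ℂ) =
        ∫ x, ζ x j * dzb k (dzb j (fun y => ξ y k)) x * (wt x : ℂ) := by
      refine integral_congr_ae ?_
      filter_upwards [Sto2_ne] with x hx
      rw [dzb_dzb_comm j k (hw k).smooth hx]
    change (∫ x, dzb j (fun y => ζ y j) x * dzb k (fun y => ξ y k) x * (wt x : ℂ)) -
      (∫ x, dzb k (fun y => ζ y j) x * dzb j (fun y => ξ y k) x * (wt x : ℂ)) = _
    rw [h1, h2, h3]
    ring
  simp only [e]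
  simp only [Finset.sum_sub_distrib]
  rw [Finset.sum_comm]
  have e1 : ∀ k : Fin 3, ∑ j, ∫ x, ζ x j * dzb k (fun y => ξ y k) x * x j * (wt x : ℂ) = 0 := by
    intro k
    refine Sto2_zero (fun j => Sto2_int (hom_mul (hz j) (hwb k k)) (hom_coord j) (by norm_num))
      fun x hx => ?_
    have h := hζ.kill x hx
    calc ∑ j, ζ x j * dzb k (fun y => ξ y k) x * x j * (wt x : ℂ)
        = (∑ j, x j * ζ x j) * (dzb k (fun y => ξ y k) x * (wt x : ℂ)) := by
          rw [Finset.sum_mul]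
          exact Finset.sum_congr rfl fun j _ => by ring
      _ = 0 := by rw [h, zero_mul]
  have e2 : ∀ j : Fin 3, ∑ k, ∫ x, ζ x j * dzb j (fun y => ξ y k) x * x k * (wt x : ℂ) = 0 := by
    intro j
    refine Sto2_zero (fun k => Sto2_int (hom_mul (hz j) (hwb k j)) (hom_coord k) (by norm_num))
      fun x hx => ?_
    have h := Sto2_covA hξ j hx
    calc ∑ k, ζ x j * dzb j (fun y => ξ y k) x * x k * (wt x : ℂ)
        = (∑ k, x k * dzb j (fun y => ξ y k) x) * (ζ x j * (wt x : ℂ)) := by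
          rw [Finset.sum_mul]
          exact Finset.sum_congr rfl fun k _ => by ring
      _ = 0 := by rw [h, zero_mul]
  rw [Finset.sum_eq_zero fun k _ => e1 k, Finset.sum_eq_zero fun j _ => e2 j, sub_zero]

/-- The components of the exterior derivative. -/
theorem Sto2_curlHom {ζ : V → V} (hζ : IsCov ζ) (j k : Fin 3) :
    Hom (-1 - 1) 0 (fun x => dz k (fun y => ζ y j) x - dz j (fun y => ζ y k) x) := by
  have h := hom_add (dz_hom k (isCov_hom hζ j)) (hom_neg (dz_hom j (isCov_hom hζ k)))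
  simpa only [sub_eq_add_neg] using h

theorem Sto2_curl {ζ : V → V} (x : V) : (curl ζ x : ℂ) =
    ∑ j, ∑ k, (dz k (fun y => ζ y j) x - dz j (fun y => ζ y k) x) *
      conj (dz k (fun y => ζ y j) x - dz j (fun y => ζ y k) x) := by
  unfold curl
  push_cast
  simp only [Complex.mul_conj]

theorem Sto2_curlInt {ζ : V → V} (hζ : IsCov ζ) :
    Integrable (fun x => (curl ζ x : ℂ) * (wt x : ℂ)) := by
  have e : (fun x => (curl ζ x : ℂ) * (wt x : ℂ)) = fun x => ∑ j, ∑ k,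
      ((dz k (fun y => ζ y j) x - dz j (fun y => ζ y k) x) *
      conj (dz k (fun y => ζ y j) x - dz j (fun y => ζ y k) x) * (wt x : ℂ)) := by
    funext x
    rw [Sto2_curl, Finset.sum_mul]
    refine Finset.sum_congr rfl fun j _ => ?_
    rw [Finset.sum_mul]
  rw [e]
  refine integrable_finsetSum _ fun j _ => integrable_finsetSum _ fun k _ => ?_
  exact Sto2_int (Sto2_curlHom hζ j k) (hom_conj (Sto2_curlHom hζ j k)) (by norm_num)

theorem curl_integrable {ζ : V → V} (hζ : IsCov ζ) : Integrable (fun x => curl ζ x * wt x) := by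
  have h := (Sto2_curlInt hζ).re
  refine h.congr (Filter.Eventually.of_forall fun x => ?_)
  change ((curl ζ x : ℂ) * (wt x : ℂ)).re = curl ζ x * wt x
  rw [← Complex.ofReal_mul, Complex.ofReal_re]

theorem s2c {ζ : V → V} (hζ : IsCov ζ) :
    qq (db ζ) (fun x => (db ζ x)ᴴ) = ((-(1 / 2) * ∫ x, curl ζ x * wt x : ℝ) : ℂ) := by
  have hz := isCov_hom hζ
  have hc : ∀ k, Hom 0 (-1) (fun x => conj (ζ x k)) := fun k => hom_conj (hz k)
  have hzb : ∀ j k, Hom (-1) (0 - 1) (dzb k (fun y => ζ y j)) := fun j k => dzb_hom k (hz j)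
  have hzd : ∀ j k, Hom (-1 - 1) 0 (dz k (fun y => ζ y j)) := fun j k => dz_hom k (hz j)
  have hcd : ∀ j k, Hom (0 - 1) (-1) (dz k (fun y => conj (ζ y j))) := fun j k => dz_hom k (hc j)
  have hcb : ∀ j k, Hom 0 (-1 - 1) (dzb k (fun y => conj (ζ y j))) := fun j k => dzb_hom k (hc j)
  have hB : ∀ (x : V) (j k : Fin 3), (db ζ x)ᴴ k j = dz k (fun y => conj (ζ y j)) x := by
    intro x j k
    rw [Matrix.conjTranspose_apply]
    change conj (dzb k (fun y => ζ y j) x) = _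
    rw [conj_dzb]
  rw [Sto2_qq (fun j k => by simp only [hB]; exact Sto2_int (hzb j j) (hcd k k) (by norm_num))
    (fun j k => by simp only [hB]; exact Sto2_int (hzb j k) (hcd j k) (by norm_num))]
  simp only [hB]
  -- (1)
  have k1 : ∀ j k : Fin 3, ∫ x, db ζ x j j * dz k (fun y => conj (ζ y k)) x * (wt x : ℂ) =
      (∫ x, dzb j (fun y => conj (ζ y k)) x * dz k (fun y => ζ y j) x * (wt x : ℂ)) -
      (∫ x, dzb j (fun y => conj (ζ y k)) x * ζ x j * conj (x k) * (wt x : ℂ)) +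
      ∫ x, ζ x j * dz k (fun y => conj (ζ y k)) x * x j * (wt x : ℂ) := by
    intro j k
    have h1 := ibp_zb (hz j) (hcd k k) (by norm_num) j
    have h2 := ibp_z (hcb k j) (hz j) (by norm_num) k
    have h3 : ∫ x, ζ x j * dzb j (dz k (fun y => conj (ζ y k))) x * (wt x : ℂ) =
        ∫ x, dz k (dzb j (fun y => conj (ζ y k))) x * ζ x j * (wt x : ℂ) := by
      refine integral_congr_ae ?_
      filter_upwards [Sto2_ne] with x hx
      rw [dz_dzb_comm k j (hc k).smooth hx]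
      ring
    change ∫ x, dzb j (fun y => ζ y j) x * dz k (fun y => conj (ζ y k)) x * (wt x : ℂ) = _
    rw [h1, h3, h2]
    ring
  have k2 : ∀ j k : Fin 3, ∫ x, db ζ x j k * dz k (fun y => conj (ζ y j)) x * (wt x : ℂ) =
      (∫ x, dzb k (fun y => conj (ζ y j)) x * dz k (fun y => ζ y j) x * (wt x : ℂ)) -
      (∫ x, dzb k (fun y => conj (ζ y j)) x * ζ x j * conj (x k) * (wt x : ℂ)) +
      ∫ x, ζ x j * dz k (fun y => conj (ζ y j)) x * x k * (wt x : ℂ) := by
    intro j k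
    have h1 := ibp_zb (hz j) (hcd j k) (by norm_num) k
    have h2 := ibp_z (hcb j k) (hz j) (by norm_num) k
    have h3 : ∫ x, ζ x j * dzb k (dz k (fun y => conj (ζ y j))) x * (wt x : ℂ) =
        ∫ x, dz k (dzb k (fun y => conj (ζ y j))) x * ζ x j * (wt x : ℂ) := by
      refine integral_congr_ae ?_
      filter_upwards [Sto2_ne] with x hx
      rw [dz_dzb_comm k k (hc j).smooth hx]
      ring
    change ∫ x, dzb k (fun y => ζ y j) x * dz k (fun y => conj (ζ y j)) x * (wt x : ℂ) = _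
    rw [h1, h3, h2]
    ring
  simp only [k1, k2]
  -- the terms with coordinates
  have hint1 : ∀ j k : Fin 3, Integrable fun x => dzb j (fun y => conj (ζ y k)) x * ζ x j *
      conj (x k) * (wt x : ℂ) := fun j k =>
    Sto2_int (hom_mul (hcb k j) (hz j)) (hom_conj_coord k) (by norm_num)
  have hint2 : ∀ j k : Fin 3, Integrable fun x => dzb k (fun y => conj (ζ y j)) x * ζ x j *
      conj (x k) * (wt x : ℂ) := fun j k =>
    Sto2_int (hom_mul (hcb j k) (hz j)) (hom_conj_coord k) (by norm_num)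
  have t1 : ∀ j : Fin 3, ∑ k, ∫ x, dzb j (fun y => conj (ζ y k)) x * ζ x j * conj (x k) * (wt x : ℂ) =
      ∑ k, ∫ x, dzb k (fun y => conj (ζ y j)) x * ζ x j * conj (x k) * (wt x : ℂ) := by
    intro j
    rw [← integral_finsetSum _ fun k _ => hint1 j k, ← integral_finsetSum _ fun k _ => hint2 j k]
    refine integral_congr_ae ?_
    filter_upwards [Sto2_ne] with x hx
    have h1 : ∑ k, conj (x k) * dzb j (fun y => conj (ζ y k)) x = -conj (ζ x j) := by
      have h := congrArg conj (Sto2_covB hζ j hx)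
      rw [map_sum, map_neg] at h
      rw [← h]
      refine Finset.sum_congr rfl fun k _ => ?_
      rw [map_mul, conj_dz]
    have h2 : ∑ k, conj (x k) * dzb k (fun y => conj (ζ y j)) x = -conj (ζ x j) := by
      rw [eulerb (hc j) hx]
      push_cast
      ring
    calc ∑ k, dzb j (fun y => conj (ζ y k)) x * ζ x j * conj (x k) * (wt x : ℂ)
        = (∑ k, conj (x k) * dzb j (fun y => conj (ζ y k)) x) * (ζ x j * (wt x : ℂ)) := by
          rw [Finset.sum_mul]
          exact Finset.sum_congr rfl fun k _ => by ring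
      _ = (∑ k, conj (x k) * dzb k (fun y => conj (ζ y j)) x) * (ζ x j * (wt x : ℂ)) := by
          rw [h1, h2]
      _ = ∑ k, dzb k (fun y => conj (ζ y j)) x * ζ x j * conj (x k) * (wt x : ℂ) := by
          rw [Finset.sum_mul]
          exact Finset.sum_congr rfl fun k _ => by ring
  have t2 : ∀ k : Fin 3, ∑ j, ∫ x, ζ x j * dz k (fun y => conj (ζ y k)) x * x j * (wt x : ℂ) = 0 := by
    intro k
    refine Sto2_zero (fun j => Sto2_int (hom_mul (hz j) (hcd k k)) (hom_coord j) (by norm_num))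
      fun x hx => ?_
    have h := hζ.kill x hx
    calc ∑ j, ζ x j * dz k (fun y => conj (ζ y k)) x * x j * (wt x : ℂ)
        = (∑ j, x j * ζ x j) * (dz k (fun y => conj (ζ y k)) x * (wt x : ℂ)) := by
          rw [Finset.sum_mul]
          exact Finset.sum_congr rfl fun j _ => by ring
      _ = 0 := by rw [h, zero_mul]
  have t3 : ∀ j : Fin 3, ∑ k, ∫ x, ζ x j * dz k (fun y => conj (ζ y j)) x * x k * (wt x : ℂ) = 0 := by
    intro j
    refine Sto2_zero (fun k => Sto2_int (hom_mul (hz j) (hcd j k)) (hom_coord k) (by norm_num))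
      fun x hx => ?_
    have h := euler (hc j) hx
    calc ∑ k, ζ x j * dz k (fun y => conj (ζ y j)) x * x k * (wt x : ℂ)
        = (∑ k, x k * dz k (fun y => conj (ζ y j)) x) * (ζ x j * (wt x : ℂ)) := by
          rw [Finset.sum_mul]
          exact Finset.sum_congr rfl fun k _ => by ring
      _ = 0 := by rw [h]; push_cast; ring
  have t2' : ∑ j : Fin 3, ∑ k : Fin 3,
      ∫ x, ζ x j * dz k (fun y => conj (ζ y k)) x * x j * (wt x : ℂ) = 0 := by
    rw [Finset.sum_comm]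
    exact Finset.sum_eq_zero fun k _ => t2 k
  have hi1 : ∀ j k : Fin 3, Integrable fun x => dzb j (fun y => conj (ζ y k)) x *
      dz k (fun y => ζ y j) x * (wt x : ℂ) := fun j k =>
    Sto2_int (hcb k j) (hzd j k) (by norm_num)
  have hi2 : ∀ j k : Fin 3, Integrable fun x => dzb k (fun y => conj (ζ y j)) x *
      dz k (fun y => ζ y j) x * (wt x : ℂ) := fun j k =>
    Sto2_int (hcb j k) (hzd j k) (by norm_num)
  have e1 : ∑ j : Fin 3, ∑ k : Fin 3,
      (((∫ x, dzb j (fun y => conj (ζ y k)) x * dz k (fun y => ζ y j) x * (wt x : ℂ)) -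
      (∫ x, dzb j (fun y => conj (ζ y k)) x * ζ x j * conj (x k) * (wt x : ℂ)) +
      ∫ x, ζ x j * dz k (fun y => conj (ζ y k)) x * x j * (wt x : ℂ)) -
      ((∫ x, dzb k (fun y => conj (ζ y j)) x * dz k (fun y => ζ y j) x * (wt x : ℂ)) -
      (∫ x, dzb k (fun y => conj (ζ y j)) x * ζ x j * conj (x k) * (wt x : ℂ)) +
      ∫ x, ζ x j * dz k (fun y => conj (ζ y j)) x * x k * (wt x : ℂ))) =
      ∑ j : Fin 3, ∑ k : Fin 3,
      ((∫ x, dzb j (fun y => conj (ζ y k)) x * dz k (fun y => ζ y j) x * (wt x : ℂ)) -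
      ∫ x, dzb k (fun y => conj (ζ y j)) x * dz k (fun y => ζ y j) x * (wt x : ℂ)) := by
    simp only [Finset.sum_sub_distrib, Finset.sum_add_distrib, t1, t2', t3]
    simp only [Finset.sum_const_zero]
    ring
  rw [e1]
  rw [← Sto2_dsum hi1 hi2]
  have e4 : ∀ x : V, ∑ j : Fin 3, ∑ k : Fin 3,
        (dzb j (fun y => conj (ζ y k)) x * dz k (fun y => ζ y j) x * (wt x : ℂ) -
        dzb k (fun y => conj (ζ y j)) x * dz k (fun y => ζ y j) x * (wt x : ℂ)) =
      ((-(1 / 2) * (curl ζ x * wt x) : ℝ) : ℂ) := by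
    intro x
    have h1 : ∀ j k : Fin 3, dzb j (fun y => conj (ζ y k)) x = conj (dz j (fun y => ζ y k) x) :=
      fun j k => (conj_dz j _ x).symm
    simp only [h1]
    push_cast
    rw [Sto2_curl]
    simp only [Fin.sum_univ_three, map_sub]
    ring
  simp only [e4]
  rw [integral_complex_ofReal, integral_const_mul]

end Pool.Agent.H85.DC
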