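import Pool.Agent.H85.DC.Sto1

/-!
# Row Sto3: the third Stokes identity

`IsFun` functions are `Hom 0 0`, closed under products (`isFun_iff`, `hom_mul`).
For real conic `F, u` (all off `0`): the covector `ζ = u ∂F`, `ζ_j = u * dz j F`, is `IsCov` (`∑ x_j dz j F = 0`,
Euler) and `db ζ x j k = dzb k u * dz j F + u * dz_j dzb_k F`, i.e. `db (u ∂F) = u L F + (dz j F dzb k u)_jk`
(`dz_dzb_comm`). Conjugate transpose of `db (F ∂u)`: entry `(j,k)` is `conj (dzb j F * dz k u + F dzb j (dz k u))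
= dz j F * dzb k u + F * dz_j dzb_k u` (`conj_dz`, `F`, `u` real: `conj (F y) = F y` for all `y`).
So `u L F - F L u = db (u ∂F) - (db (F ∂u))ᴴ` off `0`.

`qq (L v) (aᴴ) = conj (qq (L v) a)` for real `v`: `ee (Aᴴ) (Bᴴ) = conj (ee A B)`, `(L v x)ᴴ = L v x` off `0`
(`dz_dzb_comm`, reality), `integral_conj`. Hence by `s1` for real conic `v`: `qq (L v) (u L F - F L u) = 0`, i.e.
(*) `∫ u ee (L v) (L F) wt = ∫ F ee (L v) (L u) wt` for all real conic `F, u, v`.

Then `L (u*u) = 2 u L u + 2 du2 u` off `0` (`dz j (dzb k (u^2)) = dz j (2 u dzb k u)`; the matrix is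
`2 dz j u dzb k u + 2 u dz_j dzb_k u`). And `qq (L F) (L w) = 0` for conic `F, w` (`s1` with `ζ = ∂w`,
`db (∂w) = L w` by commutation): so `0 = ∫ ee (L F) (L (u*u)) wt`, hence
`-∫ ee (L F) (du2 u) wt = ∫ u ee (L F) (L u) wt = ∫ F ee (L u) (L u) wt`, the last step by (*) with `v = u`
and symmetry of `ee`. Integrability of all terms: entries are of bidegree `(-1,-1)` each, sums `-4 ≥ -5`.
-/

open MeasureTheory
open scoped ContDiff BigOperators ComplexConjugate Matrix

namespace Pool.Agent.H85.DC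

/-- covectors from homogeneous components -/
theorem Sto3_cov {w : V → V} (hw : ∀ j, Hom (-1) 0 (fun x => w x j))
    (hk : ∀ x : V, x ≠ 0 → ∑ j, x j * w x j = 0) : IsCov w := by
  refine ⟨?_, ?_, hk⟩
  · rw [contDiffOn_pi]
    exact fun j => (hw j).smooth
  · intro l x hl
    funext j
    have h1 := (hw j).hom l x hl
    simp only [zpow_neg_one, zpow_zero, mul_one] at h1
    rw [Pi.smul_apply, smul_eq_mul]
    exact h1

theorem Sto3_dz {u : V → ℂ} (hu : IsFun u) (j : Fin 3) : Hom (-1) 0 (dz j u) := by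
  have h := dz_hom j (isFun_iff.1 hu)
  exact h

theorem Sto3_dzb {u : V → ℂ} (hu : IsFun u) (j : Fin 3) : Hom 0 (-1) (dzb j u) := by
  have h := dzb_hom j (isFun_iff.1 hu)
  exact h

/-- the covector `u ∂F` -/
theorem Sto3_covm {F u : V → ℂ} (hF : IsFun F) (hu : IsFun u) :
    IsCov (fun x j => u x * dz j F x) := by
  refine Sto3_cov (fun j => ?_) (fun x hx => ?_)
  · have h := hom_mul (isFun_iff.1 hu) (Sto3_dz hF j)
    simp only [zero_add] at h
    exact h
  · have h := euler (isFun_iff.1 hF) hx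
    simp only [Int.cast_zero, zero_mul] at h
    have h2 : ∑ j, x j * (u x * dz j F x) = u x * ∑ j, x j * dz j F x := by
      rw [Finset.mul_sum]
      exact Finset.sum_congr rfl (fun j _ => by ring)
    rw [h2, h, mul_zero]

theorem Sto3_cov1 {u : V → ℂ} (hu : IsFun u) : IsCov (fun x j => dz j u x) := by
  refine Sto3_cov (fun j => Sto3_dz hu j) (fun x hx => ?_)
  have h := euler (isFun_iff.1 hu) hx
  simp only [Int.cast_zero, zero_mul] at h
  exact h

theorem qLL {u v : V → ℂ} (hu : IsFun u) (hv : IsFun v) : qq (L u) (L v) = 0 := by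
  have h := s1 hu (Sto3_cov1 hv)
  rw [← h]
  refine qq_congr (fun x _ => rfl) (fun x hx => ?_)
  funext j k
  change dz j (dzb k v) x = dzb k (fun y => dz j v y) x
  exact dz_dzb_comm j k hv.smooth hx

theorem Sto3_hermL {v : V → ℂ} (hv : IsFun v) (rv : IsRe v) {x : V} (hx : x ≠ 0) :
    (L v x)ᴴ = L v x := by
  funext j k
  rw [Matrix.conjTranspose_apply]
  change conj (dz k (dzb j v) x) = dz j (dzb k v) x
  have h1 : (fun y => conj (v y)) = v := funext rv
  rw [conj_dz]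
  have h2 : (fun y => conj (dzb j v y)) = dz j v := by
    funext y
    rw [conj_dzb, h1]
  rw [h2]
  exact (dz_dzb_comm j k hv.smooth hx).symm

theorem Sto3_ee_conj (A B : M3) : ee Aᴴ Bᴴ = conj (ee A B) := by
  unfold ee
  rw [Matrix.trace_conjTranspose, Matrix.trace_conjTranspose, ← Matrix.conjTranspose_mul,
    Matrix.trace_conjTranspose, map_sub, map_mul, Matrix.trace_mul_comm B A]
  rfl

theorem Sto3_qq_conj (A B : V → M3) : qq (fun x => (A x)ᴴ) (fun x => (B x)ᴴ) = conj (qq A B) := by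
  unfold qq
  rw [← integral_conj]
  congr 1
  funext x
  rw [Sto3_ee_conj, map_mul, Complex.conj_ofReal]

theorem Sto3_conj {v : V → ℂ} (hv : IsFun v) (rv : IsRe v) {ζ : V → V} (hζ : IsCov ζ) :
    qq (L v) (fun x => (db ζ x)ᴴ) = 0 := by
  have h1 : qq (L v) (fun x => (db ζ x)ᴴ) = qq (fun x => (L v x)ᴴ) (fun x => (db ζ x)ᴴ) :=
    qq_congr (fun x hx => (Sto3_hermL hv rv hx).symm) (fun x _ => rfl)
  rw [h1, Sto3_qq_conj, s1 hv hζ, map_zero]

theorem Sto3_ee_eq (A B : M3) :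
    ee A B = ∑ j, ∑ k, (A j j * B k k + (-1) * (A j k * B k j)) := by
  unfold ee Matrix.trace
  simp only [Matrix.diag_apply, Matrix.mul_apply]
  rw [Finset.sum_mul_sum, ← Finset.sum_sub_distrib]
  refine Finset.sum_congr rfl (fun j _ => ?_)
  rw [← Finset.sum_sub_distrib]
  refine Finset.sum_congr rfl (fun k _ => ?_)
  ring

/-- the wedge product of two matrices with entries of bidegree `(-1,-1)` -/
theorem Sto3_ee_hom {A B : V → M3} (hA : ∀ j k, Hom (-1) (-1) (fun x => A x j k))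
    (hB : ∀ j k, Hom (-1) (-1) (fun x => B x j k)) :
    Hom (-2) (-2) (fun x => ee (A x) (B x)) := by
  have h1 : (fun x => ee (A x) (B x)) = fun x =>
      ∑ j, ∑ k, (A x j j * B x k k + (-1) * (A x j k * B x k j)) := by
    funext x
    exact Sto3_ee_eq _ _
  rw [h1]
  have h2 : ∀ j k j' k', Hom (-2) (-2) (fun x => A x j k * B x j' k') :=
    fun j k j' k' => hom_mul (hA j k) (hB j' k')
  exact hom_sum _ _ (fun j _ => hom_sum _ _ (fun k _ =>
    hom_add (h2 j j k k) (hom_const_mul (-1) (h2 j k k j))))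

theorem Sto3_L_hom {u : V → ℂ} (hu : IsFun u) (j k : Fin 3) :
    Hom (-1) (-1) (fun x => L u x j k) := by
  have h := dz_hom j (Sto3_dzb hu k)
  exact h

theorem Sto3_db_hom {ζ : V → V} (hζ : IsCov ζ) (j k : Fin 3) :
    Hom (-1) (-1) (fun x => db ζ x j k) := by
  have h := dzb_hom k (isCov_hom hζ j)
  exact h

theorem Sto3_ct_hom {A : V → M3} (hA : ∀ j k, Hom (-1) (-1) (fun x => A x j k)) (j k : Fin 3) :
    Hom (-1) (-1) (fun x => (A x)ᴴ j k) := hom_conj (hA k j)

theorem Sto3_int {A B : V → M3} (hA : ∀ j k, Hom (-1) (-1) (fun x => A x j k))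
    (hB : ∀ j k, Hom (-1) (-1) (fun x => B x j k)) :
    Integrable (fun x => ee (A x) (B x) * (wt x : ℂ)) :=
  chom_integrable (Sto3_ee_hom hA hB).chom (by norm_num)

theorem Sto3_intm {A B : V → M3} (hA : ∀ j k, Hom (-1) (-1) (fun x => A x j k))
    (hB : ∀ j k, Hom (-1) (-1) (fun x => B x j k)) {u : V → ℂ} (hu : IsFun u) :
    Integrable (fun x => u x * ee (A x) (B x) * (wt x : ℂ)) := by
  have h := hom_mul (isFun_iff.1 hu) (Sto3_ee_hom hA hB)
  exact chom_integrable h.chom (by norm_num)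

theorem Sto3_ae {p : V → Prop} (h : ∀ x : V, x ≠ 0 → p x) : ∀ᵐ x ∂(volume : Measure V), p x := by
  have h1 : ∀ᵐ x ∂(volume : Measure V), x ≠ 0 := compl_mem_ae_iff.2 (measure_singleton (0 : V))
  filter_upwards [h1] with x hx
  exact h x hx

theorem Sto3_ee_sub (A B C : M3) : ee A B - ee A C = ee A (B - C) := by
  unfold ee
  rw [Matrix.trace_sub, Matrix.mul_sub, Matrix.trace_sub]
  ring

theorem Sto3_ee_lin (A B C : M3) (a b : ℂ) : ee A (a • B + b • C) = a * ee A B + b * ee A C := by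
  unfold ee
  rw [Matrix.trace_add, Matrix.mul_add, Matrix.trace_add, Matrix.trace_smul, Matrix.trace_smul,
    Matrix.mul_smul, Matrix.mul_smul, Matrix.trace_smul, Matrix.trace_smul]
  simp only [smul_eq_mul]
  ring

theorem Sto3_ee_symm (A B : M3) : ee A B = ee B A := by
  unfold ee
  rw [Matrix.trace_mul_comm A B]
  ring

/-- the difference of the two exact forms -/
theorem Sto3_diff {F u : V → ℂ} (hF : IsFun F) (hu : IsFun u) (rF : IsRe F) (ru : IsRe u) {x : V}
    (hx : x ≠ 0) : db (fun x j => u x * dz j F x) x - (db (fun x j => F x * dz j u x) x)ᴴ =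
      u x • L F x + (-F x) • L u x := by
  have hu' := isFun_iff.1 hu
  have hF' := isFun_iff.1 hF
  have h1 : ∀ j k, dzb k (fun y => u y * dz j F y) x = dzb k u x * dz j F x + u x * dz j (dzb k F) x := by
    intro j k
    rw [dzb_mul k (hu'.diffAt hx) ((Sto3_dz hF j).diffAt hx), dz_dzb_comm j k hF.smooth hx]
  have h2 : ∀ j k, dzb k (fun y => F y * dz j u y) x = dzb k F x * dz j u x + F x * dz j (dzb k u) x := by
    intro j k
    rw [dzb_mul k (hF'.diffAt hx) ((Sto3_dz hu j).diffAt hx), dz_dzb_comm j k hu.smooth hx]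
  have hcu : (fun y => conj (u y)) = u := funext ru
  have hcF : (fun y => conj (F y)) = F := funext rF
  have hherm : ∀ j k, conj (dz k (dzb j u) x) = dz j (dzb k u) x := by
    intro j k
    have := congrFun (congrFun (Sto3_hermL hu ru hx) j) k
    rw [Matrix.conjTranspose_apply] at this
    exact this
  funext j k
  rw [Matrix.sub_apply, Matrix.add_apply, Matrix.smul_apply, Matrix.smul_apply,
    Matrix.conjTranspose_apply]
  change dzb k (fun y => u y * dz j F y) x - conj (dzb j (fun y => F y * dz k u y) x) =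
    u x • dz j (dzb k F) x + (-F x) • dz j (dzb k u) x
  rw [h1, h2, map_add, map_mul, map_mul, conj_dzb, conj_dz, hcu, hcF, hherm, rF x, smul_eq_mul,
    smul_eq_mul]
  ring

theorem Sto3_star {F u v : V → ℂ} (hF : IsFun F) (hu : IsFun u) (hv : IsFun v) (rF : IsRe F)
    (ru : IsRe u) (rv : IsRe v) :
    ∫ x, u x * ee (L v x) (L F x) * (wt x : ℂ) = ∫ x, F x * ee (L v x) (L u x) * (wt x : ℂ) := by
  have hc1 := Sto3_covm hF hu
  have hc2 := Sto3_covm hu hF
  have e1 : ∫ x, ee (L v x) (db (fun x j => u x * dz j F x) x) * (wt x : ℂ) = 0 := s1 hv hc1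
  have e2 : ∫ x, ee (L v x) ((db (fun x j => F x * dz j u x) x)ᴴ) * (wt x : ℂ) = 0 :=
    Sto3_conj hv rv hc2
  have hi1 := Sto3_int (Sto3_L_hom hv) (Sto3_db_hom hc1)
  have hi2 := Sto3_int (Sto3_L_hom hv) (Sto3_ct_hom (Sto3_db_hom hc2))
  have e3 := integral_sub hi1 hi2
  rw [e1, e2, sub_zero] at e3
  have e4 : ∫ x, (ee (L v x) (db (fun x j => u x * dz j F x) x) * (wt x : ℂ) -
      ee (L v x) ((db (fun x j => F x * dz j u x) x)ᴴ) * (wt x : ℂ)) =
      ∫ x, (u x * ee (L v x) (L F x) * (wt x : ℂ) - F x * ee (L v x) (L u x) * (wt x : ℂ)) := by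
    refine integral_congr_ae (Sto3_ae (fun x hx => ?_))
    change ee (L v x) (db (fun x j => u x * dz j F x) x) * (wt x : ℂ) -
      ee (L v x) ((db (fun x j => F x * dz j u x) x)ᴴ) * (wt x : ℂ) =
      u x * ee (L v x) (L F x) * (wt x : ℂ) - F x * ee (L v x) (L u x) * (wt x : ℂ)
    rw [← sub_mul, Sto3_ee_sub, Sto3_diff hF hu rF ru hx, Sto3_ee_lin]
    ring
  rw [e4, integral_sub (Sto3_intm (Sto3_L_hom hv) (Sto3_L_hom hF) hu)
    (Sto3_intm (Sto3_L_hom hv) (Sto3_L_hom hu) hF)] at e3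
  exact sub_eq_zero.1 e3

theorem Sto3_sq {u : V → ℂ} (hu : IsFun u) : IsFun (fun x => u x * u x) := by
  have h := hom_mul (isFun_iff.1 hu) (isFun_iff.1 hu)
  exact isFun_iff.2 h

theorem Sto3_Lsq {u : V → ℂ} (hu : IsFun u) {x : V} (hx : x ≠ 0) :
    L (fun x => u x * u x) x = (2 * u x) • L u x + (2 : ℂ) • du2 u x := by
  have hu' := isFun_iff.1 hu
  funext j k
  rw [Matrix.add_apply, Matrix.smul_apply, Matrix.smul_apply]
  change dz j (dzb k (fun x => u x * u x)) x = (2 * u x) • dz j (dzb k u) x +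
    (2 : ℂ) • (dz j u x * dzb k u x)
  have h1 : ∀ y : V, y ≠ 0 → dzb k (fun x => u x * u x) y = 2 * (u y * dzb k u y) := by
    intro y hy
    rw [dzb_mul k (hu'.diffAt hy) (hu'.diffAt hy)]
    ring
  have hd : DifferentiableAt ℝ (fun y => u y * dzb k u y) x :=
    (hu'.diffAt hx).mul ((Sto3_dzb hu k).diffAt hx)
  rw [dz_congr j hx h1, dz_const_mul j 2 hd, dz_mul j (hu'.diffAt hx) ((Sto3_dzb hu k).diffAt hx),
    smul_eq_mul, smul_eq_mul]
  ring

theorem Sto3_du2_hom {u : V → ℂ} (hu : IsFun u) (j k : Fin 3) :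
    Hom (-1) (-1) (fun x => du2 u x j k) := by
  have h := hom_mul (Sto3_dz hu j) (Sto3_dzb hu k)
  exact h

theorem s3 {F u : V → ℂ} (hF : IsFun F) (hu : IsFun u) (rF : IsRe F) (ru : IsRe u) :
    ∫ x, F x * ee (L u x) (L u x) * (wt x : ℂ) = -∫ x, ee (L F x) (du2 u x) * (wt x : ℂ) := by
  have e1 : ∫ x, ee (L F x) (L (fun x => u x * u x) x) * (wt x : ℂ) = 0 := qLL hF (Sto3_sq hu)
  have hi1 := Sto3_intm (Sto3_L_hom hF) (Sto3_L_hom hu) hu
  have hi2 := Sto3_int (Sto3_L_hom hF) (Sto3_du2_hom hu)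
  have e2 : ∫ x, ee (L F x) (L (fun x => u x * u x) x) * (wt x : ℂ) =
      ∫ x, (2 * (u x * ee (L F x) (L u x) * (wt x : ℂ)) + 2 * (ee (L F x) (du2 u x) * (wt x : ℂ))) := by
    refine integral_congr_ae (Sto3_ae (fun x hx => ?_))
    change ee (L F x) (L (fun x => u x * u x) x) * (wt x : ℂ) =
      2 * (u x * ee (L F x) (L u x) * (wt x : ℂ)) + 2 * (ee (L F x) (du2 u x) * (wt x : ℂ))
    rw [Sto3_Lsq hu hx, Sto3_ee_lin]
    ring
  rw [e2, integral_add (hi1.const_mul 2) (hi2.const_mul 2), integral_const_mul,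
    integral_const_mul] at e1
  have e3 := Sto3_star hF hu hu rF ru ru
  have e4 : ∫ x, u x * ee (L F x) (L u x) * (wt x : ℂ) =
      ∫ x, u x * ee (L u x) (L F x) * (wt x : ℂ) := by
    congr 1
    funext x
    rw [Sto3_ee_symm]
  rw [e4, e3] at e1
  have e5 : (∫ x, F x * ee (L u x) (L u x) * (wt x : ℂ)) +
      (∫ x, ee (L F x) (du2 u x) * (wt x : ℂ)) = 0 := by
    have : (2 : ℂ) * ((∫ x, F x * ee (L u x) (L u x) * (wt x : ℂ)) +
      (∫ x, ee (L F x) (du2 u x) * (wt x : ℂ))) = 0 := by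
      rw [mul_add]
      exact e1
    exact (mul_eq_zero.1 this).resolve_left two_ne_zero
  exact eq_neg_of_add_eq_zero_left e5

end Pool.Agent.H85.DC
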