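import Pool.Agent.H85.DC.FrmB
import Pool.Agent.H85.DC.Sto1
import Pool.Agent.H85.DC.Sto2
import Pool.Agent.H85.DC.Sto3
import Pool.Agent.H85.DC.NuA

/-!
# Row HFac: the spaces `InH`, `InH0`

`qq_L_Wm`: `ee (L u x) (Wm x) = (L u x).trace / N x` (`ee_Wm`, `form_L`). `∫ dz j (dzb j u) N^{-1} wt
= -∫ dzb j u dz j (N^{-1}) wt + ∫ dzb j u N^{-1} conj(x_j) wt` (`ibp_z`), `dz j (N^{-1}) = - conj(x_j)/N^2`,
and `∑_j conj(x_j) dzb j u = 0` (`eulerb`). So `qq (L u) Wm = 0`.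
`inH0_L`: `form_L`, `herm_L`, `qLL`, `qq_L_Wm`, `qq_comm`.
`qq_WW`: `ee (Wm x) (Wm x) = (2 / N)/N`, `int_Nm2`: `2 * π^3/2`.
`inH0_shift`: for `A` in `H` with `qq Wm A = c` (`c` real): `A - (c/π^3) Wm` in `H0`.
`Bz ζ = (db ζ + (db ζ)ᴴ)/2`: a form (`form_db`, `form_ct`), Hermitian. For real conic `u`:
`qq (L u) (db ζ) = 0` (`s1`), `qq (L u) ((db ζ)ᴴ) = conj (qq (L u) (db ζ)) = 0` (`qq_ct`, `L u` Hermitian off `0`,
`qq_congr`). The condition `InH.ddc` is for ALL (complex) conic `u`: write `u = u₁ + i u₂` with real conic `u₁ = (u + ū)/2`,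
`u₂ = (u - ū)/(2i)` (`isFun_iff`, `hom_conj`), `L u = L u₁ + i L u₂` off `0` (`dz_add`, `dz_const_mul`, …); this is
`ddc_of_real`. Mass: `qq Wm (db ζ) = 0` (`s1W`) and its conjugate.
`nn_Bz`: `qq B B = (1/4)(qq a a + 2 qq a aᴴ + qq aᴴ aᴴ)`, `qq a a = 0` (`s2`), `qq aᴴ aᴴ = conj 0`, `s2c`:
`qq B B = (1/2) (-(1/2)) ∫ curl`, so `nn B B = (1/4) ∫ curl`.
`nn_Bz_left`: for Hermitian forms `E`: `qq E aᴴ = conj (qq E a)` so `qq E B = Re (qq E a)`.
-/

open MeasureTheory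
open scoped ContDiff BigOperators ComplexConjugate Matrix

namespace Pool.Agent.H85.DC

/-- The real form `(∂̄ζ + (∂̄ζ)ᴴ)/2`. -/
noncomputable def Bz (ζ : V → V) (x : V) : M3 := ((1 / 2 : ℂ)) • (db ζ x + (db ζ x)ᴴ)

theorem HFac_cov {u : V → ℂ} (hu : IsFun u) : IsCov (fun x j => dz j u x) := by
  have h0 : Hom 0 0 u := isFun_iff.mp hu
  have hj : ∀ j, Hom (-1) 0 (dz j u) := fun j => by
    have := dz_hom j h0
    simpa using this
  refine ⟨?_, ?_, ?_⟩
  · exact contDiffOn_pi.mpr fun j => (hj j).smooth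
  · intro l x hl
    funext j
    have h1 := (hj j).hom l x hl
    simp only [Pi.smul_apply, smul_eq_mul]
    rw [h1]
    simp
  · intro x hx
    have h1 := euler h0 hx
    simpa using h1

theorem HFac_L_eq {u : V → ℂ} (hu : IsFun u) (x : V) (hx : x ≠ 0) :
    L u x = db (fun x j => dz j u x) x := by
  funext j k
  exact dz_dzb_comm j k hu.smooth hx

theorem qq_L_Wm {u : V → ℂ} (hu : IsFun u) : qq (L u) Wm = 0 := by
  rw [qq_comm, qq_congr (A := Wm) (A' := Wm) (B := L u) (B' := db (fun x j => dz j u x))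
    (fun _ _ => rfl) (HFac_L_eq hu)]
  exact s1W (HFac_cov hu)

theorem ddc_of_real {A : V → M3} (hA : IsForm A)
    (h : ∀ u : V → ℂ, IsFun u → IsRe u → qq (L u) A = 0) :
    ∀ u : V → ℂ, IsFun u → qq (L u) A = 0 := by
  intro u hu
  have h0 : Hom 0 0 u := isFun_iff.mp hu
  have hc0 : Hom 0 0 (fun x => conj (u x)) := hom_conj h0
  set u1 : V → ℂ := fun x => (1 / 2 : ℂ) * (u x + conj (u x)) with hu1
  set u2 : V → ℂ := fun x => (-Complex.I / 2 : ℂ) * (u x + (-1 : ℂ) * conj (u x)) with hu2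
  have H1 : Hom 0 0 u1 := hom_const_mul _ (hom_add h0 hc0)
  have H2 : Hom 0 0 u2 := hom_const_mul _ (hom_add h0 (hom_const_mul _ hc0))
  have R1 : IsRe u1 := by
    intro x
    simp only [hu1, map_mul, map_add, Complex.conj_conj]
    have : conj (1 / 2 : ℂ) = 1 / 2 := by
      rw [map_div₀, map_one, map_ofNat]
    rw [this]
    ring
  have R2 : IsRe u2 := by
    intro x
    simp only [hu2, map_mul, map_add, Complex.conj_conj]
    have : conj (-Complex.I / 2 : ℂ) = Complex.I / 2 := by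
      rw [map_div₀, map_neg, map_ofNat, Complex.conj_I, neg_neg]
    rw [this]
    simp only [map_neg, map_one]
    ring
  have hsum : ∀ y : V, u y = u1 y + Complex.I * u2 y := by
    intro y
    simp only [hu1, hu2]
    have hI : Complex.I * Complex.I = -1 := Complex.I_mul_I
    linear_combination ((1 / 2 : ℂ) * (u y - conj (u y))) * hI
  have hsumf : u = fun y => u1 y + Complex.I * u2 y := funext hsum
  have hL : ∀ x : V, x ≠ 0 → L u x = (fun x => L u1 x + Complex.I • L u2 x) x := by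
    intro x hx
    funext j k
    show dz j (dzb k u) x = dz j (dzb k u1) x + Complex.I * dz j (dzb k u2) x
    have e1 : ∀ y : V, y ≠ 0 → dzb k u y = dzb k u1 y + Complex.I * dzb k u2 y := by
      intro y hy
      rw [hsumf, dzb_add k (H1.diffAt hy) ((hom_const_mul Complex.I H2).diffAt hy),
        dzb_const_mul k _ (H2.diffAt hy)]
    rw [dz_congr j hx e1, dz_add j ((dzb_hom k H1).diffAt hx)
      ((hom_const_mul Complex.I (dzb_hom k H2)).diffAt hx),
      dz_const_mul j _ ((dzb_hom k H2).diffAt hx)]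
  have F1 : IsFun u1 := isFun_iff.mpr H1
  have F2 : IsFun u2 := isFun_iff.mpr H2
  rw [qq_congr hL (fun x _ => rfl : ∀ x : V, x ≠ 0 → A x = A x),
    qq_add_left (form_L F1) (form_smul _ (form_L F2)) hA, qq_smul_left, h u1 F1 R1, h u2 F2 R2]
  simp

theorem inH_Wm : InH Wm := ⟨form_Wm, herm_Wm, fun _ hu => qq_L_Wm hu⟩

theorem inH0_L {u : V → ℂ} (hu : IsFun u) (ru : IsRe u) : InH0 (L u) :=
  ⟨⟨form_L hu, herm_L hu ru, fun _ hv => qLL hv hu⟩, by rw [qq_comm]; exact qq_L_Wm hu⟩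

theorem inH_add {A B : V → M3} (hA : InH A) (hB : InH B) : InH (fun x => A x + B x) := by
  refine ⟨form_add hA.form hB.form, herm_add hA.herm hB.herm, fun u hu => ?_⟩
  rw [qq_comm, qq_add_left hA.form hB.form (form_L hu), qq_comm A, qq_comm B, hA.ddc u hu,
    hB.ddc u hu, add_zero]

theorem inH_sub {A B : V → M3} (hA : InH A) (hB : InH B) : InH (fun x => A x - B x) := by
  refine ⟨form_sub hA.form hB.form, herm_sub hA.herm hB.herm, fun u hu => ?_⟩
  rw [qq_comm, qq_sub_left hA.form hB.form (form_L hu), qq_comm A, qq_comm B, hA.ddc u hu,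
    hB.ddc u hu, sub_zero]

theorem inH_smul {A : V → M3} (c : ℝ) (hA : InH A) : InH (fun x => (c : ℂ) • A x) := by
  refine ⟨form_smul _ hA.form, herm_smul c hA.herm, fun u hu => ?_⟩
  rw [qq_comm, qq_smul_left, qq_comm A, hA.ddc u hu, mul_zero]

theorem inH0_add {A B : V → M3} (hA : InH0 A) (hB : InH0 B) : InH0 (fun x => A x + B x) := by
  refine ⟨inH_add hA.toInH hB.toInH, ?_⟩
  rw [qq_comm, qq_add_left hA.form hB.form form_Wm, qq_comm A, qq_comm B, hA.mass,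
    hB.mass, add_zero]

theorem inH0_sub {A B : V → M3} (hA : InH0 A) (hB : InH0 B) : InH0 (fun x => A x - B x) := by
  refine ⟨inH_sub hA.toInH hB.toInH, ?_⟩
  rw [qq_comm, qq_sub_left hA.form hB.form form_Wm, qq_comm A, qq_comm B, hA.mass,
    hB.mass, sub_zero]

theorem inH0_smul {A : V → M3} (c : ℝ) (hA : InH0 A) : InH0 (fun x => (c : ℂ) • A x) := by
  refine ⟨inH_smul c hA.toInH, ?_⟩
  rw [qq_comm, qq_smul_left, qq_comm A, hA.mass, mul_zero]

theorem HFac_ae_ne : ∀ᵐ x ∂(volume : Measure V), x ≠ 0 := by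
  have h : (volume : Measure V) {(0 : V)} = 0 := measure_singleton _
  exact measure_eq_zero_iff_ae_notMem.mp h

theorem qq_WW : qq Wm Wm = ((Real.pi ^ 3 : ℝ) : ℂ) := by
  unfold qq
  have h1 : ∫ x, ee (Wm x) (Wm x) * (wt x : ℂ) =
      ∫ x : V, ((2 * ((N x) ^ (-2 : ℤ) * wt x) : ℝ) : ℂ) := by
    apply integral_congr_ae
    filter_upwards [HFac_ae_ne] with x hx
    rw [ee_Wm form_Wm hx, trace_Wm hx]
    have hN : (N x : ℂ) ≠ 0 := by
      exact_mod_cast (N_pos hx).ne'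
    have hz : ((N x ^ (-2 : ℤ) : ℝ) : ℂ) = ((N x : ℂ) * (N x : ℂ))⁻¹ := by
      rw [zpow_neg, zpow_ofNat, pow_two]
      push_cast
      ring
    rw [Complex.ofReal_mul, Complex.ofReal_mul, hz, div_div, div_eq_mul_inv, Complex.ofReal_ofNat]
    ring
  rw [h1, integral_complex_ofReal, integral_const_mul, int_Nm2]
  congr 1
  ring

theorem inH0_shift {A : V → M3} (hA : InH A) {c : ℝ} (hc : qq Wm A = (c : ℂ)) :
    InH0 (fun x => A x - ((c / Real.pi ^ 3 : ℝ) : ℂ) • Wm x) := by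
  refine ⟨inH_sub hA (inH_smul _ inH_Wm), ?_⟩
  rw [qq_comm, qq_sub_left hA.form (form_smul _ form_Wm) form_Wm, qq_smul_left, qq_comm A, hc, qq_WW]
  have hp : (Real.pi ^ 3 : ℝ) ≠ 0 := by positivity
  rw [← Complex.ofReal_mul, div_mul_cancel₀ _ hp, sub_self]

theorem HFac_ct_right {E A : V → M3} (hh : IsHerm E) :
    qq (fun x => (A x)ᴴ) E = conj (qq A E) := by
  rw [← qq_ct]
  exact qq_congr (fun _ _ => rfl) (fun x hx => (hh x hx).symm)

theorem HFac_form_Bz {ζ : V → V} (hζ : IsCov ζ) : IsForm (Bz ζ) :=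
  form_smul _ (form_add (form_db hζ) (form_ct (form_db hζ)))

theorem HFac_herm_Bz (ζ : V → V) : IsHerm (Bz ζ) := by
  intro x _
  show ((1 / 2 : ℂ) • (db ζ x + (db ζ x)ᴴ))ᴴ = (1 / 2 : ℂ) • (db ζ x + (db ζ x)ᴴ)
  rw [Matrix.conjTranspose_smul, Matrix.conjTranspose_add, Matrix.conjTranspose_conjTranspose,
    add_comm]
  congr 1
  simp

theorem HFac_qq_Bz {ζ : V → V} (hζ : IsCov ζ) {E : V → M3} (hE : IsForm E) :
    qq (Bz ζ) E = (1 / 2) * (qq (db ζ) E + qq (fun x => (db ζ x)ᴴ) E) := by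
  have h : qq (Bz ζ) E = qq (fun x => (1 / 2 : ℂ) • (fun x => db ζ x + (db ζ x)ᴴ) x) E := rfl
  rw [h, qq_smul_left, qq_add_left (form_db hζ) (form_ct (form_db hζ)) hE]

theorem HFac_qq_Bz_zero {ζ : V → V} (hζ : IsCov ζ) {E : V → M3} (hE : IsForm E) (hh : IsHerm E)
    (h : qq E (db ζ) = 0) : qq E (Bz ζ) = 0 := by
  rw [qq_comm, HFac_qq_Bz hζ hE, HFac_ct_right hh, qq_comm (db ζ), h]
  simp

theorem inH0_Bz {ζ : V → V} (hζ : IsCov ζ) : InH0 (Bz ζ) := by
  refine ⟨⟨HFac_form_Bz hζ, HFac_herm_Bz ζ, ?_⟩, ?_⟩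
  · apply ddc_of_real (HFac_form_Bz hζ)
    intro u hu ru
    exact HFac_qq_Bz_zero hζ (form_L hu) (herm_L hu ru) (s1 hu hζ)
  · exact HFac_qq_Bz_zero hζ form_Wm herm_Wm (s1W hζ)

theorem nn_Bz {ζ : V → V} (hζ : IsCov ζ) :
    nn (Bz ζ) (Bz ζ) = (1 / 4) * ∫ x, curl ζ x * wt x := by
  have ha := form_db hζ
  have hc := form_ct ha
  have hB := HFac_form_Bz hζ
  have h1 : qq (db ζ) (Bz ζ) = (1 / 2) * qq (db ζ) (fun x => (db ζ x)ᴴ) := by
    rw [qq_comm, HFac_qq_Bz hζ ha, s2 hζ hζ, qq_comm (fun x => (db ζ x)ᴴ)]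
    ring
  have h2 : qq (fun x => (db ζ x)ᴴ) (Bz ζ) = (1 / 2) * qq (db ζ) (fun x => (db ζ x)ᴴ) := by
    rw [qq_comm, HFac_qq_Bz hζ hc, qq_ct, s2 hζ hζ]
    simp
  have h3 : qq (Bz ζ) (Bz ζ) = ((-(1 / 4) * ∫ x, curl ζ x * wt x : ℝ) : ℂ) := by
    rw [HFac_qq_Bz hζ hB, h1, h2, s2c hζ]
    push_cast
    ring
  unfold nn
  rw [h3, Complex.ofReal_re]
  ring

theorem nn_Bz_left {E : V → M3} (hE : IsForm E) (hh : IsHerm E) {ζ : V → V} (hζ : IsCov ζ) :
    nn E (Bz ζ) = -(qq E (db ζ)).re := by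
  unfold nn
  rw [qq_comm, HFac_qq_Bz hζ hE, HFac_ct_right hh, qq_comm (db ζ)]
  congr 1
  rw [Complex.add_conj]
  simp

/-- Adding `L u` does not change the intersection numbers with elements of `H`. -/
theorem nn_sub_L {A : V → M3} (hA : InH A) {u : V → ℂ} (hu : IsFun u) (ru : IsRe u) :
    nn (fun x => A x - L u x) (fun x => A x - L u x) = nn A A := by
  have hL := form_L hu
  have hS := form_sub hA.form hL
  have z1 : qq (L u) A = 0 := hA.ddc u hu
  have z2 : qq (L u) (L u) = 0 := qLL hu hu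
  have h1 : qq A (fun x => A x - L u x) = qq A A := by
    rw [qq_comm, qq_sub_left hA.form hL hA.form, z1, sub_zero]
  have h2 : qq (L u) (fun x => A x - L u x) = 0 := by
    rw [qq_comm, qq_sub_left hA.form hL hL, z2, qq_comm, z1, sub_zero]
  have h3 : qq (fun x => A x - L u x) (fun x => A x - L u x) = qq A A := by
    rw [qq_sub_left hA.form hL hS, h1, h2, sub_zero]
  unfold nn
  rw [h3]

end Pool.Agent.H85.DC
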