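import Pool.Agent.H85.DC.Frm

/-!
# Row HomA: algebra of homogeneous functions, Euler identities

All functions are functions `V → ℂ`, `V = Fin 3 → ℂ`; `Hom a b f` = real smooth on `{0}ᶜ` and
`f (l • x) = l ^ a * (conj l) ^ b * f x` for all `l ≠ 0` and ALL `x` (also `x = 0`).

Proofs. Products, sums, conjugates, inverses, coordinates: immediate (`zpow_add₀`, `map_zpow₀`;
`ContDiffOn.mul`, `ContDiffOn.inv`, conjugation is a real continuous linear map `Complex.conjCLE`).
`N x` is a sum of `x j * conj (x j)` (`Complex.mul_conj`).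
Derivatives (`dz_hom`, `dzb_hom`): `{0}ᶜ` is open, so `fderiv ℝ f` is smooth on it
(`ContDiffOn.fderiv_of_isOpen`), hence `dz j f`, `dzb j f` are.  Homogeneity: for `l ≠ 0` let `m` be the
real continuous linear equivalence `x ↦ l • x` of `V`.  `f ∘ m = c • f`, `c = l ^ a * (conj l) ^ b`, so
`fderiv (f ∘ m) x = c • fderiv f x` (no differentiability needed as `c ≠ 0`; or treat the
non-differentiable case by hand, both sides are `0`) and `fderiv (f ∘ m) x = (fderiv f (m x)).comp m`
(`ContinuousLinearEquiv.comp_right_fderiv`).  So `fderiv f (l • x) (l • v) = c * fderiv f x v` for all `v`.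
Put `D = fderiv f (l • x)`: real linear, so for `l = p + i q` (p q real)
`D (l • e_j) = p D(e_j) + q D(i e_j)` and `D (l • i e_j) = p D(i e_j) - q D(e_j)` where `e_j = Pi.single j 1`,
`i e_j = Pi.single j I`; hence `l * (D e_j - i D(i e_j)) = D(l e_j) - i D(l i e_j) = c (…)`, i.e.
`l * dz j f (l • x) = c * dz j f x`, and `conj l * dzb j f (l • x) = c * dzb j f x`.
Euler (`euler`, `eulerb`), `x ≠ 0`: differentiate `s ↦ f ((1+s) • x) = (1+s)^(a+b) f x` (`s` real) and
`s ↦ f (exp(i s) • x) = exp(i s (a-b)) f x` at `s = 0`: `D x = (a+b) f x`, `D (i x) = i (a-b) f x`, where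
`D = fderiv f x`.  And `D v = ∑ j (v_j dz_j f + conj(v_j) dzb_j f)` for every `v` (`fderiv_eq`, from
`v = ∑ j (re v_j) e_j + (im v_j) i e_j`).  So with `A = ∑ x_j dz_j f`, `B = ∑ conj(x_j) dzb_j f`:
`A + B = (a+b) f`, `i A - i B = i (a-b) f`, hence `A = a f`, `B = b f`.
-/

open MeasureTheory
open scoped ContDiff BigOperators ComplexConjugate Matrix

namespace Pool.Agent.H85.DC

theorem hom_mul {a b c d : ℤ} {f g : V → ℂ} (hf : Hom a b f) (hg : Hom c d g) :
    Hom (a + c) (b + d) (fun x => f x * g x) := by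
  refine ⟨hf.smooth.mul hg.smooth, fun l x hl => ?_⟩
  have hl' : conj l ≠ 0 := (map_ne_zero _).2 hl
  rw [hf.hom l x hl, hg.hom l x hl, zpow_add₀ hl, zpow_add₀ hl']
  ring

theorem hom_add {a b : ℤ} {f g : V → ℂ} (hf : Hom a b f) (hg : Hom a b g) :
    Hom a b (fun x => f x + g x) := by
  refine ⟨hf.smooth.add hg.smooth, fun l x hl => ?_⟩
  rw [hf.hom l x hl, hg.hom l x hl]
  ring

theorem hom_const_mul {a b : ℤ} {f : V → ℂ} (c : ℂ) (hf : Hom a b f) :
    Hom a b (fun x => c * f x) := by
  refine ⟨contDiffOn_const.mul hf.smooth, fun l x hl => ?_⟩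
  rw [hf.hom l x hl]
  ring

theorem hom_neg {a b : ℤ} {f : V → ℂ} (hf : Hom a b f) : Hom a b (fun x => - f x) := by
  refine ⟨hf.smooth.neg, fun l x hl => ?_⟩
  rw [hf.hom l x hl]
  ring

theorem HomA_zero (a b : ℤ) : Hom a b (fun _ => 0) :=
  ⟨contDiffOn_const, fun l x _ => by ring⟩

theorem hom_sum {ι : Type} {a b : ℤ} (s : Finset ι) (f : ι → V → ℂ) (h : ∀ i ∈ s, Hom a b (f i)) :
    Hom a b (fun x => ∑ i ∈ s, f i x) := by
  classical
  induction s using Finset.induction_on with
  | empty =>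
    simp only [Finset.sum_empty]
    exact HomA_zero a b
  | insert i s hi ih =>
    simp only [Finset.sum_insert hi]
    exact hom_add (h i (Finset.mem_insert_self i s))
      (ih fun j hj => h j (Finset.mem_insert_of_mem hj))

theorem hom_const (c : ℂ) : Hom 0 0 (fun _ => c) :=
  ⟨contDiffOn_const, fun l x _ => by simp⟩

theorem hom_conj {a b : ℤ} {f : V → ℂ} (hf : Hom a b f) : Hom b a (fun x => conj (f x)) := by
  refine ⟨Complex.conjCLE.contDiff.comp_contDiffOn hf.smooth, fun l x hl => ?_⟩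
  rw [hf.hom l x hl, map_mul, map_mul, map_zpow₀, map_zpow₀, Complex.conj_conj]
  ring

theorem hom_inv {a b : ℤ} {f : V → ℂ} (hf : Hom a b f) (h0 : ∀ x, x ≠ 0 → f x ≠ 0) :
    Hom (-a) (-b) (fun x => (f x)⁻¹) := by
  refine ⟨hf.smooth.inv fun x hx => h0 x hx, fun l x hl => ?_⟩
  rw [hf.hom l x hl, mul_inv, mul_inv, zpow_neg, zpow_neg]

theorem hom_pow {a b : ℤ} {f : V → ℂ} (n : ℕ) (hf : Hom a b f) :
    Hom (n * a) (n * b) (fun x => f x ^ n) := by
  refine ⟨hf.smooth.pow n, fun l x hl => ?_⟩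
  rw [hf.hom l x hl, mul_pow, mul_pow, mul_comm (n : ℤ) a, mul_comm (n : ℤ) b, zpow_mul, zpow_mul,
    zpow_natCast, zpow_natCast]

theorem hom_coord (k : Fin 3) : Hom 1 0 (fun x => x k) := by
  refine ⟨(contDiff_apply ℝ ℂ k).contDiffOn, fun l x _ => ?_⟩
  simp

theorem hom_conj_coord (k : Fin 3) : Hom 0 1 (fun x => conj (x k)) := hom_conj (hom_coord k)

theorem N_nonneg (x : V) : 0 ≤ N x := Finset.sum_nonneg fun j _ => Complex.normSq_nonneg (x j)

theorem N_pos {x : V} (hx : x ≠ 0) : 0 < N x := by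
  obtain ⟨j, hj⟩ : ∃ j, x j ≠ 0 := by
    by_contra h
    push Not at h
    exact hx (funext h)
  exact Finset.sum_pos' (fun i _ => Complex.normSq_nonneg (x i))
    ⟨j, Finset.mem_univ j, Complex.normSq_pos.2 hj⟩

theorem N_smul (l : ℂ) (x : V) : N (l • x) = Complex.normSq l * N x := by
  unfold N
  rw [Finset.mul_sum]
  refine Finset.sum_congr rfl fun j _ => ?_
  rw [Pi.smul_apply, smul_eq_mul, map_mul]

theorem HomA_N (x : V) : (N x : ℂ) = ∑ j, x j * conj (x j) := by
  unfold N
  push_cast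
  exact Finset.sum_congr rfl fun j _ => (Complex.mul_conj (x j)).symm

theorem hom_N : Hom 1 1 (fun x => (N x : ℂ)) := by
  have h : (fun x : V => (N x : ℂ)) = fun x => ∑ j, x j * conj (x j) := by
    funext x
    exact HomA_N x
  rw [h]
  refine hom_sum Finset.univ _ fun j _ => ?_
  have h1 := hom_mul (hom_coord j) (hom_conj_coord j)
  simpa using h1

theorem hom_Ninv : Hom (-1) (-1) (fun x => ((N x : ℂ))⁻¹) :=
  hom_inv hom_N fun x hx => by exact_mod_cast (N_pos hx).ne'

theorem HomA_conj (z : ℂ) : conj z = z.re - z.im * Complex.I :=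
  Complex.ext (by simp) (by simp)

theorem HomA_single (D : V →L[ℝ] ℂ) (j : Fin 3) (z : ℂ) :
    D (Pi.single j z) = z.re * D (Pi.single j 1) + z.im * D (Pi.single j Complex.I) := by
  have h : (Pi.single j z : V) = z.re • (Pi.single j 1 : V) + z.im • (Pi.single j Complex.I : V) := by
    ext k
    by_cases hk : k = j
    · subst hk
      simp
    · simp [Pi.single_eq_of_ne hk]
  rw [h, map_add, map_smul, map_smul, Complex.real_smul, Complex.real_smul]

/-- The differential in terms of the Wirtinger derivatives (no hypothesis needed). -/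
theorem fderiv_eq (f : V → ℂ) (x v : V) :
    fderiv ℝ f x v = ∑ j, (v j * dz j f x + conj (v j) * dzb j f x) := by
  have h : v = ∑ j, (Pi.single j (v j) : V) := (Finset.univ_sum_single v).symm
  conv_lhs => rw [h]
  rw [map_sum]
  refine Finset.sum_congr rfl fun j _ => ?_
  rw [HomA_single]
  unfold dz dzb
  have h1 : (v j) = (v j).re + (v j).im * Complex.I := (Complex.re_add_im _).symm
  have h2 : conj (v j) = (v j).re - (v j).im * Complex.I := HomA_conj (v j)
  rw [h2]
  generalize fderiv ℝ f x (Pi.single j 1) = P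
  generalize fderiv ℝ f x (Pi.single j Complex.I) = Q
  have h3 : v j * ((P - Complex.I * Q) / 2) =
      ((v j).re + (v j).im * Complex.I) * ((P - Complex.I * Q) / 2) := by rw [← h1]
  rw [h3]
  have hI : Complex.I * Complex.I = -1 := Complex.I_mul_I
  linear_combination (((v j).im : ℂ) * Q) * hI

/-- homogeneity of the differential -/
theorem HomA_fderiv {a b : ℤ} {f : V → ℂ} (hf : Hom a b f) {l : ℂ} (hl : l ≠ 0) (x v : V) :
    fderiv ℝ f (l • x) (l • v) = l ^ a * (conj l) ^ b * fderiv ℝ f x v := by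
  obtain ⟨m, hm⟩ : ∃ m : V ≃L[ℝ] V, ∀ x, m x = l • x := by
    refine ⟨(ContinuousLinearEquiv.smulLeft (R₁ := ℂ) (M₁ := V) (Units.mk0 l hl)).restrictScalars ℝ,
      fun x => rfl⟩
  have h1 : f ∘ m = (l ^ a * (conj l) ^ b) • f := by
    funext y
    rw [Function.comp_apply, hm, hf.hom l y hl, Pi.smul_apply, smul_eq_mul]
  have h2 := m.comp_right_fderiv (f := f) (x := x)
  rw [h1, fderiv_const_smul_field] at h2
  have h3 := congrArg (fun T : V →L[ℝ] ℂ => T v) h2
  simp only [Pi.smul_apply, smul_apply, smul_eq_mul,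
    ContinuousLinearMap.comp_apply, ContinuousLinearEquiv.coe_coe, hm] at h3
  exact h3.symm

theorem HomA_open : IsOpen ({0}ᶜ : Set V) := isOpen_compl_singleton

theorem HomA_smooth {a b : ℤ} {f : V → ℂ} (hf : Hom a b f) (v : V) :
    ContDiffOn ℝ ∞ (fun x => fderiv ℝ f x v) {0}ᶜ :=
  (hf.smooth.fderiv_of_isOpen (m := ∞) HomA_open (by simp)).clm_apply contDiffOn_const

theorem HomA_smul_single (l : ℂ) (j : Fin 3) (z : ℂ) :
    l • (Pi.single j z : V) = Pi.single j (l * z) := by
  ext k
  by_cases hk : k = j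
  · subst hk
    simp
  · simp [Pi.single_eq_of_ne hk]

theorem dz_hom {a b : ℤ} {f : V → ℂ} (j : Fin 3) (hf : Hom a b f) : Hom (a - 1) b (dz j f) := by
  refine ⟨?_, fun l x hl => ?_⟩
  · unfold dz
    exact ((HomA_smooth hf _).sub (contDiffOn_const.mul (HomA_smooth hf _))).div_const 2
  · have h1 := HomA_fderiv hf hl x (Pi.single j 1)
    have h2 := HomA_fderiv hf hl x (Pi.single j Complex.I)
    rw [HomA_smul_single, HomA_single] at h1 h2
    have h3 : l * dz j f (l • x) = l ^ a * (conj l) ^ b * dz j f x := by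
      unfold dz
      have hl1 : l = l.re + l.im * Complex.I := (Complex.re_add_im _).symm
      have e1 : (l * 1).re = l.re := by simp
      have e2 : (l * 1).im = l.im := by simp
      have e3 : (l * Complex.I).re = - l.im := by simp
      have e4 : (l * Complex.I).im = l.re := by simp
      rw [e1, e2] at h1
      rw [e3, e4] at h2
      push_cast at h2
      have hI : Complex.I * Complex.I = -1 := Complex.I_mul_I
      have h5 : l * ((fderiv ℝ f (l • x) (Pi.single j 1) -
          Complex.I * fderiv ℝ f (l • x) (Pi.single j Complex.I)) / 2) =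
          (l.re + l.im * Complex.I) * ((fderiv ℝ f (l • x) (Pi.single j 1) -
          Complex.I * fderiv ℝ f (l • x) (Pi.single j Complex.I)) / 2) := by rw [← hl1]
      rw [h5]
      linear_combination (1 / 2) * h1 - Complex.I / 2 * h2 -
        (l.im : ℂ) / 2 * fderiv ℝ f (l • x) (Pi.single j Complex.I) * hI
    rw [zpow_sub_one₀ hl]
    field_simp
    linear_combination h3

theorem dzb_hom {a b : ℤ} {f : V → ℂ} (j : Fin 3) (hf : Hom a b f) : Hom a (b - 1) (dzb j f) := by
  refine ⟨?_, fun l x hl => ?_⟩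
  · unfold dzb
    exact ((HomA_smooth hf _).add (contDiffOn_const.mul (HomA_smooth hf _))).div_const 2
  · have hl' : conj l ≠ 0 := (map_ne_zero _).2 hl
    have h1 := HomA_fderiv hf hl x (Pi.single j 1)
    have h2 := HomA_fderiv hf hl x (Pi.single j Complex.I)
    rw [HomA_smul_single, HomA_single] at h1 h2
    have h3 : conj l * dzb j f (l • x) = l ^ a * (conj l) ^ b * dzb j f x := by
      unfold dzb
      have hl1 : conj l = l.re - l.im * Complex.I := HomA_conj l
      have e1 : (l * 1).re = l.re := by simp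
      have e2 : (l * 1).im = l.im := by simp
      have e3 : (l * Complex.I).re = - l.im := by simp
      have e4 : (l * Complex.I).im = l.re := by simp
      rw [e1, e2] at h1
      rw [e3, e4] at h2
      push_cast at h2
      have hI : Complex.I * Complex.I = -1 := Complex.I_mul_I
      have h5 : conj l * ((fderiv ℝ f (l • x) (Pi.single j 1) +
          Complex.I * fderiv ℝ f (l • x) (Pi.single j Complex.I)) / 2) =
          (l.re - l.im * Complex.I) * ((fderiv ℝ f (l • x) (Pi.single j 1) +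
          Complex.I * fderiv ℝ f (l • x) (Pi.single j Complex.I)) / 2) := by rw [← hl1]
      rw [h5]
      linear_combination (1 / 2) * h1 + Complex.I / 2 * h2 -
        (l.im : ℂ) / 2 * fderiv ℝ f (l • x) (Pi.single j Complex.I) * hI
    rw [zpow_sub_one₀ hl']
    field_simp
    linear_combination h3

theorem Hom.diffAt {a b : ℤ} {f : V → ℂ} (hf : Hom a b f) {x : V} (hx : x ≠ 0) :
    DifferentiableAt ℝ f x :=
  (hf.smooth.contDiffAt (HomA_open.mem_nhds hx)).differentiableAt (by simp)

/-- the derivative in complex scalar directions -/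
theorem HomA_euler {a b : ℤ} {f : V → ℂ} (hf : Hom a b f) {x : V} (hx : x ≠ 0) (w : ℂ) :
    fderiv ℝ f x (w • x) = (a * w + b * conj w) * f x := by
  have h1 : HasDerivAt (fun s : ℝ => Complex.exp ((s : ℂ) * w)) w 0 := by
    have h2 : HasDerivAt (fun s : ℝ => (s : ℂ) * w) (1 * w) 0 :=
      (Complex.ofRealCLM.hasDerivAt (x := (0 : ℝ))).mul_const w
    have h3 := h2.cexp
    simpa using h3
  have h2 : HasDerivAt (fun s : ℝ => Complex.exp ((s : ℂ) * w) • x) (w • x) 0 := h1.smul_const x
  have h0 : Complex.exp (((0 : ℝ) : ℂ) * w) • x = x := by simp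
  have h3 : HasFDerivAt f (fderiv ℝ f x) (Complex.exp (((0 : ℝ) : ℂ) * w) • x) := by
    rw [h0]
    exact (hf.diffAt hx).hasFDerivAt
  have h4 : HasDerivAt (fun s : ℝ => f (Complex.exp ((s : ℂ) * w) • x)) (fderiv ℝ f x (w • x)) 0 :=
    h3.comp_hasDerivAt 0 h2
  have h5 : (fun s : ℝ => f (Complex.exp ((s : ℂ) * w) • x)) =
      fun s : ℝ => Complex.exp ((s : ℂ) * (a * w + b * conj w)) * f x := by
    funext s
    rw [hf.hom _ x (Complex.exp_ne_zero _), ← Complex.exp_conj, ← Complex.exp_int_mul,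
      ← Complex.exp_int_mul, ← Complex.exp_add]
    congr 2
    rw [map_mul, Complex.conj_ofReal]
    ring
  have h6 : HasDerivAt (fun s : ℝ => Complex.exp ((s : ℂ) * (a * w + b * conj w)) * f x)
      ((a * w + b * conj w) * f x) 0 := by
    have h7 : HasDerivAt (fun s : ℝ => (s : ℂ) * (a * w + b * conj w)) (1 * (a * w + b * conj w)) 0 :=
      (Complex.ofRealCLM.hasDerivAt (x := (0 : ℝ))).mul_const _
    have h8 := h7.cexp.mul_const (f x)
    simpa using h8
  rw [h5] at h4
  exact h4.unique h6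

theorem HomA_two {a b : ℤ} {f : V → ℂ} (hf : Hom a b f) {x : V} (hx : x ≠ 0) (w : ℂ) :
    w * ∑ j, x j * dz j f x + conj w * ∑ j, conj (x j) * dzb j f x =
      (a * w + b * conj w) * f x := by
  rw [← HomA_euler hf hx w, fderiv_eq, Finset.mul_sum, Finset.mul_sum, ← Finset.sum_add_distrib]
  refine Finset.sum_congr rfl fun j _ => ?_
  rw [Pi.smul_apply, smul_eq_mul, map_mul]
  ring

theorem euler {a b : ℤ} {f : V → ℂ} (hf : Hom a b f) {x : V} (hx : x ≠ 0) :
    ∑ j, x j * dz j f x = a * f x := by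
  have h1 := HomA_two hf hx 1
  have h2 := HomA_two hf hx Complex.I
  rw [map_one] at h1
  rw [Complex.conj_I] at h2
  have hI : Complex.I * Complex.I = -1 := Complex.I_mul_I
  linear_combination (1 / 2) * h1 - Complex.I / 2 * h2 +
    (1 / 2) * (∑ j, x j * dz j f x - ∑ j, conj (x j) * dzb j f x - (a - b) * f x) * hI

theorem eulerb {a b : ℤ} {f : V → ℂ} (hf : Hom a b f) {x : V} (hx : x ≠ 0) :
    ∑ j, conj (x j) * dzb j f x = b * f x := by
  have h1 := HomA_two hf hx 1
  have h3 := euler hf hx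
  rw [map_one] at h1
  linear_combination h1 - h3

theorem Hom.chom {a b : ℤ} {f : V → ℂ} (hf : Hom a b f) : CHom a b f := ⟨hf.smooth.continuousOn, hf.hom⟩

theorem isFun_iff {u : V → ℂ} : IsFun u ↔ Hom 0 0 u := by
  constructor
  · intro h
    exact ⟨h.smooth, fun l x hl => by rw [h.hom l x hl]; simp⟩
  · intro h
    exact ⟨h.smooth, fun l x hl => by rw [h.hom l x hl]; simp⟩

theorem isCov_hom {ζ : V → V} (hζ : IsCov ζ) (j : Fin 3) : Hom (-1) 0 (fun x => ζ x j) := by
  refine ⟨contDiffOn_pi.1 hζ.smooth j, fun l x hl => ?_⟩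
  simp only [hζ.hom l x hl, Pi.smul_apply, smul_eq_mul, zpow_neg, zpow_one, zpow_zero, mul_one]

end Pool.Agent.H85.DC
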