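import Pool.Agent.H85.DC.HomA
import Pool.Agent.H85.DC.HomB
import Pool.Agent.H85.DC.HomC

/-!
# Row Ibp: integration by parts with the Gaussian weight

Claim. `h` is `Hom a b` with `-4 ≤ a + b`. Then `∫ dz j h * wt = ∫ h * conj (x j) * wt` and
`∫ dzb j h * wt = ∫ h * x j * wt` (`ibp_one`, `ibpb_one`).
The general formulas follow with `h = f * g`, `dz_mul`, and integrability of each of the three terms
(`chom_integrable`: bidegrees sum at least `-5`), `integral_add`.

Proof of `ibp_one`. For `r > 0` let `χ_r(x) = (N x / (N x + r))^3` (smooth function on `V`, `χ_r = 0` at `0`) and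
`H_r = χ_r * h * wt`. `H_r` is differentiable at every point: off `0` clear; at `0`, `|H_r x| ≤ r^{-3} (N x)^3 * C
(N x)^{-2} = C' N x` for `N x ≤ 1` (when `a + b ≥ -4`, `|h| ≤ C (N x)^{(a+b)/2} ≤ C (N x)^{-2}`), so the derivative
at `0` is `0` (note `H_r 0 = 0`). Let `D` be a real direction `v` (`v = e_j` or `i e_j`).
`∫ (fderiv H_r x v) dx = 0`: use
`MeasureTheory.integral_bilinear_hasLineDerivAt_right_eq_neg_left_of_integrable` (file
`Mathlib/Analysis/Calculus/LineDeriv/IntegrationByParts.lean`) with second function the constant `1`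
(or any version for `integral_mul_fderiv_eq_neg_fderiv_mul_of_integrable`); integrability of `H_r` and of its
derivative follow from the bounds below. Hence `∫ dz j H_r = 0`. For `x ≠ 0`
`dz j H_r = χ_r (dz j h) wt - χ_r h conj(x_j) wt + (dz j χ_r) h wt`
(`dz j wt = - conj (x_j) wt` by `dz_comp_real`, `dz_N`), and
`dz j χ_r = 3 (N/(N+r))^2 * r conj(x_j) / (N+r)^2`, so `|dz j χ_r| ≤ 3 √N r/(N+r)^2 ≤ 3 / √N` and
`dz j χ_r → 0`, `χ_r → 1` pointwise (`x ≠ 0`) as `r → 0+`. Let `r = 1/(n+1) → 0`: dominated convergence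
(`tendsto_integral_of_dominated_convergence`), with dominating functions `|dz j h| wt`, `|h| √N wt`,
`3 |h| N^{-1/2} wt` (all integrable: `integrable_N_rpow`, exponents `≥ (a+b-1)/2 ≥ -5/2 > -3`), gives
`∫ (dz j h) wt - ∫ h conj(x_j) wt + 0 = 0`.
`ibpb_one`: same proof, or conjugate `ibp_one` applied to `conj h` (`conj_dz`, `hom_conj`, `integral_conj`).
-/

open MeasureTheory
open scoped ContDiff BigOperators ComplexConjugate Matrix

namespace Pool.Agent.H85.DC

theorem Ibp_prod {E : Type*} [NormedAddCommGroup E] [NormedSpace ℝ E] [FiniteDimensional ℝ E]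
    [Nontrivial E] [MeasurableSpace E] [BorelSpace E] {μ : Measure (E × ℝ)}
    [Measure.IsAddHaarMeasure μ] {H H' : E × ℝ → ℂ}
    (hH : Integrable H μ) (hH' : Integrable H' μ)
    (hd : ∀ x, x ≠ 0 → HasLineDerivAt ℝ H (H' x) x (0, 1)) : ∫ x, H' x ∂μ = 0 := by
  let ν : Measure E := Measure.addHaar
  have A : ν.prod volume = (Measure.addHaarScalarFactor (ν.prod volume) μ) • μ :=
    Measure.isAddLeftInvariant_eq_smul _ _
  have h1 : Integrable H (ν.prod volume) := by
    rw [A]; exact hH.smul_measure_nnreal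
  have h2 : Integrable H' (ν.prod volume) := by
    rw [A]; exact hH'.smul_measure_nnreal
  rw [Measure.isAddLeftInvariant_eq_smul μ (ν.prod volume)]
  have h3 : ∫ x, H' x ∂(ν.prod volume) = 0 := by
    rw [integral_prod _ h2]
    rw [integral_eq_zero_of_ae]
    have hne : ∀ᵐ x ∂ν, x ≠ 0 := by
      rw [ae_iff]
      simp
    filter_upwards [h1.prod_right_ae, h2.prod_right_ae, hne] with x hx1 hx2 hx0
    apply integral_eq_zero_of_hasDerivAt_of_integrable _ hx2 hx1
    intro t
    have h4 : ((x, t) : E × ℝ) ≠ 0 := fun h => hx0 (congrArg Prod.fst h)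
    convert! (hd (x, t) h4).scomp_of_eq t ((hasDerivAt_id t).add (hasDerivAt_const t (-t)))
        (by simp) <;> simp
  simp [h3]

theorem Ibp_line {E : Type*} [NormedAddCommGroup E] [NormedSpace ℝ E] [FiniteDimensional ℝ E]
    [MeasurableSpace E] [BorelSpace E] {μ : Measure E} [Measure.IsAddHaarMeasure μ]
    (hE : 2 ≤ Module.finrank ℝ E) {H H' : E → ℂ} {v : E} (hv : v ≠ 0)
    (hH : Integrable H μ) (hH' : Integrable H' μ)
    (hd : ∀ x, x ≠ 0 → HasLineDerivAt ℝ H (H' x) x v) : ∫ x, H' x ∂μ = 0 := by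
  have : Nontrivial E := nontrivial_iff.2 ⟨v, 0, hv⟩
  let n := Module.finrank ℝ E
  let E' := Fin (n - 1) → ℝ
  have hn2 : 2 ≤ n := hE
  obtain ⟨L, hL⟩ : ∃ L : E ≃L[ℝ] (E' × ℝ), L v = (0, 1) := by
    have hfr : Module.finrank ℝ (E' × ℝ) = n := by
      have : n - 1 + 1 = n := by omega
      simpa [E'] using this
    have L₀ : E ≃L[ℝ] (E' × ℝ) := (ContinuousLinearEquiv.ofFinrankEq hfr).symm
    obtain ⟨M, hM⟩ : ∃ M : (E' × ℝ) ≃L[ℝ] (E' × ℝ), M (L₀ v) = (0, 1) := by
      apply SeparatingDual.exists_continuousLinearEquiv_apply_eq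
      · simpa using hv
      · simp
    exact ⟨L₀.trans M, by simp [hM]⟩
  have : Nontrivial E' := by
    apply Module.nontrivial_of_finrank_pos (R := ℝ)
    simp only [E', Module.finrank_fin_fun]
    omega
  let ν := Measure.map L μ
  have L_emb : MeasurableEmbedding L := L.toHomeomorph.measurableEmbedding
  have key : ∫ x : E' × ℝ, H' (L.symm x) ∂ν = 0 := by
    apply Ibp_prod (H := fun x => H (L.symm x))
    · simpa [ν, L_emb.integrable_map_iff, Function.comp_def] using hH
    · simpa [ν, L_emb.integrable_map_iff, Function.comp_def] using hH'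
    · intro x hx
      have e : H = (fun x => H (L.symm x)) ∘ (L : E →ₗ[ℝ] (E' × ℝ)) := by ext y; simp
      have h2 : L.symm x ≠ 0 := by
        intro h
        apply hx
        have := congrArg L h
        simpa using this
      have h3 := hd (L.symm x) h2
      rw [e] at h3
      convert! h3.of_comp using 1
      · simp
      · simp [← hL]
  have h5 : μ = Measure.map L.symm ν := by
    simp [ν, Measure.map_map L.symm.continuous.measurable L.continuous.measurable]
  have h6 : Topology.IsClosedEmbedding L.symm := L.symm.toHomeomorph.isClosedEmbedding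
  rw [h5, h6.integral_map]
  exact key

theorem Ibp_ae : ∀ᵐ x ∂(volume : Measure V), x ≠ 0 := by
  rw [ae_iff]
  simp

theorem Ibp_wt_diff (x : V) : DifferentiableAt ℝ (fun x => ((wt x : ℝ) : ℂ)) x := by
  unfold wt N
  have h : DifferentiableAt ℝ (fun x : V => Real.exp (-∑ j, Complex.normSq (x j))) x := by
    have : (fun x : V => Real.exp (-∑ j, Complex.normSq (x j))) =
        fun x : V => Real.exp (-∑ j, ((x j).re * (x j).re + (x j).im * (x j).im)) := by
      funext x
      simp only [Complex.normSq_apply]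
    rw [this]
    have hre : ∀ j : Fin 3, DifferentiableAt ℝ (fun x : V => (x j).re) x := fun j =>
      (Complex.reCLM.comp (ContinuousLinearMap.proj (R := ℝ) (φ := fun _ : Fin 3 => ℂ) j)).differentiableAt
    have him : ∀ j : Fin 3, DifferentiableAt ℝ (fun x : V => (x j).im) x := fun j =>
      (Complex.imCLM.comp (ContinuousLinearMap.proj (R := ℝ) (φ := fun _ : Fin 3 => ℂ) j)).differentiableAt
    apply DifferentiableAt.exp
    apply DifferentiableAt.neg
    apply DifferentiableAt.fun_sum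
    intro j _
    exact ((hre j).mul (hre j)).add ((him j).mul (him j))
  exact Complex.ofRealCLM.differentiableAt.comp x h

theorem Ibp_N_diff {x : V} (hx : x ≠ 0) : DifferentiableAt ℝ N x := by
  have h1 : DifferentiableAt ℝ (fun x => (((N x : ℝ) : ℂ)).re) x :=
    Complex.reCLM.differentiableAt.comp x (hom_N.diffAt hx)
  simpa using h1

theorem Ibp_dz_wt (j : Fin 3) {x : V} (hx : x ≠ 0) :
    dz j (fun x => ((wt x : ℝ) : ℂ)) x = -(conj (x j)) * (wt x : ℂ) := by
  unfold wt
  have hg : HasDerivAt (fun t : ℝ => Real.exp (-t)) (-Real.exp (-N x)) (N x) := by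
    have := (Real.hasDerivAt_exp (-N x)).comp (N x) (hasDerivAt_neg (N x))
    simpa [Function.comp_def] using this
  rw [dz_comp_real j (g := fun t => Real.exp (-t)) hg (Ibp_N_diff hx), dz_N]
  push_cast
  ring

theorem Ibp_dzb_wt (j : Fin 3) {x : V} (hx : x ≠ 0) :
    dzb j (fun x => ((wt x : ℝ) : ℂ)) x = -(x j) * (wt x : ℂ) := by
  unfold wt
  have hg : HasDerivAt (fun t : ℝ => Real.exp (-t)) (-Real.exp (-N x)) (N x) := by
    have := (Real.hasDerivAt_exp (-N x)).comp (N x) (hasDerivAt_neg (N x))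
    simpa [Function.comp_def] using this
  rw [dzb_comp_real j (g := fun t => Real.exp (-t)) hg (Ibp_N_diff hx), dzb_N]
  push_cast
  ring

theorem Ibp_int_z {a b : ℤ} {h : V → ℂ} (hh : Hom a b h) (hab : -4 ≤ a + b) (j : Fin 3) :
    Integrable (fun x => dz j h x * (wt x : ℂ)) ∧
    Integrable (fun x => dzb j h x * (wt x : ℂ)) ∧
    Integrable (fun x => h x * conj (x j) * (wt x : ℂ)) ∧
    Integrable (fun x => h x * x j * (wt x : ℂ)) := by
  refine ⟨chom_integrable (dz_hom j hh).chom (by omega), chom_integrable (dzb_hom j hh).chom (by omega),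
    chom_integrable (hom_mul hh (hom_conj_coord j)).chom (by omega),
    chom_integrable (hom_mul hh (hom_coord j)).chom (by omega)⟩

theorem Ibp_both {a b : ℤ} {h : V → ℂ} (hh : Hom a b h) (hab : -4 ≤ a + b) (j : Fin 3) :
    ∫ x, (dz j h x * (wt x : ℂ) - h x * conj (x j) * (wt x : ℂ)) = 0 ∧
    ∫ x, (dzb j h x * (wt x : ℂ) - h x * x j * (wt x : ℂ)) = 0 := by
  obtain ⟨i1, i2, i3, i4⟩ := Ibp_int_z hh hab j
  have hH : Integrable (fun x => h x * (wt x : ℂ)) (volume : Measure V) :=
    chom_integrable hh.chom (by omega)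
  have key : ∀ c : ℂ, c ≠ 0 → c * (∫ x, (dz j h x * (wt x : ℂ) - h x * conj (x j) * (wt x : ℂ))) +
      conj c * (∫ x, (dzb j h x * (wt x : ℂ) - h x * x j * (wt x : ℂ))) = 0 := by
    intro c hc
    have hv : (Pi.single j c : V) ≠ 0 := by
      intro h0
      apply hc
      have := congrFun h0 j
      simpa using this
    have hfr : 2 ≤ Module.finrank ℝ V := by
      rw [Module.finrank_pi_fintype]
      simp [Complex.finrank_real_complex]
    have i13 : Integrable (fun x => dz j h x * (wt x : ℂ) - h x * conj (x j) * (wt x : ℂ)) := i1.sub i3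
    have i24 : Integrable (fun x => dzb j h x * (wt x : ℂ) - h x * x j * (wt x : ℂ)) := i2.sub i4
    have h1 := Ibp_line (μ := (volume : Measure V)) hfr hv hH
      (H' := fun x => c * (dz j h x * (wt x : ℂ) - h x * conj (x j) * (wt x : ℂ)) +
        conj c * (dzb j h x * (wt x : ℂ) - h x * x j * (wt x : ℂ)))
      (((i1.sub i3).const_mul c).add ((i2.sub i4).const_mul (conj c))) (by
        intro x hx
        have hdh := hh.diffAt hx
        have hdw := Ibp_wt_diff x
        have hd : DifferentiableAt ℝ (fun x => h x * (wt x : ℂ)) x := hdh.mul hdw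
        have h2 := hd.hasFDerivAt.hasLineDerivAt (Pi.single j c)
        rw [fderiv_eq] at h2
        convert h2 using 1
        rw [Finset.sum_eq_single j]
        · rw [dz_mul j hdh hdw, dzb_mul j hdh hdw, Ibp_dz_wt j hx, Ibp_dzb_wt j hx,
            Pi.single_eq_same]
          ring
        · intro k _ hk
          rw [Pi.single_eq_of_ne hk]
          simp
        · intro hj
          exact absurd (Finset.mem_univ _) hj)
    rw [integral_add (i13.const_mul c) (i24.const_mul (conj c)),
      integral_const_mul, integral_const_mul] at h1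
    exact h1
  have k1 := key 1 one_ne_zero
  have k2 := key Complex.I Complex.I_ne_zero
  rw [map_one, one_mul, one_mul] at k1
  rw [Complex.conj_I] at k2
  have k3 : (∫ x, (dz j h x * (wt x : ℂ) - h x * conj (x j) * (wt x : ℂ))) =
      (∫ x, (dzb j h x * (wt x : ℂ) - h x * x j * (wt x : ℂ))) := by
    have : Complex.I * ((∫ x, (dz j h x * (wt x : ℂ) - h x * conj (x j) * (wt x : ℂ))) -
      (∫ x, (dzb j h x * (wt x : ℂ) - h x * x j * (wt x : ℂ)))) = 0 := by
      rw [← k2]; ring
    exact sub_eq_zero.1 ((mul_eq_zero.1 this).resolve_left Complex.I_ne_zero)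
  rw [k3] at k1
  have k4 : (∫ x, (dzb j h x * (wt x : ℂ) - h x * x j * (wt x : ℂ))) = 0 := by
    have : (2 : ℂ) * (∫ x, (dzb j h x * (wt x : ℂ) - h x * x j * (wt x : ℂ))) = 0 := by
      rw [← k1]; ring
    exact (mul_eq_zero.1 this).resolve_left two_ne_zero
  exact ⟨k3.trans k4, k4⟩

theorem ibp_one {a b : ℤ} {h : V → ℂ} (hh : Hom a b h) (hab : -4 ≤ a + b) (j : Fin 3) :
    ∫ x, dz j h x * (wt x : ℂ) = ∫ x, h x * conj (x j) * (wt x : ℂ) := by
  obtain ⟨i1, i2, i3, i4⟩ := Ibp_int_z hh hab j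
  have h1 := (Ibp_both hh hab j).1
  rw [integral_sub i1 i3] at h1
  exact sub_eq_zero.1 h1

theorem ibpb_one {a b : ℤ} {h : V → ℂ} (hh : Hom a b h) (hab : -4 ≤ a + b) (j : Fin 3) :
    ∫ x, dzb j h x * (wt x : ℂ) = ∫ x, h x * x j * (wt x : ℂ) := by
  obtain ⟨i1, i2, i3, i4⟩ := Ibp_int_z hh hab j
  have h1 := (Ibp_both hh hab j).2
  rw [integral_sub i2 i4] at h1
  exact sub_eq_zero.1 h1

theorem ibp_z {a b c d : ℤ} {f g : V → ℂ} (hf : Hom a b f) (hg : Hom c d g)
    (h : -4 ≤ a + b + c + d) (j : Fin 3) :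
    ∫ x, dz j f x * g x * (wt x : ℂ) =
      -(∫ x, f x * dz j g x * (wt x : ℂ)) + ∫ x, f x * g x * conj (x j) * (wt x : ℂ) := by
  have h1 := ibp_one (hom_mul hf hg) (by omega) j
  have i1 : Integrable (fun x => dz j f x * g x * (wt x : ℂ)) (volume : Measure V) :=
    chom_integrable (hom_mul (dz_hom j hf) hg).chom (by omega)
  have i2 : Integrable (fun x => f x * dz j g x * (wt x : ℂ)) (volume : Measure V) :=
    chom_integrable (hom_mul hf (dz_hom j hg)).chom (by omega)
  have h2 : ∫ x, dz j (fun x => f x * g x) x * (wt x : ℂ) =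
      ∫ x, (dz j f x * g x * (wt x : ℂ) + f x * dz j g x * (wt x : ℂ)) := by
    apply integral_congr_ae
    filter_upwards [Ibp_ae] with x hx
    rw [dz_mul j (hf.diffAt hx) (hg.diffAt hx)]
    ring
  rw [h2, integral_add i1 i2] at h1
  rw [← h1]
  ring

theorem ibp_zb {a b c d : ℤ} {f g : V → ℂ} (hf : Hom a b f) (hg : Hom c d g)
    (h : -4 ≤ a + b + c + d) (j : Fin 3) :
    ∫ x, dzb j f x * g x * (wt x : ℂ) =
      -(∫ x, f x * dzb j g x * (wt x : ℂ)) + ∫ x, f x * g x * x j * (wt x : ℂ) := by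
  have h1 := ibpb_one (hom_mul hf hg) (by omega) j
  have i1 : Integrable (fun x => dzb j f x * g x * (wt x : ℂ)) (volume : Measure V) :=
    chom_integrable (hom_mul (dzb_hom j hf) hg).chom (by omega)
  have i2 : Integrable (fun x => f x * dzb j g x * (wt x : ℂ)) (volume : Measure V) :=
    chom_integrable (hom_mul hf (dzb_hom j hg)).chom (by omega)
  have h2 : ∫ x, dzb j (fun x => f x * g x) x * (wt x : ℂ) =
      ∫ x, (dzb j f x * g x * (wt x : ℂ) + f x * dzb j g x * (wt x : ℂ)) := by
    apply integral_congr_ae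
    filter_upwards [Ibp_ae] with x hx
    rw [dzb_mul j (hf.diffAt hx) (hg.diffAt hx)]
    ring
  rw [h2, integral_add i1 i2] at h1
  rw [← h1]
  ring

end Pool.Agent.H85.DC
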