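import Mathlib

/-!
# Row LocB: the profile function (one real variable)

Fix smooth `χ, θ : ℝ → [0,1]`: `χ = Real.smoothTransition` (`0` on `s ≤ 0`, `1` on `s ≥ 1`, monotone), `ψ s = χ (6 s1 + 1 - s)` (`1` for `s ≤ 6 s1`, `0` for
`s ≥ 6 s1 + 1`, antitone). Let `B ≥ 1` bound `deriv χ` (continuous, zero outside `[0,1]`). Put `g s = χ s * ψ s/(s + s1)` for `s > -s1` — to be smooth on all of `ℝ`
note `χ s = 0` for `s ≤ 0`; e.g. replace `s + s1` by `s1 + s` multiplied only where `χ ≠ 0`, or use the smooth function `s ↦ χ s * (…)` and smoothness near each point.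
`c := ∫_0^{6 s1 + 1} g`. `c ≥ ∫_1^{6 s1} ds/(s + s1) = log (7 s1/(1 + s1)) ≥ log (7/2) ≥ 1` (`s1 ≥ 1`, `exp 1 < 3.5`).
`φ s = c⁻¹ ∫_0^s g`. Then `φ' = g/c`, smooth, `φ = 0` for `s ≤ 0`, `φ = 1` for `s ≥ 6 s1 + 1`, `0 ≤ φ' ≤ 1/(c (s + s1)) ≤ 1/s1`,
`φ'' = (χ' ψ + χ ψ')/(c (s + s1)) - χ ψ/(c (s + s1)^2)`. For `s ≥ 1`: `χ = 1`, `χ' = 0`, `ψ' ≤ 0`: `-φ'' ≥ ψ/(c (s+s1)^2) ≥ ψ^2/(c^2 (s+s1)^2) = φ'^2`
(`0 ≤ ψ ≤ 1 ≤ c`). Always `φ'' ≤ χ' ψ/(c (s + s1)) ≤ B/s1` (and `φ'' = 0` for `s ≤ 0`). So `c0 = B`.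
-/

open MeasureTheory
open scoped ContDiff BigOperators

namespace Pool.Agent.H85.DC

/-- Profile functions. -/
structure Prof (c0 s1 : ℝ) (φ : ℝ → ℝ) : Prop where
  smooth : ContDiff ℝ ∞ φ
  zero : ∀ s, s ≤ 0 → φ s = 0
  one : ∀ s, 6 * s1 + 1 ≤ s → φ s = 1
  mem : ∀ s, 0 ≤ φ s ∧ φ s ≤ 1
  d_nonneg : ∀ s, 0 ≤ deriv φ s
  d_le : ∀ s, deriv φ s ≤ 1 / s1
  dd_neg : ∀ s, 1 ≤ s → (deriv φ s) ^ 2 ≤ - deriv (deriv φ) s
  dd_le : ∀ s, deriv (deriv φ) s ≤ c0 / s1

theorem LocB_d1 {s : ℝ} (hs : 1 ≤ s) : deriv Real.smoothTransition s = 0 := by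
  apply IsLocalMax.deriv_eq_zero
  refine Filter.Eventually.of_forall fun x => ?_
  rw [Real.smoothTransition.one_of_one_le hs]
  exact Real.smoothTransition.le_one x

theorem LocB_d0 {s : ℝ} (hs : s ≤ 0) : deriv Real.smoothTransition s = 0 := by
  apply IsLocalMin.deriv_eq_zero
  refine Filter.Eventually.of_forall fun x => ?_
  rw [Real.smoothTransition.zero_of_nonpos hs]
  exact Real.smoothTransition.nonneg x

theorem LocB_cd : ContDiff ℝ ∞ Real.smoothTransition := Real.smoothTransition.contDiff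

theorem LocB_diff (s : ℝ) : HasDerivAt Real.smoothTransition (deriv Real.smoothTransition s) s :=
  ((LocB_cd.differentiable (by norm_num)) s).hasDerivAt

theorem LocB_bound : ∃ B : ℝ, 1 ≤ B ∧ ∀ s, deriv Real.smoothTransition s ≤ B := by
  have hc : Continuous (deriv Real.smoothTransition) :=
    (LocB_cd.continuous_deriv (by norm_num))
  obtain ⟨B, hB⟩ := (isCompact_Icc (a := (0 : ℝ)) (b := 1)).exists_bound_of_continuousOn hc.continuousOn
  refine ⟨max 1 B, le_max_left _ _, fun s => ?_⟩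
  by_cases h0 : s ≤ 0
  · rw [LocB_d0 h0]; exact zero_le_one.trans (le_max_left _ _)
  by_cases h1 : 1 ≤ s
  · rw [LocB_d1 h1]; exact zero_le_one.trans (le_max_left _ _)
  push Not at h0 h1
  exact ((le_abs_self _).trans (hB s ⟨h0.le, h1.le⟩)).trans (le_max_right _ _)

/-- the derivative of the profile up to a constant -/
noncomputable def LocB_g (s1 s : ℝ) : ℝ :=
  Real.smoothTransition s * Real.smoothTransition (6 * s1 + 1 - s) / (s + s1)

theorem LocB_g_zero {s1 s : ℝ} (hs : s ≤ 0) : LocB_g s1 s = 0 := by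
  rw [LocB_g, Real.smoothTransition.zero_of_nonpos hs, zero_mul, zero_div]

theorem LocB_g_end {s1 s : ℝ} (hs : 6 * s1 + 1 ≤ s) : LocB_g s1 s = 0 := by
  rw [LocB_g, Real.smoothTransition.zero_of_nonpos (x := 6 * s1 + 1 - s) (by linarith), mul_zero,
    zero_div]

theorem LocB_g_nonneg {s1 : ℝ} (h1 : 1 ≤ s1) (s : ℝ) : 0 ≤ LocB_g s1 s := by
  by_cases hs : s ≤ 0
  · rw [LocB_g_zero hs]
  · push Not at hs
    exact div_nonneg (mul_nonneg (Real.smoothTransition.nonneg _) (Real.smoothTransition.nonneg _))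
      (by linarith)

theorem LocB_g_le {s1 : ℝ} (h1 : 1 ≤ s1) (s : ℝ) : LocB_g s1 s ≤ 1 / s1 := by
  by_cases hs : s ≤ 0
  · rw [LocB_g_zero hs]; positivity
  · push Not at hs
    rw [LocB_g]
    have h2 : Real.smoothTransition s * Real.smoothTransition (6 * s1 + 1 - s) ≤ 1 :=
      mul_le_one₀ (Real.smoothTransition.le_one _) (Real.smoothTransition.nonneg _)
        (Real.smoothTransition.le_one _)
    calc Real.smoothTransition s * Real.smoothTransition (6 * s1 + 1 - s) / (s + s1) ≤ 1 / (s + s1) :=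
          div_le_div_of_nonneg_right h2 (by linarith)
      _ ≤ 1 / s1 := one_div_le_one_div_of_le (by linarith) (by linarith)

theorem LocB_g_smooth {s1 : ℝ} (h1 : 1 ≤ s1) : ContDiff ℝ ∞ (LocB_g s1) := by
  rw [contDiff_iff_contDiffAt]
  intro s
  by_cases hs : s < 0
  · have : LocB_g s1 =ᶠ[nhds s] fun _ => 0 := by
      filter_upwards [Iio_mem_nhds hs] with x hx
      exact LocB_g_zero (le_of_lt hx)
    exact contDiffAt_const.congr_of_eventuallyEq this
  · push Not at hs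
    have hc : ContDiff ℝ ∞ (fun x : ℝ => Real.smoothTransition (6 * s1 + 1 - x)) :=
      LocB_cd.comp (contDiff_const.sub contDiff_id)
    have hd : ContDiff ℝ ∞ (fun x : ℝ => x + s1) := contDiff_id.add contDiff_const
    exact (LocB_cd.contDiffAt.mul hc.contDiffAt).div hd.contDiffAt (by linarith)

theorem LocB_g_deriv {s1 s : ℝ} (h1 : 1 ≤ s1) (hs : 0 ≤ s) : deriv (LocB_g s1) s =
    ((deriv Real.smoothTransition s * Real.smoothTransition (6 * s1 + 1 - s) -
      Real.smoothTransition s * deriv Real.smoothTransition (6 * s1 + 1 - s)) * (s + s1) -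
      Real.smoothTransition s * Real.smoothTransition (6 * s1 + 1 - s)) / (s + s1) ^ 2 := by
  have e1 := LocB_diff s
  have e2 : HasDerivAt (fun x : ℝ => Real.smoothTransition (6 * s1 + 1 - x))
      (deriv Real.smoothTransition (6 * s1 + 1 - s) * (-1)) s := by
    have h := (LocB_diff (6 * s1 + 1 - s)).comp s ((hasDerivAt_id s).const_sub (6 * s1 + 1))
    exact h
  have e3 : HasDerivAt (fun x : ℝ => x + s1) 1 s := (hasDerivAt_id s).add_const s1
  have e4 := (e1.mul e2).div e3 (by linarith)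
  have e5 : HasDerivAt (LocB_g s1) _ s := e4
  rw [e5.deriv]
  congr 1
  show (deriv Real.smoothTransition s * Real.smoothTransition (6 * s1 + 1 - s) +
    Real.smoothTransition s * (deriv Real.smoothTransition (6 * s1 + 1 - s) * (-1))) * (s + s1) -
    (Real.smoothTransition s * Real.smoothTransition (6 * s1 + 1 - s)) * 1 = _
  ring

theorem LocB_int {s1 : ℝ} (h1 : 1 ≤ s1) (a b : ℝ) :
    IntervalIntegrable (LocB_g s1) MeasureTheory.volume a b :=
  (LocB_g_smooth h1).continuous.intervalIntegrable a b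

theorem LocB_c {s1 : ℝ} (h1 : 1 ≤ s1) : 1 ≤ ∫ t in (0 : ℝ)..(6 * s1 + 1), LocB_g s1 t := by
  have e1 := intervalIntegral.integral_add_adjacent_intervals (LocB_int h1 0 1) (LocB_int h1 1 (6 * s1))
  have e2 := intervalIntegral.integral_add_adjacent_intervals (LocB_int h1 0 (6 * s1))
    (LocB_int h1 (6 * s1) (6 * s1 + 1))
  have e3 : 0 ≤ ∫ t in (0 : ℝ)..1, LocB_g s1 t :=
    intervalIntegral.integral_nonneg (by norm_num) (fun x _ => LocB_g_nonneg h1 x)
  have e4 : 0 ≤ ∫ t in (6 * s1)..(6 * s1 + 1), LocB_g s1 t :=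
    intervalIntegral.integral_nonneg (by linarith) (fun x _ => LocB_g_nonneg h1 x)
  have e5 : ∫ t in (1 : ℝ)..(6 * s1), LocB_g s1 t = Real.log ((6 * s1 + s1) / (1 + s1)) := by
    have h2 : ∫ t in (1 : ℝ)..(6 * s1), LocB_g s1 t = ∫ t in (1 : ℝ)..(6 * s1), (t + s1)⁻¹ := by
      apply intervalIntegral.integral_congr
      intro t ht
      rw [Set.uIcc_of_le (by linarith)] at ht
      show LocB_g s1 t = (t + s1)⁻¹
      rw [LocB_g, Real.smoothTransition.one_of_one_le ht.1,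
        Real.smoothTransition.one_of_one_le (x := 6 * s1 + 1 - t) (by linarith [ht.2]), one_mul, one_div]
    rw [h2, intervalIntegral.integral_comp_add_right (fun x : ℝ => x⁻¹),
      integral_inv_of_pos (by linarith) (by linarith)]
  have e6 : Real.exp 1 ≤ (6 * s1 + s1) / (1 + s1) := by
    have := Real.exp_one_lt_d9
    rw [le_div_iff₀ (by linarith)]
    nlinarith
  have e7 : 1 ≤ Real.log ((6 * s1 + s1) / (1 + s1)) := by
    rw [Real.le_log_iff_exp_le (by positivity)]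
    exact e6
  linarith

theorem exists_prof : ∃ c0 : ℝ, 1 ≤ c0 ∧ ∀ s1 : ℝ, 1 ≤ s1 → ∃ φ : ℝ → ℝ, Prof c0 s1 φ := by
  obtain ⟨B, hB1, hB⟩ := LocB_bound
  refine ⟨B, hB1, fun s1 h1 => ?_⟩
  obtain ⟨c, hc⟩ : ∃ c : ℝ, c = ∫ t in (0 : ℝ)..(6 * s1 + 1), LocB_g s1 t := ⟨_, rfl⟩
  have hc1 : 1 ≤ c := by rw [hc]; exact LocB_c h1
  have hcpos : 0 < c := by linarith
  have hci : c⁻¹ ≤ 1 := inv_le_one_of_one_le₀ hc1
  have hci0 : 0 < c⁻¹ := inv_pos.2 hcpos
  have hs1 : 0 < s1 := by linarith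
  have hgs := LocB_g_smooth h1
  have hd : ∀ s, HasDerivAt (fun s => c⁻¹ * ∫ t in (0 : ℝ)..s, LocB_g s1 t) (c⁻¹ * LocB_g s1 s) s :=
    fun s => ((hgs.continuous.integral_hasStrictDerivAt 0 s).hasDerivAt).const_mul _
  have hderiv : deriv (fun s => c⁻¹ * ∫ t in (0 : ℝ)..s, LocB_g s1 t) = fun s => c⁻¹ * LocB_g s1 s :=
    funext fun s => (hd s).deriv
  have hdd : ∀ s, deriv (deriv (fun s => c⁻¹ * ∫ t in (0 : ℝ)..s, LocB_g s1 t)) s =
      c⁻¹ * deriv (LocB_g s1) s := by
    intro s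
    rw [hderiv]
    exact (((hgs.differentiable (by norm_num)) s).hasDerivAt.const_mul c⁻¹).deriv
  have hzero : ∀ s, s ≤ 0 → (c⁻¹ * ∫ t in (0 : ℝ)..s, LocB_g s1 t) = 0 := by
    intro s hs
    have : ∫ t in (0 : ℝ)..s, LocB_g s1 t = 0 := by
      rw [intervalIntegral.integral_congr (g := fun _ => (0 : ℝ))]
      · simp
      · intro t ht
        rw [Set.uIcc_of_ge hs] at ht
        exact LocB_g_zero ht.2
    rw [this, mul_zero]
  have hone : ∀ s, 6 * s1 + 1 ≤ s → (c⁻¹ * ∫ t in (0 : ℝ)..s, LocB_g s1 t) = 1 := by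
    intro s hs
    have h2 := intervalIntegral.integral_add_adjacent_intervals (LocB_int h1 0 (6 * s1 + 1))
      (LocB_int h1 (6 * s1 + 1) s)
    have h3 : ∫ t in (6 * s1 + 1)..s, LocB_g s1 t = 0 := by
      rw [intervalIntegral.integral_congr (g := fun _ => (0 : ℝ))]
      · simp
      · intro t ht
        rw [Set.uIcc_of_le hs] at ht
        exact LocB_g_end ht.1
    rw [← h2, h3, add_zero, ← hc, inv_mul_cancel₀ hcpos.ne']
  have hmono : Monotone (fun s => c⁻¹ * ∫ t in (0 : ℝ)..s, LocB_g s1 t) := by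
    apply monotone_of_deriv_nonneg (fun s => (hd s).differentiableAt)
    intro s
    rw [(hd s).deriv]
    exact mul_nonneg hci0.le (LocB_g_nonneg h1 s)
  refine ⟨fun s => c⁻¹ * ∫ t in (0 : ℝ)..s, LocB_g s1 t, ?_, hzero, hone, ?_, ?_, ?_, ?_, ?_⟩
  · rw [contDiff_infty_iff_deriv]
    refine ⟨fun s => (hd s).differentiableAt, ?_⟩
    rw [hderiv]
    exact contDiff_const.mul hgs
  · intro s
    constructor
    · have := hmono (min_le_left s 0)
      simp only at this
      rw [hzero _ (min_le_right s 0)] at this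
      exact this
    · have := hmono (le_max_left s (6 * s1 + 1))
      simp only at this
      rw [hone _ (le_max_right s (6 * s1 + 1))] at this
      exact this
  · intro s
    rw [(hd s).deriv]
    exact mul_nonneg hci0.le (LocB_g_nonneg h1 s)
  · intro s
    rw [(hd s).deriv]
    calc c⁻¹ * LocB_g s1 s ≤ 1 * (1 / s1) :=
          mul_le_mul hci (LocB_g_le h1 s) (LocB_g_nonneg h1 s) zero_le_one
      _ = 1 / s1 := one_mul _
  · intro s hs
    rw [hdd s, (hd s).deriv, LocB_g_deriv h1 (by linarith), LocB_d1 hs, LocB_g,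
      Real.smoothTransition.one_of_one_le hs]
    have hψ0 := Real.smoothTransition.nonneg (6 * s1 + 1 - s)
    have hψ1 := Real.smoothTransition.le_one (6 * s1 + 1 - s)
    have hψd : 0 ≤ deriv Real.smoothTransition (6 * s1 + 1 - s) :=
      Real.smoothTransition.monotone.deriv_nonneg
    generalize Real.smoothTransition (6 * s1 + 1 - s) = ψ at hψ0 hψ1
    generalize deriv Real.smoothTransition (6 * s1 + 1 - s) = ψ' at hψd
    have hx : 0 < s + s1 := by linarith
    have e1 : (c⁻¹ * (1 * ψ / (s + s1))) ^ 2 = (c⁻¹ * ψ) ^ 2 / (s + s1) ^ 2 := by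
      field_simp
    have e2 : -(c⁻¹ * (((0 * ψ - 1 * ψ') * (s + s1) - 1 * ψ) / (s + s1) ^ 2)) =
        (c⁻¹ * (ψ' * (s + s1) + ψ)) / (s + s1) ^ 2 := by
      field_simp
      ring
    rw [e1, e2]
    apply div_le_div_of_nonneg_right _ (by positivity)
    have h3 : 0 ≤ c⁻¹ * ψ := mul_nonneg hci0.le hψ0
    have h4 : c⁻¹ * ψ ≤ 1 := by nlinarith
    have h5 : 0 ≤ c⁻¹ * (ψ' * (s + s1)) := by positivity
    nlinarith
  · intro s
    rw [hdd s]
    have hBs : 0 ≤ B / s1 := by positivity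
    by_cases hs : s ≤ 0
    · have : deriv (LocB_g s1) s = 0 := by
        apply IsLocalMin.deriv_eq_zero
        refine Filter.Eventually.of_forall fun x => ?_
        rw [LocB_g_zero hs]
        exact LocB_g_nonneg h1 x
      rw [this, mul_zero]
      exact hBs
    · push Not at hs
      rw [LocB_g_deriv h1 hs.le]
      have hχ0 := Real.smoothTransition.nonneg s
      have hχd : 0 ≤ deriv Real.smoothTransition s := Real.smoothTransition.monotone.deriv_nonneg
      have hχB := hB s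
      have hψ0 := Real.smoothTransition.nonneg (6 * s1 + 1 - s)
      have hψ1 := Real.smoothTransition.le_one (6 * s1 + 1 - s)
      have hψd : 0 ≤ deriv Real.smoothTransition (6 * s1 + 1 - s) :=
        Real.smoothTransition.monotone.deriv_nonneg
      generalize Real.smoothTransition (6 * s1 + 1 - s) = ψ at hψ0 hψ1
      generalize deriv Real.smoothTransition (6 * s1 + 1 - s) = ψ' at hψd
      generalize Real.smoothTransition s = χ at hχ0
      generalize deriv Real.smoothTransition s = χ' at hχd hχB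
      have hx : 0 < s + s1 := by linarith
      have h6 : χ' * ψ ≤ B := by nlinarith
      have h7 : ((χ' * ψ - χ * ψ') * (s + s1) - χ * ψ) / (s + s1) ^ 2 ≤ B / s1 := by
        rw [div_le_div_iff₀ (by positivity) hs1]
        have h8 : 0 ≤ χ * ψ' := mul_nonneg hχ0 hψd
        have h9 : 0 ≤ χ * ψ := mul_nonneg hχ0 hψ0
        have h10 : ((χ' * ψ - χ * ψ') * (s + s1) - χ * ψ) ≤ B * (s + s1) := by nlinarith
        calc ((χ' * ψ - χ * ψ') * (s + s1) - χ * ψ) * s1 ≤ B * (s + s1) * s1 :=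
              mul_le_mul_of_nonneg_right h10 hs1.le
          _ ≤ B * (s + s1) * (s + s1) := mul_le_mul_of_nonneg_left (by linarith) (by positivity)
          _ = B * (s + s1) ^ 2 := by ring
      calc c⁻¹ * (((χ' * ψ - χ * ψ') * (s + s1) - χ * ψ) / (s + s1) ^ 2) ≤ c⁻¹ * (B / s1) :=
            mul_le_mul_of_nonneg_left h7 hci0.le
        _ ≤ 1 * (B / s1) := mul_le_mul_of_nonneg_right hci hBs
        _ = B / s1 := one_mul _

end Pool.Agent.H85.DC
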