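import Pool.Agent.H85.DC.LocA
import Pool.Agent.H85.DC.LocB

/-!
# Row LocC: the cut-off function at `p`

`cutF φ ρ p x = φ (log ρ^2 - log (τ/(1-τ)))` for `0 < τ < 1`, `1` at `τ = 0`, `0` at `τ = 1` (`τ = tau x p`; `tau 0 p = 1`).
`isFun_cutF`: invariance: `tau (l • x) p = tau x p` (`tau_smul_left`). Smoothness at `x ≠ 0`: if `0 < τ < 1`: composition (`smooth_tt`: near `x`,
`cutF = φ ∘ (log ρ^2 - tt p)`). If `τ = 0`: on the open set `{τ/(1-τ) < ρ^2 e^{-(6 s1+1)}, τ < 1}` the function is `1` (`Prof.one`). If `τ = 1`: on the open set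
`{τ > 1/2, τ/(1-τ) > ρ^2 or τ = 1}`, i.e. `{τ > ρ^2/(1+ρ^2)}`, the function is `0` (`Prof.zero`). (`continuousOn_tau`.)
`dz_cutF`, `L_cutF`: chain rule (`dz_comp_real`, `dzb_comp_real`), with `s = log ρ^2 - log(τ/(1-τ))`: `dz j F = -φ'(s) dz j (tt p)`,
`dz j (dzb k F) = -φ'(s) dz_j dzb_k (tt p) + φ''(s) dz j (tt p) dzb k (tt p)`. (The formula for `dzb k F` holds near `x`.)
-/

open MeasureTheory
open scoped ContDiff BigOperators ComplexConjugate Matrix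

namespace Pool.Agent.H85.DC

/-- The depth `s = log ρ² - log(τ/(1-τ))`. -/
noncomputable def dep (ρ : ℝ) (p x : V) : ℝ := Real.log (ρ ^ 2) - Real.log (tau x p / (1 - tau x p))

/-- The cut-off function. -/
noncomputable def cutF (φ : ℝ → ℝ) (ρ : ℝ) (p x : V) : ℂ :=
  if tau x p ≤ 0 then 1 else if 1 ≤ tau x p then 0 else ((φ (dep ρ p x) : ℝ) : ℂ)

theorem LocC_mid (φ : ℝ → ℝ) (ρ : ℝ) {p y : V} (h0 : 0 < tau y p) (h1 : tau y p < 1) :
    cutF φ ρ p y = ((φ (dep ρ p y) : ℝ) : ℂ) := by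
  unfold cutF
  rw [if_neg (not_le.2 h0), if_neg (not_le.2 h1)]

theorem LocC_dep (ρ : ℝ) (p y : V) :
    ((dep ρ p y : ℝ) : ℂ) = (Real.log (ρ ^ 2) : ℂ) + (-1) * tt p y := by
  unfold dep tt
  push_cast
  ring

theorem LocC_dep_smooth (ρ : ℝ) {p x : V} (hp : N p = 1) (hx : x ≠ 0) (h0 : 0 < tau x p)
    (h1 : tau x p < 1) : ContDiffAt ℝ ∞ (dep ρ p) x := by
  have h := smooth_tt hp hx h0 h1
  have h2 : dep ρ p = fun y => Real.log (ρ ^ 2) - (tt p y).re := by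
    funext y
    unfold dep tt
    rw [Complex.ofReal_re]
  rw [h2]
  exact contDiffAt_const.sub ((Complex.reCLM.contDiff.contDiffAt).comp x h)

theorem LocC_germ (φ : ℝ → ℝ) (ρ : ℝ) {p x : V} (hx : x ≠ 0) (h0 : 0 < tau x p)
    (h1 : tau x p < 1) :
    cutF φ ρ p =ᶠ[nhds x] fun y => ((φ (dep ρ p y) : ℝ) : ℂ) := by
  filter_upwards [(LocA_open p).mem_nhds (show x ∈ LocA_Om p from ⟨hx, h0, h1⟩)] with y hy
  exact LocC_mid φ ρ hy.2.1 hy.2.2

theorem LocC_cont (p : V) {x : V} (hx : x ≠ 0) : ContinuousAt (fun y => tau y p) x :=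
  (continuousOn_tau p).continuousAt (isOpen_compl_singleton.mem_nhds hx)

theorem isRe_cutF (φ : ℝ → ℝ) (ρ : ℝ) (p : V) : IsRe (cutF φ ρ p) := by
  intro x
  unfold cutF
  split_ifs
  · exact map_one _
  · exact map_zero _
  · exact Complex.conj_ofReal _

theorem cutF_mem {c0 s1 : ℝ} {φ : ℝ → ℝ} (hφ : Prof c0 s1 φ) (ρ : ℝ) (p x : V) :
    0 ≤ (cutF φ ρ p x).re ∧ (cutF φ ρ p x).re ≤ 1 := by
  unfold cutF
  split_ifs
  · simp
  · simp
  · rw [Complex.ofReal_re]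
    exact hφ.mem _

theorem cutF_one {c0 s1 : ℝ} {φ : ℝ → ℝ} (hφ : Prof c0 s1 φ) {ρ : ℝ} (hρ : 0 < ρ) {p x : V}
    (h : tau x p < ρ ^ 2 * Real.exp (-(6 * s1 + 1)) / 2) (h2 : tau x p < 1 / 2) :
    cutF φ ρ p x = 1 := by
  by_cases h0 : tau x p ≤ 0
  · unfold cutF
    rw [if_pos h0]
  · push Not at h0
    rw [LocC_mid φ ρ h0 (by linarith), hφ.one]
    · simp
    · have h3 : tau x p / (1 - tau x p) ≤ ρ ^ 2 * Real.exp (-(6 * s1 + 1)) := by
        rw [div_le_iff₀ (by linarith)]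
        have h4 : 0 < ρ ^ 2 * Real.exp (-(6 * s1 + 1)) := by positivity
        nlinarith
      have h5 : 0 < tau x p / (1 - tau x p) := div_pos h0 (by linarith)
      have h6 := Real.log_le_log h5 h3
      rw [Real.log_mul (by positivity) (Real.exp_pos _).ne', Real.log_exp] at h6
      unfold dep
      linarith

theorem cutF_zero {c0 s1 : ℝ} {φ : ℝ → ℝ} (hφ : Prof c0 s1 φ) {ρ : ℝ} (hρ : 0 < ρ) {p x : V}
    (h : ρ ^ 2 ≤ tau x p) : cutF φ ρ p x = 0 := by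
  have hρ2 : 0 < ρ ^ 2 := by positivity
  have h0 : 0 < tau x p := by linarith
  by_cases h1 : 1 ≤ tau x p
  · unfold cutF
    rw [if_neg (not_le.2 h0), if_pos h1]
  · push Not at h1
    rw [LocC_mid φ ρ h0 h1, hφ.zero]
    · simp
    · have h3 : ρ ^ 2 ≤ tau x p / (1 - tau x p) := by
        rw [le_div_iff₀ (by linarith)]
        nlinarith
      have h6 := Real.log_le_log hρ2 h3
      unfold dep
      linarith

theorem LocC_near0 {c0 s1 : ℝ} {φ : ℝ → ℝ} (hφ : Prof c0 s1 φ) {ρ : ℝ} (hρ : 0 < ρ) {p x : V}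
    (hx : x ≠ 0) (h : tau x p ≤ 0) : cutF φ ρ p =ᶠ[nhds x] fun _ => (1 : ℂ) := by
  have h1 : ∀ᶠ y in nhds x, tau y p < ρ ^ 2 * Real.exp (-(6 * s1 + 1)) / 2 :=
    (LocC_cont p hx).eventually_lt continuousAt_const (by
      have : 0 < ρ ^ 2 * Real.exp (-(6 * s1 + 1)) / 2 := by positivity
      linarith)
  have h2 : ∀ᶠ y in nhds x, tau y p < 1 / 2 :=
    (LocC_cont p hx).eventually_lt continuousAt_const (by linarith)
  filter_upwards [h1, h2] with y hy1 hy2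
  exact cutF_one hφ hρ hy1 hy2

theorem LocC_near1 {c0 s1 : ℝ} {φ : ℝ → ℝ} (hφ : Prof c0 s1 φ) {ρ : ℝ} (hρ : 0 < ρ) {p x : V}
    (hx : x ≠ 0) (h : 1 ≤ tau x p) : cutF φ ρ p =ᶠ[nhds x] fun _ => (0 : ℂ) := by
  have hρ2 : 0 < ρ ^ 2 := by positivity
  have h1 : ∀ᶠ y in nhds x, ρ ^ 2 / (1 + ρ ^ 2) < tau y p :=
    continuousAt_const.eventually_lt (LocC_cont p hx) (by
      have : ρ ^ 2 / (1 + ρ ^ 2) < 1 := by
        rw [div_lt_one (by positivity)]
        linarith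
      linarith)
  filter_upwards [h1] with y hy
  have hy0 : 0 < tau y p := lt_trans (by positivity) hy
  by_cases hy1 : 1 ≤ tau y p
  · unfold cutF
    rw [if_neg (not_le.2 hy0), if_pos hy1]
  · push Not at hy1
    rw [LocC_mid φ ρ hy0 hy1, hφ.zero]
    · simp
    · rw [div_lt_iff₀ (by positivity)] at hy
      have h3 : ρ ^ 2 ≤ tau y p / (1 - tau y p) := by
        rw [le_div_iff₀ (by linarith)]
        linarith
      have h6 := Real.log_le_log hρ2 h3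
      unfold dep
      linarith

theorem isFun_cutF {c0 s1 : ℝ} {φ : ℝ → ℝ} (hφ : Prof c0 s1 φ) {ρ : ℝ} (hρ : 0 < ρ) {p : V}
    (hp : N p = 1) : IsFun (cutF φ ρ p) := by
  constructor
  · intro x hx
    have hx0 : x ≠ 0 := hx
    apply ContDiffAt.contDiffWithinAt
    by_cases h0 : tau x p ≤ 0
    · exact contDiffAt_const.congr_of_eventuallyEq (LocC_near0 hφ hρ hx0 h0)
    · by_cases h1 : 1 ≤ tau x p
      · exact contDiffAt_const.congr_of_eventuallyEq (LocC_near1 hφ hρ hx0 h1)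
      · push Not at h0 h1
        refine ContDiffAt.congr_of_eventuallyEq ?_ (LocC_germ φ ρ hx0 h0 h1)
        exact (Complex.ofRealCLM.contDiff.contDiffAt).comp x
          ((hφ.smooth.contDiffAt).comp x (LocC_dep_smooth ρ hp hx0 h0 h1))
  · intro l x hl
    unfold cutF dep
    rw [tau_smul_left hl]

theorem LocC_ddep (ρ : ℝ) {p x : V} (hp : N p = 1) (hx : x ≠ 0) (h0 : 0 < tau x p)
    (h1 : tau x p < 1) : DifferentiableAt ℝ (dep ρ p) x :=
  (LocC_dep_smooth ρ hp hx h0 h1).differentiableAt (by simp)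

theorem LocC_dtt {p x : V} (hp : N p = 1) (hx : x ≠ 0) (h0 : 0 < tau x p)
    (h1 : tau x p < 1) : DifferentiableAt ℝ (tt p) x :=
  (smooth_tt hp hx h0 h1).differentiableAt (by simp)

theorem LocC_dz_dep (j : Fin 3) (ρ : ℝ) {p x : V} (hp : N p = 1) (hx : x ≠ 0) (h0 : 0 < tau x p)
    (h1 : tau x p < 1) : dz j (fun y => ((dep ρ p y : ℝ) : ℂ)) x = - dz j (tt p) x := by
  have ht := LocC_dtt hp hx h0 h1
  rw [show (fun y => ((dep ρ p y : ℝ) : ℂ)) = fun y => (Real.log (ρ ^ 2) : ℂ) + (-1) * tt p y from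
    funext fun y => LocC_dep ρ p y, dz_add j (differentiableAt_const _) (ht.const_mul _),
    dz_const_mul j _ ht, dz_const]
  ring

theorem LocC_dzb_dep (j : Fin 3) (ρ : ℝ) {p x : V} (hp : N p = 1) (hx : x ≠ 0) (h0 : 0 < tau x p)
    (h1 : tau x p < 1) : dzb j (fun y => ((dep ρ p y : ℝ) : ℂ)) x = - dzb j (tt p) x := by
  have ht := LocC_dtt hp hx h0 h1
  rw [show (fun y => ((dep ρ p y : ℝ) : ℂ)) = fun y => (Real.log (ρ ^ 2) : ℂ) + (-1) * tt p y from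
    funext fun y => LocC_dep ρ p y, dzb_add j (differentiableAt_const _) (ht.const_mul _),
    dzb_const_mul j _ ht, dzb_const]
  ring

theorem LocC_dzb_congr (j : Fin 3) {f g : V → ℂ} {x : V} (h : f =ᶠ[nhds x] g) :
    dzb j f x = dzb j g x := by
  unfold dzb
  rw [h.fderiv_eq]

theorem dz_cutF {c0 s1 : ℝ} {φ : ℝ → ℝ} (hφ : Prof c0 s1 φ) {ρ : ℝ} (hρ : 0 < ρ) {p x : V}
    (hp : N p = 1) (hx : x ≠ 0) (h0 : 0 < tau x p) (h1 : tau x p < 1) (j : Fin 3) :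
    dz j (cutF φ ρ p) x = -((deriv φ (dep ρ p x) : ℝ) : ℂ) * dz j (tt p) x := by
  have hd : HasDerivAt φ (deriv φ (dep ρ p x)) (dep ρ p x) :=
    ((hφ.smooth.differentiable (by simp)) _).hasDerivAt
  rw [LocA_dz_congr j (LocC_germ φ ρ hx h0 h1), dz_comp_real j hd (LocC_ddep ρ hp hx h0 h1),
    LocC_dz_dep j ρ hp hx h0 h1]
  ring

theorem LocC_dzb_cutF {c0 s1 : ℝ} {φ : ℝ → ℝ} (hφ : Prof c0 s1 φ) {ρ : ℝ} {p x : V}
    (hp : N p = 1) (hx : x ≠ 0) (h0 : 0 < tau x p) (h1 : tau x p < 1) (j : Fin 3) :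
    dzb j (cutF φ ρ p) x = (-1) * (((deriv φ (dep ρ p x) : ℝ) : ℂ) * dzb j (tt p) x) := by
  have hd : HasDerivAt φ (deriv φ (dep ρ p x)) (dep ρ p x) :=
    ((hφ.smooth.differentiable (by simp)) _).hasDerivAt
  rw [LocC_dzb_congr j (LocC_germ φ ρ hx h0 h1), dzb_comp_real j hd (LocC_ddep ρ hp hx h0 h1),
    LocC_dzb_dep j ρ hp hx h0 h1]
  ring

theorem LocC_ddzb (k : Fin 3) {p x : V} (hp : N p = 1) (hx : x ≠ 0) (h0 : 0 < tau x p)
    (h1 : tau x p < 1) : DifferentiableAt ℝ (dzb k (tt p)) x := by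
  obtain ⟨hN, a1, a2, a3, a4, a5⟩ := LocA_facts hp hx h0 h1
  have hξb : conj (ip x p) ≠ 0 := (map_ne_zero _).2 a5
  have hM0 : ((N x - Complex.normSq (ip x p) : ℝ) : ℂ) ≠ 0 := by
    rw [Ne, Complex.ofReal_eq_zero]
    exact a4.ne'
  refine DifferentiableAt.congr_of_eventuallyEq ?_ (LocA_germ2 k hp hx h0 h1)
  have hxk : DifferentiableAt ℝ (fun y : V => y k) x := by fun_prop
  have hip := LocA_dip p x
  have d1 : DifferentiableAt ℝ (fun y : V => ip y p * p k) x := hip.mul (differentiableAt_const _)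
  have d2 : DifferentiableAt ℝ (fun y : V => y k + (-1) * (ip y p * p k)) x :=
    hxk.add (d1.const_mul _)
  have d3 : DifferentiableAt ℝ (fun y => (((N y - Complex.normSq (ip y p) : ℝ) : ℂ))⁻¹) x :=
    (LocA_dMM p x).inv hM0
  have d4 : DifferentiableAt ℝ (fun y => (conj (ip y p))⁻¹) x := (LocA_dconj hip).inv hξb
  exact (d2.mul d3).add ((d4.const_mul _).const_mul _)

theorem L_cutF {c0 s1 : ℝ} {φ : ℝ → ℝ} (hφ : Prof c0 s1 φ) {ρ : ℝ} (hρ : 0 < ρ) {p x : V}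
    (hp : N p = 1) (hx : x ≠ 0) (h0 : 0 < tau x p) (h1 : tau x p < 1) :
    L (cutF φ ρ p) x = (-((deriv φ (dep ρ p x) : ℝ) : ℂ)) • L (tt p) x +
      ((deriv (deriv φ) (dep ρ p x) : ℝ) : ℂ) • du2 (tt p) x := by
  funext j k
  show dz j (dzb k (cutF φ ρ p)) x = (-((deriv φ (dep ρ p x) : ℝ) : ℂ)) * dz j (dzb k (tt p)) x +
    ((deriv (deriv φ) (dep ρ p x) : ℝ) : ℂ) * (dz j (tt p) x * dzb k (tt p) x)
  have hg : dzb k (cutF φ ρ p) =ᶠ[nhds x]
      fun y => (-1) * (((deriv φ (dep ρ p y) : ℝ) : ℂ) * dzb k (tt p) y) := by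
    filter_upwards [(LocA_open p).mem_nhds (show x ∈ LocA_Om p from ⟨hx, h0, h1⟩)] with y hy
    exact LocC_dzb_cutF hφ hp hy.1 hy.2.1 hy.2.2 k
  have hs : ContDiff ℝ ∞ (deriv φ) := (contDiff_infty_iff_deriv.1 hφ.smooth).2
  have hd : HasDerivAt (deriv φ) (deriv (deriv φ) (dep ρ p x)) (dep ρ p x) :=
    ((hs.differentiable (by simp)) _).hasDerivAt
  have hdd := LocC_ddep ρ hp hx h0 h1
  have e1 : DifferentiableAt ℝ (fun y => ((deriv φ (dep ρ p y) : ℝ) : ℂ)) x :=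
    Complex.ofRealCLM.differentiableAt.comp x
      (((hs.differentiable (by simp)) (dep ρ p x)).comp x hdd)
  have e2 := LocC_ddzb k hp hx h0 h1
  have e3 : DifferentiableAt ℝ (fun y => ((deriv φ (dep ρ p y) : ℝ) : ℂ) * dzb k (tt p) y) x :=
    e1.mul e2
  rw [LocA_dz_congr j hg, dz_const_mul j _ e3, dz_mul j e1 e2, dz_comp_real j hd hdd,
    LocC_dz_dep j ρ hp hx h0 h1]
  ring

/-- Where `τ = 0` or `τ = 1` the derivatives vanish. -/
theorem dz_cutF_out {c0 s1 : ℝ} {φ : ℝ → ℝ} (hφ : Prof c0 s1 φ) {ρ : ℝ} (hρ : 0 < ρ) {p x : V}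
    (hp : N p = 1) (hx : x ≠ 0) (h : tau x p ≤ 0 ∨ 1 ≤ tau x p) (j : Fin 3) :
    dz j (cutF φ ρ p) x = 0 := by
  rcases h with h | h
  · rw [LocA_dz_congr j (LocC_near0 hφ hρ hx h), dz_const]
  · rw [LocA_dz_congr j (LocC_near1 hφ hρ hx h), dz_const]

/-- `τ = 0` and `τ = 1` are null sets. -/
theorem ae_tau {p : V} (hp : N p = 1) : ∀ᵐ x : V, x ≠ 0 ∧ 0 < tau x p ∧ tau x p < 1 := by
  have hp0 : p ≠ 0 := by
    rintro rfl
    unfold N at hp
    simp at hp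
  let S1 : Submodule ℝ V := (Submodule.span ℂ {p}).restrictScalars ℝ
  let lm : V →ₗ[ℂ] ℂ := ∑ j, (conj (p j)) • (LinearMap.proj j : V →ₗ[ℂ] ℂ)
  have hlm : ∀ x, lm x = ip x p := by
    intro x
    simp only [lm, LinearMap.sum_apply, LinearMap.smul_apply, LinearMap.proj_apply, smul_eq_mul, ip]
    exact Finset.sum_congr rfl fun j _ => mul_comm _ _
  let S2 : Submodule ℝ V := (LinearMap.ker lm).restrictScalars ℝ
  have hS1 : S1 ≠ ⊤ := by
    intro h
    have h2 : Submodule.span ℂ {p} = ⊤ := by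
      rw [Submodule.eq_top_iff']
      intro x
      have : x ∈ S1 := by rw [h]; exact Submodule.mem_top
      exact this
    have h3 := finrank_span_singleton (K := ℂ) hp0
    rw [h2, finrank_top, Module.finrank_fin_fun] at h3
    norm_num at h3
  have hS2 : S2 ≠ ⊤ := by
    intro h
    have h2 : p ∈ S2 := by rw [h]; exact Submodule.mem_top
    have h3 : lm p = 0 := h2
    rw [hlm] at h3
    have h4 : ip p p = (N p : ℂ) := by
      rw [LocA_N]
      rfl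
    rw [h4, hp] at h3
    norm_num at h3
  have m1 := Measure.addHaar_submodule (volume : Measure V) S1 hS1
  have m2 := Measure.addHaar_submodule (volume : Measure V) S2 hS2
  have a1 : ∀ᵐ x : V, x ∉ (S1 : Set V) := measure_eq_zero_iff_ae_notMem.1 m1
  have a2 : ∀ᵐ x : V, x ∉ (S2 : Set V) := measure_eq_zero_iff_ae_notMem.1 m2
  filter_upwards [a1, a2] with x h1 h2
  have hx : x ≠ 0 := by
    rintro rfl
    exact h1 S1.zero_mem
  refine ⟨hx, lt_of_le_of_ne (tau_nonneg x p) fun h => ?_, lt_of_le_of_ne (tau_le_one x p) fun h => ?_⟩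
  · obtain ⟨c, hc⟩ := tau_eq_zero hx hp0 h.symm
    apply h1
    show x ∈ Submodule.span ℂ {p}
    rw [hc]
    exact Submodule.smul_mem _ _ (Submodule.mem_span_singleton_self p)
  · apply h2
    show lm x = 0
    rw [hlm]
    unfold tau at h
    have hN := N_pos hx
    rw [hp, mul_one] at h
    have h3 : Complex.normSq (ip x p) / N x = 0 := by linarith
    rw [div_eq_zero_iff] at h3
    exact Complex.normSq_eq_zero.1 (h3.resolve_right hN.ne')

end Pool.Agent.H85.DC
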