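import Pool.Agent.H85.DC.LocC
import Pool.Agent.H85.DC.Sto3
import Pool.Agent.H85.DC.FrmB

/-!
# Row LocD: the local energy identity

`u` real conic, `F = cutF φ ρ p`. For `x ≠ 0`, `0 < τ < 1` (a.e. `x`, `ae_tau`) put `b_j = dz j u x`, so `du2 u x = rk b` (`u` real), `∑ x_j b_j = 0` (Euler), `gr u x = N b`,
`R = Re ee (L (tt p) x) (rk b) ≥ 0`, `Q = Re ee (du2 (tt p) x) (rk b) ≥ 0`, `s = dep ρ p x`.
`s3` and `L_cutF`: `∫ F Re ee (L u) (L u) wt = -Re ∫ ee (L F) (du2 u) wt = ∫ (φ'(s) R - φ''(s) Q) wt`.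
`Gd := ∫ (φ'(s) R + max (-φ''(s)) 0 * Q) wt ≥ 0`. Then `φ' R - φ'' Q = φ' R + max(-φ'',0) Q - max(φ'',0) Q`, and `max (φ'') 0 ≤ c0/s1`, nonzero only for
`0 ≤ s ≤ 1`, i.e. `x ∈ Ann p ρ` (`s ∈ [0,1]` iff `ρ^2 e^{-1} ≤ τ/(1-τ) ≤ ρ^2`; `φ'' = 0` for `s < 0` since `φ = 0` there, and `φ'' ≤ 0` for `s ≥ 1` by `dd_neg`), and `Q ≤ gr t gr u` (`Q_le`).
This gives the first inequality. Second: `gr F x = φ'(s)^2 gr (tt p) x` (`dz_cutF`). If `s ≥ 1` (so `τ/(1-τ) ≤ ρ^2 ≤ 1/4`, `τ ≤ 1/2`):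
`φ'^2 gr t gr u ≤ φ'^2 (Q + 2R) ≤ (-φ'') Q + 2 φ' R` (`loc_ineq`, `dd_neg`, `φ' ≤ 1/s1 ≤ 1`) `≤ 2 (φ' R + max(-φ'',0) Q)`. If `0 ≤ s ≤ 1`: `φ'^2 gr t gr u ≤ s1^{-2} gr t gr u ≤ s1^{-1} gr t gr u`,
`x ∈ Ann p ρ`. If `s < 0`: `φ' = 0`. Sum up.
Integrability: all functions of `x` here are bounded by `C/N^2` times `wt`: `R, Q ≤ gr t gr u` with `gr u ≤ C/N` (homogeneous of bidegree `(-1,-1)`), and `gr t = 1/(N τ (1-τ))`
is bounded by `C/N` on the support of `φ'(s), φ''(s)` (`0 ≤ s ≤ 6 s1 + 1`); on `Ann p ρ` too. Measurability: `tau`, `dep`, `φ'`, `φ''` measurable, `dz j (tt p)` by the formula `dz_tt` (a.e. equal to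
a measurable function), `R`, `Q` polynomial in these.
-/

open MeasureTheory
open scoped ContDiff BigOperators ComplexConjugate Matrix

namespace Pool.Agent.H85.DC

theorem LocD_cd {U : Set V} (hU : IsOpen U) {f : V → ℂ} (hf : ContDiffOn ℝ ∞ f U) (j : Fin 3) :
    ContDiffOn ℝ ∞ (dz j f) U ∧ ContDiffOn ℝ ∞ (dzb j f) U := by
  have h1 : ContDiffOn ℝ ∞ (fderiv ℝ f) U := hf.fderiv_of_isOpen hU (by norm_cast)
  have h2 : ∀ v : V, ContDiffOn ℝ ∞ (fun x => fderiv ℝ f x v) U := fun v =>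
    h1.clm_apply contDiffOn_const
  constructor
  · exact ((h2 _).sub (contDiffOn_const.mul (h2 _))).div_const 2
  · exact ((h2 _).add (contDiffOn_const.mul (h2 _))).div_const 2

/-- the good open set of full measure -/
def LocD_U (p : V) : Set V := {x | x ≠ 0 ∧ 0 < tau x p ∧ tau x p < 1}

theorem LocD_U_open (p : V) : IsOpen (LocD_U p) := by
  have h1 := (continuousOn_tau p).isOpen_inter_preimage isOpen_compl_singleton
    (isOpen_Ioo (a := (0 : ℝ)) (b := 1))
  have h2 : LocD_U p = {0}ᶜ ∩ (fun x => tau x p) ⁻¹' Set.Ioo 0 1 := by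
    ext x
    rfl
  rw [h2]
  exact h1

theorem LocD_ae {p : V} (hp : N p = 1) {μ : Measure V} (h : μ ≪ (volume : Measure V)) :
    ∀ᵐ x ∂μ, x ∈ LocD_U p := h.ae_le (ae_tau hp)

theorem LocD_meas {p : V} (hp : N p = 1) {E : Type*} [TopologicalSpace E]
    [TopologicalSpace.PseudoMetrizableSpace E] [SecondCountableTopology E] {f : V → E}
    (hf : ContinuousOn f (LocD_U p)) : AEStronglyMeasurable f (volume : Measure V) := by
  have h1 : (volume : Measure V).restrict (LocD_U p) = volume :=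
    Measure.restrict_eq_self_of_ae_mem (ae_tau hp)
  rw [← h1]
  exact hf.aestronglyMeasurable (LocD_U_open p).measurableSet

theorem LocD_ee_cont : Continuous fun q : M3 × M3 => ee q.1 q.2 := by
  unfold ee
  fun_prop

theorem LocD_ee_on {U : Set V} {A B : V → M3} (hA : ContinuousOn A U) (hB : ContinuousOn B U) :
    ContinuousOn (fun x => ee (A x) (B x)) U := by
  have h1 : ContinuousOn (fun x => (A x, B x)) U := hA.prodMk hB
  have h2 := LocD_ee_cont.comp_continuousOn h1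
  exact h2

theorem LocD_tt {p : V} (hp : N p = 1) : ContDiffOn ℝ ∞ (tt p) (LocD_U p) := fun x hx =>
  (smooth_tt hp hx.1 hx.2.1 hx.2.2).contDiffWithinAt

theorem LocD_L_on {p : V} (hp : N p = 1) : ContinuousOn (L (tt p)) (LocD_U p) := by
  refine continuousOn_pi.2 fun j => continuousOn_pi.2 fun k => ?_
  exact (LocD_cd (LocD_U_open p) (LocD_cd (LocD_U_open p) (LocD_tt hp) k).2 j).1.continuousOn

theorem LocD_du_on {U : Set V} (hU : IsOpen U) {f : V → ℂ} (hf : ContDiffOn ℝ ∞ f U) :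
    ContinuousOn (du2 f) U := by
  refine continuousOn_pi.2 fun j => continuousOn_pi.2 fun k => ?_
  exact ((LocD_cd hU hf j).1.continuousOn).mul ((LocD_cd hU hf k).2.continuousOn)

theorem LocD_gr_on {U : Set V} (hU : IsOpen U) {f : V → ℂ} (hf : ContDiffOn ℝ ∞ f U) :
    ContinuousOn (gr f) U := by
  unfold gr
  refine continuousOn_finset_sum _ fun j _ => ?_
  exact Complex.continuous_normSq.comp_continuousOn (LocD_cd hU hf j).1.continuousOn

theorem LocD_sub (p : V) : LocD_U p ⊆ {0}ᶜ := fun _ hx => hx.1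

theorem LocD_dzb {u : V → ℂ} (ru : IsRe u) (k : Fin 3) (x : V) : dzb k u x = conj (dz k u x) := by
  rw [conj_dz]
  have h : (fun y => conj (u y)) = u := funext ru
  rw [h]

theorem LocD_du_rk {u : V → ℂ} (ru : IsRe u) (x : V) : du2 u x = rk (fun j => dz j u x) := by
  funext j k
  show dz j u x * dzb k u x = dz j u x * conj (dz k u x)
  rw [LocD_dzb ru]

theorem LocD_form {u : V → ℂ} (hu : IsFun u) : IsForm (du2 u) := by
  have h0 := isFun_iff.1 hu
  have hd : ∀ j k, Hom (-1) (-1) (fun x => dz j u x * dzb k u x) := by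
    intro j k
    have h1 := hom_mul (dz_hom j h0) (dzb_hom k h0)
    have e1 : (0 - 1 + 0 : ℤ) = -1 := by norm_num
    have e2 : (0 + (0 - 1) : ℤ) = -1 := by norm_num
    rw [e1, e2] at h1
    exact h1
  refine ⟨?_, ?_, ?_, ?_⟩
  · refine continuousOn_pi.2 fun j => continuousOn_pi.2 fun k => ?_
    exact (hd j k).smooth.continuousOn
  · intro l x hl
    funext j k
    have h1 := (hd j k).hom l x hl
    show dz j u (l • x) * dzb k u (l • x) = ((Complex.normSq l : ℂ))⁻¹ * (dz j u x * dzb k u x)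
    rw [h1, zpow_neg, zpow_neg, zpow_one, zpow_one, ← mul_inv, Complex.mul_conj]
  · intro x hx k
    have h1 := euler h0 hx
    show ∑ j, x j * (dz j u x * dzb k u x) = 0
    have h2 : ∑ j, x j * (dz j u x * dzb k u x) = (∑ j, x j * dz j u x) * dzb k u x := by
      rw [Finset.sum_mul]
      exact Finset.sum_congr rfl fun j _ => by ring
    rw [h2, h1]
    simp
  · intro x hx j
    have h1 := eulerb h0 hx
    show ∑ k, dz j u x * dzb k u x * conj (x k) = 0
    have h2 : ∑ k, dz j u x * dzb k u x * conj (x k) = dz j u x * ∑ k, conj (x k) * dzb k u x := by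
      rw [Finset.mul_sum]
      exact Finset.sum_congr rfl fun j _ => by ring
    rw [h2, h1]
    simp

theorem LocD_gr_bound {u : V → ℂ} (hu : IsFun u) :
    ∃ C : ℝ, 0 ≤ C ∧ ∀ x : V, x ≠ 0 → gr u x ≤ C / N x := by
  have h0 := isFun_iff.1 hu
  have h1 : ∀ j : Fin 3, ∃ C : ℝ, 0 ≤ C ∧ ∀ x : V, x ≠ 0 → Complex.normSq (dz j u x) ≤ C / N x := by
    intro j
    obtain ⟨C, hC0, hC⟩ := chom_bound (dz_hom j h0).chom
    refine ⟨C, hC0, fun x hx => ?_⟩
    have h2 := hC x hx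
    have e1 : (0 - 1 + 0 : ℤ) = -1 := by norm_num
    rw [e1, zpow_neg, zpow_one, ← div_eq_mul_inv] at h2
    rwa [Complex.normSq_eq_norm_sq]
  choose C hC0 hC using h1
  refine ⟨∑ j, C j, Finset.sum_nonneg fun j _ => hC0 j, fun x hx => ?_⟩
  unfold gr
  rw [Finset.sum_div]
  exact Finset.sum_le_sum fun j _ => hC j x hx

theorem LocD_gr_nonneg (u : V → ℂ) (x : V) : 0 ≤ gr u x :=
  Finset.sum_nonneg fun _ _ => Complex.normSq_nonneg _

theorem LocD_wt_nonneg (x : V) : 0 ≤ wt x := (Real.exp_pos _).le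

theorem LocD_annMeas (p : V) (ρ : ℝ) : MeasurableSet (Ann p ρ) := by
  have h0 : Measurable fun x : V => (x, p) := measurable_id.prodMk measurable_const
  have h1 : Measurable fun x : V => tau x p := by
    have h := measurable_tau.comp h0
    exact h
  have h2 : Measurable fun x : V => tau x p / (1 - tau x p) := h1.div (measurable_const.sub h1)
  have h3 : Ann p ρ = {0}ᶜ ∩ ({x | ρ ^ 2 * Real.exp (-1) ≤ tau x p / (1 - tau x p)} ∩
      {x | tau x p / (1 - tau x p) ≤ ρ ^ 2}) := by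
    ext x
    rfl
  rw [h3]
  exact (measurableSet_singleton _).compl.inter
    ((measurableSet_le measurable_const h2).inter (measurableSet_le h2 measurable_const))

theorem LocD_ann {ρ : ℝ} (hρ : 0 < ρ) (hρ' : ρ ≤ 1 / 2) {p x : V} (hx : x ∈ Ann p ρ) :
    x ∈ LocD_U p ∧ ρ ^ 2 * Real.exp (-1) / 2 ≤ tau x p ∧ tau x p ≤ 1 / 2 := by
  obtain ⟨h0, h1, h2⟩ := hx
  have t0 := tau_nonneg x p
  have t1 := tau_le_one x p
  have hpos : 0 < ρ ^ 2 * Real.exp (-1) := by positivity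
  have hd : 0 < tau x p / (1 - tau x p) := lt_of_lt_of_le hpos h1
  have h3 : 0 < 1 - tau x p := by
    rcases (sub_nonneg.2 t1).lt_or_eq with h | h
    · exact h
    · rw [← h, div_zero] at hd
      exact absurd hd (lt_irrefl _)
  have h4 : 0 < tau x p := by
    rcases t0.lt_or_eq with h | h
    · exact h
    · rw [← h, zero_div] at hd
      exact absurd hd (lt_irrefl _)
  rw [div_le_iff₀ h3] at h2
  rw [le_div_iff₀ h3] at h1
  have h5 : ρ ^ 2 ≤ 1 / 4 := by nlinarith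
  have h6 : tau x p ≤ 1 / 2 := by nlinarith
  refine ⟨⟨h0, h4, by linarith⟩, ?_, h6⟩
  nlinarith

theorem LocD_T {ρ : ℝ} (hρ : 0 < ρ) (hρ' : ρ ≤ 1 / 2) {p : V} (hp : N p = 1) {u : V → ℂ}
    (hu : IsFun u) : IntegrableOn (fun x => gr (tt p) x * gr u x * wt x) (Ann p ρ) := by
  obtain ⟨C, hC0, hC⟩ := LocD_gr_bound hu
  have hm : AEStronglyMeasurable (fun x => gr (tt p) x * gr u x * wt x) (volume : Measure V) := by
    refine LocD_meas hp ?_
    refine ((LocD_gr_on (LocD_U_open p) (LocD_tt hp)).mul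
      (LocD_gr_on (LocD_U_open p) (hu.smooth.mono (LocD_sub p)))).mul ?_
    exact (Real.continuous_exp.comp continuous_N.neg).continuousOn
  set K := (ρ ^ 2 * Real.exp (-1) / 2) * (1 / 2) with hK
  have hK0 : 0 < K := by positivity
  have hint : Integrable (fun x : V => C / K * ((N x) ^ (-2 : ℝ) * Real.exp (-1 * N x))) :=
    (integrable_N_rpow (by norm_num) one_pos).const_mul _
  refine Integrable.mono' hint.integrableOn hm.restrict ?_
  refine (ae_restrict_iff' (LocD_annMeas p ρ)).2 (Filter.Eventually.of_forall fun x hx => ?_)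
  obtain ⟨hU, h1, h2⟩ := LocD_ann hρ hρ' hx
  have hN : 0 < N x := N_pos hU.1
  rw [Real.norm_of_nonneg (mul_nonneg (mul_nonneg (LocD_gr_nonneg _ _) (LocD_gr_nonneg _ _))
    (LocD_wt_nonneg x))]
  have h3 : gr (tt p) x ≤ 1 / (N x * K) := by
    rw [gr_tt hp hU.1 hU.2.1 hU.2.2]
    refine one_div_le_one_div_of_le (by positivity) ?_
    refine mul_le_mul_of_nonneg_left ?_ hN.le
    exact mul_le_mul h1 (by linarith) (by norm_num) hU.2.1.le
  have h4 := hC x hU.1
  have h5 : gr (tt p) x * gr u x ≤ 1 / (N x * K) * (C / N x) :=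
    mul_le_mul h3 h4 (LocD_gr_nonneg _ _) (by positivity)
  calc gr (tt p) x * gr u x * wt x ≤ 1 / (N x * K) * (C / N x) * wt x :=
        mul_le_mul_of_nonneg_right h5 (LocD_wt_nonneg x)
    _ = C / K * ((N x) ^ (-2 : ℝ) * Real.exp (-1 * N x)) := by
        rw [Real.rpow_neg hN.le, show (2 : ℝ) = ((2 : ℕ) : ℝ) by norm_num, Real.rpow_natCast,
          neg_one_mul]
        unfold wt
        field_simp

theorem LocD_dep {ρ : ℝ} (hρ : 0 < ρ) {p x : V} (h0 : 0 < tau x p) (h1 : tau x p < 1)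
    (hx : x ≠ 0) (d0 : 0 ≤ dep ρ p x) (d1 : dep ρ p x ≤ 1) : x ∈ Ann p ρ := by
  have h3 : 0 < tau x p / (1 - tau x p) := div_pos h0 (by linarith)
  have hr : 0 < ρ ^ 2 := by positivity
  unfold dep at d0 d1
  refine ⟨hx, ?_, ?_⟩
  · rw [← Real.log_le_log_iff (by positivity) h3, Real.log_mul hr.ne' (Real.exp_pos _).ne',
      Real.log_exp]
    linarith
  · rw [← Real.log_le_log_iff h3 hr]
    linarith

theorem LocD_dep2 {ρ : ℝ} (hρ : 0 < ρ) (hρ' : ρ ≤ 1 / 2) {p x : V} (h0 : 0 < tau x p)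
    (h1 : tau x p < 1) (d0 : 0 ≤ dep ρ p x) : tau x p ≤ 1 / 2 := by
  have h3 : 0 < tau x p / (1 - tau x p) := div_pos h0 (by linarith)
  have hr : 0 < ρ ^ 2 := by positivity
  unfold dep at d0
  have h4 : tau x p / (1 - tau x p) ≤ ρ ^ 2 := by
    rw [← Real.log_le_log_iff h3 hr]
    linarith
  rw [div_le_iff₀ (by linarith)] at h4
  have h5 : ρ ^ 2 ≤ 1 / 4 := by nlinarith
  nlinarith

theorem LocD_d_neg {c0 s1 : ℝ} {φ : ℝ → ℝ} (hφ : Prof c0 s1 φ) {s : ℝ} (hs : s < 0) :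
    deriv φ s = 0 ∧ deriv (deriv φ) s = 0 := by
  have h1 : ∀ t : ℝ, t < 0 → deriv φ t = 0 := by
    intro t ht
    have h2 : φ =ᶠ[nhds t] fun _ => 0 := by
      filter_upwards [Iio_mem_nhds ht] with r hr
      exact hφ.zero r (le_of_lt hr)
    rw [h2.deriv_eq, deriv_const]
  refine ⟨h1 s hs, ?_⟩
  have h2 : deriv φ =ᶠ[nhds s] fun _ => 0 := by
    filter_upwards [Iio_mem_nhds hs] with r hr
    exact h1 r hr
  rw [h2.deriv_eq, deriv_const]

theorem LocD_pt1 {c0 s1 : ℝ} {φ : ℝ → ℝ} (hφ : Prof c0 s1 φ) (h0 : 1 ≤ c0) (h1 : 1 ≤ s1)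
    {ρ : ℝ} (hρ : 0 < ρ) {p x : V} (hU : x ∈ LocD_U p) {Q G w : ℝ} (hQ : 0 ≤ Q) (hQG : Q ≤ G)
    (hw : 0 ≤ w) : max (deriv (deriv φ) (dep ρ p x)) 0 * Q * w ≤
      c0 / s1 * (Ann p ρ).indicator (fun _ => G * w) x := by
  by_cases hx : x ∈ Ann p ρ
  · rw [Set.indicator_of_mem hx, mul_assoc]
    refine mul_le_mul ?_ (mul_le_mul_of_nonneg_right hQG hw) (mul_nonneg hQ hw) (by positivity)
    exact max_le (hφ.dd_le _) (by positivity)
  · rw [Set.indicator_of_notMem hx, mul_zero]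
    have h2 : deriv (deriv φ) (dep ρ p x) ≤ 0 := by
      rcases lt_or_ge (dep ρ p x) 0 with h | h
      · rw [(LocD_d_neg hφ h).2]
      · rcases le_or_gt (dep ρ p x) 1 with h' | h'
        · exact absurd (LocD_dep hρ hU.2.1 hU.2.2 hU.1 h h') hx
        · have h3 := hφ.dd_neg _ h'.le
          nlinarith [sq_nonneg (deriv φ (dep ρ p x))]
    rw [max_eq_right h2, zero_mul, zero_mul]

theorem LocD_pt2 {c0 s1 : ℝ} {φ : ℝ → ℝ} (hφ : Prof c0 s1 φ) (h1 : 1 ≤ s1)
    {ρ : ℝ} (hρ : 0 < ρ) (hρ' : ρ ≤ 1 / 2) {p x : V} (hU : x ∈ LocD_U p) {Q R G w : ℝ}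
    (hQ : 0 ≤ Q) (hR : 0 ≤ R) (hG : 0 ≤ G) (hloc : tau x p ≤ 1 / 2 → G ≤ Q + 2 * R) (hw : 0 ≤ w) :
    (deriv φ (dep ρ p x)) ^ 2 * G * w ≤
      2 * ((deriv φ (dep ρ p x) * R + max (-deriv (deriv φ) (dep ρ p x)) 0 * Q) * w) +
      1 / s1 * (Ann p ρ).indicator (fun _ => G * w) x := by
  set d := deriv φ (dep ρ p x) with hd
  set e := deriv (deriv φ) (dep ρ p x) with he
  have d0 : 0 ≤ d := hφ.d_nonneg _
  have d1 : d ≤ 1 / s1 := hφ.d_le _
  have d2 : 1 / s1 ≤ 1 := by
    rw [div_le_one (by linarith)]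
    exact h1
  have hmax : 0 ≤ max (-e) 0 := le_max_right _ _
  have hrest : 0 ≤ 2 * ((d * R + max (-e) 0 * Q) * w) := by positivity
  rcases lt_or_ge (dep ρ p x) 0 with h | h
  · have h2 : d = 0 := (LocD_d_neg hφ h).1
    have h3 : 0 ≤ 1 / s1 * (Ann p ρ).indicator (fun _ => G * w) x := by
      refine mul_nonneg (by positivity) (Set.indicator_nonneg (fun _ _ => by positivity) x)
    have h4 : d ^ 2 * G * w = 0 := by
      rw [h2]
      ring
    linarith
  · rcases le_or_gt (dep ρ p x) 1 with h' | h'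
    · have hx := LocD_dep hρ hU.2.1 hU.2.2 hU.1 h h'
      rw [Set.indicator_of_mem hx]
      have h3 : d ^ 2 ≤ 1 / s1 := by nlinarith
      have h4 : d ^ 2 * G * w ≤ 1 / s1 * (G * w) := by
        rw [mul_assoc]
        exact mul_le_mul_of_nonneg_right h3 (by positivity)
      linarith
    · have h3 : 0 ≤ 1 / s1 * (Ann p ρ).indicator (fun _ => G * w) x := by
        refine mul_nonneg (by positivity) (Set.indicator_nonneg (fun _ _ => by positivity) x)
      have h4 : G ≤ Q + 2 * R := hloc (LocD_dep2 hρ hρ' hU.2.1 hU.2.2 h)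
      have h5 : d ^ 2 ≤ -e := hφ.dd_neg _ h'.le
      have h6 : d ^ 2 ≤ max (-e) 0 := h5.trans (le_max_left _ _)
      have h7 : d ^ 2 ≤ d := by nlinarith
      have h8 : d ^ 2 * G ≤ 2 * (d * R + max (-e) 0 * Q) := by
        have e1 : d ^ 2 * G ≤ d ^ 2 * (Q + 2 * R) := mul_le_mul_of_nonneg_left h4 (sq_nonneg d)
        have e2 : d ^ 2 * Q ≤ max (-e) 0 * Q := mul_le_mul_of_nonneg_right h6 hQ
        have e3 : d ^ 2 * R ≤ d * R := mul_le_mul_of_nonneg_right h7 hR
        have e4 : 0 ≤ max (-e) 0 * Q := mul_nonneg hmax hQ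
        nlinarith
      have h9 : d ^ 2 * G * w ≤ 2 * ((d * R + max (-e) 0 * Q) * w) := by
        calc d ^ 2 * G * w ≤ 2 * (d * R + max (-e) 0 * Q) * w := mul_le_mul_of_nonneg_right h8 hw
          _ = _ := by ring
      linarith

theorem loc_good {c0 s1 : ℝ} {φ : ℝ → ℝ} (hφ : Prof c0 s1 φ) (h0 : 1 ≤ c0) (h1 : 1 ≤ s1)
    {ρ : ℝ} (hρ : 0 < ρ) (hρ' : ρ ≤ 1 / 2) {p : V} (hp : N p = 1) {u : V → ℂ} (hu : IsFun u)
    (ru : IsRe u) :
    ∃ Gd : ℝ, 0 ≤ Gd ∧
      Gd - c0 / s1 * (∫ x in Ann p ρ, gr (tt p) x * gr u x * wt x) ≤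
        ∫ x, (cutF φ ρ p x).re * (ee (L u x) (L u x)).re * wt x ∧
      ∫ x, gr (cutF φ ρ p) x * gr u x * wt x ≤
        2 * Gd + 1 / s1 * (∫ x in Ann p ρ, gr (tt p) x * gr u x * wt x) := by
  have hF : IsFun (cutF φ ρ p) := isFun_cutF hφ hρ hp
  have rF : IsRe (cutF φ ρ p) := isRe_cutF φ ρ p
  set F := cutF φ ρ p with hFdef
  set d : V → ℝ := fun x => deriv φ (dep ρ p x) with hd
  set e : V → ℝ := fun x => deriv (deriv φ) (dep ρ p x) with he
  set R : V → ℝ := fun x => (ee (L (tt p) x) (du2 u x)).re with hR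
  set Q : V → ℝ := fun x => (ee (du2 (tt p) x) (du2 u x)).re with hQ
  set G : V → ℝ := fun x => gr (tt p) x * gr u x with hG
  have hsm1 : ContDiff ℝ ∞ (deriv φ) := (contDiff_infty_iff_deriv.1 hφ.smooth).2
  have hsm2 : ContDiff ℝ ∞ (deriv (deriv φ)) := (contDiff_infty_iff_deriv.1 hsm1).2
  have hae := ae_tau hp
  have hN : ∀ x, N (fun j => dz j u x) = gr u x := fun x => rfl
  have hQ0 : ∀ x ∈ LocD_U p, 0 ≤ Q x := by
    intro x hx
    simp only [hQ]
    rw [LocD_du_rk ru]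
    exact Q_nonneg hp hx.1 hx.2.1 hx.2.2 _
  have hR0 : ∀ x ∈ LocD_U p, 0 ≤ R x := by
    intro x hx
    simp only [hR]
    rw [LocD_du_rk ru]
    exact R_nonneg hp hx.1 hx.2.1 hx.2.2 _
  have hQG : ∀ x ∈ LocD_U p, Q x ≤ G x := by
    intro x hx
    simp only [hQ, hG]
    rw [LocD_du_rk ru, ← hN]
    exact Q_le hp hx.1 hx.2.1 hx.2.2 _
  have hG0 : ∀ x, 0 ≤ G x := fun x => mul_nonneg (LocD_gr_nonneg _ _) (LocD_gr_nonneg _ _)
  have hloc : ∀ x ∈ LocD_U p, tau x p ≤ 1 / 2 → G x ≤ Q x + 2 * R x := by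
    intro x hx ht
    simp only [hQ, hR, hG]
    rw [LocD_du_rk ru, ← hN]
    refine loc_ineq hp hx.1 hx.2.1 ht ?_
    have h2 := euler (isFun_iff.1 hu) hx.1
    rw [h2]
    simp
  -- continuity of the depth
  have hdep : ContinuousOn (fun x => dep ρ p x) (LocD_U p) := by
    have c1 : ContinuousOn (fun x => tau x p) (LocD_U p) := (continuousOn_tau p).mono (LocD_sub p)
    have c2 : ContinuousOn (fun x => tau x p / (1 - tau x p)) (LocD_U p) :=
      c1.div (continuousOn_const.sub c1) fun x hx => (sub_pos.2 hx.2.2).ne'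
    exact continuousOn_const.sub (c2.log fun x hx => (div_pos hx.2.1 (sub_pos.2 hx.2.2)).ne')
  have ce : ContinuousOn e (LocD_U p) := hsm2.continuous.comp_continuousOn hdep
  have cQ : ContinuousOn Q (LocD_U p) := Complex.continuous_re.comp_continuousOn
    (LocD_ee_on (LocD_du_on (LocD_U_open p) (LocD_tt hp))
      (LocD_du_on (LocD_U_open p) (hu.smooth.mono (LocD_sub p))))
  have cw : Continuous wt := Real.continuous_exp.comp continuous_N.neg
  -- the indicator function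
  set T : V → ℝ := fun x => (Ann p ρ).indicator (fun _ => G x * wt x) x with hT
  have hTeq : T = (Ann p ρ).indicator (fun x => gr (tt p) x * gr u x * wt x) := by
    funext x
    by_cases hx : x ∈ Ann p ρ
    · simp only [hT]
      rw [Set.indicator_of_mem hx, Set.indicator_of_mem hx]
    · simp only [hT]
      rw [Set.indicator_of_notMem hx, Set.indicator_of_notMem hx]
  have hTint : Integrable T := by
    rw [hTeq]
    exact (integrable_indicator_iff (LocD_annMeas p ρ)).2 (LocD_T hρ hρ' hp hu)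
  have hTval : ∫ x, T x = ∫ x in Ann p ρ, gr (tt p) x * gr u x * wt x := by
    rw [hTeq, integral_indicator (LocD_annMeas p ρ)]
  have hT0 : ∀ x, 0 ≤ T x := fun x =>
    Set.indicator_nonneg (fun _ _ => mul_nonneg (hG0 x) (LocD_wt_nonneg x)) x
  -- the function I1
  set I1 : V → ℝ := fun x => (d x * R x - e x * Q x) * wt x with hI1
  have hLF : Integrable (fun x => ee (L F x) (du2 u x) * (wt x : ℂ)) :=
    ee_int (form_L hF) (LocD_form hu)
  have hI1ae : (fun x => -(Complex.reCLM (ee (L F x) (du2 u x) * (wt x : ℂ)))) =ᵐ[volume] I1 := by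
    filter_upwards [hae] with x hx
    have h2 : L F x = (-((deriv φ (dep ρ p x) : ℝ) : ℂ)) • L (tt p) x +
      ((deriv (deriv φ) (dep ρ p x) : ℝ) : ℂ) • du2 (tt p) x := L_cutF hφ hρ hp hx.1 hx.2.1 hx.2.2
    rw [h2, ee_add_left, ee_smul_left, ee_smul_left]
    simp only [hI1, hd, he, hR, hQ, Complex.reCLM_apply]
    rw [← Complex.ofReal_neg, Complex.re_mul_ofReal, Complex.add_re, Complex.re_ofReal_mul,
      Complex.re_ofReal_mul]
    ring
  have hI1int : Integrable I1 := by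
    refine Integrable.congr ?_ hI1ae
    exact (Complex.reCLM.integrable_comp hLF).neg
  have hmain : ∫ x, (F x).re * (ee (L u x) (L u x)).re * wt x = ∫ x, I1 x := by
    have h3 := s3 hF hu rF ru
    have hI : Integrable (fun x => F x * ee (L u x) (L u x) * (wt x : ℂ)) := by
      have h4 := ee_int (form_smul_fun (form_L hu) (isFun_iff.1 hF).chom) (form_L hu)
      simp only [ee_smul_left] at h4
      exact h4
    have h5 := Complex.reCLM.integral_comp_comm hI
    rw [h3] at h5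
    have h6 : ∀ x, Complex.reCLM (F x * ee (L u x) (L u x) * (wt x : ℂ)) =
        (F x).re * (ee (L u x) (L u x)).re * wt x := by
      intro x
      have him : (F x).im = 0 := Complex.conj_eq_iff_im.1 (rF x)
      rw [Complex.reCLM_apply, Complex.re_mul_ofReal, Complex.mul_re, him, zero_mul, sub_zero]
    simp only [h6] at h5
    rw [h5, map_neg, ← Complex.reCLM.integral_comp_comm hLF, ← integral_neg]
    exact integral_congr_ae hI1ae
  -- the function P
  set P : V → ℝ := fun x => max (e x) 0 * Q x * wt x with hP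
  have hPle : ∀ᵐ x, P x ≤ c0 / s1 * T x := by
    filter_upwards [hae] with x hx
    exact LocD_pt1 hφ h0 h1 hρ hx (hQ0 x hx) (hQG x hx) (LocD_wt_nonneg x)
  have hP0 : ∀ᵐ x, 0 ≤ P x := by
    filter_upwards [hae] with x hx
    exact mul_nonneg (mul_nonneg (le_max_right _ _) (hQ0 x hx)) (LocD_wt_nonneg x)
  have hPm : AEStronglyMeasurable P (volume : Measure V) :=
    LocD_meas hp (((ce.sup continuousOn_const).mul cQ).mul cw.continuousOn)
  have hPint : Integrable P := by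
    refine Integrable.mono' (hTint.const_mul (c0 / s1)) hPm ?_
    filter_upwards [hPle, hP0] with x h2 h3
    rw [Real.norm_of_nonneg h3]
    exact h2
  set Gf : V → ℝ := fun x => (d x * R x + max (-e x) 0 * Q x) * wt x with hGf
  have hGf' : Gf = fun x => I1 x + P x := by
    funext x
    simp only [hGf, hI1, hP]
    have h2 : max (-e x) 0 = -e x + max (e x) 0 := by
      rcases le_total (e x) 0 with h | h
      · rw [max_eq_left (by linarith), max_eq_right h, add_zero]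
      · rw [max_eq_right (by linarith), max_eq_left h, neg_add_cancel]
    rw [h2]
    ring
  have hGfint : Integrable Gf := by
    rw [hGf']
    exact hI1int.add hPint
  refine ⟨∫ x, Gf x, ?_, ?_, ?_⟩
  · refine integral_nonneg_of_ae ?_
    filter_upwards [hae] with x hx
    exact mul_nonneg (add_nonneg (mul_nonneg (hφ.d_nonneg _) (hR0 x hx))
      (mul_nonneg (le_max_right _ _) (hQ0 x hx))) (LocD_wt_nonneg x)
  · rw [hmain, ← hTval]
    have h2 : ∫ x, Gf x = (∫ x, I1 x) + ∫ x, P x := by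
      rw [hGf']
      exact integral_add hI1int hPint
    have h3 : ∫ x, P x ≤ c0 / s1 * ∫ x, T x := by
      rw [← integral_const_mul]
      exact integral_mono_ae hPint (hTint.const_mul _) hPle
    rw [h2]
    linarith
  · rw [← hTval, ← integral_const_mul, ← integral_const_mul,
      ← integral_add (hGfint.const_mul 2) (hTint.const_mul _)]
    refine integral_mono_of_nonneg ?_ ((hGfint.const_mul 2).add (hTint.const_mul _)) ?_
    · exact Filter.Eventually.of_forall fun x =>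
        mul_nonneg (mul_nonneg (LocD_gr_nonneg _ _) (LocD_gr_nonneg _ _)) (LocD_wt_nonneg x)
    · filter_upwards [hae] with x hx
      have h2 : gr F x = (d x) ^ 2 * gr (tt p) x := by
        unfold gr
        rw [Finset.mul_sum]
        refine Finset.sum_congr rfl fun j _ => ?_
        rw [hFdef, dz_cutF hφ hρ hp hx.1 hx.2.1 hx.2.2, Complex.normSq_mul, Complex.normSq_neg,
          Complex.normSq_ofReal, sq]
      have h3 := LocD_pt2 hφ h1 hρ hρ' hx (hQ0 x hx) (hR0 x hx) (hG0 x) (hloc x hx)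
        (LocD_wt_nonneg x)
      show gr F x * gr u x * wt x ≤ 2 * Gf x + 1 / s1 * T x
      have h4 : gr F x * gr u x * wt x = (d x) ^ 2 * G x * wt x := by
        rw [h2]
        simp only [hG]
        ring
      rw [h4]
      exact h3

theorem ann_nonneg (p : V) (ρ : ℝ) (u : V → ℂ) :
    0 ≤ ∫ x in Ann p ρ, gr (tt p) x * gr u x * wt x :=
  integral_nonneg fun x =>
    mul_nonneg (mul_nonneg (LocD_gr_nonneg _ _) (LocD_gr_nonneg _ _)) (LocD_wt_nonneg x)

end Pool.Agent.H85.DC
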