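import Pool.Agent.H85.DC.Dir
import Pool.Agent.H85.DC.Nst
import Pool.Agent.H85.DC.NuB
import Pool.Agent.H85.DC.Lin

/-!
# Row LosA: the wedge product of two smoothed currents away from the singular set

`Loss F μ μ' P r0 ε = ∫_{x ≠ 0, tau x p ≥ r0 ∀ p ∈ P} Re ee (sm F μ ε x) (sm F μ' ε x) wt x dx`, `Tr μ μ' P r ε = ∫_{y ∈ Kr P r} ∫ exp (-tau y y'/(8 ε^2)) dμ' dμ`.
By `ee_smsm`: `Re ee (…) = ∫∫ kk(τ) kk(τ') N x^{-2} B dμ'(y') dμ(y)`, `τ = tau x y`, `τ' = tau x y'`, `B = wed + ε^2(N w' + N v') + 2ε^4`, `0 ≤ B ≤ 5` (`wed_le`, `perp_le`; `N (wv) = 1` a.e.).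
Tonelli (all nonnegative). Fix `y, y'` unit, off the zero set of `eta`.
(A) `y ∉ Kr P (r0/4)`: some `p` with `tau y p < r0/4`; for `x` in the region `√tau(x,y) ≥ √r0 - √r0/2`, `tau x y ≥ r0/4`, so `kk(τ) kk(τ') B ≤ 2ε^{-4} e^{-r0/(4ε^2)} · 2ε^{-4} · 5` (`kk_le`); integrate `N^{-2} wt` (`π^3/2`).
(B) `y ∈ Kr P (r0/4)`: `N (eta F y) ≥ c (r0/4)^m` (`nullst_Kr`), `N (eta F y) ≤ C_F` (`eta_bdd`); `dir`, `tau_two` (`tau y y' ≤ 2τ + 2τ'`): `B ≤ C (τ + τ' + ε^2)/N(eta F y) ≤ C (r0⁻¹)^m (τ + τ' + ε^2)` (constants change).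
`kk kk' ≤ 4 ε^{-8} e^{-(τ+τ')/ε^2}`; with `a = (τ+τ')/ε^2`: `(τ + τ' + ε^2) e^{-a} = ε^2 (a+1) e^{-a} ≤ 2 ε^2 e^{-a/2} = 2ε^2 e^{-a/4} e^{-a/4}`, `a ≥ tau y y'/(2ε^2)`, and `e^{-a/4} ≤ e^{-τ/(4ε^2)}`,
`∫ e^{-τ/(4ε^2)} dν ≤ π^3 (4ε^2)^2` (`nu_exp`). So the contribution is `≤ C (r0⁻¹)^m ε^{-8} ε^2 ε^4 e^{-tau(y,y')/(8ε^2)}`.
(`dν = N^{-2} wt dx`: `nuP`.) Integrate over `μ × μ'` (probability measures).
-/

open MeasureTheory
open scoped ContDiff BigOperators ComplexConjugate Matrix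

namespace Pool.Agent.H85.DC

/-- The intersection of the smoothed currents away from the singular points. -/
noncomputable def Loss (F : Fin 3 → MvPolynomial (Fin 3) ℂ) (μ μ' : Measure V) (P : Finset V)
    (r0 ε : ℝ) : ℝ :=
  ∫ x in {x : V | x ≠ 0 ∧ ∀ p ∈ P, r0 ≤ tau x p}, (ee (sm F μ ε x) (sm F μ' ε x)).re * wt x

/-- The transversal quantity controlling the loss. -/
noncomputable def Tr (μ μ' : Measure V) (P : Finset V) (r ε : ℝ) : ℝ :=
  ∫ y in Kr P r, ∫ y', Real.exp (-(tau y y') / (8 * ε ^ 2)) ∂μ' ∂μ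

theorem LosA_ee_comm (A B : M3) : ee A B = ee B A := by
  unfold ee
  rw [mul_comm, Matrix.trace_mul_comm]

theorem loss_symm (F : Fin 3 → MvPolynomial (Fin 3) ℂ) (μ μ' : Measure V) (P : Finset V)
    (r0 ε : ℝ) : Loss F μ μ' P r0 ε = Loss F μ' μ P r0 ε := by
  unfold Loss
  simp_rw [LosA_ee_comm (sm F μ ε _) (sm F μ' ε _)]

theorem LosA_N_nonneg (x : V) : 0 ≤ N x := Finset.sum_nonneg (fun _ _ => Complex.normSq_nonneg _)

theorem LosA_N_pos {x : V} (hx : x ≠ 0) : 0 < N x := by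
  obtain ⟨j, hj⟩ := Function.ne_iff.1 hx
  exact Finset.sum_pos' (fun _ _ => Complex.normSq_nonneg _) ⟨j, Finset.mem_univ _, Complex.normSq_pos.2 hj⟩

theorem LosA_ne {y : V} (hy : N y = 1) : y ≠ 0 := by
  rintro rfl
  simp [N] at hy

theorem LosA_cont_N : Continuous N := by
  unfold N
  exact continuous_finset_sum _ (fun j _ => Complex.continuous_normSq.comp (continuous_apply j))

/-- the kernel -/
noncomputable def LosA_k (F : Fin 3 → MvPolynomial (Fin 3) ℂ) (ε : ℝ) (x y y' : V) : ℝ :=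
  kk ε (tau x y) * kk ε (tau x y') / (N x) ^ 2 *
        (wed (perp x (wv F y)) (perp x (wv F y')) +
          ε ^ 2 * (N (perp x (wv F y)) + N (perp x (wv F y'))) + 2 * ε ^ 4)

theorem LosA_k_nonneg (F : Fin 3 → MvPolynomial (Fin 3) ℂ) (ε : ℝ) (x y y' : V) : 0 ≤ LosA_k F ε x y y' := by
  unfold LosA_k
  have h1 := kk_nonneg (ε := ε) (tau_le_one x y)
  have h2 := kk_nonneg (ε := ε) (tau_le_one x y')
  have h3 := wed_nonneg (perp x (wv F y)) (perp x (wv F y'))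
  have h4 := LosA_N_nonneg (perp x (wv F y))
  have h5 := LosA_N_nonneg (perp x (wv F y'))
  positivity

theorem LosA_perp_le {F : Fin 3 → MvPolynomial (Fin 3) ℂ} {x y : V} (hx : x ≠ 0) (hy : N y = 1)
    (h : eta F y ≠ 0) : N (perp x (wv F y)) ≤ 1 := by
  rw [perp_le hx, wv_unit hy h]
  have := div_nonneg (Complex.normSq_nonneg (ip (wv F y) x)) (LosA_N_nonneg x)
  linarith

theorem LosA_ptA {F : Fin 3 → MvPolynomial (Fin 3) ℂ} {ε r0 : ℝ} (hε : 0 < ε) (h1 : ε ≤ 1) {x y y' : V}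
    (hx : x ≠ 0) (hy : N y = 1) (hy' : N y' = 1) (he : eta F y ≠ 0) (he' : eta F y' ≠ 0)
    (ht : r0 / 4 ≤ tau x y) :
    LosA_k F ε x y y' ≤ 20 * ε⁻¹ ^ 8 * Real.exp (-r0 / (4 * ε ^ 2)) / (N x) ^ 2 := by
  unfold LosA_k
  have hN := LosA_N_pos hx
  have k1 := kk_nonneg (ε := ε) (tau_le_one x y)
  have k2 := kk_nonneg (ε := ε) (tau_le_one x y')
  have k3 : kk ε (tau x y) ≤ 2 * ε⁻¹ ^ 4 * Real.exp (-r0 / (4 * ε ^ 2)) := by
    refine (kk_le hε h1 (tau_nonneg x y)).trans ?_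
    have : -tau x y / ε ^ 2 ≤ -r0 / (4 * ε ^ 2) := by
      rw [div_le_div_iff₀ (by positivity) (by positivity)]
      nlinarith [sq_nonneg ε]
    have := Real.exp_le_exp.2 this
    gcongr
  have k4 : kk ε (tau x y') ≤ 2 * ε⁻¹ ^ 4 := by
    refine (kk_le hε h1 (tau_nonneg x y')).trans ?_
    have h5 : Real.exp (-tau x y' / ε ^ 2) ≤ 1 := by
      apply Real.exp_le_one_iff.2
      exact div_nonpos_of_nonpos_of_nonneg (by linarith [tau_nonneg x y']) (sq_nonneg ε)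
    calc _ ≤ 2 * ε⁻¹ ^ 4 * 1 := by gcongr
      _ = _ := by ring
  have h3 := wed_nonneg (perp x (wv F y)) (perp x (wv F y'))
  have h4 := LosA_N_nonneg (perp x (wv F y))
  have h5 := LosA_N_nonneg (perp x (wv F y'))
  have h6 := LosA_perp_le (F := F) hx hy he
  have h7 := LosA_perp_le (F := F) hx hy' he'
  have h8 : wed (perp x (wv F y)) (perp x (wv F y')) ≤ 1 :=
    wed_le.trans (mul_le_one₀ h6 h5 h7)
  have e2 : ε ^ 2 ≤ 1 := pow_le_one₀ hε.le h1
  have e4 : ε ^ 4 ≤ 1 := pow_le_one₀ hε.le h1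
  have h9 : wed (perp x (wv F y)) (perp x (wv F y')) +
          ε ^ 2 * (N (perp x (wv F y)) + N (perp x (wv F y'))) + 2 * ε ^ 4 ≤ 5 := by
    have : ε ^ 2 * (N (perp x (wv F y)) + N (perp x (wv F y'))) ≤ 1 * 2 :=
      mul_le_mul e2 (by linarith) (by linarith) (by norm_num)
    linarith
  have h10 : kk ε (tau x y) * kk ε (tau x y') ≤ 2 * ε⁻¹ ^ 4 * Real.exp (-r0 / (4 * ε ^ 2)) * (2 * ε⁻¹ ^ 4) :=
    mul_le_mul k3 k4 k2 (by positivity)
  calc _ ≤ (2 * ε⁻¹ ^ 4 * Real.exp (-r0 / (4 * ε ^ 2)) * (2 * ε⁻¹ ^ 4)) / (N x) ^ 2 * 5 := by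
        apply mul_le_mul _ h9 (by positivity) (by positivity)
        gcongr
    _ = _ := by ring

theorem LosA_exp (a : ℝ) (_ha : 0 ≤ a) : (a + 1) * Real.exp (-a) ≤ 2 * (Real.exp (-(a / 4)) * Real.exp (-(a / 4))) := by
  have h1 : a / 2 + 1 ≤ Real.exp (a / 2) := Real.add_one_le_exp _
  have h2 : a + 1 ≤ 2 * Real.exp (a / 2) := by linarith
  calc (a + 1) * Real.exp (-a) ≤ 2 * Real.exp (a / 2) * Real.exp (-a) := by gcongr
    _ = 2 * (Real.exp (-(a / 4)) * Real.exp (-(a / 4))) := by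
        rw [mul_assoc, ← Real.exp_add, ← Real.exp_add]
        congr 2
        ring

theorem LosA_ptB {F : Fin 3 → MvPolynomial (Fin 3) ℂ} {C : ℝ} (hC : 0 < C)
    {ε lam : ℝ} (hε : 0 < ε) (h1 : ε ≤ 1) (hl : 0 < lam) {x y y' : V}
    (hdir : wed (perp x (wv F y)) (perp x (wv F y')) ≤
        C * (tau x y + tau x y' + tau y y' / N (eta F y)))
    (hx : x ≠ 0) (hy : N y = 1) (hy' : N y' = 1) (he : eta F y ≠ 0) (he' : eta F y' ≠ 0)
    (hle : lam ≤ N (eta F y)) :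
    LosA_k F ε x y y' ≤ (8 * (C * (1 + 2 / lam) + 4) * ε⁻¹ ^ 6 * (Real.exp (-(tau y y') / (8 * ε ^ 2)) *
      Real.exp (-(tau y x) / (4 * ε ^ 2)))) / (N x) ^ 2 := by
  unfold LosA_k
  have hN := LosA_N_pos hx
  have k1 := kk_nonneg (ε := ε) (tau_le_one x y)
  have k2 := kk_nonneg (ε := ε) (tau_le_one x y')
  have t1 := tau_nonneg x y
  have t2 := tau_nonneg x y'
  have t3 := tau_nonneg y y'
  have k3 := kk_le hε h1 t1
  have k4 := kk_le hε h1 t2
  have h3 := wed_nonneg (perp x (wv F y)) (perp x (wv F y'))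
  have h4 := LosA_N_nonneg (perp x (wv F y))
  have h5 := LosA_N_nonneg (perp x (wv F y'))
  have h6 := LosA_perp_le (F := F) hx hy he
  have h7 := LosA_perp_le (F := F) hx hy' he'
  have e2 : ε ^ 2 ≤ 1 := pow_le_one₀ hε.le h1
  have e4 : ε ^ 4 ≤ ε ^ 2 := pow_le_pow_of_le_one hε.le h1 (by norm_num)
  have htri : tau y y' ≤ 2 * tau x y + 2 * tau x y' := by
    have := tau_two (LosA_ne hy) hx (LosA_ne hy')
    rw [tau_symm y x] at this
    exact this
  have hE : tau y y' / N (eta F y) ≤ (2 * tau x y + 2 * tau x y') / lam := by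
    apply div_le_div₀ (by positivity) htri hl hle
  obtain ⟨D, hD⟩ : ∃ D : ℝ, D = C * (1 + 2 / lam) + 4 := ⟨_, rfl⟩
  have hD0 : 0 < D := by rw [hD]; positivity
  have hB : wed (perp x (wv F y)) (perp x (wv F y')) +
          ε ^ 2 * (N (perp x (wv F y)) + N (perp x (wv F y'))) + 2 * ε ^ 4 ≤
      D * (tau x y + tau x y' + ε ^ 2) := by
    have b1 : wed (perp x (wv F y)) (perp x (wv F y')) ≤ C * (1 + 2 / lam) * (tau x y + tau x y') := by
      calc _ ≤ C * (tau x y + tau x y' + tau y y' / N (eta F y)) := hdir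
        _ ≤ C * (tau x y + tau x y' + (2 * tau x y + 2 * tau x y') / lam) := by gcongr
        _ = _ := by ring
    have b2 : ε ^ 2 * (N (perp x (wv F y)) + N (perp x (wv F y'))) ≤ ε ^ 2 * 2 := by gcongr; linarith
    have b3 : 0 < C * (1 + 2 / lam) := by positivity
    rw [hD]
    nlinarith [sq_nonneg ε]
  obtain ⟨a, ha⟩ : ∃ a : ℝ, a = (tau x y + tau x y') / ε ^ 2 := ⟨_, rfl⟩
  have ha0 : 0 ≤ a := by rw [ha]; positivity
  have hkk : kk ε (tau x y) * kk ε (tau x y') ≤ 4 * ε⁻¹ ^ 8 * Real.exp (-a) := by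
    calc _ ≤ (2 * ε⁻¹ ^ 4 * Real.exp (-tau x y / ε ^ 2)) * (2 * ε⁻¹ ^ 4 * Real.exp (-tau x y' / ε ^ 2)) :=
          mul_le_mul k3 k4 k2 (by positivity)
      _ = 4 * ε⁻¹ ^ 8 * (Real.exp (-tau x y / ε ^ 2) * Real.exp (-tau x y' / ε ^ 2)) := by ring
      _ = _ := by
          rw [← Real.exp_add, ha]
          congr 2
          ring
  have hE1 : Real.exp (-(a / 4)) ≤ Real.exp (-(tau y y') / (8 * ε ^ 2)) := by
    apply Real.exp_le_exp.2
    rw [ha, neg_div, neg_le_neg_iff, div_div, div_le_div_iff₀ (by positivity) (by positivity)]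
    have : 0 < ε ^ 2 := by positivity
    nlinarith
  have hE2 : Real.exp (-(a / 4)) ≤ Real.exp (-(tau y x) / (4 * ε ^ 2)) := by
    apply Real.exp_le_exp.2
    rw [ha, neg_div, neg_le_neg_iff, div_div, div_le_div_iff₀ (by positivity) (by positivity), tau_symm y x]
    have : 0 < ε ^ 2 := by positivity
    nlinarith
  have hae : tau x y + tau x y' + ε ^ 2 = ε ^ 2 * (a + 1) := by
    rw [ha]
    field_simp
  have hprod : (kk ε (tau x y) * kk ε (tau x y')) * (D * (tau x y + tau x y' + ε ^ 2)) ≤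
      8 * D * ε⁻¹ ^ 6 * (Real.exp (-(tau y y') / (8 * ε ^ 2)) * Real.exp (-(tau y x) / (4 * ε ^ 2))) := by
    rw [hae]
    calc _ ≤ (4 * ε⁻¹ ^ 8 * Real.exp (-a)) * (D * (ε ^ 2 * (a + 1))) := by gcongr
      _ = 4 * D * (ε⁻¹ ^ 8 * ε ^ 2) * ((a + 1) * Real.exp (-a)) := by ring
      _ ≤ 4 * D * (ε⁻¹ ^ 8 * ε ^ 2) * (2 * (Real.exp (-(a / 4)) * Real.exp (-(a / 4)))) := by
          have := LosA_exp a ha0
          gcongr
      _ ≤ 4 * D * (ε⁻¹ ^ 8 * ε ^ 2) * (2 * (Real.exp (-(tau y y') / (8 * ε ^ 2)) *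
            Real.exp (-(tau y x) / (4 * ε ^ 2)))) := by gcongr
      _ = _ := by
          have : ε⁻¹ ^ 8 * ε ^ 2 = ε⁻¹ ^ 6 := by field_simp
          rw [this]
          ring
  rw [← hD]
  calc _ = (kk ε (tau x y) * kk ε (tau x y')) * (wed (perp x (wv F y)) (perp x (wv F y')) +
          ε ^ 2 * (N (perp x (wv F y)) + N (perp x (wv F y'))) + 2 * ε ^ 4) / (N x) ^ 2 := by ring
    _ ≤ (kk ε (tau x y) * kk ε (tau x y')) * (D * (tau x y + tau x y' + ε ^ 2)) / (N x) ^ 2 := by gcongr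
    _ ≤ _ := by gcongr

theorem LosA_tau_meas (p : V) : Measurable (fun x : V => tau x p) := measurable_tau.of_uncurry_right

theorem LosA_exp_meas (b : ℝ) : Measurable (fun q : V × V => Real.exp (-(tau q.1 q.2) / b)) :=
  Real.measurable_exp.comp ((measurable_tau.neg).div_const _)

theorem LosA_exp_le {b : ℝ} (hb : 0 < b) (y y' : V) : Real.exp (-(tau y y') / b) ≤ 1 := by
  apply Real.exp_le_one_iff.2
  exact div_nonpos_of_nonpos_of_nonneg (by linarith [tau_nonneg y y']) hb.le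

theorem LosA_int {μ' : Measure V} [IsProbabilityMeasure μ'] {b : ℝ} (hb : 0 < b) (y : V) :
    Integrable (fun y' => Real.exp (-(tau y y') / b)) μ' := by
  refine (integrable_const (1 : ℝ)).mono' ?_ (Filter.Eventually.of_forall (fun y' => ?_))
  · exact ((LosA_exp_meas b).comp (measurable_const.prodMk measurable_id)).aestronglyMeasurable
  · rw [Real.norm_of_nonneg (Real.exp_pos _).le]
    exact LosA_exp_le hb y y'

theorem LosA_Tr {P : Finset V} {μ μ' : Measure V} [IsProbabilityMeasure μ] [IsProbabilityMeasure μ']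
    {r ε : ℝ} (hε : 0 < ε) :
    ∫⁻ y in Kr P r, ∫⁻ y', ENNReal.ofReal (Real.exp (-(tau y y') / (8 * ε ^ 2))) ∂μ' ∂μ =
      ENNReal.ofReal (Tr μ μ' P r ε) := by
  unfold Tr
  have hb : 0 < 8 * ε ^ 2 := by positivity
  have h1 : ∀ y, ENNReal.ofReal (∫ y', Real.exp (-(tau y y') / (8 * ε ^ 2)) ∂μ') =
      ∫⁻ y', ENNReal.ofReal (Real.exp (-(tau y y') / (8 * ε ^ 2))) ∂μ' := fun y =>
    ofReal_integral_eq_lintegral_ofReal (LosA_int hb y) (Filter.Eventually.of_forall (fun y' => (Real.exp_pos _).le))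
  simp_rw [← h1]
  have h0 : ∀ y, 0 ≤ ∫ y', Real.exp (-(tau y y') / (8 * ε ^ 2)) ∂μ' :=
    fun y => integral_nonneg (fun y' => (Real.exp_pos _).le)
  rw [ofReal_integral_eq_lintegral_ofReal _ (Filter.Eventually.of_forall h0)]
  refine (integrable_const (1 : ℝ)).mono' ?_ (Filter.Eventually.of_forall (fun y => ?_))
  · exact ((LosA_exp_meas (8 * ε ^ 2)).stronglyMeasurable.integral_prod_right' (ν := μ')).aestronglyMeasurable
  · rw [Real.norm_of_nonneg (h0 y)]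
    calc _ ≤ ∫ y', (1 : ℝ) ∂μ' := integral_mono (LosA_int hb y) (integrable_const 1) (fun y' => LosA_exp_le hb y y')
      _ = 1 := by simp

theorem LosA_Tr_nonneg {P : Finset V} {μ μ' : Measure V} {r ε : ℝ} : 0 ≤ Tr μ μ' P r ε :=
  integral_nonneg (fun _ => integral_nonneg (fun _ => (Real.exp_pos _).le))

theorem LosA_enorm {α β : Type*} [MeasurableSpace α] [MeasurableSpace β] (μ : Measure α) (ν : Measure β)
    (k : α → β → ℝ) (hk : ∀ a b, 0 ≤ k a b) :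
    ‖∫ a, ∫ b, k a b ∂ν ∂μ‖ₑ ≤ ∫⁻ a, ∫⁻ b, ENNReal.ofReal (k a b) ∂ν ∂μ := by
  refine (enorm_integral_le_lintegral_enorm _).trans (lintegral_mono (fun a => ?_))
  refine (enorm_integral_le_lintegral_enorm _).trans (le_of_eq (lintegral_congr (fun b => ?_)))
  rw [Real.enorm_eq_ofReal (hk a b)]

theorem LosA_far {r0 : ℝ} (hr0 : 0 < r0) {P : Finset V} {x y : V} (hx : x ≠ 0) (hy : N y = 1)
    (hPu : ∀ p ∈ P, N p = 1) (hxP : ∀ p ∈ P, r0 ≤ tau x p) (hyP : y ∉ Kr P (r0 / 4)) : r0 / 4 ≤ tau x y := by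
  have h1 : ∃ p ∈ P, tau y p < r0 / 4 := by
    by_contra hcon
    push Not at hcon
    exact hyP ⟨hy, hcon⟩
  obtain ⟨p, hp, hpy⟩ := h1
  have h2 := tau_metric hx (LosA_ne hy) (LosA_ne (hPu p hp))
  have h3 : Real.sqrt r0 ≤ Real.sqrt (tau x p) := Real.sqrt_le_sqrt (hxP p hp)
  have h4 : Real.sqrt (tau y p) ≤ Real.sqrt r0 / 2 := by
    have : Real.sqrt r0 / 2 = Real.sqrt (r0 / 4) := by
      rw [Real.sqrt_div hr0.le]
      congr 1
      rw [show (4 : ℝ) = 2 ^ 2 by norm_num, Real.sqrt_sq (by norm_num)]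
    rw [this]
    exact Real.sqrt_le_sqrt hpy.le
  have h5 : Real.sqrt r0 / 2 ≤ Real.sqrt (tau x y) := by linarith
  have h6 : (Real.sqrt r0 / 2) ^ 2 ≤ Real.sqrt (tau x y) ^ 2 := by
    have := Real.sqrt_nonneg r0
    gcongr
  rw [Real.sq_sqrt (tau_nonneg x y), div_pow, Real.sq_sqrt hr0.le] at h6
  linarith

theorem loss_bound {F : Fin 3 → MvPolynomial (Fin 3) ℂ} {d : ℕ}
    (hF : ∀ j, (F j).IsHomogeneous d) {P : Finset V} (hP : SingPts F P) :
    ∃ (C : ℝ) (m : ℕ), 0 < C ∧ ∀ (μ μ' : Measure V), IsCur F μ → IsCur F μ' →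
      ∀ (ε r0 : ℝ), 0 < ε → ε ≤ 1 → 0 < r0 → r0 ≤ 1 →
        Loss F μ μ' P r0 ε ≤
          C * (r0⁻¹) ^ m * (ε⁻¹) ^ 2 * Tr μ μ' P (r0 / 4) ε +
            C * (ε⁻¹) ^ 8 * Real.exp (-r0 / (4 * ε ^ 2)) := by
  obtain ⟨C, hC, hdir⟩ := dir hF
  obtain ⟨c, m, hc, hnst⟩ := nullst_Kr hP
  obtain ⟨D0, hD0⟩ : ∃ D0 : ℝ, D0 = C * (1 + 2 * (4 ^ m / c)) + 4 := ⟨_, rfl⟩
  have hD00 : 0 < D0 := by rw [hD0]; positivity
  refine ⟨128 * Real.pi ^ 3 * D0 + 10 * Real.pi ^ 3, m, by positivity, ?_⟩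
  intro μ μ' hμ hμ' ε r0 hε h1 hr0 hr1
  have : IsProbabilityMeasure μ := ⟨hμ.prob⟩
  have : IsProbabilityMeasure μ' := ⟨hμ'.prob⟩
  obtain ⟨lam, hlam⟩ : ∃ lam : ℝ, lam = c * (r0 / 4) ^ m := ⟨_, rfl⟩
  have hl0 : 0 < lam := by rw [hlam]; positivity
  obtain ⟨D, hD⟩ : ∃ D : ℝ, D = C * (1 + 2 / lam) + 4 := ⟨_, rfl⟩
  have hDpos : 0 < D := by rw [hD]; positivity
  obtain ⟨U, hU⟩ : ∃ U : ℝ, U = 8 * D * ε⁻¹ ^ 6 := ⟨_, rfl⟩
  have hU0 : 0 ≤ U := by rw [hU]; positivity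
  obtain ⟨W, hW⟩ : ∃ W : ℝ, W = 20 * ε⁻¹ ^ 8 * Real.exp (-r0 / (4 * ε ^ 2)) := ⟨_, rfl⟩
  have hW0 : 0 ≤ W := by rw [hW]; positivity
  have hb8 : 0 < 8 * ε ^ 2 := by positivity
  have hb4 : 0 < 4 * ε ^ 2 := by positivity
  have hKm : MeasurableSet (Kr P (r0 / 4)) := Kr_meas P _
  obtain ⟨E1, hE1⟩ : ∃ E1 : V → ENNReal, E1 = fun y => ∫⁻ y', ENNReal.ofReal (Real.exp (-(tau y y') / (8 * ε ^ 2))) ∂μ' :=
    ⟨_, rfl⟩
  have hE1m : Measurable E1 := by
    rw [hE1]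
    exact (LosA_exp_meas (8 * ε ^ 2)).ennreal_ofReal.lintegral_prod_right'
  obtain ⟨G, hG⟩ : ∃ G : V → ENNReal, G = (Kr P (r0 / 4)).indicator (fun y => ENNReal.ofReal U * E1 y) := ⟨_, rfl⟩
  have hGm : Measurable G := by
    rw [hG]
    exact (hE1m.const_mul _).indicator hKm
  have hgm : Measurable (fun q : V × V => G q.2 * ENNReal.ofReal (Real.exp (-(tau q.2 q.1) / (4 * ε ^ 2)))) :=
    (hGm.comp measurable_snd).mul ((LosA_exp_meas (4 * ε ^ 2)).comp (measurable_snd.prodMk measurable_fst)).ennreal_ofReal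
  have haeμ : ∀ᵐ y ∂μ, N y = 1 ∧ eta F y ≠ 0 := by
    filter_upwards [hμ.sphere, hμ.sing] with y h2 h3 using ⟨h2, h3⟩
  have haeμ' : ∀ᵐ y ∂μ', N y = 1 ∧ eta F y ≠ 0 := by
    filter_upwards [hμ'.sphere, hμ'.sing] with y h2 h3 using ⟨h2, h3⟩
  -- the pointwise bound
  have hpt : ∀ x ∈ {x : V | x ≠ 0 ∧ ∀ p ∈ P, r0 ≤ tau x p},
      ‖(ee (sm F μ ε x) (sm F μ' ε x)).re * wt x‖ₑ ≤
      ENNReal.ofReal (wt x / (N x) ^ 2) *
        (∫⁻ y, G y * ENNReal.ofReal (Real.exp (-(tau y x) / (4 * ε ^ 2))) ∂μ + ENNReal.ofReal W) := by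
    rintro x ⟨hx, hxP⟩
    have hN := LosA_N_pos hx
    have hNi : 0 ≤ ((N x) ^ 2)⁻¹ := by positivity
    have hwt : 0 ≤ wt x := (Real.exp_pos _).le
    rw [ee_smsm hμ hμ' hε h1 hx, Complex.ofReal_re, enorm_mul, Real.enorm_eq_ofReal hwt]
    have h2 := LosA_enorm μ μ' (fun y y' => LosA_k F ε x y y') (fun y y' => LosA_k_nonneg F ε x y y')
    have h3 : ∫⁻ y, ∫⁻ y', ENNReal.ofReal (LosA_k F ε x y y') ∂μ' ∂μ ≤
        ENNReal.ofReal ((N x) ^ 2)⁻¹ *
        (∫⁻ y, G y * ENNReal.ofReal (Real.exp (-(tau y x) / (4 * ε ^ 2))) ∂μ + ENNReal.ofReal W) := by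
      calc _ ≤ ∫⁻ y, ENNReal.ofReal ((N x) ^ 2)⁻¹ *
            (G y * ENNReal.ofReal (Real.exp (-(tau y x) / (4 * ε ^ 2))) + ENNReal.ofReal W) ∂μ := by
            apply lintegral_mono_ae
            filter_upwards [haeμ] with y hy
            by_cases hyK : y ∈ Kr P (r0 / 4)
            · have hle : lam ≤ N (eta F y) := by
                rw [hlam]
                exact hnst (r0 / 4) (by positivity) (by linarith) y hyK
              calc _ ≤ ∫⁻ y', ENNReal.ofReal (((N x) ^ 2)⁻¹ * U * Real.exp (-(tau y x) / (4 * ε ^ 2))) *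
                    ENNReal.ofReal (Real.exp (-(tau y y') / (8 * ε ^ 2))) ∂μ' := by
                    apply lintegral_mono_ae
                    filter_upwards [haeμ'] with y' hy'
                    rw [← ENNReal.ofReal_mul (by positivity)]
                    apply ENNReal.ofReal_le_ofReal
                    refine (LosA_ptB hC hε h1 hl0 (hdir x y y' hx hy.1 hy'.1 hy.2 hy'.2) hx hy.1 hy'.1 hy.2 hy'.2 hle).trans
                      (le_of_eq ?_)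
                    rw [hU, hD]
                    field_simp
                _ = ENNReal.ofReal ((N x) ^ 2)⁻¹ * (G y * ENNReal.ofReal (Real.exp (-(tau y x) / (4 * ε ^ 2)))) := by
                    rw [lintegral_const_mul' _ _ ENNReal.ofReal_ne_top, hG, Set.indicator_of_mem hyK, hE1,
                      ENNReal.ofReal_mul (by positivity), ENNReal.ofReal_mul hNi]
                    ring
                _ ≤ _ := by
                    gcongr
                    exact le_self_add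
            · have ht : r0 / 4 ≤ tau x y := LosA_far hr0 hx hy.1 hP.unit hxP hyK
              calc _ ≤ ∫⁻ y', ENNReal.ofReal (((N x) ^ 2)⁻¹ * W) ∂μ' := by
                    apply lintegral_mono_ae
                    filter_upwards [haeμ'] with y' hy'
                    apply ENNReal.ofReal_le_ofReal
                    refine (LosA_ptA hε h1 hx hy.1 hy'.1 hy.2 hy'.2 ht).trans (le_of_eq ?_)
                    rw [hW]
                    field_simp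
                _ = ENNReal.ofReal ((N x) ^ 2)⁻¹ * ENNReal.ofReal W := by
                    rw [lintegral_const, measure_univ, mul_one, ENNReal.ofReal_mul hNi]
                _ ≤ _ := by
                    gcongr
                    exact le_add_self
        _ = _ := by
            rw [lintegral_const_mul' _ _ ENNReal.ofReal_ne_top, lintegral_add_right _ measurable_const,
              lintegral_const, measure_univ, mul_one]
    calc _ ≤ (ENNReal.ofReal ((N x) ^ 2)⁻¹ *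
        (∫⁻ y, G y * ENNReal.ofReal (Real.exp (-(tau y x) / (4 * ε ^ 2))) ∂μ + ENNReal.ofReal W)) *
          ENNReal.ofReal (wt x) := by
          gcongr
          exact h2.trans h3
      _ = _ := by
          rw [div_eq_mul_inv, ENNReal.ofReal_mul hwt]
          ring
  -- the integral over x
  have hmeasx : Measurable (fun x : V => ∫⁻ y, G y * ENNReal.ofReal (Real.exp (-(tau y x) / (4 * ε ^ 2))) ∂μ +
      ENNReal.ofReal W) := (hgm.lintegral_prod_right').add_const _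
  have hdens : Measurable (fun x : V => ENNReal.ofReal (wt x / (N x) ^ 2)) := by
    apply Measurable.ennreal_ofReal
    unfold wt
    exact (Real.measurable_exp.comp LosA_cont_N.measurable.neg).div (LosA_cont_N.measurable.pow_const 2)
  have hRm : MeasurableSet {x : V | x ≠ 0 ∧ ∀ p ∈ P, r0 ≤ tau x p} := by
    have e1 : {x : V | x ≠ 0 ∧ ∀ p ∈ P, r0 ≤ tau x p} = {0}ᶜ ∩ ⋂ p ∈ P, {x : V | r0 ≤ tau x p} := by
      ext x
      simp
    rw [e1]
    refine (measurableSet_singleton (0 : V)).compl.inter (Finset.measurableSet_biInter P (fun p _ => ?_))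
    have hf : Measurable (fun _ : V => r0) := measurable_const
    exact measurableSet_le hf (LosA_tau_meas p)
  have hmain : ‖Loss F μ μ' P r0 ε‖ₑ ≤
      ENNReal.ofReal (U * (Real.pi ^ 3 * (4 * ε ^ 2) ^ 2) * Tr μ μ' P (r0 / 4) ε + W * (Real.pi ^ 3 / 2)) := by
    calc ‖Loss F μ μ' P r0 ε‖ₑ ≤ ∫⁻ x in {x : V | x ≠ 0 ∧ ∀ p ∈ P, r0 ≤ tau x p},
          ‖(ee (sm F μ ε x) (sm F μ' ε x)).re * wt x‖ₑ := enorm_integral_le_lintegral_enorm _
      _ ≤ ∫⁻ x in {x : V | x ≠ 0 ∧ ∀ p ∈ P, r0 ≤ tau x p}, ENNReal.ofReal (wt x / (N x) ^ 2) *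
        (∫⁻ y, G y * ENNReal.ofReal (Real.exp (-(tau y x) / (4 * ε ^ 2))) ∂μ + ENNReal.ofReal W) :=
          setLIntegral_mono' hRm hpt
      _ ≤ ∫⁻ x, ENNReal.ofReal (wt x / (N x) ^ 2) *
        (∫⁻ y, G y * ENNReal.ofReal (Real.exp (-(tau y x) / (4 * ε ^ 2))) ∂μ + ENNReal.ofReal W) :=
          setLIntegral_le_lintegral _ _
      _ = ∫⁻ x, (∫⁻ y, G y * ENNReal.ofReal (Real.exp (-(tau y x) / (4 * ε ^ 2))) ∂μ + ENNReal.ofReal W) ∂nuP := by
          unfold nuP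
          rw [lintegral_withDensity_eq_lintegral_mul _ hdens hmeasx]
          rfl
      _ = ∫⁻ x, ∫⁻ y, G y * ENNReal.ofReal (Real.exp (-(tau y x) / (4 * ε ^ 2))) ∂μ ∂nuP +
          ENNReal.ofReal W * nuP Set.univ := by
          rw [lintegral_add_right _ measurable_const, lintegral_const]
      _ = ∫⁻ y, ∫⁻ x, G y * ENNReal.ofReal (Real.exp (-(tau y x) / (4 * ε ^ 2))) ∂nuP ∂μ +
          ENNReal.ofReal W * nuP Set.univ := by
          congr 1
          exact lintegral_lintegral_swap hgm.aemeasurable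
      _ ≤ ∫⁻ y, G y * ENNReal.ofReal (Real.pi ^ 3 * (4 * ε ^ 2) ^ 2) ∂μ +
          ENNReal.ofReal W * nuP Set.univ := by
          gcongr ?_ + _
          apply lintegral_mono_ae
          filter_upwards [haeμ] with y hy
          rw [lintegral_const_mul]
          · gcongr
            exact nu_exp (LosA_ne hy.1) hb4
          · exact ((LosA_exp_meas (4 * ε ^ 2)).comp (measurable_const.prodMk measurable_id)).ennreal_ofReal
      _ = ENNReal.ofReal U * ENNReal.ofReal (Tr μ μ' P (r0 / 4) ε) * ENNReal.ofReal (Real.pi ^ 3 * (4 * ε ^ 2) ^ 2) +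
          ENNReal.ofReal W * ENNReal.ofReal (Real.pi ^ 3 / 2) := by
          rw [lintegral_mul_const _ hGm, hG, lintegral_indicator hKm, lintegral_const_mul' _ _ ENNReal.ofReal_ne_top,
            hE1, LosA_Tr hε, nuP_univ]
      _ = _ := by
          rw [← ENNReal.ofReal_mul hU0, ← ENNReal.ofReal_mul (mul_nonneg hU0 LosA_Tr_nonneg),
            ← ENNReal.ofReal_mul hW0, ← ENNReal.ofReal_add]
          · congr 1
            ring
          · exact mul_nonneg (mul_nonneg hU0 LosA_Tr_nonneg) (by positivity)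
          · positivity
  have hT0 : 0 ≤ Tr μ μ' P (r0 / 4) ε := LosA_Tr_nonneg
  have hfin : Loss F μ μ' P r0 ε ≤
      U * (Real.pi ^ 3 * (4 * ε ^ 2) ^ 2) * Tr μ μ' P (r0 / 4) ε + W * (Real.pi ^ 3 / 2) := by
    rw [← ofReal_norm, ENNReal.ofReal_le_ofReal_iff (by positivity)] at hmain
    exact (le_abs_self _).trans hmain
  refine hfin.trans ?_
  have hDle : D ≤ D0 * (r0⁻¹) ^ m := by
    have h5 : 1 ≤ (r0⁻¹) ^ m := one_le_pow₀ ((one_le_inv₀ hr0).2 hr1)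
    have h6 : 2 / lam = 2 * (4 ^ m / c) * (r0⁻¹) ^ m := by
      rw [hlam, div_pow, inv_pow]
      field_simp
    have h7 : 0 ≤ 2 * (4 ^ m / c) := by positivity
    rw [hD, hD0, h6]
    nlinarith
  have e1 : U * (Real.pi ^ 3 * (4 * ε ^ 2) ^ 2) = 128 * Real.pi ^ 3 * D * (ε⁻¹) ^ 2 := by
    rw [hU]
    field_simp
    ring
  rw [e1, hW]
  have hpi : 0 < Real.pi ^ 3 := by positivity
  apply add_le_add
  · calc 128 * Real.pi ^ 3 * D * (ε⁻¹) ^ 2 * Tr μ μ' P (r0 / 4) ε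
        ≤ 128 * Real.pi ^ 3 * (D0 * (r0⁻¹) ^ m) * (ε⁻¹) ^ 2 * Tr μ μ' P (r0 / 4) ε := by gcongr
      _ = (128 * Real.pi ^ 3 * D0) * (r0⁻¹) ^ m * (ε⁻¹) ^ 2 * Tr μ μ' P (r0 / 4) ε := by ring
      _ ≤ _ := by
          gcongr
          linarith
  · calc 20 * ε⁻¹ ^ 8 * Real.exp (-r0 / (4 * ε ^ 2)) * (Real.pi ^ 3 / 2)
        = (10 * Real.pi ^ 3) * (ε⁻¹) ^ 8 * Real.exp (-r0 / (4 * ε ^ 2)) := by ring
      _ ≤ _ := by
          gcongr
          have : 0 < 128 * Real.pi ^ 3 * D0 := by positivity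
          linarith

end Pool.Agent.H85.DC
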