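import Pool.Agent.H85.DC.HomA
import Pool.Agent.H85.DC.HomC
import Pool.Agent.H85.DC.TauM

/-!
# Row Pol: integration along complex lines

Let `φ : CHom (-1) (-1)` and `g = gs ε (· - y)`, `N y = 1`.
(1) `∫ g φ dx = ∫ φ(x) N(x) Γ(x) e^{-N x} dx` with `Γ(x) = π^{-1} ∫_ℂ |s|^2 g(s x) ds`.
Proof: `(N x/π) ∫_ℂ e^{-|s|^2 N x} ds = 1` for `x ≠ 0`; so `∫ g φ = ∫∫ g(x) φ(x) (N x/π) e^{-|s|^2 N x} ds dx`; Fubini; for fixed `s ≠ 0`
substitute `x = z/s` where now … : put `z = s x`, i.e. `x = s^{-1} z`, `dx = |s|^{-6} dz`, `φ(s^{-1} z) = |s|^2 φ(z)`, `N(s^{-1}z) = N(z)/|s|^2`: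
inner integral `= ∫ g(s^{-1} z) |s|^2 φ(z) N(z) |s|^{-2} π^{-1} e^{-N z} |s|^{-6} dz = π^{-1} ∫ φ(z) N(z) e^{-N z} |s|^{-6} g(s^{-1}z) dz`.
Integrate in `s` and substitute `s = 1/s'` (`ds = |s'|^{-4} ds'`): `∫ |s|^{-6} g(s^{-1}z) ds = ∫ |s'|^2 g(s' z) ds'`.
(To avoid the inversion of `ℂ`: start instead from `∫_ℂ |s|^{-4} N e^{-N/|s|^2} ds = π`, or read the identity from right to left:
RHS `= π^{-1} ∫∫ φ(x) N(x) |s|^2 g(s x) e^{-N x} ds dx`; for fixed `s` substitute `x = z/s`: `= π^{-1} ∫∫ |s|^2 φ(z) |s|^{-2} N(z) |s|^2 g(z) e^{-N z/|s|^2} |s|^{-6} dz ds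
= ∫ φ(z) g(z) [π^{-1} ∫ N(z) |s|^{-4} e^{-N z/|s|^2} ds] dz`, and the bracket is `1`: polar coordinates `2π ∫_0^∞ r^{-3} e^{-N/r^2} dr = π/N`,
with antiderivative `e^{-N/r^2}/(2N)`; Mathlib: `Complex.integral_comp_polarCoord_symm`, `integral_Ioi_of_hasDerivAt_of_tendsto`.)
Absolute convergence: `|φ| ≤ C/N`, `∫ g/N < ∞`.
(2) `Γ(x) = (1 - τ + ε^2) e^{-τ/ε^2}/(π^3 ε^4 (N x)^2)`, `τ = tau x y`. With `n = N x`, `c = conj (ip x y)/n`:
`N (s x - y) = n |s|^2 - 2 Re (s ip x y) + 1 = n |s - c|^2 + 1 - |ip x y|^2/n = n |s - c|^2 + τ`. And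
`∫_ℂ |s|^2 e^{-n |s-c|^2/ε^2} ds = (π ε^2/n)(|c|^2 + ε^2/n)` (shift, `∫ e^{-a|z|^2} = π/a`, `∫ |z|^2 e^{-a|z|^2} = π/a^2`, odd terms vanish), `|c|^2 = |ip|^2/n^2 = (1-τ)/n`.
So `Γ = π^{-1} (π ε^2)^{-3} e^{-τ/ε^2} (π ε^2/n^2)(1 - τ + ε^2)`.
Hence `N Γ = kk ε τ/N`.
-/

open MeasureTheory
open scoped ContDiff BigOperators ComplexConjugate Matrix

namespace Pool.Agent.H85.DC

private theorem pN_pos {x : V} (hx : x ≠ 0) : 0 < N x := N_pos hx

private theorem int_cplx {a : ℝ} (ha : 0 < a) :
    ∫ z : ℂ, Real.exp (-a * Complex.normSq z) = Real.pi / a := by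
  have h := Complex.integral_rpow_mul_exp_neg_mul_rpow (p := 2) (q := 0) (b := a) (by norm_num)
    (by norm_num) ha
  rw [show (-(0 + 2) / 2 : ℝ) = -1 by norm_num, show ((0 + 2) / 2 : ℝ) = 1 by norm_num,
    Real.Gamma_one, Real.rpow_neg_one] at h
  rw [show (2 * Real.pi / 2 * a⁻¹ * 1 : ℝ) = Real.pi / a by ring] at h
  rw [← h]
  congr 1
  funext z
  rw [Real.rpow_zero, one_mul, Complex.normSq_eq_norm_sq, Real.rpow_two]

private theorem int_cplx2 {a : ℝ} (ha : 0 < a) :
    ∫ z : ℂ, Complex.normSq z * Real.exp (-a * Complex.normSq z) = Real.pi / a ^ 2 := by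
  have h := Complex.integral_rpow_mul_exp_neg_mul_rpow (p := 2) (q := 2) (b := a) (by norm_num)
    (by norm_num) ha
  rw [show (-(2 + 2) / 2 : ℝ) = -2 by norm_num, show ((2 + 2) / 2 : ℝ) = 2 by norm_num,
    Real.Gamma_two, Real.rpow_neg ha.le, Real.rpow_two] at h
  rw [show (2 * Real.pi / 2 * (a ^ 2)⁻¹ * 1 : ℝ) = Real.pi / a ^ 2 by ring] at h
  rw [← h]
  congr 1
  funext z
  rw [Real.rpow_two, Complex.normSq_eq_norm_sq]

private theorem int_cplx_shift {a : ℝ} (ha : 0 < a) (c : ℂ) :
    ∫ s : ℂ, Complex.normSq s * Real.exp (-a * Complex.normSq (s - c)) =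
      Real.pi / a ^ 2 + Complex.normSq c * (Real.pi / a) := by
  have hpi := Real.pi_pos
  have i0 : Integrable fun z : ℂ => Real.exp (-a * Complex.normSq z) := by
    by_contra h
    have := integral_undef h
    rw [int_cplx ha] at this
    have h2 : 0 < Real.pi / a := by positivity
    exact h2.ne' this
  have i2 : Integrable fun z : ℂ => Complex.normSq z * Real.exp (-a * Complex.normSq z) := by
    by_contra h
    have := integral_undef h
    rw [int_cplx2 ha] at this
    have h2 : 0 < Real.pi / a ^ 2 := by positivity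
    exact h2.ne' this
  have hcn : Continuous Complex.normSq := Complex.continuous_normSq
  have bd : ∀ z w : ℂ, Complex.normSq (z + w) ≤ 2 * Complex.normSq z + 2 * Complex.normSq w := by
    intro z w
    simp only [Complex.normSq_apply, Complex.add_re, Complex.add_im]
    nlinarith [sq_nonneg (z.re - w.re), sq_nonneg (z.im - w.im)]
  have e1 : ∫ s : ℂ, Complex.normSq s * Real.exp (-a * Complex.normSq (s - c)) =
      ∫ z : ℂ, Complex.normSq (z + c) * Real.exp (-a * Complex.normSq z) := by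
    rw [← integral_add_right_eq_self _ c]
    simp only [add_sub_cancel_right]
  have i3 : ∀ c : ℂ, Integrable fun z : ℂ => Complex.normSq (z + c) * Real.exp (-a * Complex.normSq z) := by
    intro c
    refine Integrable.mono' ((i2.const_mul 2).add (i0.const_mul (2 * Complex.normSq c))) ?_ ?_
    · refine Continuous.aestronglyMeasurable ?_
      fun_prop
    · refine Filter.Eventually.of_forall fun z => ?_
      rw [Real.norm_eq_abs, abs_of_nonneg (mul_nonneg (Complex.normSq_nonneg _) (Real.exp_pos _).le)]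
      simp only [Pi.add_apply]
      have := bd z c
      have he := Real.exp_pos (-a * Complex.normSq z)
      nlinarith
  have e2 : ∫ z : ℂ, Complex.normSq (z + c) * Real.exp (-a * Complex.normSq z) =
      ∫ z : ℂ, Complex.normSq (z - c) * Real.exp (-a * Complex.normSq z) := by
    rw [← integral_neg_eq_self]
    congr 1
    funext z
    rw [Complex.normSq_neg]
    congr 1
    rw [show -z + c = -(z - c) by ring, Complex.normSq_neg]
  have e3 : (∫ z : ℂ, Complex.normSq (z + c) * Real.exp (-a * Complex.normSq z)) +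
      (∫ z : ℂ, Complex.normSq (z - c) * Real.exp (-a * Complex.normSq z)) =
      2 * (Real.pi / a ^ 2 + Complex.normSq c * (Real.pi / a)) := by
    rw [← integral_add (i3 c) (by simpa only [sub_eq_add_neg] using i3 (-c)), ← int_cplx ha, ← int_cplx2 ha,
      ← integral_const_mul, ← integral_add i2 (i0.const_mul _), ← integral_const_mul]
    congr 1
    funext z
    simp only [Complex.normSq_apply, Complex.add_re, Complex.add_im, Complex.sub_re, Complex.sub_im]
    ring
  rw [e1]
  linarith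

private theorem N_line {x y : V} (hx : x ≠ 0) (hy : N y = 1) (s : ℂ) :
    N (s • x - y) = N x * Complex.normSq (s - conj (ip x y) / N x) + tau x y := by
  have hn := (pN_pos hx).ne'
  have h1 : N (s • x - y) = Complex.normSq s * N x - 2 * (s * ip x y).re + N y := by
    simp only [N, ip, Fin.sum_univ_three, Complex.normSq_apply, Pi.sub_apply, Pi.smul_apply,
      smul_eq_mul, Complex.sub_re, Complex.sub_im, Complex.mul_re, Complex.mul_im, Complex.add_re,
      Complex.add_im, Complex.conj_re, Complex.conj_im]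
    ring
  rw [h1, hy]
  unfold tau
  rw [hy]
  generalize ip x y = p
  generalize N x = n at hn
  have h2 : (conj p / (n : ℂ)) = ((p.re / n : ℝ) : ℂ) + ((-p.im / n : ℝ) : ℂ) * Complex.I := by
    apply Complex.ext
    · simp [Complex.div_ofReal_re]
    · simp [Complex.div_ofReal_im]
  rw [h2]
  simp only [Complex.normSq_apply, Complex.sub_re, Complex.sub_im, Complex.mul_re, Complex.mul_im,
    Complex.add_re, Complex.add_im, Complex.ofReal_re, Complex.ofReal_im, Complex.I_re, Complex.I_im]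
  field_simp
  ring

theorem gam {ε : ℝ} (hε : 0 < ε) {x y : V} (hx : x ≠ 0) (hy : N y = 1) :
    ∫ s : ℂ, Complex.normSq s * gs ε (s • x - y) = Real.pi * kk ε (tau x y) / (N x) ^ 2 := by
  have hn := pN_pos hx
  have hpi := Real.pi_pos
  have e1 : ∀ s : ℂ, Complex.normSq s * gs ε (s • x - y) =
      (((Real.pi * ε ^ 2) ^ 3)⁻¹ * Real.exp (-tau x y / ε ^ 2)) *
        (Complex.normSq s * Real.exp (-(N x / ε ^ 2) * Complex.normSq (s - conj (ip x y) / N x))) := by
    intro s
    unfold gs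
    rw [N_line hx hy, show -(N x * Complex.normSq (s - conj (ip x y) / N x) + tau x y) / ε ^ 2 =
      -tau x y / ε ^ 2 + -(N x / ε ^ 2) * Complex.normSq (s - conj (ip x y) / N x) by ring, Real.exp_add]
    ring
  simp only [e1]
  rw [integral_const_mul, int_cplx_shift (by positivity)]
  have hc : Complex.normSq (conj (ip x y) / N x) = (1 - tau x y) / N x := by
    unfold tau
    rw [hy, map_div₀, Complex.normSq_conj, Complex.normSq_ofReal]
    field_simp
    ring
  rw [hc]
  unfold kk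
  field_simp
  ring

private theorem int_inv {b : ℝ} (hb : 0 < b) :
    ∫ s : ℂ, ((Complex.normSq s) ^ 2)⁻¹ * Real.exp (-b / Complex.normSq s) = Real.pi / b := by
  have e0 : ∀ s : ℂ, ((Complex.normSq s) ^ 2)⁻¹ * Real.exp (-b / Complex.normSq s) =
      (fun r : ℝ => (r ^ 4)⁻¹ * Real.exp (-b / r ^ 2)) ‖s‖ := by
    intro s
    simp only [Complex.normSq_eq_norm_sq]
    ring_nf
  rw [integral_congr_ae (Filter.Eventually.of_forall e0),
    integral_fun_norm_addHaar (volume : Measure ℂ) (fun r : ℝ => (r ^ 4)⁻¹ * Real.exp (-b / r ^ 2))]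
  have hball : (volume : Measure ℂ).real (Metric.ball 0 1) = Real.pi := by
    rw [Measure.real, Complex.volume_ball]
    simp
  rw [hball, Complex.finrank_real_complex]
  have h1 := integral_comp_rpow_Ioi (fun u : ℝ => Real.exp (-b * u)) (p := -2) (by norm_num)
  rw [integral_exp_mul_Ioi (by linarith)] at h1
  have h2 : ∫ y in Set.Ioi (0 : ℝ), y ^ (2 - 1) • ((y ^ 4)⁻¹ * Real.exp (-b / y ^ 2)) =
      (1 / 2) * ∫ x in Set.Ioi (0 : ℝ), (|(-2 : ℝ)| * x ^ ((-2 : ℝ) - 1)) • Real.exp (-b * x ^ (-2 : ℝ)) := by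
    rw [← integral_const_mul]
    refine setIntegral_congr_fun measurableSet_Ioi fun r hr => ?_
    have hr' : 0 < r := hr
    have hr2 : r ^ (-2 : ℝ) = (r ^ 2)⁻¹ := by
      rw [Real.rpow_neg hr'.le]; norm_num
    have hr3 : r ^ ((-2 : ℝ) - 1) = (r ^ 3)⁻¹ := by
      rw [show ((-2 : ℝ) - 1) = -((3 : ℕ) : ℝ) by norm_num, Real.rpow_neg hr'.le, Real.rpow_natCast]
    simp only [smul_eq_mul]
    rw [hr2, hr3, show (-b / r ^ 2) = -b * (r ^ 2)⁻¹ by ring, show |(-2 : ℝ)| = 2 by norm_num]
    field_simp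
    rw [show 2 - 1 = 1 from rfl, pow_one]
  rw [h2, h1]
  simp only [mul_zero, Real.exp_zero, smul_eq_mul, nsmul_eq_mul]
  push_cast
  field_simp

private theorem int_smul {s : ℂ} (hs : s ≠ 0) (F : V → ℂ) :
    ∫ x : V, F (s • x) = (((Complex.normSq s ^ 3)⁻¹ : ℝ) : ℂ) * ∫ x, F x := by
  have hn : 0 < Complex.normSq s := Complex.normSq_pos.2 hs
  set L : V →ₗ[ℝ] V := (s • (LinearMap.id : V →ₗ[ℂ] V)).restrictScalars ℝ with hL
  have hdet : LinearMap.det L = Complex.normSq s ^ 3 := by
    rw [hL, LinearMap.det_restrictScalars, Algebra.norm_complex_apply, LinearMap.det_smul,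
      LinearMap.det_id, mul_one, map_pow]
    simp
  have hmap := Measure.map_linearMap_addHaar_eq_smul_addHaar (volume : Measure V) (f := L)
    (by rw [hdet]; positivity)
  have hLs : (L : V → V) = fun x => s • x := by
    funext x
    rfl
  have h1 : ∫ x : V, F (s • x) = ∫ x, F x ∂(Measure.map (fun x : V => s • x) volume) := by
    exact ((Homeomorph.smulOfNeZero s hs).measurableEmbedding.integral_map F).symm
  rw [h1, ← hLs, hmap, hdet, integral_smul_measure, ENNReal.toReal_ofReal (abs_nonneg _),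
    abs_of_pos (by positivity)]
  rw [Complex.real_smul]

private theorem N_cont' : Continuous N := continuous_N

private theorem gs_pos {ε : ℝ} (hε : 0 < ε) (z : V) : 0 < gs ε z := by
  unfold gs
  have := Real.pi_pos
  positivity

private theorem gs_cont {ε : ℝ} : Continuous (gs ε) := by
  unfold gs
  have := continuous_N
  fun_prop

private theorem phi_bound {φ : V → ℂ} (hφ : CHom (-1) (-1) φ) :
    ∃ C : ℝ, 0 ≤ C ∧ ∀ x : V, x ≠ 0 → ‖φ x‖ ≤ C / N x := by
  obtain ⟨C, hC, h⟩ := chom_bound hφ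
  refine ⟨Real.sqrt C, Real.sqrt_nonneg _, fun x hx => ?_⟩
  have hn := pN_pos hx
  have h1 := h x hx
  refine abs_le_of_sq_le_sq' ?_ (by positivity) |>.2
  rw [div_pow, Real.sq_sqrt hC]
  refine h1.trans (le_of_eq ?_)
  rw [show ((-1 : ℤ) + -1) = -2 by norm_num, zpow_neg, div_eq_mul_inv]
  norm_cast

private theorem phi_meas {φ : V → ℂ} (hφ : CHom (-1) (-1) φ) : Measurable φ :=
  measurable_of_continuousOn_compl_singleton (0 : V) hφ.cont

private theorem ae_ne : ∀ᵐ x : V, x ≠ 0 := by
  rw [ae_iff]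
  simp

private theorem kk_pos {ε : ℝ} (hε : 0 < ε) (x y : V) : 0 < kk ε (tau x y) := by
  unfold kk
  have := Real.pi_pos
  have h1 := tau_le_one x y
  have h2 : 0 < 1 - tau x y + ε ^ 2 := by
    have : 0 < ε ^ 2 := by positivity
    linarith
  positivity

private theorem kk_bdd {ε : ℝ} (hε : 0 < ε) (x y : V) :
    kk ε (tau x y) ≤ (1 + ε ^ 2) / (Real.pi ^ 3 * ε ^ 4) := by
  unfold kk
  have := Real.pi_pos
  have h0 := tau_nonneg x y
  have h1 := tau_le_one x y
  have h4 : 0 < ε ^ 2 := by positivity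
  have h2 : Real.exp (-tau x y / ε ^ 2) ≤ 1 := by
    rw [Real.exp_le_one_iff]
    exact div_nonpos_of_nonpos_of_nonneg (by linarith) h4.le
  have h3 : 0 < Real.exp (-tau x y / ε ^ 2) := Real.exp_pos _
  have h5 : (1 - tau x y + ε ^ 2) * Real.exp (-tau x y / ε ^ 2) ≤ (1 + ε ^ 2) * 1 :=
    mul_le_mul (by linarith) h2 h3.le (by linarith)
  rw [mul_one] at h5
  exact div_le_div_of_nonneg_right h5 (by positivity)

private theorem kk_meas (ε : ℝ) (y : V) : Measurable fun x : V => kk ε (tau x y) := by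
  have h0 : Measurable fun x : V => ((x, y) : V × V) := measurable_id.prodMk measurable_const
  have h : Measurable fun x : V => tau x y := by
    have h := measurable_tau.comp h0
    exact h
  have h1 : Measurable fun t : ℝ => kk ε t := by
    unfold kk
    refine Continuous.measurable ?_
    fun_prop
  exact h1.comp h

/-- The double integrand before the substitution. -/
private noncomputable def G1 (φ : V → ℂ) (ε : ℝ) (y : V) (x : V) (s : ℂ) : ℂ :=
  φ x * ((N x * wt x * (Complex.normSq s * gs ε (s • x - y)) : ℝ) : ℂ)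

/-- The double integrand after the substitution. -/
private noncomputable def G2 (φ : V → ℂ) (ε : ℝ) (y : V) (z : V) (s : ℂ) : ℂ :=
  φ z * ((gs ε (z - y) * N z *
    (((Complex.normSq s) ^ 2)⁻¹ * Real.exp (-N z / Complex.normSq s)) : ℝ) : ℂ)

private theorem wt_pos (x : V) : 0 < wt x := Real.exp_pos _

private theorem G1_int {φ : V → ℂ} (hφ : CHom (-1) (-1) φ) {ε : ℝ} (hε : 0 < ε) {y : V} (hy : N y = 1) :
    Integrable (Function.uncurry (G1 φ ε y)) ((volume : Measure V).prod (volume : Measure ℂ)) := by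
  have hpi := Real.pi_pos
  have hm := phi_meas hφ
  have hg := gs_cont (ε := ε)
  have hNc := continuous_N
  have hmeas : Measurable (Function.uncurry (G1 φ ε y)) := by
    have h1 : Measurable fun p : V × ℂ => φ p.1 := hm.comp measurable_fst
    have h2 : Continuous fun p : V × ℂ => (N p.1 * wt p.1 * (Complex.normSq p.2 * gs ε (p.2 • p.1 - y)) : ℝ) := by
      unfold wt
      have := Complex.continuous_normSq
      fun_prop
    exact h1.mul (Complex.measurable_ofReal.comp h2.measurable)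
  have hnorm : ∀ x s, ‖G1 φ ε y x s‖ = ‖φ x‖ * (N x * wt x) * (Complex.normSq s * gs ε (s • x - y)) := by
    intro x s
    unfold G1
    have h0 : 0 ≤ N x * wt x * (Complex.normSq s * gs ε (s • x - y)) :=
      mul_nonneg (mul_nonneg (N_nonneg x) (wt_pos x).le)
        (mul_nonneg (Complex.normSq_nonneg s) (gs_pos hε (s • x - y)).le)
    rw [norm_mul, Complex.norm_real, Real.norm_eq_abs, abs_of_nonneg h0]
    ring
  rw [integrable_prod_iff hmeas.aestronglyMeasurable]
  constructor
  · filter_upwards [ae_ne] with x hx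
    have hi : Integrable fun s : ℂ => Complex.normSq s * gs ε (s • x - y) := by
      by_contra h
      have h0 := integral_undef h
      rw [gam hε hx hy] at h0
      have h1 := kk_pos hε x y
      have h2 := pN_pos hx
      have h3 : 0 < Real.pi * kk ε (tau x y) / N x ^ 2 := by positivity
      exact h3.ne' h0
    have : Integrable fun s : ℂ => φ x * (((N x * wt x * (Complex.normSq s * gs ε (s • x - y)) : ℝ)) : ℂ) :=
      ((hi.const_mul (N x * wt x)).ofReal).const_mul (φ x)
    exact this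
  · have e : ∀ᵐ x : V, ‖((kk ε (tau x y) : ℝ) : ℂ) * (φ x * ((N x : ℂ))⁻¹) * (wt x : ℂ)‖ * Real.pi =
        ∫ s : ℂ, ‖Function.uncurry (G1 φ ε y) (x, s)‖ := by
      filter_upwards [ae_ne] with x hx
      simp only [Function.uncurry, hnorm]
      rw [integral_const_mul, gam hε hx hy, norm_mul, norm_mul, norm_mul, norm_inv, Complex.norm_real,
        Complex.norm_real, Complex.norm_real, Real.norm_eq_abs, Real.norm_eq_abs, Real.norm_eq_abs,
        abs_of_pos (kk_pos hε x y), abs_of_pos (pN_pos hx), abs_of_pos (wt_pos x)]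
      have := (pN_pos hx).ne'
      field_simp
    refine (Integrable.mul_const ?_ Real.pi).congr e
    refine Integrable.norm ?_
    have hC : CHom (-2) (-2) (fun x => φ x * ((N x : ℂ))⁻¹) := by
      refine ⟨?_, fun l x hl => ?_⟩
      · refine hφ.cont.mul (ContinuousOn.inv₀ ?_ ?_)
        · exact (Complex.continuous_ofReal.comp continuous_N).continuousOn
        · intro x hx
          exact_mod_cast (pN_pos hx).ne'
      · rw [hφ.hom l x hl, N_smul]
        have h1 : (conj l) ≠ 0 := (map_ne_zero _).2 hl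
        rw [Complex.ofReal_mul, ← Complex.mul_conj, mul_inv, mul_inv,
          show (-2 : ℤ) = -1 + -1 by norm_num, zpow_add₀ hl, zpow_add₀ h1, zpow_neg_one, zpow_neg_one]
        ring
    refine chom_integrable_bdd hC (by norm_num) ?_ (B := (1 + ε ^ 2) / (Real.pi ^ 3 * ε ^ 4)) ?_
    · exact (Complex.measurable_ofReal.comp (kk_meas ε y)).aestronglyMeasurable
    · intro x
      rw [Complex.norm_real, Real.norm_eq_abs, abs_of_pos (kk_pos hε x y)]
      exact kk_bdd hε x y

private theorem gs_le {ε : ℝ} (hε : 0 < ε) {y : V} (hy : N y = 1) (z : V) :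
    gs ε (z - y) ≤ ((Real.pi * ε ^ 2) ^ 3)⁻¹ * Real.exp (1 / ε ^ 2) * Real.exp (-(1 / (2 * ε ^ 2)) * N z) := by
  unfold gs
  have hpi := Real.pi_pos
  rw [mul_assoc, ← Real.exp_add]
  have h1 : N z / 2 - 1 ≤ N (z - y) := by
    rw [← hy]
    simp only [N, Fin.sum_univ_three, Complex.normSq_apply, Pi.sub_apply, Complex.sub_re, Complex.sub_im]
    nlinarith [sq_nonneg ((z 0).re - 2 * (y 0).re), sq_nonneg ((z 0).im - 2 * (y 0).im),
      sq_nonneg ((z 1).re - 2 * (y 1).re), sq_nonneg ((z 1).im - 2 * (y 1).im),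
      sq_nonneg ((z 2).re - 2 * (y 2).re), sq_nonneg ((z 2).im - 2 * (y 2).im)]
  have h2 : 0 < ε ^ 2 := by positivity
  have h3 : -N (z - y) / ε ^ 2 ≤ 1 / ε ^ 2 + -(1 / (2 * ε ^ 2)) * N z := by
    rw [show 1 / ε ^ 2 + -(1 / (2 * ε ^ 2)) * N z = (1 - N z / 2) / ε ^ 2 by field_simp; ring]
    gcongr
    linarith
  gcongr

private theorem G2_int {φ : V → ℂ} (hφ : CHom (-1) (-1) φ) {ε : ℝ} (hε : 0 < ε) {y : V} (hy : N y = 1) :
    Integrable (Function.uncurry (G2 φ ε y)) ((volume : Measure V).prod (volume : Measure ℂ)) := by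
  have hpi := Real.pi_pos
  have hm := phi_meas hφ
  have hg := gs_cont (ε := ε)
  have hNc := continuous_N
  have hmeas : Measurable (Function.uncurry (G2 φ ε y)) := by
    have h1 : Measurable fun p : V × ℂ => φ p.1 := hm.comp measurable_fst
    have h2 : Measurable fun p : V × ℂ => gs ε (p.1 - y) * N p.1 := by
      refine Continuous.measurable ?_
      fun_prop
    have hns : Measurable fun p : V × ℂ => Complex.normSq p.2 :=
      Complex.continuous_normSq.measurable.comp measurable_snd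
    have hN2 : Measurable fun p : V × ℂ => N p.1 := hNc.measurable.comp measurable_fst
    have h3 : Measurable fun p : V × ℂ => ((Complex.normSq p.2) ^ 2)⁻¹ * Real.exp (-N p.1 / Complex.normSq p.2) :=
      ((hns.pow_const 2).inv).mul (Real.measurable_exp.comp (hN2.neg.div hns))
    exact h1.mul (Complex.measurable_ofReal.comp (h2.mul h3))
  have hnorm : ∀ z s, ‖G2 φ ε y z s‖ = ‖φ z‖ * (gs ε (z - y) * N z) *
      (((Complex.normSq s) ^ 2)⁻¹ * Real.exp (-N z / Complex.normSq s)) := by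
    intro z s
    unfold G2
    have h0 : 0 ≤ gs ε (z - y) * N z * (((Complex.normSq s) ^ 2)⁻¹ * Real.exp (-N z / Complex.normSq s)) :=
      mul_nonneg (mul_nonneg (gs_pos hε (z - y)).le (N_nonneg z))
        (mul_nonneg (inv_nonneg.2 (sq_nonneg _)) (Real.exp_pos _).le)
    rw [norm_mul, Complex.norm_real, Real.norm_eq_abs, abs_of_nonneg h0]
    ring
  rw [integrable_prod_iff hmeas.aestronglyMeasurable]
  constructor
  · filter_upwards [ae_ne] with z hz
    have hi : Integrable fun s : ℂ => ((Complex.normSq s) ^ 2)⁻¹ * Real.exp (-N z / Complex.normSq s) := by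
      by_contra h
      have h0 := integral_undef h
      rw [int_inv (pN_pos hz)] at h0
      have h2 := pN_pos hz
      have h3 : 0 < Real.pi / N z := by positivity
      exact h3.ne' h0
    have : Integrable fun s : ℂ => φ z * (((gs ε (z - y) * N z *
        (((Complex.normSq s) ^ 2)⁻¹ * Real.exp (-N z / Complex.normSq s)) : ℝ)) : ℂ) :=
      ((hi.const_mul (gs ε (z - y) * N z)).ofReal).const_mul (φ z)
    exact this
  · have e : ∀ᵐ z : V, (‖φ z‖ * gs ε (z - y)) * Real.pi =
        ∫ s : ℂ, ‖Function.uncurry (G2 φ ε y) (z, s)‖ := by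
      filter_upwards [ae_ne] with z hz
      simp only [Function.uncurry, hnorm]
      rw [integral_const_mul, int_inv (pN_pos hz)]
      have := (pN_pos hz).ne'
      field_simp
    refine (Integrable.mul_const ?_ Real.pi).congr e
    obtain ⟨C, hC0, hC⟩ := phi_bound hφ
    have hI := (integrable_N_rpow (s := -1) (c := 1 / (2 * ε ^ 2)) (by norm_num) (by positivity)).const_mul
      (C * (((Real.pi * ε ^ 2) ^ 3)⁻¹ * Real.exp (1 / ε ^ 2)))
    refine hI.mono' ?_ ?_
    · exact (hm.norm.mul (hg.comp (continuous_id.sub continuous_const)).measurable).aestronglyMeasurable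
    · filter_upwards [ae_ne] with z hz
      have h1 := (gs_pos hε (z - y)).le
      rw [Real.norm_eq_abs, abs_of_nonneg (by positivity)]
      have h2 := hC z hz
      have h3 := gs_le hε hy z
      have hn := pN_pos hz
      calc ‖φ z‖ * gs ε (z - y) ≤ (C / N z) * (((Real.pi * ε ^ 2) ^ 3)⁻¹ * Real.exp (1 / ε ^ 2) *
            Real.exp (-(1 / (2 * ε ^ 2)) * N z)) := by gcongr
        _ = _ := by
          rw [Real.rpow_neg_one]
          ring

theorem pol {φ : V → ℂ} (hφ : CHom (-1) (-1) φ) {ε : ℝ} (hε : 0 < ε) {y : V} (hy : N y = 1) :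
    ∫ x, (gs ε (x - y) : ℂ) * φ x =
      ∫ x, φ x * ((kk ε (tau x y) / N x : ℝ) : ℂ) * (wt x : ℂ) := by
  have hpi := Real.pi_pos
  have a1 : ∫ x, (gs ε (x - y) : ℂ) * φ x = ∫ z, (((Real.pi)⁻¹ : ℝ) : ℂ) * ∫ s, G2 φ ε y z s := by
    refine integral_congr_ae ?_
    filter_upwards [ae_ne] with z hz
    simp only [G2]
    rw [integral_const_mul, integral_complex_ofReal, integral_const_mul, int_inv (pN_pos hz)]
    have hn : (N z : ℂ) ≠ 0 := by exact_mod_cast (pN_pos hz).ne'
    have hp : (Real.pi : ℂ) ≠ 0 := by exact_mod_cast hpi.ne'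
    push_cast
    field_simp
  have a2 : ∫ x, φ x * ((kk ε (tau x y) / N x : ℝ) : ℂ) * (wt x : ℂ) =
      ∫ x, (((Real.pi)⁻¹ : ℝ) : ℂ) * ∫ s, G1 φ ε y x s := by
    refine integral_congr_ae ?_
    filter_upwards [ae_ne] with x hx
    simp only [G1]
    rw [integral_const_mul, integral_complex_ofReal, integral_const_mul, gam hε hx hy]
    have hn : (N x : ℂ) ≠ 0 := by exact_mod_cast (pN_pos hx).ne'
    have hp : (Real.pi : ℂ) ≠ 0 := by exact_mod_cast hpi.ne'
    push_cast
    field_simp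
  rw [a1, a2, integral_const_mul, integral_const_mul]
  congr 1
  rw [integral_integral_swap (G2_int hφ hε hy), integral_integral_swap (G1_int hφ hε hy)]
  refine integral_congr_ae ?_
  have hs0 : ∀ᵐ s : ℂ, s ≠ 0 := by
    rw [ae_iff]
    simp
  filter_upwards [hs0] with s hs
  have hn : 0 < Complex.normSq s := Complex.normSq_pos.2 hs
  have hc : (Complex.normSq s : ℂ) ≠ 0 := by exact_mod_cast hn.ne'
  have e1 : ∀ x : V, G1 φ ε y x s = ((Complex.normSq s : ℂ)) ^ 3 * (fun z => G2 φ ε y z s) (s • x) := by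
    intro x
    simp only [G1, G2]
    have hz : s ^ (-1 : ℤ) * (conj s) ^ (-1 : ℤ) = ((Complex.normSq s : ℂ))⁻¹ := by
      rw [zpow_neg_one, zpow_neg_one, ← mul_inv, Complex.mul_conj]
    have hex : -(Complex.normSq s * N x) / Complex.normSq s = -N x := by
      field_simp
    rw [hφ.hom s x hs, N_smul, hz, hex]
    unfold wt
    push_cast
    field_simp
  rw [integral_congr_ae (Filter.Eventually.of_forall e1), integral_const_mul,
    int_smul hs (fun z => G2 φ ε y z s)]
  rw [← mul_assoc]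
  push_cast
  rw [mul_inv_cancel₀ (pow_ne_zero _ hc), one_mul]

end Pool.Agent.H85.DC
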