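import Pool.Agent.H85.DC.SmA
import Pool.Agent.H85.DC.Pol
import Pool.Agent.H85.DC.GauE

/-!
# Row SmB: pairing of the smoothed current

`ee_smK`: for a matrix `B` killing `x` on both sides (`x ≠ 0`), `w' = perp x w`:
`ee (smK ε y w x) B = (kk ε τ/N x) * (quad B w + ε^2 tr B)`. Indeed `ee (1 - conj(x)x^T/N) B = 2 tr B - tr B = tr B`,
`ee (conj(w') w'^T) B = N w' tr B - quad B w'` (`tr ((conj(w'_j) w'_k)_{jk} B) = ∑ conj(w'_j) w'_k B_kj = quad B w'`), so the bracket gives
`(N w' + ε^2) tr B - N w' tr B + quad B w' = quad B w + ε^2 tr B` (`quad B w' = quad B w`).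
`qq_smK`: for `(y, w)` orthonormal: `qq (smK ε y w) A = quad (av ε A y) w`: by `quad_av`, `pol` with
`φ x = quad (A x) w + ε^2 tr (A x)` (`CHom (-1) (-1)`), and `ee_smK`.
`qq_sm`: for `μ`-a.e. `y` (`N y = 1`, `eta F y ≠ 0`): `pr F (av ε A) y = quad (av ε A y) (wv F y)` (`pr_eq`, `form_av`) `= qq (smK ε y (wv F y)) A`;
`qq (sm F μ ε) A = ∫_x ∫_y ee (smK … x) (A x) wt x dμ(y) dx` (`ee` is linear in the first argument: integral of a finite sum) and Fubini
(`integral_integral_swap`; bound `C_ε N^{-2} wt`, measurability `smK_meas`, `form_meas`).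
-/

open MeasureTheory
open scoped ContDiff BigOperators ComplexConjugate Matrix

namespace Pool.Agent.H85.DC

theorem SmB_quad_sub {B : M3} {x : V} (hB : ∀ k, ∑ j, x j * B j k = 0)
    (hB' : ∀ j, ∑ k, B j k * conj (x k) = 0) (w : V) (c : ℂ) :
    quad B (w - c • x) = quad B w := by
  have h0 := hB 0
  have h1 := hB 1
  have h2 := hB 2
  have g0 := hB' 0
  have g1 := hB' 1
  have g2 := hB' 2
  simp only [Fin.sum_univ_three] at h0 h1 h2 g0 g1 g2
  unfold quad
  simp only [Fin.sum_univ_three, Pi.sub_apply, Pi.smul_apply, smul_eq_mul, map_sub, map_mul]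
  linear_combination (-c * (conj (w 0) - conj c * conj (x 0))) * h0 +
    (-c * (conj (w 1) - conj c * conj (x 1))) * h1 +
    (-c * (conj (w 2) - conj c * conj (x 2))) * h2 -
    conj c * w 0 * g0 - conj c * w 1 * g1 - conj c * w 2 * g2

theorem SmB_trP {B : M3} {x : V} (hB : ∀ k, ∑ j, x j * B j k = 0) :
    ∑ j, ∑ k, ((if j = k then (1 : ℂ) else 0) - conj (x j) * x k / (N x : ℂ)) * B k j =
      B.trace := by
  have h0 := hB 0
  have h1 := hB 1
  have h2 := hB 2
  simp only [Fin.sum_univ_three] at h0 h1 h2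
  rw [Matrix.trace]
  simp only [Fin.sum_univ_three, Matrix.diag_apply, div_eq_mul_inv]
  simp
  linear_combination (-conj (x 0) * (N x : ℂ)⁻¹) * h0 + (-conj (x 1) * (N x : ℂ)⁻¹) * h1 +
    (-conj (x 2) * (N x : ℂ)⁻¹) * h2

theorem ee_smK {ε : ℝ} (y w : V) {x : V} (hx : x ≠ 0) {B : M3}
    (hB : ∀ k, ∑ j, x j * B j k = 0) (hB' : ∀ j, ∑ k, B j k * conj (x k) = 0) :
    ee (smK ε y w x) B =
      ((kk ε (tau x y) / N x : ℝ) : ℂ) * (quad B w + ((ε ^ 2 : ℝ) : ℂ) * B.trace) := by
  have hq : quad B (perp x w) = quad B w := SmB_quad_sub hB hB' w _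
  have hK : ∑ j, ∑ k, conj (perp x w j) * perp x w k * B k j = quad B (perp x w) := by
    unfold quad
    rw [Finset.sum_comm]
    refine Finset.sum_congr rfl fun j _ => Finset.sum_congr rfl fun k _ => ?_
    ring
  have hm : (smK ε y w x * B).trace = ((kk ε (tau x y) / N x : ℝ) : ℂ) *
      (((N (perp x w) + ε ^ 2 : ℝ) : ℂ) * B.trace - quad B w) := by
    rw [Lin_trmul, ← hq, ← hK, ← SmB_trP hB, Finset.mul_sum, ← Finset.sum_sub_distrib,
      Finset.mul_sum]
    refine Finset.sum_congr rfl fun j _ => ?_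
    rw [Finset.mul_sum, ← Finset.sum_sub_distrib, Finset.mul_sum]
    refine Finset.sum_congr rfl fun k _ => ?_
    rw [SmA_smK_apply]
    ring
  unfold ee
  rw [hm, smK_tr y w hx]
  push_cast
  ring

/-- The null set `{0}`. -/
theorem SmB_ae : ∀ᵐ x : V, x ≠ 0 := by
  have h : (volume : Measure V) {0} = 0 := measure_singleton 0
  exact compl_mem_ae_iff.mpr h

theorem SmB_phi {A : V → M3} (hA : IsForm A) (w : V) (c : ℂ) :
    CHom (-1) (-1) (fun x => quad (A x) w + c * (A x).trace) where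
  cont := by
    have he : ∀ j k : Fin 3, ContinuousOn (fun x => A x j k) {0}ᶜ := fun j k =>
      (form_chom hA j k).cont
    unfold quad
    refine ContinuousOn.add ?_ ?_
    · refine continuousOn_finsetSum _ fun j _ => continuousOn_finsetSum _ fun k _ => ?_
      exact ((he j k).mul continuousOn_const).mul continuousOn_const
    · refine continuousOn_const.mul ?_
      simp only [Matrix.trace, Matrix.diag_apply]
      exact continuousOn_finsetSum _ fun j _ => he j j
  hom := by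
    intro l x hl
    have h1 := hA.hom l x hl
    have h2 : l ^ (-1 : ℤ) * (conj l) ^ (-1 : ℤ) = ((Complex.normSq l : ℂ))⁻¹ := by
      rw [zpow_neg_one, zpow_neg_one, ← mul_inv, Complex.mul_conj]
    simp only [h1, h2]
    unfold quad
    rw [Matrix.trace_smul, smul_eq_mul, mul_add, Finset.mul_sum]
    congr 1
    · refine Finset.sum_congr rfl fun j _ => ?_
      rw [Finset.mul_sum]
      refine Finset.sum_congr rfl fun k _ => ?_
      rw [Matrix.smul_apply, smul_eq_mul]
      ring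
    · ring

theorem qq_smK {A : V → M3} (hA : IsForm A) {ε : ℝ} (hε : 0 < ε) {y w : V} (hy : N y = 1)
    (hw : N w = 1) (hyw : ip w y = 0) : qq (smK ε y w) A = quad (av ε A y) w := by
  rw [quad_av hA hε hy hw hyw]
  have h := pol (SmB_phi hA w ((ε ^ 2 : ℝ) : ℂ)) hε hy
  rw [h]
  unfold qq
  refine integral_congr_ae ?_
  filter_upwards [SmB_ae] with x hx
  rw [ee_smK y w hx (hA.killl x hx) (hA.killr x hx)]
  ring

/-- The coefficients of the linear form `B ↦ ee B C`. -/
noncomputable def SmB_cf (C : M3) (j k : Fin 3) : ℂ := (if j = k then C.trace else 0) - C k j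

theorem SmB_ee (B C : M3) : ee B C = ∑ j, ∑ k, B j k * SmB_cf C j k := by
  unfold ee
  rw [Lin_trmul]
  have h1 : B.trace * C.trace = ∑ j, ∑ k, B j k * (if j = k then C.trace else 0) := by
    rw [Matrix.trace, Finset.sum_mul]
    refine Finset.sum_congr rfl fun j _ => ?_
    simp
  rw [h1, ← Finset.sum_sub_distrib]
  refine Finset.sum_congr rfl fun j _ => ?_
  rw [← Finset.sum_sub_distrib]
  refine Finset.sum_congr rfl fun k _ => ?_
  unfold SmB_cf
  ring

theorem SmB_cf_meas {A : V → M3} (hA : IsForm A) (j k : Fin 3) :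
    Measurable (fun x => SmB_cf (A x) j k) := by
  unfold SmB_cf
  refine Measurable.sub ?_ (form_meas hA k j)
  by_cases h : j = k
  · simp only [h, if_true]
    simp only [Matrix.trace, Matrix.diag_apply]
    exact Finset.measurable_sum _ fun i _ => form_meas hA i i
  · simp only [h, if_false]
    exact measurable_const

theorem SmB_cf_bound {A : V → M3} {C : ℝ} (hC : ∀ x : V, x ≠ 0 → ∀ j k, ‖A x j k‖ ≤ C / N x)
    {x : V} (hx : x ≠ 0) (j k : Fin 3) : ‖SmB_cf (A x) j k‖ ≤ 4 * (C / N x) := by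
  have h0 : 0 ≤ C / N x := (norm_nonneg _).trans (hC x hx j k)
  unfold SmB_cf
  have h1 : ‖(if j = k then (A x).trace else 0 : ℂ)‖ ≤ 3 * (C / N x) := by
    by_cases h : j = k
    · rw [if_pos h, Matrix.trace]
      refine (norm_sum_le _ _).trans ?_
      refine (Finset.sum_le_sum fun i _ => hC x hx i i).trans ?_
      simp
    · rw [if_neg h, norm_zero]
      positivity
  refine (norm_sub_le _ _).trans ?_
  have h2 := hC x hx k j
  linarith

theorem SmB_ee_bound {F : Fin 3 → MvPolynomial (Fin 3) ℂ} {A : V → M3} {C : ℝ}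
    (hC : ∀ x : V, x ≠ 0 → ∀ j k, ‖A x j k‖ ≤ C / N x) {ε : ℝ} (hε : 0 < ε) (h1 : ε ≤ 1)
    {x y : V} (hx : x ≠ 0) (hy : N (wv F y) ≤ 1) :
    ‖ee (smK ε y (wv F y) x) (A x)‖ ≤ (432 * ε⁻¹ ^ 4 * C) * (N x) ^ (-2 : ℝ) := by
  have hN := SmA_Npos hx
  rw [SmB_ee]
  have hb : ∀ j k : Fin 3, ‖smK ε y (wv F y) x j k * SmB_cf (A x) j k‖ ≤
      (12 * ε⁻¹ ^ 4 / N x) * (4 * (C / N x)) := by
    intro j k
    rw [norm_mul]
    exact mul_le_mul (smK_bound hε h1 hy hx j k) (SmB_cf_bound hC hx j k) (norm_nonneg _)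
      (by positivity)
  refine (norm_sum_le _ _).trans ?_
  refine (Finset.sum_le_sum fun j _ => (norm_sum_le _ _).trans
    (Finset.sum_le_sum fun k _ => hb j k)).trans ?_
  rw [Real.rpow_neg hN.le, Real.rpow_two]
  simp only [Finset.sum_const, Finset.card_univ, Fintype.card_fin, nsmul_eq_mul]
  apply le_of_eq
  field_simp
  norm_num
  ring

theorem SmB_meas (F : Fin 3 → MvPolynomial (Fin 3) ℂ) {A : V → M3} (hA : IsForm A) (ε : ℝ) :
    Measurable (fun q : V × V => ee (smK ε q.2 (wv F q.2) q.1) (A q.1) * (wt q.1 : ℂ)) := by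
  simp only [SmB_ee]
  refine Measurable.mul ?_ ?_
  · refine Finset.measurable_sum _ fun j _ => Finset.measurable_sum _ fun k _ => ?_
    exact (smK_meas F ε j k).mul ((SmB_cf_meas hA j k).comp measurable_fst)
  · unfold wt
    have hc : Continuous fun q : V × V => ((Real.exp (-N q.1) : ℝ) : ℂ) :=
      Complex.continuous_ofReal.comp (Real.continuous_exp.comp
        ((continuous_N.comp continuous_fst).neg))
    exact hc.measurable

theorem SmB_prod {F : Fin 3 → MvPolynomial (Fin 3) ℂ} {μ : Measure V} (hμ : IsCur F μ)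
    {A : V → M3} (hA : IsForm A) {ε : ℝ} (hε : 0 < ε) (h1 : ε ≤ 1) :
    Integrable (fun q : V × V => ee (smK ε q.2 (wv F q.2) q.1) (A q.1) * (wt q.1 : ℂ))
      ((volume : Measure V).prod μ) := by
  have := SmA_finite hμ
  obtain ⟨C, hC0, hC⟩ := form_bound hA
  have hint : Integrable (fun x : V => (432 * ε⁻¹ ^ 4 * C) * ((N x) ^ (-2 : ℝ) *
      Real.exp (-1 * N x))) := (integrable_N_rpow (by norm_num) one_pos).const_mul _
  have hd := hint.comp_fst μ
  refine hd.mono' (SmB_meas F hA ε).aestronglyMeasurable ?_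
  have ha : ∀ᵐ q : V × V ∂((volume : Measure V).prod μ), q.1 ≠ 0 :=
    Measure.quasiMeasurePreserving_fst.ae SmB_ae
  have hb : ∀ᵐ q : V × V ∂((volume : Measure V).prod μ), N (wv F q.2) ≤ 1 :=
    Measure.quasiMeasurePreserving_snd.ae (SmA_unit hμ)
  filter_upwards [ha, hb] with q hq1 hq2
  rw [norm_mul]
  have hw : ‖(wt q.1 : ℂ)‖ = Real.exp (-1 * N q.1) := by
    unfold wt
    rw [Complex.norm_real, Real.norm_eq_abs, abs_of_nonneg (Real.exp_nonneg _)]
    congr 1
    ring
  rw [hw, ← mul_assoc]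
  exact mul_le_mul_of_nonneg_right (SmB_ee_bound hC hε h1 hq1 hq2) (Real.exp_nonneg _)

theorem qq_sm {F : Fin 3 → MvPolynomial (Fin 3) ℂ} {μ : Measure V} (hμ : IsCur F μ)
    {A : V → M3} (hA : IsForm A) {ε : ℝ} (hε : 0 < ε) (h1 : ε ≤ 1) :
    qq (sm F μ ε) A = ∫ y, pr F (av ε A) y ∂μ := by
  have := SmA_finite hμ
  have e1 : qq (sm F μ ε) A =
      ∫ x, ∫ y, ee (smK ε y (wv F y) x) (A x) * (wt x : ℂ) ∂μ := by
    unfold qq
    refine integral_congr_ae ?_
    filter_upwards [SmB_ae] with x hx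
    rw [integral_mul_const, SmB_ee]
    congr 1
    simp only [SmB_ee]
    rw [integral_finsetSum _ fun j _ => integrable_finsetSum _ fun k _ =>
      (SmA_int hμ hε h1 hx j k).mul_const _]
    refine Finset.sum_congr rfl fun j _ => ?_
    rw [integral_finsetSum _ fun k _ => (SmA_int hμ hε h1 hx j k).mul_const _]
    refine Finset.sum_congr rfl fun k _ => ?_
    rw [integral_mul_const, sm_eq]
  rw [e1, integral_integral_swap (SmB_prod hμ hA hε h1)]
  refine integral_congr_ae ?_
  filter_upwards [hμ.sphere, hμ.sing] with y hy hs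
  rw [pr_eq (form_av hA hε) hy, ← qq_smK hA hε hy (wv_unit hy hs) (wv_orth hy)]
  rfl

/-- Convergence of the pairings. -/
theorem pr_av_tendsto {F : Fin 3 → MvPolynomial (Fin 3) ℂ} {μ : Measure V} (hμ : IsCur F μ)
    {A : V → M3} (hA : IsForm A) :
    Filter.Tendsto (fun ε : ℝ => ∫ y, pr F (av ε A) y ∂μ) (nhdsWithin 0 (Set.Ioi 0))
      (nhds (∫ y, pr F A y ∂μ)) := by
  have := SmA_finite hμ
  rw [Metric.tendsto_nhds]
  intro δ hδ
  obtain ⟨ε0, h0, hε0⟩ := av_conv hA (δ := δ / 4) (by positivity)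
  have hev : ∀ᶠ ε : ℝ in nhdsWithin 0 (Set.Ioi 0), 0 < ε ∧ ε < ε0 := by
    refine Filter.Eventually.and self_mem_nhdsWithin ?_
    exact mem_nhdsWithin_of_mem_nhds (Iio_mem_nhds h0)
  filter_upwards [hev] with ε hε
  have hsub : IsForm (fun x => av ε A x - A x) := form_sub (form_av hA hε.1) hA
  have hpr : ∀ y, pr F (fun x => av ε A x - A x) y = pr F (av ε A) y - pr F A y := by
    intro y
    unfold pr
    rw [← sub_div, ← Finset.sum_sub_distrib]
    congr 1
    refine Finset.sum_congr rfl fun j _ => ?_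
    rw [← Finset.sum_sub_distrib]
    refine Finset.sum_congr rfl fun k _ => ?_
    show (av ε A y j k - A y j k) * _ * _ = _
    ring
  rw [dist_eq_norm, ← integral_sub (pr_int (form_av hA hε.1) hμ) (pr_int hA hμ)]
  have hb : ∀ᵐ y ∂μ, ‖pr F (av ε A) y - pr F A y‖ ≤ 3 * (δ / 4) := by
    filter_upwards [hμ.sphere] with y hy
    rw [← hpr y]
    refine pr_bound (C := δ / 4) ?_ hsub hy
    intro x hx j k
    rw [Matrix.sub_apply]
    exact hε0 ε hε.1 hε.2 x hx j k
  have hn := norm_integral_le_of_norm_le_const hb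
  have hm : μ.real Set.univ = 1 := by
    rw [measureReal_def, hμ.prob, ENNReal.toReal_one]
  rw [hm, mul_one] at hn
  linarith

end Pool.Agent.H85.DC
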