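import Pool.Agent.H85.DC.SmB

/-!
# Row SmC: the smoothing of a `ddᶜ`-closed current is `ddᶜ`-closed

`inH_sm`: form, Hermitian: `form_sm`, `herm_sm`. For conic `u`: `qq (L u) (sm) = qq (sm) (L u) = ∫ pr F (av ε (L u)) y dμ(y)` (`qq_sm`).
For `N y = 1`: `pr F (av ε A) y = ∫ gau G pr F (pull (mat ε G) A) y dG` (`pr` is a finite linear combination of the entries, `pull_int`).
Fubini on `μ × dG` (`pull_meas`; `|pr F (pull M A) y| ≤ 9 · 9 C hs M/N (M y)` by `pull_norm` and `|Z_j|^2 …`: use `pr_eq`-type bound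
`|pr F B y| ≤ 3 max |B_jk|` for matrices `B` killing `y` on both sides; `gau_bound`; `μ` finite (`hμ.prob`)): it equals
`∫ gau G (∫ pr F (pull (mat ε G) (L u)) y dμ(y)) dG`. For a.e. `G`, `M = mat ε G` is invertible (`det_ae`) and
`pull M (L u) y = L (u ∘ M) y` for `y ≠ 0` (`pull_L`), `u ∘ M` is conic (`isFun_comp`), so the inner integral is `0` by `DdcClosed`.
-/

open MeasureTheory
open scoped ContDiff BigOperators ComplexConjugate Matrix

namespace Pool.Agent.H85.DC

/-- The integrand. -/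
noncomputable def SmC_Psi (F : Fin 3 → MvPolynomial (Fin 3) ℂ) (A : V → M3) (ε : ℝ)
    (q : V × (Fin 3 → V)) : ℂ :=
  (gau q.2 : ℂ) * pr F (pull (mat ε q.2) A) q.1

theorem SmC_meas (F : Fin 3 → MvPolynomial (Fin 3) ℂ) {A : V → M3} (hA : IsForm A) (ε : ℝ) :
    Measurable (SmC_Psi F A ε) := by
  unfold SmC_Psi pr
  have hZ : ∀ j, Measurable (fun q : V × (Fin 3 → V) => Zf F q.1 j) := fun j =>
    ((continuous_apply j).comp ((continuous_Zf F).comp continuous_fst)).measurable
  refine Measurable.mul ?_ (Measurable.div ?_ ?_)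
  · exact Complex.measurable_ofReal.comp (gau_meas.comp measurable_snd)
  · refine Finset.measurable_fun_sum _ fun j _ => Finset.measurable_fun_sum _ fun k _ => ?_
    exact ((pull_meas hA ε j k).mul (hZ j)).mul
      (Complex.continuous_conj.measurable.comp (hZ k))
  · exact Complex.measurable_ofReal.comp
      (continuous_N.comp ((continuous_eta F).comp continuous_fst)).measurable

theorem SmC_quad_norm {B : M3} {b : ℝ} (hB : ∀ j k, ‖B j k‖ ≤ b) {w : V} (hw : N w = 1) :
    ‖quad B w‖ ≤ 9 * b := by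
  have hb : 0 ≤ b := (norm_nonneg _).trans (hB 0 0)
  have hwj : ∀ j, ‖w j‖ ≤ 1 := by
    intro j
    have h1 : Complex.normSq (w j) ≤ N w :=
      Finset.single_le_sum (f := fun j => Complex.normSq (w j))
        (fun _ _ => Complex.normSq_nonneg _) (Finset.mem_univ j)
    rw [hw, Complex.normSq_eq_norm_sq] at h1
    nlinarith [norm_nonneg (w j)]
  have h2 : ∀ j k, ‖B j k * w j * conj (w k)‖ ≤ b := by
    intro j k
    rw [norm_mul, norm_mul, RCLike.norm_conj]
    calc ‖B j k‖ * ‖w j‖ * ‖w k‖ ≤ b * 1 * 1 := by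
          gcongr
          · exact hB j k
          · exact hwj j
          · exact hwj k
      _ = b := by ring
  unfold quad
  calc ‖∑ j, ∑ k, B j k * w j * conj (w k)‖ ≤ ∑ _j : Fin 3, ∑ _k : Fin 3, b := by
        refine (norm_sum_le _ _).trans (Finset.sum_le_sum fun j _ => ?_)
        exact (norm_sum_le _ _).trans (Finset.sum_le_sum fun k _ => h2 j k)
    _ = 9 * b := by
        simp only [Finset.sum_const, Finset.card_univ, Fintype.card_fin, nsmul_eq_mul]
        push_cast
        ring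

theorem SmC_ne {y : V} (hy : N y = 1) : y ≠ 0 := by
  rintro rfl
  have : N (0 : V) = 0 := by simp [N]
  rw [this] at hy
  exact zero_ne_one hy

theorem SmC_int (F : Fin 3 → MvPolynomial (Fin 3) ℂ) {μ : Measure V} (hμ : IsCur F μ)
    [IsFiniteMeasure μ] {A : V → M3} (hA : IsForm A) {ε : ℝ} (hε : 0 < ε) :
    Integrable (SmC_Psi F A ε) (μ.prod (volume : Measure (Fin 3 → V))) := by
  refine ⟨(SmC_meas F hA ε).aestronglyMeasurable, ?_⟩
  rw [hasFiniteIntegral_iff_enorm, lintegral_prod _ (SmC_meas F hA ε).enorm.aemeasurable]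
  obtain ⟨CA, hCA0, hCA⟩ := form_bound hA
  obtain ⟨K, hK0, hK⟩ := gau_bound hε
  have key : ∀ᵐ y ∂μ, ∫⁻ G : Fin 3 → V, ‖SmC_Psi F A ε (y, G)‖ₑ ≤
      ENNReal.ofReal (81 * CA * K) := by
    filter_upwards [hμ.sphere, hμ.sing] with y hy hy2
    have hy0 := SmC_ne hy
    have h1 : ∀ᵐ G : Fin 3 → V, ‖SmC_Psi F A ε (y, G)‖ₑ ≤
        ENNReal.ofReal (81 * CA) *
          ENNReal.ofReal (gau G * (hs (mat ε G) / N ((mat ε G).mulVec y))) := by
      filter_upwards [det_ae hε] with G hG
      have hMy := GauE_mulVec hG hy0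
      have hNM := N_pos hMy
      have hp := fun j k => pull_norm hCA (mat ε G) hMy j k
      have he := SmC_quad_norm hp (wv_unit hy hy2)
      rw [← pr_eq (form_pull hA hG) hy] at he
      rw [← ENNReal.ofReal_mul (by positivity), ← ofReal_norm]
      apply ENNReal.ofReal_le_ofReal
      unfold SmC_Psi
      rw [norm_mul, Complex.norm_real, Real.norm_of_nonneg (gau_nonneg G)]
      refine (mul_le_mul_of_nonneg_left he (gau_nonneg G)).trans (le_of_eq ?_)
      ring
    refine (lintegral_mono_ae h1).trans ?_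
    rw [lintegral_const_mul' _ _ ENNReal.ofReal_ne_top]
    refine (mul_le_mul_right (hK y hy0) _).trans ?_
    rw [← ENNReal.ofReal_mul (by positivity), hy, div_one]
  refine lt_of_le_of_lt (lintegral_mono_ae key) ?_
  rw [lintegral_const]
  exact ENNReal.mul_lt_top ENNReal.ofReal_lt_top (measure_lt_top μ _)

/-- The inner integral in `G`. -/
theorem SmC_inner (F : Fin 3 → MvPolynomial (Fin 3) ℂ) {A : V → M3} (hA : IsForm A) {ε : ℝ}
    (hε : 0 < ε) {y : V} (hy : y ≠ 0) :
    ∫ G : Fin 3 → V, SmC_Psi F A ε (y, G) = pr F (av ε A) y := by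
  have hI : ∀ j k, Integrable (fun G : Fin 3 → V => (gau G : ℂ) * pull (mat ε G) A y j k) :=
    fun j k => pull_int hA hε hy j k
  have h1 : ∀ G : Fin 3 → V, SmC_Psi F A ε (y, G) =
      ∑ j, ∑ k, (Zf F y j * conj (Zf F y k) / (N (eta F y) : ℂ)) *
        ((gau G : ℂ) * pull (mat ε G) A y j k) := by
    intro G
    unfold SmC_Psi pr
    rw [Finset.sum_div, Finset.mul_sum]
    refine Finset.sum_congr rfl fun j _ => ?_
    rw [Finset.sum_div, Finset.mul_sum]
    refine Finset.sum_congr rfl fun k _ => ?_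
    ring
  simp_rw [h1]
  have h2 : ∀ j k, Integrable (fun G : Fin 3 → V =>
      (Zf F y j * conj (Zf F y k) / (N (eta F y) : ℂ)) *
        ((gau G : ℂ) * pull (mat ε G) A y j k)) := fun j k => (hI j k).const_mul _
  rw [integral_finsetSum _ fun j _ => integrable_finsetSum _ fun k _ => h2 j k]
  unfold pr
  rw [Finset.sum_div]
  refine Finset.sum_congr rfl fun j _ => ?_
  rw [integral_finsetSum _ fun k _ => h2 j k, Finset.sum_div]
  refine Finset.sum_congr rfl fun k _ => ?_
  rw [integral_const_mul]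
  unfold av
  ring

theorem inH_sm {F : Fin 3 → MvPolynomial (Fin 3) ℂ} {μ : Measure V} (hμ : IsCur F μ)
    (hd : DdcClosed F μ) {ε : ℝ} (hε : 0 < ε) (h1 : ε ≤ 1) : InH (sm F μ ε) := by
  have hfin := SmA_finite hμ
  refine ⟨form_sm hμ hε h1, herm_sm hμ hε h1, fun u hu => ?_⟩
  rw [qq_comm, qq_sm hμ (form_L hu) hε h1]
  have e1 : ∫ y, pr F (av ε (L u)) y ∂μ =
      ∫ y, (∫ G : Fin 3 → V, SmC_Psi F (L u) ε (y, G)) ∂μ := by
    refine integral_congr_ae ?_
    filter_upwards [hμ.sphere] with y hy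
    exact (SmC_inner F (form_L hu) hε (SmC_ne hy)).symm
  have hint : Integrable (Function.uncurry fun y (G : Fin 3 → V) => SmC_Psi F (L u) ε (y, G))
      (μ.prod (volume : Measure (Fin 3 → V))) := SmC_int F hμ (form_L hu) hε
  rw [e1, integral_integral_swap hint]
  refine (integral_congr_ae (g := fun _ => 0) ?_).trans (by simp)
  filter_upwards [det_ae hε] with G hG
  have e2 : ∀ᵐ y ∂μ, SmC_Psi F (L u) ε (y, G) =
      (gau G : ℂ) * pr F (L (fun z => u ((mat ε G).mulVec z))) y := by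
    filter_upwards [hμ.sphere] with y hy
    have hy0 := SmC_ne hy
    have h3 := pull_L hu.smooth (mat ε G) (GauE_mulVec hG hy0)
    unfold SmC_Psi pr
    rw [h3]
  rw [integral_congr_ae e2, integral_const_mul, hd _ (isFun_comp hu hG), mul_zero]

end Pool.Agent.H85.DC
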