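import Pool.Agent.H85.DC.SmB

/-!
# Row SmD: the mass of the smoothed current

`quad_av_Wm`: for orthonormal `(y, w)`: `quad (av ε Wm y) w = ∫ gs ε (x - y) [quad (Wm x) w + ε^2 tr (Wm x)] dx` (`quad_av`), with
`quad (Wm x) w = (N w - |ip w x|^2/N x)/N x`, `tr Wm = 2/N x`. For two orthonormal pairs there is a unitary matrix `U` (Mathlib: complete both to
orthonormal bases; here: rows; or use `U = ` product of the two unitary matrices `(y, w, conj(cr y w))`) with `U y = y₀`, `U w = w₀`; the change of variables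
`x ↦ U x` preserves Lebesgue measure, `N`, `ip` and so the integral. Alternatively avoid unitaries: `M ↦` … any proof that the integral
depends only on the Gram matrix of `(y, w)`. So `quad (av ε Wm y) w = c ε`, where `c ε` is the value for `y₀ = e_0`, `w₀ = e_1`.
`c ε ≥ 0` (the integrand is `≥ 0`), and for `ε ≤ 1`: `c ε ≤ ∫ gs ε (x - y) (1 + 2)/N x dx ≤ 3 C` (`gs_div_bdd`). It is real.
Then `qq Wm (sm F μ ε) = qq (sm) Wm = ∫ pr F (av ε Wm) dμ = ∫ c ε dμ = c ε` (`pr_eq`, `wv_unit`, `wv_orth`, `hμ.prob`).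
-/

open MeasureTheory
open scoped ContDiff BigOperators ComplexConjugate Matrix

namespace Pool.Agent.H85.DC

theorem SmD_ip (x y : V) :
    ip x y = x 0 * conj (y 0) + x 1 * conj (y 1) + x 2 * conj (y 2) := by
  simp [ip, Fin.sum_univ_three]

theorem SmD_N (x : V) :
    (N x : ℂ) = x 0 * conj (x 0) + x 1 * conj (x 1) + x 2 * conj (x 2) := by
  simp only [N, Fin.sum_univ_three, Complex.ofReal_add, Complex.mul_conj]

/-- the matrix with rows `conj y`, `conj w`, `cr y w` -/
noncomputable def SmD_M (y w : V) : M3 :=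
  Matrix.of ![fun k => conj (y k), fun k => conj (w k), fun k => cr y w k]

theorem SmD_mulVec (y w x : V) : (SmD_M y w).mulVec x =
    ![ip x y, ip x w, cr y w 0 * x 0 + cr y w 1 * x 1 + cr y w 2 * x 2] := by
  ext j
  fin_cases j <;> simp [SmD_M, Matrix.mulVec, dotProduct, Fin.sum_univ_three, SmD_ip, mul_comm]

theorem SmD_unit {y w : V} (hy : N y = 1) (hw : N w = 1) (hyw : ip w y = 0) :
    SmD_M y w * (SmD_M y w)ᴴ = 1 := by
  have e1 : y 0 * conj (y 0) + y 1 * conj (y 1) + y 2 * conj (y 2) = 1 := by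
    rw [← SmD_N, hy]; norm_num
  have e2 : w 0 * conj (w 0) + w 1 * conj (w 1) + w 2 * conj (w 2) = 1 := by
    rw [← SmD_N, hw]; norm_num
  have e3 : w 0 * conj (y 0) + w 1 * conj (y 1) + w 2 * conj (y 2) = 0 := by
    rw [← SmD_ip, hyw]
  have e4 : y 0 * conj (w 0) + y 1 * conj (w 1) + y 2 * conj (w 2) = 0 := by
    have := congrArg conj e3
    simp only [map_add, map_mul, Complex.conj_conj, map_zero] at this
    linear_combination this
  have e5 : N (cr y w) = 1 := by
    rw [tau_cross, hy, hw]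
    have : Complex.normSq (ip y w) = 0 := by
      rw [SmD_ip, e4]; simp
    rw [this]; norm_num
  have e6 : cr y w 0 * conj (cr y w 0) + cr y w 1 * conj (cr y w 1) + cr y w 2 * conj (cr y w 2) = 1 := by
    rw [← SmD_N, e5]; norm_num
  have c0 : cr y w 0 = y 1 * w 2 - y 2 * w 1 := rfl
  have c1 : cr y w 1 = y 2 * w 0 - y 0 * w 2 := rfl
  have c2 : cr y w 2 = y 0 * w 1 - y 1 * w 0 := rfl
  ext i j
  fin_cases i <;> fin_cases j <;>
    simp [SmD_M, Matrix.mul_apply, Fin.sum_univ_three]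
  · linear_combination e1
  · linear_combination e3
  · rw [c0, c1, c2]; simp only [map_sub, map_mul]; ring
  · linear_combination e4
  · linear_combination e2
  · rw [c0, c1, c2]; simp only [map_sub, map_mul]; ring
  · rw [c0, c1, c2]; ring
  · rw [c0, c1, c2]; ring
  · linear_combination e6

theorem SmD_N_mul {M : M3} (h : Mᴴ * M = 1) (x : V) : N (M.mulVec x) = N x := by
  have key : ∀ z : V, (N z : ℂ) = star z ⬝ᵥ z := by
    intro z
    rw [SmD_N]
    simp [dotProduct, Fin.sum_univ_three, mul_comm]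
  have h1 : (N (M.mulVec x) : ℂ) = (N x : ℂ) := by
    rw [key, key, Matrix.star_mulVec, ← Matrix.dotProduct_mulVec, Matrix.mulVec_mulVec, h,
      Matrix.one_mulVec]
  exact_mod_cast h1

theorem SmD_gs_meas (ε : ℝ) : Measurable (fun x : V => ENNReal.ofReal (gs ε (x - 0))) := by
  have h : Continuous (fun x : V => gs ε (x - 0)) := by
    unfold gs
    have h1 : Continuous (fun x : V => N (x - 0)) :=
      continuous_N.comp (continuous_id.sub continuous_const)
    exact continuous_const.mul (Real.continuous_exp.comp ((h1.neg).div_const _))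
  exact ENNReal.measurable_ofReal.comp h.measurable

theorem SmD_mp {M : M3} (h1 : M * Mᴴ = 1) (h2 : Mᴴ * M = 1) :
    MeasurePreserving (fun x : V => M.mulVec x) (volume : Measure V) volume := by
  obtain ⟨f, hf⟩ : ∃ f : V ≃ₗ[ℝ] V, ∀ x, f x = M.mulVec x :=
    ⟨(Matrix.toLin'OfInv h2 h1).restrictScalars ℝ, fun x => rfl⟩
  have hdet : LinearMap.det (f : V →ₗ[ℝ] V) ≠ 0 := (LinearEquiv.isUnit_det' f).ne_zero
  have hcont : Continuous (f : V →ₗ[ℝ] V) := LinearMap.continuous_of_finiteDimensional _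
  have hmap := Measure.map_linearMap_addHaar_eq_smul_addHaar (volume : Measure V) hdet
  obtain ⟨k, hk⟩ : ∃ k : ENNReal, k = ENNReal.ofReal |(LinearMap.det (f : V →ₗ[ℝ] V))⁻¹| := ⟨_, rfl⟩
  rw [← hk] at hmap
  have hg := gs_int (ε := 1) one_pos (0 : V)
  have hfun : (fun x : V => ENNReal.ofReal (gs 1 ((f : V →ₗ[ℝ] V) x - 0))) =
      fun x : V => ENNReal.ofReal (gs 1 (x - 0)) := by
    funext x
    congr 1
    unfold gs
    have : N ((f : V →ₗ[ℝ] V) x - 0) = N (x - 0) := by
      rw [sub_zero, sub_zero]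
      show N (f x) = N x
      rw [hf, SmD_N_mul h2]
    rw [this]
  have hk1 : k = 1 := by
    have e1 : ∫⁻ x : V, ENNReal.ofReal (gs 1 (x - 0)) ∂(Measure.map (f : V →ₗ[ℝ] V) volume) = 1 := by
      rw [lintegral_map (SmD_gs_meas 1) hcont.measurable, hfun]
      exact hg
    rw [hmap, lintegral_smul_measure, hg, smul_eq_mul, mul_one] at e1
    exact e1
  rw [hk1, one_smul] at hmap
  refine ⟨?_, ?_⟩
  · have : (fun x : V => M.mulVec x) = (f : V →ₗ[ℝ] V) := funext fun x => (hf x).symm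
    rw [this]; exact hcont.measurable
  · have : (fun x : V => M.mulVec x) = (f : V →ₗ[ℝ] V) := funext fun x => (hf x).symm
    rw [this]; exact hmap

/-- the first basis vector -/
def SmD_e : V := ![1, 0, 0]

theorem SmD_e_unit : N SmD_e = 1 := by
  simp [N, SmD_e, Fin.sum_univ_three]

/-- the integrand for the standard pair -/
noncomputable def SmD_J (ε : ℝ) (x : V) : ℝ :=
  gs ε (x - SmD_e) * ((1 - Complex.normSq (x 1) / N x) / N x + ε ^ 2 * (2 / N x))

theorem SmD_gs_nonneg {ε : ℝ} (x : V) : 0 ≤ gs ε x := by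
  unfold gs
  positivity

theorem SmD_coord_le (x : V) : Complex.normSq (x 1) ≤ N x := by
  rw [N, Fin.sum_univ_three]
  have h0 := Complex.normSq_nonneg (x 0)
  have h2 := Complex.normSq_nonneg (x 2)
  linarith

theorem SmD_J_nonneg {ε : ℝ} (x : V) : 0 ≤ SmD_J ε x := by
  unfold SmD_J
  apply mul_nonneg (SmD_gs_nonneg _)
  have hN := N_nonneg x
  have h1 : Complex.normSq (x 1) / N x ≤ 1 := div_le_one_of_le₀ (SmD_coord_le x) hN
  have h2 : 0 ≤ (1 - Complex.normSq (x 1) / N x) / N x := div_nonneg (by linarith) hN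
  have h3 : 0 ≤ ε ^ 2 * (2 / N x) := by positivity
  linarith

theorem SmD_J_le {ε : ℝ} (h1 : ε ≤ 1) (h0 : 0 < ε) (x : V) :
    SmD_J ε x ≤ 3 * (gs ε (x - SmD_e) / N x) := by
  unfold SmD_J
  have hN := N_nonneg x
  have hg := SmD_gs_nonneg (ε := ε) (x - SmD_e)
  have h2 : 0 ≤ Complex.normSq (x 1) / N x := div_nonneg (Complex.normSq_nonneg _) hN
  have h3 : (1 - Complex.normSq (x 1) / N x) / N x ≤ 1 / N x :=
    div_le_div_of_nonneg_right (by linarith) hN
  have h4 : ε ^ 2 ≤ 1 := by nlinarith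
  have h5 : 0 ≤ 1 / N x := by positivity
  have h6 : ε ^ 2 * (2 / N x) ≤ 2 * (1 / N x) := by
    have e : 2 / N x = 2 * (1 / N x) := by ring
    rw [e]
    nlinarith
  calc gs ε (x - SmD_e) * ((1 - Complex.normSq (x 1) / N x) / N x + ε ^ 2 * (2 / N x))
      ≤ gs ε (x - SmD_e) * (3 * (1 / N x)) := mul_le_mul_of_nonneg_left (by linarith) hg
    _ = 3 * (gs ε (x - SmD_e) / N x) := by ring

theorem SmD_J_U {y w : V} (hy : N y = 1) (hw : N w = 1) (hyw : ip w y = 0) (ε : ℝ) (x : V) :
    SmD_J ε ((SmD_M y w).mulVec x) = gs ε (x - y) *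
      ((N w - Complex.normSq (ip w x) / N x) / N x + ε ^ 2 * (2 / N x)) := by
  have h1 := SmD_unit hy hw hyw
  have h2 : (SmD_M y w)ᴴ * SmD_M y w = 1 := mul_eq_one_comm.1 h1
  have hUy : (SmD_M y w).mulVec y = SmD_e := by
    rw [SmD_mulVec]
    have a0 : ip y y = 1 := by
      rw [SmD_ip, ← SmD_N, hy]; norm_num
    have a1 : ip y w = 0 := by
      have := congrArg conj hyw
      rw [SmD_ip] at this
      simp only [map_add, map_mul, Complex.conj_conj, map_zero] at this
      rw [SmD_ip]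
      linear_combination this
    have a2 : cr y w 0 * y 0 + cr y w 1 * y 1 + cr y w 2 * y 2 = 0 := by
      show (y 1 * w 2 - y 2 * w 1) * y 0 + (y 2 * w 0 - y 0 * w 2) * y 1 +
        (y 0 * w 1 - y 1 * w 0) * y 2 = 0
      ring
    rw [a0, a1, a2, SmD_e]
  have e1 : N ((SmD_M y w).mulVec x) = N x := SmD_N_mul h2 x
  have e2 : gs ε ((SmD_M y w).mulVec x - SmD_e) = gs ε (x - y) := by
    unfold gs
    rw [← hUy, ← Matrix.mulVec_sub, SmD_N_mul h2]
  have e3 : Complex.normSq ((SmD_M y w).mulVec x 1) = Complex.normSq (ip w x) := by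
    have a3 : (SmD_M y w).mulVec x 1 = ip x w := by
      rw [SmD_mulVec]; rfl
    have a4 : ip x w = conj (ip w x) := by
      rw [SmD_ip, SmD_ip]
      simp only [map_add, map_mul, Complex.conj_conj]
      ring
    rw [a3, a4, Complex.normSq_conj]
  unfold SmD_J
  rw [e1, e2, e3, hw]

theorem SmD_quad {y w : V} (hy : N y = 1) (hw : N w = 1) (hyw : ip w y = 0) {ε : ℝ} (hε : 0 < ε) :
    quad (av ε Wm y) w = ((∫ x, SmD_J ε x : ℝ) : ℂ) := by
  have h1 := SmD_unit hy hw hyw
  have h2 : (SmD_M y w)ᴴ * SmD_M y w = 1 := mul_eq_one_comm.1 h1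
  have hmp := SmD_mp h1 h2
  have hJm : AEStronglyMeasurable (SmD_J ε) (volume : Measure V) := by
    have g1 : Continuous (fun x : V => gs ε (x - SmD_e)) := by
      unfold gs
      have h1 : Continuous (fun x : V => N (x - SmD_e)) :=
        continuous_N.comp (continuous_id.sub continuous_const)
      exact continuous_const.mul (Real.continuous_exp.comp ((h1.neg).div_const _))
    have g2 : Measurable (fun x : V => Complex.normSq (x 1)) :=
      (Complex.continuous_normSq.comp (continuous_apply 1)).measurable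
    have g3 : Measurable N := continuous_N.measurable
    have g4 : Measurable (fun x : V => (1 - Complex.normSq (x 1) / N x) / N x + ε ^ 2 * (2 / N x)) :=
      (((measurable_const.sub (g2.div g3)).div g3).add
        (measurable_const.mul (measurable_const.div g3)))
    exact (g1.measurable.mul g4).aestronglyMeasurable
  have hmap : ∫ x, SmD_J ε x = ∫ x, SmD_J ε ((SmD_M y w).mulVec x) := by
    conv_lhs => rw [← hmp.map_eq]
    exact integral_map hmp.measurable.aemeasurable (by rw [hmp.map_eq]; exact hJm)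
  rw [quad_av form_Wm hε hy hw hyw, hmap, ← integral_complex_ofReal]
  apply integral_congr_ae
  have hne : ∀ᵐ x : V, x ≠ 0 := by
    have : (volume : Measure V) {0} = 0 := by simp
    rw [ae_iff]
    simpa using this
  filter_upwards [hne] with x hx
  rw [SmD_J_U hy hw hyw, quad_Wm hx, trace_Wm hx]
  push_cast
  rfl

theorem sm_mass : ∃ (c : ℝ → ℝ) (C : ℝ), 0 ≤ C ∧ (∀ ε, 0 < ε → ε ≤ 1 → 0 ≤ c ε ∧ c ε ≤ C) ∧
    ∀ (F : Fin 3 → MvPolynomial (Fin 3) ℂ) (μ : Measure V), IsCur F μ →
      ∀ ε, 0 < ε → ε ≤ 1 → qq Wm (sm F μ ε) = (c ε : ℂ) := by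
  obtain ⟨C, hC, hCb⟩ := gs_div_bdd
  refine ⟨fun ε => ∫ x, SmD_J ε x, 3 * C, by positivity, ?_, ?_⟩
  · intro ε hε h1
    refine ⟨integral_nonneg fun x => SmD_J_nonneg x, ?_⟩
    have h2 : ∫ x, SmD_J ε x ≤ ∫ x : V, 3 * (gs ε (x - SmD_e) / N x) := by
      apply integral_mono_of_nonneg (Filter.Eventually.of_forall fun x => SmD_J_nonneg x)
        ((gs_div_int hε SmD_e).const_mul 3)
        (Filter.Eventually.of_forall fun x => SmD_J_le h1 hε x)
    rw [integral_const_mul] at h2
    have h3 := hCb ε SmD_e hε (by linarith) SmD_e_unit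
    show ∫ x, SmD_J ε x ≤ 3 * C
    linarith
  · intro F μ hμ ε hε h1
    have : IsProbabilityMeasure μ := ⟨hμ.prob⟩
    rw [qq_comm, qq_sm hμ form_Wm hε h1]
    have h2 : ∫ y, pr F (av ε Wm) y ∂μ = ∫ _y : V, ((∫ x, SmD_J ε x : ℝ) : ℂ) ∂μ := by
      apply integral_congr_ae
      filter_upwards [hμ.sphere, hμ.sing] with y hy hη
      rw [pr_eq (form_av form_Wm hε) hy, SmD_quad hy (wv_unit hy hη) (wv_orth hy) hε]
    rw [h2, integral_const]
    simp

end Pool.Agent.H85.DC
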