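import Pool.Agent.H85.DC.SmC
import Pool.Agent.H85.DC.SmD

/-!
# Row SmE: the difference of two smoothed currents

`inH0_D`: `sm F μ ε - sm F μ' ε ∈ H` (`inH_sub`), mass `c ε - c ε = 0` (`sm_mass`).
`nn_sm`: for one current `S_ε = sm F μ ε`, put `S' = S_ε - (c ε/π^3) Wm ∈ H0` (`inH0_shift`). `ee (S_ε x) (S_ε x) ≥ 0` (`ee_pos`, `pos_sm`, `herm_sm`), so
`0 ≤ Re qq S_ε S_ε = Re qq S' S' + 2 (c/π^3) Re qq Wm S' + (c/π^3)^2 π^3 = - nn S' S' + c^2/π^3` (`qq_WW`, `inH0_shift` mass `0`), so `nn S' S' ≤ C^2/π^3`.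
`D = S'_1 - S'_2` off `0`… as functions `S_1 - S_2 = S'_1 - S'_2`; `nn D D ≤ 2 nn S'_1 S'_1 + 2 nn S'_2 S'_2` (since `nn (S'_1 + S'_2)(S'_1 + S'_2) ≥ 0`, `hodge`) `≤ 4 C^2/π^3`.
-/

open MeasureTheory
open scoped ContDiff BigOperators ComplexConjugate Matrix

namespace Pool.Agent.H85.DC

/-- The difference of the smoothed currents. -/
noncomputable def DD (F : Fin 3 → MvPolynomial (Fin 3) ℂ) (μ μ' : Measure V) (ε : ℝ) : V → M3 :=
  fun x => sm F μ ε x - sm F μ' ε x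

theorem SmE_pp {A B : V → M3} (hA : IsForm A) (hB : IsForm B) :
    nn (fun x => A x - B x) (fun x => A x - B x) + nn (fun x => A x + B x) (fun x => A x + B x) =
      2 * nn A A + 2 * nn B B := by
  have hS := form_sub hA hB
  have hT := form_add hA hB
  unfold nn
  rw [qq_sub_left hA hB hS, qq_add_left hA hB hT, qq_comm A (fun x => A x - B x),
    qq_comm B (fun x => A x - B x), qq_comm A (fun x => A x + B x),
    qq_comm B (fun x => A x + B x), qq_sub_left hA hB hA, qq_sub_left hA hB hB,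
    qq_add_left hA hB hA, qq_add_left hA hB hB]
  simp only [Complex.add_re, Complex.sub_re]
  ring

theorem SmE_le {A B : V → M3} (hA : InH0 A) (hB : InH0 B) :
    nn (fun x => A x - B x) (fun x => A x - B x) ≤ 2 * nn A A + 2 * nn B B := by
  have h1 := SmE_pp hA.toInH.form hB.toInH.form
  have h2 := hodge (inH0_add hA hB)
  linarith

theorem SmE_shift {A : V → M3} (hA : InH A) {c : ℝ} (hc : qq Wm A = (c : ℂ)) :
    nn (fun x => A x - ((c / Real.pi ^ 3 : ℝ) : ℂ) • Wm x)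
      (fun x => A x - ((c / Real.pi ^ 3 : ℝ) : ℂ) • Wm x) = -(qq A A).re + c ^ 2 / Real.pi ^ 3 := by
  have hp : (Real.pi ^ 3 : ℝ) ≠ 0 := by positivity
  have hW : IsForm (fun x => ((c / Real.pi ^ 3 : ℝ) : ℂ) • Wm x) := form_smul _ form_Wm
  have hS := form_sub hA.form hW
  have hc' : qq A Wm = (c : ℂ) := by rw [qq_comm]; exact hc
  have h1 : qq (fun x => A x - ((c / Real.pi ^ 3 : ℝ) : ℂ) • Wm x)
      (fun x => A x - ((c / Real.pi ^ 3 : ℝ) : ℂ) • Wm x) = qq A A - ((c ^ 2 / Real.pi ^ 3 : ℝ) : ℂ) := by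
    rw [qq_sub_left hA.form hW hS, qq_comm A, qq_sub_left hA.form hW hA.form, qq_smul_left,
      qq_smul_left, hc, qq_comm Wm, qq_sub_left hA.form hW form_Wm, qq_smul_left, hc', qq_WW]
    have e1 : ((c / Real.pi ^ 3 : ℝ) : ℂ) * (((c : ℝ) : ℂ) - ((c / Real.pi ^ 3 : ℝ) : ℂ) *
        ((Real.pi ^ 3 : ℝ) : ℂ)) = 0 := by
      rw [← Complex.ofReal_mul, div_mul_cancel₀ _ hp, sub_self, mul_zero]
    rw [e1, sub_zero]
    congr 1
    rw [← Complex.ofReal_mul]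
    congr 1
    ring
  unfold nn
  rw [h1, Complex.sub_re, Complex.ofReal_re]
  ring

theorem SmE_ae : ∀ᵐ x : V, x ≠ 0 := by
  have h : (volume : Measure V) {(0 : V)} = 0 := measure_singleton _
  exact measure_eq_zero_iff_ae_notMem.mp h

theorem SmE_pos {A : V → M3} (hA : IsForm A) (hh : IsHerm A)
    (hp : ∀ x, x ≠ 0 → ∀ v, 0 ≤ (quad (A x) v).re) : 0 ≤ (qq A A).re := by
  unfold qq
  have h1 : (∫ x, ee (A x) (A x) * (wt x : ℂ)).re = ∫ x, (ee (A x) (A x) * (wt x : ℂ)).re :=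
    (integral_re (ee_int hA hA)).symm
  rw [h1]
  apply integral_nonneg_of_ae
  filter_upwards [SmE_ae] with x hx
  show 0 ≤ (ee (A x) (A x) * (wt x : ℂ)).re
  rw [Complex.re_mul_ofReal]
  exact mul_nonneg (ee_pos (hh x hx) (hp x hx) (hh x hx) (hp x hx)) (Real.exp_pos _).le

theorem inH0_D {F : Fin 3 → MvPolynomial (Fin 3) ℂ} {μ μ' : Measure V} (hμ : IsCur F μ)
    (hμ' : IsCur F μ') (hd : DdcClosed F μ) (hd' : DdcClosed F μ') {ε : ℝ} (hε : 0 < ε)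
    (h1 : ε ≤ 1) : InH0 (DD F μ μ' ε) := by
  refine ⟨inH_sub (inH_sm hμ hd hε h1) (inH_sm hμ' hd' hε h1), ?_⟩
  obtain ⟨c, C, _, _, hc⟩ := sm_mass
  have hf := form_sm hμ hε h1
  have hf' := form_sm hμ' hε h1
  have e1 := hc F μ hμ ε hε h1
  have e2 := hc F μ' hμ' ε hε h1
  show qq Wm (fun x => sm F μ ε x - sm F μ' ε x) = 0
  rw [qq_comm, qq_sub_left hf hf' form_Wm, qq_comm (sm F μ ε), qq_comm (sm F μ' ε), e1, e2, sub_self]

theorem nn_D : ∃ C : ℝ, 0 ≤ C ∧ ∀ (F : Fin 3 → MvPolynomial (Fin 3) ℂ) (μ μ' : Measure V),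
    IsCur F μ → IsCur F μ' → DdcClosed F μ → DdcClosed F μ' → ∀ ε, 0 < ε → ε ≤ 1 →
      nn (DD F μ μ' ε) (DD F μ μ' ε) ≤ C := by
  obtain ⟨c, C, hC, hcC, hc⟩ := sm_mass
  have hp : (0 : ℝ) < Real.pi ^ 3 := by positivity
  refine ⟨4 * (C ^ 2 / Real.pi ^ 3), by positivity, ?_⟩
  intro F μ μ' hμ hμ' hd hd' ε hε h1
  obtain ⟨c0, cC⟩ := hcC ε hε h1
  have hcc : c ε ^ 2 ≤ C ^ 2 := pow_le_pow_left₀ c0 cC 2
  have key : ∀ ν : Measure V, IsCur F ν → DdcClosed F ν →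
      InH0 (fun x => sm F ν ε x - ((c ε / Real.pi ^ 3 : ℝ) : ℂ) • Wm x) ∧
      nn (fun x => sm F ν ε x - ((c ε / Real.pi ^ 3 : ℝ) : ℂ) • Wm x)
        (fun x => sm F ν ε x - ((c ε / Real.pi ^ 3 : ℝ) : ℂ) • Wm x) ≤ C ^ 2 / Real.pi ^ 3 := by
    intro ν hν hdν
    have hH := inH_sm hν hdν hε h1
    refine ⟨inH0_shift hH (hc F ν hν ε hε h1), ?_⟩
    rw [SmE_shift hH (hc F ν hν ε hε h1)]
    have h3 := SmE_pos hH.form hH.herm (fun x hx v => pos_sm hν hε h1 hx v)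
    have h4 : c ε ^ 2 / Real.pi ^ 3 ≤ C ^ 2 / Real.pi ^ 3 := div_le_div_of_nonneg_right hcc hp.le
    linarith
  obtain ⟨a1, b1⟩ := key μ hμ hd
  obtain ⟨a2, b2⟩ := key μ' hμ' hd'
  have h5 := SmE_le a1 a2
  have h6 : DD F μ μ' ε = fun x => (sm F μ ε x - ((c ε / Real.pi ^ 3 : ℝ) : ℂ) • Wm x) -
      (sm F μ' ε x - ((c ε / Real.pi ^ 3 : ℝ) : ℂ) • Wm x) := by
    funext x
    unfold DD
    abel
  rw [h6]
  linarith

end Pool.Agent.H85.DC
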