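import Pool.Agent.H85.DC.TauM
import Pool.Agent.H85.DC.FrmA

/-!
# Row Wv: the direction of the foliation

`eta F y = cr y (Zf F y)` (`TauM.cr`). For `N y = 1`: `N (Zf - ip Zf y • y) = N Zf - |ip Zf y|^2 = N (cr y Zf) = N (eta F y)`
(`tau_cross`, `|ip y Z| = |ip Z y|`), so for `eta F y ≠ 0` the vector `wv F y` has norm `1`, is orthogonal to `y`, and
`cr y (wv F y) = (√N(eta))⁻¹ • eta F y` (`cr` is bilinear, `cr y y = 0`).
`pr_eq`: for a form `A`: `quad (A y) (wv F y) = (N eta)⁻¹ quad (A y) (Zf - c y) = (N eta)⁻¹ quad (A y) Zf` (`quad_perp`).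
Measurability: `Zf F`, `eta F` are continuous (polynomials: `MvPolynomial.continuous_eval`), `wv` measurable.
`eta_hom`: if all `F j` are homogeneous of degree `d`: `eta F (l • y) = l^(d+1) • eta F y` (`MvPolynomial.IsHomogeneous.eval₂`/
`IsHomogeneous` evaluation at `l • y`; `eval (l • y) (F j) = l^d * eval y (F j)`).
`eta_lip`: polynomial maps are Lipschitz on the compact ball `{N ≤ 1}`: `N (eta F y - eta F y') ≤ C N (y - y')` for `N y = N y' = 1`
(continuously differentiable on a convex compact set; or by induction on polynomials: the set of functions bounded and Lipschitz on the ball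
is closed under sums, products and contains constants and coordinates).
`pr_ct`: `pr F (Aᴴ) = conj (pr F A)`. `pr_add` etc. are linear. `pr_Wm`: `pr F Wm y = 1` for `N y = 1`, `eta F y ≠ 0` (`quad_Wm`).
-/

open MeasureTheory
open scoped ContDiff BigOperators ComplexConjugate Matrix

namespace Pool.Agent.H85.DC

theorem cr_self (x : V) : cr x x = 0 := by
  unfold cr
  ext j
  fin_cases j <;> simp <;> ring

theorem cr_add_left (x y z : V) : cr (x + y) z = cr x z + cr y z := by
  unfold cr
  ext j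
  fin_cases j <;> simp <;> ring

theorem cr_sub_left (x y z : V) : cr (x - y) z = cr x z - cr y z := by
  unfold cr
  ext j
  fin_cases j <;> simp <;> ring

theorem cr_sub_right (x y z : V) : cr x (y - z) = cr x y - cr x z := by
  unfold cr
  ext j
  fin_cases j <;> simp <;> ring

theorem cr_smul_left (c : ℂ) (x y : V) : cr (c • x) y = c • cr x y := by
  unfold cr
  ext j
  fin_cases j <;> simp <;> ring

theorem cr_smul_right (c : ℂ) (x y : V) : cr x (c • y) = c • cr x y := by
  unfold cr
  ext j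
  fin_cases j <;> simp <;> ring

theorem eta_cr (F : Fin 3 → MvPolynomial (Fin 3) ℂ) (y : V) : eta F y = cr y (Zf F y) := rfl

private theorem wvN_nonneg (x : V) : 0 ≤ N x := Finset.sum_nonneg fun _ _ => Complex.normSq_nonneg _

private theorem wvN_eq_zero {x : V} (h : N x = 0) : x = 0 := by
  funext j
  have := (Finset.sum_eq_zero_iff_of_nonneg (fun i _ => Complex.normSq_nonneg (x i))).1 h j
    (Finset.mem_univ j)
  exact Complex.normSq_eq_zero.1 this

private theorem wvN_smul (l : ℂ) (x : V) : N (l • x) = Complex.normSq l * N x := by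
  simp only [N, Pi.smul_apply, smul_eq_mul, map_mul, Finset.mul_sum]

private theorem wvN_zero : N (0 : V) = 0 := by simp [N]

private theorem wvN_sub_smul (z y : V) (c : ℂ) :
    N (z - c • y) = N z - 2 * (conj c * ip z y).re + Complex.normSq c * N y := by
  simp only [N, ip, Fin.sum_univ_three, Complex.normSq_apply, Pi.sub_apply, Pi.smul_apply,
    smul_eq_mul, Complex.sub_re, Complex.sub_im, Complex.mul_re, Complex.mul_im, Complex.add_re,
    Complex.add_im, Complex.conj_re, Complex.conj_im]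
  ring

private theorem wv_normSq_ip (x y : V) : Complex.normSq (ip x y) = Complex.normSq (ip y x) := by
  have : ip y x = conj (ip x y) := by
    simp only [ip, map_sum, map_mul, Complex.conj_conj]
    exact Finset.sum_congr rfl fun j _ => mul_comm _ _
  rw [this, Complex.normSq_conj]

private theorem wvN_proj (z y : V) (hy : N y = 1) :
    N (z - ip z y • y) = N z - Complex.normSq (ip z y) := by
  rw [wvN_sub_smul, hy, mul_comm (conj _), Complex.mul_conj, Complex.ofReal_re]
  ring

private theorem wvN_eta (F : Fin 3 → MvPolynomial (Fin 3) ℂ) {y : V} (hy : N y = 1) :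
    N (Zf F y - ip (Zf F y) y • y) = N (eta F y) := by
  rw [wvN_proj _ _ hy, eta_cr, tau_cross, hy, one_mul, wv_normSq_ip]

private theorem wv_ip_self (y : V) : ip y y = (N y : ℂ) := by
  simp only [ip, N, Complex.mul_conj, Complex.ofReal_sum]

private theorem wv_s_sq {t : ℝ} (ht : 0 ≤ t) :
    Complex.normSq ((Real.sqrt t : ℂ)⁻¹) = t⁻¹ := by
  rw [map_inv₀, Complex.normSq_ofReal, Real.mul_self_sqrt ht]

theorem wv_unit {F : Fin 3 → MvPolynomial (Fin 3) ℂ} {y : V} (hy : N y = 1) (h : eta F y ≠ 0) :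
    N (wv F y) = 1 := by
  unfold wv
  rw [wvN_smul, wv_s_sq (wvN_nonneg _), wvN_eta F hy]
  exact inv_mul_cancel₀ fun h0 => h (wvN_eq_zero h0)

theorem wv_orth {F : Fin 3 → MvPolynomial (Fin 3) ℂ} {y : V} (hy : N y = 1) :
    ip (wv F y) y = 0 := by
  have h1 : ∀ (s c : ℂ) (z : V), ip (s • (z - c • y)) y = s * (ip z y - c * ip y y) := by
    intro s c z
    simp only [ip, Pi.smul_apply, Pi.sub_apply, smul_eq_mul, Fin.sum_univ_three]
    ring
  unfold wv
  rw [h1, wv_ip_self, hy]
  simp

theorem wv_cr {F : Fin 3 → MvPolynomial (Fin 3) ℂ} (y : V) :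
    cr y (wv F y) = ((Real.sqrt (N (eta F y)))⁻¹ : ℂ) • eta F y := by
  unfold wv
  rw [cr_smul_right, cr_sub_right, cr_smul_right, cr_self, smul_zero, sub_zero, ← eta_cr]

private theorem wv_ne {y : V} (hy : N y = 1) : y ≠ 0 := by
  rintro rfl
  rw [wvN_zero] at hy
  exact zero_ne_one hy

private theorem quad_smul (B : M3) (s : ℂ) (v : V) :
    quad B (s • v) = (Complex.normSq s : ℂ) * quad B v := by
  unfold quad
  simp only [Pi.smul_apply, smul_eq_mul, map_mul, Finset.mul_sum]
  refine Finset.sum_congr rfl fun j _ => Finset.sum_congr rfl fun k _ => ?_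
  rw [← Complex.mul_conj]
  ring

theorem pr_eq {F : Fin 3 → MvPolynomial (Fin 3) ℂ} {A : V → M3} (hA : IsForm A) {y : V}
    (hy : N y = 1) : pr F A y = quad (A y) (wv F y) := by
  unfold wv
  rw [quad_smul, quad_perp hA (wv_ne hy), wv_s_sq (wvN_nonneg _)]
  unfold pr quad
  rw [div_eq_inv_mul, Complex.ofReal_inv]

theorem continuous_Zf (F : Fin 3 → MvPolynomial (Fin 3) ℂ) : Continuous (Zf F) := by
  unfold Zf
  exact continuous_pi fun j => MvPolynomial.continuous_eval (F j)

/-- The polynomials of `eta`. -/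
private noncomputable def etaP (F : Fin 3 → MvPolynomial (Fin 3) ℂ) : Fin 3 → MvPolynomial (Fin 3) ℂ :=
  ![MvPolynomial.X 1 * F 2 - MvPolynomial.X 2 * F 1, MvPolynomial.X 2 * F 0 - MvPolynomial.X 0 * F 2,
    MvPolynomial.X 0 * F 1 - MvPolynomial.X 1 * F 0]

private theorem eta_etaP (F : Fin 3 → MvPolynomial (Fin 3) ℂ) (y : V) (j : Fin 3) :
    eta F y j = MvPolynomial.eval y (etaP F j) := by
  unfold eta etaP Zf
  fin_cases j <;> simp

theorem continuous_eta (F : Fin 3 → MvPolynomial (Fin 3) ℂ) : Continuous (eta F) := by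
  refine continuous_pi fun j => ?_
  simp only [eta_etaP]
  exact MvPolynomial.continuous_eval _

private theorem wv_continuous_N : Continuous N := by
  unfold N
  exact continuous_finset_sum _ fun j _ => Complex.continuous_normSq.comp (continuous_apply j)

theorem measurable_wv (F : Fin 3 → MvPolynomial (Fin 3) ℂ) : Measurable (wv F) := by
  unfold wv
  have h1 : Measurable fun y : V => ((Real.sqrt (N (eta F y)) : ℂ))⁻¹ :=
    (Complex.measurable_ofReal.comp
      (Real.continuous_sqrt.comp (wv_continuous_N.comp (continuous_eta F))).measurable).inv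
  have h2 : Measurable fun y : V => Zf F y - ip (Zf F y) y • y := by
    have hip : Continuous fun y : V => ip (Zf F y) y := by
      unfold ip
      exact continuous_finset_sum _ fun j _ =>
        ((continuous_apply j).comp (continuous_Zf F)).mul (Complex.continuous_conj.comp (continuous_apply j))
    exact ((continuous_Zf F).sub (hip.smul continuous_id)).measurable
  exact h1.smul h2

theorem eta_hom {F : Fin 3 → MvPolynomial (Fin 3) ℂ} {d : ℕ} (hF : ∀ j, (F j).IsHomogeneous d)
    (l : ℂ) (y : V) : eta F (l • y) = l ^ (d + 1) • eta F y := by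
  have hZ : Zf F (l • y) = l ^ d • Zf F y := by
    funext j
    simp only [Zf, Pi.smul_apply, smul_eq_mul]
    have h := hF j
    rw [MvPolynomial.eval_eq, MvPolynomial.eval_eq, Finset.mul_sum]
    refine Finset.sum_congr rfl fun s hs => ?_
    have hd : ∑ i ∈ s.support, s i = d := by
      have := h (MvPolynomial.mem_support_iff.1 hs)
      rw [Finsupp.weight_apply, Finsupp.sum] at this
      simpa using this
    simp only [Pi.smul_apply, smul_eq_mul, mul_pow, Finset.prod_mul_distrib, Finset.prod_pow_eq_pow_sum]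
    rw [hd]
    ring
  rw [eta_cr, hZ, cr_smul_left, cr_smul_right, smul_smul, ← eta_cr, pow_succ']

private theorem wv_norm_le (y : V) : ‖y‖ ^ 2 ≤ N y := by
  have h : ‖y‖ ≤ Real.sqrt (N y) := by
    refine (pi_norm_le_iff_of_nonneg (Real.sqrt_nonneg _)).2 fun j => ?_
    refine Real.le_sqrt_of_sq_le ?_
    rw [← Complex.normSq_eq_norm_sq]
    exact Finset.single_le_sum (f := fun i => Complex.normSq (y i))
      (fun i _ => Complex.normSq_nonneg _) (Finset.mem_univ j)
  calc ‖y‖ ^ 2 ≤ Real.sqrt (N y) ^ 2 := by gcongr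
    _ = N y := Real.sq_sqrt (wvN_nonneg _)

private theorem poly_lip (p : MvPolynomial (Fin 3) ℂ) : ∃ C : ℝ, 0 ≤ C ∧
    (∀ y : V, ‖y‖ ≤ 1 → ‖MvPolynomial.eval y p‖ ≤ C) ∧
    (∀ y y' : V, ‖y‖ ≤ 1 → ‖y'‖ ≤ 1 →
      ‖MvPolynomial.eval y p - MvPolynomial.eval y' p‖ ≤ C * ‖y - y'‖) := by
  induction p using MvPolynomial.induction_on with
  | C a =>
    refine ⟨‖a‖, norm_nonneg _, fun y _ => by simp, fun y y' _ _ => ?_⟩
    simp only [MvPolynomial.eval_C, sub_self, norm_zero]
    positivity
  | add p q hp hq =>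
    obtain ⟨C, hC, h1, h2⟩ := hp
    obtain ⟨D, hD, h3, h4⟩ := hq
    refine ⟨C + D, by positivity, fun y hy => ?_, fun y y' hy hy' => ?_⟩
    · rw [map_add]
      exact (norm_add_le _ _).trans (add_le_add (h1 y hy) (h3 y hy))
    · rw [map_add, map_add, add_sub_add_comm, add_mul]
      exact (norm_add_le _ _).trans (add_le_add (h2 y y' hy hy') (h4 y y' hy hy'))
  | mul_X p i hp =>
    obtain ⟨C, hC, h1, h2⟩ := hp
    refine ⟨2 * C, by positivity, fun y hy => ?_, fun y y' hy hy' => ?_⟩
    · rw [map_mul, MvPolynomial.eval_X, norm_mul]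
      have : ‖y i‖ ≤ 1 := (norm_le_pi_norm y i).trans hy
      nlinarith [h1 y hy, norm_nonneg (y i), norm_nonneg (MvPolynomial.eval y p)]
    · rw [map_mul, map_mul, MvPolynomial.eval_X, MvPolynomial.eval_X]
      have e : MvPolynomial.eval y p * y i - MvPolynomial.eval y' p * y' i =
          (MvPolynomial.eval y p - MvPolynomial.eval y' p) * y i +
            MvPolynomial.eval y' p * ((y - y') i) := by
        simp only [Pi.sub_apply]; ring
      rw [e]
      refine (norm_add_le _ _).trans ?_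
      rw [norm_mul, norm_mul]
      have a1 : ‖y i‖ ≤ 1 := (norm_le_pi_norm y i).trans hy
      have a2 : ‖(y - y') i‖ ≤ ‖y - y'‖ := norm_le_pi_norm (y - y') i
      have a3 := h2 y y' hy hy'
      have a4 := h1 y' hy'
      have b1 : ‖MvPolynomial.eval y p - MvPolynomial.eval y' p‖ * ‖y i‖ ≤ C * ‖y - y'‖ * 1 := by
        gcongr
      have b2 : ‖MvPolynomial.eval y' p‖ * ‖(y - y') i‖ ≤ C * ‖y - y'‖ := by
        gcongr
      linarith

theorem eta_lip (F : Fin 3 → MvPolynomial (Fin 3) ℂ) :
    ∃ C : ℝ, 0 < C ∧ ∀ y y' : V, N y = 1 → N y' = 1 → N (eta F y - eta F y') ≤ C * N (y - y') := by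
  choose C hC h1 h2 using fun j => poly_lip (etaP F j)
  refine ⟨∑ j, C j ^ 2 + 1, by positivity, fun y y' hy hy' => ?_⟩
  have ny : ‖y‖ ≤ 1 := by
    have := wv_norm_le y
    rw [hy] at this
    nlinarith [norm_nonneg y]
  have ny' : ‖y'‖ ≤ 1 := by
    have := wv_norm_le y'
    rw [hy'] at this
    nlinarith [norm_nonneg y']
  have e : N (eta F y - eta F y') = ∑ j, ‖eta F y j - eta F y' j‖ ^ 2 := by
    unfold N
    exact Finset.sum_congr rfl fun j _ => by rw [Complex.normSq_eq_norm_sq]; rfl
  have hn := wv_norm_le (y - y')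
  rw [e]
  calc ∑ j, ‖eta F y j - eta F y' j‖ ^ 2 ≤ ∑ j, C j ^ 2 * N (y - y') := by
        refine Finset.sum_le_sum fun j _ => ?_
        rw [eta_etaP, eta_etaP]
        calc ‖MvPolynomial.eval y (etaP F j) - MvPolynomial.eval y' (etaP F j)‖ ^ 2
            ≤ (C j * ‖y - y'‖) ^ 2 := by
              have := h2 j y y' ny ny'
              gcongr
          _ = C j ^ 2 * ‖y - y'‖ ^ 2 := by ring
          _ ≤ C j ^ 2 * N (y - y') := by gcongr
    _ = (∑ j, C j ^ 2) * N (y - y') := by rw [Finset.sum_mul]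
    _ ≤ (∑ j, C j ^ 2 + 1) * N (y - y') := by
        have := wvN_nonneg (y - y')
        nlinarith

theorem eta_bdd (F : Fin 3 → MvPolynomial (Fin 3) ℂ) :
    ∃ C : ℝ, 0 < C ∧ ∀ y : V, N y = 1 → N (eta F y) ≤ C := by
  choose C hC h1 h2 using fun j => poly_lip (etaP F j)
  refine ⟨∑ j, C j ^ 2 + 1, by positivity, fun y hy => ?_⟩
  have ny : ‖y‖ ≤ 1 := by
    have := wv_norm_le y
    rw [hy] at this
    nlinarith [norm_nonneg y]
  calc N (eta F y) = ∑ j, ‖MvPolynomial.eval y (etaP F j)‖ ^ 2 := by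
        unfold N
        exact Finset.sum_congr rfl fun j _ => by rw [Complex.normSq_eq_norm_sq, eta_etaP]
    _ ≤ ∑ j, C j ^ 2 := by
        refine Finset.sum_le_sum fun j _ => ?_
        have := h1 j y ny
        gcongr
    _ ≤ _ := by linarith

theorem pr_Wm {F : Fin 3 → MvPolynomial (Fin 3) ℂ} {y : V} (hy : N y = 1) (h : eta F y ≠ 0) :
    pr F Wm y = 1 := by
  rw [pr_eq form_Wm hy, quad_Wm (wv_ne hy), wv_unit hy h, wv_orth hy, hy]
  simp

theorem pr_ct (F : Fin 3 → MvPolynomial (Fin 3) ℂ) (A : V → M3) (y : V) :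
    pr F (fun x => (A x)ᴴ) y = conj (pr F A y) := by
  unfold pr
  rw [map_div₀, Complex.conj_ofReal]
  congr 1
  rw [map_sum, Finset.sum_comm]
  refine Finset.sum_congr rfl fun j _ => ?_
  rw [map_sum]
  refine Finset.sum_congr rfl fun k _ => ?_
  simp only [Matrix.conjTranspose_apply, map_mul, Complex.conj_conj]
  change conj (A y j k) * _ * _ = _
  ring

/-- Forms are bounded on the unit sphere, so `pr F A` is bounded and integrable. -/
theorem pr_bound {F : Fin 3 → MvPolynomial (Fin 3) ℂ} {A : V → M3} {C : ℝ}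
    (hC : ∀ x : V, x ≠ 0 → ∀ j k, ‖A x j k‖ ≤ C / N x) (hA : IsForm A) {y : V}
    (hy : N y = 1) : ‖pr F A y‖ ≤ 3 * C := by
  have hb : ∀ j k, ‖A y j k‖ ≤ C := fun j k => by
    have := hC y (wv_ne hy) j k
    rwa [hy, div_one] at this
  have hC0 : 0 ≤ C := (norm_nonneg _).trans (hb 0 0)
  have hw : N (wv F y) ≤ 1 := by
    by_cases h : eta F y = 0
    · have : wv F y = 0 := by
        unfold wv
        rw [h, wvN_zero]
        simp
      rw [this, wvN_zero]
      exact zero_le_one
    · rw [wv_unit hy h]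
  rw [pr_eq hA hy]
  set w := wv F y
  have hN : N w = ‖w 0‖ ^ 2 + ‖w 1‖ ^ 2 + ‖w 2‖ ^ 2 := by
    simp only [N, Fin.sum_univ_three, Complex.normSq_eq_norm_sq]
  calc ‖quad (A y) w‖ ≤ ∑ j, ∑ k, C * (‖w j‖ * ‖w k‖) := by
        unfold quad
        refine (norm_sum_le _ _).trans (Finset.sum_le_sum fun j _ => ?_)
        refine (norm_sum_le _ _).trans (Finset.sum_le_sum fun k _ => ?_)
        rw [norm_mul, norm_mul, Complex.norm_conj, mul_assoc]
        gcongr
        exact hb j k
    _ = C * (‖w 0‖ + ‖w 1‖ + ‖w 2‖) ^ 2 := by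
        simp only [Fin.sum_univ_three]; ring
    _ ≤ C * 3 := by
        refine mul_le_mul_of_nonneg_left ?_ hC0
        nlinarith [sq_nonneg (‖w 0‖ - ‖w 1‖), sq_nonneg (‖w 0‖ - ‖w 2‖), sq_nonneg (‖w 1‖ - ‖w 2‖)]
    _ = 3 * C := by ring

private theorem measurable_pr {F : Fin 3 → MvPolynomial (Fin 3) ℂ} {A : V → M3} (hA : IsForm A) :
    Measurable (pr F A) := by
  have hA' : ∀ j k, Measurable fun y => A y j k := by
    intro j k
    refine measurable_of_continuousOn_compl_singleton (0 : V) ?_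
    have h1 : ContinuousOn (fun y => A y j) {0}ᶜ := (continuousOn_pi.1 hA.cont) j
    exact (continuousOn_pi.1 h1) k
  have hZ : ∀ j, Measurable fun y => Zf F y j := fun j =>
    ((continuous_apply j).comp (continuous_Zf F)).measurable
  have hN : Measurable fun y : V => (N (eta F y) : ℂ) :=
    Complex.measurable_ofReal.comp (wv_continuous_N.comp (continuous_eta F)).measurable
  unfold pr
  refine Measurable.div ?_ hN
  refine Finset.measurable_fun_sum _ fun j _ => Finset.measurable_fun_sum _ fun k _ => ?_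
  exact ((hA' j k).mul (hZ j)).mul (Complex.continuous_conj.measurable.comp (hZ k))

theorem pr_int {F : Fin 3 → MvPolynomial (Fin 3) ℂ} {A : V → M3} (hA : IsForm A)
    {μ : Measure V} (hμ : IsCur F μ) : Integrable (pr F A) μ := by
  obtain ⟨C, hC0, hC⟩ := form_bound hA
  haveI : IsFiniteMeasure μ := ⟨by rw [hμ.prob]; exact ENNReal.one_lt_top⟩
  refine Integrable.of_bound (measurable_pr hA).aestronglyMeasurable (3 * C) ?_
  filter_upwards [hμ.sphere] with y hy
  exact pr_bound hC hA hy

end Pool.Agent.H85.DC
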